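import Pool.Agent.Work.MP_6d7a54_an.NF.StmtsC

/-!
# Countable algebraically closed subfields of the complex numbers (MP_6d7a54_an)
-/

set_option autoImplicit false

namespace Pool.Agent.Work.MP_6d7a54_an.NF

open MvPolynomial Metric

theorem ACF_proof : S_ACF := by
  intro s
  have hK : Cardinal.mk (Subfield.closure (s : Set ℂ)) ≤ Cardinal.aleph0 := by
    refine (Subfield.cardinalMk_closure_le_max _).trans (max_le ?_ le_rfl)
    exact Cardinal.mk_le_aleph0_iff.2 (Finset.countable_toSet s)
  refine ⟨algebraicClosure (Subfield.closure (s : Set ℂ)) ℂ, inferInstance, inferInstance, ?_, ?_,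
    ?_⟩
  · rw [← Cardinal.mk_le_aleph0_iff]
    exact (Algebra.IsAlgebraic.cardinalMk_le_max (Subfield.closure (s : Set ℂ)) _).trans
      (max_le hK le_rfl)
  · exact (algebraicClosure.isAlgClosure (Subfield.closure (s : Set ℂ)) ℂ).isAlgClosed
  · intro z hz
    exact ⟨algebraMap (Subfield.closure (s : Set ℂ)) (algebraicClosure _ ℂ)
      ⟨z, Subfield.subset_closure hz⟩, rfl⟩

end Pool.Agent.Work.MP_6d7a54_an.NF
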