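import Pool.Agent.Work.MP_6d7a54_an.NF.Stmts
import Pool.Agent.Work.MP_6d7a54_an.UP.Fac

/-!
# Item CL: lower bound away from the zeros
-/

set_option autoImplicit false

namespace Pool.Agent.Work.MP_6d7a54_an.NF

open Complex Metric Real Set

namespace CLx

open Pool.Agent.Work.MP_6d7a54_an.UP.Fac

/-- Harnack's inequality with the centre of the disc -/
theorem harn {h : ℂ → ℂ} {rho : ℝ} {c z : ℂ} (hd : DifferentiableOn ℂ h (ball c rho))
    (hre : ∀ w ∈ ball c rho, 0 ≤ (h w).re) (hz : z ∈ ball c rho) :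
    (h z).re ≤ (rho + ‖z - c‖) / (rho - ‖z - c‖) * (h c).re := by
  have hz1 : ‖z - c‖ < rho := by rwa [mem_ball_iff_norm] at hz
  have hrho : 0 < rho := lt_of_le_of_lt (norm_nonneg _) hz1
  set t := ‖z - c‖ with ht
  have ht0 : 0 ≤ t := norm_nonneg _
  have hrt : 0 < rho - t := by linarith
  have hc0 : 0 ≤ (h c).re := hre c (mem_ball_self hrho)
  refine le_of_forall_pos_le_add fun eta heta => ?_
  set ep := eta * (rho - t) / (2 * t + 1) with hep
  have hep0 : 0 < ep := by positivity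
  have hM : 0 < (h c).re + ep := by linarith
  have hmaps : ∀ w ∈ ball (0 : ℂ) rho, c + w ∈ ball c rho := by
    intro w hw
    rw [mem_ball_iff_norm]
    rw [mem_ball_zero_iff] at hw
    simpa using hw
  have hF : DifferentiableOn ℂ (fun w => h c - h (c + w)) (ball 0 rho) := by
    refine (differentiableOn_const _).sub ?_
    exact hd.comp (by fun_prop) hmaps
  have h1 := Complex.borelCaratheodory_zero (f := fun w => h c - h (c + w)) (R := rho)
    (z := z - c) hM hF (fun w hw => by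
      have := hre _ (hmaps w hw)
      simp only [mem_ofPred_eq, sub_re]
      linarith) hrho (by rw [mem_ball_zero_iff]; exact hz1) (by simp)
  have h2 : (h c - h (c + (z - c))).re ≥ -‖h c - h (c + (z - c))‖ := by
    have := Complex.abs_re_le_norm (h c - h (c + (z - c)))
    have h3 := neg_abs_le (h c - h (c + (z - c))).re
    linarith
  have h3 : c + (z - c) = z := by ring
  simp only [h3] at h1 h2
  rw [sub_re] at h2
  rw [← ht] at h1
  have h4 : 2 * ((h c).re + ep) * t / (rho - t) =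
      2 * (h c).re * t / (rho - t) + eta * (2 * t / (2 * t + 1)) := by
    rw [hep]
    field_simp
  have h5 : 2 * t / (2 * t + 1) ≤ 1 := by
    rw [div_le_one (by positivity)]
    linarith
  have h6 : (rho + t) / (rho - t) * (h c).re = (h c).re + 2 * (h c).re * t / (rho - t) := by
    field_simp
    ring
  rw [h6]
  nlinarith

theorem norm_sq_id (S : ℝ) (a p : ℂ) : ‖(S : ℂ) ^ 2 - (starRingEnd ℂ) a * p‖ ^ 2 =
    S ^ 2 * ‖p - a‖ ^ 2 + (S ^ 2 - ‖p‖ ^ 2) * (S ^ 2 - ‖a‖ ^ 2) := by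
  rw [← Complex.normSq_eq_norm_sq, ← Complex.normSq_eq_norm_sq, ← Complex.normSq_eq_norm_sq,
    ← Complex.normSq_eq_norm_sq]
  have h1 : ((S : ℂ) ^ 2) = ((S ^ 2 : ℝ) : ℂ) := by push_cast; ring
  rw [h1]
  simp only [Complex.normSq_apply, sub_re, sub_im, mul_re, mul_im, conj_re, conj_im, ofReal_re,
    ofReal_im]
  ring

/-- the value of the Blaschke denominator against the numerator -/
theorem bl_ratio {R : ℝ} (hR : 0 < R) {a p : ℂ} (ha : ‖a‖ ≤ 9 * R / 10) (hp : ‖p‖ ≤ R / 4) :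
    (103 / 100) * ‖p - a‖ ≤ ‖bl (19 * R / 20) a p‖ := by
  have hR' : 0 < 19 * R / 20 := by positivity
  unfold bl
  rw [norm_div, Complex.norm_real, Real.norm_of_nonneg hR'.le, le_div_iff₀ hR']
  refine le_of_sq_le_sq ?_ (norm_nonneg _)
  rw [norm_sq_id]
  have h1 : ‖p - a‖ ≤ 115 * R / 100 := by
    have := norm_sub_le p a
    linarith
  have h2 : ‖p - a‖ ^ 2 ≤ (115 * R / 100) ^ 2 := pow_le_pow_left₀ (norm_nonneg _) h1 2
  have h3 : ‖p‖ ^ 2 ≤ (R / 4) ^ 2 := pow_le_pow_left₀ (norm_nonneg _) hp 2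
  have h4 : ‖a‖ ^ 2 ≤ (9 * R / 10) ^ 2 := pow_le_pow_left₀ (norm_nonneg _) ha 2
  have h5 : (84 / 100 * R ^ 2) * (925 / 10000 * R ^ 2) ≤
      ((19 * R / 20) ^ 2 - ‖p‖ ^ 2) * ((19 * R / 20) ^ 2 - ‖a‖ ^ 2) := by
    apply mul_le_mul
    · nlinarith
    · nlinarith
    · positivity
    · nlinarith [sq_nonneg R]
  have h6 : (103 / 100 * ‖p - a‖ * (19 * R / 20)) ^ 2 =
      (19 * R / 20) ^ 2 * ‖p - a‖ ^ 2 + (609 / 10000) * (19 * R / 20) ^ 2 * ‖p - a‖ ^ 2 := by
    ring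
  have h7 : (609 / 10000) * (19 * R / 20) ^ 2 * ‖p - a‖ ^ 2 ≤
      (609 / 10000) * (19 * R / 20) ^ 2 * (115 * R / 100) ^ 2 :=
    mul_le_mul_of_nonneg_left h2 (by positivity)
  have h8 : (609 / 10000) * (19 * R / 20) ^ 2 * (115 * R / 100) ^ 2 ≤
      (84 / 100 * R ^ 2) * (925 / 10000 * R ^ 2) := by
    have : 0 ≤ R ^ 4 := by positivity
    nlinarith
  rw [h6]
  linarith

theorem HH_p {f g : ℂ → ℂ} {R : ℝ} {n : ℕ} {a : Fin n → ℂ} {p : ℂ}
    (h : PF f R (9 * R / 10) n a g) (hR : 0 < R) (hp : ‖p‖ ≤ R / 4) :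
    ‖f p‖ * (103 / 100) ^ n ≤ ‖HH (19 * R / 20) a g p‖ := by
  have hpR : p ∈ ball (0 : ℂ) R := by
    rw [mem_ball_zero_iff]; linarith
  rw [h.eq p hpR]
  unfold HH
  rw [norm_mul, norm_mul, norm_prod, norm_prod]
  have h1 : (∏ i, ‖p - a i‖) * (103 / 100 : ℝ) ^ n ≤ ∏ i, ‖bl (19 * R / 20) (a i) p‖ := by
    have h2 : (∏ i, ‖p - a i‖) * (103 / 100 : ℝ) ^ n = ∏ i : Fin n, (103 / 100 * ‖p - a i‖) := by
      rw [Finset.prod_mul_distrib, Finset.prod_const, Finset.card_univ, Fintype.card_fin, mul_comm]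
    rw [h2]
    exact Finset.prod_le_prod (fun i _ => by positivity) fun i _ => bl_ratio hR (h.ha i) hp
  calc (∏ i, ‖p - a i‖) * ‖g p‖ * (103 / 100) ^ n
      = ((∏ i, ‖p - a i‖) * (103 / 100) ^ n) * ‖g p‖ := by ring
    _ ≤ _ := mul_le_mul_of_nonneg_right h1 (norm_nonneg _)

/-- the factorisation with the base point `p` -/
theorem fac {f : ℂ → ℂ} {R M : ℝ} {p : ℂ} (hR : 0 < R) (hp : ‖p‖ ≤ R / 4)
    (hf : DifferentiableOn ℂ f (ball 0 R)) (hM : ∀ z ∈ ball (0 : ℂ) R, ‖f z‖ ≤ M)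
    (hfp : f p ≠ 0) :
    ∃ (n : ℕ) (a : Fin n → ℂ) (H : ℂ → ℂ), (∀ i, ‖a i‖ ≤ 9 * R / 10) ∧
      DifferentiableOn ℂ H (ball 0 R) ∧ (∀ z : ℂ, ‖z‖ ≤ 9 * R / 10 → H z ≠ 0) ∧
      (∀ z : ℂ, ‖z‖ ≤ 19 * R / 20 → ‖H z‖ ≤ M) ∧ ‖f p‖ * (103 / 100) ^ n ≤ ‖H p‖ ∧
      ∀ z : ℂ, ‖z‖ ≤ 4 * R / 5 → ‖H z‖ * ∏ i, (1 / 2 * (‖z - a i‖ / R)) ≤ ‖f z‖ := by
  have hR' : 0 < 19 * R / 20 := by positivity
  have hfp0 : 0 < ‖f p‖ := norm_pos_iff.2 hfp
  obtain ⟨n, a, g, hPF, hg⟩ : ∃ (n : ℕ) (a : Fin n → ℂ) (g : ℂ → ℂ),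
      PF f R (9 * R / 10) n a g ∧ ∀ b : ℂ, ‖b‖ ≤ 9 * R / 10 → g b ≠ 0 := by
    by_contra hcon
    push Not at hcon
    have hall : ∀ n : ℕ, ∃ (a : Fin n → ℂ) (g : ℂ → ℂ), PF f R (9 * R / 10) n a g := by
      intro n
      induction n with
      | zero => exact ⟨Fin.elim0, f, hf, fun i => i.elim0, fun z _ => by simp⟩
      | succ n ih =>
        obtain ⟨a, g, h⟩ := ih
        obtain ⟨b, hb, hgb⟩ := hcon n a g h
        exact ⟨_, _, h.ext (by linarith) hb hgb⟩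
    obtain ⟨n, hn⟩ := pow_unbounded_of_one_lt (M / ‖f p‖) (show (1 : ℝ) < 103 / 100 by norm_num)
    obtain ⟨a, g, h⟩ := hall n
    have h3 := (HH_p h hR hp).trans (HH_le h hR' (by linarith) hM p (by linarith))
    rw [div_lt_iff₀ hfp0] at hn
    linarith
  refine ⟨n, a, HH (19 * R / 20) a g, hPF.ha, HH_diff hPF _, ?_,
    HH_le hPF hR' (by linarith) hM, HH_p hPF hR hp, ?_⟩
  · intro z hz
    unfold HH
    refine mul_ne_zero (Finset.prod_ne_zero_iff.2 fun i _ => ?_) (hg z hz)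
    unfold bl
    have h3 := bl_ne (R := 19 * R / 20) (r := 9 * R / 10) (by positivity) (by linarith) (hPF.ha i)
      (z := z) (by linarith)
    have h4 : 0 < 19 * R / 20 * (19 * R / 20 - 9 * R / 10) := mul_pos hR' (by linarith)
    have h5 : ((19 * R / 20 : ℝ) : ℂ) ^ 2 - (starRingEnd ℂ) (a i) * z ≠ 0 :=
      norm_pos_iff.1 (h4.trans_le h3)
    have h6 : ((19 * R / 20 : ℝ) : ℂ) ≠ 0 := by exact_mod_cast hR'.ne'
    exact div_ne_zero h5 h6
  · intro z hz
    have hzR : z ∈ ball (0 : ℂ) R := by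
      rw [mem_ball_zero_iff]; linarith
    rw [hPF.eq z hzR]
    unfold HH
    rw [norm_mul, norm_mul, norm_prod, norm_prod]
    have h1 : (∏ i, ‖bl (19 * R / 20) (a i) z‖) * (∏ i, (1 / 2 * (‖z - a i‖ / R))) ≤
        ∏ i, ‖z - a i‖ := by
      rw [← Finset.prod_mul_distrib]
      refine Finset.prod_le_prod (fun i _ => by positivity) fun i _ => ?_
      have h2 : ‖bl (19 * R / 20) (a i) z‖ ≤ 2 * R := by
        unfold bl
        rw [norm_div, Complex.norm_real, Real.norm_of_nonneg hR'.le, div_le_iff₀ hR']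
        have h3 := norm_sub_le (((19 * R / 20 : ℝ) : ℂ) ^ 2) ((starRingEnd ℂ) (a i) * z)
        rw [norm_mul, RCLike.norm_conj, norm_pow, Complex.norm_real,
          Real.norm_of_nonneg hR'.le] at h3
        have h4 : ‖a i‖ * ‖z‖ ≤ (9 * R / 10) * (4 * R / 5) :=
          mul_le_mul (hPF.ha i) hz (norm_nonneg _) (by positivity)
        nlinarith [sq_nonneg R]
      calc ‖bl (19 * R / 20) (a i) z‖ * (1 / 2 * (‖z - a i‖ / R))
          ≤ (2 * R) * (1 / 2 * (‖z - a i‖ / R)) :=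
            mul_le_mul_of_nonneg_right h2 (by positivity)
        _ = ‖z - a i‖ := by field_simp
    calc (∏ i, ‖bl (19 * R / 20) (a i) z‖) * ‖g z‖ * ∏ i, (1 / 2 * (‖z - a i‖ / R))
        = ((∏ i, ‖bl (19 * R / 20) (a i) z‖) * (∏ i, (1 / 2 * (‖z - a i‖ / R)))) * ‖g z‖ := by
          ring
      _ ≤ _ := mul_le_mul_of_nonneg_right h1 (norm_nonneg _)

/-- the lemma with centre zero -/
theorem centred {f : ℂ → ℂ} {R A : ℝ} {p : ℂ} (hR : 0 < R) (hA : 0 ≤ A) (hp : ‖p‖ ≤ R / 4)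
    (hf : DifferentiableOn ℂ f (ball 0 R)) (hM : ∀ z ∈ ball (0 : ℂ) R, ‖f z‖ ≤ Real.exp A)
    (hfp : Real.exp (-A) ≤ ‖f p‖) :
    ∃ (n : ℕ) (w : Fin n → ℂ), (n : ℝ) ≤ 200 * A ∧ ∀ z : ℂ, ‖z‖ ≤ 4 * R / 5 →
      Real.exp (-(200 * A)) * ∏ l, min 1 (‖z - w l‖ / R) ≤ ‖f z‖ := by
  have hfp0 : f p ≠ 0 := by
    intro h0
    rw [h0, norm_zero] at hfp
    exact absurd (Real.exp_pos (-A)) (not_lt.2 hfp)
  obtain ⟨n, a, H, ha, hHd, hH0, hHM, hHp, hHf⟩ := fac hR hp hf hM hfp0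
  have hn : (n : ℝ) ≤ 70 * A := by
    have h1 : Real.exp (-A) * (103 / 100) ^ n ≤ Real.exp A :=
      ((mul_le_mul_of_nonneg_right hfp (by positivity)).trans hHp).trans
        (hHM p (by linarith))
    have h2 := Real.log_le_log (by positivity) h1
    rw [Real.log_mul (Real.exp_pos _).ne' (by positivity), Real.log_exp, Real.log_exp,
      Real.log_pow] at h2
    have h3 : (3 : ℝ) / 103 ≤ Real.log (103 / 100) := by
      have := Real.one_sub_inv_le_log_of_pos (show (0 : ℝ) < 103 / 100 by norm_num)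
      norm_num at this ⊢
      linarith
    have h4 : (n : ℝ) * (3 / 103) ≤ n * Real.log (103 / 100) :=
      mul_le_mul_of_nonneg_left h3 (Nat.cast_nonneg n)
    linarith
  have hHp1 : Real.exp (-A) ≤ ‖H p‖ := by
    have h1 : (1 : ℝ) ≤ (103 / 100) ^ n := one_le_pow₀ (by norm_num)
    have h2 : ‖f p‖ ≤ ‖f p‖ * (103 / 100) ^ n := le_mul_of_one_le_right (norm_nonneg _) h1
    linarith
  have hsub : ball (0 : ℂ) (9 * R / 10) ⊆ ball 0 R := ball_subset_ball (by linarith)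
  obtain ⟨L, hLd, hLe, -, -⟩ := exists_log (H := H) (r := 9 * R / 10) (by positivity)
    (hHd.mono hsub) (fun z hz => hH0 z (by rw [mem_ball_zero_iff] at hz; exact hz.le))
  have hLn : ∀ z ∈ ball (0 : ℂ) (9 * R / 10), ‖H z‖ = Real.exp (L z).re := by
    intro z hz
    rw [← hLe z hz, Complex.norm_exp]
  have hre : ∀ z ∈ ball (0 : ℂ) (9 * R / 10), 0 ≤ ((A : ℂ) - L z).re := by
    intro z hz
    have h1 : ‖H z‖ ≤ Real.exp A := hHM z (by rw [mem_ball_zero_iff] at hz; linarith)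
    rw [hLn z hz, Real.exp_le_exp] at h1
    simp only [sub_re, ofReal_re]
    linarith
  have hd : DifferentiableOn ℂ (fun z => (A : ℂ) - L z) (ball 0 (9 * R / 10)) :=
    (differentiableOn_const _).sub hLd
  have hpb : p ∈ ball (0 : ℂ) (9 * R / 10) := by rw [mem_ball_zero_iff]; linarith
  have hp2 : ((A : ℂ) - L p).re ≤ 2 * A := by
    rw [hLn p hpb, Real.exp_le_exp] at hHp1
    simp only [sub_re, ofReal_re]
    linarith
  have h0 : ((A : ℂ) - L 0).re ≤ 6 * A := by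
    have hsub2 : ball p (13 * R / 20) ⊆ ball (0 : ℂ) (9 * R / 10) := by
      intro w hw
      rw [mem_ball_iff_norm] at hw
      rw [mem_ball_zero_iff]
      have := norm_add_le (w - p) p
      rw [sub_add_cancel] at this
      linarith
    have h1 := harn (h := fun z => (A : ℂ) - L z) (rho := 13 * R / 20) (c := p) (z := 0)
      (hd.mono hsub2) (fun w hw => hre w (hsub2 hw)) (by
        rw [mem_ball_iff_norm, zero_sub, norm_neg]; linarith)
    rw [zero_sub, norm_neg] at h1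
    have h2 : (13 * R / 20 + ‖p‖) / (13 * R / 20 - ‖p‖) ≤ 3 := by
      rw [div_le_iff₀ (by linarith)]
      linarith
    have h3 := mul_le_mul_of_nonneg_right h2 (hre p hpb)
    linarith
  have hz17 : ∀ z : ℂ, ‖z‖ ≤ 4 * R / 5 → ((A : ℂ) - L z).re ≤ 102 * A := by
    intro z hz
    have hzb : z ∈ ball (0 : ℂ) (9 * R / 10) := by rw [mem_ball_zero_iff]; linarith
    have h1 := harn (h := fun z => (A : ℂ) - L z) (rho := 9 * R / 10) (c := 0) (z := z)
      hd hre hzb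
    rw [sub_zero] at h1
    have h2 : (9 * R / 10 + ‖z‖) / (9 * R / 10 - ‖z‖) ≤ 17 := by
      rw [div_le_iff₀ (by linarith)]
      linarith
    have h3 := mul_le_mul_of_nonneg_right h2 (hre 0 (mem_ball_self (by positivity)))
    linarith
  refine ⟨n, a, by linarith, fun z hz => ?_⟩
  refine le_trans ?_ (hHf z hz)
  have hzb : z ∈ ball (0 : ℂ) (9 * R / 10) := by rw [mem_ball_zero_iff]; linarith
  have h1 : Real.exp (-(101 * A)) ≤ ‖H z‖ := by
    rw [hLn z hzb, Real.exp_le_exp]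
    have := hz17 z hz
    simp only [sub_re, ofReal_re] at this
    linarith
  have h2 : Real.exp (-(70 * A)) * ∏ l, min 1 (‖z - a l‖ / R) ≤
      ∏ i, (1 / 2 * (‖z - a i‖ / R)) := by
    rw [Finset.prod_mul_distrib, Finset.prod_const, Finset.card_univ, Fintype.card_fin]
    refine mul_le_mul ?_ ?_ (by positivity) (by positivity)
    · have h3 : Real.exp (-1) ≤ 1 / 2 := by
        rw [Real.exp_neg, inv_eq_one_div]
        apply one_div_le_one_div_of_le (by norm_num)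
        have := Real.add_one_le_exp (1 : ℝ)
        linarith
      calc Real.exp (-(70 * A)) ≤ Real.exp (-(n : ℝ)) := by
            rw [Real.exp_le_exp]; linarith
        _ = Real.exp (-1) ^ n := by rw [← Real.exp_nat_mul]; ring_nf
        _ ≤ (1 / 2) ^ n := pow_le_pow_left₀ (Real.exp_pos _).le h3 n
    · exact Finset.prod_le_prod (fun i _ => by positivity) fun i _ => min_le_right _ _
  calc Real.exp (-(200 * A)) * ∏ l, min 1 (‖z - a l‖ / R)
      ≤ (Real.exp (-(101 * A)) * Real.exp (-(70 * A))) * ∏ l, min 1 (‖z - a l‖ / R) := by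
        refine mul_le_mul_of_nonneg_right ?_ (by positivity)
        rw [← Real.exp_add, Real.exp_le_exp]
        linarith
    _ = Real.exp (-(101 * A)) * (Real.exp (-(70 * A)) * ∏ l, min 1 (‖z - a l‖ / R)) := by ring
    _ ≤ _ := mul_le_mul h1 h2 (by positivity) (norm_nonneg _)

end CLx

open CLx in
theorem CL_proof : S_CL := by
  refine ⟨200, by norm_num, ?_⟩
  intro f c p R A hR hA hf hM hp hfp
  have hmaps : ∀ w ∈ ball (0 : ℂ) R, c + w ∈ closedBall c R := by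
    intro w hw
    rw [mem_closedBall_iff_norm]
    rw [mem_ball_zero_iff] at hw
    simpa using hw.le
  have hp1 : ‖p - c‖ ≤ R / 4 := by rwa [mem_closedBall_iff_norm] at hp
  have hcp : c + (p - c) = p := by ring
  obtain ⟨n, w, hn, hw⟩ := centred (f := fun z => f (c + z)) (R := R) (A := A) (p := p - c) hR hA
    hp1 (hf.differentiableOn.comp (by fun_prop) hmaps) (fun z hz => hM _ (hmaps z hz))
    (by simpa only [hcp] using hfp)
  refine ⟨n, fun i => c + w i, hn, fun z hz => ?_⟩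
  have hz1 : ‖z - c‖ ≤ 4 * R / 5 := by rwa [mem_closedBall_iff_norm] at hz
  have h1 := hw (z - c) hz1
  have hcz : c + (z - c) = z := by ring
  simp only [hcz] at h1
  have h2 : ∀ i, z - (c + w i) = z - c - w i := fun i => by ring
  simp only [h2]
  exact h1

end Pool.Agent.Work.MP_6d7a54_an.NF
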