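import Pool.Agent.Work.MP_6d7a54_an.NF.I_ev

/-!
# Nevanlinna fields: good centres (item Cen)
-/

set_option autoImplicit false

namespace Pool.Agent.Work.MP_6d7a54_an.NF

open Filter Metric Set Topology Real

noncomputable section

namespace Cenx

theorem countable_DP (F I : Type) [Field F] [Countable F] [Fintype I] : Countable (DP F I) := by
  rw [← Cardinal.mk_le_aleph0_iff]
  refine (MvPolynomial.cardinalMk_le_max).trans ?_
  refine max_le (max_le ?_ ?_) le_rfl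
  · exact Cardinal.mk_le_aleph0_iff.2 inferInstance
  · exact Cardinal.mk_le_aleph0_iff.2 inferInstance

theorem UF_of_atTop {p : ℕ → Prop} (h : ∀ᶠ n in atTop, p n) : ∀ᶠ n in UF, p n := by
  rw [← Nat.cofinite_eq_atTop] at h
  exact hyperfilter_le_cofinite h

theorem UF_ge (N : ℕ) : ∀ᶠ n in UF, N ≤ n := UF_of_atTop (eventually_ge_atTop N)

theorem Mx_le (h1 : S_Mx) {d : ℕ} {u : Fin d → ℂ → ℂ}
    (hu : ∀ i, DifferentiableOn ℂ (u i) (ball 0 1)) {r s : ℝ} (hr : 0 < r) (hrs : r ≤ s)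
    (hs : s < 1) : Mx u r ≤ r / s * Mx u s := by
  have hs0 : 0 < s := hr.trans_le hrs
  have h := (h1 d u hu).2.2.1 (r / s) s (by positivity) (by rw [div_le_one hs0]; exact hrs) hs0 hs
  rwa [div_mul_cancel₀ _ hs0.ne'] at h

theorem Mx_mono (h1 : S_Mx) {d : ℕ} {u : Fin d → ℂ → ℂ}
    (hu : ∀ i, DifferentiableOn ℂ (u i) (ball 0 1)) {r s : ℝ} (hr : 0 < r) (hrs : r ≤ s)
    (hs : s < 1) : Mx u r ≤ Mx u s := by
  have hs0 : 0 < s := hr.trans_le hrs
  have h := Mx_le h1 hu hr hrs hs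
  have h2 : r / s ≤ 1 := by rw [div_le_one hs0]; exact hrs
  have h3 := (h1 d u hu).1 s
  nlinarith

variable {F I : Type} [Field F] [Algebra F ℂ] {d : ℕ} {C : ℝ} {u0 : Fin d → ℂ}
  {g : ℕ → I → ℂ → ℂ} {u : ℕ → Fin d → ℂ → ℂ} {a b : ℕ → ℝ}

theorem scale (h1 : S_Mx) (hc : Conf F C u0 g u a b) (n : ℕ) (hn : 7 ≤ n) :
    0 < a n ∧ 16 * b n < 1 ∧
    (n : ℝ) * (1 + Real.log (1 / b n)) ≤ Mx (u n) (b n) ∧
    Mx (u n) (b n) ≤ Mx (u n) (16 * b n) ∧ 0 ≤ Mx (u n) (16 * b n) ∧ 0 ≤ Mx (u n) (a n / 16) ∧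
    ((n : ℝ) + 1) ^ 3 * Mx (u n) (16 * b n) ≤ 256 * Mx (u n) (a n / 16) := by
  have hb := hc.hb n
  have hab := hc.hab n
  have ha2 := hc.ha n
  have hn' : (7 : ℝ) ≤ n := by exact_mod_cast hn
  have h8 : (512 : ℝ) ≤ ((n : ℝ) + 1) ^ 3 := by
    have h : (8 : ℝ) ^ 3 ≤ ((n : ℝ) + 1) ^ 3 := pow_le_pow_left₀ (by norm_num) (by linarith) 3
    linarith
  have h9 : 512 * b n ≤ a n := by nlinarith
  have ha : 0 < a n := by linarith
  have h16 : 16 * b n < 1 := by linarith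
  have hM := (h1 d (u n) (hc.dat n).hu).1 (a n / 16)
  refine ⟨ha, h16, hc.big n, Mx_mono h1 (hc.dat n).hu hb (by linarith) h16,
    (h1 d (u n) (hc.dat n).hu).1 _, hM, ?_⟩
  have h := Mx_le h1 (hc.dat n).hu (r := 16 * b n) (s := a n / 16) (by linarith) (by linarith)
    (by linarith)
  have h2 : ((n : ℝ) + 1) ^ 3 * (16 * b n / (a n / 16)) ≤ 256 := by
    rw [← mul_div_assoc, div_le_iff₀ (by linarith)]
    nlinarith
  calc ((n : ℝ) + 1) ^ 3 * Mx (u n) (16 * b n)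
      ≤ ((n : ℝ) + 1) ^ 3 * (16 * b n / (a n / 16) * Mx (u n) (a n / 16)) :=
        mul_le_mul_of_nonneg_left h (by positivity)
    _ = (((n : ℝ) + 1) ^ 3 * (16 * b n / (a n / 16))) * Mx (u n) (a n / 16) := by ring
    _ ≤ 256 * Mx (u n) (a n / 16) := mul_le_mul_of_nonneg_right h2 hM

theorem bound (h1 : S_Mx) (h3 : S_GB) (hc : Conf F C u0 g u a b) (P : DP F I) :
    ∃ K : ℝ, 1 ≤ K ∧ ∀ n : ℕ, 7 ≤ n → ∀ z ∈ closedBall (0 : ℂ) (8 * b n),
      ‖ev (g n) z P‖ ≤ Real.exp (K * Mx (u n) (16 * b n)) := by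
  obtain ⟨K0, hK0, hK⟩ := h3 F I P C
  refine ⟨2 * K0 + 1, by linarith, fun n hn z hz => ?_⟩
  obtain ⟨ha, h16, hbig, hm1, hm2, hm3, hm4⟩ := scale h1 hc n hn
  have hb := hc.hb n
  have h := hK d (g n) (u n) (hc.dat n) 0 (8 * b n) (16 * b n) (Mx (u n) (16 * b n))
    (by linarith) (closedBall_subset_ball h16) hm2
    (fun z hz => (h1 d (u n) (hc.dat n).hu).2.1 _ z h16 (by simpa using hz)) z hz
  refine h.trans (Real.exp_le_exp.2 ?_)
  have hlog : Real.log (1 / (16 * b n - 8 * b n)) ≤ Real.log (1 / b n) := by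
    refine Real.log_le_log (by apply one_div_pos.2; linarith) ?_
    exact one_div_le_one_div_of_le hb (by linarith)
  have hn' : (7 : ℝ) ≤ n := by exact_mod_cast hn
  have h5 : 1 + Real.log (1 / b n) ≤ Mx (u n) (16 * b n) := by
    by_cases h6 : 1 + Real.log (1 / b n) ≤ 0
    · linarith
    · push Not at h6
      nlinarith
  nlinarith

theorem analytic (P : DP F I) (g : I → ℂ → ℂ) (hg : ∀ l, DifferentiableOn ℂ (g l) (ball 0 1)) :
    AnalyticOnNhd ℂ (fun z => ev g z P) (ball 0 1) := by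
  refine DifferentiableOn.analyticOnNhd (fun z hz => ?_) isOpen_ball
  exact (ev_proof F I g P (ball 0 1) isOpen_ball hg z hz).differentiableAt.differentiableWithinAt

theorem exp_three (m : ℕ) : Real.exp (-(3 * (m : ℝ))) ≤ (1 / 8) ^ m := by
  have h : Real.exp (-3) ≤ 1 / 8 := by
    have h1 : (2 : ℝ) ≤ Real.exp 1 := by
      have := Real.add_one_le_exp (1 : ℝ)
      linarith
    have h2 : (8 : ℝ) ≤ Real.exp 3 := by
      have h3 : Real.exp 3 = Real.exp 1 ^ 3 := by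
        rw [← Real.exp_nat_mul]
        norm_num
      rw [h3]
      have h4 : (2 : ℝ) ^ 3 ≤ Real.exp 1 ^ 3 := pow_le_pow_left₀ (by norm_num) h1 3
      linarith
    rw [Real.exp_neg, one_div]
    exact inv_anti₀ (by norm_num) h2
  have h2 : Real.exp (-(3 * (m : ℝ))) = Real.exp (-3) ^ m := by
    rw [← Real.exp_nat_mul]
    congr 1
    ring
  rw [h2]
  exact pow_le_pow_left₀ (Real.exp_pos _).le h m

/-- a real point in `[0, b]` at which finitely many products are large -/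
theorem pick {K2 : ℝ} (hK2 : 1 ≤ K2)
    (hav : ∀ (n : ℕ) (x : Fin n → ℝ) (al be : ℝ), al < be →
      ∃ t : ℝ, al ≤ t ∧ t ≤ be ∧ Real.exp (-(K2 * n)) ≤ ∏ l, min 1 (|t - x l| / (be - al)))
    (i : ℕ) (B Y : ℝ) (hB : 0 < B) (m : Fin i → ℕ) (hm : ∀ j, (m j : ℝ) ≤ Y)
    (w : (j : Fin i) → Fin (m j) → ℂ) :
    ∃ t : ℝ, 0 ≤ t ∧ t ≤ B ∧ ∀ j, Real.exp (-((3 + K2 * i) * Y)) ≤
      ∏ l, min 1 (‖(t : ℂ) - w j l‖ / (8 * B)) := by
  classical
  let e := Fintype.equivFin (Σ j : Fin i, Fin (m j))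
  obtain ⟨t, ht0, ht1, ht2⟩ := hav (Fintype.card (Σ j : Fin i, Fin (m j)))
    (fun l => (w (e.symm l).1 (e.symm l).2).re) 0 B hB
  refine ⟨t, ht0, ht1, fun j => ?_⟩
  have hcard : ((Fintype.card (Σ j : Fin i, Fin (m j)) : ℕ) : ℝ) ≤ i * Y := by
    rw [Fintype.card_sigma]
    push_cast
    calc ∑ x : Fin i, ((Fintype.card (Fin (m x)) : ℕ) : ℝ) ≤ ∑ _x : Fin i, Y :=
          Finset.sum_le_sum fun x _ => by rw [Fintype.card_fin]; exact hm x
      _ = i * Y := by simp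
  set G : Fin i → ℝ := fun j => ∏ l : Fin (m j), min 1 (|t - (w j l).re| / (B - 0)) with hG
  have hprod : ∏ l, min 1 (|t - (w (e.symm l).1 (e.symm l).2).re| / (B - 0)) = ∏ j, G j := by
    rw [hG, ← Fintype.prod_sigma']
    exact Fintype.prod_equiv e.symm _ _ (fun l => rfl)
  have hf0 : ∀ j l, 0 ≤ min 1 (|t - (w j l).re| / (B - 0)) := fun j l =>
    le_min zero_le_one (div_nonneg (abs_nonneg _) (by linarith))
  have hG0 : ∀ j, 0 ≤ G j := fun j => Finset.prod_nonneg fun l _ => hf0 j l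
  have hG1 : ∀ j, G j ≤ 1 := fun j => Finset.prod_le_one (fun l _ => hf0 j l)
    fun l _ => min_le_left _ _
  have hGj : ∏ j, G j ≤ G j := by
    rw [← Finset.mul_prod_erase Finset.univ G (Finset.mem_univ j)]
    have h : ∏ x ∈ Finset.univ.erase j, G x ≤ 1 :=
      Finset.prod_le_one (fun x _ => hG0 x) fun x _ => hG1 x
    have := hG0 j
    nlinarith
  have h2 : (1 / 8 : ℝ) ^ (m j) * G j ≤ ∏ l, min 1 (‖(t : ℂ) - w j l‖ / (8 * B)) := by
    have h3 : (1 / 8 : ℝ) ^ (m j) * G j =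
        ∏ l : Fin (m j), (1 / 8 * min 1 (|t - (w j l).re| / (B - 0))) := by
      rw [Finset.prod_mul_distrib]
      simp [hG]
    rw [h3]
    refine Finset.prod_le_prod (fun l _ => mul_nonneg (by norm_num) (hf0 j l)) fun l _ => ?_
    have h4 : |t - (w j l).re| ≤ ‖(t : ℂ) - w j l‖ := by
      have h5 := Complex.abs_re_le_norm ((t : ℂ) - w j l)
      simpa using h5
    refine le_min ?_ ?_
    · have := min_le_left (1 : ℝ) (|t - (w j l).re| / (B - 0))
      linarith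
    · calc 1 / 8 * min 1 (|t - (w j l).re| / (B - 0)) ≤ 1 / 8 * (|t - (w j l).re| / (B - 0)) :=
            mul_le_mul_of_nonneg_left (min_le_right _ _) (by norm_num)
        _ = |t - (w j l).re| / (8 * B) := by rw [sub_zero]; field_simp
        _ ≤ _ := div_le_div_of_nonneg_right h4 (by linarith)
  have h6 := exp_three (m j)
  have hY : 0 ≤ Y := (Nat.cast_nonneg _).trans (hm j)
  calc Real.exp (-((3 + K2 * i) * Y))
      ≤ Real.exp (-(3 * (m j : ℝ))) *
        Real.exp (-(K2 * (Fintype.card (Σ j : Fin i, Fin (m j)) : ℕ))) := by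
        rw [← Real.exp_add]
        refine Real.exp_le_exp.2 ?_
        have h7 := hm j
        have h8 : K2 * ((Fintype.card (Σ j : Fin i, Fin (m j)) : ℕ) : ℝ) ≤ K2 * (i * Y) :=
          mul_le_mul_of_nonneg_left hcard (by linarith)
        linarith
    _ ≤ (1 / 8 : ℝ) ^ (m j) * G j := by
        refine mul_le_mul h6 ?_ (Real.exp_pos _).le (by positivity)
        rw [hprod] at ht2
        exact ht2.trans hGj
    _ ≤ _ := h2

/-- the lower bound at a common point -/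
theorem common (h1 : S_Mx) (h3 : S_GB) (h5 : S_CL) (h6 : S_avg) (hc : Conf F C u0 g u a b)
    (i : ℕ) (P : Fin i → DP F I) (hP : ∀ j, ¬ Tiny g u a (P j)) :
    ∃ K : ℝ, 0 ≤ K ∧ ∀ᶠ n in UF, ∃ z : ℂ, ‖z‖ ≤ b n ∧ ∀ j,
      Real.exp (-(K * (n * Mx (u n) (16 * b n)))) ≤ ‖ev (g n) z (P j)‖ := by
  obtain ⟨K5, hK5, h5⟩ := h5
  obtain ⟨K6, hK6, h6⟩ := h6
  choose Kf hKf1 hKf using fun Q : DP F I => bound h1 h3 hc Q
  set K1 : ℝ := 1 + ∑ j, Kf (P j) with hK1
  have hK1' : ∀ j, Kf (P j) ≤ K1 := fun j => by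
    have h := Finset.single_le_sum (f := fun j => Kf (P j))
      (fun x _ => zero_le_one.trans (hKf1 (P x))) (Finset.mem_univ j)
    rw [hK1]
    have h' : Kf (P j) ≤ ∑ j, Kf (P j) := h
    linarith
  have hK11 : 1 ≤ K1 := by
    have h : 0 ≤ ∑ j, Kf (P j) := Finset.sum_nonneg fun x _ => zero_le_one.trans (hKf1 (P x))
    linarith
  refine ⟨(K5 + (3 + K6 * i) * K5) * K1, by positivity, ?_⟩
  have hbig : ∀ j, ∀ᶠ n in UF, ∃ z : ℂ, ‖z‖ ≤ b n ∧
      Real.exp (-(n * Mx (u n) (b n))) < ‖ev (g n) z (P j)‖ := by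
    intro j
    have h := hP j
    unfold Tiny at h
    have h2 := Ultrafilter.eventually_not.2 h
    filter_upwards [h2, UF_of_atTop (hc.dich (P j))] with n hn1 hn2
    rcases hn2 with hn2 | hn2
    · exact absurd hn2 hn1
    · exact hn2
  have hall : ∀ᶠ n in UF, ∀ j, ∃ z : ℂ, ‖z‖ ≤ b n ∧
      Real.exp (-(n * Mx (u n) (b n))) < ‖ev (g n) z (P j)‖ := eventually_all.2 hbig
  filter_upwards [hall, UF_ge 7] with n hn hn7
  obtain ⟨ha, h16, hbg, hm1, hm2, hm3, hm4⟩ := scale h1 hc n hn7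
  have hb := hc.hb n
  have hn' : (7 : ℝ) ≤ n := by exact_mod_cast hn7
  set E := Mx (u n) (16 * b n) with hE
  set A : ℝ := K1 * (n * E) with hA
  have hnE : 0 ≤ (n : ℝ) * E := by positivity
  have hA0 : 0 ≤ A := by positivity
  have hstep : ∀ j, ∃ (m : ℕ) (w : Fin m → ℂ), (m : ℝ) ≤ K5 * A ∧
      ∀ z ∈ closedBall (0 : ℂ) (4 * (8 * b n) / 5),
        Real.exp (-(K5 * A)) * ∏ l, min 1 (‖z - w l‖ / (8 * b n)) ≤ ‖ev (g n) z (P j)‖ := by
    intro j
    obtain ⟨z, hz1, hz2⟩ := hn j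
    refine h5 (fun z => ev (g n) z (P j)) 0 z (8 * b n) A (by linarith) hA0
      ((analytic (P j) (g n) (hc.dat n).hg).mono (closedBall_subset_ball (by linarith))) ?_ ?_ ?_
    · intro z hz
      refine (hKf (P j) n hn7 z hz).trans (Real.exp_le_exp.2 ?_)
      have h7 := hK1' j
      calc Kf (P j) * E ≤ K1 * E := mul_le_mul_of_nonneg_right h7 hm2
        _ ≤ K1 * (n * E) := by
          refine mul_le_mul_of_nonneg_left ?_ (by linarith)
          nlinarith
    · rw [mem_closedBall_zero_iff]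
      linarith
    · refine le_trans (Real.exp_le_exp.2 ?_) hz2.le
      have h8 : (n : ℝ) * Mx (u n) (b n) ≤ n * E := mul_le_mul_of_nonneg_left hm1 (by linarith)
      have h9 : (n : ℝ) * E ≤ K1 * (n * E) := by nlinarith
      linarith
  choose m w hm hw using hstep
  obtain ⟨t, ht0, ht1, ht2⟩ := pick hK6 h6 i (b n) (K5 * A) hb m hm w
  have htn : ‖(t : ℂ)‖ ≤ b n := by
    rw [Complex.norm_real, Real.norm_eq_abs, abs_of_nonneg ht0]
    exact ht1
  refine ⟨(t : ℂ), htn, fun j => ?_⟩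
  refine le_trans ?_ (hw j (t : ℂ) (by rw [mem_closedBall_zero_iff]; linarith))
  calc Real.exp (-((K5 + (3 + K6 * i) * K5) * K1 * (n * E)))
      = Real.exp (-(K5 * A)) * Real.exp (-((3 + K6 * i) * (K5 * A))) := by
        rw [← Real.exp_add]
        congr 1
        rw [hA]
        ring
    _ ≤ _ := mul_le_mul_of_nonneg_left (ht2 j) (Real.exp_pos _).le

end Cenx

open Cenx in
theorem Cen_proof (h0 : S_Diag) (h1 : S_Mx) (h3 : S_GB) (h5 : S_CL) (h6 : S_avg) : S_Cen := by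
  classical
  intro F I _ _ _ _ d C u0 g u a b hc
  have hcount : Countable (DP F I) := countable_DP F I
  obtain ⟨P, hP⟩ := exists_surjective_nat (DP F I)
  obtain ⟨c, hc0, hc1⟩ := h0 ℂ (fun i n x => ‖x‖ ≤ b n ∧ ∀ j < i, ¬ Tiny g u a (P j) →
      Real.exp (-(Mx (u n) (a n / 16) / i)) ≤ ‖ev (g n) x (P j)‖)
    (by
      rintro i n x ⟨h7, h8⟩
      refine ⟨h7, fun j hj hT => le_trans (Real.exp_le_exp.2 ?_)
        (h8 j (Nat.lt_succ_of_lt hj) hT)⟩
      have hM := (h1 d (u n) (hc.dat n).hu).1 (a n / 16)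
      have hi : (0 : ℝ) < i := by exact_mod_cast (Nat.zero_le j).trans_lt hj
      have h9 : Mx (u n) (a n / 16) / ((i + 1 : ℕ) : ℝ) ≤ Mx (u n) (a n / 16) / i :=
        div_le_div_of_nonneg_left hM hi (by push_cast; linarith)
      linarith)
    (fun n => ⟨0, by simpa using (hc.hb n).le, fun j hj => absurd hj (Nat.not_lt_zero j)⟩)
    (by
      intro i
      let J := {j : Fin i // ¬ Tiny g u a (P j)}
      let e := Fintype.equivFin J
      obtain ⟨K, hK, hev⟩ := common h1 h3 h5 h6 hc (Fintype.card J)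
        (fun l => P (e.symm l).1) (fun l => (e.symm l).2)
      obtain ⟨N, hN⟩ := exists_nat_ge (256 * i * K)
      filter_upwards [hev, UF_ge 7, UF_ge N] with n hn hn7 hnN
      obtain ⟨z, hz1, hz2⟩ := hn
      refine ⟨z, hz1, fun j hj hT => ?_⟩
      have h10 := hz2 (e ⟨⟨j, hj⟩, hT⟩)
      rw [Equiv.symm_apply_apply] at h10
      refine le_trans (Real.exp_le_exp.2 ?_) h10
      obtain ⟨ha, h16, hbg, hm1, hm2, hm3, hm4⟩ := scale h1 hc n hn7
      have hi : (0 : ℝ) < i := by exact_mod_cast (Nat.zero_le j).trans_lt hj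
      have hn' : (7 : ℝ) ≤ n := by exact_mod_cast hn7
      have hnN' : (N : ℝ) ≤ n := by exact_mod_cast hnN
      refine neg_le_neg ?_
      rw [le_div_iff₀ hi]
      have h11 : 256 * i * K ≤ n := hN.trans hnN'
      have h12 : K * i * n * 256 ≤ ((n : ℝ) + 1) ^ 3 := by
        have h14 : 256 * i * K * n ≤ n * n := mul_le_mul_of_nonneg_right h11 (by linarith)
        have h15 : (0 : ℝ) ≤ (n : ℝ) ^ 3 + 2 * (n : ℝ) ^ 2 + 3 * n + 1 := by positivity
        have h16 : ((n : ℝ) + 1) ^ 3 = n * n + ((n : ℝ) ^ 3 + 2 * (n : ℝ) ^ 2 + 3 * n + 1) := by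
          ring
        rw [h16]
        linarith
      have h13 : K * (n * Mx (u n) (16 * b n)) * i * 256 ≤
          ((n : ℝ) + 1) ^ 3 * Mx (u n) (16 * b n) := by
        calc K * (n * Mx (u n) (16 * b n)) * i * 256 =
            (K * i * n * 256) * Mx (u n) (16 * b n) := by ring
          _ ≤ _ := mul_le_mul_of_nonneg_right h12 hm2
      linarith)
  refine ⟨c, fun n => (hc0 n).1, ?_, ?_⟩
  · intro Q hQ del hdel
    obtain ⟨j, rfl⟩ := hP Q
    obtain ⟨N, hN⟩ := exists_nat_ge (1 / del)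
    filter_upwards [hc1 (j + 1 + N)] with n hn
    refine le_trans (Real.exp_le_exp.2 ?_) (hn.2 j (by omega) hQ)
    refine neg_le_neg ?_
    have hM := (h1 d (u n) (hc.dat n).hu).1 (a n / 16)
    rw [div_le_iff₀ (by positivity)]
    have h7 : 1 ≤ del * ((j + 1 + N : ℕ) : ℝ) := by
      have h8 : 1 ≤ del * N := by
        rw [div_le_iff₀ hdel] at hN
        linarith
      push_cast
      have h9 : 0 ≤ del * ((j : ℝ) + 1) := by positivity
      nlinarith
    nlinarith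
  · intro Q del hdel
    obtain ⟨K, hK, hb⟩ := bound h1 h3 hc Q
    obtain ⟨N, hN⟩ := exists_nat_ge (256 * K / del)
    filter_upwards [UF_ge 7, UF_ge N] with n hn7 hnN
    obtain ⟨ha, h16, hbg, hm1, hm2, hm3, hm4⟩ := scale h1 hc n hn7
    have hbn := hc.hb n
    refine (hb n hn7 (c n) (by
      rw [mem_closedBall_zero_iff]
      have := (hc0 n).1
      linarith)).trans (Real.exp_le_exp.2 ?_)
    have hn' : (7 : ℝ) ≤ n := by exact_mod_cast hn7
    have hnN' : (N : ℝ) ≤ n := by exact_mod_cast hnN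
    have h7 : 256 * K ≤ del * n := by
      have h8 := hN.trans hnN'
      rw [div_le_iff₀ hdel] at h8
      linarith
    have h9 : (n : ℝ) ≤ ((n : ℝ) + 1) ^ 3 := by
      have h15 : (0 : ℝ) ≤ (n : ℝ) ^ 3 + 3 * (n : ℝ) ^ 2 + 2 * n + 1 := by positivity
      have h16 : ((n : ℝ) + 1) ^ 3 = n + ((n : ℝ) ^ 3 + 3 * (n : ℝ) ^ 2 + 2 * n + 1) := by
        ring
      rw [h16]
      linarith
    have h10 : 256 * K ≤ del * ((n : ℝ) + 1) ^ 3 :=
      h7.trans (mul_le_mul_of_nonneg_left h9 hdel.le)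
    have h11 : 256 * K * Mx (u n) (16 * b n) ≤ del * (256 * Mx (u n) (a n / 16)) := by
      calc 256 * K * Mx (u n) (16 * b n) ≤ del * ((n : ℝ) + 1) ^ 3 * Mx (u n) (16 * b n) :=
            mul_le_mul_of_nonneg_right h10 hm2
        _ = del * (((n : ℝ) + 1) ^ 3 * Mx (u n) (16 * b n)) := by ring
        _ ≤ _ := mul_le_mul_of_nonneg_left hm4 hdel.le
    linarith

end

end Pool.Agent.Work.MP_6d7a54_an.NF
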