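import Pool.Agent.Work.MP_6d7a54_an.NF.Stmts

/-!
# Item Conf: selection of the scale (MP_6d7a54_an)
-/

set_option autoImplicit false

namespace Pool.Agent.Work.MP_6d7a54_an.NF

open Filter Metric Set Topology Real

noncomputable section

namespace Confx

/-- pigeonhole for a chain of subsets of `range n` -/
lemma pigeon (n : ℕ) (S : ℕ → Finset ℕ) (hS : ∀ j, S j ⊆ Finset.range n)
    (hmono : ∀ j, S j ⊆ S (j + 1)) : ∃ j, j ≤ n ∧ S j = S (j + 1) := by
  by_contra hcon
  push Not at hcon
  have hlt : ∀ j, j ≤ n + 1 → j ≤ (S j).card := by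
    intro j
    induction j with
    | zero => intro _; exact Nat.zero_le _
    | succ j ih =>
      intro hj
      have h1 := ih (by omega)
      have h2 : S j ⊂ S (j + 1) := (hmono j).ssubset_of_ne (hcon j (by omega))
      have h3 := Finset.card_lt_card h2
      omega
  have h1 := hlt (n + 1) le_rfl
  have h2 := Finset.card_le_card (hS (n + 1))
  rw [Finset.card_range] at h2
  omega

end Confx

theorem Conf_proof (h1 : S_Mx) : S_Conf := by
  intro F I _ _ _ _ d C u0 g u hbad
  classical
  have : Countable (DP F I) := by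
    rw [← Cardinal.mk_le_aleph0_iff]
    refine (MvPolynomial.cardinalMk_le_max).trans ?_
    refine max_le (max_le ?_ ?_) le_rfl
    · exact Cardinal.mk_le_aleph0
    · exact Cardinal.mk_le_aleph0
  obtain ⟨P, hP⟩ := exists_surjective_nat (DP F I)
  -- the radii
  have hstep : ∀ n : ℕ, ∃ (k : ℕ) (a b : ℝ), 0 < b ∧ b * ((n : ℝ) + 1) ^ 3 ≤ a ∧ a ≤ 1 / 2 ∧
      (n : ℝ) * (1 + Real.log (1 / b)) ≤ Mx (u k) b ∧
      ∀ i, i < n →
        (∀ z : ℂ, ‖z‖ ≤ a → ‖ev (g k) z (P i)‖ ≤ Real.exp (-(n * Mx (u k) a))) ∨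
        (∃ z : ℂ, ‖z‖ ≤ b ∧ Real.exp (-(n * Mx (u k) b)) < ‖ev (g k) z (P i)‖) := by
    intro n
    set th : ℝ := 1 / ((n : ℝ) + 1) ^ 3 with hth
    have hn1 : (1 : ℝ) ≤ ((n : ℝ) + 1) ^ 3 := by
      have : (1 : ℝ) ≤ (n : ℝ) + 1 := by
        have : (0 : ℝ) ≤ n := Nat.cast_nonneg n
        linarith
      exact one_le_pow₀ this
    have hthpos : 0 < th := by positivity
    have hth1 : th ≤ 1 := by
      rw [hth, div_le_one (by positivity)]
      exact hn1
    set r : ℕ → ℝ := fun j => th ^ j / 2 with hr
    have hrpos : ∀ j, 0 < r j := fun j => by positivity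
    have hrhalf : ∀ j, r j ≤ 1 / 2 := by
      intro j
      have : th ^ j ≤ 1 := pow_le_one₀ hthpos.le hth1
      simp only [hr]
      linarith
    have hrsucc : ∀ j, r (j + 1) = th * r j := by
      intro j
      simp only [hr, pow_succ]
      ring
    have hranti : Antitone r := by
      refine antitone_nat_of_succ_le ?_
      intro j
      rw [hrsucc]
      have := hrpos j
      nlinarith
    obtain ⟨k, hk⟩ := (hbad.big (r (n + 1)) (hrpos _) (by
      have := hrhalf (n + 1)
      linarith) ((n : ℝ) * (1 + Real.log (1 / r (n + 1))))).exists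
    obtain ⟨hM0, -, hM2, -⟩ := h1 d (u k) (fun i => (hbad.dat k).hu i)
    have hMmono : ∀ j, Mx (u k) (r (j + 1)) ≤ Mx (u k) (r j) := by
      intro j
      rw [hrsucc]
      have h2 := hM2 th (r j) hthpos hth1 (hrpos j) (by
        have := hrhalf j
        linarith)
      have h3 := hM0 (r j)
      nlinarith
    have hManti : Antitone (fun j => Mx (u k) (r j)) := antitone_nat_of_succ_le hMmono
    let t : ℕ → ℕ → Prop := fun j i =>
      ∀ z : ℂ, ‖z‖ ≤ r j → ‖ev (g k) z (P i)‖ ≤ Real.exp (-(n * Mx (u k) (r j)))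
    have ht : ∀ j i, t j i → t (j + 1) i := by
      intro j i hji z hz
      refine (hji z (hz.trans (hranti (Nat.le_succ j)))).trans ?_
      apply Real.exp_le_exp.2
      have := hMmono j
      have h0 : (0 : ℝ) ≤ n := Nat.cast_nonneg n
      nlinarith
    obtain ⟨j, hjn, hj⟩ := Confx.pigeon n (fun j => (Finset.range n).filter (fun i => t j i))
      (fun j => Finset.filter_subset _ _) (by
        intro j i hi
        rw [Finset.mem_filter] at hi ⊢
        exact ⟨hi.1, ht j i hi.2⟩)
    refine ⟨k, r j, r (j + 1), hrpos _, ?_, hrhalf j, ?_, ?_⟩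
    · rw [hrsucc, hth]
      have : 1 / ((n : ℝ) + 1) ^ 3 * r j * ((n : ℝ) + 1) ^ 3 = r j := by
        field_simp
      rw [this]
    · have hle : r (n + 1) ≤ r (j + 1) := hranti (by omega)
      have hMle : Mx (u k) (r (n + 1)) ≤ Mx (u k) (r (j + 1)) := hManti (by omega)
      refine le_trans ?_ (hk.trans hMle)
      have hlog : Real.log (1 / r (j + 1)) ≤ Real.log (1 / r (n + 1)) := by
        apply Real.log_le_log (by have := hrpos (j + 1); positivity)
        exact one_div_le_one_div_of_le (hrpos _) hle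
      have h0 : (0 : ℝ) ≤ n := Nat.cast_nonneg n
      nlinarith
    · intro i hi
      by_cases h : t (j + 1) i
      · left
        have hmem : i ∈ (Finset.range n).filter (fun i => t (j + 1) i) := by
          rw [Finset.mem_filter, Finset.mem_range]
          exact ⟨hi, h⟩
        have hj' : (Finset.range n).filter (fun i => t j i) =
            (Finset.range n).filter (fun i => t (j + 1) i) := hj
        rw [← hj', Finset.mem_filter] at hmem
        exact hmem.2
      · right
        simp only [t] at h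
        push Not at h
        exact h
  choose k a b hb hab ha hbig hdich using hstep
  refine ⟨k, a, b, ⟨fun n => hbad.dat (k n), fun n i => hbad.hu0 (k n) i, hb, hab, ha, hbig, ?_⟩⟩
  intro Q
  obtain ⟨i, rfl⟩ := hP Q
  filter_upwards [eventually_gt_atTop i] with n hn
  exact hdich n i hn

end

end Pool.Agent.Work.MP_6d7a54_an.NF
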