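import Pool.Agent.Work.MP_6d7a54_an.NF.Stmts

/-!
# S_DF: extension of a derivation to the field of fractions of `R / T`
-/

set_option autoImplicit false

namespace Pool.Agent.Work.MP_6d7a54_an.NF

noncomputable section

namespace DFx

/-- the ring homomorphism `x ↦ x + ε d x` to the dual numbers over the field of fractions -/
def psi {F A L : Type} [Field F] [CommRing A] [Algebra F A] [Field L] [Algebra A L]
    (d : Derivation F A A) : A →+* TrivSqZeroExt L L where
  toFun x := TrivSqZeroExt.inl (algebraMap A L x) + TrivSqZeroExt.inr (algebraMap A L (d x))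
  map_one' := by
    rw [d.map_one_eq_zero, map_one, map_zero]
    simp
  map_zero' := by simp
  map_add' x y := by
    rw [map_add, map_add, map_add]
    ext
    · simp
    · simp only [TrivSqZeroExt.snd_add, TrivSqZeroExt.snd_inl, TrivSqZeroExt.snd_inr, zero_add]
  map_mul' x y := by
    rw [d.leibniz]
    ext
    · simp
    · simp only [TrivSqZeroExt.snd_add, TrivSqZeroExt.snd_inl, TrivSqZeroExt.snd_inr, zero_add,
        TrivSqZeroExt.snd_mul, TrivSqZeroExt.fst_add, TrivSqZeroExt.fst_inl,
        TrivSqZeroExt.fst_inr, add_zero, smul_eq_mul, map_add, map_mul,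
        MulOpposite.smul_eq_mul_unop, MulOpposite.unop_op]
      ring

/-- a derivation extends to the field of fractions -/
lemma ext_der {F A L : Type} [Field F] [CommRing A] [IsDomain A] [Algebra F A] [Field L]
    [Algebra A L] [IsFractionRing A L] [Algebra F L] [IsScalarTower F A L]
    (d : Derivation F A A) :
    ∃ D : Derivation F L L, ∀ x, D (algebraMap A L x) = algebraMap A L (d x) := by
  have hu : ∀ y : nonZeroDivisors A, IsUnit (psi (L := L) d y) := by
    intro y
    rw [TrivSqZeroExt.isUnit_iff_isUnit_fst]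
    have h1 : (psi (L := L) d y).fst = algebraMap A L y := by simp [psi]
    rw [h1]
    exact IsLocalization.map_units L y
  set Psi : L →+* TrivSqZeroExt L L := IsLocalization.lift (M := nonZeroDivisors A) hu with hPsi
  have hPe : ∀ x : A, Psi (algebraMap A L x) = psi (L := L) d x := fun x => by
    rw [hPsi]
    exact IsLocalization.lift_eq hu x
  have hf : ∀ x : L, (Psi x).fst = x := by
    have h1 : (TrivSqZeroExt.fstHom L L L : TrivSqZeroExt L L →+* L).comp Psi = RingHom.id L := by
      refine IsLocalization.ringHom_ext (nonZeroDivisors A) ?_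
      ext x
      simp [hPe, psi]
    intro x
    have h2 := congrArg (fun f : L →+* L => f x) h1
    simpa using h2
  have hF : ∀ r : F, (Psi (algebraMap F L r)).snd = 0 := by
    intro r
    rw [IsScalarTower.algebraMap_apply F A L, hPe]
    simp [psi]
  refine ⟨Derivation.mk' ⟨⟨fun x => (Psi x).snd, ?_⟩, ?_⟩ ?_, ?_⟩
  · intro x y
    rw [map_add, TrivSqZeroExt.snd_add]
  · intro r x
    simp only [RingHom.id_apply]
    rw [Algebra.smul_def, map_mul, TrivSqZeroExt.snd_mul, hF, hf, smul_zero, add_zero,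
      smul_eq_mul, ← Algebra.smul_def]
  · intro x y
    simp only [LinearMap.coe_mk, AddHom.coe_mk]
    rw [map_mul, TrivSqZeroExt.snd_mul, hf, hf]
    simp [mul_comm]
  · intro x
    simp only [Derivation.coe_mk', LinearMap.coe_mk, AddHom.coe_mk]
    rw [hPe]
    simp only [psi, RingHom.coe_mk, MonoidHom.coe_mk, OneHom.coe_mk, TrivSqZeroExt.snd_add,
      TrivSqZeroExt.snd_inl, TrivSqZeroExt.snd_inr, zero_add]

end DFx

open DFx

theorem DF_proof : S_DF := by
  intro F R _ _ _ dl T hT hdl
  have := hT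
  have hker : ∀ x : R, (Ideal.Quotient.mkₐ F T) x = 0 → (Ideal.Quotient.mkₐ F T) (dl x) = 0 := by
    intro x hx
    rw [Ideal.Quotient.mkₐ_eq_mk, Ideal.Quotient.eq_zero_iff_mem] at hx ⊢
    exact hdl x hx
  have hdA : ∃ d : Derivation F (R ⧸ T) (R ⧸ T), ∀ x : R,
      d (Ideal.Quotient.mk T x) = Ideal.Quotient.mk T (dl x) := by
    refine ⟨Derivation.liftOfSurjective (f := Ideal.Quotient.mkₐ F T)
      (Ideal.Quotient.mkₐ_surjective F T) hker, fun x => ?_⟩
    exact Derivation.liftOfSurjective_apply (f := Ideal.Quotient.mkₐ F T)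
      (Ideal.Quotient.mkₐ_surjective F T) hker x
  obtain ⟨d, hd⟩ := hdA
  obtain ⟨D, hD⟩ := ext_der (L := FractionRing (R ⧸ T)) d
  refine ⟨FractionRing (R ⧸ T), inferInstance, inferInstance, D,
    (IsScalarTower.toAlgHom F (R ⧸ T) (FractionRing (R ⧸ T))).comp (Ideal.Quotient.mkₐ F T),
    ?_, ?_, ?_⟩
  · intro x
    rw [← Ideal.Quotient.eq_zero_iff_mem (I := T)]
    simp
  · intro x
    have h1 := hD (Ideal.Quotient.mk T x)
    rw [hd] at h1
    exact h1
  · intro f
    obtain ⟨a, b, hb, rfl⟩ := IsFractionRing.div_surjective (A := R ⧸ T) f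
    obtain ⟨x, rfl⟩ := Ideal.Quotient.mk_surjective a
    obtain ⟨y, rfl⟩ := Ideal.Quotient.mk_surjective b
    refine ⟨x, y, ?_, rfl⟩
    intro hy
    rw [Ideal.Quotient.eq_zero_iff_mem.2 hy] at hb
    exact zero_notMem_nonZeroDivisors hb

end

end Pool.Agent.Work.MP_6d7a54_an.NF
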