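import Pool.Agent.Work.MP_6d7a54_an.NF.Stmts

/-! # Item Diag: the diagonal argument along the ultrafilter -/

set_option autoImplicit false

open Filter

namespace Pool.Agent.Work.MP_6d7a54_an.NF

namespace Diagx

lemma mono {A : Type} {Q : ℕ → ℕ → A → Prop} (h : ∀ i n x, Q (i + 1) n x → Q i n x)
    {i j n : ℕ} {x : A} (hij : i ≤ j) (hx : Q j n x) : Q i n x := by
  induction hij with
  | refl => exact hx
  | step _ ih => exact ih (h _ _ _ hx)

end Diagx

/-- The diagonal argument along the ultrafilter. -/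
theorem Diag_proof : S_Diag := by
  classical
  intro A Q hQ h0 hev
  have hsp : ∀ n, ∃ x, Q (Nat.findGreatest (fun i => ∃ x, Q i n x) n) n x := fun n =>
    Nat.findGreatest_spec (P := fun i => ∃ x, Q i n x) (Nat.zero_le n) (h0 n)
  choose f hf using hsp
  refine ⟨f, fun n => Diagx.mono hQ (Nat.zero_le _) (hf n), fun i => ?_⟩
  have h1 : ∀ᶠ n in UF, i ≤ n := by
    have : ∀ᶠ n in (cofinite : Filter ℕ), i ≤ n := by
      rw [Nat.cofinite_eq_atTop]
      exact eventually_ge_atTop i
    exact hyperfilter_le_cofinite this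
  filter_upwards [h1, hev i] with n hn hx
  exact Diagx.mono hQ (Nat.le_findGreatest (P := fun i => ∃ x, Q i n x) hn hx) (hf n)

end Pool.Agent.Work.MP_6d7a54_an.NF
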