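import Pool.Agent.Work.MP_6d7a54_an.NF.Stmts
import Pool.Agent.Work.MP_6d7a54_an.UP.I_BC
import Pool.Agent.Work.MP_6d7a54_an.UP.I_GR

/-!
# Lemma on the logarithmic derivative, in the mean
-/

set_option autoImplicit false

namespace Pool.Agent.Work.MP_6d7a54_an.NF

open Filter Metric Set Topology Real

namespace LDx

/-- the comparison function -/
noncomputable def gs (t : ℝ) : ℝ := |Real.sin t| ^ (-(1 / 2) : ℝ)

theorem gs_nonneg (t : ℝ) : 0 ≤ gs t := Real.rpow_nonneg (abs_nonneg _) _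

theorem gs_periodic : Function.Periodic gs π := by
  intro t
  unfold gs
  rw [Real.sin_add_pi, abs_neg]

theorem gs_periodic2 : Function.Periodic gs (2 * π) := by
  intro t
  unfold gs
  rw [Real.sin_add_two_pi]

theorem abs_int_pos (b : ℝ) (hb : 0 ≤ b) :
    IntervalIntegrable (fun t : ℝ => |t| ^ (-(1 / 2) : ℝ)) MeasureTheory.volume 0 b := by
  have h0 : IntervalIntegrable (fun t : ℝ => t ^ (-(1 / 2) : ℝ)) MeasureTheory.volume 0 b :=
    intervalIntegral.intervalIntegrable_rpow' (by norm_num)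
  refine h0.congr ?_
  intro t ht
  rw [uIoc_of_le hb] at ht
  simp only
  rw [abs_of_pos ht.1]

theorem abs_int (b : ℝ) (hb : 0 ≤ b) :
    IntervalIntegrable (fun t : ℝ => |t| ^ (-(1 / 2) : ℝ)) MeasureTheory.volume (-b) b := by
  have h0 := abs_int_pos b hb
  have h1 : IntervalIntegrable (fun t : ℝ => |t| ^ (-(1 / 2) : ℝ)) MeasureTheory.volume
      (-0) (-b) := by
    have := IntervalIntegrable.comp_sub_left h0 0 enorm_ne_top
    simpa using this
  rw [neg_zero] at h1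
  exact h1.symm.trans h0

theorem gs_meas : Measurable gs := by
  unfold gs
  fun_prop

theorem gs_int0 : IntervalIntegrable gs MeasureTheory.volume (-(π / 2)) (-(π / 2) + π) := by
  have hpi := Real.pi_pos
  have e : -(π / 2) + π = π / 2 := by ring
  rw [e]
  refine IntervalIntegrable.mono_fun' ((abs_int (π / 2) (by positivity)).const_mul
    ((2 / π) ^ (-(1 / 2) : ℝ))) gs_meas.aestronglyMeasurable ?_
  rw [Filter.EventuallyLE, MeasureTheory.ae_restrict_iff' measurableSet_uIoc]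
  refine Filter.Eventually.of_forall fun t ht => ?_
  rw [uIoc_of_le (by linarith)] at ht
  rw [Real.norm_of_nonneg (gs_nonneg t)]
  by_cases h0 : t = 0
  · subst h0
    unfold gs
    simp
  · have h1 : |t| ≤ π / 2 := abs_le.2 ⟨ht.1.le, ht.2⟩
    have h2 := Real.mul_abs_le_abs_sin h1
    have h3 : 0 < 2 / π * |t| := mul_pos (by positivity) (abs_pos.2 h0)
    unfold gs
    rw [← Real.mul_rpow (by positivity) (abs_nonneg _)]
    exact Real.rpow_le_rpow_of_nonpos h3 h2 (by norm_num)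

theorem gs_int (a b : ℝ) : IntervalIntegrable gs MeasureTheory.volume a b :=
  gs_periodic.intervalIntegrable Real.pi_pos.ne' gs_int0 a b

/-- the constant -/
noncomputable def Cs : ℝ := ∫ t in (0 : ℝ)..(2 * π), gs t

theorem Cs_nonneg : 0 ≤ Cs :=
  intervalIntegral.integral_nonneg (by positivity) fun t _ => gs_nonneg t

theorem gs_shift (p : ℝ) : ∫ t in (0 : ℝ)..(2 * π), gs (t - p) = Cs := by
  rw [intervalIntegral.integral_comp_sub_right]
  have h := gs_periodic2.intervalIntegral_add_eq (0 - p) 0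
  have e : 0 - p + 2 * π = 2 * π - p := by ring
  rw [e, zero_add] at h
  exact h

theorem dist_le (a : ℂ) (r t : ℝ) (hr : 0 < r) :
    r * |Real.sin (t - a.arg)| ≤ ‖circleMap 0 r t - a‖ := by
  have h1 : ‖circleMap 0 r t - a‖ =
      ‖(r : ℂ) * Complex.exp ((t - a.arg : ℝ) * Complex.I) - (‖a‖ : ℂ)‖ := by
    have h2 : circleMap 0 r t - a = Complex.exp ((a.arg : ℝ) * Complex.I) *
        ((r : ℂ) * Complex.exp ((t - a.arg : ℝ) * Complex.I) - (‖a‖ : ℂ)) := by
      have h3 : a = (‖a‖ : ℂ) * Complex.exp ((a.arg : ℝ) * Complex.I) :=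
        (Complex.norm_mul_exp_arg_mul_I a).symm
      have h4 : Complex.exp ((a.arg : ℝ) * Complex.I) *
          Complex.exp ((t - a.arg : ℝ) * Complex.I) = Complex.exp (t * Complex.I) := by
        rw [← Complex.exp_add]
        congr 1
        push_cast
        ring
      rw [mul_sub, mul_left_comm, h4]
      nth_rewrite 1 [h3]
      simp only [circleMap, zero_add]
      ring
    rw [h2, norm_mul, Complex.norm_exp_ofReal_mul_I, one_mul]
  rw [h1]
  refine le_trans (le_of_eq ?_) (Complex.abs_im_le_norm _)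
  rw [Complex.sub_im, Complex.ofReal_im, sub_zero, Complex.im_ofReal_mul,
    Complex.exp_ofReal_mul_I_im, abs_mul, abs_of_pos hr]

theorem ae_sin (p : ℝ) : ∀ᵐ t : ℝ, Real.sin (t - p) ≠ 0 := by
  have h : {t : ℝ | ¬ Real.sin (t - p) ≠ 0} ⊆ Set.range fun n : ℤ => (n : ℝ) * π + p := by
    intro t ht
    simp only [ne_eq, not_not, mem_setOf_eq] at ht
    obtain ⟨n, hn⟩ := Real.sin_eq_zero_iff.1 ht
    exact ⟨n, by simp only; linarith⟩
  rw [MeasureTheory.ae_iff]
  exact ((Set.countable_range _).mono h).measure_zero _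

/-- integrability of the pieces -/
theorem piece_cont {a : ℂ} {r : ℝ} (ha : ∀ t : ℝ, circleMap 0 r t ≠ a) :
    Continuous fun t : ℝ => ‖circleMap 0 r t - a‖ ^ (-(1 / 2) : ℝ) := by
  refine Continuous.rpow_const ?_ ?_
  · exact ((continuous_circleMap 0 r).sub continuous_const).norm
  · intro t
    left
    exact norm_ne_zero_iff.2 (sub_ne_zero.2 (ha t))

/-- the mean of one piece -/
theorem piece {a : ℂ} {r : ℝ} (hr : 0 < r) (ha : ∀ t : ℝ, circleMap 0 r t ≠ a) :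
    circleAverage (fun z => ‖z - a‖ ^ (-(1 / 2) : ℝ)) 0 r ≤ r ^ (-(1 / 2) : ℝ) * Cs := by
  have h2 : ∫ t in (0 : ℝ)..(2 * π), ‖circleMap 0 r t - a‖ ^ (-(1 / 2) : ℝ) ≤
      ∫ t in (0 : ℝ)..(2 * π), r ^ (-(1 / 2) : ℝ) * gs (t - a.arg) := by
    refine intervalIntegral.integral_mono_ae (by positivity)
      ((piece_cont ha).intervalIntegrable _ _) ?_ ?_
    · have := IntervalIntegrable.comp_sub_right (gs_int (0 - a.arg) (2 * π - a.arg)) a.arg
        enorm_ne_top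
      simp only [sub_add_cancel] at this
      exact this.const_mul _
    · filter_upwards [ae_sin a.arg] with t ht
      have h3 : 0 < r * |Real.sin (t - a.arg)| := mul_pos hr (abs_pos.2 ht)
      unfold gs
      rw [← Real.mul_rpow hr.le (abs_nonneg _)]
      exact Real.rpow_le_rpow_of_nonpos h3 (dist_le a r t hr) (by norm_num)
  rw [intervalIntegral.integral_const_mul, gs_shift] at h2
  rw [circleAverage, smul_eq_mul]
  have h3 : 0 ≤ r ^ (-(1 / 2) : ℝ) * Cs := mul_nonneg (Real.rpow_nonneg hr.le _) Cs_nonneg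
  have h4 : (2 * π)⁻¹ ≤ 1 := by
    have := Real.two_le_pi
    exact inv_le_one_of_one_le₀ (by linarith)
  calc _ ≤ (2 * π)⁻¹ * (r ^ (-(1 / 2) : ℝ) * Cs) :=
        mul_le_mul_of_nonneg_left h2 (by positivity)
    _ ≤ 1 * (r ^ (-(1 / 2) : ℝ) * Cs) := mul_le_mul_of_nonneg_right h4 h3
    _ = _ := one_mul _

theorem sq_piece {x : ℝ} (hx : 0 < x) : (x ^ (-(1 / 2) : ℝ)) ^ 2 = x⁻¹ := by
  rw [← Real.rpow_natCast, ← Real.rpow_mul hx.le]
  norm_num
  exact Real.rpow_neg_one x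

/-- the pointwise bound -/
theorem point {n : ℕ} {x : Fin n → ℝ} {Y A B : ℝ} (hx : ∀ i, 0 < x i) (hA : 0 ≤ A) (hB : 0 < B)
    (hY0 : 0 ≤ Y) (hY : Y ≤ ∑ i, (x i)⁻¹ + A) :
    Real.posLog Y ≤ 2 * (Real.log B +
      (1 + (∑ i, (x i) ^ (-(1 / 2) : ℝ) + Real.sqrt A)) / B - 1) := by
  set q : ℝ := ∑ i, (x i) ^ (-(1 / 2) : ℝ) + Real.sqrt A with hq
  have hs0 : 0 ≤ ∑ i, (x i) ^ (-(1 / 2) : ℝ) :=
    Finset.sum_nonneg fun i _ => Real.rpow_nonneg (hx i).le _
  have hq0 : 0 ≤ q := add_nonneg hs0 (Real.sqrt_nonneg _)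
  have h1 : Y ≤ q ^ 2 := by
    refine hY.trans ?_
    have h2 : ∑ i, (x i)⁻¹ ≤ (∑ i, (x i) ^ (-(1 / 2) : ℝ)) ^ 2 := by
      have h3 := Finset.sum_sq_le_sq_sum_of_nonneg (s := Finset.univ)
        (f := fun i => (x i) ^ (-(1 / 2) : ℝ)) (fun i _ => Real.rpow_nonneg (hx i).le _)
      simp only [sq_piece (hx _)] at h3
      exact h3
    have h4 := Real.sq_sqrt hA
    have h5 : 0 ≤ (∑ i, (x i) ^ (-(1 / 2) : ℝ)) * Real.sqrt A :=
      mul_nonneg hs0 (Real.sqrt_nonneg _)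
    rw [hq]
    nlinarith
  have h2 : Y ≤ (1 + q) ^ 2 := h1.trans (by nlinarith)
  have h3 : Real.log (1 + q) ≤ Real.log B + (1 + q) / B - 1 := by
    have h4 := Real.log_le_sub_one_of_pos (div_pos (by linarith : 0 < 1 + q) hB)
    rw [Real.log_div (by linarith) hB.ne'] at h4
    linarith
  have h5 : Real.posLog Y ≤ 2 * Real.log (1 + q) := by
    unfold Real.posLog
    refine max_le ?_ ?_
    · exact mul_nonneg (by norm_num) (Real.log_nonneg (by linarith))
    · rcases hY0.eq_or_lt with h | h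
      · rw [← h, Real.log_zero]
        exact mul_nonneg (by norm_num) (Real.log_nonneg (by linarith))
      · have h6 := Real.log_le_log h h2
        rw [Real.log_pow] at h6
        exact_mod_cast h6
  linarith

/-- the mean -/
theorem mean {n : ℕ} {a : Fin n → ℂ} {g : ℂ → ℝ} {r A : ℝ} (hr : 0 < r)
    (ha : ∀ i, ∀ t : ℝ, circleMap 0 r t ≠ a i) (hA : 0 ≤ A)
    (hg0 : ∀ z ∈ sphere (0 : ℂ) r, 0 ≤ g z)
    (hg : ∀ z ∈ sphere (0 : ℂ) r, g z ≤ ∑ i, ‖z - a i‖⁻¹ + A) :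
    circleAverage (fun z => Real.posLog (g z)) 0 r ≤
      2 * Real.log (1 + n * (r ^ (-(1 / 2) : ℝ) * Cs) + Real.sqrt A) := by
  set B : ℝ := 1 + n * (r ^ (-(1 / 2) : ℝ) * Cs) + Real.sqrt A with hB
  have hrC : 0 ≤ r ^ (-(1 / 2) : ℝ) * Cs := mul_nonneg (Real.rpow_nonneg hr.le _) Cs_nonneg
  have hnC : 0 ≤ (n : ℝ) * (r ^ (-(1 / 2) : ℝ) * Cs) := mul_nonneg (Nat.cast_nonneg n) hrC
  have hsA := Real.sqrt_nonneg A
  have hB1 : 1 ≤ B := by rw [hB]; linarith
  have hB0 : 0 < B := by linarith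
  have hcont : ∀ i, Continuous fun t : ℝ => ‖circleMap 0 r t - a i‖ ^ (-(1 / 2) : ℝ) :=
    fun i => piece_cont (ha i)
  have hci : ∀ i ∈ (Finset.univ : Finset (Fin n)),
      CircleIntegrable (fun z => (2 / B) * ‖z - a i‖ ^ (-(1 / 2) : ℝ)) 0 r := by
    intro i _
    have h := (hcont i).const_mul (2 / B)
    exact h.intervalIntegrable 0 (2 * π)
  have hcs : CircleIntegrable (fun z => ∑ i, (2 / B) * ‖z - a i‖ ^ (-(1 / 2) : ℝ)) 0 r := by
    have h : Continuous fun t : ℝ => ∑ i, (2 / B) * ‖circleMap 0 r t - a i‖ ^ (-(1 / 2) : ℝ) :=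
      continuous_finsetSum _ fun i _ => (hcont i).const_mul (2 / B)
    exact h.intervalIntegrable 0 (2 * π)
  set C0 : ℝ := 2 * (Real.log B + (1 + Real.sqrt A) / B - 1) with hC0
  by_cases hi : CircleIntegrable (fun z => Real.posLog (g z)) 0 r
  · have h1 : circleAverage (fun z => Real.posLog (g z)) 0 r ≤
        circleAverage (fun z => C0 + ∑ i, (2 / B) * ‖z - a i‖ ^ (-(1 / 2) : ℝ)) 0 r := by
      refine circleAverage_mono hi ((circleIntegrable_const C0 0 r).add hcs) ?_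
      intro z hz
      rw [abs_of_pos hr] at hz
      have hz' : ∀ i, 0 < ‖z - a i‖ := by
        intro i
        rw [norm_pos_iff, sub_ne_zero]
        intro h
        rw [mem_sphere_zero_iff_norm] at hz
        have h3 := ha i z.arg
        apply h3
        rw [← h]
        simp only [circleMap, zero_add]
        rw [← hz]
        exact Complex.norm_mul_exp_arg_mul_I z
      have h2 := point (x := fun i => ‖z - a i‖) hz' hA hB0 (hg0 z hz) (hg z hz)
      refine h2.trans (le_of_eq ?_)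
      rw [← Finset.mul_sum, hC0]
      field_simp
      ring
    have h2 : circleAverage (fun z => C0 + ∑ i, (2 / B) * ‖z - a i‖ ^ (-(1 / 2) : ℝ)) 0 r =
        C0 + ∑ i, (2 / B) * circleAverage (fun z => ‖z - a i‖ ^ (-(1 / 2) : ℝ)) 0 r := by
      rw [circleAverage_fun_add (circleIntegrable_const C0 0 r) hcs, circleAverage_const,
        circleAverage_fun_sum hci]
      congr 1
      refine Finset.sum_congr rfl fun i _ => ?_
      have h := circleAverage_fun_smul (𝕜 := ℝ) (a := 2 / B) (c := (0 : ℂ)) (R := r)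
        (f := fun z : ℂ => ‖z - a i‖ ^ (-(1 / 2) : ℝ))
      simpa only [smul_eq_mul] using h
    have h3 : ∑ i, (2 / B) * circleAverage (fun z => ‖z - a i‖ ^ (-(1 / 2) : ℝ)) 0 r ≤
        ∑ _i : Fin n, (2 / B) * (r ^ (-(1 / 2) : ℝ) * Cs) :=
      Finset.sum_le_sum fun i _ => mul_le_mul_of_nonneg_left (piece hr (ha i)) (by positivity)
    rw [Finset.sum_const, Finset.card_univ, Fintype.card_fin, nsmul_eq_mul] at h3
    have h4 : C0 + (n : ℝ) * ((2 / B) * (r ^ (-(1 / 2) : ℝ) * Cs)) = 2 * Real.log B := by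
      have h5 : C0 + (n : ℝ) * ((2 / B) * (r ^ (-(1 / 2) : ℝ) * Cs)) =
          2 * Real.log B + 2 * ((1 + n * (r ^ (-(1 / 2) : ℝ) * Cs) + Real.sqrt A) / B - 1) := by
        rw [hC0]
        field_simp
        ring
      rw [h5, ← hB, div_self hB0.ne']
      ring
    linarith
  · rw [circleAverage.integral_undef hi]
    exact mul_nonneg (by norm_num) (Real.log_nonneg hB1)

/-- number of zeros -/
theorem count {n : ℕ} {X r d : ℝ} (hr : 0 < r) (hd : 0 < d) (hrd : r + d ≤ 1)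
    (h : Real.exp (-X) * ((r + 3 * d / 4) / (r + d / 2)) ^ n ≤ Real.exp X) :
    (n : ℝ) ≤ 8 * (X / d) := by
  set q : ℝ := (r + 3 * d / 4) / (r + d / 2) with hq
  have h0 : 0 < r + d / 2 := by linarith
  have h0' : 0 < r + 3 * d / 4 := by linarith
  have hq0 : 0 < q := div_pos h0' h0
  have h1 := Real.one_sub_inv_le_log_of_pos hq0
  have h2 : d / 4 ≤ 1 - q⁻¹ := by
    rw [hq, inv_div, le_sub_iff_add_le, ← le_sub_iff_add_le', div_le_iff₀ h0']
    have : d * (1 - (r + 3 * d / 4)) ≥ 0 := mul_nonneg hd.le (by linarith)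
    nlinarith
  have h3 : q ^ n = Real.exp (n * Real.log q) := by
    rw [Real.exp_nat_mul, Real.exp_log hq0]
  rw [h3, ← Real.exp_add, Real.exp_le_exp] at h
  have h4 : (n : ℝ) * (d / 4) ≤ n * Real.log q :=
    mul_le_mul_of_nonneg_left (h2.trans h1) (Nat.cast_nonneg n)
  have h5 : (n : ℝ) * d ≤ 8 * X := by linarith
  rw [← mul_div_assoc, le_div_iff₀ hd]
  exact h5

/-- the pointwise bound for the logarithmic derivative -/
theorem logder {K₀ : ℝ} (hK₀ : 1 ≤ K₀)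
    (hBC : ∀ (u : ℂ → ℂ) (rho d S L : ℝ), 0 < d → d ≤ 1 → d < rho →
      rho ≤ 1 → 1 ≤ S → 1 ≤ L → DifferentiableOn ℂ u (ball 0 rho) →
      (∀ z ∈ ball (0 : ℂ) rho, (u z).re ≤ S) → ‖u 0‖ ≤ L →
      ∀ z : ℂ, ‖z‖ ≤ rho - d → ‖u z‖ ≤ K₀ * (S + L) / d ^ 3 ∧
        ‖deriv u z‖ ≤ K₀ * (S + L) / d ^ 3 ∧ ‖deriv (deriv u) z‖ ≤ K₀ * (S + L) / d ^ 3)
    {h : ℂ → ℂ} {r d X : ℝ} (hr : 0 < r) (hd : 0 < d) (hrd : r + d ≤ 1) (hX : 1 ≤ X)
    (hh : DifferentiableOn ℂ h (ball 0 (r + d)))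
    (hhM : ∀ z ∈ ball (0 : ℂ) (r + d), ‖h z‖ ≤ Real.exp X) (hh0 : Real.exp (-X) ≤ ‖h 0‖)
    (hne : ∀ z ∈ sphere (0 : ℂ) r, h z ≠ 0) :
    ∃ (n : ℕ) (a : Fin n → ℂ), (n : ℝ) ≤ 8 * (X / d) ∧
      (∀ i, ∀ z ∈ sphere (0 : ℂ) r, z ≠ a i) ∧
      ∀ z ∈ sphere (0 : ℂ) r, ‖deriv h z‖ / ‖h z‖ ≤
        ∑ i, ‖z - a i‖⁻¹ + (384 * K₀ + 32) * (X / d ^ 3) := by
  have hd1 : d ≤ 1 := by linarith
  have hpos := Real.exp_pos (-X)
  have hh0' : h 0 ≠ 0 := by
    rw [← norm_pos_iff]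
    linarith
  obtain ⟨n, a, H, ha, hHd, hHne, hHM, hH0, hn, heq⟩ := UP.Fac.exists_fac
    (f := h) (R := r + d) (R' := r + 3 * d / 4) (r := r + d / 2) (M := Real.exp X)
    (by linarith) (by linarith) (by linarith) hh hhM hh0'
  have hcount : (n : ℝ) ≤ 8 * (X / d) :=
    count hr hd hrd ((mul_le_mul_of_nonneg_right hh0 (by positivity)).trans hn)
  have hr0 : 0 < r + d / 2 := by linarith
  have hHne' : ∀ z ∈ ball (0 : ℂ) (r + d / 2), H z ≠ 0 :=
    fun z hz => hHne z (mem_ball_zero_iff.1 hz).le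
  obtain ⟨L, hLd, hLe, hLder, hL0⟩ := UP.Fac.exists_log (H := H) (r := r + d / 2) hr0
    (hHd.mono (ball_subset_ball (by linarith))) hHne'
  have h0b : (0 : ℂ) ∈ ball (0 : ℂ) (r + d / 2) := mem_ball_self hr0
  have hre : ∀ x ∈ ball (0 : ℂ) (r + d / 2), Real.exp (L x).re = ‖H x‖ := by
    intro x hx
    rw [← hLe x hx, Complex.norm_exp]
  have hreX : ∀ x ∈ ball (0 : ℂ) (r + d / 2), (L x).re ≤ X := by
    intro x hx
    rw [← Real.exp_le_exp, hre x hx]
    exact hHM x ((mem_ball_zero_iff.1 hx).le.trans (by linarith))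
  have hL0n : ‖L 0‖ ≤ 5 * X := by
    have h1 : -X ≤ (L 0).re := by
      rw [← Real.exp_le_exp, hre 0 h0b]
      exact hh0.trans hH0
    have h2 : |(L 0).re| ≤ X := abs_le.2 ⟨h1, hreX 0 h0b⟩
    have h3 := Complex.norm_le_abs_re_add_abs_im (L 0)
    have h4 : π < 4 := Real.pi_lt_four
    linarith
  have hnb : ∀ i, ∀ x : ℂ, ‖x‖ ≤ r + 3 * d / 4 →
      (r + 3 * d / 4) * (d / 4) ≤
        ‖((r + 3 * d / 4 : ℝ) : ℂ) ^ 2 - (starRingEnd ℂ) (a i) * x‖ := by
    intro i x hx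
    have h1 := UP.Fac.bl_ne hr0 (by linarith : r + d / 2 < r + 3 * d / 4) (ha i) hx
    have e : r + 3 * d / 4 - (r + d / 2) = d / 4 := by ring
    rwa [e] at h1
  have hq0 : 0 < (r + 3 * d / 4) * (d / 4) := by positivity
  have hnb' : ∀ i, ∀ x : ℂ, ‖x‖ ≤ r + 3 * d / 4 →
      ((r + 3 * d / 4 : ℝ) : ℂ) ^ 2 - (starRingEnd ℂ) (a i) * x ≠ 0 := fun i x hx =>
    norm_pos_iff.1 (hq0.trans_le (hnb i x hx))
  have hsphere : ∀ z ∈ sphere (0 : ℂ) r, ‖z‖ = r := fun z hz => mem_sphere_zero_iff_norm.1 hz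
  have hza : ∀ i, ∀ z ∈ sphere (0 : ℂ) r, z ≠ a i := by
    intro i z hz h'
    have hz1 := hsphere z hz
    have h1 := heq z (by rw [mem_ball_zero_iff]; linarith)
    have h2 : ∏ j, (((r + 3 * d / 4 : ℝ) : ℂ) * (z - a j)) = 0 :=
      Finset.prod_eq_zero (Finset.mem_univ i) (by rw [h', sub_self, mul_zero])
    rw [h2, mul_zero] at h1
    rcases mul_eq_zero.1 h1 with h3 | h3
    · exact hne z hz h3
    · obtain ⟨j, -, hj⟩ := Finset.prod_eq_zero_iff.1 h3
      exact hnb' j z (by linarith) hj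
  refine ⟨n, a, hcount, hza, ?_⟩
  intro z hz
  have hz1 := hsphere z hz
  have hbc := (hBC L (r + d / 2) (d / 4) X (5 * X) (by linarith) (by linarith) (by linarith)
    (by linarith) hX (by linarith) hLd hreX hL0n z (by linarith)).2.1
  have hzb : z ∈ ball (0 : ℂ) (r + d / 2) := by
    rw [mem_ball_zero_iff]
    linarith
  obtain ⟨hzne, hder⟩ := UP.GR.deriv_eq (by linarith) (by linarith) hh hHd hHne' hLder
    (fun i w hw => hnb' i w ((mem_ball_zero_iff.1 hw).le.trans (by linarith)))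
    (by linarith) heq hzb (fun i => hza i z hz)
  have e1 : ‖deriv h z‖ / ‖h z‖ = ‖UP.GR.G L a (r + 3 * d / 4) z‖ := by
    rw [hder, norm_mul, mul_div_cancel_left₀ _ (norm_ne_zero_iff.2 hzne)]
  rw [e1]
  have hb : ∀ i, ‖(starRingEnd ℂ) (a i) *
      (((r + 3 * d / 4 : ℝ) : ℂ) ^ 2 - (starRingEnd ℂ) (a i) * z)⁻¹‖ ≤ 4 / d := by
    intro i
    rw [norm_mul, RCLike.norm_conj, norm_inv]
    have h1 := hnb i z (by linarith)
    have h2 : (‖((r + 3 * d / 4 : ℝ) : ℂ) ^ 2 - (starRingEnd ℂ) (a i) * z‖)⁻¹ ≤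
        ((r + 3 * d / 4) * (d / 4))⁻¹ := inv_anti₀ hq0 h1
    have h3 : ‖a i‖ ≤ r + 3 * d / 4 := (ha i).trans (by linarith)
    calc _ ≤ (r + 3 * d / 4) * ((r + 3 * d / 4) * (d / 4))⁻¹ :=
          mul_le_mul h3 h2 (by positivity) (by positivity)
      _ = 4 / d := by
          have : r + 3 * d / 4 ≠ 0 := by positivity
          field_simp
  have hX3 : X / d ^ 2 ≤ X / d ^ 3 := by
    apply div_le_div_of_nonneg_left (by linarith) (by positivity)
    exact pow_le_pow_of_le_one hd.le hd1 (by norm_num)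
  have hBX : K₀ * (X + 5 * X) / (d / 4) ^ 3 = 384 * K₀ * (X / d ^ 3) := by
    field_simp
    ring
  rw [hBX] at hbc
  have h1 : ‖∑ i, ((z - a i)⁻¹ + (starRingEnd ℂ) (a i) *
      (((r + 3 * d / 4 : ℝ) : ℂ) ^ 2 - (starRingEnd ℂ) (a i) * z)⁻¹)‖ ≤
      ∑ i, (‖z - a i‖⁻¹ + 4 / d) := by
    refine (norm_sum_le _ _).trans (Finset.sum_le_sum fun i _ => ?_)
    refine (norm_add_le _ _).trans ?_
    rw [norm_inv]
    exact add_le_add le_rfl (hb i)
  have h1' : ∑ i, (‖z - a i‖⁻¹ + 4 / d) = ∑ i, ‖z - a i‖⁻¹ + (n : ℝ) * (4 / d) := by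
    rw [Finset.sum_add_distrib, Finset.sum_const, Finset.card_univ, Fintype.card_fin,
      nsmul_eq_mul]
  rw [h1'] at h1
  have h2 : (n : ℝ) * (4 / d) ≤ 32 * (X / d ^ 2) := by
    calc (n : ℝ) * (4 / d) ≤ 8 * (X / d) * (4 / d) :=
          mul_le_mul_of_nonneg_right hcount (by positivity)
      _ = 32 * (X / d ^ 2) := by
          field_simp
          ring
  unfold UP.GR.G
  refine (norm_add_le _ _).trans ?_
  have h3 : (384 * K₀ + 32) * (X / d ^ 3) = 384 * K₀ * (X / d ^ 3) + 32 * (X / d ^ 3) := by ring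
  rw [h3]
  linarith

/-- the final estimate of the constant -/
theorem fin {K₀ X r d : ℝ} {n : ℕ} (hK₀ : 1 ≤ K₀) (hr : 0 < r) (hd : 0 < d) (hrd : r + d ≤ 1)
    (hX : 1 ≤ X) (hn : (n : ℝ) ≤ 8 * (X / d)) :
    2 * Real.log (1 + n * (r ^ (-(1 / 2) : ℝ) * Cs) +
      Real.sqrt ((384 * K₀ + 32) * (X / d ^ 3))) ≤
      (6 + 2 * Real.log (34 + 8 * Cs + 384 * K₀)) *
        (1 + Real.log X + Real.log (1 / d) + Real.log (1 / r)) := by
  have hC := Cs_nonneg
  have hd1 : d ≤ 1 := by linarith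
  have hr1 : r ≤ 1 := by linarith
  have hd' : 1 ≤ 1 / d := by rw [le_div_iff₀ hd]; linarith
  have hr' : 1 ≤ 1 / r := by rw [le_div_iff₀ hr]; linarith
  set Z : ℝ := X * (1 / d) ^ 3 * (1 / r) with hZ
  have hd3 : 1 ≤ (1 / d) ^ 3 := one_le_pow₀ hd'
  have hXd : 1 ≤ X * (1 / d) ^ 3 := one_le_mul_of_one_le_of_one_le hX hd3
  have hZ1 : 1 ≤ Z := one_le_mul_of_one_le_of_one_le hXd hr'
  have hXZ : X / d ^ 3 ≤ Z := by
    have e : X / d ^ 3 = X * (1 / d) ^ 3 := by
      field_simp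
    rw [e, hZ]
    exact le_mul_of_one_le_right (by linarith) hr'
  have hrp : r ^ (-(1 / 2) : ℝ) ≤ 1 / r := by
    have h1 : r ^ (-(1 / 2) : ℝ) ≤ r ^ (-1 : ℝ) :=
      Real.rpow_le_rpow_of_exponent_ge hr hr1 (by norm_num)
    rwa [Real.rpow_neg_one, ← one_div] at h1
  have hnZ : (n : ℝ) * (r ^ (-(1 / 2) : ℝ) * Cs) ≤ 8 * Cs * Z := by
    have h1 : X / d ≤ X * (1 / d) ^ 3 := by
      have e : X / d = X * (1 / d) := by ring
      have h9 : 1 / d ≤ (1 / d) ^ 3 := le_self_pow₀ hd' (by norm_num)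
      rw [e]
      exact mul_le_mul_of_nonneg_left h9 (by linarith)
    have h2 : (n : ℝ) ≤ 8 * (X * (1 / d) ^ 3) := by linarith
    calc (n : ℝ) * (r ^ (-(1 / 2) : ℝ) * Cs) ≤ (8 * (X * (1 / d) ^ 3)) * ((1 / r) * Cs) :=
          mul_le_mul h2 (mul_le_mul_of_nonneg_right hrp hC)
            (mul_nonneg (Real.rpow_nonneg hr.le _) hC) (by positivity)
      _ = 8 * Cs * Z := by rw [hZ]; ring
  have hsq : Real.sqrt ((384 * K₀ + 32) * (X / d ^ 3)) ≤ 1 + (384 * K₀ + 32) * Z := by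
    have h0 : 0 ≤ (384 * K₀ + 32) * (X / d ^ 3) := by positivity
    rw [Real.sqrt_le_left (by positivity)]
    have h1 : (384 * K₀ + 32) * (X / d ^ 3) ≤ (384 * K₀ + 32) * Z :=
      mul_le_mul_of_nonneg_left hXZ (by positivity)
    nlinarith
  have hB : 1 + n * (r ^ (-(1 / 2) : ℝ) * Cs) +
      Real.sqrt ((384 * K₀ + 32) * (X / d ^ 3)) ≤ (34 + 8 * Cs + 384 * K₀) * Z := by
    nlinarith
  have hpos : 0 < 1 + n * (r ^ (-(1 / 2) : ℝ) * Cs) +
      Real.sqrt ((384 * K₀ + 32) * (X / d ^ 3)) := by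
    have := Real.rpow_nonneg hr.le (-(1 / 2) : ℝ)
    positivity
  have hlog := Real.log_le_log hpos hB
  have hC2 : 1 ≤ 34 + 8 * Cs + 384 * K₀ := by linarith
  rw [Real.log_mul (by linarith) (by linarith)] at hlog
  have hlZ : Real.log Z = Real.log X + 3 * Real.log (1 / d) + Real.log (1 / r) := by
    rw [hZ, Real.log_mul (by linarith) (by linarith), Real.log_mul (by linarith) (by linarith),
      Real.log_pow]
    push_cast
    ring
  rw [hlZ] at hlog
  have l1 := Real.log_nonneg hX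
  have l2 := Real.log_nonneg hd'
  have l3 := Real.log_nonneg hr'
  have l4 := Real.log_nonneg hC2
  have h5 : 0 ≤ Real.log (34 + 8 * Cs + 384 * K₀) *
      (Real.log X + Real.log (1 / d) + Real.log (1 / r)) := mul_nonneg l4 (by linarith)
  nlinarith

end LDx

open LDx in
theorem LD_proof : S_LD := by
  obtain ⟨K₀, hK₀, hBC⟩ := UP.BC_proof
  have hC := Cs_nonneg
  refine ⟨6 + 2 * Real.log (34 + 8 * Cs + 384 * K₀), ?_, ?_⟩
  · have := Real.log_nonneg (by linarith : 1 ≤ 34 + 8 * Cs + 384 * K₀)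
    linarith
  intro f c r R X hr hrR hR1 hX hf hfX hfc hne
  have hd : 0 < R - r := by linarith
  have hrd : r + (R - r) = R := by ring
  have hmem : ∀ z ∈ closedBall (0 : ℂ) R, z + c ∈ closedBall c R := by
    intro z hz
    rw [mem_closedBall_zero_iff] at hz
    rw [mem_closedBall, dist_eq_norm, add_sub_cancel_right]
    exact hz
  have hda : ∀ z ∈ closedBall (0 : ℂ) R, HasDerivAt (fun z => f (z + c)) (deriv f (z + c)) z := by
    intro z hz
    exact ((hf (z + c) (hmem z hz)).differentiableAt.hasDerivAt).comp_add_const z c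
  have hbc : ∀ z ∈ ball (0 : ℂ) (r + (R - r)), z ∈ closedBall (0 : ℂ) R := by
    intro z hz
    rw [hrd] at hz
    exact ball_subset_closedBall hz
  obtain ⟨n, a, hn, hza, hbd⟩ := logder hK₀ hBC (h := fun z => f (z + c)) (r := r) (d := R - r)
    (X := X) hr hd (by linarith) hX
    (fun z hz => (hda z (hbc z hz)).differentiableAt.differentiableWithinAt)
    (fun z hz => hfX _ (hmem z (hbc z hz)))
    (by simpa using hfc)
    (fun z hz => hne _ (by
      rw [mem_sphere_zero_iff_norm] at hz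
      rw [mem_sphere, dist_eq_norm, add_sub_cancel_right]
      exact hz))
  have h1 : circleAverage (fun z => Real.posLog (‖deriv f z‖ / ‖f z‖)) c r =
      circleAverage (fun z => Real.posLog (‖deriv (fun z => f (z + c)) z‖ / ‖f (z + c)‖)) 0 r := by
    rw [← circleAverage_map_add_const]
    apply circleAverage_congr_sphere
    intro z hz
    rw [abs_of_pos hr, mem_sphere_zero_iff_norm] at hz
    simp only
    rw [(hda z (by rw [mem_closedBall_zero_iff]; linarith)).deriv]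
  rw [h1]
  have h2 := mean (a := a) (g := fun z => ‖deriv (fun z => f (z + c)) z‖ / ‖f (z + c)‖)
    (A := (384 * K₀ + 32) * (X / (R - r) ^ 3)) hr
    (fun i t => hza i _ (by
      have := circleMap_mem_sphere (0 : ℂ) hr.le t
      exact this)) (by positivity) (fun z _ => by positivity) hbd
  exact h2.trans (fin hK₀ hr hd (by linarith) hX hn)

end Pool.Agent.Work.MP_6d7a54_an.NF
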