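import Pool.Agent.Work.MP_6d7a54_an.NF.Stmts

/-!
# Item RadF: selection of the radius for finitely many functions
-/

namespace Pool.Agent.Work.MP_6d7a54_an.NF

open Filter Metric Set Topology MeasureTheory

namespace RadFx

theorem lint {R : ℝ} (hR : 0 < R) :
    ∫⁻ x : ℝ, ENNReal.ofReal (Real.log R - Real.log x) = ENNReal.ofReal (2 * R) := by
  have h0 : ∀ x : ℝ, x ∉ Icc (-R) R → ENNReal.ofReal (Real.log R - Real.log x) = 0 := by
    intro x hx
    rw [ENNReal.ofReal_eq_zero, ← Real.log_abs x]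
    have h1 : R ≤ |x| := by
      by_contra h
      rw [not_le, abs_lt] at h
      exact hx ⟨h.1.le, h.2.le⟩
    linarith [Real.log_le_log hR h1]
  have h1 : ∫⁻ x : ℝ, ENNReal.ofReal (Real.log R - Real.log x) =
      ∫⁻ x in Icc (-R) R, ENNReal.ofReal (Real.log R - Real.log x) := by
    rw [← lintegral_indicator measurableSet_Icc]
    congr 1
    funext x
    by_cases hx : x ∈ Icc (-R) R
    · rw [indicator_of_mem hx]
    · rw [indicator_of_notMem hx, h0 x hx]
  have hle : -R ≤ R := by linarith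
  have hi : IntervalIntegrable (fun x : ℝ => Real.log R - Real.log x) volume (-R) R :=
    intervalIntegrable_const.sub intervalIntegral.intervalIntegrable_log'
  have hi2 : IntegrableOn (fun x : ℝ => Real.log R - Real.log x) (Icc (-R) R) volume := by
    rw [integrableOn_Icc_iff_integrableOn_Ioc]
    exact (intervalIntegrable_iff_integrableOn_Ioc_of_le hle).1 hi
  have hnn : 0 ≤ᵐ[volume.restrict (Icc (-R) R)] fun x : ℝ => Real.log R - Real.log x := by
    rw [EventuallyLE, ae_restrict_iff' measurableSet_Icc]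
    have h2 : ∀ᵐ x : ℝ, x ≠ 0 := by
      have : (volume : Measure ℝ) {0} = 0 := measure_singleton 0
      exact compl_mem_ae_iff.2 this
    filter_upwards [h2] with x hx hxI
    show 0 ≤ Real.log R - Real.log x
    rw [← Real.log_abs x]
    have h3 : |x| ≤ R := abs_le.2 hxI
    linarith [Real.log_le_log (abs_pos.2 hx) h3]
  rw [h1, ← ofReal_integral_eq_lintegral_ofReal hi2 hnn, integral_Icc_eq_integral_Ioc,
    ← intervalIntegral.integral_of_le hle, intervalIntegral.integral_sub
      intervalIntegrable_const intervalIntegral.intervalIntegrable_log',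
    intervalIntegral.integral_const, integral_log, Real.log_neg_eq_log]
  congr 1
  simp only [smul_eq_mul]
  ring

theorem lint' {R : ℝ} (hR : 0 < R) (d : ℝ) :
    ∫⁻ x : ℝ, ENNReal.ofReal (Real.log R - Real.log (x - d)) = ENNReal.ofReal (2 * R) := by
  rw [← lint hR]
  exact lintegral_sub_right_eq_self (fun x : ℝ => ENNReal.ofReal (Real.log R - Real.log x)) d

theorem bad_le {ι : Type} [Fintype ι] (d : ι → ℝ) {R θ B : ℝ} (hR : 0 < R) (hθ : 0 < θ)
    (hB : (Fintype.card ι : ℝ) * (2 * R) ≤ B) :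
    volume {ρ : ℝ | ENNReal.ofReal θ ≤ ∑ i, ENNReal.ofReal (Real.log R - Real.log (ρ - d i))} ≤
      ENNReal.ofReal (B / θ) := by
  have hm : ∀ i ∈ (Finset.univ : Finset ι),
      Measurable fun ρ : ℝ => ENNReal.ofReal (Real.log R - Real.log (ρ - d i)) := by
    intro i _
    exact (measurable_const.sub (Real.measurable_log.comp (measurable_id.sub_const (d i)))).ennreal_ofReal
  have h1 := mul_meas_ge_le_lintegral (μ := (volume : Measure ℝ))
    (Finset.measurable_fun_sum Finset.univ hm) (ENNReal.ofReal θ)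
  rw [lintegral_finsetSum _ hm] at h1
  simp only [lint' hR, Finset.sum_const, Finset.card_univ, nsmul_eq_mul] at h1
  have hθ' : ENNReal.ofReal θ ≠ 0 := by
    rw [Ne, ENNReal.ofReal_eq_zero, not_le]
    exact hθ
  rw [ENNReal.ofReal_div_of_pos hθ, ENNReal.le_div_iff_mul_le (Or.inl hθ')
    (Or.inl ENNReal.ofReal_ne_top), mul_comm]
  refine h1.trans ?_
  rw [← ENNReal.ofReal_natCast, ← ENNReal.ofReal_mul (Nat.cast_nonneg _)]
  exact ENNReal.ofReal_le_ofReal hB

theorem sel {a : ℝ} (ha : 0 < a) {T : ℝ → ℝ} (hT : MonotoneOn T (Icc (a / 4) (3 * a / 4)))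
    (h2 : 2 ≤ T (a / 4)) (S : Set ℝ) (hS : S ⊆ Icc (a / 4) (a / 2))
    (hvol : ENNReal.ofReal (3 * a / 16) ≤ volume S) :
    ∃ r ∈ S, T (r + a / (8 * T r)) ≤ 2 * T r := by
  by_contra hn
  push Not at hn
  set T0 := T (a / 4) with hT0
  have hT0p : 0 < T0 := by linarith
  have hTS : ∀ ρ ∈ S, T0 ≤ T ρ := by
    intro ρ hρ
    have h := hS hρ
    exact hT ⟨le_rfl, by linarith⟩ ⟨h.1, by linarith [h.2]⟩ h.1
  set G : ℕ → Set ℝ := fun i => {ρ | ρ ∈ S ∧ 2 ^ i * T0 ≤ T ρ ∧ T ρ < 2 ^ (i + 1) * T0} with hG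
  have hcov : S ⊆ ⋃ i, G i := by
    intro ρ hρ
    have h1 : 1 ≤ T ρ / T0 := by
      rw [one_le_div hT0p]
      exact hTS ρ hρ
    obtain ⟨i, hi1, hi2⟩ := exists_nat_pow_near h1 one_lt_two
    rw [le_div_iff₀ hT0p] at hi1
    rw [div_lt_iff₀ hT0p] at hi2
    exact mem_iUnion.2 ⟨i, hρ, hi1, hi2⟩
  have hstep : ∀ i, ∀ ρ ∈ G i, ∀ ρ' ∈ G i, ρ < ρ' → ρ' - ρ ≤ a / (8 * T0) * (1 / 2) ^ i := by
    intro i ρ hρ ρ' hρ' hlt
    have hTρ : 0 < T ρ := hT0p.trans_le (hTS ρ hρ.1)
    have hh : ρ' < ρ + a / (8 * T ρ) := by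
      by_contra hc
      rw [not_lt] at hc
      have h3 := hn ρ hρ.1
      have h4 : 0 < a / (8 * T ρ) := by positivity
      have h5 : T (ρ + a / (8 * T ρ)) ≤ T ρ' := by
        have b1 := hS hρ.1
        have b2 := hS hρ'.1
        exact hT ⟨by linarith [b1.1], by linarith [b2.2]⟩ ⟨b2.1, by linarith [b2.2]⟩ hc
      have h6 : T ρ' < 2 * (2 ^ i * T0) := by
        have := hρ'.2.2
        rw [pow_succ] at this
        linarith
      linarith [hρ.2.1]
    have h7 : a / (8 * T ρ) ≤ a / (8 * T0) * (1 / 2) ^ i := by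
      have e : a / (8 * T0) * (1 / 2) ^ i = a / (8 * (2 ^ i * T0)) := by
        rw [one_div, inv_pow]
        field_simp
      rw [e]
      have h8 := hρ.2.1
      have h9 : 0 < 2 ^ i * T0 := by positivity
      gcongr
    linarith
  have hdiam : ∀ i, volume (G i) ≤ ENNReal.ofReal (a / (8 * T0) * (1 / 2) ^ i) := by
    intro i
    refine (Real.volume_le_diam _).trans (Metric.ediam_le fun x hx y hy => ?_)
    rw [edist_dist]
    refine ENNReal.ofReal_le_ofReal ?_
    rw [Real.dist_eq]
    have h0 : 0 ≤ a / (8 * T0) * (1 / 2) ^ i := by positivity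
    rcases lt_trichotomy x y with h | h | h
    · rw [abs_sub_comm, abs_of_pos (by linarith)]
      exact hstep i x hx y hy h
    · rw [h, sub_self, abs_zero]
      exact h0
    · rw [abs_of_pos (by linarith)]
      exact hstep i y hy x hx h
  have hsum : volume S ≤ ENNReal.ofReal (a / (4 * T0)) := by
    calc volume S ≤ volume (⋃ i, G i) := measure_mono hcov
      _ ≤ ∑' i, volume (G i) := measure_iUnion_le G
      _ ≤ ∑' i, ENNReal.ofReal (a / (8 * T0) * (1 / 2) ^ i) := ENNReal.tsum_le_tsum hdiam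
      _ = ENNReal.ofReal (∑' i : ℕ, a / (8 * T0) * (1 / 2) ^ i) := by
          rw [ENNReal.ofReal_tsum_of_nonneg]
          · intro i
            positivity
          · exact summable_geometric_two.mul_left _
      _ = ENNReal.ofReal (a / (4 * T0)) := by
          rw [tsum_mul_left, tsum_geometric_two]
          congr 1
          field_simp
          ring
  have hlt : a / (4 * T0) < 3 * a / 16 := by
    rw [div_lt_div_iff₀ (by positivity) (by norm_num)]
    nlinarith
  have h3 := hvol.trans hsum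
  rw [ENNReal.ofReal_le_ofReal_iff (by positivity)] at h3
  linarith

/-- one factor -/
theorem factor {R : ℝ} (hR : 0 < R) {c z w : ℂ} {r : ℝ} (hz : ‖z - c‖ = r) (hr : r ≠ ‖w - c‖) :
    Real.exp (-max 0 (Real.log R - Real.log (r - ‖w - c‖))) ≤ min 1 (‖z - w‖ / R) := by
  have hx : 0 < |r - ‖w - c‖| := abs_pos.2 (sub_ne_zero.2 hr)
  have h1 : |r - ‖w - c‖| ≤ ‖z - w‖ := by
    have := abs_norm_sub_norm_le (z - c) (w - c)
    rw [hz, sub_sub_sub_cancel_right] at this
    exact this
  rw [← Real.log_abs (r - ‖w - c‖)]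
  refine le_min ?_ ?_
  · rw [Real.exp_le_one_iff]
    linarith [le_max_left 0 (Real.log R - Real.log |r - ‖w - c‖|)]
  · calc Real.exp (-max 0 (Real.log R - Real.log |r - ‖w - c‖|))
        ≤ Real.exp (-(Real.log R - Real.log |r - ‖w - c‖|)) :=
          Real.exp_le_exp.2 (neg_le_neg (le_max_right _ _))
      _ = |r - ‖w - c‖| / R := by
          rw [neg_sub, Real.exp_sub, Real.exp_log hx, Real.exp_log hR]
      _ ≤ ‖z - w‖ / R := by gcongr

theorem prod_lower {R : ℝ} (hR : 0 < R) {n : ℕ} (w : Fin n → ℂ) {c z : ℂ} {r θ : ℝ}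
    (hθ : 0 ≤ θ) (hz : ‖z - c‖ = r) (hr : ∀ l, r ≠ ‖w l - c‖)
    (h : ∑ l, ENNReal.ofReal (Real.log R - Real.log (r - ‖w l - c‖)) ≤ ENNReal.ofReal θ) :
    Real.exp (-θ) ≤ ∏ l, min 1 (‖z - w l‖ / R) := by
  have h1 : ∀ l, ENNReal.ofReal (Real.log R - Real.log (r - ‖w l - c‖)) =
      ENNReal.ofReal (max 0 (Real.log R - Real.log (r - ‖w l - c‖))) := by
    intro l
    rcases le_total 0 (Real.log R - Real.log (r - ‖w l - c‖)) with h | h
    · rw [max_eq_right h]
    · rw [max_eq_left h, ENNReal.ofReal_zero, ENNReal.ofReal_eq_zero]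
      exact h
  rw [Finset.sum_congr rfl fun l _ => h1 l,
    ← ENNReal.ofReal_sum_of_nonneg fun l _ => le_max_left _ _,
    ENNReal.ofReal_le_ofReal_iff hθ] at h
  calc Real.exp (-θ) ≤ Real.exp (∑ l, -max 0 (Real.log R - Real.log (r - ‖w l - c‖))) := by
        rw [Real.exp_le_exp, Finset.sum_neg_distrib]
        linarith
    _ = ∏ l, Real.exp (-max 0 (Real.log R - Real.log (r - ‖w l - c‖))) := Real.exp_sum _ _
    _ ≤ ∏ l, min 1 (‖z - w l‖ / R) :=
        Finset.prod_le_prod (fun l _ => (Real.exp_pos _).le) fun l _ => factor hR hz (hr l)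

/-- the final estimate -/
theorem fin_est {KL K0 del a T : ℝ} (hKL : 1 ≤ KL) (hK0 : 1 ≤ K0) (hdel : 0 < del) (ha : 0 < a)
    (ha2 : a ≤ 1 / 2)
    (hT : (2 + 8 * KL / del + 4 * KL / del * |1 + Real.log 2048 + Real.log K0 +
      3 * Real.log (12 * KL / del)|) * (1 + Real.log (1 / a)) ≤ T) :
    KL * (1 + Real.log (32 * K0 * T ^ 2) + Real.log (16 * T / a) + Real.log (4 / a)) ≤
      del * T := by
  set C1 := 1 + Real.log 2048 + Real.log K0 + 3 * Real.log (12 * KL / del) with hC1
  set La := Real.log (1 / a) with hLa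
  have hLa0 : 0 ≤ La := Real.log_nonneg (by
    rw [one_le_div ha]
    linarith)
  have hp1 : 0 < 8 * KL / del := by positivity
  have hp2 : 0 ≤ 4 * KL / del * |C1| := by positivity
  have hT2 : 2 ≤ T := by nlinarith
  have hT0 : 0 < T := by linarith
  have hA : 8 * KL / del * La ≤ T := by nlinarith
  have hB : 4 * KL / del * |C1| ≤ T := by nlinarith
  have e1 : Real.log (32 * K0 * T ^ 2) = Real.log 32 + Real.log K0 + 2 * Real.log T := by
    rw [Real.log_mul (by positivity) (by positivity), Real.log_mul (by norm_num) (by positivity),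
      Real.log_pow]
    push_cast
    ring
  have e2 : Real.log (16 * T / a) = Real.log 16 + Real.log T + La := by
    rw [hLa, div_eq_mul_one_div, Real.log_mul (by positivity) (by positivity),
      Real.log_mul (by norm_num) hT0.ne']
  have e3 : Real.log (4 / a) = Real.log 4 + La := by
    rw [hLa, div_eq_mul_one_div, Real.log_mul (by norm_num) (by positivity)]
  have e4 : Real.log 32 + Real.log 16 + Real.log 4 = Real.log 2048 := by
    rw [← Real.log_mul (by norm_num) (by norm_num), ← Real.log_mul (by norm_num) (by norm_num)]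
    norm_num
  have h1 : Real.log T ≤ del / (12 * KL) * T + Real.log (12 * KL / del) := by
    have h2 : Real.log (del / (12 * KL) * T) ≤ del / (12 * KL) * T := by
      have := Real.log_le_sub_one_of_pos (show 0 < del / (12 * KL) * T by positivity)
      linarith
    have h3 : Real.log (del / (12 * KL) * T) = Real.log T - Real.log (12 * KL / del) := by
      rw [Real.log_mul (by positivity) hT0.ne', ← inv_div, Real.log_inv]
      ring
    linarith
  have h4 : 2 * KL * La ≤ del / 4 * T := by
    have : 8 * KL / del * La * (del / 4) ≤ T * (del / 4) := by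
      exact mul_le_mul_of_nonneg_right hA (by positivity)
    have e : 8 * KL / del * La * (del / 4) = 2 * KL * La := by
      field_simp
      ring
    rw [e] at this
    linarith
  have h5 : KL * C1 ≤ del / 4 * T := by
    have h6 : KL * C1 ≤ KL * |C1| := mul_le_mul_of_nonneg_left (le_abs_self _) (by linarith)
    have : 4 * KL / del * |C1| * (del / 4) ≤ T * (del / 4) :=
      mul_le_mul_of_nonneg_right hB (by positivity)
    have e : 4 * KL / del * |C1| * (del / 4) = KL * |C1| := by
      field_simp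
    rw [e] at this
    linarith
  have h7 : KL * (3 * (del / (12 * KL) * T)) = del / 4 * T := by
    field_simp
    ring
  rw [e1, e2, e3]
  have h8 : KL * (1 + (Real.log 32 + Real.log K0 + 2 * Real.log T) +
      (Real.log 16 + Real.log T + La) + (Real.log 4 + La)) =
      KL * (1 + Real.log 2048 + Real.log K0) + KL * (3 * Real.log T) + 2 * KL * La := by
    rw [← e4]
    ring
  rw [h8]
  have h9 : KL * (3 * Real.log T) ≤
      KL * (3 * (del / (12 * KL) * T)) + KL * (3 * Real.log (12 * KL / del)) := by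
    rw [← mul_add]
    exact mul_le_mul_of_nonneg_left (by linarith) (by linarith)
  have h10 : KL * C1 = KL * (1 + Real.log 2048 + Real.log K0) +
      KL * (3 * Real.log (12 * KL / del)) := by
    rw [hC1]
    ring
  have h11 : 0 < del * T := by positivity
  linarith

end RadFx

open RadFx in
theorem RadF_proof (h5 : S_CL) (h8 : S_LD) : S_RadF := by
  obtain ⟨K, hK1, hCL⟩ := h5
  obtain ⟨KL, hKL1, hLD⟩ := h8
  intro k K0 del hK0 hdel
  refine ⟨2 + 8 * KL / del + 4 * KL / del * |1 + Real.log 2048 + Real.log K0 +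
      3 * Real.log (12 * KL / del)|, K + 20 * (k + 1) * K, ?_, by positivity, ?_⟩
  · have h1 : 0 < 8 * KL / del := by positivity
    have h2 : 0 ≤ 4 * KL / del * |1 + Real.log 2048 + Real.log K0 +
      3 * Real.log (12 * KL / del)| := by positivity
    linarith
  intro a c f T X ha ha2 hT hA0 hf hgr hfc hX hTX
  set A0 := 2 + 8 * KL / del + 4 * KL / del * |1 + Real.log 2048 + Real.log K0 +
      3 * Real.log (12 * KL / del)| with hA0d
  have hA02 : 2 ≤ A0 := by
    have h1 : 0 < 8 * KL / del := by positivity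
    have h2 : 0 ≤ 4 * KL / del * |1 + Real.log 2048 + Real.log K0 +
      3 * Real.log (12 * KL / del)| := by positivity
    linarith
  have hLa0 : 0 ≤ Real.log (1 / a) := Real.log_nonneg (by
    rw [one_le_div ha]
    linarith)
  have hT02 : 2 ≤ T (a / 4) := by nlinarith
  have hX2 : 2 ≤ X := hT02.trans hTX
  have hR : 0 < 5 * a / 8 := by positivity
  -- zeros
  have hz : ∀ j, ∃ (n : ℕ) (w : Fin n → ℂ), (n : ℝ) ≤ K * X ∧
      ∀ z ∈ closedBall c (4 * (5 * a / 8) / 5),
        Real.exp (-(K * X)) * ∏ l, min 1 (‖z - w l‖ / (5 * a / 8)) ≤ ‖f j z‖ := by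
    intro j
    refine hCL (f j) c c (5 * a / 8) X hR (by linarith) ((hf j).mono
      (closedBall_subset_closedBall (by linarith))) (hX j) (mem_closedBall_self (by positivity)) ?_
    exact (Real.exp_le_exp.2 (by linarith)).trans (hfc j)
  choose n w hn hw using hz
  -- the bad set
  set θ := 20 * ((k : ℝ) + 1) * K * X with hθ
  have hθ0 : 0 < θ := by positivity
  set d : (Σ j : Fin k, Fin (n j)) → ℝ := fun p => ‖w p.1 p.2 - c‖ with hd
  have hcard : ((Fintype.card (Σ j : Fin k, Fin (n j)) : ℕ) : ℝ) ≤ k * (K * X) := by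
    rw [Fintype.card_sigma]
    push_cast
    simp only [Fintype.card_fin]
    calc ∑ j, (n j : ℝ) ≤ ∑ _j : Fin k, K * X := Finset.sum_le_sum fun j _ => hn j
      _ = k * (K * X) := by simp
  have hbad := bad_le d (θ := θ) (B := ((k : ℝ) + 1) * (K * X) * (2 * (5 * a / 8))) hR hθ0 (by
    refine mul_le_mul_of_nonneg_right (hcard.trans ?_) (by positivity)
    have : 0 < K * X := by positivity
    nlinarith)
  have hBθ : ((k : ℝ) + 1) * (K * X) * (2 * (5 * a / 8)) / θ = a / 16 := by
    rw [hθ]
    have h1 : (0 : ℝ) < (k : ℝ) + 1 := by positivity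
    have h2 : 0 < K := by linarith
    have h3 : 0 < X := by linarith
    field_simp
    ring
  rw [hBθ] at hbad
  set Bad : Set ℝ := {ρ : ℝ | ENNReal.ofReal θ ≤
    ∑ i, ENNReal.ofReal (Real.log (5 * a / 8) - Real.log (ρ - d i))} with hBad
  set S : Set ℝ := Icc (a / 4) (a / 2) \ (Bad ∪ range d) with hS
  have hvol : ENNReal.ofReal (3 * a / 16) ≤ volume S := by
    have h1 : volume (Icc (a / 4) (a / 2)) - volume (Bad ∪ range d) ≤ volume S := le_measure_sdiff
    have h2 : volume (Bad ∪ range d) ≤ ENNReal.ofReal (a / 16) := by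
      refine (measure_union_le _ _).trans ?_
      rw [(finite_range d).measure_zero, add_zero]
      exact hbad
    refine le_trans ?_ h1
    refine le_trans ?_ (tsub_le_tsub_left h2 _)
    rw [Real.volume_Icc, ← ENNReal.ofReal_sub _ (by positivity)]
    refine ENNReal.ofReal_le_ofReal ?_
    linarith
  obtain ⟨r, hrS, hr⟩ := sel ha hT hT02 S sdiff_subset hvol
  have hrI : r ∈ Icc (a / 4) (a / 2) := hrS.1
  have hrBad : r ∉ Bad := fun h => hrS.2 (Or.inl h)
  have hrd : ∀ p, r ≠ d p := fun p h => hrS.2 (Or.inr ⟨p, h.symm⟩)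
  have hsum : ∑ i, ENNReal.ofReal (Real.log (5 * a / 8) - Real.log (r - d i)) ≤
      ENNReal.ofReal θ := by
    rw [hBad, mem_ofPred_eq, not_le] at hrBad
    exact hrBad.le
  have hTr : T (a / 4) ≤ T r :=
    hT ⟨le_rfl, by linarith⟩ ⟨hrI.1, by linarith [hrI.2]⟩ hrI.1
  have hTr2 : 2 ≤ T r := hT02.trans hTr
  have hTr0 : 0 < T r := by linarith
  refine ⟨r, hrI.1, hrI.2, fun j => ?_⟩
  have hlow : ∀ z ∈ sphere c r, Real.exp (-((K + 20 * (k + 1) * K) * X)) ≤ ‖f j z‖ := by
    intro z hz
    rw [mem_sphere, dist_eq_norm] at hz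
    have h1 := hw j z (by
      rw [mem_closedBall, dist_eq_norm, hz]
      linarith [hrI.2])
    have h2 : ∑ l, ENNReal.ofReal (Real.log (5 * a / 8) - Real.log (r - ‖w j l - c‖)) ≤
        ENNReal.ofReal θ := by
      refine le_trans ?_ hsum
      rw [Fintype.sum_sigma]
      exact Finset.single_le_sum (f := fun j => ∑ l : Fin (n j),
        ENNReal.ofReal (Real.log (5 * a / 8) - Real.log (r - d ⟨j, l⟩))) (fun _ _ => zero_le)
        (Finset.mem_univ j)
    have h3 := prod_lower hR (w j) hθ0.le hz (fun l => hrd ⟨j, l⟩) h2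
    calc Real.exp (-((K + 20 * (k + 1) * K) * X)) = Real.exp (-(K * X)) * Real.exp (-θ) := by
          rw [← Real.exp_add, hθ]
          congr 1
          ring
      _ ≤ Real.exp (-(K * X)) * ∏ l, min 1 (‖z - w j l‖ / (5 * a / 8)) :=
          mul_le_mul_of_nonneg_left h3 (Real.exp_pos _).le
      _ ≤ ‖f j z‖ := h1
  refine ⟨hlow, ?_⟩
  set h := a / (8 * T r) with hh
  have hh0 : 0 < h := by positivity
  have hh1 : h ≤ a / 16 := by
    rw [hh]
    gcongr
    linarith
  have hX' : 1 ≤ 32 * K0 * T r ^ 2 := by nlinarith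
  have hLDj := hLD (f j) c r (r + h / 2) (32 * K0 * T r ^ 2) (by linarith [hrI.1])
    (by linarith) (by linarith [hrI.2]) hX' ((hf j).mono (closedBall_subset_closedBall (by
      linarith [hrI.2]))) (fun z hz => by
        have h1 := hgr j (r + h / 2) (r + h) (by linarith [hrI.1]) (by linarith)
          (by linarith [hrI.2]) z hz
        refine h1.trans (Real.exp_le_exp.2 ?_)
        have e : a / (r + h - (r + h / 2)) = 16 * T r := by
          have e1 : r + h - (r + h / 2) = h / 2 := by ring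
          rw [e1, hh]
          field_simp
          ring
        rw [e]
        have h2 : K0 * (16 * T r) * T (r + h) ≤ K0 * (16 * T r) * (2 * T r) :=
          mul_le_mul_of_nonneg_left hr (by positivity)
        nlinarith) (by
        refine (Real.exp_le_exp.2 ?_).trans (hfc j)
        nlinarith) (fun z hz h0 => by
        have h1 := hlow z hz
        rw [h0, norm_zero] at h1
        exact absurd h1 (not_le.2 (Real.exp_pos _)))
  refine hLDj.trans ?_
  have hA0T : A0 * (1 + Real.log (1 / a)) ≤ T r := hA0.trans hTr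
  have hfin := fin_est hKL1 hK0 hdel ha ha2 hA0T
  refine le_trans ?_ hfin
  have e1 : Real.log (1 / (r + h / 2 - r)) = Real.log (16 * T r / a) := by
    congr 1
    have e2 : r + h / 2 - r = h / 2 := by ring
    rw [e2, hh]
    field_simp
    ring
  have e3 : Real.log (1 / r) ≤ Real.log (4 / a) := by
    have h1 : 0 < r := by linarith [hrI.1]
    refine Real.log_le_log (by positivity) ?_
    rw [div_le_div_iff₀ h1 ha]
    linarith [hrI.1]
  rw [e1]
  refine mul_le_mul_of_nonneg_left ?_ (by linarith)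
  linarith

end Pool.Agent.Work.MP_6d7a54_an.NF
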