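import Pool.Agent.Work.MP_6d7a54_an.NF.Stmts

/-!
# The Schwarz integral formula: a holomorphic function is bounded by the mean of its real part
-/

set_option autoImplicit false

namespace Pool.Agent.Work.MP_6d7a54_an.NF

open Filter Metric Set Topology Complex MeasureTheory
open scoped ComplexConjugate

namespace Schwx

theorem sphere_ne {c z w : ℂ} {r : ℝ} (hz : z ∈ ball c r) (hw : w ∈ sphere c r) : w - z ≠ 0 := by
  intro h
  rw [sub_eq_zero] at h
  rw [h, mem_sphere] at hw
  rw [mem_ball] at hz
  linarith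

theorem diffCont {v : ℂ → ℂ} {c : ℂ} {r : ℝ} (hr : 0 < r)
    (hv : AnalyticOnNhd ℂ v (closedBall c r)) : DiffContOnCl ℂ v (ball c r) := by
  refine DifferentiableOn.diffContOnCl ?_
  rw [closure_ball c hr.ne']
  exact hv.differentiableOn

/-- The kernel times `v`. -/
theorem mean_K {v : ℂ → ℂ} {c z : ℂ} {r : ℝ} (hr : 0 < r) (hz : z ∈ ball c r)
    (hv : AnalyticOnNhd ℂ v (closedBall c r)) :
    Real.circleAverage (fun w => ((z - c) / (w - z)) * v w) c r = v z - v c := by
  have hd := diffCont hr hv
  have hd' : DiffContOnCl ℂ v (ball c |r|) := by rwa [abs_of_pos hr]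
  have h1 : Real.circleAverage (fun w => ((w - c) / (w - z)) • v w) c r = v z :=
    hd'.circleAverage_smul_div (by rwa [abs_of_pos hr])
  have h2 : Real.circleAverage v c r = v c := hd'.circleAverage
  have hcv : ContinuousOn v (sphere c r) :=
    hv.continuousOn.mono sphere_subset_closedBall
  have hi1 : CircleIntegrable (fun w => ((w - c) / (w - z)) • v w) c r := by
    have hk : ContinuousOn (fun w : ℂ => (w - c) / (w - z)) (sphere c r) :=
      ContinuousOn.div (by fun_prop) (by fun_prop) fun w hw => sphere_ne hz hw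
    exact (hk.smul hcv).circleIntegrable hr.le
  have hi2 : CircleIntegrable v c r := hcv.circleIntegrable hr.le
  rw [← h1, ← h2, ← Real.circleAverage_fun_sub hi1 hi2]
  refine Real.circleAverage_congr_sphere fun w hw => ?_
  rw [abs_of_pos hr] at hw
  have := sphere_ne hz hw
  simp only [smul_eq_mul]
  field_simp
  ring

/-- The kernel times the conjugate of `v`. -/
theorem mean_Kc {v : ℂ → ℂ} {c z : ℂ} {r : ℝ} (hr : 0 < r) (hz : z ∈ ball c r)
    (hv : AnalyticOnNhd ℂ v (closedBall c r)) :
    Real.circleAverage (fun w => ((z - c) / (w - z)) * conj (v w)) c r = 0 := by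
  set G : ℂ → ℂ := fun w => conj (z - c) * (w - c) / ((r : ℂ) ^ 2 - conj (z - c) * (w - c)) * v w
    with hG
  have hden : ∀ w ∈ closedBall c r, (r : ℂ) ^ 2 - conj (z - c) * (w - c) ≠ 0 := by
    intro w hw h
    rw [sub_eq_zero] at h
    have h1 : ‖(r : ℂ) ^ 2‖ = r ^ 2 := by
      rw [norm_pow, Complex.norm_real, Real.norm_eq_abs, abs_of_pos hr]
    rw [h, norm_mul, RCLike.norm_conj] at h1
    rw [mem_closedBall, dist_eq_norm] at hw
    rw [mem_ball, dist_eq_norm] at hz
    have h2 : ‖z - c‖ * ‖w - c‖ ≤ ‖z - c‖ * r := mul_le_mul_of_nonneg_left hw (norm_nonneg _)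
    nlinarith
  have hGd : DiffContOnCl ℂ G (ball c |r|) := by
    rw [abs_of_pos hr]
    refine DifferentiableOn.diffContOnCl ?_
    rw [closure_ball c hr.ne']
    refine DifferentiableOn.mul ?_ hv.differentiableOn
    exact DifferentiableOn.div (by fun_prop) (by fun_prop) hden
  have h1 : Real.circleAverage G c r = 0 := by
    rw [hGd.circleAverage, hG]
    simp
  have hGi : CircleIntegrable G c r := by
    refine ContinuousOn.circleIntegrable hr.le ?_
    have h3 := hGd.2
    rw [abs_of_pos hr, closure_ball c hr.ne'] at h3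
    exact h3.mono sphere_subset_closedBall
  have h2 := ContinuousLinearMap.circleAverage_comp_comm
    (Complex.conjCLE.toContinuousLinearMap) hGi
  rw [h1, map_zero] at h2
  rw [← h2]
  refine Real.circleAverage_congr_sphere fun w hw => ?_
  rw [abs_of_pos hr] at hw
  have hne := sphere_ne hz hw
  have hwc : (w - c) * conj (w - c) = (r : ℂ) ^ 2 := by
    rw [mem_sphere, dist_eq_norm] at hw
    rw [Complex.mul_conj, Complex.normSq_eq_norm_sq, hw]
    push_cast
    ring
  have hden' : (r : ℂ) ^ 2 - (z - c) * conj (w - c) ≠ 0 := by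
    intro h
    apply hden w (sphere_subset_closedBall hw)
    have := congrArg conj h
    simpa only [map_sub, map_mul, map_pow, Complex.conj_ofReal, Complex.conj_conj, map_zero]
      using this
  have hc0 : conj (w - c) ≠ 0 := by
    intro h
    rw [h, mul_zero] at hwc
    have : (r : ℂ) ≠ 0 := by exact_mod_cast hr.ne'
    exact this (pow_eq_zero_iff (two_ne_zero) |>.1 hwc.symm)
  change (z - c) / (w - z) * conj (v w) = conj (G w)
  rw [hG]
  simp only [map_mul, map_div₀, map_sub, map_pow, Complex.conj_ofReal, Complex.conj_conj]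
  congr 1
  have e1 : (r : ℂ) ^ 2 - (z - c) * (conj w - conj c) = conj (w - c) * (w - z) := by
    rw [← hwc, map_sub]; ring
  rw [e1, map_sub]
  rw [map_sub] at hc0
  field_simp

end Schwx

open Schwx in
theorem Schw_proof : S_Schw := by
  intro v c z r hz hv
  have hr : 0 < r := pos_of_mem_ball hz
  have hzr : ‖z - c‖ < r := by rwa [mem_ball, dist_eq_norm] at hz
  have hcv : ContinuousOn v (sphere c r) := hv.continuousOn.mono sphere_subset_closedBall
  have hK : ContinuousOn (fun w : ℂ => (z - c) / (w - z)) (sphere c r) :=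
    ContinuousOn.div (by fun_prop) (by fun_prop) fun w hw => sphere_ne hz hw
  have hi1 : CircleIntegrable (fun w => ((z - c) / (w - z)) * v w) c r :=
    (hK.mul hcv).circleIntegrable hr.le
  have hi2 : CircleIntegrable (fun w => ((z - c) / (w - z)) * conj (v w)) c r :=
    (hK.mul (Complex.continuous_conj.comp_continuousOn hcv)).circleIntegrable hr.le
  have h1 : v z - v c = Real.circleAverage
      (fun w => ((z - c) / (w - z)) * ((2 * (v w).re : ℝ) : ℂ)) c r := by
    rw [← mean_K hr hz hv, ← add_zero (Real.circleAverage _ c r), ← mean_Kc hr hz hv,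
      ← Real.circleAverage_fun_add hi1 hi2]
    refine Real.circleAverage_congr_sphere fun w _ => ?_
    change (z - c) / (w - z) * v w + (z - c) / (w - z) * conj (v w) = _
    rw [← mul_add, Complex.add_conj]
  have hbound : ∀ w ∈ sphere c r, ‖((z - c) / (w - z)) * ((2 * (v w).re : ℝ) : ℂ)‖ ≤
      2 * ‖z - c‖ / (r - ‖z - c‖) * |(v w).re| := by
    intro w hw
    rw [norm_mul, norm_div, Complex.norm_real, Real.norm_eq_abs, abs_mul,
      abs_of_pos (two_pos : (0:ℝ) < 2)]
    have h2 : r - ‖z - c‖ ≤ ‖w - z‖ := by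
      rw [mem_sphere, dist_eq_norm] at hw
      have := norm_sub_norm_le (w - c) (z - c)
      rw [hw] at this
      calc r - ‖z - c‖ ≤ ‖w - c - (z - c)‖ := this
        _ = ‖w - z‖ := by congr 1; ring
    have h3 : 0 < r - ‖z - c‖ := by linarith
    have h4 : ‖z - c‖ / ‖w - z‖ ≤ ‖z - c‖ / (r - ‖z - c‖) :=
      div_le_div_of_nonneg_left (norm_nonneg _) h3 h2
    calc ‖z - c‖ / ‖w - z‖ * (2 * |(v w).re|)
        ≤ ‖z - c‖ / (r - ‖z - c‖) * (2 * |(v w).re|) :=
          mul_le_mul_of_nonneg_right h4 (by positivity)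
      _ = 2 * ‖z - c‖ / (r - ‖z - c‖) * |(v w).re| := by ring
  rw [h1, Real.circleAverage_def, Real.circleAverage_def, norm_smul, Real.norm_eq_abs,
    abs_of_pos (by positivity : (0:ℝ) < (2 * Real.pi)⁻¹), smul_eq_mul]
  have hre : ContinuousOn (fun w => |(v w).re|) (sphere c r) :=
    (Complex.continuous_re.comp_continuousOn hcv).abs
  have hire : CircleIntegrable (fun w => |(v w).re|) c r := hre.circleIntegrable hr.le
  have h5 := intervalIntegral.norm_integral_le_of_norm_le (a := 0) (b := 2 * Real.pi)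
    (μ := volume)
    (f := fun θ => (z - c) / (circleMap c r θ - z) * ((2 * (v (circleMap c r θ)).re : ℝ) : ℂ))
    (g := fun θ => 2 * ‖z - c‖ / (r - ‖z - c‖) * |(v (circleMap c r θ)).re|)
    (by positivity)
    (Eventually.of_forall fun θ _ => hbound _ (circleMap_mem_sphere c hr.le θ))
    (IntervalIntegrable.const_mul hire _)
  rw [intervalIntegral.integral_const_mul] at h5
  calc (2 * Real.pi)⁻¹ * ‖∫ θ in (0:ℝ)..2 * Real.pi,
        (z - c) / (circleMap c r θ - z) * ((2 * (v (circleMap c r θ)).re : ℝ) : ℂ)‖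
      ≤ (2 * Real.pi)⁻¹ * (2 * ‖z - c‖ / (r - ‖z - c‖) *
          ∫ θ in (0:ℝ)..2 * Real.pi, |(v (circleMap c r θ)).re|) :=
        mul_le_mul_of_nonneg_left h5 (by positivity)
    _ = _ := by ring

end Pool.Agent.Work.MP_6d7a54_an.NF
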