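import Pool.Agent.Work.MP_6d7a54_an.NF.Stmts

/-!
# S_Seid: Taylor homomorphism and almost integral elements
-/

set_option autoImplicit false

namespace Pool.Agent.Work.MP_6d7a54_an.NF

noncomputable section

namespace Seidx

variable {F L : Type} [Field F] [CharZero F] [Field L] [Algebra F L]

/-- the Taylor coefficients `D^n f / n!` -/
def co (D : Derivation F L L) : ℕ → L → L
  | 0, f => f
  | n + 1, f => ((n : F) + 1)⁻¹ • co D n (D f)

omit [CharZero F] in
lemma co_add (D : Derivation F L L) (n : ℕ) : ∀ f g : L, co D n (f + g) = co D n f + co D n g := by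
  induction n with
  | zero => intro f g; rfl
  | succ n ih =>
    intro f g
    simp only [co]
    rw [map_add, ih, smul_add]

omit [CharZero F] in
lemma co_zero (D : Derivation F L L) (n : ℕ) : co D n (0 : L) = 0 := by
  have h := co_add D n 0 0
  rw [add_zero] at h
  exact left_eq_add.1 h

lemma co_one (D : Derivation F L L) (n : ℕ) : co D n (1 : L) = if n = 0 then 1 else 0 := by
  cases n with
  | zero => rfl
  | succ n =>
    simp only [co]
    rw [D.map_one_eq_zero, co_zero, smul_zero, if_neg (Nat.succ_ne_zero n)]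

lemma co_D (D : Derivation F L L) (n : ℕ) (f : L) :
    co D n (D f) = ((n + 1 : ℕ) : F) • co D (n + 1) f := by
  simp only [co]
  rw [smul_smul, Nat.cast_add, Nat.cast_one, mul_inv_cancel₀ (Nat.cast_add_one_ne_zero n),
    one_smul]

lemma co_mul (D : Derivation F L L) (n : ℕ) : ∀ f g : L,
    co D n (f * g) = ∑ p ∈ Finset.HasAntidiagonal.antidiagonal n, co D p.1 f * co D p.2 g := by
  induction n with
  | zero => intro f g; simp [co]
  | succ n ih =>
    intro f g
    have hL : co D (n + 1) (f * g) = ((n : F) + 1)⁻¹ • co D n (D (f * g)) := rfl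
    rw [hL, D.leibniz, co_add, smul_eq_mul, smul_eq_mul, ih, ih]
    have h1 : ∑ p ∈ Finset.HasAntidiagonal.antidiagonal n, co D p.1 f * co D p.2 (D g) =
        ∑ p ∈ Finset.HasAntidiagonal.antidiagonal (n + 1), ((p.2 : ℕ) : F) • (co D p.1 f * co D p.2 g) := by
      rw [Finset.Nat.sum_antidiagonal_succ']
      simp only [Nat.cast_zero, zero_smul, zero_add]
      refine Finset.sum_congr rfl fun p _ => ?_
      rw [co_D, mul_smul_comm]
    have h2 : ∑ p ∈ Finset.HasAntidiagonal.antidiagonal n, co D p.1 g * co D p.2 (D f) =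
        ∑ p ∈ Finset.HasAntidiagonal.antidiagonal (n + 1), ((p.1 : ℕ) : F) • (co D p.1 f * co D p.2 g) := by
      rw [Finset.Nat.sum_antidiagonal_succ, ← Finset.Nat.sum_antidiagonal_swap]
      simp only [Nat.cast_zero, zero_smul, zero_add, Prod.fst_swap, Prod.snd_swap]
      refine Finset.sum_congr rfl fun p _ => ?_
      rw [co_D, mul_smul_comm, mul_comm]
    rw [h1, h2, ← Finset.sum_add_distrib, Finset.smul_sum]
    refine Finset.sum_congr rfl fun p hp => ?_
    rw [← add_smul, smul_smul]
    have h3 : ((p.2 : ℕ) : F) + ((p.1 : ℕ) : F) = (n : F) + 1 := by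
      rw [← Nat.cast_add, add_comm, Finset.HasAntidiagonal.mem_antidiagonal.1 hp, Nat.cast_add, Nat.cast_one]
    rw [h3, inv_mul_cancel₀ (Nat.cast_add_one_ne_zero n), one_smul]

/-- the Taylor homomorphism -/
def E (D : Derivation F L L) : L →+* PowerSeries L where
  toFun f := PowerSeries.mk fun n => co D n f
  map_one' := by
    ext n
    rw [PowerSeries.coeff_mk, co_one, PowerSeries.coeff_one]
  map_zero' := by
    ext n
    rw [PowerSeries.coeff_mk, co_zero, map_zero]
  map_add' f g := by
    ext n
    rw [map_add, PowerSeries.coeff_mk, PowerSeries.coeff_mk, PowerSeries.coeff_mk, co_add]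
  map_mul' f g := by
    ext n
    rw [PowerSeries.coeff_mk, PowerSeries.coeff_mul, co_mul]
    refine Finset.sum_congr rfl fun p _ => ?_
    rw [PowerSeries.coeff_mk, PowerSeries.coeff_mk]

lemma coeff_E (D : Derivation F L L) (n : ℕ) (f : L) :
    PowerSeries.coeff n (E D f) = co D n f := by
  change PowerSeries.coeff n (PowerSeries.mk fun n => co D n f) = _
  rw [PowerSeries.coeff_mk]

/-- the power series with coefficients in `S` -/
def T (S : Subalgebra F L) : Subring (PowerSeries L) where
  carrier := {p | ∀ n, PowerSeries.coeff n p ∈ S}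
  mul_mem' {p q} hp hq n := by
    rw [PowerSeries.coeff_mul]
    exact S.sum_mem fun i _ => S.mul_mem (hp _) (hq _)
  one_mem' n := by
    rw [PowerSeries.coeff_one]
    split_ifs
    · exact S.one_mem
    · exact S.zero_mem
  add_mem' {p q} hp hq n := by
    rw [map_add]
    exact S.add_mem (hp n) (hq n)
  zero_mem' n := by
    rw [map_zero]
    exact S.zero_mem
  neg_mem' {p} hp n := by
    rw [map_neg]
    exact S.neg_mem (hp n)

omit [CharZero F] in
lemma co_mem (D : Derivation F L L) (S : Subalgebra F L) (hS : ∀ f ∈ S, D f ∈ S) (n : ℕ) :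
    ∀ f ∈ S, co D n f ∈ S := by
  induction n with
  | zero => intro f hf; exact hf
  | succ n ih =>
    intro f hf
    exact S.smul_mem (ih _ (hS f hf)) _

lemma E_mem (D : Derivation F L L) (S : Subalgebra F L) (hS : ∀ f ∈ S, D f ∈ S) {f : L}
    (hf : f ∈ S) : E D f ∈ T S := by
  intro n
  rw [coeff_E]
  exact co_mem D S hS n f hf

omit [CharZero F] in
lemma C_mem (S : Subalgebra F L) {f : L} (hf : f ∈ S) : PowerSeries.C f ∈ T S := by
  intro n
  rw [PowerSeries.coeff_C]
  split_ifs
  · exact hf
  · exact S.zero_mem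

end Seidx

open Seidx

theorem Seid_proof : S_Seid := by
  intro F L _ _ _ _ D S hS f s hs hf k
  have hmem : E D s * PowerSeries.C s * (E D f - PowerSeries.C f) ^ k ∈ T S := by
    rw [sub_eq_add_neg, add_pow, Finset.mul_sum]
    refine (T S).sum_mem fun m hm => ?_
    have e1 : E D s * PowerSeries.C s * (E D f ^ m * (-PowerSeries.C f) ^ (k - m) *
        ((k.choose m : ℕ) : PowerSeries L)) =
        E D (s * f ^ m) * PowerSeries.C (s * f ^ (k - m)) * (-1) ^ (k - m) *
          ((k.choose m : ℕ) : PowerSeries L) := by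
      rw [map_mul, map_mul, map_pow, map_pow, neg_pow]
      ring
    rw [e1]
    refine (T S).mul_mem ((T S).mul_mem ((T S).mul_mem (E_mem D S hS (hf m))
      (C_mem S (hf (k - m)))) ?_) ?_
    · exact (T S).pow_mem ((T S).neg_mem (T S).one_mem) _
    · exact natCast_mem (T S) _
  have h0 : PowerSeries.constantCoeff (E D f - PowerSeries.C f) = 0 := by
    rw [map_sub, ← PowerSeries.coeff_zero_eq_constantCoeff_apply,
      ← PowerSeries.coeff_zero_eq_constantCoeff_apply, coeff_E, PowerSeries.coeff_C, if_pos rfl]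
    exact sub_self f
  obtain ⟨g, hg⟩ := PowerSeries.X_dvd_iff.2 h0
  have hg0 : PowerSeries.constantCoeff g = D f := by
    have h1 := congrArg (PowerSeries.coeff 1) hg
    rw [map_sub, coeff_E, PowerSeries.coeff_C, if_neg one_ne_zero, sub_zero,
      ← pow_one (PowerSeries.X : PowerSeries L)] at h1
    have h2 := PowerSeries.coeff_X_pow_mul g 1 0
    rw [zero_add] at h2
    rw [h2] at h1
    rw [← PowerSeries.coeff_zero_eq_constantCoeff_apply, ← h1]
    simp [co]
  have h3 := hmem k
  rw [hg] at h3
  have e2 : E D s * PowerSeries.C s * (PowerSeries.X * g) ^ k =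
      PowerSeries.X ^ k * (E D s * PowerSeries.C s * g ^ k) := by
    rw [mul_pow]
    ring
  rw [e2] at h3
  have h4 := PowerSeries.coeff_X_pow_mul (E D s * PowerSeries.C s * g ^ k) k 0
  rw [zero_add] at h4
  rw [h4, PowerSeries.coeff_zero_eq_constantCoeff_apply, map_mul, map_mul, map_pow, hg0,
    PowerSeries.constantCoeff_C, ← PowerSeries.coeff_zero_eq_constantCoeff_apply, coeff_E] at h3
  have e3 : s ^ 2 * D f ^ k = co D 0 s * s * D f ^ k := by
    simp only [co]
    ring
  rw [e3]
  exact h3

end

end Pool.Agent.Work.MP_6d7a54_an.NF
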