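import Pool.Agent.Work.MP_6d7a54_an.NF.Stmts

/-!
# The characteristic is increasing
-/

namespace Pool.Agent.Work.MP_6d7a54_an.NF

open Filter Metric Set Topology MeasureTheory

noncomputable section

namespace TTmx

open Complex Real in
/-- The Poisson kernel is nonnegative. -/
lemma pk_nonneg {c w z : ℂ} {r R : ℝ} (hr : 0 < r) (hrR : r < R) (hw : w ∈ sphere c r)
    (hz : z ∈ sphere c R) : 0 ≤ poissonKernel c w z := by
  rw [poissonKernel_def, mem_sphere_iff_norm.1 hw, mem_sphere_iff_norm.1 hz]
  apply div_nonneg _ (by positivity)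
  nlinarith

lemma sub_ne {c w z : ℂ} {r R : ℝ} (hrR : r < R) (hw : w ∈ closedBall c r)
    (hz : z ∈ sphere c R) : (z - c) - (w - c) ≠ 0 := by
  intro h
  have h1 : z - c = w - c := sub_eq_zero.1 h
  have h2 : ‖w - c‖ ≤ r := mem_closedBall_iff_norm.1 hw
  rw [← h1, mem_sphere_iff_norm.1 hz] at h2
  linarith

/-- The mean of the Poisson kernel over the inner variable. -/
lemma mean_pk {c z : ℂ} {r R : ℝ} (hr : 0 < r) (hrR : r < R) (hz : z ∈ sphere c R) :
    Real.circleAverage (fun w => poissonKernel c w z) c r = 1 := by
  have hz0 : z - c ≠ 0 := by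
    intro h
    have := mem_sphere_iff_norm.1 hz
    rw [h, norm_zero] at this
    linarith
  have hdiff : DifferentiableOn ℂ (fun w => herglotzRieszKernel c w z) (closedBall c r) := by
    intro w hw
    unfold herglotzRieszKernel
    have h := sub_ne hrR hw hz
    apply DifferentiableAt.differentiableWithinAt
    fun_prop (disch := assumption)
  have hcont : ContinuousOn (fun w => herglotzRieszKernel c w z) (closedBall c r) :=
    hdiff.continuousOn
  have hci : CircleIntegrable (fun w => herglotzRieszKernel c w z) c r :=
    (hcont.mono sphere_subset_closedBall).circleIntegrable hr.le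
  have hdc : DiffContOnCl ℂ (fun w => herglotzRieszKernel c w z) (ball c |r|) := by
    rw [abs_of_pos hr]
    apply DifferentiableOn.diffContOnCl
    rw [closure_ball c hr.ne']
    exact hdiff
  have h1 := hdc.circleAverage
  have h2 := Complex.reCLM.circleAverage_comp_comm hci
  rw [h1] at h2
  have h3 : (Complex.reCLM ∘ fun w => herglotzRieszKernel c w z) =
      fun w => poissonKernel c w z := by
    ext w
    rw [poissonKernel_eq_re_herglotzRieszKernel]
    rfl
  rw [h3] at h2
  rw [h2]
  have h4 : herglotzRieszKernel c c z = 1 := by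
    rw [herglotzRieszKernel_def, sub_self, add_zero, sub_zero, div_self hz0]
  rw [h4]
  rfl

lemma cm_sphere (c : ℂ) {r : ℝ} (hr : 0 ≤ r) (t : ℝ) : circleMap c r t ∈ sphere c r :=
  circleMap_mem_sphere c hr t

/-- The mean of `|Re v|` is increasing. -/
lemma mono1 {v : ℂ → ℂ} {c : ℂ} {r R : ℝ} (hr : 0 < r) (hrR : r < R)
    (hv : AnalyticOnNhd ℂ v (closedBall c R)) :
    Real.circleAverage (fun z => |(v z).re|) c r ≤
      Real.circleAverage (fun z => |(v z).re|) c R := by
  have hR : 0 < R := hr.trans hrR
  have hvc : ContinuousOn v (closedBall c R) := hv.continuousOn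
  have hvs : ContinuousOn (fun z => |(v z).re|) (closedBall c R) :=
    (Complex.continuous_re.comp_continuousOn hvc).abs
  have hdc : DiffContOnCl ℂ v (ball c R) := by
    apply DifferentiableOn.diffContOnCl
    rw [closure_ball c hR.ne']
    exact hv.differentiableOn
  -- the kernel
  set k : ℝ → ℝ → ℝ := fun t θ => poissonKernel c (circleMap c r t) (circleMap c R θ) with hk
  set g : ℝ → ℝ := fun θ => |(v (circleMap c R θ)).re| with hg
  have hkc : Continuous (Function.uncurry k) := by
    have h1 : Continuous fun p : ℝ × ℝ => circleMap c r p.1 :=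
      (continuous_circleMap c r).comp continuous_fst
    have h2 : Continuous fun p : ℝ × ℝ => circleMap c R p.2 :=
      (continuous_circleMap c R).comp continuous_snd
    have h3 : ∀ p : ℝ × ℝ, ‖(circleMap c R p.2 - c) - (circleMap c r p.1 - c)‖ ^ 2 ≠ 0 := by
      intro p
      have := sub_ne hrR (sphere_subset_closedBall (cm_sphere c hr.le p.1))
        (cm_sphere c hR.le p.2)
      positivity
    have h4 : Function.uncurry k = fun p : ℝ × ℝ =>
        (‖circleMap c R p.2 - c‖ ^ 2 - ‖circleMap c r p.1 - c‖ ^ 2) /
          ‖(circleMap c R p.2 - c) - (circleMap c r p.1 - c)‖ ^ 2 := by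
      ext p
      rfl
    rw [h4]
    exact (((h2.sub continuous_const).norm.pow 2).sub ((h1.sub continuous_const).norm.pow 2)).div
      (((h2.sub continuous_const).sub (h1.sub continuous_const)).norm.pow 2) h3
  have hgc : Continuous g :=
    (hvs.mono sphere_subset_closedBall).comp_continuous (continuous_circleMap c R)
      (cm_sphere c hR.le)
  have hk0 : ∀ t θ, 0 ≤ k t θ := fun t θ => pk_nonneg hr hrR (cm_sphere c hr.le t)
    (cm_sphere c hR.le θ)
  have hkg : Continuous (Function.uncurry fun t θ => k t θ * g θ) := by
    have h1 : (Function.uncurry fun t θ => k t θ * g θ) =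
        fun p : ℝ × ℝ => Function.uncurry k p * g p.2 := by
      ext p
      rfl
    rw [h1]
    exact hkc.mul (hgc.comp continuous_snd)
  -- pointwise bound
  have hpt : ∀ t : ℝ, |(v (circleMap c r t)).re| ≤
      (2 * Real.pi)⁻¹ * ∫ θ in (0 : ℝ)..2 * Real.pi, k t θ * g θ := by
    intro t
    set w := circleMap c r t with hw
    have hws : w ∈ sphere c r := cm_sphere c hr.le t
    have hwb : w ∈ ball c R := by
      rw [mem_ball]
      have := mem_sphere.1 hws
      linarith
    have h1 := hdc.circleAverage_poissonKernel_smul hwb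
    have hsph : ContinuousOn (poissonKernel c w • v) (sphere c R) := by
      apply ContinuousOn.smul
      · intro z hz
        apply ContinuousAt.continuousWithinAt
        unfold poissonKernel
        have h2 : ‖(z - c) - (w - c)‖ ^ 2 ≠ 0 := by
          have := sub_ne hrR (sphere_subset_closedBall hws) hz
          positivity
        fun_prop (disch := assumption)
      · exact hvc.mono sphere_subset_closedBall
    have h2 := Complex.reCLM.circleAverage_comp_comm (hsph.circleIntegrable hR.le)
    rw [h1] at h2
    have h3 : (v w).re = Real.circleAverage (Complex.reCLM ∘ (poissonKernel c w • v)) c R := by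
      rw [h2]
      rfl
    rw [h3]
    refine Real.abs_circleAverage_le_circleAverage_abs.trans (le_of_eq ?_)
    rw [Real.circleAverage_def, smul_eq_mul]
    congr 1
    apply intervalIntegral.integral_congr
    intro θ _
    show |(poissonKernel c w (circleMap c R θ) • v (circleMap c R θ)).re| = k t θ * g θ
    rw [Complex.real_smul, Complex.re_ofReal_mul, abs_mul]
    congr 1
    exact abs_of_nonneg (hk0 t θ)
  -- integrate
  have hpi : (0 : ℝ) ≤ 2 * Real.pi := by positivity
  have hinv : (0 : ℝ) ≤ (2 * Real.pi)⁻¹ := by positivity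
  rw [Real.circleAverage_def, Real.circleAverage_def, smul_eq_mul, smul_eq_mul]
  apply mul_le_mul_of_nonneg_left _ hinv
  have hI1 : ∫ t in (0 : ℝ)..2 * Real.pi, |(v (circleMap c r t)).re| ≤
      ∫ t in (0 : ℝ)..2 * Real.pi,
        (2 * Real.pi)⁻¹ * ∫ θ in (0 : ℝ)..2 * Real.pi, k t θ * g θ := by
    apply intervalIntegral.integral_mono_on hpi
    · apply Continuous.intervalIntegrable
      exact hvs.comp_continuous (continuous_circleMap c r) fun t =>
        closedBall_subset_closedBall hrR.le (sphere_subset_closedBall (cm_sphere c hr.le t))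
    · apply Continuous.intervalIntegrable
      apply continuous_const.mul
      exact intervalIntegral.continuous_parametric_intervalIntegral_of_continuous' hkg _ _
    · intro t _
      exact hpt t
  refine hI1.trans (le_of_eq ?_)
  rw [intervalIntegral.integral_const_mul, intervalIntegral_intervalIntegral_swap]
  · rw [← intervalIntegral.integral_const_mul]
    apply intervalIntegral.integral_congr
    intro θ _
    show (2 * Real.pi)⁻¹ * ∫ t in (0 : ℝ)..2 * Real.pi, k t θ * g θ = g θ
    rw [intervalIntegral.integral_mul_const, ← mul_assoc]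
    have h1 := mean_pk hr hrR (cm_sphere c hR.le θ)
    rw [Real.circleAverage_def, smul_eq_mul] at h1
    have h2 : (2 * Real.pi)⁻¹ * ∫ t in (0 : ℝ)..2 * Real.pi, k t θ = 1 := h1
    rw [h2, one_mul]
  · rw [uIoc_of_le hpi]
    exact (hkg.continuousOn.integrableOn_compact (isCompact_Icc.prod isCompact_Icc)).mono_set
      (prod_mono Ioc_subset_Icc_self Ioc_subset_Icc_self)

end TTmx

open TTmx in
theorem TTm_proof : S_TTm := by
  intro d u c r r' hr hrr hu
  rcases hrr.eq_or_lt with h | h
  · rw [h]
  · have hr' : 0 < r' := hr.trans h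
    have hci : ∀ (s : ℝ), 0 < s → s ≤ r' → ∀ i, CircleIntegrable (fun z => |(u i z).re|) c s := by
      intro s hs hsr i
      apply ContinuousOn.circleIntegrable hs.le
      exact (Complex.continuous_re.comp_continuousOn ((hu i).continuousOn.mono
        ((sphere_subset_closedBall).trans (closedBall_subset_closedBall hsr)))).abs
    unfold TT
    rw [Real.circleAverage_fun_sum fun i _ => hci r hr h.le i,
      Real.circleAverage_fun_sum fun i _ => hci r' hr' le_rfl i]
    exact Finset.sum_le_sum fun i _ => mono1 hr h (hu i)

end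

end Pool.Agent.Work.MP_6d7a54_an.NF
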