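import Pool.Agent.Work.MP_6d7a54_an.NF.Stmts

/-!
# Averaging over an interval (MP_6d7a54_an, NF)
-/

namespace Pool.Agent.Work.MP_6d7a54_an.NF

open MeasureTheory Set

noncomputable section

namespace avgx

/-- the logarithmic potential, cut off -/
def phi (u : ℝ) : ℝ := -Real.log (min 1 |u|)

theorem phi_nonneg (u : ℝ) : 0 ≤ phi u := by
  unfold phi
  have h1 : min 1 |u| ≤ 1 := min_le_left _ _
  have h2 : 0 ≤ min 1 |u| := le_min zero_le_one (abs_nonneg _)
  linarith [Real.log_nonpos h2 h1]

theorem phi_eq : phi = indicator (Ioc (-1 : ℝ) 1) (fun u => -Real.log u) := by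
  funext u
  by_cases hu : u ∈ Ioc (-1 : ℝ) 1
  · rw [indicator_of_mem hu, phi, min_eq_right (abs_le.2 ⟨hu.1.le, hu.2⟩), Real.log_abs]
  · rw [indicator_of_notMem hu, phi]
    have h1 : 1 ≤ |u| := by
      rw [mem_Ioc, not_and_or, not_lt, not_le] at hu
      rcases hu with h | h
      · rw [le_abs]
        right
        linarith
      · exact h.le.trans (le_abs_self u)
    rw [min_eq_left h1, Real.log_one, neg_zero]

theorem phi_int : Integrable phi := by
  rw [phi_eq, integrable_indicator_iff measurableSet_Ioc]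
  have h := (intervalIntegral.intervalIntegrable_log' (a := -1) (b := 1)).neg
  exact (intervalIntegrable_iff_integrableOn_Ioc_of_le (by norm_num)).1 h

theorem integral_phi : ∫ u, phi u = 2 := by
  rw [phi_eq, integral_indicator measurableSet_Ioc,
    ← intervalIntegral.integral_of_le (by norm_num : (-1 : ℝ) ≤ 1),
    intervalIntegral.integral_neg, integral_log]
  simp
  norm_num

theorem integral_shift (y : ℝ) : ∫ s in Ioc (0 : ℝ) 1, phi (s - y) ≤ 2 := by
  have hi : Integrable (fun s => phi (s - y)) := phi_int.comp_sub_right y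
  calc ∫ s in Ioc (0 : ℝ) 1, phi (s - y) ≤ ∫ s, phi (s - y) :=
        setIntegral_le_integral hi (Filter.Eventually.of_forall fun s => phi_nonneg _)
    _ = ∫ s, phi s := integral_sub_right_eq_self phi y
    _ = 2 := integral_phi

end avgx

theorem avg_proof : S_avg := by
  refine ⟨2, by norm_num, ?_⟩
  intro n x al be hab
  set y : Fin n → ℝ := fun l => (x l - al) / (be - al) with hy
  have hd : 0 < be - al := sub_pos.2 hab
  set mu : Measure ℝ := volume.restrict (Ioc (0 : ℝ) 1) with hmu
  have hprob : IsProbabilityMeasure mu := ⟨by rw [hmu, Measure.restrict_apply_univ]; simp⟩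
  set f : ℝ → ℝ := fun s => ∑ l, avgx.phi (s - y l) with hf
  have hii : ∀ l, Integrable (fun s => avgx.phi (s - y l)) mu := fun l =>
    (avgx.phi_int.comp_sub_right (y l)).integrableOn
  have hfi : Integrable f mu := integrable_finsetSum _ fun l _ => hii l
  have hfint : ∫ s, f s ∂mu ≤ 2 * n := by
    have h1 : ∫ s, f s ∂mu = ∑ l, ∫ s, avgx.phi (s - y l) ∂mu :=
      integral_finsetSum _ fun l _ => hii l
    rw [h1]
    calc ∑ l, ∫ s, avgx.phi (s - y l) ∂mu ≤ ∑ l : Fin n, (2 : ℝ) :=
          Finset.sum_le_sum fun l _ => avgx.integral_shift (y l)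
      _ = 2 * n := by simp [mul_comm]
  set N : Set ℝ := (Ioc (0 : ℝ) 1)ᶜ ∪ Set.range y with hN
  have hNnull : mu N = 0 := by
    rw [hN]
    apply measure_union_null
    · rw [hmu, Measure.restrict_apply measurableSet_Ioc.compl]
      simp
    · exact (Set.finite_range y).measure_zero mu
  obtain ⟨s, hs, hfs⟩ := exists_notMem_null_le_integral hfi hNnull
  rw [hN, mem_union, not_or, mem_compl_iff, not_not] at hs
  obtain ⟨hs1, hs2⟩ := hs
  refine ⟨al + (be - al) * s, ?_, ?_, ?_⟩
  · have := mul_nonneg hd.le hs1.1.le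
    linarith
  · have := mul_le_mul_of_nonneg_left hs1.2 hd.le
    linarith
  · have he : ∀ l, |al + (be - al) * s - x l| / (be - al) = |s - y l| := by
      intro l
      have h1 : al + (be - al) * s - x l = (be - al) * (s - y l) := by
        rw [hy]
        field_simp
        ring
      rw [h1, abs_mul, abs_of_pos hd]
      field_simp
    have hpos : ∀ l, 0 < min 1 |s - y l| := by
      intro l
      apply lt_min one_pos
      rw [abs_pos, sub_ne_zero]
      intro h
      exact hs2 ⟨l, h.symm⟩
    have hprod : ∏ l, min 1 (|al + (be - al) * s - x l| / (be - al)) = Real.exp (-(f s)) := by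
      rw [hf, ← Finset.sum_neg_distrib, Real.exp_sum]
      refine Finset.prod_congr rfl fun l _ => ?_
      rw [he, avgx.phi, neg_neg, Real.exp_log (hpos l)]
    rw [hprod]
    apply Real.exp_le_exp.2
    linarith

end

end Pool.Agent.Work.MP_6d7a54_an.NF
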