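import Pool.Agent.Work.MP_6d7a54_an.NF.Stmts

set_option autoImplicit false

namespace Pool.Agent.Work.MP_6d7a54_an.NF

open Filter Metric Set Topology Real

namespace critx

theorem num (eps del a b : ℝ) (n : ℕ) (he : 0 < eps) (hd : 0 < del) (hb : 0 < b)
    (hab : b * ((n : ℝ) + 1) ^ 3 ≤ a) (h1 : 1 / (del * eps) ≤ n) (h2 : 1 / eps ≤ n) :
    b ≤ eps * a ∧ n * b ≤ del * (eps * a) := by
  have hde : 0 < del * eps := by positivity
  rw [div_le_iff₀ hde] at h1
  rw [div_le_iff₀ he] at h2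
  have hn : (0 : ℝ) ≤ n := Nat.cast_nonneg n
  have hsq : (n : ℝ) ≤ ((n : ℝ) + 1) ^ 2 := by nlinarith
  have e1 : eps * (b * ((n : ℝ) + 1) ^ 3) ≤ eps * a := mul_le_mul_of_nonneg_left hab he.le
  have e2 : b * (n * eps) ≤ eps * (b * ((n : ℝ) + 1) ^ 3) := by
    have : (n : ℝ) ≤ ((n : ℝ) + 1) ^ 3 := by nlinarith [mul_nonneg hn hn, mul_nonneg hn (mul_nonneg hn hn)]
    have := mul_le_mul_of_nonneg_left this (mul_pos he hb).le
    nlinarith
  have e3 : b ≤ b * (n * eps) := by nlinarith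
  refine ⟨by linarith, ?_⟩
  have e4 : b * (n + 1) ≤ b * (n + 1) * (n * (del * eps)) := by
    have : 0 ≤ b * ((n : ℝ) + 1) := by positivity
    nlinarith
  have e5 : b * (n + 1) * (n * (del * eps)) ≤ del * (eps * (b * ((n : ℝ) + 1) ^ 3)) := by
    have h3 : 0 ≤ b * ((n : ℝ) + 1) * (del * eps) := by positivity
    have := mul_le_mul_of_nonneg_left hsq h3
    nlinarith
  have e6 : del * (eps * (b * ((n : ℝ) + 1) ^ 3)) ≤ del * (eps * a) :=
    mul_le_mul_of_nonneg_left e1 hd.le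
  nlinarith

end critx

theorem crit_proof (h1 : S_Mx) : S_crit := by
  intro F I _ _ d C u0 g u a b hc P eps del he he1 hd H
  have hUF : UF ≤ atTop := Nat.hyperfilter_le_atTop
  have hd1 := (hc.dich P).filter_mono hUF
  have hN1 : ∀ᶠ n : ℕ in UF, 1 / (del * eps) ≤ (n : ℝ) :=
    ((tendsto_natCast_atTop_atTop (R := ℝ)).eventually_ge_atTop _).filter_mono hUF
  have hN2 : ∀ᶠ n : ℕ in UF, 1 / eps ≤ (n : ℝ) :=
    ((tendsto_natCast_atTop_atTop (R := ℝ)).eventually_ge_atTop _).filter_mono hUF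
  filter_upwards [hd1, hN1, hN2, H] with n hn hn1 hn2 hH
  rcases hn with h | ⟨z, hz, hzlt⟩
  · exact h
  · exfalso
    obtain ⟨hM0, -, hM2, -⟩ := h1 d (u n) (hc.dat n).hu
    obtain ⟨q1, q2⟩ := critx.num eps del (a n) (b n) n he hd (hc.hb n) (hc.hab n) hn1 hn2
    have hb := hc.hb n
    have hea : 0 < eps * a n := lt_of_lt_of_le hb q1
    have ha : 0 < a n := by
      by_contra hcon
      push Not at hcon
      nlinarith
    have hzle := hH z (hz.trans q1)
    have hlt := hzlt.trans_le hzle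
    rw [Real.exp_lt_exp, neg_lt_neg_iff] at hlt
    have hth : Mx (u n) (b n / (eps * a n) * (eps * a n)) ≤
        b n / (eps * a n) * Mx (u n) (eps * a n) := by
      apply hM2
      · positivity
      · exact (div_le_one hea).mpr q1
      · exact hea
      · have := hc.ha n
        nlinarith
    rw [div_mul_cancel₀ _ hea.ne'] at hth
    have hM := hM0 (eps * a n)
    have hn0 : (0 : ℝ) ≤ n := Nat.cast_nonneg n
    have h3 : (n : ℝ) * Mx (u n) (b n) ≤ n * (b n / (eps * a n) * Mx (u n) (eps * a n)) :=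
      mul_le_mul_of_nonneg_left hth hn0
    have h4 : (n : ℝ) * (b n / (eps * a n)) ≤ del := by
      rw [← mul_div_assoc, div_le_iff₀ hea]
      exact q2
    have h5 : (n : ℝ) * (b n / (eps * a n)) * Mx (u n) (eps * a n) ≤ del * Mx (u n) (eps * a n) :=
      mul_le_mul_of_nonneg_right h4 hM
    nlinarith

end Pool.Agent.Work.MP_6d7a54_an.NF
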