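import Pool.Agent.Work.MP_6d7a54_an.NF.Stmts

/-!
# Nevanlinna fields: evaluation and derivation of differential polynomials (item ev)
-/

namespace Pool.Agent.Work.MP_6d7a54_an.NF

namespace evx

theorem ev_C {F I : Type} [Field F] [Algebra F ℂ] (g : I → ℂ → ℂ) (z : ℂ) (a : F) :
    ev g z (MvPolynomial.C a : DP F I) = algebraMap F ℂ a := by
  unfold ev
  exact MvPolynomial.aeval_C _ a

theorem ev_X {F I : Type} [Field F] [Algebra F ℂ] (g : I → ℂ → ℂ) (z : ℂ) (p : I × ℕ) :
    ev g z (MvPolynomial.X p : DP F I) = iteratedDeriv p.2 (g p.1) z := by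
  unfold ev
  exact MvPolynomial.aeval_X _ p

theorem ev_add {F I : Type} [Field F] [Algebra F ℂ] (g : I → ℂ → ℂ) (z : ℂ) (P Q : DP F I) :
    ev g z (P + Q) = ev g z P + ev g z Q := by
  unfold ev
  exact map_add _ P Q

theorem ev_mul {F I : Type} [Field F] [Algebra F ℂ] (g : I → ℂ → ℂ) (z : ℂ) (P Q : DP F I) :
    ev g z (P * Q) = ev g z P * ev g z Q := by
  unfold ev
  exact map_mul _ P Q

theorem hasDerivAt_iter {f : ℂ → ℂ} {U : Set ℂ} (hU : IsOpen U) (hf : DifferentiableOn ℂ f U)
    (j : ℕ) {z : ℂ} (hz : z ∈ U) :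
    HasDerivAt (iteratedDeriv j f) (iteratedDeriv (j + 1) f z) z := by
  have h1 : AnalyticOnNhd ℂ f U := hf.analyticOnNhd hU
  have h2 : AnalyticOnNhd ℂ (iteratedDeriv j f) U := by
    rw [iteratedDeriv_eq_iterate]
    exact h1.iterated_deriv j
  have h3 : DifferentiableAt ℂ (iteratedDeriv j f) z := (h2 z hz).differentiableAt
  rw [iteratedDeriv_succ]
  exact h3.hasDerivAt

end evx

open evx in
theorem ev_proof : S_ev := by
  intro F I _ _ g P U hU hg z hz
  induction P using MvPolynomial.induction_on with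
  | C a =>
    have h1 : (fun w => ev g w (MvPolynomial.C a : DP F I)) = fun _ => algebraMap F ℂ a := by
      funext w
      exact ev_C g w a
    have h2 : dd (MvPolynomial.C a : DP F I) = 0 := MvPolynomial.derivation_C _ a
    have h3 : ev g z (0 : DP F I) = 0 := by
      unfold ev
      exact map_zero _
    rw [h1, h2, h3]
    exact hasDerivAt_const z _
  | add p q hp hq =>
    have h1 : (fun w => ev g w (p + q)) = fun w => ev g w p + ev g w q := by
      funext w
      exact ev_add g w p q
    rw [h1, map_add, ev_add]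
    exact hp.add hq
  | mul_X p n hp =>
    have h1 : (fun w => ev g w (p * MvPolynomial.X n)) =
        fun w => ev g w p * iteratedDeriv n.2 (g n.1) w := by
      funext w
      rw [ev_mul, ev_X]
    have h2 : dd (p * MvPolynomial.X n : DP F I) =
        p * MvPolynomial.X (n.1, n.2 + 1) + MvPolynomial.X n * dd p := by
      rw [Derivation.leibniz, smul_eq_mul, smul_eq_mul]
      congr 2
      exact MvPolynomial.mkDerivation_X _ _ _
    rw [h1, h2, ev_add, ev_mul, ev_mul, ev_X, ev_X]
    have h3 := hp.mul (hasDerivAt_iter hU (hg n.1) n.2 hz)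
    have h4 : ev g z p * iteratedDeriv (n.2 + 1) (g n.1) z + iteratedDeriv n.2 (g n.1) z *
        ev g z (dd p) = ev g z (dd p) * iteratedDeriv n.2 (g n.1) z +
        ev g z p * iteratedDeriv (n.2 + 1) (g n.1) z := by ring
    rw [h4]
    exact h3

end Pool.Agent.Work.MP_6d7a54_an.NF
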