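import Pool.Agent.Work.MP_6d7a54_an.NF.Stmts

/-!
# Nevanlinna fields: properties of `lo` (MP_6d7a54_an)
-/

namespace Pool.Agent.Work.MP_6d7a54_an.NF

open Filter Metric Set Topology Real

noncomputable section

namespace lox

/-- Jensen inequality -/
theorem jensen {f : ℂ → ℂ} {c : ℂ} {R : ℝ} (hR : 0 < R)
    (hf : AnalyticOnNhd ℂ f (closedBall c R)) (hc : f c ≠ 0) :
    Real.log ‖f c‖ ≤ circleAverage (fun z => Real.log ‖f z‖) c R := by
  have habs : |R| = R := abs_of_pos hR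
  have h := AnalyticOnNhd.circleAverage_log_norm (c := c) (R := R) (f := f) hR.ne'
    (by rw [habs]; exact hf) hc
  rw [h, habs]
  have : 0 ≤ ∑ᶠ u, (MeromorphicOn.divisor f (closedBall c R) u : ℝ)
      * Real.log (R * ‖c - u‖⁻¹) := by
    refine finsum_nonneg fun u => ?_
    have h0 : 0 ≤ MeromorphicOn.divisor f (closedBall c R) u :=
      MeromorphicOn.AnalyticOnNhd.divisor_nonneg hf u
    by_cases hu : u ∈ closedBall c R
    · refine mul_nonneg (by exact_mod_cast h0) ?_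
      rcases eq_or_ne u c with rfl | hne
      · simp
      · refine Real.log_nonneg ?_
        have h1 : 0 < ‖c - u‖ := norm_pos_iff.2 (sub_ne_zero.2 hne.symm)
        have h2 : ‖c - u‖ ≤ R := by
          rw [← dist_eq_norm, dist_comm]; exact mem_closedBall.1 hu
        rw [← div_eq_mul_inv, le_div_iff₀ h1]
        linarith
    · simp [hu]
  linarith

section

variable {F I : Type} [Field F] [Algebra F ℂ] {d : ℕ} {C : ℝ} {u0 : Fin d → ℂ}
  {g : ℕ → I → ℂ → ℂ} {u : ℕ → Fin d → ℂ → ℂ} {a b : ℕ → ℝ} {c : ℕ → ℂ} {r : ℕ → ℝ}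

theorem ev_mul (g : I → ℂ → ℂ) (z : ℂ) (P Q : DP F I) : ev g z (P * Q) = ev g z P * ev g z Q := by
  simp [ev]

theorem ev_sub (g : I → ℂ → ℂ) (z : ℂ) (P Q : DP F I) : ev g z (P - Q) = ev g z P - ev g z Q := by
  simp [ev]

theorem ev_one (g : I → ℂ → ℂ) (z : ℂ) : ev g z (1 : DP F I) = 1 := by
  simp [ev]

theorem apos (hC : Conf F C u0 g u a b) (n : ℕ) : 0 < a n := by
  have h1 := hC.hb n
  have h2 := hC.hab n
  have h3 : (0 : ℝ) < ((n : ℝ) + 1) ^ 3 := by positivity
  exact lt_of_lt_of_le (mul_pos h1 h3) h2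

theorem bla (hC : Conf F C u0 g u a b) (n : ℕ) : b n ≤ a n := by
  have h1 := hC.hb n
  have h2 := hC.hab n
  have h3 : (1 : ℝ) ≤ ((n : ℝ) + 1) ^ 3 := one_le_pow₀ (by have := n.cast_nonneg (α := ℝ); linarith)
  nlinarith

theorem rpos (hC : Conf F C u0 g u a b) (hr : Rad F g u a c r) (n : ℕ) : 0 < r n := by
  have := apos hC n
  have := hr.h1 n
  linarith

theorem sub_ball (hC : Conf F C u0 g u a b) (hc : Cen F g u a b c) (hr : Rad F g u a c r)
    (n : ℕ) : closedBall (c n) (r n) ⊆ ball 0 1 := by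
  intro z hz
  have h1 : ‖z - c n‖ ≤ r n := by rw [← dist_eq_norm]; exact mem_closedBall.1 hz
  have h2 : ‖z‖ ≤ ‖z - c n‖ + ‖c n‖ := by
    have := norm_add_le (z - c n) (c n)
    simpa using this
  have h3 := hc.hc n
  have h4 := bla hC n
  have h5 := hC.ha n
  have h6 := hr.h2 n
  rw [mem_ball_zero_iff]
  linarith

theorem sph (hC : Conf F C u0 g u a b) (hc : Cen F g u a b c) (hr : Rad F g u a c r) :
    ∀ᶠ n in UF, ∀ z ∈ sphere (c n) (r n), ‖z‖ ≤ a n := by
  have : ∀ᶠ n : ℕ in atTop, ∀ z ∈ sphere (c n) (r n), ‖z‖ ≤ a n := by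
    filter_upwards [eventually_ge_atTop 1] with n hn z hz
    have h1 : ‖z - c n‖ = r n := by rw [← dist_eq_norm]; exact mem_sphere.1 hz
    have h2 : ‖z‖ ≤ ‖z - c n‖ + ‖c n‖ := by
      have := norm_add_le (z - c n) (c n)
      simpa using this
    have h3 := hc.hc n
    have h6 := hr.h2 n
    have hn' : (1 : ℝ) ≤ n := by exact_mod_cast hn
    have h7 : (2 : ℝ) ≤ ((n : ℝ) + 1) ^ 3 := by nlinarith [sq_nonneg ((n : ℝ))]
    have h8 := hC.hab n
    have h9 := hC.hb n
    have : b n * 2 ≤ a n := by nlinarith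
    linarith
  exact this.filter_mono Nat.hyperfilter_le_atTop

theorem diffOn (h2 : S_ev) (hC : Conf F C u0 g u a b) (P : DP F I) (n : ℕ) :
    DifferentiableOn ℂ (fun z => ev (g n) z P) (ball 0 1) := fun z hz =>
  (h2 F I (g n) P (ball 0 1) isOpen_ball (hC.dat n).hg z hz).differentiableAt.differentiableWithinAt

theorem contOn (h2 : S_ev) (hC : Conf F C u0 g u a b) (hc : Cen F g u a b c)
    (hr : Rad F g u a c r) (P : DP F I) (n : ℕ) :
    ContinuousOn (fun z => ev (g n) z P) (sphere (c n) (r n)) :=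
  (diffOn h2 hC P n).continuousOn.mono (sphere_subset_closedBall.trans (sub_ball hC hc hr n))

theorem ana (h2 : S_ev) (hC : Conf F C u0 g u a b) (hc : Cen F g u a b c)
    (hr : Rad F g u a c r) (P : DP F I) (n : ℕ) :
    AnalyticOnNhd ℂ (fun z => ev (g n) z P) (closedBall (c n) (r n)) :=
  ((diffOn h2 hC P n).analyticOnNhd isOpen_ball).mono (sub_ball hC hc hr n)

theorem nz (hr : Rad F g u a c r) {P : DP F I} (hP : ¬ Tiny g u a P) :
    ∀ᶠ n in UF, ∀ z ∈ sphere (c n) (r n), ev (g n) z P ≠ 0 := by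
  filter_upwards [hr.lower P hP 1 one_pos] with n hn z hz h0
  have := hn z hz
  rw [h0, norm_zero] at this
  exact absurd this (not_le.2 (Real.exp_pos _))

theorem growth (h1 : S_Mx) (hC : Conf F C u0 g u a b) (A : ℝ) :
    ∀ᶠ n in UF, A ≤ Mx (u n) (a n / 16) ∧ A ≤ n * Mx (u n) (a n) := by
  have : ∀ᶠ n : ℕ in atTop, A ≤ Mx (u n) (a n / 16) ∧ A ≤ n * Mx (u n) (a n) := by
    filter_upwards [eventually_ge_atTop 2, eventually_ge_atTop ⌈A⌉₊] with n hn hA
    have hA' : A ≤ n := (Nat.le_ceil A).trans (by exact_mod_cast hA)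
    have hn' : (2 : ℝ) ≤ n := by exact_mod_cast hn
    obtain ⟨m0, m1, m2, m3⟩ := h1 d (u n) (hC.dat n).hu
    have hb := hC.hb n
    have ha := apos hC n
    have hab := hC.hab n
    have ha2 := hC.ha n
    have h7 : (16 : ℝ) ≤ ((n : ℝ) + 1) ^ 3 := by
      have : (3 : ℝ) ≤ (n : ℝ) + 1 := by linarith
      calc (16 : ℝ) ≤ 3 ^ 3 := by norm_num
        _ ≤ ((n : ℝ) + 1) ^ 3 := pow_le_pow_left₀ (by norm_num) this 3
    have hb16 : b n * 16 ≤ a n := by nlinarith
    have mono : ∀ s t : ℝ, 0 < s → s ≤ t → t < 1 → Mx (u n) s ≤ Mx (u n) t := by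
      intro s t hs hst ht
      have ht0 : 0 < t := lt_of_lt_of_le hs hst
      have := m2 (s / t) t (div_pos hs ht0) (by rw [div_le_one ht0]; exact hst) ht0 ht
      rw [div_mul_cancel₀ _ ht0.ne'] at this
      have h4 : s / t * Mx (u n) t ≤ 1 * Mx (u n) t :=
        mul_le_mul_of_nonneg_right (by rw [div_le_one ht0]; exact hst) (m0 t)
      linarith
    have hbig := hC.big n
    have hlog : 0 ≤ Real.log (1 / b n) := by
      refine Real.log_nonneg ?_
      rw [le_div_iff₀ hb]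
      linarith [bla hC n]
    have hn0 : (0 : ℝ) ≤ n := by linarith
    have hMb : (n : ℝ) ≤ Mx (u n) (b n) := by nlinarith
    have hM1 : (n : ℝ) ≤ Mx (u n) (a n / 16) :=
      hMb.trans (mono _ _ hb (by linarith) (by linarith))
    have hM2 : (n : ℝ) ≤ Mx (u n) (a n) := hMb.trans (mono _ _ hb (by linarith) (by linarith))
    refine ⟨hA'.trans hM1, hA'.trans ?_⟩
    nlinarith
  exact this.filter_mono Nat.hyperfilter_le_atTop

theorem growthT (h1 : S_Mx) (hC : Conf F C u0 g u a b) (hr : Rad F g u a c r) (A : ℝ) :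
    ∀ᶠ n in UF, A ≤ TT (u n) (c n) (r n) := by
  obtain ⟨kap, hk, hT⟩ := hr.tt
  filter_upwards [hT, growth h1 hC (A / kap)] with n h3 h4
  have : A = kap * (A / kap) := by field_simp
  rw [this]
  exact (mul_le_mul_of_nonneg_left h4.1 hk.le).trans h3

/-- the function `log ‖P‖ - log ‖Q‖` is integrable on the circle -/
theorem intLog (h2 : S_ev) (hC : Conf F C u0 g u a b) (hc : Cen F g u a b c)
    (hr : Rad F g u a c r) {P Q : DP F I} {n : ℕ} (hP : ∀ z ∈ sphere (c n) (r n), ev (g n) z P ≠ 0)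
    (hQ : ∀ z ∈ sphere (c n) (r n), ev (g n) z Q ≠ 0) :
    CircleIntegrable (fun z => Real.log ‖ev (g n) z P‖ - Real.log ‖ev (g n) z Q‖) (c n) (r n) := by
  refine ContinuousOn.circleIntegrable (rpos hC hr n).le ?_
  refine ContinuousOn.sub ?_ ?_
  · exact ContinuousOn.log (contOn h2 hC hc hr P n).norm fun z hz => norm_ne_zero_iff.2 (hP z hz)
  · exact ContinuousOn.log (contOn h2 hC hc hr Q n).norm fun z hz => norm_ne_zero_iff.2 (hQ z hz)

theorem intPos (h2 : S_ev) (hC : Conf F C u0 g u a b) (hc : Cen F g u a b c)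
    (hr : Rad F g u a c r) (P : DP F I) {Q : DP F I} {n : ℕ}
    (hQ : ∀ z ∈ sphere (c n) (r n), ev (g n) z Q ≠ 0) :
    CircleIntegrable (fun z => Real.posLog (‖ev (g n) z P‖ / ‖ev (g n) z Q‖)) (c n) (r n) := by
  refine ContinuousOn.circleIntegrable (rpos hC hr n).le ?_
  refine Real.continuous_posLog.comp_continuousOn ?_
  exact ContinuousOn.div (contOn h2 hC hc hr P n).norm (contOn h2 hC hc hr Q n).norm
    fun z hz => norm_ne_zero_iff.2 (hQ z hz)

theorem key {x y e : ℂ} {s : ℝ} (hx : x ≠ 0) (he : x - y = e)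
    (hs : ‖e‖ ≤ s * ‖x‖) (h2 : s ≤ 1 / 2) : Real.log ‖x‖ - Real.log 2 ≤ Real.log ‖y‖ := by
  have hxp : 0 < ‖x‖ := norm_pos_iff.2 hx
  have h1 : ‖x‖ ≤ ‖y‖ + ‖e‖ := by
    have : x = y + e := by rw [← he]; ring
    calc ‖x‖ = ‖y + e‖ := by rw [← this]
      _ ≤ ‖y‖ + ‖e‖ := norm_add_le _ _
  have h3 : ‖e‖ ≤ 1 / 2 * ‖x‖ := hs.trans (mul_le_mul_of_nonneg_right h2 hxp.le)
  have h4 : ‖x‖ / 2 ≤ ‖y‖ := by linarith
  rw [← Real.log_div hxp.ne' (by norm_num)]
  exact Real.log_le_log (by positivity) h4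

theorem part1 (h1 : S_Mx) (h2 : S_ev) (hC : Conf F C u0 g u a b) (hc : Cen F g u a b c)
    (hr : Rad F g u a c r) (P Q P' Q' : DP F I) (hP : ¬ Tiny g u a P) (hQ : ¬ Tiny g u a Q)
    (hP' : ¬ Tiny g u a P') (hQ' : ¬ Tiny g u a Q') (hT : Tiny g u a (P * Q' - P' * Q))
    (hlo : lo g u c r P Q) : lo g u c r P' Q' := by
  intro del hdel
  filter_upwards [hlo (del / 2) (half_pos hdel), nz hr hP, nz hr hQ, nz hr hP', nz hr hQ',
    hr.lower P hP (1 / 4) (by norm_num), hr.lower Q' hQ' (1 / 4) (by norm_num), hT,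
    sph hC hc hr, growth h1 hC (2 * Real.log 2), growthT h1 hC hr (2 / del * Real.log 2)]
    with n g1 nP nQ nP' nQ' lP lQ' hTn hs hg hgT
  have hpos : ∀ z ∈ sphere (c n) (r n),
      (Real.log ‖ev (g n) z P‖ - Real.log ‖ev (g n) z Q‖) - Real.log 2 ≤
      Real.log ‖ev (g n) z P'‖ - Real.log ‖ev (g n) z Q'‖ := by
    intro z hz
    have hx : ev (g n) z P * ev (g n) z Q' ≠ 0 := mul_ne_zero (nP z hz) (nQ' z hz)
    set M := Mx (u n) (a n) with hM
    have he : ev (g n) z P * ev (g n) z Q' - ev (g n) z P' * ev (g n) z Q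
        = ev (g n) z (P * Q' - P' * Q) := by
      rw [ev_sub, ev_mul, ev_mul]
    have hx1 : Real.exp (-(n * M) / 2) ≤ ‖ev (g n) z P * ev (g n) z Q'‖ := by
      rw [norm_mul]
      calc Real.exp (-(n * M) / 2) = Real.exp (-(1 / 4 * (n * M))) * Real.exp (-(1 / 4 * (n * M))) := by
            rw [← Real.exp_add]; ring_nf
        _ ≤ _ := mul_le_mul (lP z hz) (lQ' z hz) (Real.exp_pos _).le (norm_nonneg _)
    have hs1 : Real.exp (-(n * M) / 2) ≤ 1 / 2 := by
      have : -(n * M) / 2 ≤ -Real.log 2 := by linarith [hg.2]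
      calc Real.exp (-(n * M) / 2) ≤ Real.exp (-Real.log 2) := Real.exp_le_exp.2 this
        _ = 1 / 2 := by rw [Real.exp_neg, Real.exp_log (by norm_num)]; norm_num
    have he2 : ‖ev (g n) z (P * Q' - P' * Q)‖
        ≤ Real.exp (-(n * M) / 2) * ‖ev (g n) z P * ev (g n) z Q'‖ := by
      calc ‖ev (g n) z (P * Q' - P' * Q)‖ ≤ Real.exp (-(n * M)) := hTn z (hs z hz)
        _ = Real.exp (-(n * M) / 2) * Real.exp (-(n * M) / 2) := by
            rw [← Real.exp_add]; ring_nf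
        _ ≤ _ := mul_le_mul_of_nonneg_left hx1 (Real.exp_pos _).le
    have := key hx he he2 hs1
    rw [norm_mul, norm_mul, Real.log_mul (norm_ne_zero_iff.2 (nP z hz))
      (norm_ne_zero_iff.2 (nQ' z hz)), Real.log_mul (norm_ne_zero_iff.2 (nP' z hz))
      (norm_ne_zero_iff.2 (nQ z hz))] at this
    linarith
  have habs : |r n| = r n := abs_of_pos (rpos hC hr n)
  have hav : circleAverage (fun z => (Real.log ‖ev (g n) z P‖ - Real.log ‖ev (g n) z Q‖)
      - Real.log 2) (c n) (r n)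
      ≤ circleAverage (fun z => Real.log ‖ev (g n) z P'‖ - Real.log ‖ev (g n) z Q'‖)
        (c n) (r n) := by
    refine circleAverage_mono ((intLog h2 hC hc hr nP nQ).sub (circleIntegrable_const _ _ _))
      (intLog h2 hC hc hr nP' nQ') ?_
    rw [habs]; exact hpos
  rw [circleAverage_fun_sub (intLog h2 hC hc hr nP nQ) (circleIntegrable_const _ _ _),
    circleAverage_const] at hav
  have hl : Real.log 2 ≤ del / 2 * TT (u n) (c n) (r n) := by
    have h3 : del / 2 * (2 / del * Real.log 2) ≤ del / 2 * TT (u n) (c n) (r n) :=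
      mul_le_mul_of_nonneg_left hgT (half_pos hdel).le
    have h4 : del / 2 * (2 / del * Real.log 2) = Real.log 2 := by field_simp
    linarith
  linarith

theorem part2 (h2 : S_ev) (hC : Conf F C u0 g u a b) (hc : Cen F g u a b c)
    (hr : Rad F g u a c r) (P : DP F I) (hP : ¬ Tiny g u a P) : lo g u c r P 1 := by
  intro del hdel
  obtain ⟨kap, hk, hT⟩ := hr.tt
  filter_upwards [hT, hc.lower P hP (del * kap) (mul_pos hdel hk)] with n hTn hl
  have hc0 : ev (g n) (c n) P ≠ 0 := by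
    intro h0
    rw [h0, norm_zero] at hl
    exact absurd hl (not_le.2 (Real.exp_pos _))
  have hj := jensen (rpos hC hr n) (ana h2 hC hc hr P n) hc0
  have e : (fun z => Real.log ‖ev (g n) z P‖ - Real.log ‖ev (g n) z (1 : DP F I)‖)
      = fun z => Real.log ‖ev (g n) z P‖ := by
    funext z
    rw [ev_one, norm_one, Real.log_one, sub_zero]
  rw [e]
  have h3 : -(del * kap * Mx (u n) (a n / 16)) ≤ Real.log ‖ev (g n) (c n) P‖ := by
    rw [Real.le_log_iff_exp_le (norm_pos_iff.2 hc0)]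
    exact hl
  have h4 : del * (kap * Mx (u n) (a n / 16)) ≤ del * TT (u n) (c n) (r n) :=
    mul_le_mul_of_nonneg_left hTn hdel.le
  linarith

theorem part3 (h2 : S_ev) (hC : Conf F C u0 g u a b) (hc : Cen F g u a b c)
    (hr : Rad F g u a c r) (P Q P' Q' : DP F I) (hP : ¬ Tiny g u a P) (hQ : ¬ Tiny g u a Q)
    (hP' : ¬ Tiny g u a P') (hQ' : ¬ Tiny g u a Q') (hlo : lo g u c r P Q)
    (hlo' : lo g u c r P' Q') : lo g u c r (P * P') (Q * Q') := by
  intro del hdel
  filter_upwards [hlo (del / 2) (half_pos hdel), hlo' (del / 2) (half_pos hdel), nz hr hP,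
    nz hr hQ, nz hr hP', nz hr hQ'] with n g1 g2 nP nQ nP' nQ'
  have habs : |r n| = r n := abs_of_pos (rpos hC hr n)
  have e : circleAverage (fun z => Real.log ‖ev (g n) z (P * P')‖
      - Real.log ‖ev (g n) z (Q * Q')‖) (c n) (r n)
      = circleAverage (fun z => (Real.log ‖ev (g n) z P‖ - Real.log ‖ev (g n) z Q‖)
        + (Real.log ‖ev (g n) z P'‖ - Real.log ‖ev (g n) z Q'‖)) (c n) (r n) := by
    refine circleAverage_congr_sphere ?_
    rw [habs]
    intro z hz
    simp only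
    rw [ev_mul, ev_mul, norm_mul, norm_mul, Real.log_mul (norm_ne_zero_iff.2 (nP z hz))
      (norm_ne_zero_iff.2 (nP' z hz)), Real.log_mul (norm_ne_zero_iff.2 (nQ z hz))
      (norm_ne_zero_iff.2 (nQ' z hz))]
    ring
  rw [e, circleAverage_fun_add (intLog h2 hC hc hr nP nQ) (intLog h2 hC hc hr nP' nQ')]
  linarith

theorem part4 (h2 : S_ev) (hC : Conf F C u0 g u a b) (hc : Cen F g u a b c)
    (hr : Rad F g u a c r) (P Q : DP F I) (hP : ¬ Tiny g u a P) (hQ : ¬ Tiny g u a Q)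
    (hsm : sm g u c r P Q) : lo g u c r Q P := by
  intro del hdel
  filter_upwards [hsm del hdel, nz hr hP, nz hr hQ] with n g1 nP nQ
  have habs : |r n| = r n := abs_of_pos (rpos hC hr n)
  have h0 : 0 ≤ circleAverage (fun z => (Real.log ‖ev (g n) z Q‖ - Real.log ‖ev (g n) z P‖)
      + Real.posLog (‖ev (g n) z P‖ / ‖ev (g n) z Q‖)) (c n) (r n) := by
    refine circleAverage_nonneg_of_nonneg ?_
    rw [habs]
    intro z hz
    have h3 : Real.log (‖ev (g n) z P‖ / ‖ev (g n) z Q‖)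
        ≤ Real.posLog (‖ev (g n) z P‖ / ‖ev (g n) z Q‖) := le_max_right _ _
    rw [Real.log_div (norm_ne_zero_iff.2 (nP z hz)) (norm_ne_zero_iff.2 (nQ z hz))] at h3
    linarith
  rw [circleAverage_fun_add (intLog h2 hC hc hr nQ nP) (intPos h2 hC hc hr P nQ)] at h0
  linarith

theorem part5 (h2 : S_ev) (hC : Conf F C u0 g u a b) (hc : Cen F g u a b c)
    (hr : Rad F g u a c r) (P Q : DP F I) (hP : ¬ Tiny g u a P) (hQ : ¬ Tiny g u a Q)
    (hlo : lo g u c r P Q) (hsm : sm g u c r P Q) : sm g u c r Q P := by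
  intro del hdel
  filter_upwards [hsm (del / 2) (half_pos hdel), hlo (del / 2) (half_pos hdel), nz hr hP,
    nz hr hQ] with n g1 g2 nP nQ
  have habs : |r n| = r n := abs_of_pos (rpos hC hr n)
  have e : circleAverage (fun z => Real.posLog (‖ev (g n) z Q‖ / ‖ev (g n) z P‖)) (c n) (r n)
      = circleAverage (fun z => Real.posLog (‖ev (g n) z P‖ / ‖ev (g n) z Q‖)
        - (Real.log ‖ev (g n) z P‖ - Real.log ‖ev (g n) z Q‖)) (c n) (r n) := by
    refine circleAverage_congr_sphere ?_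
    rw [habs]
    intro z hz
    simp only
    have h3 := Real.posLog_sub_posLog_inv (x := ‖ev (g n) z P‖ / ‖ev (g n) z Q‖)
    rw [inv_div, Real.log_div (norm_ne_zero_iff.2 (nP z hz)) (norm_ne_zero_iff.2 (nQ z hz))] at h3
    linarith
  rw [e, circleAverage_fun_sub (intPos h2 hC hc hr P nQ) (intLog h2 hC hc hr nP nQ)]
  linarith

end

end lox

theorem lo_proof (h1 : S_Mx) (h2 : S_ev) : S_lo := by
  intro F I _ _ d C u0 g u a b c r hC hc hr
  exact ⟨lox.part1 h1 h2 hC hc hr, lox.part2 h2 hC hc hr, lox.part3 h2 hC hc hr,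
    lox.part4 h2 hC hc hr, lox.part5 h2 hC hc hr⟩

end

end Pool.Agent.Work.MP_6d7a54_an.NF
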