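import Pool.Agent.Work.MP_6d7a54_an.NF.I_ideal

/-!
# The ideal of tiny elements is prime (MP_6d7a54_an, NF)
-/

namespace Pool.Agent.Work.MP_6d7a54_an.NF

open Filter Metric Set Topology

noncomputable section

namespace primex

variable {F I : Type} [Field F] [Algebra F ℂ] {d : ℕ} {C : ℝ} {u0 : Fin d → ℂ}
  {g : ℕ → I → ℂ → ℂ} {u : ℕ → Fin d → ℂ → ℂ} {a b : ℕ → ℝ}

theorem ev_analytic (f : I → ℂ → ℂ) (hf : ∀ l, DifferentiableOn ℂ (f l) (ball 0 1))
    (P : DP F I) : AnalyticOnNhd ℂ (fun z => ev f z P) (ball 0 1) := by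
  have hX : ∀ p : I × ℕ, AnalyticOnNhd ℂ (fun z => iteratedDeriv p.2 (f p.1) z) (ball 0 1) := by
    intro p
    have h := AnalyticOnNhd.iterated_deriv ((hf p.1).analyticOnNhd isOpen_ball) p.2
    simpa only [iteratedDeriv_eq_iterate] using h
  unfold ev
  induction P using MvPolynomial.induction_on with
  | C x =>
    simp only [MvPolynomial.algHom_C]
    exact analyticOnNhd_const
  | add p q hp hq =>
    simp only [map_add]
    exact hp.add hq
  | mul_X p i hp =>
    simp only [map_mul, MvPolynomial.aeval_X]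
    exact hp.mul (hX i)

theorem min_ge {y y' : ℝ} (h : y / 8 ≤ y') : min 1 y / 8 ≤ min 1 y' := by
  apply le_min
  · have := min_le_left 1 y
    linarith
  · have := min_le_right 1 y
    linarith

theorem log8 : Real.exp (-3) ≤ 1 / 8 := by
  have h2 : (2 : ℝ) ≤ Real.exp 1 := by
    have := Real.add_one_le_exp (1 : ℝ)
    linarith
  have h8 : (8 : ℝ) ≤ Real.exp 3 := by
    have h : Real.exp 3 = Real.exp 1 ^ 3 := by
      rw [← Real.exp_nat_mul]
      norm_num
    rw [h]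
    calc (8 : ℝ) = 2 ^ 3 := by norm_num
      _ ≤ Real.exp 1 ^ 3 := pow_le_pow_left₀ (by norm_num) h2 3
  rw [Real.exp_neg, one_div]
  exact inv_anti₀ (by norm_num) h8

/-- product of the distances to the zeros -/
theorem prod_ge {m : ℕ} (w : Fin m → ℂ) (t bb : ℝ) (hb : 0 < bb) :
    Real.exp (-(3 * m)) * ∏ l, min 1 (|t - (w l).re| / bb) ≤
      ∏ l, min 1 (‖(t : ℂ) - w l‖ / (8 * bb)) := by
  have h1 : Real.exp (-(3 * m)) = ∏ _l : Fin m, Real.exp (-3) := by
    rw [Finset.prod_const, Finset.card_univ, Fintype.card_fin, ← Real.exp_nat_mul]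
    ring_nf
  rw [h1, ← Finset.prod_mul_distrib]
  apply Finset.prod_le_prod
  · intro l _
    have : 0 ≤ min 1 (|t - (w l).re| / bb) := le_min zero_le_one (by positivity)
    positivity
  · intro l _
    have hy : 0 ≤ |t - (w l).re| / bb := by positivity
    have hm : 0 ≤ min 1 (|t - (w l).re| / bb) := le_min zero_le_one hy
    calc Real.exp (-3) * min 1 (|t - (w l).re| / bb) ≤ 1 / 8 * min 1 (|t - (w l).re| / bb) :=
          mul_le_mul_of_nonneg_right log8 hm
      _ = min 1 (|t - (w l).re| / bb) / 8 := by ring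
      _ ≤ min 1 (‖(t : ℂ) - w l‖ / (8 * bb)) := by
          apply min_ge
          rw [div_div, mul_comm bb 8]
          apply div_le_div_of_nonneg_right _ (by positivity)
          have := Complex.abs_re_le_norm ((t : ℂ) - w l)
          simpa using this

/-- two functions with controlled growth which are not small near `0` have a product which is
not small near `0` -/
theorem two (h5 : S_CL) (h6 : S_avg) : ∃ K : ℝ, 1 ≤ K ∧ ∀ (f1 f2 : ℂ → ℂ) (p q : ℂ) (bb A : ℝ),
    0 < bb → 0 ≤ A → AnalyticOnNhd ℂ f1 (closedBall 0 (8 * bb)) →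
    AnalyticOnNhd ℂ f2 (closedBall 0 (8 * bb)) →
    (∀ z ∈ closedBall (0 : ℂ) (8 * bb), ‖f1 z‖ ≤ Real.exp A) →
    (∀ z ∈ closedBall (0 : ℂ) (8 * bb), ‖f2 z‖ ≤ Real.exp A) →
    ‖p‖ ≤ bb → ‖q‖ ≤ bb → Real.exp (-A) ≤ ‖f1 p‖ → Real.exp (-A) ≤ ‖f2 q‖ →
    ∃ z : ℂ, ‖z‖ ≤ bb ∧ Real.exp (-(K * A)) ≤ ‖f1 z * f2 z‖ := by
  obtain ⟨K, hK1, hK⟩ := h5
  obtain ⟨K', hK'1, hK'⟩ := h6
  refine ⟨2 * K * (4 + K'), by nlinarith, ?_⟩
  intro f1 f2 p q bb A hbb hA ha1 ha2 hg1 hg2 hp hq hp1 hq1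
  have hin : ∀ x : ℂ, ‖x‖ ≤ bb → x ∈ closedBall (0 : ℂ) (8 * bb / 4) := by
    intro x hx
    rw [mem_closedBall_zero_iff]
    linarith
  obtain ⟨m1, w1, hm1, hl1⟩ := hK f1 0 p (8 * bb) A (by positivity) hA ha1 hg1 (hin p hp) hp1
  obtain ⟨m2, w2, hm2, hl2⟩ := hK f2 0 q (8 * bb) A (by positivity) hA ha2 hg2 (hin q hq) hq1
  obtain ⟨t, ht0, ht1, ht⟩ := hK' (m1 + m2)
    (Fin.append (fun l => (w1 l).re) (fun l => (w2 l).re)) 0 bb hbb
  rw [Fin.prod_univ_add] at ht
  simp only [Fin.append_left, Fin.append_right, sub_zero] at ht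
  have htn : ‖(t : ℂ)‖ ≤ bb := by
    rw [Complex.norm_real, Real.norm_eq_abs, abs_of_nonneg ht0]
    exact ht1
  refine ⟨(t : ℂ), htn, ?_⟩
  have hmem : (t : ℂ) ∈ closedBall (0 : ℂ) (4 * (8 * bb) / 5) := by
    rw [mem_closedBall_zero_iff]
    linarith
  have e1 := hl1 t hmem
  have e2 := hl2 t hmem
  have p1 := prod_ge w1 t bb hbb
  have p2 := prod_ge w2 t bb hbb
  set X1 := ∏ l, min 1 (|t - (w1 l).re| / bb) with hX1
  set X2 := ∏ l, min 1 (|t - (w2 l).re| / bb) with hX2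
  have hX1n : 0 ≤ X1 := Finset.prod_nonneg fun l _ => le_min zero_le_one (by positivity)
  have hX2n : 0 ≤ X2 := Finset.prod_nonneg fun l _ => le_min zero_le_one (by positivity)
  have q1 : Real.exp (-(K * A)) * (Real.exp (-(3 * m1)) * X1) ≤ ‖f1 t‖ :=
    (mul_le_mul_of_nonneg_left p1 (Real.exp_pos _).le).trans e1
  have q2 : Real.exp (-(K * A)) * (Real.exp (-(3 * m2)) * X2) ≤ ‖f2 t‖ :=
    (mul_le_mul_of_nonneg_left p2 (Real.exp_pos _).le).trans e2
  have hn1 : 0 ≤ Real.exp (-(K * A)) * (Real.exp (-(3 * m1)) * X1) := by positivity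
  have hn2 : 0 ≤ Real.exp (-(K * A)) * (Real.exp (-(3 * m2)) * X2) := by positivity
  rw [norm_mul]
  have hprod := mul_le_mul q1 q2 hn2 (norm_nonneg _)
  refine le_trans ?_ hprod
  have hre : Real.exp (-(K * A)) * (Real.exp (-(3 * m1)) * X1) *
      (Real.exp (-(K * A)) * (Real.exp (-(3 * m2)) * X2)) =
      Real.exp (-(2 * (K * A) + 3 * (m1 + m2))) * (X1 * X2) := by
    have : Real.exp (-(2 * (K * A) + 3 * ((m1 : ℝ) + m2))) =
        Real.exp (-(K * A)) * Real.exp (-(K * A)) *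
          (Real.exp (-(3 * (m1 : ℝ))) * Real.exp (-(3 * (m2 : ℝ)))) := by
      rw [← Real.exp_add, ← Real.exp_add, ← Real.exp_add]
      ring_nf
    rw [this]
    ring
  rw [hre]
  calc Real.exp (-(2 * K * (4 + K') * A)) ≤
      Real.exp (-(2 * (K * A) + 3 * (m1 + m2))) * Real.exp (-(K' * (m1 + m2))) := by
        rw [← Real.exp_add]
        apply Real.exp_le_exp.2
        have h7 : (3 + K') * ((m1 : ℝ) + m2) ≤ (3 + K') * (2 * (K * A)) :=
          mul_le_mul_of_nonneg_left (by linarith) (by linarith)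
        nlinarith
    _ ≤ Real.exp (-(2 * (K * A) + 3 * (m1 + m2))) * (X1 * X2) := by
        apply mul_le_mul_of_nonneg_left _ (Real.exp_pos _).le
        have : ((m1 + m2 : ℕ) : ℝ) = (m1 : ℝ) + m2 := by push_cast; ring
        rw [this] at ht
        exact ht

theorem not_tiny_iff (hc : Conf F C u0 g u a b) (P : DP F I) (hP : ¬ Tiny g u a P) :
    ∀ᶠ n in UF, ∃ z : ℂ, ‖z‖ ≤ b n ∧ Real.exp (-(n * Mx (u n) (b n))) < ‖ev (g n) z P‖ := by
  have h1 := Ultrafilter.eventually_not.2 hP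
  have h2 := (hc.dich P).filter_mono Nat.hyperfilter_le_atTop
  filter_upwards [h1, h2] with n hn1 hn2
  exact hn2.resolve_left hn1

/-- upper bound on the disc of radius `8 b` -/
theorem upper8 (h1 : S_Mx) (h3 : S_GB) (hc : Conf F C u0 g u a b) (Q : DP F I) :
    ∃ K : ℝ, 0 ≤ K ∧ ∀ n : ℕ, 1 ≤ n → 16 * b n ≤ 1 / 2 → ∀ z ∈ closedBall (0 : ℂ) (8 * b n),
      ‖ev (g n) z Q‖ ≤ Real.exp (K * Mx (u n) (16 * b n)) := by
  obtain ⟨K, hK0, hK⟩ := h3 F I Q C
  refine ⟨2 * K, by positivity, ?_⟩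
  intro n hn hb16 z hz
  obtain ⟨k1, k2, -, -⟩ := h1 d (u n) (hc.dat n).hu
  have hb := hc.hb n
  have h := hK d (g n) (u n) (hc.dat n) 0 (8 * b n) (16 * b n) (Mx (u n) (16 * b n))
    (by linarith) (closedBall_subset_ball (by linarith)) (k1 _)
    (fun z hz => k2 (16 * b n) z (by linarith) (by simpa using hz)) z hz
  refine h.trans (Real.exp_le_exp.2 ?_)
  have h5 : 16 * b n - 8 * b n = 8 * b n := by ring
  rw [h5]
  have h6 : Real.log (1 / (8 * b n)) ≤ Real.log (1 / b n) :=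
    Real.log_le_log (by positivity) (one_div_le_one_div_of_le hb (by linarith))
  have h7 : 0 ≤ Real.log (1 / b n) := by
    apply Real.log_nonneg
    rw [le_div_iff₀ hb]
    linarith
  have h8 : (1 : ℝ) ≤ n := by exact_mod_cast hn
  have h9 := hc.big n
  have h10 : Mx (u n) (b n) ≤ Mx (u n) (16 * b n) :=
    idealx.Mx_mono h1 (hc.dat n).hu hb (by linarith) (by linarith)
  have h11 : 1 * (1 + Real.log (1 / b n)) ≤ (n : ℝ) * (1 + Real.log (1 / b n)) :=
    mul_le_mul_of_nonneg_right h8 (by linarith)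
  have h12 : 1 + Mx (u n) (16 * b n) + Real.log (1 / (8 * b n)) ≤
      2 * Mx (u n) (16 * b n) := by linarith
  calc K * (1 + Mx (u n) (16 * b n) + Real.log (1 / (8 * b n))) ≤
      K * (2 * Mx (u n) (16 * b n)) := mul_le_mul_of_nonneg_left h12 hK0
    _ = 2 * K * Mx (u n) (16 * b n) := by ring

end primex

theorem prime_proof (h1 : S_Mx) (h3 : S_GB) (h5 : S_CL) (h6 : S_avg) : S_prime := by
  intro F I _ _ d C u0 g u a b hc P Q hP hQ hPQ
  obtain ⟨K, hK1, hK⟩ := primex.two h5 h6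
  obtain ⟨KP, hKP0, hKP⟩ := primex.upper8 h1 h3 hc P
  obtain ⟨KQ, hKQ0, hKQ⟩ := primex.upper8 h1 h3 hc Q
  set K1 : ℝ := KP + KQ + 1 with hK1d
  have hP' := primex.not_tiny_iff hc P hP
  have hQ' := primex.not_tiny_iff hc Q hQ
  have hev : ∀ᶠ n : ℕ in UF, False := by
    filter_upwards [hP', hQ', hPQ, idealx.UF_ge 2, idealx.UF_geR (16 * (K * K1))]
      with n hp hq hpq hn hnK
    obtain ⟨p, hpb, hp1⟩ := hp
    obtain ⟨q, hqb, hq1⟩ := hq
    have hb := hc.hb n
    have ha := idealx.a_pos hc n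
    have hn2 : (2 : ℝ) ≤ n := by exact_mod_cast hn
    have hab := hc.hab n
    have h16 : 16 * b n ≤ a n := by
      have h27 : (16 : ℝ) ≤ ((n : ℝ) + 1) ^ 3 := by
        calc (16 : ℝ) ≤ 3 ^ 3 := by norm_num
          _ ≤ ((n : ℝ) + 1) ^ 3 := pow_le_pow_left₀ (by norm_num) (by linarith) 3
      have := mul_le_mul_of_nonneg_left h27 hb.le
      linarith
    have hahalf := hc.ha n
    have h16' : 16 * b n ≤ 1 / 2 := h16.trans hahalf
    obtain ⟨k1, k2, k3, -⟩ := h1 d (u n) (hc.dat n).hu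
    set M16 := Mx (u n) (16 * b n) with hM16
    have hM16n : 0 ≤ M16 := k1 _
    have hMb : Mx (u n) (b n) ≤ M16 :=
      idealx.Mx_mono h1 (hc.dat n).hu hb (by linarith) (by linarith)
    set A : ℝ := K1 * (n * M16) with hA
    have hK1p : 1 ≤ K1 := by rw [hK1d]; linarith
    have hnM : 0 ≤ n * M16 := by positivity
    have hMn : M16 ≤ n * M16 := by nlinarith
    have hA0 : 0 ≤ A := by positivity
    have hAn : n * M16 ≤ A := by
      rw [hA]
      nlinarith
    have hPA : KP * M16 ≤ A := by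
      calc KP * M16 ≤ KP * (n * M16) := mul_le_mul_of_nonneg_left hMn hKP0
        _ ≤ K1 * (n * M16) := mul_le_mul_of_nonneg_right (by rw [hK1d]; linarith) hnM
    have hQA : KQ * M16 ≤ A := by
      calc KQ * M16 ≤ KQ * (n * M16) := mul_le_mul_of_nonneg_left hMn hKQ0
        _ ≤ K1 * (n * M16) := mul_le_mul_of_nonneg_right (by rw [hK1d]; linarith) hnM
    have hlow : Real.exp (-A) ≤ Real.exp (-(n * Mx (u n) (b n))) := by
      apply Real.exp_le_exp.2
      have : (n : ℝ) * Mx (u n) (b n) ≤ n * M16 := mul_le_mul_of_nonneg_left hMb (by linarith)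
      linarith
    have hsub : closedBall (0 : ℂ) (8 * b n) ⊆ ball 0 1 := closedBall_subset_ball (by linarith)
    obtain ⟨z, hz, hzl⟩ := hK (fun z => ev (g n) z P) (fun z => ev (g n) z Q) p q (b n) A hb hA0
      ((primex.ev_analytic (g n) (hc.dat n).hg P).mono hsub)
      ((primex.ev_analytic (g n) (hc.dat n).hg Q).mono hsub)
      (fun z hz => (hKP n (by omega) h16' z hz).trans (Real.exp_le_exp.2 hPA))
      (fun z hz => (hKQ n (by omega) h16' z hz).trans (Real.exp_le_exp.2 hQA))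
      hpb hqb (hlow.trans hp1.le) (hlow.trans hq1.le)
    have hzu := hpq z (by linarith)
    have hmul : ev (g n) z (P * Q) = ev (g n) z P * ev (g n) z Q := by
      unfold ev
      rw [map_mul]
    rw [hmul] at hzu
    have hcmp := Real.exp_le_exp.1 (hzl.trans hzu)
    -- `n M (a) ≤ K A`
    have hMa := idealx.n_le_Ma h1 hc n
    set Ma := Mx (u n) (a n) with hMad
    have hMa0 : 0 < Ma := by linarith
    have hM16a : M16 ≤ 16 * b n / a n * Ma := by
      have := k3 (16 * b n / a n) (a n) (by positivity) ((div_le_one ha).2 h16) ha (by linarith)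
      rwa [div_mul_cancel₀ _ ha.ne'] at this
    have hfrac : 16 * b n / a n ≤ 16 / (n + 1) := by
      rw [div_le_div_iff₀ ha (by linarith)]
      have h3 : ((n : ℝ) + 1) ≤ ((n : ℝ) + 1) ^ 3 := by
        calc ((n : ℝ) + 1) = ((n : ℝ) + 1) ^ 1 := (pow_one _).symm
          _ ≤ ((n : ℝ) + 1) ^ 3 := pow_le_pow_right₀ (by linarith) (by norm_num)
      have := mul_le_mul_of_nonneg_left h3 hb.le
      nlinarith
    have hM16b : M16 ≤ 16 / (n + 1) * Ma :=
      hM16a.trans (mul_le_mul_of_nonneg_right hfrac hMa0.le)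
    have hfin : (n : ℝ) * Ma ≤ K * (K1 * (n * (16 / (n + 1) * Ma))) := by
      calc (n : ℝ) * Ma ≤ K * A := by linarith
        _ = K * (K1 * (n * M16)) := by rw [hA]
        _ ≤ K * (K1 * (n * (16 / (n + 1) * Ma))) := by gcongr
    have hn1 : (0 : ℝ) < n + 1 := by linarith
    have hfin2 : (n : ℝ) * Ma * (n + 1) ≤ (n : ℝ) * Ma * (16 * (K * K1)) := by
      calc (n : ℝ) * Ma * (n + 1) ≤ K * (K1 * (n * (16 / (n + 1) * Ma))) * (n + 1) :=
            mul_le_mul_of_nonneg_right hfin hn1.le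
        _ = (n : ℝ) * Ma * (16 * (K * K1)) := by
            field_simp
    have hpos : 0 < (n : ℝ) * Ma := by positivity
    have := le_of_mul_le_mul_left hfin2 hpos
    linarith
  exact absurd hev.exists (by simp)

end

end Pool.Agent.Work.MP_6d7a54_an.NF
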