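import Pool.Agent.Work.MP_6d7a54_an.NF.Stmts

set_option autoImplicit false

namespace Pool.Agent.Work.MP_6d7a54_an.NF

open Filter Metric Set Topology

namespace s8x

lemma ev_X0 {F I : Type} [Field F] [Algebra F ℂ] (g : I → ℂ → ℂ) (z : ℂ) (l : I) :
    ev g z (MvPolynomial.X (l, 0) : DP F I) = g l z := by
  simp [ev]

lemma ev_one {F I : Type} [Field F] [Algebra F ℂ] (g : I → ℂ → ℂ) (z : ℂ) :
    ev g z (1 : DP F I) = 1 := by
  simp [ev]

lemma pl (x : ℝ) : Real.posLog (Real.exp x) = max 0 x := by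
  rw [Real.posLog_apply, Real.log_exp]

lemma abs_eq_pl (x : ℝ) : |x| = max 0 x + max 0 (-x) := by
  rcases le_total 0 x with h | h
  · rw [abs_of_nonneg h, max_eq_right h, max_eq_left (by linarith)]; ring
  · rw [abs_of_nonpos h, max_eq_left h, max_eq_right (by linarith)]; ring

lemma TT_eq {F I : Type} [Field F] [Algebra F ℂ] {d : ℕ} (g : I → ℂ → ℂ) (u : Fin d → ℂ → ℂ)
    (hu : ∀ i, DifferentiableOn ℂ (u i) (ball 0 1)) (c : ℂ) (r : ℝ) (hr : 0 ≤ r)
    (hs : sphere c r ⊆ ball 0 1) (e e' : Fin d → I)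
    (he : ∀ i, ∀ z ∈ ball (0 : ℂ) 1, g (e i) z = Complex.exp (u i z))
    (he' : ∀ i, ∀ z ∈ ball (0 : ℂ) 1, g (e' i) z = Complex.exp (-(u i z))) :
    TT u c r = ∑ i, (Real.circleAverage (fun z => Real.posLog
        (‖ev g z (MvPolynomial.X (e i, 0) : DP F I)‖ / ‖ev g z (1 : DP F I)‖)) c r +
      Real.circleAverage (fun z => Real.posLog
        (‖ev g z (MvPolynomial.X (e' i, 0) : DP F I)‖ / ‖ev g z (1 : DP F I)‖)) c r) := by
  have hra : |r| = r := abs_of_nonneg hr
  have hcont : ∀ i, ContinuousOn (fun z => (u i z).re) (sphere c r) := fun i =>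
    Complex.continuous_re.comp_continuousOn ((hu i).continuousOn.mono hs)
  have h1 : ∀ i, Real.circleAverage (fun z => Real.posLog
      (‖ev g z (MvPolynomial.X (e i, 0) : DP F I)‖ / ‖ev g z (1 : DP F I)‖)) c r =
      Real.circleAverage (fun z => max 0 (u i z).re) c r := by
    intro i
    apply Real.circleAverage_congr_sphere
    intro z hz
    rw [hra] at hz
    simp only
    rw [ev_X0, ev_one, he i z (hs hz), norm_one, div_one, Complex.norm_exp, pl]
  have h2 : ∀ i, Real.circleAverage (fun z => Real.posLog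
      (‖ev g z (MvPolynomial.X (e' i, 0) : DP F I)‖ / ‖ev g z (1 : DP F I)‖)) c r =
      Real.circleAverage (fun z => max 0 (-(u i z).re)) c r := by
    intro i
    apply Real.circleAverage_congr_sphere
    intro z hz
    rw [hra] at hz
    simp only
    rw [ev_X0, ev_one, he' i z (hs hz), norm_one, div_one, Complex.norm_exp, pl, Complex.neg_re]
  have c1 : ∀ i, CircleIntegrable (fun z => max 0 (u i z).re) c r := fun i =>
    ContinuousOn.circleIntegrable hr (continuousOn_const.sup (hcont i))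
  have c2 : ∀ i, CircleIntegrable (fun z => max 0 (-(u i z).re)) c r := fun i =>
    ContinuousOn.circleIntegrable hr (continuousOn_const.sup (hcont i).neg)
  have c3 : ∀ i, CircleIntegrable (fun z => max 0 (u i z).re + max 0 (-(u i z).re)) c r :=
    fun i => (c1 i).add (c2 i)
  calc TT u c r = Real.circleAverage
        (fun z => ∑ i, (max 0 (u i z).re + max 0 (-(u i z).re))) c r := by
        unfold TT
        congr 1
        funext z
        exact Finset.sum_congr rfl fun i _ => abs_eq_pl _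
    _ = ∑ i, Real.circleAverage (fun z => max 0 (u i z).re + max 0 (-(u i z).re)) c r :=
        Real.circleAverage_fun_sum fun i _ => c3 i
    _ = _ := by
        refine Finset.sum_congr rfl fun i _ => ?_
        rw [h1, h2]
        exact Real.circleAverage_fun_add (c1 i) (c2 i)

end s8x

open s8x in
theorem s8_proof (h1 : S_Mx) : S_s8 := by
  intro F I _ _ d C u0 g u a b c r hC hcen hR e e' he he' hsm
  obtain ⟨hs1, hs2⟩ := hsm
  have hdat := hC.dat
  -- `d ≥ 1`
  have hle : ∀ n, b n ≤ a n := fun n => by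
    have h := hC.hab n
    have hb := hC.hb n
    have : (1 : ℝ) ≤ ((n : ℝ) + 1) ^ 3 := one_le_pow₀ (by linarith [n.cast_nonneg (α := ℝ)])
    nlinarith
  have hpos : ∀ n : ℕ, 1 ≤ n → 0 < Mx (u n) (b n) := fun n hn => by
    have h := hC.big n
    have hb := hC.hb n
    have hb1 : b n ≤ 1 / 2 := (hle n).trans (hC.ha n)
    have hn' : (1 : ℝ) ≤ n := by exact_mod_cast hn
    have hlog : 0 ≤ Real.log (1 / b n) := Real.log_nonneg (by
      rw [le_div_iff₀ hb]; linarith)
    nlinarith
  have hd : 0 < d := by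
    rcases Nat.eq_zero_or_pos d with h | h
    · subst h
      have := hpos 1 le_rfl
      simp [Mx] at this
    · exact h
  have hd' : (0 : ℝ) < d := by exact_mod_cast hd
  obtain ⟨kap, hkap, htt⟩ := hR.tt
  have hcof : ∀ᶠ n in UF, 2 ≤ n := by
    have : ∀ᶠ n : ℕ in atTop, 2 ≤ n := eventually_ge_atTop 2
    have h2 : UF ≤ atTop := by
      rw [← Nat.cofinite_eq_atTop]
      exact hyperfilter_le_cofinite
    exact h2 this
  have e1 : ∀ᶠ n in UF, ∀ i, Real.circleAverage (fun z => Real.posLog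
      (‖ev (g n) z (MvPolynomial.X (e i, 0) : DP F I)‖ / ‖ev (g n) z (1 : DP F I)‖)) (c n) (r n)
      ≤ 1 / (4 * d) * TT (u n) (c n) (r n) :=
    eventually_all.mpr fun i => hs1 i _ (by positivity)
  have e2 : ∀ᶠ n in UF, ∀ i, Real.circleAverage (fun z => Real.posLog
      (‖ev (g n) z (MvPolynomial.X (e' i, 0) : DP F I)‖ / ‖ev (g n) z (1 : DP F I)‖)) (c n) (r n)
      ≤ 1 / (4 * d) * TT (u n) (c n) (r n) :=
    eventually_all.mpr fun i => hs2 i _ (by positivity)
  obtain ⟨n, hn1, hn2, hn3, hn4⟩ := (hcof.and (e1.and (e2.and htt))).exists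
  have hb := hC.hb n
  have ha0 : 0 < a n := hb.trans_le (hle n)
  have hr0 : 0 ≤ r n := le_trans (by linarith) (hR.h1 n)
  have hs : sphere (c n) (r n) ⊆ ball 0 1 := by
    intro z hz
    rw [mem_sphere, dist_eq_norm] at hz
    rw [mem_ball, dist_zero_right]
    have hc := hcen.hc n
    have h2 := hR.h2 n
    have h3 := hC.ha n
    have h4 := hle n
    calc ‖z‖ = ‖(z - c n) + c n‖ := by rw [sub_add_cancel]
      _ ≤ ‖z - c n‖ + ‖c n‖ := norm_add_le _ _
      _ < 1 := by rw [hz]; linarith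
  have hTT := TT_eq (F := F) (g n) (u n) (hdat n).hu (c n) (r n) hr0 hs e e' (he n) (he' n)
  have hsum : TT (u n) (c n) (r n) ≤ ∑ _i : Fin d, (1 / (4 * (d : ℝ)) * TT (u n) (c n) (r n) +
      1 / (4 * d) * TT (u n) (c n) (r n)) := by
    conv_lhs => rw [hTT]
    exact Finset.sum_le_sum fun i _ => add_le_add (hn2 i) (hn3 i)
  rw [Finset.sum_const, Finset.card_univ, Fintype.card_fin, nsmul_eq_mul] at hsum
  have hhalf : (d : ℝ) * (1 / (4 * (d : ℝ)) * TT (u n) (c n) (r n) +
      1 / (4 * d) * TT (u n) (c n) (r n)) = 1 / 2 * TT (u n) (c n) (r n) := by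
    field_simp; ring
  rw [hhalf] at hsum
  have hM : 0 < Mx (u n) (a n / 16) := by
    have hab := hC.hab n
    have hn' : (2 : ℝ) ≤ n := by exact_mod_cast hn1
    have h27 : (27 : ℝ) ≤ ((n : ℝ) + 1) ^ 3 := by
      have : (3 : ℝ) ^ 3 ≤ ((n : ℝ) + 1) ^ 3 := pow_le_pow_left₀ (by norm_num) (by linarith) 3
      linarith
    have h16 : b n * 16 ≤ a n := by nlinarith
    have h3 := (h1 d (u n) (hdat n).hu).2.2.1 (b n / (a n / 16)) (a n / 16) (by positivity)
      (by rw [div_le_one (by positivity)]; linarith) (by positivity) (by linarith [hC.ha n])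
    rw [div_mul_cancel₀ _ (by positivity : a n / 16 ≠ 0)] at h3
    have h4 := hpos n (by omega)
    have h5 : 0 < b n / (a n / 16) := by positivity
    by_contra hcon
    push Not at hcon
    have h6 : b n / (a n / 16) * Mx (u n) (a n / 16) ≤ 0 :=
      mul_nonpos_of_nonneg_of_nonpos h5.le hcon
    linarith
  have hkM : 0 < kap * Mx (u n) (a n / 16) := mul_pos hkap hM
  linarith

end Pool.Agent.Work.MP_6d7a54_an.NF
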