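import Mathlib

/-!
# Normal crossing plane curves and the Kobayashi-Royden metric of their complement
(MP_6d7a54_an)
-/

namespace Pool.Agent.Work.MP_6d7a54_an.NF

open Metric MvPolynomial

noncomputable section

/-- The plane curve `X = 0` (`X` a homogeneous polynomial in three variables) has only normal
crossing singularities: at every point `[w]` of the curve either some first derivative of `X` does
not vanish, or the matrix of second derivatives has rank two, that is, `[w]` is an ordinary double
point (the second derivative is a nondegenerate quadratic form on the tangent space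
`ℂ^3 / ℂ w`). -/
def NormalCrossing (X : MvPolynomial (Fin 3) ℂ) : Prop :=
  ∀ w : Fin 3 → ℂ, w ≠ 0 → eval w X = 0 → (∀ j, eval w (pderiv j X) = 0) →
    (Matrix.of fun i j : Fin 3 => eval w (pderiv i (pderiv j X))).rank = 2

/-- The cone (in `ℂ^3`) over the complement of the curve `X = 0`. -/
def complementCone (X : MvPolynomial (Fin 3) ℂ) : Set (Fin 3 → ℂ) :=
  {w | w ≠ 0 ∧ eval w X ≠ 0}

/-- The infinitesimal Kobayashi (Kobayashi-Royden) pseudometric of the open subset `M` of the
projective plane whose cone is `Ω`, at the point `[w]`, evaluated at the tangent vector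
represented by `v` (the tangent space of the plane at `[w]` is `ℂ^3 / ℂ w`). A holomorphic disc
in `M` is given by a holomorphic map `f` from the unit disc to `Ω` (homogeneous coordinates);
`f'(0) = R v` in the tangent space means `f'(0) = R v + c w`. -/
def kobayashiRoyden (Ω : Set (Fin 3 → ℂ)) (w v : Fin 3 → ℂ) : ℝ :=
  sInf {t : ℝ | ∃ (R : ℝ) (f : ℂ → Fin 3 → ℂ) (c : ℂ), 0 < R ∧
    DifferentiableOn ℂ f (ball 0 1) ∧ (∀ z ∈ ball (0 : ℂ) 1, f z ∈ Ω) ∧ f 0 = w ∧
    deriv f 0 = (R : ℂ) • v + c • w ∧ t = 1 / R}

end

end Pool.Agent.Work.MP_6d7a54_an.NF
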