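import Pool.Agent.Work.MP_6d7a54_an.NF.DefsB
import Pool.Agent.Work.MP_6d7a54_an.NF.Curve

/-!
# Statements of the geometric items (MP_6d7a54_an)
-/

namespace Pool.Agent.Work.MP_6d7a54_an.NF

open MvPolynomial Metric

noncomputable section

/-- countable algebraically closed subfields of the complex numbers -/
def S_ACF : Prop := ∀ s : Finset ℂ, ∃ (F : Type) (_ : Field F) (_ : Algebra F ℂ),
  Countable F ∧ IsAlgClosed F ∧ ∀ z ∈ s, ∃ a : F, algebraMap F ℂ a = z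

/-- normal crossings of a product of three forms -/
def S_NC0 : Prop := ∀ (P : Fin 3 → MvPolynomial (Fin 3) ℂ) (d : Fin 3 → ℕ),
  (∀ a, (P a).IsHomogeneous (d a)) → (∀ a, 1 ≤ d a) → NormalCrossing (∏ a, P a) →
  (∀ w : Fin 3 → ℂ, w ≠ 0 → ∀ a b, a ≠ b → eval w (P a) = 0 → eval w (P b) = 0 →
    eval w (Jac P) ≠ 0) ∧
  (∀ w : Fin 3 → ℂ, w ≠ 0 → ∀ a, eval w (P a) = 0 → (∀ j, eval w (pderiv j (P a)) = 0) →
    ∀ be ga : Fin 3 → ℂ, ¬ ∀ i j, eval w (pderiv i (pderiv j (P a))) = be i * ga j)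

/-- transfer of the normal crossing conditions to all extension fields (Nullstellensatz) -/
def S_Tr : Prop := ∀ (F : Type) [Field F] [CharZero F] [IsAlgClosed F] [Algebra F ℂ]
  (Q : Fin 3 → MvPolynomial (Fin 3) F) (dg : Fin 3 → ℕ), (∀ a, (Q a).IsHomogeneous (dg a)) →
  (∀ a, 1 ≤ dg a) → 4 ≤ ∑ a, dg a →
  (∀ w : Fin 3 → ℂ, w ≠ 0 → ∀ a b, a ≠ b → aeval w (Q a) = 0 → aeval w (Q b) = 0 →
    aeval w (Jac Q) ≠ 0) →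
  (∀ w : Fin 3 → ℂ, w ≠ 0 → ∀ a, aeval w (Q a) = 0 → (∀ j, aeval w (pderiv j (Q a)) = 0) →
    ∀ be ga : Fin 3 → ℂ, ¬ ∀ i j, aeval w (pderiv i (pderiv j (Q a))) = be i * ga j) →
  NC3 Q dg

/-- bad sequences of discs in the complement of three curves -/
def S_Geo : Prop := ∀ (P : Fin 3 → MvPolynomial (Fin 3) ℂ) (d : Fin 3 → ℕ),
  (∀ a, (P a).IsHomogeneous (d a)) → (∀ a, 1 ≤ d a) →
  (∀ w : Fin 3 → ℂ, (∀ a, eval w (P a) = 0) → w = 0) → ∀ w v : Fin 3 → ℂ, w ≠ 0 →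
  (∀ a, eval w (P a) ≠ 0) → (∀ c : ℂ, v ≠ c • w) →
  (∀ A : ℝ, ∃ (R : ℝ) (f : ℂ → Fin 3 → ℂ) (c : ℂ), A ≤ R ∧ DifferentiableOn ℂ f (ball 0 1) ∧
    (∀ z ∈ ball (0 : ℂ) 1, ∀ a, eval (f z) (P a) ≠ 0) ∧ f 0 = w ∧
    deriv f 0 = (R : ℂ) • v + c • w) →
  ∃ (C : ℝ) (u0 : Fin 2 → ℂ) (lam : ℂ) (g : ℕ → (Fin 3 ⊕ Fin 2 ⊕ Fin 2) → ℂ → ℂ)
    (u : ℕ → Fin 2 → ℂ → ℂ), lam ≠ 0 ∧ BadSeq C u0 g u ∧
    (∀ n, ∀ z ∈ ball (0 : ℂ) 1,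
      eval (fun j => g n (Sum.inl j) z) (P 0) = g n (Sum.inr (Sum.inl 0)) z ∧
      eval (fun j => g n (Sum.inl j) z) (P 1) = g n (Sum.inr (Sum.inl 1)) z ∧
      eval (fun j => g n (Sum.inl j) z) (P 2) = 1) ∧
    (∀ n i, ∀ z ∈ ball (0 : ℂ) 1, g n (Sum.inr (Sum.inl i)) z = Complex.exp (u n i z) ∧
      g n (Sum.inr (Sum.inr i)) z = Complex.exp (-(u n i z))) ∧
    ∀ n j, g n (Sum.inl j) 0 = lam * w j

/-- discs in the complement of three curves are bounded -/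
def S_Main3 : Prop := ∀ (P : Fin 3 → MvPolynomial (Fin 3) ℂ) (d : Fin 3 → ℕ),
  (∀ a, (P a).IsHomogeneous (d a)) → (∀ a, 1 ≤ d a) → 4 ≤ ∑ a, d a →
  NormalCrossing (∏ a, P a) → ∃ (Q : MvPolynomial (Fin 3) ℂ) (N : ℕ), Q ≠ 0 ∧
  Q.IsHomogeneous N ∧ ∀ w : Fin 3 → ℂ, w ≠ 0 → (∀ a, eval w (P a) ≠ 0) → eval w Q ≠ 0 →
  ∀ v : Fin 3 → ℂ, (∀ c : ℂ, v ≠ c • w) → ∃ A : ℝ, ∀ (R : ℝ) (f : ℂ → Fin 3 → ℂ) (c : ℂ),
    DifferentiableOn ℂ f (ball 0 1) → (∀ z ∈ ball (0 : ℂ) 1, ∀ a, eval (f z) (P a) ≠ 0) →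
    f 0 = w → deriv f 0 = (R : ℂ) • v + c • w → R ≤ A

/-- THE THEOREM: normal crossing plane curves of degree at least four with at least three
components -/
def S_Three : Prop := ∀ (d : ℕ) (X : MvPolynomial (Fin 3) ℂ), X.IsHomogeneous d → 4 ≤ d →
  NormalCrossing X →
  (∃ A B C : MvPolynomial (Fin 3) ℂ, ¬ IsUnit A ∧ ¬ IsUnit B ∧ ¬ IsUnit C ∧ X = A * B * C) →
  ∃ (Q : MvPolynomial (Fin 3) ℂ) (N : ℕ), Q ≠ 0 ∧ Q.IsHomogeneous N ∧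
    ∀ w ∈ complementCone X, eval w Q ≠ 0 → ∀ v : Fin 3 → ℂ, (∀ c : ℂ, v ≠ c • w) →
      0 < kobayashiRoyden (complementCone X) w v

end

end Pool.Agent.Work.MP_6d7a54_an.NF
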