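import Pool.Agent.Work.MP_6d7a54_an.NF.Defs

/-!
# Nevanlinna fields: statements of the analytic items (MP_6d7a54_an)
-/

namespace Pool.Agent.Work.MP_6d7a54_an.NF

open Filter Metric Set Topology Real

noncomputable section

/-! ### General tools -/

/-- diagonal argument along the ultrafilter -/
def S_Diag : Prop := ∀ (A : Type) (Q : ℕ → ℕ → A → Prop),
  (∀ i n x, Q (i + 1) n x → Q i n x) → (∀ n, ∃ x, Q 0 n x) → (∀ i, ∀ᶠ n in UF, ∃ x, Q i n x) →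
  ∃ f : ℕ → A, (∀ n, Q 0 n (f n)) ∧ ∀ i, ∀ᶠ n in UF, Q i n (f n)

/-- properties of the growth function (Schwarz lemma) -/
def S_Mx : Prop := ∀ (d : ℕ) (u : Fin d → ℂ → ℂ), (∀ i, DifferentiableOn ℂ (u i) (ball 0 1)) →
  (∀ rho : ℝ, 0 ≤ Mx u rho) ∧
  (∀ (rho : ℝ) (z : ℂ), rho < 1 → ‖z‖ ≤ rho → ∑ i, ‖u i z - u i 0‖ ≤ Mx u rho) ∧
  (∀ th rho : ℝ, 0 < th → th ≤ 1 → 0 < rho → rho < 1 → Mx u (th * rho) ≤ th * Mx u rho) ∧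
  (∀ (rho : ℝ) (V : Fin d → ℝ), (∀ i, 0 ≤ V i) →
    (∀ i, ∀ z : ℂ, ‖z‖ ≤ rho → ‖u i z - u i 0‖ ≤ V i) → Mx u rho ≤ ∑ i, V i)

/-- evaluation and derivation -/
def S_ev : Prop := ∀ (F I : Type) [Field F] [Algebra F ℂ] (g : I → ℂ → ℂ) (P : DP F I)
  (U : Set ℂ), IsOpen U → (∀ l, DifferentiableOn ℂ (g l) U) → ∀ z ∈ U,
  HasDerivAt (fun w => ev g w P) (ev g z (dd P)) z

/-- growth of differential polynomials (Cauchy estimates) -/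
def S_GB : Prop := ∀ (F I : Type) [Field F] [Algebra F ℂ] (P : DP F I) (C : ℝ),
  ∃ K : ℝ, 0 ≤ K ∧ ∀ (d : ℕ) (g : I → ℂ → ℂ) (u : Fin d → ℂ → ℂ), Data C g u →
  ∀ (c : ℂ) (rho rho' V : ℝ), rho < rho' → closedBall c rho' ⊆ ball 0 1 → 0 ≤ V →
  (∀ z ∈ closedBall c rho', ∑ i, ‖u i z - u i 0‖ ≤ V) → ∀ z ∈ closedBall c rho,
  ‖ev g z P‖ ≤ Real.exp (K * (1 + V + Real.log (1 / (rho' - rho))))

/-- selection of the scale (pigeonhole) -/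
def S_Conf : Prop := ∀ (F I : Type) [Field F] [Algebra F ℂ] [Countable F] [Fintype I] (d : ℕ)
  (C : ℝ) (u0 : Fin d → ℂ) (g : ℕ → I → ℂ → ℂ) (u : ℕ → Fin d → ℂ → ℂ), BadSeq C u0 g u →
  ∃ (k : ℕ → ℕ) (a b : ℕ → ℝ), Conf F C u0 (fun n => g (k n)) (fun n => u (k n)) a b

/-! ### The ideal of tiny elements -/

/-- criterion for tiny elements -/
def S_crit : Prop := ∀ (F I : Type) [Field F] [Algebra F ℂ] (d : ℕ) (C : ℝ) (u0 : Fin d → ℂ)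
  (g : ℕ → I → ℂ → ℂ) (u : ℕ → Fin d → ℂ → ℂ) (a b : ℕ → ℝ), Conf F C u0 g u a b →
  ∀ (P : DP F I) (eps del : ℝ), 0 < eps → eps ≤ 1 → 0 < del →
  (∀ᶠ n in UF, ∀ z : ℂ, ‖z‖ ≤ eps * a n →
    ‖ev (g n) z P‖ ≤ Real.exp (-(del * Mx (u n) (eps * a n)))) → Tiny g u a P

/-- ideal properties -/
def S_ideal : Prop := ∀ (F I : Type) [Field F] [Algebra F ℂ] (d : ℕ) (C : ℝ) (u0 : Fin d → ℂ)
  (g : ℕ → I → ℂ → ℂ) (u : ℕ → Fin d → ℂ → ℂ) (a b : ℕ → ℝ), Conf F C u0 g u a b →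
  (∀ P Q : DP F I, Tiny g u a P → Tiny g u a Q → Tiny g u a (P + Q)) ∧
  (∀ P Q : DP F I, Tiny g u a P → Tiny g u a (P * Q)) ∧
  (∀ P : DP F I, Tiny g u a P → Tiny g u a (dd P)) ∧
  (∀ P : DP F I, (∀ n, ∀ z ∈ ball (0 : ℂ) 1, ev (g n) z P = 0) → Tiny g u a P) ∧
  (∀ P : DP F I, (∃ c : ℂ, c ≠ 0 ∧ ∀ n, ev (g n) 0 P = c) → ¬ Tiny g u a P)

/-- Cartan type lower bound -/
def S_CL : Prop := ∃ K : ℝ, 1 ≤ K ∧ ∀ (f : ℂ → ℂ) (c p : ℂ) (R A : ℝ), 0 < R → 0 ≤ A →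
  AnalyticOnNhd ℂ f (closedBall c R) → (∀ z ∈ closedBall c R, ‖f z‖ ≤ Real.exp A) →
  p ∈ closedBall c (R / 4) → Real.exp (-A) ≤ ‖f p‖ →
  ∃ (n : ℕ) (w : Fin n → ℂ), (n : ℝ) ≤ K * A ∧ ∀ z ∈ closedBall c (4 * R / 5),
    Real.exp (-(K * A)) * ∏ l, min 1 (‖z - w l‖ / R) ≤ ‖f z‖

/-- averaging over an interval -/
def S_avg : Prop := ∃ K : ℝ, 1 ≤ K ∧ ∀ (n : ℕ) (x : Fin n → ℝ) (al be : ℝ), al < be →
  ∃ t : ℝ, al ≤ t ∧ t ≤ be ∧ Real.exp (-(K * n)) ≤ ∏ l, min 1 (|t - x l| / (be - al))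

/-- the ideal of tiny elements is prime -/
def S_prime : Prop := ∀ (F I : Type) [Field F] [Algebra F ℂ] (d : ℕ) (C : ℝ) (u0 : Fin d → ℂ)
  (g : ℕ → I → ℂ → ℂ) (u : ℕ → Fin d → ℂ → ℂ) (a b : ℕ → ℝ), Conf F C u0 g u a b →
  ∀ P Q : DP F I, ¬ Tiny g u a P → ¬ Tiny g u a Q → ¬ Tiny g u a (P * Q)

/-! ### Centres and radii -/

/-- good centres -/
def S_Cen : Prop := ∀ (F I : Type) [Field F] [Algebra F ℂ] [Countable F] [Fintype I] (d : ℕ)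
  (C : ℝ) (u0 : Fin d → ℂ) (g : ℕ → I → ℂ → ℂ) (u : ℕ → Fin d → ℂ → ℂ) (a b : ℕ → ℝ),
  Conf F C u0 g u a b → ∃ c : ℕ → ℂ, Cen F g u a b c

/-- a holomorphic function is bounded by the mean of its real part -/
def S_Schw : Prop := ∀ (v : ℂ → ℂ) (c z : ℂ) (r : ℝ), z ∈ ball c r →
  AnalyticOnNhd ℂ v (closedBall c r) →
  ‖v z - v c‖ ≤ 2 * ‖z - c‖ / (r - ‖z - c‖) * Real.circleAverage (fun w => |(v w).re|) c r

/-- the characteristic is increasing -/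
def S_TTm : Prop := ∀ (d : ℕ) (u : Fin d → ℂ → ℂ) (c : ℂ) (r r' : ℝ), 0 < r → r ≤ r' →
  (∀ i, AnalyticOnNhd ℂ (u i) (closedBall c r')) → TT u c r ≤ TT u c r'

/-- lemma on the logarithmic derivative, in the mean -/
def S_LD : Prop := ∃ K : ℝ, 1 ≤ K ∧ ∀ (f : ℂ → ℂ) (c : ℂ) (r R X : ℝ), 0 < r → r < R → R ≤ 1 →
  1 ≤ X → AnalyticOnNhd ℂ f (closedBall c R) → (∀ z ∈ closedBall c R, ‖f z‖ ≤ Real.exp X) →
  Real.exp (-X) ≤ ‖f c‖ → (∀ z ∈ sphere c r, f z ≠ 0) →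
  Real.circleAverage (fun z => Real.posLog (‖deriv f z‖ / ‖f z‖)) c r
    ≤ K * (1 + Real.log X + Real.log (1 / (R - r)) + Real.log (1 / r))

/-- selection of the radius for finitely many functions -/
def S_RadF : Prop := ∀ (k : ℕ) (K0 del : ℝ), 1 ≤ K0 → 0 < del → ∃ A0 K1 : ℝ, 1 ≤ A0 ∧ 0 ≤ K1 ∧
  ∀ (a : ℝ) (c : ℂ) (f : Fin k → ℂ → ℂ) (T : ℝ → ℝ) (X : ℝ), 0 < a → a ≤ 1 / 2 →
  MonotoneOn T (Icc (a / 4) (3 * a / 4)) → A0 * (1 + Real.log (1 / a)) ≤ T (a / 4) →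
  (∀ j, AnalyticOnNhd ℂ (f j) (closedBall c (3 * a / 4))) →
  (∀ j, ∀ rho rho' : ℝ, a / 4 ≤ rho → rho < rho' → rho' ≤ 3 * a / 4 → ∀ z ∈ closedBall c rho,
    ‖f j z‖ ≤ Real.exp (K0 * (a / (rho' - rho)) * T rho')) →
  (∀ j, Real.exp (-(T (a / 4))) ≤ ‖f j c‖) →
  (∀ j, ∀ z ∈ closedBall c (5 * a / 8), ‖f j z‖ ≤ Real.exp X) → T (a / 4) ≤ X →
  ∃ r : ℝ, a / 4 ≤ r ∧ r ≤ a / 2 ∧ ∀ j,
    (∀ z ∈ sphere c r, Real.exp (-(K1 * X)) ≤ ‖f j z‖) ∧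
    Real.circleAverage (fun z => Real.posLog (‖deriv (f j) z‖ / ‖f j z‖)) c r ≤ del * T r

/-- good radii -/
def S_Rad : Prop := ∀ (F I : Type) [Field F] [Algebra F ℂ] [Countable F] [Fintype I] (d : ℕ)
  (C : ℝ) (u0 : Fin d → ℂ) (g : ℕ → I → ℂ → ℂ) (u : ℕ → Fin d → ℂ → ℂ) (a b : ℕ → ℝ)
  (c : ℕ → ℂ), Conf F C u0 g u a b → Cen F g u a b c → ∃ r : ℕ → ℝ, Rad F g u a c r

/-! ### Small quotients -/

/-- small quotients are well defined -/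
def S_s1 : Prop := ∀ (F I : Type) [Field F] [Algebra F ℂ] (d : ℕ) (C : ℝ) (u0 : Fin d → ℂ)
  (g : ℕ → I → ℂ → ℂ) (u : ℕ → Fin d → ℂ → ℂ) (a b : ℕ → ℝ) (c : ℕ → ℂ) (r : ℕ → ℝ),
  Conf F C u0 g u a b → Cen F g u a b c → Rad F g u a c r →
  ∀ P Q P' Q' : DP F I, ¬ Tiny g u a Q → ¬ Tiny g u a Q' → Tiny g u a (P * Q' - P' * Q) →
  sm g u c r P Q → sm g u c r P' Q'

/-- constants are small; products and sums of small quotients; powers; logarithmic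
derivatives -/
def S_s3 : Prop := ∀ (F I : Type) [Field F] [Algebra F ℂ] (d : ℕ) (C : ℝ) (u0 : Fin d → ℂ)
  (g : ℕ → I → ℂ → ℂ) (u : ℕ → Fin d → ℂ → ℂ) (a b : ℕ → ℝ) (c : ℕ → ℂ) (r : ℕ → ℝ),
  Conf F C u0 g u a b → Cen F g u a b c → Rad F g u a c r →
  (∀ x : F, sm g u c r (MvPolynomial.C x : DP F I) 1) ∧
  (∀ P Q P' Q' : DP F I, ¬ Tiny g u a Q → ¬ Tiny g u a Q' → sm g u c r P Q → sm g u c r P' Q' →
    sm g u c r (P * P') (Q * Q') ∧ sm g u c r (P * Q' + P' * Q) (Q * Q')) ∧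
  (∀ P Q : DP F I, ¬ Tiny g u a P → ¬ Tiny g u a Q →
    sm g u c r (dd P * Q - P * dd Q) (P * Q)) ∧
  (∀ (P Q : DP F I) (e : ℕ), ¬ Tiny g u a Q → e ≠ 0 → sm g u c r (P ^ e) (Q ^ e) →
    sm g u c r P Q)

/-- constants of the field are small -/
def S_s7 : Prop := ∀ (F I : Type) [Field F] [Algebra F ℂ] (d : ℕ) (C : ℝ) (u0 : Fin d → ℂ)
  (g : ℕ → I → ℂ → ℂ) (u : ℕ → Fin d → ℂ → ℂ) (a b : ℕ → ℝ) (c : ℕ → ℂ) (r : ℕ → ℝ),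
  Conf F C u0 g u a b → Cen F g u a b c → Rad F g u a c r →
  ∀ P Q : DP F I, ¬ Tiny g u a Q → Tiny g u a (dd P * Q - P * dd Q) → sm g u c r P Q

/-- not everything is small -/
def S_s8 : Prop := ∀ (F I : Type) [Field F] [Algebra F ℂ] (d : ℕ) (C : ℝ) (u0 : Fin d → ℂ)
  (g : ℕ → I → ℂ → ℂ) (u : ℕ → Fin d → ℂ → ℂ) (a b : ℕ → ℝ) (c : ℕ → ℂ) (r : ℕ → ℝ),
  Conf F C u0 g u a b → Cen F g u a b c → Rad F g u a c r → ∀ e e' : Fin d → I,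
  (∀ n i, ∀ z ∈ ball (0 : ℂ) 1, g n (e i) z = Complex.exp (u n i z)) →
  (∀ n i, ∀ z ∈ ball (0 : ℂ) 1, g n (e' i) z = Complex.exp (-(u n i z))) →
  ¬ ((∀ i, sm g u c r (MvPolynomial.X (e i, 0) : DP F I) 1) ∧
     (∀ i, sm g u c r (MvPolynomial.X (e' i, 0) : DP F I) 1))

/-- every element has finite order with respect to the characteristic -/
def S_fin : Prop := ∀ (F I : Type) [Field F] [Algebra F ℂ] (d : ℕ) (C : ℝ) (u0 : Fin d → ℂ)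
  (g : ℕ → I → ℂ → ℂ) (u : ℕ → Fin d → ℂ → ℂ) (a b : ℕ → ℝ) (c : ℕ → ℂ) (r : ℕ → ℝ),
  Conf F C u0 g u a b → Cen F g u a b c → Rad F g u a c r → ∀ P : DP F I, ∃ K : ℝ,
  ∀ᶠ n in UF, Real.circleAverage (fun z => Real.posLog ‖ev (g n) z P‖) (c n) (r n)
    ≤ K * TT (u n) (c n) (r n)

/-- properties of `lo` (Jensen) -/
def S_lo : Prop := ∀ (F I : Type) [Field F] [Algebra F ℂ] (d : ℕ) (C : ℝ) (u0 : Fin d → ℂ)
  (g : ℕ → I → ℂ → ℂ) (u : ℕ → Fin d → ℂ → ℂ) (a b : ℕ → ℝ) (c : ℕ → ℂ) (r : ℕ → ℝ),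
  Conf F C u0 g u a b → Cen F g u a b c → Rad F g u a c r →
  (∀ P Q P' Q' : DP F I, ¬ Tiny g u a P → ¬ Tiny g u a Q → ¬ Tiny g u a P' →
    ¬ Tiny g u a Q' → Tiny g u a (P * Q' - P' * Q) → lo g u c r P Q → lo g u c r P' Q') ∧
  (∀ P : DP F I, ¬ Tiny g u a P → lo g u c r P 1) ∧
  (∀ P Q P' Q' : DP F I, ¬ Tiny g u a P → ¬ Tiny g u a Q → ¬ Tiny g u a P' →
    ¬ Tiny g u a Q' → lo g u c r P Q → lo g u c r P' Q' → lo g u c r (P * P') (Q * Q')) ∧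
  (∀ P Q : DP F I, ¬ Tiny g u a P → ¬ Tiny g u a Q → sm g u c r P Q → lo g u c r Q P) ∧
  (∀ P Q : DP F I, ¬ Tiny g u a P → ¬ Tiny g u a Q → lo g u c r P Q → sm g u c r P Q →
    sm g u c r Q P)

/-- roots and `lo` -/
def S_lo2 : Prop := ∀ (F I : Type) [Field F] [Algebra F ℂ] (d : ℕ) (C : ℝ) (u0 : Fin d → ℂ)
  (g : ℕ → I → ℂ → ℂ) (u : ℕ → Fin d → ℂ → ℂ) (a b : ℕ → ℝ) (c : ℕ → ℂ) (r : ℕ → ℝ),
  Conf F C u0 g u a b → Cen F g u a b c → Rad F g u a c r →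
  ∀ A E P Q : DP F I, ¬ Tiny g u a A → ¬ Tiny g u a E → ¬ Tiny g u a P → ¬ Tiny g u a Q →
  (∀ k : ℕ, k ≠ 0 → lo g u c r (A * P ^ k) (E * Q ^ k)) → lo g u c r P Q

/-! ### Abstract construction -/

/-- extension of a derivation to the field of fractions of `R / T` -/
def S_DF : Prop := ∀ (F R : Type) [Field F] [CommRing R] [Algebra F R] (dl : Derivation F R R)
  (T : Ideal R), T.IsPrime → (∀ x ∈ T, dl x ∈ T) →
  ∃ (L : Type) (_ : Field L) (_ : Algebra F L) (D : Derivation F L L) (phi : R →ₐ[F] L),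
    (∀ x, phi x = 0 ↔ x ∈ T) ∧ (∀ x, D (phi x) = phi (dl x)) ∧
    (∀ f : L, ∃ x y, y ∉ T ∧ f = phi x / phi y)

/-- Taylor homomorphism and almost integral elements: the ring of almost integral elements over a
differential ring is closed under the derivation -/
def S_Seid : Prop := ∀ (F L : Type) [Field F] [CharZero F] [Field L] [Algebra F L]
  (D : Derivation F L L) (S : Subalgebra F L), (∀ f ∈ S, D f ∈ S) →
  ∀ f s : L, s ∈ S → (∀ k : ℕ, s * f ^ k ∈ S) → ∀ k : ℕ, s ^ 2 * (D f) ^ k ∈ S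

/-- Nevanlinna field from a prime differential ideal, a notion of small quotients and a notion of
quotients that are not too small in the mean -/
def S_AC : Prop := ∀ (F R : Type) [Field F] [CharZero F] [CommRing R] [Algebra F R]
  (dl : Derivation F R R) (T : Ideal R), T.IsPrime → (∀ x ∈ T, dl x ∈ T) →
  ∀ sml low : R → R → Prop,
  (∀ p q p' q', q ∉ T → q' ∉ T → p * q' - p' * q ∈ T → sml p q → sml p' q') →
  (∀ x : F, sml (algebraMap F R x) 1) →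
  (∀ p q p' q', q ∉ T → q' ∉ T → sml p q → sml p' q' →
    sml (p * p') (q * q') ∧ sml (p * q' + p' * q) (q * q')) →
  (∀ p q, p ∉ T → q ∉ T → sml (dl p * q - p * dl q) (p * q)) →
  (∀ p q, ∀ e : ℕ, q ∉ T → e ≠ 0 → sml (p ^ e) (q ^ e) → sml p q) →
  (∀ p q, q ∉ T → dl p * q - p * dl q ∈ T → sml p q) →
  (∀ p q p' q', p ∉ T → q ∉ T → p' ∉ T → q' ∉ T → p * q' - p' * q ∈ T →
    low p q → low p' q') →
  (∀ p, p ∉ T → low p 1) →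
  (∀ p q p' q', p ∉ T → q ∉ T → p' ∉ T → q' ∉ T → low p q → low p' q' →
    low (p * p') (q * q')) →
  (∀ p q, p ∉ T → q ∉ T → sml p q → low q p) →
  (∀ p q, p ∉ T → q ∉ T → low p q → sml p q → sml q p) →
  (∀ x y p q, x ∉ T → y ∉ T → p ∉ T → q ∉ T →
    (∀ k : ℕ, k ≠ 0 → low (x * p ^ k) (y * q ^ k)) → low p q) →
  ∃ (L : Type) (_ : Field L) (_ : Algebra F L) (D : Derivation F L L) (S Sm : Subalgebra F L)
    (phi : R →ₐ[F] L), IsNev D S Sm ∧ (∀ x, phi x ∈ S) ∧ (∀ x, phi x = 0 ↔ x ∈ T) ∧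
    (∀ x y, y ∉ T → (phi x / phi y ∈ Sm ↔ sml x y))

end

end Pool.Agent.Work.MP_6d7a54_an.NF
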