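import Mathlib
import Pool.Agent.Work.MP_6d7a54_an.NF.Stmts

/-!
# Nevanlinna fields: the abstract construction (MP_6d7a54_an)
-/

namespace Pool.Agent.Work.MP_6d7a54_an.NF

noncomputable section

namespace ACx

/-- the set of small elements, as a predicate -/
def SmP {R L : Type} [CommRing R] [Field L] (phi : R →+* L) (T : Ideal R) (sml : R → R → Prop)
    (f : L) : Prop := ∃ x y, y ∉ T ∧ f = phi x / phi y ∧ sml x y

/-- the nonzero elements which are not too small in the mean -/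
def LowP {R L : Type} [CommRing R] [Field L] (phi : R →+* L) (T : Ideal R) (low : R → R → Prop)
    (f : L) : Prop := ∃ x y, x ∉ T ∧ y ∉ T ∧ f = phi x / phi y ∧ low x y

section basic

variable {R L : Type} [CommRing R] [Field L] {phi : R →+* L} {T : Ideal R}

theorem mem_of_div_eq (hker : ∀ x, phi x = 0 ↔ x ∈ T) {x y p q : R} (hy : y ∉ T) (hq : q ∉ T)
    (h : phi x / phi y = phi p / phi q) : x * q - p * y ∈ T := by
  have hy' : phi y ≠ 0 := fun h' => hy ((hker _).mp h')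
  have hq' : phi q ≠ 0 := fun h' => hq ((hker _).mp h')
  rw [← hker, map_sub, map_mul, map_mul, sub_eq_zero]
  rwa [div_eq_div_iff hy' hq'] at h

theorem sm_wd (hker : ∀ x, phi x = 0 ↔ x ∈ T) {sml : R → R → Prop}
    (s1 : ∀ p q p' q', q ∉ T → q' ∉ T → p * q' - p' * q ∈ T → sml p q → sml p' q')
    {f : L} (hf : SmP phi T sml f) {p q : R} (hq : q ∉ T) (h : f = phi p / phi q) : sml p q := by
  obtain ⟨x, y, hy, rfl, hs⟩ := hf
  exact s1 x y p q hy hq (mem_of_div_eq hker hy hq h) hs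

theorem low_wd (hker : ∀ x, phi x = 0 ↔ x ∈ T) {low : R → R → Prop}
    (l1 : ∀ p q p' q', p ∉ T → q ∉ T → p' ∉ T → q' ∉ T → p * q' - p' * q ∈ T →
      low p q → low p' q')
    {f : L} (hf : LowP phi T low f) {p q : R} (hp : p ∉ T) (hq : q ∉ T)
    (h : f = phi p / phi q) : low p q := by
  obtain ⟨x, y, hx, hy, rfl, hs⟩ := hf
  exact l1 x y p q hx hy hp hq (mem_of_div_eq hker hy hq h) hs

end basic

end ACx

open ACx in
theorem AC_proof (h1 : S_DF) (h2 : S_Seid) : S_AC := by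
  intro F R _ _ _ _ dl T hT hdl sml low s1 s2 s3 s4 s5 s6 l1 l2 l3 l4 l5 l6
  obtain ⟨L, iL, iA, D, phi, hker, hD, hfr⟩ := h1 F R dl T hT hdl
  have hmul : ∀ {x y : R}, x ∉ T → y ∉ T → x * y ∉ T := fun hx hy h =>
    (hT.mem_or_mem h).elim hx hy
  have hone : (1 : R) ∉ T := fun h => hT.ne_top ((Ideal.eq_top_iff_one T).mpr h)
  have hpow : ∀ {x : R} (k : ℕ), x ∉ T → x ^ k ∉ T := fun k hx h =>
    hx (hT.mem_of_pow_mem k h)
  have hne : ∀ {x : R}, x ∉ T → phi x ≠ 0 := fun hx h => hx ((hker _).mp h)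
  have hker' : ∀ x, (phi : R →+* L) x = 0 ↔ x ∈ T := hker
  set Ph : R →+* L := (phi : R →+* L) with hPh
  have hPhx : ∀ x, Ph x = phi x := fun x => rfl
  have nz : ∀ {f : L} {x y : R}, f ≠ 0 → f = phi x / phi y → x ∉ T := by
    intro f x y hf h hx
    rw [(hker x).mpr hx, zero_div] at h
    exact hf h
  -- small elements
  let Sm : Subalgebra F L :=
    { carrier := {f | SmP Ph T sml f}
      mul_mem' := by
        rintro _ _ ⟨x, y, hy, rfl, hs⟩ ⟨x', y', hy', rfl, hs'⟩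
        refine ⟨x * x', y * y', hmul hy hy', ?_, (s3 x y x' y' hy hy' hs hs').1⟩
        rw [map_mul, map_mul, div_mul_div_comm]
      add_mem' := by
        rintro _ _ ⟨x, y, hy, rfl, hs⟩ ⟨x', y', hy', rfl, hs'⟩
        refine ⟨x * y' + x' * y, y * y', hmul hy hy', ?_, (s3 x y x' y' hy hy' hs hs').2⟩
        have hy0 : Ph y ≠ 0 := hne hy
        have hy0' : Ph y' ≠ 0 := hne hy'
        rw [map_mul, map_add, map_mul, map_mul, div_add_div _ _ hy0 hy0', mul_comm (Ph y) (Ph x')]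
      algebraMap_mem' := by
        intro r
        refine ⟨algebraMap F R r, 1, hone, ?_, s2 r⟩
        rw [map_one, div_one, hPhx]
        exact (phi.commutes r).symm }
  have memSm : ∀ f : L, f ∈ Sm ↔ SmP Ph T sml f := fun f => Iff.rfl
  let Low : L → Prop := LowP Ph T low
  have low_mul : ∀ {f g : L}, Low f → Low g → Low (f * g) := by
    rintro _ _ ⟨x, y, hx, hy, rfl, hs⟩ ⟨x', y', hx', hy', rfl, hs'⟩
    refine ⟨x * x', y * y', hmul hx hx', hmul hy hy', ?_, l3 x y x' y' hx hy hx' hy' hs hs'⟩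
    rw [map_mul, map_mul, div_mul_div_comm]
  have low_phi : ∀ {x : R}, x ∉ T → Low (phi x) := by
    intro x hx
    refine ⟨x, 1, hx, hone, ?_, l2 x hx⟩
    rw [map_one, div_one]
    rfl
  have low_inv : ∀ {f : L}, f ≠ 0 → f ∈ Sm → Low f⁻¹ := by
    rintro f hf0 ⟨x, y, hy, h, hs⟩
    have hx : x ∉ T := nz hf0 h
    refine ⟨y, x, hy, hx, ?_, l4 x y hx hy hs⟩
    rw [h, inv_div]
  have sm_inv : ∀ {f : L}, f ≠ 0 → f ∈ Sm → Low f → f⁻¹ ∈ Sm := by
    rintro f hf0 ⟨x, y, hy, h, hs⟩ hl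
    have hx : x ∉ T := nz hf0 h
    refine ⟨y, x, hx, ?_, l5 x y hx hy (low_wd hker' l1 hl hx hy h) hs⟩
    rw [h, inv_div]
  have low_root : ∀ {s f : L}, s ≠ 0 → f ≠ 0 → (∀ k : ℕ, k ≠ 0 → Low (s * f ^ k)) → Low f := by
    intro s f hs0 hf0 h
    obtain ⟨x, y, hy, hs⟩ := hfr s
    obtain ⟨p, q, hq, hf⟩ := hfr f
    have hx : x ∉ T := nz hs0 hs
    have hp : p ∉ T := nz hf0 hf
    refine ⟨p, q, hp, hq, hf, l6 x y p q hx hy hp hq fun k hk => ?_⟩
    refine low_wd hker' l1 (h k hk) (hmul hx (hpow k hp)) (hmul hy (hpow k hq)) ?_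
    rw [hs, hf, map_mul, map_mul, map_pow, map_pow, div_pow, div_mul_div_comm]
    rfl
  -- Zorn
  let Good : Set (Subalgebra F L) :=
    {A | (∀ x, phi x ∈ A) ∧ (∀ f ∈ A, D f ∈ A) ∧ ∀ f ∈ A, f ≠ 0 → Low f}
  have hG0 : phi.range ∈ Good := by
    refine ⟨fun x => ⟨x, rfl⟩, ?_, ?_⟩
    · rintro _ ⟨x, rfl⟩
      exact ⟨dl x, (hD x).symm⟩
    · rintro _ ⟨x, rfl⟩ h0
      exact low_phi fun hx => h0 ((hker x).mpr hx)
  have hchain : ∀ c ⊆ Good, IsChain (· ≤ ·) c → ∀ y ∈ c, ∃ ub ∈ Good, ∀ z ∈ c, z ≤ ub := by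
    intro c hc hch A0 hA0
    have : Nonempty c := ⟨⟨A0, hA0⟩⟩
    have hdir : Directed (· ≤ ·) (fun A : c => (A : Subalgebra F L)) := by
      intro A B
      rcases hch.total A.2 B.2 with h | h
      · exact ⟨B, h, le_rfl⟩
      · exact ⟨A, le_rfl, h⟩
    have hmem : ∀ f : L, f ∈ (⨆ A : c, (A : Subalgebra F L)) ↔ ∃ A : c, f ∈ (A : Subalgebra F L) :=
      fun f => by
        rw [← SetLike.mem_coe, Subalgebra.coe_iSup_of_directed hdir, Set.mem_iUnion]
        rfl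
    refine ⟨⨆ A : c, (A : Subalgebra F L), ⟨?_, ?_, ?_⟩, fun z hz =>
      le_iSup (fun A : c => (A : Subalgebra F L)) ⟨z, hz⟩⟩
    · intro x
      exact (hmem _).mpr ⟨⟨A0, hA0⟩, (hc hA0).1 x⟩
    · intro f hf
      obtain ⟨A, hA⟩ := (hmem f).mp hf
      exact (hmem _).mpr ⟨A, (hc A.2).2.1 f hA⟩
    · intro f hf hf0
      obtain ⟨A, hA⟩ := (hmem f).mp hf
      exact (hc A.2).2.2 f hA hf0
  obtain ⟨S, -, hmax⟩ := zorn_le_nonempty₀ Good hchain _ hG0
  have hSG : S ∈ Good := hmax.prop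
  obtain ⟨hSphi, hSD, hSlow⟩ := hSG
  have hle : ∀ A : Subalgebra F L, A ∈ Good → S ≤ A → A ≤ S := fun A hA hSA => hmax.le_of_ge hA hSA
  -- inversion of small elements
  have hinv : ∀ f : L, f ≠ 0 → f ∈ S → f ∈ Sm → f⁻¹ ∈ S := by
    let A : Subalgebra F L :=
      { carrier := {f | ∃ g h : L, g ∈ S ∧ h ∈ S ∧ h ∈ Sm ∧ h ≠ 0 ∧ f = g / h}
        mul_mem' := by
          rintro _ _ ⟨g, h, hg, hh, hm, h0, rfl⟩ ⟨g', h', hg', hh', hm', h0', rfl⟩
          exact ⟨g * g', h * h', mul_mem hg hg', mul_mem hh hh', mul_mem hm hm',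
            mul_ne_zero h0 h0', div_mul_div_comm _ _ _ _⟩
        add_mem' := by
          rintro _ _ ⟨g, h, hg, hh, hm, h0, rfl⟩ ⟨g', h', hg', hh', hm', h0', rfl⟩
          exact ⟨g * h' + h * g', h * h', add_mem (mul_mem hg hh') (mul_mem hh hg'),
            mul_mem hh hh', mul_mem hm hm', mul_ne_zero h0 h0', div_add_div _ _ h0 h0'⟩
        algebraMap_mem' := fun r => ⟨algebraMap F L r, 1, S.algebraMap_mem r, one_mem _,
          one_mem _, one_ne_zero, (div_one _).symm⟩ }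
    have hSA : S ≤ A := fun g hg => ⟨g, 1, hg, one_mem _, one_mem _, one_ne_zero, (div_one _).symm⟩
    have hA : A ∈ Good := by
      refine ⟨fun x => hSA (hSphi x), ?_, ?_⟩
      · rintro _ ⟨g, h, hg, hh, hm, h0, rfl⟩
        refine ⟨D g * h - g * D h, h * h, sub_mem (mul_mem (hSD g hg) hh) (mul_mem hg (hSD h hh)),
          mul_mem hh hh, mul_mem hm hm, mul_ne_zero h0 h0, ?_⟩
        rw [Derivation.leibniz_div, smul_eq_mul, smul_eq_mul, smul_eq_mul]
        field_simp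
      · rintro _ ⟨g, h, hg, hh, hm, h0, rfl⟩ hf0
        have hg0 : g ≠ 0 := fun h' => hf0 (by rw [h', zero_div])
        rw [div_eq_mul_inv]
        exact low_mul (hSlow g hg hg0) (low_inv h0 hm)
    intro f hf0 hfS hfm
    exact hle A hA hSA ⟨1, f, one_mem _, hfS, hfm, hf0, (one_div f).symm⟩
  -- complete integral closedness
  have hcic : ∀ f s : L, s ∈ S → s ≠ 0 → (∀ k : ℕ, s * f ^ k ∈ S) → f ∈ S := by
    let A : Subalgebra F L :=
      { carrier := {f | ∃ s : L, s ∈ S ∧ s ≠ 0 ∧ ∀ k : ℕ, s * f ^ k ∈ S}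
        mul_mem' := by
          rintro f g ⟨s, hs, hs0, hf⟩ ⟨t, ht, ht0, hg⟩
          refine ⟨s * t, mul_mem hs ht, mul_ne_zero hs0 ht0, fun k => ?_⟩
          have : s * t * (f * g) ^ k = (s * f ^ k) * (t * g ^ k) := by
            rw [mul_pow]; ring
          rw [this]
          exact mul_mem (hf k) (hg k)
        add_mem' := by
          rintro f g ⟨s, hs, hs0, hf⟩ ⟨t, ht, ht0, hg⟩
          refine ⟨s * t, mul_mem hs ht, mul_ne_zero hs0 ht0, fun k => ?_⟩
          rw [add_pow, Finset.mul_sum]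
          refine sum_mem fun i _ => ?_
          have : s * t * (f ^ i * g ^ (k - i) * (k.choose i : L)) =
              (s * f ^ i) * (t * g ^ (k - i)) * (k.choose i : L) := by ring
          rw [this]
          exact mul_mem (mul_mem (hf i) (hg _)) (natCast_mem S _)
        algebraMap_mem' := fun r => ⟨1, one_mem _, one_ne_zero, fun k => by
          rw [one_mul]
          exact pow_mem (S.algebraMap_mem r) k⟩ }
    have hSA : S ≤ A := fun g hg => ⟨1, one_mem _, one_ne_zero, fun k => by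
      rw [one_mul]
      exact pow_mem hg k⟩
    have hA : A ∈ Good := by
      refine ⟨fun x => hSA (hSphi x), ?_, ?_⟩
      · rintro f ⟨s, hs, hs0, hf⟩
        exact ⟨s ^ 2, pow_mem hs 2, pow_ne_zero 2 hs0, h2 F L D S hSD f s hs hf⟩
      · rintro f ⟨s, hs, hs0, hf⟩ hf0
        exact low_root hs0 hf0 fun k _ => hSlow _ (hf k) (mul_ne_zero hs0 (pow_ne_zero k hf0))
    intro f s hs hs0 hf
    exact hle A hA hSA ⟨s, hs, hs0, hf⟩
  have hDq : ∀ p q : R, q ∉ T → D (phi p / phi q) =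
      phi (dl p * q - p * dl q) / (phi q * phi q) := by
    intro p q hq
    have hq0 := hne hq
    rw [Derivation.leibniz_div, smul_eq_mul, smul_eq_mul, smul_eq_mul, hD, hD, map_sub, map_mul,
      map_mul]
    field_simp
  refine ⟨L, iL, iA, D, S, Sm, phi, ⟨hSD, ?_, ?_, ?_, ?_, hcic⟩, hSphi, hker, ?_⟩
  · intro f
    by_cases hf0 : f = 0
    · rw [hf0, map_zero, zero_mul]
      exact zero_mem _
    obtain ⟨p, q, hq, hf⟩ := hfr f
    have hp : p ∉ T := nz hf0 hf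
    refine ⟨dl p * q - p * dl q, p * q, hmul hp hq, ?_, s4 p q hp hq⟩
    have hq0 := hne hq
    have hp0 := hne hp
    rw [hf, hDq p q hq, hPhx, hPhx, map_mul phi p q]
    field_simp
  · intro f hfS hfm
    by_cases hf0 : f = 0
    · rw [hf0, inv_zero]
      exact ⟨zero_mem _, zero_mem _⟩
    exact ⟨hinv f hf0 hfS hfm, sm_inv hf0 hfm (hSlow f hfS hf0)⟩
  · intro f d hd hf
    obtain ⟨p, q, hq, hfe⟩ := hfr f
    refine ⟨p, q, hq, hfe, s5 p q d hq hd ?_⟩
    refine sm_wd hker' s1 hf (hpow d hq) ?_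
    rw [hfe, div_pow, map_pow, map_pow]
    rfl
  · intro f hf
    obtain ⟨p, q, hq, hfe⟩ := hfr f
    refine ⟨p, q, hq, hfe, s6 p q hq ?_⟩
    rw [hfe, hDq p q hq, div_eq_zero_iff] at hf
    rcases hf with hf | hf
    · exact (hker _).mp hf
    · exact absurd hf (mul_ne_zero (hne hq) (hne hq))
  · intro x y hy
    exact ⟨fun h => sm_wd hker' s1 h hy rfl, fun h => ⟨x, y, hy, rfl, h⟩⟩

end

end Pool.Agent.Work.MP_6d7a54_an.NF
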