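import Pool.Agent.Work.MP_6d7a54_an.NF.Stmts

/-!
# Properties of the growth function
-/

set_option autoImplicit false

namespace Pool.Agent.Work.MP_6d7a54_an.NF

open Filter Metric Set Topology

namespace Mxx

lemma mx_nonneg (v : ℂ → ℂ) (rho : ℝ) : 0 ≤ mx v rho := by
  unfold mx
  refine Real.sSup_nonneg ?_
  rintro _ ⟨z, _, rfl⟩
  exact norm_nonneg _

lemma bdd {v : ℂ → ℂ} (hv : DifferentiableOn ℂ v (ball 0 1)) {rho : ℝ} (h : rho < 1) :
    BddAbove ((fun z => ‖v z - v 0‖) '' closedBall 0 rho) := by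
  refine IsCompact.bddAbove_image (isCompact_closedBall 0 rho) ?_
  have h1 : ContinuousOn v (closedBall 0 rho) :=
    hv.continuousOn.mono (closedBall_subset_ball h)
  exact (h1.sub continuousOn_const).norm

lemma le_mx {v : ℂ → ℂ} (hv : DifferentiableOn ℂ v (ball 0 1)) {rho : ℝ} (h : rho < 1) {z : ℂ}
    (hz : ‖z‖ ≤ rho) : ‖v z - v 0‖ ≤ mx v rho :=
  le_csSup (bdd hv h) ⟨z, by simpa using hz, rfl⟩

lemma mx_le {v : ℂ → ℂ} {rho V : ℝ} (hV : 0 ≤ V) (h : ∀ z : ℂ, ‖z‖ ≤ rho → ‖v z - v 0‖ ≤ V) :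
    mx v rho ≤ V := by
  refine Real.sSup_le ?_ hV
  rintro _ ⟨z, hz, rfl⟩
  exact h z (by simpa using hz)

lemma schwarz {v : ℂ → ℂ} (hv : DifferentiableOn ℂ v (ball 0 1)) {th rho : ℝ} (h0 : 0 < th)
    (h1 : th ≤ 1) (hr : 0 < rho) (hr1 : rho < 1) : mx v (th * rho) ≤ th * mx v rho := by
  rcases h1.eq_or_lt with h | h
  · rw [h, one_mul, one_mul]
  refine mx_le (mul_nonneg h0.le (mx_nonneg _ _)) fun z hz => ?_
  have hlt : th * rho < rho := by nlinarith
  have hzb : z ∈ ball (0 : ℂ) rho := by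
    rw [mem_ball_zero_iff]
    exact hz.trans_lt hlt
  have hm : MapsTo v (ball 0 rho) (closedBall (v 0) (mx v rho)) := by
    intro w hw
    rw [mem_ball_zero_iff] at hw
    rw [mem_closedBall, dist_eq_norm]
    exact le_mx hv hr1 hw.le
  have h2 := Complex.dist_le_div_mul_dist_of_mapsTo_ball (hv.mono (ball_subset_ball hr1.le)) hm hzb
  rw [dist_eq_norm, dist_zero_right] at h2
  refine h2.trans ?_
  have hM := mx_nonneg v rho
  have h3 : mx v rho / rho * ‖z‖ ≤ mx v rho / rho * (th * rho) :=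
    mul_le_mul_of_nonneg_left hz (by positivity)
  refine h3.trans (le_of_eq ?_)
  field_simp

end Mxx

open Mxx

theorem Mx_proof : S_Mx := by
  intro d u hu
  refine ⟨fun rho => Finset.sum_nonneg fun i _ => mx_nonneg _ _, ?_, ?_, ?_⟩
  · intro rho z hr hz
    exact Finset.sum_le_sum fun i _ => le_mx (hu i) hr hz
  · intro th rho h0 h1 hr hr1
    unfold Mx
    rw [Finset.mul_sum]
    exact Finset.sum_le_sum fun i _ => schwarz (hu i) h0 h1 hr hr1
  · intro rho V hV h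
    exact Finset.sum_le_sum fun i _ => mx_le (hV i) (h i)

end Pool.Agent.Work.MP_6d7a54_an.NF
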