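import Pool.Agent.Work.MP_6d7a54_an.NF.StmtsB

/-!
# Item 2A: second step, case of a ramified point
-/

namespace Pool.Agent.Work.MP_6d7a54_an.NF

open MvPolynomial

noncomputable section

namespace B2Ax

/-- chain rule -/
theorem chain {F A : Type} [Field F] [CommRing A] [Algebra F A] (D : Derivation ℤ A A)
    (hD : ∀ x : F, D (algebraMap F A x) = 0) (w : Fin 3 → A) (P : MvPolynomial (Fin 3) F) :
    D (aeval w P) = ∑ j, aeval w (pderiv j P) * D (w j) := by
  induction P using MvPolynomial.induction_on with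
  | C a =>
    have h : aeval w (C a : MvPolynomial (Fin 3) F) = algebraMap F A a := aeval_C _ _
    rw [h, hD]
    simp
  | add p q hp hq => simp only [map_add, hp, hq, add_mul, Finset.sum_add_distrib]
  | mul_X p i hp =>
    rw [map_mul, aeval_X, Derivation.leibniz, hp]
    simp only [Derivation.leibniz, pderiv_X, smul_eq_mul, map_add, map_mul, aeval_X, add_mul,
      Finset.sum_add_distrib]
    congr 1
    · rw [Finset.sum_eq_single i]
      · rw [Pi.single_eq_same, map_one, mul_one]
      · intro j _ hj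
        rw [Pi.single_eq_of_ne hj.symm, map_zero, mul_zero, zero_mul]
      · intro h
        exact absurd (Finset.mem_univ i) h
    · rw [Finset.mul_sum]
      refine Finset.sum_congr rfl fun j _ => ?_
      ring

/-- derivative of powers of a unit -/
theorem dpow {A : Type} [CommRing A] (D : Derivation ℤ A A) {x s : A} (h : D x = s * x) (n : ℕ) :
    D (x ^ n) = (n : A) * s * x ^ n := by
  induction n with
  | zero => simp
  | succ n ih =>
    rw [pow_succ, Derivation.leibniz, ih, h, smul_eq_mul, smul_eq_mul]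
    push_cast
    ring

theorem dinv {A : Type} [CommRing A] (D : Derivation ℤ A A) {x y s : A} (hxy : x * y = 1)
    (h : D x = s * x) : D y = -s * y := by
  have h1 : D (x * y) = 0 := by
    rw [hxy]
    exact D.map_one_eq_zero
  rw [Derivation.leibniz, smul_eq_mul, smul_eq_mul, h] at h1
  linear_combination y * h1 - (D y + s * y) * hxy

theorem dzpow {A : Type} [CommRing A] (D : Derivation ℤ A A) {x : Aˣ} {s : A}
    (h : D (x : A) = s * x) (m : ℤ) :
    D ((x ^ m : Aˣ) : A) = (m : A) * s * ((x ^ m : Aˣ) : A) := by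
  cases m with
  | ofNat n =>
    simp only [Int.ofNat_eq_natCast, zpow_natCast, Units.val_pow_eq_pow_val, Int.cast_natCast]
    exact dpow D h n
  | negSucc n =>
    have h1 := dpow D h (n + 1)
    have h2 := dinv D (x := (x : A) ^ (n + 1)) (y := ((x ^ (Int.negSucc n) : Aˣ) : A)) (by
      rw [zpow_negSucc, ← Units.val_pow_eq_pow_val, Units.mul_inv]) h1
    rw [h2]
    push_cast
    ring

section

variable {F K R : Type} [Field F] [Field K] [CommRing R] [IsDomain R] [Algebra F K] [Algebra K R]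
  {dl : Derivation ℤ K K} {dR : Derivation ℤ R R}

theorem inj (a : K) (h : algebraMap K R a = 0) : a = 0 :=
  (algebraMap K R).injective (by rw [h, map_zero])

theorem notK (hNR : NR F K R dl dR) {tau : Rˣ} (hK : ¬ InK K (tau : R)) {m : ℤ} (hm : m ≠ 0)
    {kap : K} (hk : kap ≠ 0) : ¬ InK K (algebraMap K R kap * ((tau ^ m : Rˣ) : R)) := by
  rintro ⟨b, hb⟩
  have h1 : ((tau ^ m : Rˣ) : R) = algebraMap K R (kap⁻¹ * b) := by
    rw [map_mul, ← hb, ← mul_assoc, ← map_mul, inv_mul_cancel₀ hk, map_one, one_mul]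
  cases m with
  | ofNat n =>
    have hn : n ≠ 0 := by
      rintro rfl
      exact hm rfl
    refine hK (hNR.root _ n hn ⟨kap⁻¹ * b, ?_⟩)
    rw [← h1]
    simp
  | negSucc n =>
    have h2 : (((tau⁻¹ : Rˣ) : R)) ^ (n + 1) = algebraMap K R (kap⁻¹ * b) := by
      rw [← h1, zpow_negSucc, ← inv_pow]
      simp
    obtain ⟨c, hc⟩ := hNR.root _ (n + 1) (Nat.succ_ne_zero n) ⟨_, h2⟩
    have hc0 : c ≠ 0 := by
      rintro rfl
      rw [map_zero] at hc
      exact (tau⁻¹).ne_zero hc
    refine hK ⟨c⁻¹, ?_⟩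
    have h3 : (tau : R) * algebraMap K R c = 1 := by
      rw [← hc]
      exact tau.mul_inv
    calc (tau : R) = (tau : R) * (algebraMap K R c * algebraMap K R c⁻¹) := by
          rw [← map_mul, mul_inv_cancel₀ hc0, map_one, mul_one]
      _ = ((tau : R) * algebraMap K R c) * algebraMap K R c⁻¹ := by ring
      _ = _ := by rw [h3, one_mul]

/-- the derivation on an algebraic extension differs from the one of the ring -/
theorem claim (hNR : NR F K R dl dR) {tau : Rˣ} (hK : ¬ InK K (tau : R)) {t : K}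
    (ht : dR (tau : R) = algebraMap K R t * tau) {E : Type} [Field E] [Algebra K E]
    (de : Derivation ℤ E E) (hde : ∀ a : K, de (algebraMap K E a) = algebraMap K E (dl a))
    {T0 : E} (hT0 : T0 ≠ 0) (halg : IsAlgebraic K T0) : de T0 ≠ algebraMap K E t * T0 := by
  intro hd
  have hint : IsIntegral K T0 := halg.isIntegral
  obtain ⟨pi, hpi⟩ : ∃ pi, pi = minpoly K T0 := ⟨_, rfl⟩
  obtain ⟨d, hdd⟩ : ∃ d, d = pi.natDegree := ⟨_, rfl⟩
  have hmon : pi.Monic := by
    rw [hpi]
    exact minpoly.monic hint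
  have hroot : Polynomial.aeval T0 pi = 0 := by
    rw [hpi]
    exact minpoly.aeval K T0
  have hd0 : d ≠ 0 := by
    rw [hdd, hpi]
    exact (minpoly.natDegree_pos hint).ne'
  obtain ⟨rho, hrho⟩ : ∃ rho : Polynomial K, rho = ∑ i ∈ Finset.range (d + 1),
      Polynomial.C (dl (pi.coeff i) + (i : K) * t * pi.coeff i) * Polynomial.X ^ i := ⟨_, rfl⟩
  have hrc : ∀ i, rho.coeff i = if i < d + 1 then dl (pi.coeff i) + (i : K) * t * pi.coeff i
      else 0 := by
    intro i
    rw [hrho, Polynomial.finsetSum_coeff]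
    simp only [Polynomial.coeff_C_mul_X_pow]
    rw [Finset.sum_ite_eq (Finset.range (d + 1)) i]
    simp only [Finset.mem_range]
  have hrr : Polynomial.aeval T0 rho = 0 := by
    have h1 : de (Polynomial.aeval T0 pi) = 0 := by rw [hroot, map_zero]
    rw [Polynomial.aeval_eq_sum_range, ← hdd, map_sum] at h1
    rw [hrho, map_sum, ← h1]
    refine Finset.sum_congr rfl fun i _ => ?_
    rw [map_mul, Polynomial.aeval_C, map_pow, Polynomial.aeval_X, Algebra.smul_def,
      Derivation.leibniz, dpow de hd, hde, smul_eq_mul, smul_eq_mul, map_add, map_mul, map_mul,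
      map_natCast]
    ring
  have hsig : rho - Polynomial.C ((d : K) * t) * pi = 0 := by
    by_contra hne
    have h1 := minpoly.degree_le_of_ne_zero K T0 hne (by
      rw [map_sub, map_mul, hroot, hrr, mul_zero, sub_zero])
    have h2 : (rho - Polynomial.C ((d : K) * t) * pi).degree < (minpoly K T0).degree := by
      rw [← hpi, Polynomial.degree_eq_natDegree hmon.ne_zero, ← hdd,
        Polynomial.degree_lt_iff_coeff_zero]
      intro i hi
      rw [Polynomial.coeff_sub, Polynomial.coeff_C_mul, hrc]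
      rcases Nat.eq_or_lt_of_le hi with h | h
      · have h3 : pi.coeff i = 1 := by
          rw [← h, hdd]
          exact hmon
        rw [if_pos (by omega), h3, ← h, dl.map_one_eq_zero]
        ring
      · rw [if_neg (by omega), Polynomial.coeff_eq_zero_of_natDegree_lt (by omega)]
        ring
    exact absurd h1 (not_le.2 h2)
  have ha0 : pi.coeff 0 ≠ 0 := by
    rw [hpi]
    exact minpoly.coeff_zero_ne_zero hint hT0
  have hda0 : dl (pi.coeff 0) = (d : K) * t * pi.coeff 0 := by
    have h1 := congrArg (fun p : Polynomial K => p.coeff 0) hsig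
    simp only [Polynomial.coeff_sub, Polynomial.coeff_C_mul, hrc, Polynomial.coeff_zero] at h1
    rw [if_pos (by omega)] at h1
    simp only [Nat.cast_zero, zero_mul, add_zero] at h1
    exact sub_eq_zero.1 h1
  obtain ⟨b, hb⟩ := hNR.const ((tau : R) ^ d) (pi.coeff 0)⁻¹ (tau.isUnit.pow d)
    (inv_ne_zero ha0) (by
      rw [Derivation.leibniz, dpow dR ht, hNR.comp, Derivation.leibniz_inv, hda0, smul_eq_mul,
        smul_eq_mul, smul_eq_mul]
      have h1 : -(pi.coeff 0)⁻¹ ^ 2 * ((d : K) * t * pi.coeff 0) =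
          -((d : K) * t * (pi.coeff 0)⁻¹) := by
        field_simp
      rw [h1, map_neg, map_mul, map_mul, map_natCast]
      ring)
  exact hK (hNR.root _ d hd0 ⟨b, hb⟩)

end

/-- proportionality of two vectors orthogonal to two independent vectors -/
theorem minors {Om : Type} [Field Om] [CharZero Om] {x : Fin 3 → Om} {i m : Fin 3 → ℤ}
    {dg : Fin 3 → ℕ} (hd : 1 ≤ dg 2) (hm2 : m 2 = 0) (hm : m ≠ 0)
    (h1 : ∑ a, i a * (dg a : ℤ) = 0) (h2 : ∑ a, i a * m a = 0)
    (h3 : ∑ a, x a * (dg a : Om) = 0) (h4 : ∑ a, x a * (m a : Om) = 0) (a b : Fin 3) :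
    x a * (i b : Om) = x b * (i a : Om) := by
  rw [Fin.sum_univ_three] at h1 h2 h3 h4
  have e1 : (i 0 : Om) * (dg 0 : Om) + (i 1 : Om) * (dg 1 : Om) + (i 2 : Om) * (dg 2 : Om) = 0 := by
    exact_mod_cast congrArg (Int.cast : ℤ → Om) h1
  have e2 : (i 0 : Om) * (m 0 : Om) + (i 1 : Om) * (m 1 : Om) = 0 := by
    rw [hm2, mul_zero, add_zero] at h2
    exact_mod_cast congrArg (Int.cast : ℤ → Om) h2
  rw [hm2, Int.cast_zero, mul_zero, add_zero] at h4
  have hd' : (dg 2 : Om) ≠ 0 := by
    have : dg 2 ≠ 0 := by omega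
    exact_mod_cast this
  have hm' : (m 0 : Om) ≠ 0 ∨ (m 1 : Om) ≠ 0 := by
    by_contra h
    rw [not_or, not_not, not_not, Int.cast_eq_zero, Int.cast_eq_zero] at h
    apply hm
    funext j
    fin_cases j
    · exact h.1
    · exact h.2
    · exact hm2
  have k01 : x 0 * (i 1 : Om) = x 1 * (i 0 : Om) := by
    rcases hm' with h | h
    · apply mul_left_cancel₀ h
      linear_combination (i 1 : Om) * h4 - x 1 * e2
    · apply mul_left_cancel₀ h
      linear_combination x 0 * e2 - (i 0 : Om) * h4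
  have k02 : x 0 * (i 2 : Om) = x 2 * (i 0 : Om) := by
    apply mul_left_cancel₀ hd'
    linear_combination x 0 * e1 - (i 0 : Om) * h3 - (dg 1 : Om) * k01
  have k12 : x 1 * (i 2 : Om) = x 2 * (i 1 : Om) := by
    apply mul_left_cancel₀ hd'
    linear_combination x 1 * e1 - (i 1 : Om) * h3 + (dg 0 : Om) * k01
  fin_cases a <;> fin_cases b
  · rfl
  · exact k01
  · exact k02
  · exact k01.symm
  · rfl
  · exact k12
  · exact k02.symm
  · exact k12.symm
  · rfl

section

variable {F K R Om : Type} [Field F] [Field K] [CommRing R] [Field Om] [Algebra F K] [Algebra K R]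
  [Algebra K Om] [Algebra F Om]

theorem vq_th (th : R →+* Om) (hKO : ∀ a : K, algebraMap K Om a = th (algebraMap K R a))
    (hFO : ∀ x : F, algebraMap F Om x = algebraMap K Om (algebraMap F K x)) (q : Fin 3 → R)
    (P : MvPolynomial (Fin 3) F) : th (vq K q P) = aeval (fun j => th (q j)) P := by
  have h : th.comp (((aeval q : MvPolynomial (Fin 3) K →ₐ[K] R) :
      MvPolynomial (Fin 3) K →+* R).comp (MvPolynomial.map (algebraMap F K))) =
      ((aeval (fun j => th (q j)) : MvPolynomial (Fin 3) F →ₐ[F] Om) :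
        MvPolynomial (Fin 3) F →+* Om) := by
    refine MvPolynomial.ringHom_ext (fun x => ?_) (fun i => ?_)
    · simp [hFO, hKO]
    · simp
  exact RingHom.congr_fun h P

/-- integral elements -/
theorem alg_p (hFO : ∀ x : F, algebraMap F Om x = algebraMap K Om (algebraMap F K x))
    {Q : Fin 3 → MvPolynomial (Fin 3) F} {p : Fin 3 → Om}
    (hint : ∀ P : MvPolynomial (Fin 3) F, ∃ p : Polynomial (MvPolynomial (Fin 3) F), p.Monic ∧
      Polynomial.eval₂ ((aeval Q : MvPolynomial (Fin 3) F →ₐ[F] MvPolynomial (Fin 3) F) :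
        MvPolynomial (Fin 3) F →+* MvPolynomial (Fin 3) F) P p = 0)
    (hFa : ∀ a, IsAlgebraic K (aeval p (Q a))) (j : Fin 3) : IsAlgebraic K (p j) := by
  obtain ⟨pp, hmon, hpp⟩ := hint (X j)
  have hA : ∀ a, aeval p (Q a) ∈ integralClosure K Om := fun a => (hFa a).isIntegral
  obtain ⟨φ, hφ⟩ : ∃ φ : MvPolynomial (Fin 3) F →+* integralClosure K Om,
      φ = eval₂Hom ((algebraMap K (integralClosure K Om)).comp (algebraMap F K))
        (fun a => ⟨aeval p (Q a), hA a⟩) := ⟨_, rfl⟩
  have hcomp : (algebraMap (integralClosure K Om) Om).comp φ =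
      ((aeval p : MvPolynomial (Fin 3) F →ₐ[F] Om) : MvPolynomial (Fin 3) F →+* Om).comp
        ((aeval Q : MvPolynomial (Fin 3) F →ₐ[F] MvPolynomial (Fin 3) F) :
        MvPolynomial (Fin 3) F →+* MvPolynomial (Fin 3) F) := by
    rw [hφ]
    refine MvPolynomial.ringHom_ext (fun x => ?_) (fun i => ?_)
    · simp [hFO]
    · simp
  have h1 : IsIntegral (integralClosure K Om) (p j) := by
    refine ⟨pp.map φ, hmon.map φ, ?_⟩
    have h2 := Polynomial.hom_eval₂ pp ((aeval Q : MvPolynomial (Fin 3) F →ₐ[F]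
      MvPolynomial (Fin 3) F) : MvPolynomial (Fin 3) F →+* MvPolynomial (Fin 3) F)
      ((aeval p : MvPolynomial (Fin 3) F →ₐ[F] Om) : MvPolynomial (Fin 3) F →+* Om) (X j)
    rw [hpp, map_zero] at h2
    rw [Polynomial.eval₂_map, hcomp]
    refine Eq.trans ?_ h2.symm
    simp
  exact (isIntegral_trans (R := K) (p j) h1).isAlgebraic

theorem th_zpow (th : R →+* Om) (tau : Rˣ) (m : ℤ) :
    th ((tau ^ m : Rˣ) : R) = (th (tau : R)) ^ m := by
  have h : Units.map (th : R →* Om) (tau ^ m) = (Units.map (th : R →* Om) tau) ^ m :=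
    map_zpow _ _ _
  have h2 : ((Units.map (th : R →* Om) (tau ^ m) : Omˣ) : Om) =
      (((Units.map (th : R →* Om) tau) ^ m : Omˣ) : Om) := by rw [h]
  rw [Units.val_zpow_eq_zpow_val, Units.coe_map, Units.coe_map] at h2
  exact h2

/-- the critical point -/
theorem core {dl : Derivation ℤ K K} {dR : Derivation ℤ R R} [IsDomain R] [CharZero Om]
    (hNR : NR F K R dl dR) (hDext : S_Dext) (hqd : S_qd) [CharZero K]
    (th : R →+* Om) (hKO : ∀ a : K, algebraMap K Om a = th (algebraMap K R a))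
    (hFO : ∀ x : F, algebraMap F Om x = algebraMap K Om (algebraMap F K x))
    {Q : Fin 3 → MvPolynomial (Fin 3) F} {dg : Fin 3 → ℕ} (hhom : ∀ a, (Q a).IsHomogeneous (dg a))
    (hpos : ∀ a, 1 ≤ dg a)
    (hint : ∀ P : MvPolynomial (Fin 3) F, ∃ p : Polynomial (MvPolynomial (Fin 3) F), p.Monic ∧
      Polynomial.eval₂ ((aeval Q : MvPolynomial (Fin 3) F →ₐ[F] MvPolynomial (Fin 3) F) :
        MvPolynomial (Fin 3) F →+* MvPolynomial (Fin 3) F) P p = 0)
    {i : Fin 3 → ℤ} (hidg : ∑ a, i a * (dg a : ℤ) = 0) (q : Fin 3 → R) (m : Fin 3 → ℤ)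
    (kap : Fin 3 → K) (tau : Rˣ) (hPt : vq K q (Q 2) = 1) (hkap : ∀ a, kap a ≠ 0)
    (hm2 : m 2 = 0) (hm : m ≠ 0) (him : ∑ a, i a * m a = 0)
    (hu : ∀ a, vq K q (Q a) = algebraMap K R (kap a) * ((tau ^ (m a) : Rˣ) : R))
    (hK : ¬ InK K (tau : R)) (hJ : th (vq K q (Jac Q)) = 0)
    (hr : ∀ c : Fin 3, c ≠ 2 → ∃ r : Polynomial K, r ≠ 0 ∧
      vq K q (Jac Q) ∣ Polynomial.aeval (vq K q (Q c)) r) (j : Fin 3) :
    ∑ a, (i a : Om) * aeval (fun j => th (q j)) (pderiv j (Q a)) /
      aeval (fun j => th (q j)) (Q a) = 0 := by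
  obtain ⟨p, hp⟩ : ∃ p : Fin 3 → Om, p = fun j => th (q j) := ⟨_, rfl⟩
  have hvq : ∀ P : MvPolynomial (Fin 3) F, th (vq K q P) = aeval p P := by
    intro P
    rw [hp]
    exact vq_th th hKO hFO q P
  rw [← hp]
  obtain ⟨tau0, htau0⟩ : ∃ tau0, tau0 = th (tau : R) := ⟨_, rfl⟩
  have htau0ne : tau0 ≠ 0 := by
    rw [htau0]
    exact (tau.isUnit.map th).ne_zero
  have hF : ∀ a, aeval p (Q a) = algebraMap K Om (kap a) * tau0 ^ (m a) := by
    intro a
    rw [← hvq, hu, map_mul, ← hKO, th_zpow, htau0]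
  have hkO : ∀ a, algebraMap K Om (kap a) ≠ 0 := fun a h =>
    hkap a ((algebraMap K Om).injective (by rw [h, map_zero]))
  have hFne : ∀ a, aeval p (Q a) ≠ 0 := by
    intro a
    rw [hF]
    exact mul_ne_zero (hkO a) (zpow_ne_zero _ htau0ne)
  -- algebraic elements
  have hFalg : ∀ a, IsAlgebraic K (aeval p (Q a)) := by
    intro a
    by_cases ha : a = 2
    · rw [ha, ← hvq, hPt, map_one]
      exact isAlgebraic_one
    · obtain ⟨r, hr0, s, hs⟩ := hr a ha
      refine ⟨r, hr0, ?_⟩
      obtain ⟨thK, hthK⟩ : ∃ thK : R →ₐ[K] Om, ∀ x, thK x = th x :=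
        ⟨{ th with commutes' := fun a => (hKO a).symm }, fun _ => rfl⟩
      have h1 := Polynomial.aeval_algHom_apply thK (vq K q (Q a)) r
      rw [hthK, hthK, hvq, hs, map_mul, hJ, zero_mul] at h1
      exact h1
  have hm01 : ∃ a, m a ≠ 0 := by
    by_contra h
    apply hm
    funext a
    by_contra h2
    exact h ⟨a, h2⟩
  have htalg : IsAlgebraic K tau0 := by
    obtain ⟨a, ha⟩ := hm01
    have h1 : tau0 ^ (m a) = (algebraMap K Om (kap a)⁻¹) * aeval p (Q a) := by
      rw [hF, ← mul_assoc, ← map_mul, inv_mul_cancel₀ (hkap a), map_one, one_mul]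
    have h2 : IsAlgebraic K (tau0 ^ (m a)) := by
      rw [h1]
      exact (isAlgebraic_algebraMap _).mul (hFalg a)
    generalize m a = k at ha h2
    cases k with
    | ofNat n =>
      have hn : 0 < n := by
        rcases Nat.eq_zero_or_pos n with h | h
        · rw [h] at ha
          exact absurd rfl ha
        · exact h
      refine IsAlgebraic.of_pow hn ?_
      simpa using h2
    | negSucc n =>
      refine IsAlgebraic.of_pow (Nat.succ_pos n) ?_
      have h3 := h2.inv
      rw [zpow_negSucc, inv_inv] at h3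
      exact h3
  have hpalg : ∀ j, IsAlgebraic K (p j) := alg_p hFO hint hFalg
  -- the field `E`
  obtain ⟨E, de, hE, hde⟩ := hDext K Om dl (Option (Fin 3)) (fun o => o.elim tau0 p) (by
    intro o
    cases o with
    | none => exact htalg
    | some j => exact hpalg j)
  obtain ⟨T0, hT0⟩ : ∃ T0 : E, (T0 : Om) = tau0 := ⟨⟨tau0, hE none⟩, rfl⟩
  obtain ⟨P, hP⟩ : ∃ P : Fin 3 → E, ∀ j, (P j : Om) = p j :=
    ⟨fun j => ⟨p j, hE (some j)⟩, fun _ => rfl⟩
  have hT0ne : T0 ≠ 0 := by
    rintro rfl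
    exact htau0ne (by rw [← hT0]; rfl)
  let instFE : Algebra F E := ((algebraMap K E).comp (algebraMap F K)).toAlgebra
  have hFE : ∀ x : F, algebraMap F E x = algebraMap K E (algebraMap F K x) := fun _ => rfl
  have hKE : ∀ a : K, ((algebraMap K E a : E) : Om) = algebraMap K Om a := fun _ => rfl
  have hval : ∀ G : MvPolynomial (Fin 3) F, ((aeval P G : E) : Om) = aeval p G := by
    intro G
    have h : ((algebraMap E Om) : E →+* Om).comp
        ((aeval P : MvPolynomial (Fin 3) F →ₐ[F] E) : MvPolynomial (Fin 3) F →+* E) =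
        ((aeval p : MvPolynomial (Fin 3) F →ₐ[F] Om) : MvPolynomial (Fin 3) F →+* Om) := by
      refine MvPolynomial.ringHom_ext (fun x => ?_) (fun i => ?_)
      · simp only [RingHom.comp_apply, RingHom.coe_coe]
        rw [aeval_C, aeval_C, hFO, hFE]
        rfl
      · simp only [RingHom.comp_apply, RingHom.coe_coe, aeval_X]
        exact hP i
    exact RingHom.congr_fun h G
  obtain ⟨t, ht⟩ := hNR.unit (tau : R) tau.isUnit
  have halgT0 : IsAlgebraic K T0 := by
    obtain ⟨r, hr0, hr1⟩ := htalg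
    refine ⟨r, hr0, ?_⟩
    apply (algebraMap E Om).injective
    rw [map_zero, ← Polynomial.aeval_algebraMap_apply]
    have : algebraMap E Om T0 = tau0 := hT0
    rw [this]
    exact hr1
  have hclaim := claim hNR hK ht de hde hT0ne halgT0
  obtain ⟨s, hs⟩ : ∃ s : E, s = de T0 / T0 := ⟨_, rfl⟩
  have hs' : de T0 = s * T0 := by
    rw [hs, div_mul_cancel₀ _ hT0ne]
  have heps : (s : Om) - algebraMap K Om t ≠ 0 := by
    intro h
    apply hclaim
    have h2 : s = algebraMap K E t := by
      apply Subtype.ext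
      rw [hKE]
      exact sub_eq_zero.1 h
    rw [hs', h2]
  -- derivatives of `F_a(p)`
  have hder1 : ∀ a, ∑ j, aeval p (pderiv j (Q a)) * ((de (P j) : E) : Om) =
      (algebraMap K Om (dl (kap a) / kap a) + (m a : Om) * (s : Om)) * aeval p (Q a) := by
    intro a
    have h1 := chain (F := F) de (fun x => by rw [hFE, hde, hNR.c0, map_zero]) P (Q a)
    have h2 : aeval P (Q a) = algebraMap K E (kap a) * (((Units.mk0 T0 hT0ne) ^ (m a) : Eˣ) : E) := by
      have h0 : (((Units.mk0 T0 hT0ne) ^ (m a) : Eˣ) : E) = T0 ^ (m a) := by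
        rw [Units.val_zpow_eq_zpow_val, Units.val_mk0]
      rw [h0]
      apply (algebraMap E Om).injective
      rw [map_mul, map_zpow₀]
      have h9 : algebraMap E Om (aeval P (Q a)) = aeval p (Q a) := hval _
      have h10 : algebraMap E Om T0 = tau0 := hT0
      rw [h9, h10, hF]
      rfl
    have h3 : de (aeval P (Q a)) =
        (algebraMap K E (dl (kap a) / kap a) + (m a : E) * s) * aeval P (Q a) := by
      have h4 : de (((Units.mk0 T0 hT0ne) ^ (m a) : Eˣ) : E) = (m a : E) * s *
          (((Units.mk0 T0 hT0ne) ^ (m a) : Eˣ) : E) :=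
        dzpow de (x := Units.mk0 T0 hT0ne) (s := s) hs' (m a)
      rw [h2, Derivation.leibniz, h4, hde, smul_eq_mul, smul_eq_mul]
      have h5 : algebraMap K E (dl (kap a)) = algebraMap K E (dl (kap a) / kap a) *
          algebraMap K E (kap a) := by
        rw [← map_mul, div_mul_cancel₀ _ (hkap a)]
      rw [h5]
      ring
    have hval' : ∀ G : MvPolynomial (Fin 3) F, algebraMap E Om (aeval P G) = aeval p G := hval
    have hKE' : ∀ a : K, algebraMap E Om (algebraMap K E a) = algebraMap K Om a := hKE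
    rw [h1] at h3
    have h6 := congrArg (algebraMap E Om) h3
    simp only [map_sum, map_mul, map_add, map_intCast, hval', hKE'] at h6
    exact h6
  have hder2 : ∀ a, ∑ j, aeval p (pderiv j (Q a)) * th (dR (q j)) =
      (algebraMap K Om (dl (kap a) / kap a) + (m a : Om) * algebraMap K Om t) *
        aeval p (Q a) := by
    have hl : ∀ a, dR (vq K q (Q a)) =
        algebraMap K R (dl (kap a) / kap a + (m a : K) * t) * vq K q (Q a) := by
      intro a
      have h4 := dzpow dR (x := tau) (s := algebraMap K R t) ht (m a)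
      rw [hu, Derivation.leibniz, h4, hNR.comp, smul_eq_mul, smul_eq_mul]
      have h5 : algebraMap K R (dl (kap a)) = algebraMap K R (dl (kap a) / kap a) *
          algebraMap K R (kap a) := by
        rw [← map_mul, div_mul_cancel₀ _ (hkap a)]
      rw [h5, map_add, map_mul, map_intCast]
      ring
    intro a
    have h1 := (hqd F K R dl dR hNR Q q _ hl).1 (Q a)
    rw [hl a] at h1
    have h2 := congrArg th h1
    rw [map_mul, hvq, map_sum, ← hKO, map_add, map_mul, map_intCast] at h2
    rw [h2]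
    refine Finset.sum_congr rfl fun j _ => ?_
    rw [map_mul, hvq]
  -- the kernel
  have hdet : (Matrix.of fun a j => aeval p (pderiv j (Q a)) :
      Matrix (Fin 3) (Fin 3) Om).det = 0 := by
    have h1 : aeval p (Jac Q) = 0 := by rw [← hvq, hJ]
    rw [Jac, AlgHom.map_det] at h1
    exact h1
  obtain ⟨mu, hmu0, hmu⟩ := Matrix.exists_vecMul_eq_zero_iff.2 hdet
  have hmu' : ∀ j, ∑ a, mu a * aeval p (pderiv j (Q a)) = 0 := by
    intro j
    have h := congrFun hmu j
    simpa [Matrix.vecMul, dotProduct] using h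
  obtain ⟨x, hx⟩ : ∃ x : Fin 3 → Om, ∀ a, x a = mu a * aeval p (Q a) := ⟨_, fun _ => rfl⟩
  have hx1 : ∑ a, x a * (dg a : Om) = 0 := by
    have h1 : ∀ a, x a * (dg a : Om) = ∑ j, p j * (mu a * aeval p (pderiv j (Q a))) := by
      intro a
      have h2 := congrArg (aeval p) ((hhom a).sum_X_mul_pderiv)
      rw [map_sum, map_nsmul, nsmul_eq_mul] at h2
      simp only [map_mul, aeval_X] at h2
      calc x a * (dg a : Om) = mu a * ((dg a : Om) * aeval p (Q a)) := by
            rw [hx]
            ring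
        _ = _ := by
            rw [← h2, Finset.mul_sum]
            refine Finset.sum_congr rfl fun j _ => ?_
            ring
    simp only [h1]
    rw [Finset.sum_comm]
    refine Finset.sum_eq_zero fun j _ => ?_
    rw [← Finset.mul_sum, hmu', mul_zero]
  have hx2 : ∑ a, x a * (m a : Om) = 0 := by
    have h1 : ∀ a, ((s : Om) - algebraMap K Om t) * (x a * (m a : Om)) =
        ∑ j, (((de (P j) : E) : Om) - th (dR (q j))) * (mu a * aeval p (pderiv j (Q a))) := by
      intro a
      have h2 := hder1 a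
      have h3 := hder2 a
      calc ((s : Om) - algebraMap K Om t) * (x a * (m a : Om)) =
          mu a * ((algebraMap K Om (dl (kap a) / kap a) + (m a : Om) * (s : Om)) *
              aeval p (Q a)) -
            mu a * ((algebraMap K Om (dl (kap a) / kap a) + (m a : Om) * algebraMap K Om t) *
              aeval p (Q a)) := by
            rw [hx]
            ring
        _ = _ := by
            rw [← h2, ← h3, Finset.mul_sum, Finset.mul_sum, ← Finset.sum_sub_distrib]
            refine Finset.sum_congr rfl fun j _ => ?_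
            ring
    have h2 : ((s : Om) - algebraMap K Om t) * ∑ a, x a * (m a : Om) = 0 := by
      rw [Finset.mul_sum]
      simp only [h1]
      rw [Finset.sum_comm]
      refine Finset.sum_eq_zero fun j _ => ?_
      rw [← Finset.mul_sum, hmu', mul_zero]
    exact (mul_eq_zero.1 h2).resolve_left heps
  have hmin := minors (hpos 2) hm2 hm hidg him hx1 hx2
  obtain ⟨b, hb⟩ : ∃ b, x b ≠ 0 := by
    by_contra h
    apply hmu0
    funext a
    by_contra h2
    refine h ⟨a, ?_⟩
    rw [hx]
    exact mul_ne_zero h2 (hFne a)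
  have hfin : x b * ∑ a, (i a : Om) * aeval p (pderiv j (Q a)) / aeval p (Q a) = 0 := by
    have h1 : ∀ a, x b * ((i a : Om) * aeval p (pderiv j (Q a)) / aeval p (Q a)) =
        (i b : Om) * (mu a * aeval p (pderiv j (Q a))) := by
      intro a
      have h2 : x b * (i a : Om) = x a * (i b : Om) := hmin b a
      have h3 := hFne a
      rw [hx a] at h2
      calc x b * ((i a : Om) * aeval p (pderiv j (Q a)) / aeval p (Q a)) =
          (x b * (i a : Om)) * aeval p (pderiv j (Q a)) / aeval p (Q a) := by ring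
        _ = (mu a * aeval p (Q a) * (i b : Om)) * aeval p (pderiv j (Q a)) /
            aeval p (Q a) := by rw [h2]
        _ = _ := by field_simp
    rw [Finset.mul_sum]
    simp only [h1]
    rw [← Finset.mul_sum, hmu', mul_zero]
  exact (mul_eq_zero.1 hfin).resolve_left hb

end

end B2Ax

open B2Ax in
theorem TwoA_proof (h1 : S_r1) (h2 : S_Int) (h3 : S_Dext) (h4 : S_CV1) (h5 : S_qd) : S_2A := by
  intro F _ _ _ Q dg hNC i hi hidg
  obtain ⟨Z, hZ⟩ := h4 F Q dg hNC i hi hidg
  obtain ⟨B, hB⟩ := h1 F Q dg hNC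
  refine ⟨Z, ?_⟩
  intro K R _ _ _ _ _ _ dl dR hNR q m kap tau hPt hkap hm2 hm him hu hK hJ
  have hm01 : ∃ a, a ≠ 2 ∧ m a ≠ 0 := by
    by_contra h
    apply hm
    funext a
    by_contra h2
    refine h ⟨a, ?_, h2⟩
    rintro rfl
    exact h2 hm2
  have hnot : ¬ (InK K (vq K q (Q 0)) ∧ InK K (vq K q (Q 1))) := by
    rintro ⟨e0, e1⟩
    obtain ⟨a, ha2, ha⟩ := hm01
    have h := notK hNR hK ha (hkap a)
    rw [← hu] at h
    fin_cases a
    · exact h e0
    · exact h e1
    · exact ha2 rfl
  have hr : ∀ c : Fin 3, c ≠ 2 → ∃ r : Polynomial K, r ≠ 0 ∧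
      vq K q (Jac Q) ∣ Polynomial.aeval (vq K q (Q c)) r := by
    intro c hc
    obtain ⟨r, hr0, -, hr1⟩ := hB K R dl dR hNR q hPt hnot c hc
    exact ⟨r, hr0, hr1⟩
  obtain ⟨I, hI, hwI⟩ := exists_max_ideal_of_mem_nonunits (a := vq K q (Jac Q)) hJ
  obtain ⟨Om, _, th, hth⟩ : ∃ (Om : Type) (_ : Field Om) (th : R →+* Om),
      th (vq K q (Jac Q)) = 0 :=
    ⟨R ⧸ I, Ideal.Quotient.field I, Ideal.Quotient.mk I, Ideal.Quotient.eq_zero_iff_mem.2 hwI⟩
  let instK : Algebra K Om := (th.comp (algebraMap K R)).toAlgebra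
  let instF : Algebra F Om := ((algebraMap K Om).comp (algebraMap F K)).toAlgebra
  have hKO : ∀ a : K, algebraMap K Om a = th (algebraMap K R a) := fun _ => rfl
  have hFO : ∀ x : F, algebraMap F Om x = algebraMap K Om (algebraMap F K x) := fun _ => rfl
  have hchar : CharZero Om := charZero_of_injective_algebraMap (algebraMap K Om).injective
  have hcore := core hNR h3 h5 th hKO hFO hNC.hom hNC.pos (h2 F Q dg hNC).2.2 hidg q m kap tau
    hPt.u2 hkap hm2 hm him hu hK hth hr
  have hF : ∀ a, aeval (fun j => th (q j)) (Q a) =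
      algebraMap K Om (kap a) * (th (tau : R)) ^ (m a) := by
    intro a
    rw [← vq_th th hKO hFO, hu, map_mul, ← hKO, th_zpow]
  have htau0 : th (tau : R) ≠ 0 := (tau.isUnit.map th).ne_zero
  have hkO : ∀ a, algebraMap K Om (kap a) ≠ 0 := fun a h =>
    hkap a ((algebraMap K Om).injective (by rw [h, map_zero]))
  obtain ⟨c, hcZ, hc⟩ := hZ Om (fun j => th (q j)) (fun a => by
    rw [hF]
    exact mul_ne_zero (hkO a) (zpow_ne_zero _ htau0)) hcore
  refine ⟨c, hcZ, ?_⟩
  apply (algebraMap K Om).injective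
  rw [← hFO, ← hc, map_prod]
  have h7 : ∏ a, (th (tau : R)) ^ (m a * i a) = 1 := by
    rw [Fin.prod_univ_three, ← zpow_add₀ htau0, ← zpow_add₀ htau0]
    rw [Fin.sum_univ_three] at him
    have : m 0 * i 0 + m 1 * i 1 + m 2 * i 2 = 0 := by linarith
    rw [this, zpow_zero]
  calc ∏ a, algebraMap K Om (kap a ^ i a) = (∏ a, (algebraMap K Om (kap a)) ^ i a) * 1 := by
        rw [mul_one]
        refine Finset.prod_congr rfl fun a _ => ?_
        rw [map_zpow₀]
    _ = ∏ a, (algebraMap K Om (kap a) ^ i a * (th (tau : R)) ^ (m a * i a)) := by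
        rw [← h7, ← Finset.prod_mul_distrib]
    _ = _ := by
        refine Finset.prod_congr rfl fun a _ => ?_
        rw [hF, mul_zpow, ← zpow_mul]

end

end Pool.Agent.Work.MP_6d7a54_an.NF
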