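import Pool.Agent.Work.MP_6d7a54_an.NF.DefsB

/-!
# Statements of the algebraic items (MP_6d7a54_an)
-/

namespace Pool.Agent.Work.MP_6d7a54_an.NF

open MvPolynomial

noncomputable section

/-! ### General differential algebra -/

/-- the Taylor homomorphism -/
def S_Tay : Prop := ∀ (A Om : Type) [CommRing A] [Field Om] [CharZero Om]
  (d : Derivation ℤ A A) (th : A →+* Om),
  tay d th 0 = 0 ∧ tay d th 1 = 1 ∧ (∀ x y, tay d th (x + y) = tay d th x + tay d th y) ∧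
  (∀ x y, tay d th (x * y) = tay d th x * tay d th y) ∧
  (∀ x, tay d th (d x) = sd (tay d th x))

/-- the ring of holomorphic elements of a Nevanlinna field -/
def S_KS : Prop := ∀ (F L : Type) [Field F] [CharZero F] [Field L] [Algebra F L]
  (D : Derivation F L L) (S Sm : Subalgebra F L), IsNev D S Sm →
  ∃ (K R : Type) (_ : Field K) (_ : CommRing R) (_ : IsDomain R) (_ : Algebra F K)
    (_ : Algebra K R) (dl : Derivation ℤ K K) (dR : Derivation ℤ R R) (io : R →+* L),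
    Function.Injective io ∧ (∀ f, f ∈ S ↔ ∃ r, io r = f) ∧
    (∀ f, (f ∈ S ∧ f ∈ Sm) ↔ ∃ a : K, io (algebraMap K R a) = f) ∧
    (∀ r, io (dR r) = D (io r)) ∧
    (∀ a : F, io (algebraMap K R (algebraMap F K a)) = algebraMap F L a) ∧ NR F K R dl dR

/-- Borel's lemma -/
def S_Bor : Prop := ∀ (F K R : Type) [Field F] [Field K] [CommRing R] [IsDomain R] [Algebra F K]
  [Algebra K R] (dl : Derivation ℤ K K) (dR : Derivation ℤ R R), NR F K R dl dR →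
  ∀ (ι : Type) [Fintype ι] (mo : ι → R) (p : ι → K), (∀ i, IsUnit (mo i)) →
  ∑ i, algebraMap K R (p i) * mo i = 0 → (∃ i, p i ≠ 0) →
  ∃ i j, i ≠ j ∧ p i ≠ 0 ∧ p j ≠ 0 ∧ ∃ b : K, mo i = algebraMap K R b * mo j

/-- elements with simple zeros are squarefree -/
def S_Red : Prop := ∀ (F K R : Type) [Field F] [Field K] [CharZero K] [CommRing R] [IsDomain R]
  [Algebra F K] [Algebra K R] (dl : Derivation ℤ K K) (dR : Derivation ℤ R R),
  NR F K R dl dR → ∀ s e : R, s ≠ 0 → IsCoprime s (dR s) → ∀ n : ℕ, s ∣ e ^ n → s ∣ e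

/-- divisibility is tested by Taylor series -/
def S_Val : Prop := ∀ (F K R : Type) [Field F] [Field K] [CharZero K] [CommRing R] [IsDomain R]
  [Algebra F K] [Algebra K R] (dl : Derivation ℤ K K) (dR : Derivation ℤ R R),
  NR F K R dl dR → ∀ (w s e : R) (N : ℕ), w ≠ 0 → s ≠ 0 → IsCoprime s (dR s) → w ∣ s ^ N →
  (∀ (Om : Type) [Field Om] [IsAlgClosed Om] (th : R →+* Om), th s = 0 → ∀ n ≤ N,
    (∀ j < n, th ((dR : R → R)^[j] w) = 0) → ∀ j < n, th ((dR : R → R)^[j] e) = 0) → w ∣ e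

/-- polynomials in a unit, with simple zeros -/
def S_Chi : Prop := ∀ (F K R : Type) [Field F] [Field K] [CharZero K] [CommRing R] [IsDomain R]
  [Algebra F K] [Algebra K R] (dl : Derivation ℤ K K) (dR : Derivation ℤ R R),
  NR F K R dl dR → ∀ (u : R) (r : Polynomial K), IsUnit u → ¬ InK K u → r ≠ 0 →
  ∃ s : R, s ≠ 0 ∧ IsCoprime s (dR s) ∧ Polynomial.aeval u r ∣ s ^ r.natDegree

/-- extension of a derivation to an algebraic extension -/
def S_Dext : Prop := ∀ (K Om : Type) [Field K] [CharZero K] [Field Om] [Algebra K Om]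
  (dl : Derivation ℤ K K) (ι : Type) [Finite ι] (p : ι → Om), (∀ i, IsAlgebraic K (p i)) →
  ∃ (E : IntermediateField K Om) (de : Derivation ℤ E E), (∀ i, p i ∈ E) ∧
    ∀ a : K, de (algebraMap K E a) = algebraMap K E (dl a)

/-- power series roots of monic polynomials over an algebraically closed field -/
def S_Rt : Prop := ∀ (E Om : Type) [Field E] [IsAlgClosed E] [Field Om] [Algebra E Om]
  (p : Polynomial (PowerSeries E)), p.Monic → ∀ v : PowerSeries Om,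
  Polynomial.eval₂ (PowerSeries.map (algebraMap E Om)) v p = 0 →
  ∃ v' : PowerSeries E, v = PowerSeries.map (algebraMap E Om) v'

/-- linear algebra: a linear differential operator with coefficients in `K` which does not lower
the order of finitely many conjugate power series -/
def S_LA : Prop := ∀ b N : ℕ, ∃ M : ℕ, ∀ (K : Type) [Field K] [CharZero K]
  (dl : Derivation ℤ K K) (V : Finset (PowerSeries (AlgebraicClosure K))), V.card ≤ b →
  (∀ s : AlgebraicClosure K ≃ₐ[K] AlgebraicClosure K, ∀ v ∈ V,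
    PowerSeries.map ((s : AlgebraicClosure K →ₐ[K] AlgebraicClosure K) :
      AlgebraicClosure K →+* AlgebraicClosure K) v ∈ V) →
  ∃ A : Fin M → K, A ≠ 0 ∧ ∀ v ∈ V, ∀ n ≤ N, (∀ j < n, PowerSeries.coeff j v = 0) →
    ∀ j < n, PowerSeries.coeff j (∑ i, tay dl (algebraMap K (AlgebraicClosure K)) (A i) *
      (sd^[(i : ℕ) + 1] v)) = 0

/-! ### Homogeneous polynomials in three variables -/

/-- factors of homogeneous polynomials -/
def S_HF : Prop := ∀ (K : Type) [Field K] (f h : MvPolynomial (Fin 3) K) (n : ℕ), f ≠ 0 →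
  f.IsHomogeneous n → h ∣ f → ∃ k, k ≤ n ∧ h.IsHomogeneous k

/-- two plane curves meet -/
def S_Bez : Prop := ∀ (Om : Type) [Field Om] [IsAlgClosed Om] (f g : MvPolynomial (Fin 3) Om)
  (a b : ℕ), f.IsHomogeneous a → g.IsHomogeneous b → 1 ≤ a → 1 ≤ b →
  ∃ w : Fin 3 → Om, w ≠ 0 ∧ eval w f = 0 ∧ eval w g = 0

/-- weak Bezout theorem -/
def S_Dim : Prop := ∃ B : ℕ → ℕ → ℕ, ∀ (K : Type) [Field K] (f g : MvPolynomial (Fin 3) K)
  (a b : ℕ), f.IsHomogeneous a → g.IsHomogeneous b → f ≠ 0 → g ≠ 0 → IsRelPrime f g →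
  ∀ (n N : ℕ) (p : Fin N → MvPolynomial (Fin 3) K), (∀ i, (p i).IsHomogeneous n) → B a b < N →
  ∃ c : Fin N → K, c ≠ 0 ∧ ∃ A A' : MvPolynomial (Fin 3) K, ∑ i, C (c i) * p i = A * f + A' * g

/-- elimination -/
def S_Elim : Prop := ∀ (dg : Fin 3 → ℕ) (e : ℕ), (∀ a, 1 ≤ dg a) → ∃ B : ℕ,
  ∀ (K : Type) [Field K] (Q : Fin 3 → MvPolynomial (Fin 3) K), (∀ a, (Q a).IsHomogeneous (dg a)) →
  ∀ P : MvPolynomial (Fin 3) K, P ≠ 0 → P.IsHomogeneous e →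
  ∃ c : MvPolynomial (Fin 3) K, c ≠ 0 ∧ c.IsWeightedHomogeneous dg B ∧ P ∣ aeval Q c

/-- common zeros of two coprime forms -/
def S_Fin : Prop := ∀ (F : Type) [Field F] [IsAlgClosed F] (f g : MvPolynomial (Fin 3) F)
  (a b : ℕ), f.IsHomogeneous a → g.IsHomogeneous b → f ≠ 0 → g ≠ 0 → IsRelPrime f g →
  ∃ Z : Finset (Fin 3 → F), ∀ (Om : Type) [Field Om] [Algebra F Om] (w : Fin 3 → Om), w ≠ 0 →
    aeval w f = 0 → aeval w g = 0 →
    ∃ p ∈ Z, ∃ lam : Om, lam ≠ 0 ∧ ∀ j, w j = lam * algebraMap F Om (p j)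

/-- Jacobian and vector field: degrees and relations -/
def S_JH : Prop := ∀ (K : Type) [Field K] (Q : Fin 3 → MvPolynomial (Fin 3) K) (dg : Fin 3 → ℕ),
  (∀ a, (Q a).IsHomogeneous (dg a)) → (∀ a, 1 ≤ dg a) →
  (Jac Q).IsHomogeneous (∑ a, dg a - 3) ∧
  (∀ l j, (VV Q l j).IsHomogeneous (∑ a, dg a - 3 + 1)) ∧
  (∀ l a, vd (VV Q l) (Q a) = Jac Q * (C (l a) * Q a))

/-- the Jacobian does not vanish identically; no common zero of the three curves; integrality -/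
def S_Int : Prop := ∀ (F : Type) [Field F] [CharZero F] [IsAlgClosed F]
  (Q : Fin 3 → MvPolynomial (Fin 3) F) (dg : Fin 3 → ℕ), NC3 Q dg → Jac Q ≠ 0 ∧
  (∀ (Om : Type) [Field Om] [Algebra F Om] (w : Fin 3 → Om), (∀ a, aeval w (Q a) = 0) → w = 0) ∧
  ∀ P : MvPolynomial (Fin 3) F, ∃ p : Polynomial (MvPolynomial (Fin 3) F), p.Monic ∧
    Polynomial.eval₂ ((aeval Q : MvPolynomial (Fin 3) F →ₐ[F] MvPolynomial (Fin 3) F) :
      MvPolynomial (Fin 3) F →+* MvPolynomial (Fin 3) F) P p = 0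

/-- the vector field does not vanish on a component of the ramification curve, and is not tangent
to it -/
def S_F3 : Prop := ∀ (F : Type) [Field F] [CharZero F] [IsAlgClosed F]
  (Q : Fin 3 → MvPolynomial (Fin 3) F) (dg : Fin 3 → ℕ), NC3 Q dg →
  ∀ (K : Type) [Field K] [CharZero K] [Algebra F K] (l : Fin 3 → K),
  (∃ a b, l a * (dg b : K) ≠ l b * (dg a : K)) → ∀ h : MvPolynomial (Fin 3) K, Irreducible h →
  h ∣ Jac (fun a => bc K (Q a)) → ∃ j, ¬ h ∣ VV (fun a => bc K (Q a)) l j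

/-- the vector field is not tangent to a component of the ramification curve -/
def S_F3b : Prop := ∀ (F : Type) [Field F] [CharZero F] [IsAlgClosed F]
  (Q : Fin 3 → MvPolynomial (Fin 3) F) (dg : Fin 3 → ℕ), NC3 Q dg →
  ∀ (K : Type) [Field K] [CharZero K] [Algebra F K] (l : Fin 3 → K),
  (∃ a b, l a * (dg b : K) ≠ l b * (dg a : K)) → ∀ h : MvPolynomial (Fin 3) K, Irreducible h →
  h ∣ Jac (fun a => bc K (Q a)) → ¬ h ∣ vd (VV (fun a => bc K (Q a)) l) h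

/-- a combination of the components of the vector field which is coprime to the Jacobian -/
def S_Cop : Prop := ∀ (F : Type) [Field F] [CharZero F] [IsAlgClosed F]
  (Q : Fin 3 → MvPolynomial (Fin 3) F) (dg : Fin 3 → ℕ), NC3 Q dg →
  ∀ (K : Type) [Field K] [CharZero K] [Algebra F K] (l : Fin 3 → K),
  (∃ a b, l a * (dg b : K) ≠ l b * (dg a : K)) → ∃ al : Fin 3 → K,
    ∑ j, C (al j) * VV (fun a => bc K (Q a)) l j ≠ 0 ∧
    IsRelPrime (Jac (fun a => bc K (Q a))) (∑ j, C (al j) * VV (fun a => bc K (Q a)) l j)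

/-- critical values of a monomial in the three forms -/
def S_CV1 : Prop := ∀ (F : Type) [Field F] [CharZero F] [IsAlgClosed F]
  (Q : Fin 3 → MvPolynomial (Fin 3) F) (dg : Fin 3 → ℕ), NC3 Q dg → ∀ i : Fin 3 → ℤ, i ≠ 0 →
  ∑ a, i a * (dg a : ℤ) = 0 → ∃ Z : Finset F, ∀ (Om : Type) [Field Om] [Algebra F Om]
  (w : Fin 3 → Om), (∀ a, aeval w (Q a) ≠ 0) →
  (∀ j, ∑ a, (i a : Om) * aeval w (pderiv j (Q a)) / aeval w (Q a) = 0) →
  ∃ c ∈ Z, ∏ a, (aeval w (Q a)) ^ (i a) = algebraMap F Om c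

/-- values of a monomial at the points of the ramification curve at infinity -/
def S_CV2 : Prop := ∀ (F : Type) [Field F] [CharZero F] [IsAlgClosed F]
  (Q : Fin 3 → MvPolynomial (Fin 3) F) (dg : Fin 3 → ℕ), NC3 Q dg → ∀ i : Fin 3 → ℤ,
  ∑ a, i a * (dg a : ℤ) = 0 → ∃ Z : Finset F, ∀ (Om : Type) [Field Om] [Algebra F Om]
  (w : Fin 3 → Om) (c : Fin 3), w ≠ 0 → i c = 0 → aeval w (Q c) = 0 → aeval w (Jac Q) = 0 →
  ∃ z ∈ Z, ∏ a, (aeval w (Q a)) ^ (i a) = algebraMap F Om z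

/-! ### Nevanlinna rings: first step -/

/-- the values of the forms are algebraic over `K` at the zeros of the Jacobian -/
def S_r1 : Prop := ∀ (F : Type) [Field F] [CharZero F] [IsAlgClosed F]
  (Q : Fin 3 → MvPolynomial (Fin 3) F) (dg : Fin 3 → ℕ), NC3 Q dg → ∃ B : ℕ,
  ∀ (K R : Type) [Field K] [CharZero K] [CommRing R] [IsDomain R] [Algebra F K] [Algebra K R]
  (dl : Derivation ℤ K K) (dR : Derivation ℤ R R), NR F K R dl dR → ∀ q : Fin 3 → R, Pt K Q q →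
  ¬ (InK K (vq K q (Q 0)) ∧ InK K (vq K q (Q 1))) → ∀ c : Fin 3, c ≠ 2 →
  ∃ r : Polynomial K, r ≠ 0 ∧ r.natDegree ≤ B ∧
    vq K q (Jac Q) ∣ Polynomial.aeval (vq K q (Q c)) r

/-- derivatives of a point -/
def S_qd : Prop := ∀ (F K R : Type) [Field F] [Field K] [CommRing R] [IsDomain R] [Algebra F K]
  [Algebra K R] (dl : Derivation ℤ K K) (dR : Derivation ℤ R R), NR F K R dl dR →
  ∀ (Q : Fin 3 → MvPolynomial (Fin 3) F) (q : Fin 3 → R) (l : Fin 3 → K),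
  (∀ a, dR (vq K q (Q a)) = algebraMap K R (l a) * vq K q (Q a)) →
  (∀ P : MvPolynomial (Fin 3) F, dR (vq K q P) = ∑ j, vq K q (pderiv j P) * dR (q j)) ∧
  ∀ j, vq K q (Jac Q) * dR (q j) = aeval q (VV (fun a => bc K (Q a)) l j)

/-- possible Taylor series of the Jacobian at its zeros -/
def S_Ser : Prop := ∀ (F : Type) [Field F] [CharZero F] [IsAlgClosed F]
  (Q : Fin 3 → MvPolynomial (Fin 3) F) (dg : Fin 3 → ℕ), NC3 Q dg → ∀ B : ℕ, ∃ b : ℕ,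
  ∀ (K : Type) [Field K] [CharZero K] [Algebra F K] (dl : Derivation ℤ K K),
  (∀ a : F, dl (algebraMap F K a) = 0) → ∀ (l0 l1 : K) (r0 r1 : Polynomial K), r0 ≠ 0 →
  r1 ≠ 0 → r0.natDegree ≤ B → r1.natDegree ≤ B →
  ∃ V : Finset (PowerSeries (AlgebraicClosure K)), V.card ≤ b ∧
    (∀ s : AlgebraicClosure K ≃ₐ[K] AlgebraicClosure K, ∀ v ∈ V,
      PowerSeries.map ((s : AlgebraicClosure K →ₐ[K] AlgebraicClosure K) :
        AlgebraicClosure K →+* AlgebraicClosure K) v ∈ V) ∧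
    ∀ (R : Type) [CommRing R] [Algebra K R] (dR : Derivation ℤ R R),
    (∀ a : K, dR (algebraMap K R a) = algebraMap K R (dl a)) → ∀ q : Fin 3 → R,
    dR (vq K q (Q 0)) = algebraMap K R l0 * vq K q (Q 0) →
    dR (vq K q (Q 1)) = algebraMap K R l1 * vq K q (Q 1) → vq K q (Q 2) = 1 →
    ∀ (Om : Type) [Field Om] [IsAlgClosed Om] (th : R →+* Om),
    th (Polynomial.aeval (vq K q (Q 0)) r0) = 0 → th (Polynomial.aeval (vq K q (Q 1)) r1) = 0 →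
    ∃ io : AlgebraicClosure K →+* Om,
      (∀ a : K, io (algebraMap K (AlgebraicClosure K) a) = th (algebraMap K R a)) ∧
      ∃ v ∈ V, tay dR th (vq K q (Jac Q)) = PowerSeries.map io v

/-- the Jacobian satisfies a linear differential equation -/
def S_ODE : Prop := ∀ (F : Type) [Field F] [CharZero F] [IsAlgClosed F]
  (Q : Fin 3 → MvPolynomial (Fin 3) F) (dg : Fin 3 → ℕ), NC3 Q dg → ∃ M : ℕ,
  ∀ (K R : Type) [Field K] [CharZero K] [CommRing R] [IsDomain R] [Algebra F K] [Algebra K R]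
  (dl : Derivation ℤ K K) (dR : Derivation ℤ R R), NR F K R dl dR → ∀ q : Fin 3 → R, Pt K Q q →
  ¬ InK K (vq K q (Q 0)) → vq K q (Jac Q) ≠ 0 → ∃ (A : Fin M → K) (A0 : K), A ≠ 0 ∧
    ∑ i, algebraMap K R (A i) * ((dR : R → R)^[(i : ℕ) + 1] (vq K q (Jac Q)))
      = algebraMap K R A0 * vq K q (Jac Q)

/-- numerators of the derivatives of the Jacobian: values and degrees -/
def S_PP : Prop := ∀ (K : Type) [Field K] (dl : Derivation ℤ K K)
  (J : MvPolynomial (Fin 3) K) (V : Fin 3 → MvPolynomial (Fin 3) K), dc dl J = 0 →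
  (∀ (R : Type) [CommRing R] [Algebra K R] (dR : Derivation ℤ R R),
    (∀ a : K, dR (algebraMap K R a) = algebraMap K R (dl a)) → ∀ q : Fin 3 → R,
    (∀ j, aeval q J * dR (q j) = aeval q (V j)) →
    ∀ i : ℕ, aeval q J ^ (2 * i) * ((dR : R → R)^[i] (aeval q J)) = aeval q (PP dl J V i)) ∧
  (∀ e : ℕ, 1 ≤ e → J.IsHomogeneous e → (∀ j, (V j).IsHomogeneous (e + 1)) →
    ∀ i : ℕ, (PP dl J V i).IsHomogeneous (e + 2 * i * e))

/-- the numerator of the differential equation does not vanish -/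
def S_NZ : Prop := ∀ (K : Type) [Field K] [CharZero K] (dl : Derivation ℤ K K)
  (J h : MvPolynomial (Fin 3) K) (V : Fin 3 → MvPolynomial (Fin 3) K), J ≠ 0 → Irreducible h →
  h ∣ J → ¬ h ∣ vd V h → ∀ (M : ℕ) (A : Fin M → K) (A0 : K), A ≠ 0 → PE dl J V M A A0 ≠ 0

/-- FIRST STEP: a multiplicative relation modulo small elements -/
def S_St1 : Prop := ∀ (F : Type) [Field F] [CharZero F] [IsAlgClosed F]
  (Q : Fin 3 → MvPolynomial (Fin 3) F) (dg : Fin 3 → ℕ), NC3 Q dg → ∃ N : ℕ,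
  ∀ (K R : Type) [Field K] [CharZero K] [CommRing R] [IsDomain R] [Algebra F K] [Algebra K R]
  (dl : Derivation ℤ K K) (dR : Derivation ℤ R R), NR F K R dl dR → ∀ q : Fin 3 → R, Pt K Q q →
  ∃ al be : ℕ × ℕ, al ≠ be ∧ al.1 ≤ N ∧ al.2 ≤ N ∧ be.1 ≤ N ∧ be.2 ≤ N ∧
    ∃ b : K, vq K q (Q 0) ^ al.1 * vq K q (Q 1) ^ al.2
      = algebraMap K R b * (vq K q (Q 0) ^ be.1 * vq K q (Q 1) ^ be.2)

/-! ### Nevanlinna rings: second step -/

/-- second step, case of a ramified point -/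
def S_2A : Prop := ∀ (F : Type) [Field F] [CharZero F] [IsAlgClosed F]
  (Q : Fin 3 → MvPolynomial (Fin 3) F) (dg : Fin 3 → ℕ), NC3 Q dg → ∀ i : Fin 3 → ℤ, i ≠ 0 →
  ∑ a, i a * (dg a : ℤ) = 0 → ∃ Z : Finset F, ∀ (K R : Type) [Field K] [CharZero K] [CommRing R]
  [IsDomain R] [Algebra F K] [Algebra K R] (dl : Derivation ℤ K K) (dR : Derivation ℤ R R),
  NR F K R dl dR → ∀ (q : Fin 3 → R) (m : Fin 3 → ℤ) (kap : Fin 3 → K) (tau : Rˣ),
  Pt K Q q → (∀ a, kap a ≠ 0) → m 2 = 0 → m ≠ 0 → ∑ a, i a * m a = 0 →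
  (∀ a, vq K q (Q a) = algebraMap K R (kap a) * ((tau ^ (m a) : Rˣ) : R)) →
  ¬ InK K (tau : R) → ¬ IsUnit (vq K q (Jac Q)) →
  ∃ c ∈ Z, ∏ a, kap a ^ (i a) = algebraMap F K c

/-- specialisation at a place -/
def S_Pl : Prop := ∀ (F : Type) [Field F] [CharZero F] [IsAlgClosed F]
  (Q : Fin 3 → MvPolynomial (Fin 3) F) (dg : Fin 3 → ℕ), NC3 Q dg →
  ∀ (K L : Type) [Field K] [Field L] [Algebra F K] [Algebra K L] (q : Fin 3 → L)
  (m : Fin 3 → ℤ) (kap : Fin 3 → K) (tau : L) (N : ℕ) (k : ℤ) (kJ : K), N ≠ 0 → kJ ≠ 0 →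
  (∀ a, kap a ≠ 0) → (∀ p : Polynomial K, Polynomial.aeval tau p = 0 → p = 0) →
  (∀ a, vq K q (Q a) = algebraMap K L (kap a) * tau ^ (m a)) →
  vq K q (Jac Q) ^ N = algebraMap K L kJ * tau ^ k →
  ∃ (Om : Type) (_ : Field Om) (_ : Algebra K Om) (w : Fin 3 → Om) (a0 : Fin 3), w ≠ 0 ∧
    vq K w (Q a0) ≠ 0 ∧
    (∀ b, (dg b : ℤ) * m a0 ≤ dg a0 * m b ∧
      (vq K w (Q b) = 0 ↔ (dg b : ℤ) * m a0 < dg a0 * m b)) ∧
    ((N : ℤ) * ((∑ a, (dg a : ℤ)) - 3) * m a0 ≤ k * dg a0 ∧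
      (vq K w (Jac Q) = 0 ↔ (N : ℤ) * ((∑ a, (dg a : ℤ)) - 3) * m a0 < k * dg a0)) ∧
    ∀ i : Fin 3 → ℤ, ∑ a, i a * (dg a : ℤ) = 0 → ∑ a, i a * m a = 0 →
      (∀ a, i a ≠ 0 → vq K w (Q a) ≠ 0) →
      ∏ a, algebraMap K Om (kap a) ^ (i a) = ∏ a, (vq K w (Q a)) ^ (i a)

/-- second step, unramified case -/
def S_2B : Prop := ∀ (F : Type) [Field F] [CharZero F] [IsAlgClosed F]
  (Q : Fin 3 → MvPolynomial (Fin 3) F) (dg : Fin 3 → ℕ), NC3 Q dg → ∀ i : Fin 3 → ℤ, i ≠ 0 →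
  ∑ a, i a * (dg a : ℤ) = 0 → ∃ Z : Finset F, ∀ (K L : Type) [Field K] [Field L] [Algebra F K]
  [Algebra K L] (q : Fin 3 → L) (m : Fin 3 → ℤ) (kap : Fin 3 → K) (tau : L) (N : ℕ) (k : ℤ)
  (kJ : K), N ≠ 0 → kJ ≠ 0 → (∀ a, kap a ≠ 0) → m 2 = 0 → m ≠ 0 → ∑ a, i a * m a = 0 →
  (∀ p : Polynomial K, Polynomial.aeval tau p = 0 → p = 0) →
  (∀ a, vq K q (Q a) = algebraMap K L (kap a) * tau ^ (m a)) →
  vq K q (Jac Q) ^ N = algebraMap K L kJ * tau ^ k →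
  ∃ c ∈ Z, ∏ a, kap a ^ (i a) = algebraMap F K c

/-- in the unramified case the Jacobian is a monomial -/
def S_Mon : Prop := ∀ (F : Type) [Field F] [CharZero F] [IsAlgClosed F]
  (Q : Fin 3 → MvPolynomial (Fin 3) F) (dg : Fin 3 → ℕ), NC3 Q dg →
  ∀ (K R : Type) [Field K] [CommRing R] [IsDomain R] [Algebra F K] [Algebra K R]
  (dl : Derivation ℤ K K) (dR : Derivation ℤ R R), NR F K R dl dR →
  ∀ (q : Fin 3 → R) (m : Fin 3 → ℤ) (kap : Fin 3 → K) (tau : Rˣ), (∀ a, kap a ≠ 0) →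
  (∀ a, vq K q (Q a) = algebraMap K R (kap a) * ((tau ^ (m a) : Rˣ) : R)) →
  ¬ InK K (tau : R) →
  (∀ p : Polynomial K, Polynomial.aeval (tau : R) p = 0 → p = 0) ∧
  ∀ w : Rˣ, (w : R) = vq K q (Jac Q) → ∃ (N : ℕ) (k : ℤ) (kJ : K), N ≠ 0 ∧ kJ ≠ 0 ∧
    ((w ^ N : Rˣ) : R) = algebraMap K R kJ * ((tau ^ k : Rˣ) : R)

/-- SECOND STEP -/
def S_St2 : Prop := ∀ (F : Type) [Field F] [CharZero F] [IsAlgClosed F]
  (Q : Fin 3 → MvPolynomial (Fin 3) F) (dg : Fin 3 → ℕ), NC3 Q dg → ∀ i0 i1 : ℤ,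
  IsCoprime i0 i1 → ∃ Z : Finset F, ∀ (K R : Type) [Field K] [CharZero K] [CommRing R]
  [IsDomain R] [Algebra F K] [Algebra K R] (dl : Derivation ℤ K K) (dR : Derivation ℤ R R),
  NR F K R dl dR → ∀ (q : Fin 3 → R) (U0 U1 : Rˣ), (U0 : R) = vq K q (Q 0) →
  (U1 : R) = vq K q (Q 1) → vq K q (Q 2) = 1 → vq K q (Jac Q) ≠ 0 → ∀ xi : K,
  ((U0 ^ i0 * U1 ^ i1 : Rˣ) : R) = algebraMap K R xi →
  (InK K (U0 : R) ∧ InK K (U1 : R)) ∨ ∃ c ∈ Z, xi ^ (dg 2) = algebraMap F K c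

/-- algebraic theorem for Nevanlinna rings -/
def S_T3R : Prop := ∀ (F : Type) [Field F] [CharZero F] [IsAlgClosed F]
  (Q : Fin 3 → MvPolynomial (Fin 3) F) (dg : Fin 3 → ℕ), NC3 Q dg →
  ∃ (B : MvPolynomial (Fin 3) F) (nB : ℕ), B ≠ 0 ∧ B.IsHomogeneous nB ∧
  ∀ (K R : Type) [Field K] [CharZero K] [CommRing R] [IsDomain R] [Algebra F K] [Algebra K R]
  (dl : Derivation ℤ K K) (dR : Derivation ℤ R R), NR F K R dl dR → ∀ q : Fin 3 → R, Pt K Q q →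
  vq K q B ≠ 0 → InK K (vq K q (Q 0)) ∧ InK K (vq K q (Q 1))

/-- THE ALGEBRAIC THEOREM -/
def S_T3 : Prop := ∀ (F : Type) [Field F] [CharZero F] [IsAlgClosed F]
  (Q : Fin 3 → MvPolynomial (Fin 3) F) (dg : Fin 3 → ℕ), NC3 Q dg →
  ∃ (B : MvPolynomial (Fin 3) F) (nB : ℕ), B ≠ 0 ∧ B.IsHomogeneous nB ∧
  ∀ (L : Type) [Field L] [Algebra F L] (D : Derivation F L L) (S Sm : Subalgebra F L),
  IsNev D S Sm → ∀ q : Fin 3 → L, (∀ j, q j ∈ S) →
  (∀ a : Fin 3, a ≠ 2 → aeval q (Q a) ≠ 0 ∧ (aeval q (Q a))⁻¹ ∈ S) → aeval q (Q 2) = 1 →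
  aeval q B ≠ 0 → ∀ a : Fin 3, a ≠ 2 → aeval q (Q a) ∈ Sm ∧ (aeval q (Q a))⁻¹ ∈ Sm

end

end Pool.Agent.Work.MP_6d7a54_an.NF
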