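import Mathlib
import Pool.Agent.Work.MP_6d7a54_an.NF.StmtsB

/-!
# Second step, unramified case (MP_6d7a54_an)
-/

namespace Pool.Agent.Work.MP_6d7a54_an.NF

open MvPolynomial

namespace B2Bx

theorem aeval_vq {F K Om : Type} [Field F] [Field K] [Field Om] [Algebra F K] [Algebra K Om]
    [Algebra F Om] [IsScalarTower F K Om] (w : Fin 3 → Om) (P : MvPolynomial (Fin 3) F) :
    vq K w P = aeval w P := by
  unfold vq
  exact MvPolynomial.aeval_map_algebraMap K w P

/-- the data of the point given by `S_Pl` -/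
structure PlD {F : Type} [Field F] (Q : Fin 3 → MvPolynomial (Fin 3) F) (dg : Fin 3 → ℕ)
    (K : Type) [Field K] [Algebra F K] (m : Fin 3 → ℤ) (kap : Fin 3 → K) (N : ℕ) (k : ℤ)
    (Om : Type) [Field Om] [Algebra K Om] (w : Fin 3 → Om) (a0 : Fin 3) : Prop where
  hw : w ≠ 0
  h1 : ∀ b, (dg b : ℤ) * m a0 ≤ dg a0 * m b ∧
    (vq K w (Q b) = 0 ↔ (dg b : ℤ) * m a0 < dg a0 * m b)
  h2 : (N : ℤ) * ((∑ a, (dg a : ℤ)) - 3) * m a0 ≤ k * dg a0 ∧
    (vq K w (Jac Q) = 0 ↔ (N : ℤ) * ((∑ a, (dg a : ℤ)) - 3) * m a0 < k * dg a0)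
  h3 : ∀ i : Fin 3 → ℤ, ∑ a, i a * (dg a : ℤ) = 0 → ∑ a, i a * m a = 0 →
    (∀ a, i a ≠ 0 → vq K w (Q a) ≠ 0) →
    ∏ a, algebraMap K Om (kap a) ^ (i a) = ∏ a, (vq K w (Q a)) ^ (i a)

theorem core {F : Type} [Field F] {Q : Fin 3 → MvPolynomial (Fin 3) F} {dg : Fin 3 → ℕ}
    {i : Fin 3 → ℤ} (hi : ∑ a, i a * (dg a : ℤ) = 0) {Z : Finset F}
    (hZ : ∀ (Om : Type) [Field Om] [Algebra F Om] (w : Fin 3 → Om) (c : Fin 3), w ≠ 0 →
      i c = 0 → aeval w (Q c) = 0 → aeval w (Jac Q) = 0 →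
      ∃ z ∈ Z, ∏ a, (aeval w (Q a)) ^ (i a) = algebraMap F Om z)
    {K : Type} [Field K] [Algebra F K] {m : Fin 3 → ℤ} (hm : ∑ a, i a * m a = 0)
    {kap : Fin 3 → K} {N : ℕ} {k : ℤ} {Om : Type} [Field Om] [Algebra K Om] {w : Fin 3 → Om}
    {a0 : Fin 3} (h : PlD Q dg K m kap N k Om w a0) (c : Fin 3)
    (hc : (dg c : ℤ) * m a0 < dg a0 * m c)
    (hb : ∀ b, b ≠ c → (dg b : ℤ) * m a0 = dg a0 * m b)
    (hk : (N : ℤ) * ((∑ a, (dg a : ℤ)) - 3) * m a0 < k * dg a0) :
    ∃ z ∈ Z, ∏ a, kap a ^ (i a) = algebraMap F K z := by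
  letI : Algebra F Om := ((algebraMap K Om).comp (algebraMap F K)).toAlgebra
  haveI : IsScalarTower F K Om := IsScalarTower.of_algebraMap_eq' rfl
  have hic : i c = 0 := by
    have e : ∑ a, i a * ((dg a0 : ℤ) * m a - dg a * m a0) = 0 := by
      have e1 : ∑ a, i a * ((dg a0 : ℤ) * m a - dg a * m a0) =
          dg a0 * ∑ a, i a * m a - m a0 * ∑ a, i a * (dg a : ℤ) := by
        rw [Finset.mul_sum, Finset.mul_sum, ← Finset.sum_sub_distrib]
        exact Finset.sum_congr rfl fun a _ => by ring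
      rw [e1, hm, hi]
      ring
    rw [Finset.sum_eq_single c (fun b _ hbc => by rw [hb b hbc]; ring) (by simp)] at e
    rcases mul_eq_zero.1 e with h0 | h0
    · exact h0
    · exfalso; linarith
  obtain ⟨z, hz, hz'⟩ := hZ Om w c h.hw hic
    (by rw [← aeval_vq (K := K)]; exact (h.h1 c).2.2 hc)
    (by rw [← aeval_vq (K := K)]; exact h.h2.2.2 hk)
  refine ⟨z, hz, ?_⟩
  apply (algebraMap K Om).injective
  have h4 := h.h3 i hi hm (fun a ha h0 => by
    have hac : a ≠ c := by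
      rintro rfl
      exact ha hic
    have h5 := (h.h1 a).2.1 h0
    rw [hb a hac] at h5
    exact lt_irrefl _ h5)
  rw [map_prod]
  have e1 : ∀ a, algebraMap K Om (kap a ^ (i a)) = algebraMap K Om (kap a) ^ (i a) := fun a =>
    map_zpow₀ _ _ _
  rw [Finset.prod_congr rfl fun a _ => e1 a, h4]
  have e2 : ∀ a, vq K w (Q a) ^ (i a) = (aeval w (Q a)) ^ (i a) := fun a => by rw [aeval_vq]
  rw [Finset.prod_congr rfl fun a _ => e2 a, hz']
  exact IsScalarTower.algebraMap_apply F K Om z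

theorem eqmin {F : Type} [Field F] {Q : Fin 3 → MvPolynomial (Fin 3) F} {dg : Fin 3 → ℕ}
    (hNC : NC3 Q dg) {K : Type} [Field K] [Algebra F K] {m : Fin 3 → ℤ}
    {kap : Fin 3 → K} {N : ℕ} {k : ℤ} {Om : Type} [Field Om] [Algebra K Om] {w : Fin 3 → Om}
    {a0 : Fin 3} (h : PlD Q dg K m kap N k Om w a0) (b c : Fin 3) (hbc : b ≠ c)
    (hb : (dg b : ℤ) * m a0 < dg a0 * m b) (hc : (dg c : ℤ) * m a0 < dg a0 * m c) :
    (N : ℤ) * ((∑ a, (dg a : ℤ)) - 3) * m a0 = k * dg a0 := by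
  letI : Algebra F Om := ((algebraMap K Om).comp (algebraMap F K)).toAlgebra
  haveI : IsScalarTower F K Om := IsScalarTower.of_algebraMap_eq' rfl
  have h1 := hNC.n1 Om w h.hw b c hbc
    (by rw [← aeval_vq (K := K)]; exact (h.h1 b).2.2 hb)
    (by rw [← aeval_vq (K := K)]; exact (h.h1 c).2.2 hc)
  rw [← aeval_vq (K := K)] at h1
  by_contra hne
  exact h1 (h.h2.2.2 (lt_of_le_of_ne h.h2.1 hne))

theorem tau_inv {K L : Type} [Field K] [Field L] [Algebra K L] (tau : L)
    (h : ∀ p : Polynomial K, Polynomial.aeval tau p = 0 → p = 0) (p : Polynomial K)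
    (hp : Polynomial.aeval tau⁻¹ p = 0) : p = 0 := by
  have h0 : tau ≠ 0 := by
    intro h0
    have h1 := h Polynomial.X (by rw [h0, Polynomial.aeval_X])
    exact Polynomial.X_ne_zero h1
  letI : Invertible tau⁻¹ := invertibleOfNonzero (inv_ne_zero h0)
  have h1 : Polynomial.eval₂ (algebraMap K L) (⅟ (tau⁻¹)) (Polynomial.reverse p) = 0 :=
    (Polynomial.eval₂_reverse_eq_zero_iff (algebraMap K L) tau⁻¹ p).2 hp
  rw [invOf_eq_inv, inv_inv] at h1
  have h2 := h _ h1
  exact Polynomial.reverse_eq_zero.1 h2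

end B2Bx

open B2Bx in
theorem TwoB_proof (h1 : S_Pl) (h2 : S_CV2) (h3 : S_Int) : S_2B := by
  intro F _ _ _ Q dg hNC i hi0 hi
  obtain ⟨Z, hZ⟩ := h2 F Q dg hNC i hi
  refine ⟨Z, ?_⟩
  intro K L _ _ _ _ q m kap tau N k kJ hN hkJ hkap hm2 hm0 him htau hQ hJ
  obtain ⟨Om, _, _, w, a0, hw, hwa, g1, g2, g3⟩ :=
    h1 F Q dg hNC K L q m kap tau N k kJ hN hkJ hkap htau hQ hJ
  have D0 : PlD Q dg K m kap N k Om w a0 := ⟨hw, g1, g2, g3⟩
  obtain ⟨Om', _, _, w', a1, hw', hwa', g1', g2', g3'⟩ :=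
    h1 F Q dg hNC K L q (fun a => - m a) kap tau⁻¹ N (-k) kJ hN hkJ hkap
      (fun p hp => tau_inv tau htau p hp)
      (fun a => by rw [hQ a, inv_zpow, zpow_neg, inv_inv])
      (by rw [hJ, inv_zpow, zpow_neg, inv_inv])
  have D1 : PlD Q dg K (fun a => - m a) kap N (-k) Om' w' a1 := ⟨hw', g1', g2', g3'⟩
  have him' : ∑ a, i a * (- m a) = 0 := by
    rw [Finset.sum_congr rfl (fun a _ => mul_neg (i a) (m a)), Finset.sum_neg_distrib, him, neg_zero]
  have hdpos : ∀ a, (0 : ℤ) < dg a := fun a => by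
    have := hNC.pos a
    exact_mod_cast this
  obtain ⟨E, hE⟩ : ∃ E : ℤ, E = (N : ℤ) * ((∑ a, (dg a : ℤ)) - 3) := ⟨_, rfl⟩
  have hEpos : 0 < E := by
    rw [hE]
    apply mul_pos
    · exact_mod_cast Nat.pos_of_ne_zero hN
    · have h4 : (4 : ℤ) ≤ ∑ a, (dg a : ℤ) := by exact_mod_cast hNC.deg
      linarith
  have c0 : ∀ b, (dg b : ℤ) * m a0 ≤ dg a0 * m b := fun b => (g1 b).1
  have c1 : ∀ b, (dg a1 : ℤ) * m b ≤ dg b * m a1 := fun b => by
    have := (g1' b).1
    linarith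
  have hstr : (dg a1 : ℤ) * m a0 < dg a0 * m a1 := by
    rcases lt_or_eq_of_le (c0 a1) with h | h
    · exact h
    · exfalso
      have hall : ∀ b, (dg b : ℤ) * m a0 = dg a0 * m b := by
        intro b
        have e1 : (dg a1 : ℤ) * (dg a0 * m b) ≤ dg a1 * (dg b * m a0) := by
          calc (dg a1 : ℤ) * (dg a0 * m b) = dg a0 * (dg a1 * m b) := by ring
            _ ≤ dg a0 * (dg b * m a1) := mul_le_mul_of_nonneg_left (c1 b) (hdpos a0).le
            _ = dg b * (dg a0 * m a1) := by ring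
            _ = dg b * (dg a1 * m a0) := by rw [h]
            _ = _ := by ring
        exact le_antisymm (c0 b) (le_of_mul_le_mul_left e1 (hdpos a1))
      have e2 : m a0 = 0 := by
        have e3 := hall 2
        rw [hm2, mul_zero] at e3
        rcases mul_eq_zero.1 e3 with e4 | e4
        · exact absurd e4 (hdpos 2).ne'
        · exact e4
      apply hm0
      funext b
      have e3 := hall b
      rw [e2, mul_zero] at e3
      rcases mul_eq_zero.1 e3.symm with e4 | e4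
      · exact absurd e4 (hdpos a0).ne'
      · exact e4
  have ha01 : a0 ≠ a1 := by
    rintro rfl
    exact lt_irrefl _ hstr
  obtain ⟨c, hca0, hca1, hcov⟩ : ∃ c, c ≠ a0 ∧ c ≠ a1 ∧ ∀ b, b = a0 ∨ b = a1 ∨ b = c := by
    have key : ∀ a0 a1 : Fin 3, a0 ≠ a1 →
        ∃ c, c ≠ a0 ∧ c ≠ a1 ∧ ∀ b, b = a0 ∨ b = a1 ∨ b = c := by decide
    exact key a0 a1 ha01
  rcases lt_or_eq_of_le (c0 c) with hlt | heq
  · -- `x_c > min`
    have k1 := eqmin hNC D0 c a1 hca1 hlt hstr
    rw [← hE] at k1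
    rcases lt_or_eq_of_le (c1 c) with hlt' | heq'
    · exfalso
      have k2 := eqmin hNC D1 c a0 hca0 (by linarith) (by linarith)
      rw [← hE] at k2
      have k3 : E * (dg a0 * m a1 - dg a1 * m a0) = 0 := by
        linear_combination (- (dg a0 : ℤ)) * k2 - (dg a1 : ℤ) * k1
      have k4 : 0 < E * (dg a0 * m a1 - dg a1 * m a0) := mul_pos hEpos (by linarith)
      linarith
    · refine core hi hZ him' D1 a0 (by linarith) ?_ ?_
      · intro b hb
        rcases hcov b with e | e | e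
        · exact absurd e hb
        · subst e; rfl
        · subst e; linarith
      · rw [← hE]
        have k5 : E * (dg a1 * m a0) < E * (dg a0 * m a1) :=
          mul_lt_mul_of_pos_left hstr hEpos
        have k6 : (dg a0 : ℤ) * (k * dg a1) < dg a0 * (E * m a1) := by
          calc (dg a0 : ℤ) * (k * dg a1) = dg a1 * (k * dg a0) := by ring
            _ = dg a1 * (E * m a0) := by rw [k1]
            _ = E * (dg a1 * m a0) := by ring
            _ < E * (dg a0 * m a1) := k5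
            _ = _ := by ring
        have k7 := lt_of_mul_lt_mul_left k6 (hdpos a0).le
        linarith
  · -- `x_c = min`
    have hlt' : (dg a1 : ℤ) * m c < dg c * m a1 := by
      have e1 : (dg a0 : ℤ) * (dg a1 * m c) < dg a0 * (dg c * m a1) := by
        calc (dg a0 : ℤ) * (dg a1 * m c) = dg a1 * (dg a0 * m c) := by ring
          _ = dg a1 * (dg c * m a0) := by rw [heq]
          _ = dg c * (dg a1 * m a0) := by ring
          _ < dg c * (dg a0 * m a1) := mul_lt_mul_of_pos_left hstr (hdpos c)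
          _ = _ := by ring
      exact lt_of_mul_lt_mul_left e1 (hdpos a0).le
    have k2 := eqmin hNC D1 c a0 hca0 (by linarith) (by linarith)
    rw [← hE] at k2
    refine core hi hZ him D0 a1 hstr ?_ ?_
    · intro b hb
      rcases hcov b with e | e | e
      · subst e; rfl
      · exact absurd e hb
      · subst e; exact heq
    · rw [← hE]
      have k5 : E * (dg a1 * m a0) < E * (dg a0 * m a1) :=
        mul_lt_mul_of_pos_left hstr hEpos
      have k3 : E * m a1 = k * dg a1 := by linarith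
      have k6 : (dg a1 : ℤ) * (E * m a0) < dg a1 * (k * dg a0) := by
        calc (dg a1 : ℤ) * (E * m a0) = E * (dg a1 * m a0) := by ring
          _ < E * (dg a0 * m a1) := k5
          _ = dg a0 * (E * m a1) := by ring
          _ = dg a0 * (k * dg a1) := by rw [k3]
          _ = _ := by ring
      exact lt_of_mul_lt_mul_left k6 (hdpos a1).le

end Pool.Agent.Work.MP_6d7a54_an.NF
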