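import Mathlib
import Pool.Agent.Work.MP_6d7a54_an.NF.StmtsB

/-!
# Two plane curves meet (MP_6d7a54_an)
-/

namespace Pool.Agent.Work.MP_6d7a54_an.NF

open MvPolynomial

namespace BBezx

/-- substitution of `0` for the first `j` variables -/
noncomputable def ph (Om : Type) [Field Om] (j : ℕ) :
    MvPolynomial (Fin 3) Om →ₐ[Om] MvPolynomial (Fin 3) Om :=
  aeval (fun i : Fin 3 => if (i : ℕ) < j then 0 else X i)

theorem ph_X (Om : Type) [Field Om] (j : ℕ) (i : Fin 3) :
    ph Om j (X i) = if (i : ℕ) < j then 0 else X i := by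
  unfold ph
  rw [aeval_X]

theorem ph_ph (Om : Type) [Field Om] (j l : ℕ) (h : j ≤ l) (p : MvPolynomial (Fin 3) Om) :
    ph Om l (ph Om j p) = ph Om l p := by
  have h1 : (ph Om l).comp (ph Om j) = ph Om l := by
    refine MvPolynomial.algHom_ext fun i => ?_
    rw [AlgHom.comp_apply, ph_X, ph_X]
    by_cases h2 : (i : ℕ) < j
    · rw [if_pos h2, if_pos (h2.trans_le h), map_zero]
    · rw [if_neg h2, ph_X]
  exact congrArg (fun F : MvPolynomial (Fin 3) Om →ₐ[Om] MvPolynomial (Fin 3) Om => F p) h1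

/-- the kernels -/
noncomputable def kr (Om : Type) [Field Om] (j : ℕ) : Ideal (MvPolynomial (Fin 3) Om) :=
  RingHom.ker (ph Om j)

theorem mem_kr (Om : Type) [Field Om] (j : ℕ) (p : MvPolynomial (Fin 3) Om) :
    p ∈ kr Om j ↔ ph Om j p = 0 := Iff.rfl

instance kr_prime (Om : Type) [Field Om] (j : ℕ) : (kr Om j).IsPrime :=
  RingHom.ker_isPrime (ph Om j)

theorem kr_lt (Om : Type) [Field Om] (j : Fin 3) : kr Om j < kr Om (j + 1) := by
  rw [SetLike.lt_iff_le_and_exists]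
  refine ⟨fun p hp => ?_, X j, ?_, ?_⟩
  · rw [mem_kr] at hp ⊢
    rw [← ph_ph Om j (j + 1) (Nat.le_succ _), hp, map_zero]
  · rw [mem_kr, ph_X, if_pos (Nat.lt_succ_self _)]
  · rw [mem_kr, ph_X, if_neg (lt_irrefl _)]
    exact X_ne_zero j

theorem kr_height (Om : Type) [Field Om] : 3 ≤ (kr Om 3).height := by
  have h0 := Ideal.height_add_one_le_of_lt_of_isPrime (kr_lt Om 0)
  have h1 := Ideal.height_add_one_le_of_lt_of_isPrime (kr_lt Om 1)
  have h2 := Ideal.height_add_one_le_of_lt_of_isPrime (kr_lt Om 2)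
  have e0 : (((0 : Fin 3) : ℕ) + 1) = ((1 : Fin 3) : ℕ) := rfl
  have e1 : (((1 : Fin 3) : ℕ) + 1) = ((2 : Fin 3) : ℕ) := rfl
  have e2 : (((2 : Fin 3) : ℕ) + 1) = 3 := rfl
  rw [e0] at h0
  rw [e1] at h1
  rw [e2] at h2
  calc (3 : ℕ∞) = 0 + 1 + 1 + 1 := by norm_num
    _ ≤ (kr Om ((0 : Fin 3) : ℕ)).height + 1 + 1 + 1 := by gcongr; exact zero_le
    _ ≤ (kr Om ((1 : Fin 3) : ℕ)).height + 1 + 1 := by gcongr
    _ ≤ (kr Om ((2 : Fin 3) : ℕ)).height + 1 := by gcongr
    _ ≤ _ := h2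

theorem kr_le (Om : Type) [Field Om] : kr Om 3 ≤ vanishingIdeal Om {(0 : Fin 3 → Om)} := by
  intro p hp
  rw [mem_kr] at hp
  rw [mem_vanishingIdeal_singleton_iff]
  have h1 : (aeval (0 : Fin 3 → Om)).comp (ph Om 3) = aeval (0 : Fin 3 → Om) := by
    refine MvPolynomial.algHom_ext fun i => ?_
    rw [AlgHom.comp_apply, ph_X, if_pos i.2, map_zero, aeval_X]
    rfl
  have h2 : aeval (0 : Fin 3 → Om) (ph Om 3 p) = aeval (0 : Fin 3 → Om) p :=
    congrArg (fun F : MvPolynomial (Fin 3) Om →ₐ[Om] Om => F p) h1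
  rw [← h2, hp, map_zero]

theorem eval_zero_of_hom {Om : Type} [Field Om] {f : MvPolynomial (Fin 3) Om} {a : ℕ}
    (hf : f.IsHomogeneous a) (ha : 1 ≤ a) : aeval (0 : Fin 3 → Om) f = 0 := by
  rw [MvPolynomial.aeval_zero, constantCoeff_eq, hf.coeff_eq_zero (d := 0), map_zero]
  rw [map_zero]
  omega

end BBezx

theorem Bez_proof : S_Bez := by
  intro Om _ _ f g a b hf hg ha hb
  by_contra hcon
  push Not at hcon
  have hz : zeroLocus Om (Ideal.span {f, g}) = {(0 : Fin 3 → Om)} := by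
    rw [zeroLocus_span]
    ext x
    rw [Set.mem_singleton_iff]
    constructor
    · intro hx
      by_contra hne
      exact hcon x hne (hx f (Set.mem_insert _ _)) (hx g (Set.mem_insert_of_mem _ rfl))
    · rintro rfl p hp
      rcases hp with rfl | hp
      · exact BBezx.eval_zero_of_hom hf ha
      · rw [Set.mem_singleton_iff] at hp
        subst hp
        exact BBezx.eval_zero_of_hom hg hb
  have hrad : (Ideal.span {f, g}).radical = vanishingIdeal Om {(0 : Fin 3 → Om)} := by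
    rw [← vanishingIdeal_zeroLocus_eq_radical (K := Om), hz]
  have hmin : vanishingIdeal Om {(0 : Fin 3 → Om)} ∈ (Ideal.span {f, g}).minimalPrimes := by
    refine ⟨⟨inferInstance, ?_⟩, ?_⟩
    · rw [← hrad]
      exact Ideal.le_radical
    · rintro q ⟨hq, hle⟩ _
      rw [← hrad]
      exact hq.radical_le_iff.2 hle
  have h1 := Ideal.height_le_card_of_mem_minimalPrimes_span (Set.toFinite _) hmin
  have h2 : ((({f, g} : Set (MvPolynomial (Fin 3) Om)).ncard : ℕ) : ℕ∞) ≤ 2 := by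
    have := Set.ncard_insert_le f {g}
    rw [Set.ncard_singleton] at this
    exact_mod_cast this
  have h3 := (BBezx.kr_height Om).trans (Ideal.height_mono (BBezx.kr_le Om))
  have h4 : (3 : ℕ∞) ≤ 2 := h3.trans (h1.trans h2)
  exact absurd h4 (by norm_num)

end Pool.Agent.Work.MP_6d7a54_an.NF
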