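import Pool.Agent.Work.MP_6d7a54_an.NF.StmtsB

/-!
# Item Bor: Borel's lemma
-/

namespace Pool.Agent.Work.MP_6d7a54_an.NF

open MvPolynomial

noncomputable section

namespace BBorx

variable {F K R : Type} [Field F] [Field K] [CommRing R] [IsDomain R] [Algebra F K] [Algebra K R]
  {dl : Derivation ℤ K K} {dR : Derivation ℤ R R}

theorem der (h : NR F K R dl dR) (a l : K) {x : R} (hx : dR x = algebraMap K R l * x) :
    dR (algebraMap K R a * x) = algebraMap K R (dl a + l * a) * x := by
  rw [Derivation.leibniz, h.comp, hx, smul_eq_mul, smul_eq_mul, map_add, map_mul]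
  ring

theorem inj (a : K) (h : algebraMap K R a = 0) : a = 0 :=
  (algebraMap K R).injective (by rw [h, map_zero])

end BBorx

open BBorx in
theorem Bor_proof : S_Bor := by
  intro F K R _ _ _ _ _ _ dl dR hNR ι _ mo p hmo
  classical
  suffices H : ∀ (n : ℕ) (p : ι → K), (Finset.univ.filter fun i => p i ≠ 0).card = n →
      ∑ i, algebraMap K R (p i) * mo i = 0 → (∃ i, p i ≠ 0) →
      ∃ i j, i ≠ j ∧ p i ≠ 0 ∧ p j ≠ 0 ∧ ∃ b : K, mo i = algebraMap K R b * mo j from
    fun h1 h2 => H _ p rfl h1 h2
  choose l hl using fun i => hNR.unit (mo i) (hmo i)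
  intro n
  induction n using Nat.strong_induction_on with
  | _ n ih =>
    intro p hn hsum hp
    obtain ⟨i0, hi0⟩ := hp
    obtain ⟨lam, hlam⟩ : ∃ lam, lam = dl (p i0) / p i0 + l i0 := ⟨_, rfl⟩
    obtain ⟨q, hq⟩ : ∃ q : ι → K, ∀ i, q i = dl (p i) + l i * p i - lam * p i :=
      ⟨_, fun _ => rfl⟩
    have hq0 : q i0 = 0 := by
      rw [hq, hlam]
      field_simp
      ring
    have hpq : ∀ i, p i = 0 → q i = 0 := by
      intro i hi
      rw [hq, hi]
      simp
    have hder : ∀ i, dR (algebraMap K R (p i) * mo i) =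
        algebraMap K R (dl (p i) + l i * p i) * mo i := fun i => der hNR _ _ (hl i)
    have hqsum : ∑ i, algebraMap K R (q i) * mo i = 0 := by
      have h1 : ∑ i, algebraMap K R (q i) * mo i =
          dR (∑ i, algebraMap K R (p i) * mo i) -
            algebraMap K R lam * ∑ i, algebraMap K R (p i) * mo i := by
        rw [map_sum, Finset.mul_sum, ← Finset.sum_sub_distrib]
        refine Finset.sum_congr rfl fun i _ => ?_
        rw [hder, hq, map_sub, map_mul]
        ring
      rw [h1, hsum, map_zero, mul_zero, sub_zero]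
    by_cases hqe : ∃ i, q i ≠ 0
    · have hlt : (Finset.univ.filter fun i => q i ≠ 0).card < n := by
        rw [← hn]
        refine Finset.card_lt_card ?_
        rw [Finset.ssubset_iff_of_subset]
        · refine ⟨i0, ?_, ?_⟩
          · simp [hi0]
          · simp [hq0]
        · intro i hi
          simp only [Finset.mem_filter, Finset.mem_univ, true_and] at hi ⊢
          exact fun h => hi (hpq i h)
      obtain ⟨i, j, hij, hqi, hqj, hb⟩ := ih _ hlt q rfl hqsum hqe
      exact ⟨i, j, hij, fun h => hqi (hpq i h), fun h => hqj (hpq j h), hb⟩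
    · have hqz : ∀ i, q i = 0 := fun i => by
        by_contra h
        exact hqe ⟨i, h⟩
      have hex : ∃ i, i ≠ i0 ∧ p i ≠ 0 := by
        by_contra h
        have h2 : ∀ i, i ≠ i0 → p i = 0 := fun i hi => by
          by_contra h3
          exact h ⟨i, hi, h3⟩
        rw [Finset.sum_eq_single i0 (fun i _ hi => by rw [h2 i hi, map_zero, zero_mul])
          (fun h => absurd (Finset.mem_univ _) h)] at hsum
        rcases mul_eq_zero.1 hsum with h3 | h3
        · exact hi0 (inj _ h3)
        · exact (hmo i0).ne_zero h3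
      obtain ⟨i, hi, hpi⟩ := hex
      refine ⟨i, i0, hi, hpi, hi0, ?_⟩
      obtain ⟨w, hw⟩ := hmo i0
      have hwi : ((w⁻¹ : Rˣ) : R) * mo i0 = 1 := by
        rw [← hw]
        exact w.inv_mul
      have hy : dR (algebraMap K R (p i / p i0) * (mo i * ((w⁻¹ : Rˣ) : R))) = 0 := by
        obtain ⟨y, hyd⟩ : ∃ y, y = algebraMap K R (p i / p i0) * (mo i * ((w⁻¹ : Rˣ) : R)) :=
          ⟨_, rfl⟩
        rw [← hyd]
        have h1 : y * (algebraMap K R (p i0) * mo i0) = algebraMap K R (p i) * mo i := by
          calc y * (algebraMap K R (p i0) * mo i0) =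
              (algebraMap K R (p i / p i0) * algebraMap K R (p i0)) * mo i *
                (((w⁻¹ : Rˣ) : R) * mo i0) := by
                rw [hyd]
                ring
            _ = algebraMap K R (p i) * mo i := by
                rw [← map_mul, div_mul_cancel₀ _ hi0, hwi, mul_one]
        have h2 : ∀ j, dR (algebraMap K R (p j) * mo j) =
            algebraMap K R lam * (algebraMap K R (p j) * mo j) := by
          intro j
          rw [hder]
          have h3 : dl (p j) + l j * p j = lam * p j := by
            have := hqz j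
            rw [hq] at this
            exact sub_eq_zero.1 this
          rw [h3, map_mul]
          ring
        have h3 := congrArg dR h1
        rw [Derivation.leibniz, h2, h2, smul_eq_mul, smul_eq_mul, ← h1] at h3
        have h4 : (algebraMap K R (p i0) * mo i0) * dR y = 0 := by
          linear_combination h3
        rcases mul_eq_zero.1 h4 with h5 | h5
        · rcases mul_eq_zero.1 h5 with h6 | h6
          · exact absurd (inj _ h6) hi0
          · exact absurd h6 (hmo i0).ne_zero
        · exact h5
      obtain ⟨b, hb⟩ := hNR.const _ _ ((hmo i).mul (w⁻¹).isUnit) (div_ne_zero hpi hi0) hy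
      refine ⟨b, ?_⟩
      calc mo i = mo i * (((w⁻¹ : Rˣ) : R) * mo i0) := by rw [hwi, mul_one]
        _ = (mo i * ((w⁻¹ : Rˣ) : R)) * mo i0 := by ring
        _ = _ := by rw [hb]

end

end Pool.Agent.Work.MP_6d7a54_an.NF
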