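import Pool.Agent.Work.MP_6d7a54_an.NF.StmtsB

/-!
# Critical values of a monomial in three forms (MP_6d7a54_an)
-/

set_option autoImplicit false

namespace Pool.Agent.Work.MP_6d7a54_an.NF

open MvPolynomial

noncomputable section

namespace BCV1x

/-- values of a form at multiples of a point -/
lemma scale {F Om : Type} [Field F] [Field Om] [Algebra F Om] {φ : MvPolynomial (Fin 3) F} {n : ℕ}
    (h : φ.IsHomogeneous n) (lam : Om) (p : Fin 3 → Om) :
    aeval (fun j => lam * p j) φ = lam ^ n * aeval p φ := by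
  rw [aeval_def, aeval_def, eval₂_eq', eval₂_eq', Finset.mul_sum]
  refine Finset.sum_congr rfl fun d hd => ?_
  have hdn : ∑ j, d j = n := by
    by_contra hne
    refine (mem_support_iff.1 hd) (h.coeff_eq_zero ?_)
    rwa [Finsupp.degree_eq_sum]
  simp_rw [mul_pow, Finset.prod_mul_distrib, Finset.prod_pow_eq_pow_sum, hdn]
  ring

lemma aeval_zero_point {F Om : Type} [Field F] [Field Om] [Algebra F Om]
    {φ : MvPolynomial (Fin 3) F} {n : ℕ} (h : φ.IsHomogeneous n) (hn : 1 ≤ n) :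
    aeval (0 : Fin 3 → Om) φ = 0 := by
  have h1 := scale h (0 : Om) 0
  have e : (fun j : Fin 3 => (0 : Om) * (0 : Fin 3 → Om) j) = 0 := by
    funext j; simp
  rw [e, zero_pow (by omega), zero_mul] at h1
  exact h1

/-- a combination coprime to `J` -/
lemma exists_comb {F : Type} [Field F] [Infinite F] (J : MvPolynomial (Fin 3) F) (hJ : J ≠ 0)
    (hJu : ¬ IsUnit J) (c : Fin 3 → MvPolynomial (Fin 3) F)
    (hc : ∀ h, Irreducible h → h ∣ J → ∃ j, ¬ h ∣ c j) :
    ∃ lam : F, c 0 + C lam * c 1 + C (lam ^ 2) * c 2 ≠ 0 ∧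
      IsRelPrime J (c 0 + C lam * c 1 + C (lam ^ 2) * c 2) := by
  classical
  set g : F → MvPolynomial (Fin 3) F := fun lam => c 0 + C lam * c 1 + C (lam ^ 2) * c 2 with hg
  have hfin : ∀ h, Irreducible h → h ∣ J → {lam : F | h ∣ g lam}.Finite := by
    intro h hh hhJ
    obtain ⟨j, hj⟩ := hc h hh hhJ
    have hprime : (Ideal.span {h}).IsPrime := (Ideal.span_singleton_prime hh.ne_zero).2 hh.prime
    let R := MvPolynomial (Fin 3) F ⧸ Ideal.span {h}
    let π : MvPolynomial (Fin 3) F →+* R := Ideal.Quotient.mk (Ideal.span {h})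
    have hπ : ∀ x, π x = 0 ↔ h ∣ x := fun x => by
      rw [Ideal.Quotient.eq_zero_iff_mem, Ideal.mem_span_singleton]
    let p : Polynomial R := Polynomial.C (π (c 0)) + Polynomial.C (π (c 1)) * Polynomial.X +
      Polynomial.C (π (c 2)) * Polynomial.X ^ 2
    have hp : p ≠ 0 := by
      intro hp0
      apply hj
      rw [← hπ]
      have e0 := congrArg (fun q => Polynomial.coeff q 0) hp0
      have e1 := congrArg (fun q => Polynomial.coeff q 1) hp0
      have e2 := congrArg (fun q => Polynomial.coeff q 2) hp0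
      simp [p, Polynomial.coeff_X, Polynomial.coeff_C, Polynomial.coeff_X_pow] at e0 e1 e2
      fin_cases j
      · exact e0
      · exact e1
      · exact e2
    have hroots : {x : R | p.IsRoot x}.Finite := Polynomial.finite_setOfPred_isRoot hp
    have hinj : Function.Injective (π.comp (C : F →+* MvPolynomial (Fin 3) F)) :=
      RingHom.injective _
    refine (hroots.preimage hinj.injOn).subset fun lam hlam => ?_
    have h1 : π (g lam) = 0 := (hπ _).2 hlam
    change p.IsRoot (π (C lam))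
    rw [Polynomial.IsRoot.def]
    simp only [p, Polynomial.eval_add, Polynomial.eval_mul, Polynomial.eval_C, Polynomial.eval_X,
      Polynomial.eval_pow]
    rw [← h1, hg]
    simp only [map_add, map_mul, map_pow]
    ring
  have hfin2 : (⋃ h ∈ (UniqueFactorizationMonoid.factors J).toFinset,
      {lam : F | h ∣ g lam}).Finite := by
    refine Set.Finite.biUnion (Finset.finite_toSet _) fun h hh => ?_
    have hh' : h ∈ UniqueFactorizationMonoid.factors J := by simpa using hh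
    exact hfin h (UniqueFactorizationMonoid.irreducible_of_factor h hh')
      (UniqueFactorizationMonoid.dvd_of_mem_factors hh')
  obtain ⟨lam, hlam⟩ := hfin2.infinite_compl.nonempty
  have hnot : ∀ h, Irreducible h → h ∣ J → ¬ h ∣ g lam := by
    intro h hh hhJ hhg
    obtain ⟨q, hq, hqa⟩ := UniqueFactorizationMonoid.exists_mem_factors_of_dvd hJ hh hhJ
    apply hlam
    simp only [Set.mem_iUnion, exists_prop]
    exact ⟨q, by simpa using hq, hqa.symm.dvd.trans hhg⟩
  refine ⟨lam, ?_, ?_⟩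
  · intro h0
    obtain ⟨h, hh, hhJ⟩ := WfDvdMonoid.exists_irreducible_factor hJu hJ
    apply hnot h hh hhJ
    change h ∣ c 0 + C lam * c 1 + C (lam ^ 2) * c 2
    rw [h0]
    exact dvd_zero _
  · intro d hdJ hdg
    by_contra hd
    have hd0 : d ≠ 0 := fun h => hJ (by rw [h] at hdJ; exact zero_dvd_iff.1 hdJ)
    obtain ⟨h, hh, hhd⟩ := WfDvdMonoid.exists_irreducible_factor hd hd0
    exact hnot h hh (hhd.trans hdJ) (hhd.trans hdg)

/-- the forms `C_j` -/
def Cf {F : Type} [Field F] (Q : Fin 3 → MvPolynomial (Fin 3) F) (i : Fin 3 → ℤ) (j : Fin 3) :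
    MvPolynomial (Fin 3) F :=
  ∑ a, C ((i a : ℤ) : F) * (∏ b ∈ Finset.univ.erase a, Q b) * pderiv j (Q a)

lemma Cf_hom {F : Type} [Field F] {Q : Fin 3 → MvPolynomial (Fin 3) F} {dg : Fin 3 → ℕ}
    (hQ : ∀ a, (Q a).IsHomogeneous (dg a)) (hd : ∀ a, 1 ≤ dg a) (i : Fin 3 → ℤ) (j : Fin 3) :
    (Cf Q i j).IsHomogeneous (∑ a, dg a - 1) := by
  unfold Cf
  refine IsHomogeneous.sum _ _ _ fun a _ => ?_
  have h1 : (C ((i a : ℤ) : F) * (∏ b ∈ Finset.univ.erase a, Q b) * pderiv j (Q a)).IsHomogeneous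
      ((0 + ∑ b ∈ Finset.univ.erase a, dg b) + (dg a - 1)) :=
    ((isHomogeneous_C _ _).mul (IsHomogeneous.prod _ _ _ fun b _ => hQ b)).mul (hQ a).pderiv
  have h2 : (0 + ∑ b ∈ Finset.univ.erase a, dg b) + (dg a - 1) = ∑ a, dg a - 1 := by
    have h3 := Finset.sum_erase_add Finset.univ dg (Finset.mem_univ a)
    have h4 := hd a
    omega
  rw [h2] at h1
  exact h1

lemma Cf_dec {F : Type} [Field F] (Q : Fin 3 → MvPolynomial (Fin 3) F) (i : Fin 3 → ℤ)
    (a j : Fin 3) : ∃ S, Cf Q i j =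
      C ((i a : ℤ) : F) * (∏ b ∈ Finset.univ.erase a, Q b) * pderiv j (Q a) + Q a * S := by
  have h1 := Finset.add_sum_erase Finset.univ
    (fun a => C ((i a : ℤ) : F) * (∏ b ∈ Finset.univ.erase a, Q b) * pderiv j (Q a))
    (Finset.mem_univ a)
  have h2 : Q a ∣ ∑ x ∈ Finset.univ.erase a,
      C ((i x : ℤ) : F) * (∏ b ∈ Finset.univ.erase x, Q b) * pderiv j (Q x) := by
    refine Finset.dvd_sum fun x hx => ?_
    have hxa : x ≠ a := Finset.ne_of_mem_erase hx
    have h3 : Q a ∣ ∏ b ∈ Finset.univ.erase x, Q b :=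
      Finset.dvd_prod_of_mem _ (Finset.mem_erase.2 ⟨hxa.symm, Finset.mem_univ _⟩)
    exact Dvd.dvd.mul_right (Dvd.dvd.mul_left h3 _) _
  obtain ⟨S, hS⟩ := h2
  refine ⟨S, ?_⟩
  rw [← hS]
  exact h1.symm

lemma Jac_ne_zero {F : Type} [Field F] [IsAlgClosed F] (h1 : S_Bez)
    {Q : Fin 3 → MvPolynomial (Fin 3) F} {dg : Fin 3 → ℕ} (hN : NC3 Q dg) : Jac Q ≠ 0 := by
  obtain ⟨w, hw, hw0, hw1⟩ := h1 F (Q 0) (Q 1) (dg 0) (dg 1) (hN.hom 0) (hN.hom 1) (hN.pos 0)
    (hN.pos 1)
  intro hJ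
  refine hN.n1 F w hw 0 1 (by decide) ?_ ?_ ?_
  · rw [← coe_aeval_eq_eval] at hw0; exact hw0
  · rw [← coe_aeval_eq_eval] at hw1; exact hw1
  · rw [hJ, map_zero]

/-- a component of the ramification curve does not divide all `C_j` -/
lemma not_all {F : Type} [Field F] [CharZero F] [IsAlgClosed F] (h0 : S_HF) (h1 : S_Bez)
    (h2 : S_JH) {Q : Fin 3 → MvPolynomial (Fin 3) F} {dg : Fin 3 → ℕ} (hN : NC3 Q dg)
    (i : Fin 3 → ℤ) (hi : i ≠ 0) (h : MvPolynomial (Fin 3) F) (hh : Irreducible h)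
    (hhJ : h ∣ Jac Q) : ∃ j, ¬ h ∣ Cf Q i j := by
  by_contra hcon
  push Not at hcon
  choose B hB using hcon
  obtain ⟨a, ha⟩ : ∃ a, i a ≠ 0 := by
    by_contra h'
    push Not at h'
    exact hi (funext h')
  have hJ := Jac_ne_zero h1 hN
  have hJhom := (h2 F Q dg hN.hom hN.pos).1
  obtain ⟨k, -, hk⟩ := h0 F (Jac Q) h _ hJ hJhom hhJ
  have hk1 : 1 ≤ k := by
    by_contra hk0
    have hk0' : k = 0 := by omega
    rw [hk0'] at hk
    have h3 : h.totalDegree = 0 := hk.totalDegree hh.ne_zero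
    rw [totalDegree_eq_zero_iff_eq_C] at h3
    apply hh.not_isUnit
    rw [h3]
    have h4 : coeff 0 h ≠ 0 := fun h5 => hh.ne_zero (by rw [h3, h5, map_zero])
    exact (isUnit_iff_ne_zero.2 h4).map C
  obtain ⟨w, hw, hwh, hwa⟩ := h1 F h (Q a) k (dg a) hk (hN.hom a) hk1 (hN.pos a)
  rw [← coe_aeval_eq_eval] at hwh hwa
  change aeval w h = 0 at hwh
  change aeval w (Q a) = 0 at hwa
  have hwJ : aeval w (Jac Q) = 0 := by
    obtain ⟨t, ht⟩ := hhJ
    rw [ht, map_mul, hwh, zero_mul]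
  have hb : ∀ b, b ≠ a → aeval w (Q b) ≠ 0 := fun b hba hb0 =>
    hN.n1 F w hw a b hba.symm hwa hb0 hwJ
  set r : F := ((i a : ℤ) : F) * ∏ b ∈ Finset.univ.erase a, aeval w (Q b) with hr
  have hr0 : r ≠ 0 := by
    rw [hr]
    refine mul_ne_zero (Int.cast_ne_zero.2 ha) (Finset.prod_ne_zero_iff.2 fun b hb' => ?_)
    exact hb b (Finset.ne_of_mem_erase hb')
  have hgrad : ∀ j, aeval w (pderiv j (Q a)) = 0 := by
    intro j
    obtain ⟨S, hS⟩ := Cf_dec Q i a j
    have h3 := congrArg (aeval w) (hS.symm.trans (hB j))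
    rw [map_add, map_mul, map_mul, map_mul, map_mul, hwa, hwh, zero_mul, zero_mul, add_zero,
      map_prod, aeval_C] at h3
    exact (mul_eq_zero.1 h3).resolve_left hr0
  refine hN.n2 F w hw a hwa hgrad (fun k => aeval w (pderiv k h) / r) (fun j => aeval w (B j)) ?_
  intro k j
  obtain ⟨S, hS⟩ := Cf_dec Q i a j
  have h3 := congrArg (fun P => aeval w (pderiv k P)) (hS.symm.trans (hB j))
  simp only [Derivation.leibniz, map_add, smul_eq_mul, map_mul, hwa, hwh, hgrad, pderiv_C,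
    mul_zero, zero_mul, add_zero, zero_add, map_prod, aeval_C] at h3
  rw [div_mul_eq_mul_div, eq_div_iff hr0, hr]
  have e : (algebraMap F F) ((i a : ℤ) : F) = ((i a : ℤ) : F) := rfl
  rw [e] at h3
  linear_combination h3

end BCV1x

open BCV1x

theorem CV1_proof (h0 : S_HF) (h1 : S_Bez) (h2 : S_JH) (h3 : S_Fin) : S_CV1 := by
  classical
  intro F _ _ _ Q dg hN i hi hsum
  have hJ := Jac_ne_zero h1 hN
  have hJhom := (h2 F Q dg hN.hom hN.pos).1
  have hJu : ¬ IsUnit (Jac Q) := by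
    intro hu
    have h4 := hu.map (aeval (0 : Fin 3 → F))
    rw [aeval_zero_point hJhom (by have := hN.deg; omega)] at h4
    exact not_isUnit_zero h4
  have : Infinite F := IsAlgClosed.instInfinite
  obtain ⟨lam, hg0, hrel⟩ := exists_comb (Jac Q) hJ hJu (Cf Q i)
    fun h hh hhJ => not_all h0 h1 h2 hN i hi h hh hhJ
  set g := Cf Q i 0 + C lam * Cf Q i 1 + C (lam ^ 2) * Cf Q i 2 with hg
  have hghom : g.IsHomogeneous (∑ a, dg a - 1) := by
    have hC : ∀ (c : F) (j : Fin 3), (C c * Cf Q i j).IsHomogeneous (∑ a, dg a - 1) := by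
      intro c j
      have := (isHomogeneous_C (Fin 3) c).mul (Cf_hom hN.hom hN.pos i j)
      rwa [zero_add] at this
    exact ((Cf_hom hN.hom hN.pos i 0).add (hC _ _)).add (hC _ _)
  obtain ⟨Z0, hZ0⟩ := h3 F (Jac Q) g _ _ hJhom hghom hJ hg0 hrel
  refine ⟨Z0.image fun p => ∏ a, (aeval p (Q a)) ^ (i a), ?_⟩
  intro Om _ _ w hw hcrit
  have : CharZero Om := charZero_of_injective_algebraMap (algebraMap F Om).injective
  have hw0 : w ≠ 0 := by
    intro h
    apply hw 0
    rw [h]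
    exact aeval_zero_point (hN.hom 0) (hN.pos 0)
  have hCw : ∀ j, aeval w (Cf Q i j) = 0 := by
    intro j
    have h4 : aeval w (Cf Q i j) = (∏ b, aeval w (Q b)) *
        ∑ a, ((i a : ℤ) : Om) * aeval w (pderiv j (Q a)) / aeval w (Q a) := by
      unfold Cf
      rw [map_sum, Finset.mul_sum]
      refine Finset.sum_congr rfl fun a _ => ?_
      rw [map_mul, map_mul, map_prod, aeval_C, map_intCast,
        ← Finset.mul_prod_erase Finset.univ (fun b => aeval w (Q b)) (Finset.mem_univ a)]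
      have := hw a
      field_simp
    rw [h4, hcrit j, mul_zero]
  have hgw : aeval w g = 0 := by
    rw [hg, map_add, map_add, map_mul, map_mul, hCw, hCw, hCw, mul_zero, mul_zero, add_zero,
      add_zero]
  have hJw : aeval w (Jac Q) = 0 := by
    unfold Jac
    rw [AlgHom.map_det]
    rw [← Matrix.exists_vecMul_eq_zero_iff]
    refine ⟨fun a => ((i a : ℤ) : Om) / aeval w (Q a), ?_, ?_⟩
    · intro hv
      apply hi
      funext a
      have h4 := congrFun hv a
      simp only [Pi.zero_apply, div_eq_zero_iff, hw a, or_false, Int.cast_eq_zero] at h4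
      exact h4
    · funext j
      have h4 := hcrit j
      rw [Matrix.vecMul, dotProduct, Pi.zero_apply, ← h4]
      refine Finset.sum_congr rfl fun a _ => ?_
      change ((i a : ℤ) : Om) / aeval w (Q a) * aeval w (pderiv j (Q a)) = _
      ring
  obtain ⟨p, hp, μ, hμ, hwp⟩ := hZ0 Om w hw0 hJw hgw
  refine ⟨∏ a, (aeval p (Q a)) ^ (i a), Finset.mem_image_of_mem _ hp, ?_⟩
  have hval : ∀ a, aeval w (Q a) = μ ^ (dg a) * algebraMap F Om (aeval p (Q a)) := by
    intro a
    have e : w = fun j => μ * algebraMap F Om (p j) := funext hwp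
    rw [e, scale (hN.hom a)]
    congr 1
    have h4 := aeval_algebraMap_apply (A := F) Om p (Q a)
    exact h4
  have h4 : ∏ a, (aeval w (Q a)) ^ (i a) =
      (∏ a, (μ ^ (dg a)) ^ (i a)) * ∏ a, (algebraMap F Om (aeval p (Q a))) ^ (i a) := by
    rw [← Finset.prod_mul_distrib]
    refine Finset.prod_congr rfl fun a _ => ?_
    rw [hval a, mul_zpow]
  have h5 : ∏ a, (μ ^ (dg a)) ^ (i a) = 1 := by
    have h6 : ∀ a, (μ ^ (dg a)) ^ (i a) = μ ^ (i a * (dg a : ℤ)) := by
      intro a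
      rw [← zpow_natCast, ← zpow_mul, mul_comm]
    simp_rw [h6]
    rw [Fin.prod_univ_three, ← zpow_add₀ hμ, ← zpow_add₀ hμ]
    rw [Fin.sum_univ_three] at hsum
    rw [hsum, zpow_zero]
  rw [h4, h5, one_mul, map_prod]
  refine Finset.prod_congr rfl fun a _ => ?_
  rw [map_zpow₀]

end

end Pool.Agent.Work.MP_6d7a54_an.NF
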