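import Pool.Agent.Work.MP_6d7a54_an.NF.StmtsB

/-!
# Values of a monomial at the points of the ramification curve at infinity (MP_6d7a54_an)
-/

set_option autoImplicit false

namespace Pool.Agent.Work.MP_6d7a54_an.NF

open MvPolynomial

namespace BCV2x

theorem aeval_hom {F Om : Type} [Field F] [Field Om] [Algebra F Om] {f : MvPolynomial (Fin 3) F}
    {n : ℕ} (hf : f.IsHomogeneous n) (lam : Om) (p : Fin 3 → F) (w : Fin 3 → Om)
    (hw : ∀ j, w j = lam * algebraMap F Om (p j)) :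
    aeval w f = lam ^ n * algebraMap F Om (eval p f) := by
  have h1 : algebraMap F Om (eval p f) = eval₂ (algebraMap F Om) (fun j => algebraMap F Om (p j)) f := by
    rw [← MvPolynomial.eval₂_id, MvPolynomial.eval₂_comp_left, RingHom.comp_id]
    rfl
  rw [h1, aeval_def, eval₂_eq', eval₂_eq', Finset.mul_sum]
  apply Finset.sum_congr rfl
  intro d hd
  have h2 : d.degree = n := by
    by_contra h3
    exact (mem_support_iff.1 hd) (hf.coeff_eq_zero h3)
  have h3 : ∏ i, w i ^ d i = lam ^ n * ∏ i, algebraMap F Om (p i) ^ d i := by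
    simp only [hw, mul_pow, Finset.prod_mul_distrib]
    rw [Finset.prod_pow_eq_pow_sum, ← h2, Finsupp.degree_eq_sum]
  rw [h3]
  ring

theorem ex_ne (c : Fin 3) : ∃ b : Fin 3, b ≠ c := _root_.exists_ne c

end BCV2x

open BCV2x in
theorem CV2_proof (h0 : S_HF) (h1 : S_Bez) (h2 : S_JH) (h3 : S_Fin) : S_CV2 := by
  intro F _ _ _ Q dg hN i hi
  obtain ⟨hJ, -, -⟩ := h2 F Q dg hN.hom hN.pos
  have he : 1 ≤ ∑ a, dg a - 3 := by
    have := hN.deg
    omega
  have hae : ∀ (w : Fin 3 → F) (f : MvPolynomial (Fin 3) F), aeval w f = eval w f := by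
    intro w f
    exact RingHom.congr_fun (coe_aeval_eq_eval w) f
  -- two of the curves and the Jacobian have no common zero
  have hcon : ∀ (w : Fin 3 → F), w ≠ 0 → ∀ a b, a ≠ b → eval w (Q a) = 0 → eval w (Q b) = 0 →
      eval w (Jac Q) ≠ 0 := by
    intro w hw a b hab ha hb
    have := hN.n1 F w hw a b hab (by rw [hae]; exact ha) (by rw [hae]; exact hb)
    rwa [hae] at this
  have hJ0 : Jac Q ≠ 0 := by
    intro h
    obtain ⟨w, hw, ha, hb⟩ := h1 F (Q 0) (Q 1) (dg 0) (dg 1) (hN.hom 0) (hN.hom 1) (hN.pos 0)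
      (hN.pos 1)
    exact hcon w hw 0 1 (by decide) ha hb (by rw [h]; simp)
  have hQ0 : ∀ c, Q c ≠ 0 := by
    intro c h
    obtain ⟨b, hb⟩ := BCV2x.ex_ne c
    obtain ⟨w, hw, ha, hb'⟩ := h1 F (Q b) (Jac Q) (dg b) _ (hN.hom b) hJ (hN.pos b) he
    exact hcon w hw b c hb ha (by rw [h]; simp) hb'
  have hrel : ∀ c, IsRelPrime (Q c) (Jac Q) := by
    intro c d hd1 hd2
    obtain ⟨k, -, hk⟩ := h0 F (Q c) d (dg c) (hQ0 c) (hN.hom c) hd1
    have hd0 : d ≠ 0 := by
      rintro rfl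
      exact hQ0 c (zero_dvd_iff.1 hd1)
    rcases Nat.eq_zero_or_pos k with hk0 | hk0
    · rw [hk0] at hk
      have h4 : d.totalDegree = 0 := hk.totalDegree hd0
      rw [totalDegree_eq_zero_iff_eq_C] at h4
      rw [h4]
      apply IsUnit.map
      rw [isUnit_iff_ne_zero]
      intro h5
      rw [h5, C_0] at h4
      exact hd0 h4
    · exfalso
      obtain ⟨b, hb⟩ := BCV2x.ex_ne c
      obtain ⟨w, hw, ha, hb'⟩ := h1 F (Q b) d (dg b) k (hN.hom b) hk (hN.pos b) hk0
      have h4 : eval w (Q c) = 0 := by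
        obtain ⟨e, he⟩ := hd1
        rw [he, eval_mul, hb', zero_mul]
      have h5 : eval w (Jac Q) = 0 := by
        obtain ⟨e, he⟩ := hd2
        rw [he, eval_mul, hb', zero_mul]
      exact hcon w hw b c hb ha h4 h5
  have hfin := fun c => h3 F (Q c) (Jac Q) (dg c) _ (hN.hom c) hJ (hQ0 c) hJ0 (hrel c)
  choose Z hZ using hfin
  classical
  refine ⟨(Finset.univ.biUnion Z).image (fun p => ∏ a, (eval p (Q a)) ^ (i a)), ?_⟩
  intro Om _ _ w c hw _ hc hJw
  obtain ⟨p, hp, lam, hlam, hwp⟩ := hZ c Om w hw hc hJw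
  refine ⟨∏ a, (eval p (Q a)) ^ (i a), ?_, ?_⟩
  · rw [Finset.mem_image]
    exact ⟨p, Finset.mem_biUnion.2 ⟨c, Finset.mem_univ c, hp⟩, rfl⟩
  · have h4 : ∀ a, (aeval w (Q a)) ^ (i a) =
        lam ^ (i a * (dg a : ℤ)) * (algebraMap F Om (eval p (Q a))) ^ (i a) := by
      intro a
      rw [aeval_hom (hN.hom a) lam p w hwp, mul_zpow, ← zpow_natCast lam, ← zpow_mul, mul_comm (i a)]
    simp only [h4, Finset.prod_mul_distrib]
    have h5 : ∏ a, lam ^ (i a * (dg a : ℤ)) = 1 := by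
      have h6 : ∏ a, lam ^ (i a * (dg a : ℤ)) = lam ^ (∑ a, i a * (dg a : ℤ)) := by
        rw [Fin.prod_univ_three, Fin.sum_univ_three, zpow_add₀ hlam, zpow_add₀ hlam]
      rw [h6, hi, zpow_zero]
    rw [h5, one_mul, map_prod]
    apply Finset.prod_congr rfl
    intro a _
    rw [map_zpow₀]

end Pool.Agent.Work.MP_6d7a54_an.NF
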