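import Pool.Agent.Work.MP_6d7a54_an.NF.StmtsB

/-!
# Polynomials in a unit, with simple zeros (MP_6d7a54_an, NF)
-/

namespace Pool.Agent.Work.MP_6d7a54_an.NF

open Polynomial

noncomputable section

namespace BChix

variable {F K R : Type} [Field F] [Field K] [CommRing R] [IsDomain R]
  [Algebra F K] [Algebra K R] {dl : Derivation ℤ K K} {dR : Derivation ℤ R R}

/-- the derivation of `K[T]` with `T' = l T` -/
def DD {K : Type} [Field K] (dl : Derivation ℤ K K) (l : K) : Derivation ℤ K[X] K[X] :=
  letI : Differential K := ⟨dl⟩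
  Differential.implicitDeriv (C l * X)

theorem coeff_DD {K : Type} [Field K] (dl : Derivation ℤ K K) (l : K) (p : K[X]) (i : ℕ) :
    coeff (DD dl l p) i = dl (coeff p i) + i * l * coeff p i := by
  let : Differential K := ⟨dl⟩
  have h : DD dl l p = Differential.mapCoeffs p + C l * X * derivative p := rfl
  rw [h, coeff_add, Differential.coeff_mapCoeffs]
  congr 1
  rcases i with _ | i
  · simp [mul_assoc]
  · rw [mul_assoc, coeff_C_mul, coeff_X_mul, coeff_derivative]
    push_cast
    ring

omit [IsDomain R] in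
theorem aeval_DD (hcomp : ∀ a : K, dR (algebraMap K R a) = algebraMap K R (dl a)) {u : R} {l : K}
    (hu : dR u = algebraMap K R l * u) (p : K[X]) : dR (aeval u p) = aeval u (DD dl l p) := by
  let : Differential K := ⟨dl⟩
  let : Differential R := ⟨dR⟩
  have : DifferentialAlgebra K R := ⟨hcomp⟩
  refine Differential.deriv_aeval_eq_implicitDeriv u (C l * X) ?_ p
  rw [map_mul, aeval_C, aeval_X]
  exact hu

/-- transcendence of a unit which is not small -/
theorem transc (h1 : S_Bor) (hN : NR F K R dl dR) {u : R} (hu : IsUnit u) (huK : ¬ InK K u)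
    (p : K[X]) (hp : aeval u p = 0) : p = 0 := by
  classical
  by_contra hp0
  have h := h1 F K R dl dR hN (Fin (p.natDegree + 1)) (fun i => u ^ (i : ℕ))
    (fun i => coeff p i) (fun i => hu.pow _) (by
      rw [aeval_eq_sum_range, ← Fin.sum_univ_eq_sum_range
        (fun i => coeff p i • u ^ i) (p.natDegree + 1)] at hp
      rw [← hp]
      exact Finset.sum_congr rfl fun i _ => (Algebra.smul_def _ _).symm)
    ⟨⟨p.natDegree, Nat.lt_succ_self _⟩, by simpa using hp0⟩
  obtain ⟨i, j, hij, -, -, b, hb⟩ := h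
  have hij' : (i : ℕ) ≠ j := fun h => hij (Fin.ext h)
  have hcan : ∀ k : ℕ, u ^ k ≠ 0 := fun k => (hu.pow k).ne_zero
  rcases lt_or_gt_of_ne hij' with hlt | hlt
  · -- `u ^ i = b u ^ j` with `i < j`
    obtain ⟨k, hk⟩ := Nat.exists_eq_add_of_lt hlt
    have h2 : 1 = algebraMap K R b * u ^ (k + 1) := by
      apply mul_left_cancel₀ (hcan i)
      rw [hk] at hb
      calc u ^ (i : ℕ) * 1 = algebraMap K R b * u ^ ((i : ℕ) + k + 1) := by rw [mul_one]; exact hb
        _ = u ^ (i : ℕ) * (algebraMap K R b * u ^ (k + 1)) := by ring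
    have hb0 : b ≠ 0 := by
      rintro rfl
      rw [map_zero, zero_mul] at h2
      exact one_ne_zero h2
    apply huK
    refine hN.root u (k + 1) (Nat.succ_ne_zero k) ⟨b⁻¹, ?_⟩
    calc u ^ (k + 1) = algebraMap K R b⁻¹ * (algebraMap K R b * u ^ (k + 1)) := by
          rw [← mul_assoc, ← map_mul, inv_mul_cancel₀ hb0, map_one, one_mul]
      _ = algebraMap K R b⁻¹ := by rw [← h2, mul_one]
  · obtain ⟨k, hk⟩ := Nat.exists_eq_add_of_lt hlt
    apply huK
    refine hN.root u (k + 1) (Nat.succ_ne_zero k) ⟨b, ?_⟩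
    apply mul_left_cancel₀ (hcan j)
    rw [mul_comm (u ^ (j : ℕ)) (algebraMap K R b), ← hb, hk]
    ring

/-- an irreducible polynomial other than `T` does not divide its derivative -/
theorem not_dvd [CharZero K] (hN : NR F K R dl dR) {u : R} (hu : IsUnit u) (huK : ¬ InK K u)
    {l : K} (hl : dR u = algebraMap K R l * u) {p : K[X]} (hp : Irreducible p) (hm : p.Monic)
    (hX : p ≠ X) : ¬ p ∣ DD dl l p := by
  rintro ⟨c, hc⟩
  set d := p.natDegree with hd
  have hd0 : d ≠ 0 := by
    have := hp.natDegree_pos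
    omega
  have hdeg : (DD dl l p).natDegree ≤ d := by
    rw [natDegree_le_iff_coeff_eq_zero]
    intro i hi
    rw [coeff_DD, coeff_eq_zero_of_natDegree_lt hi, map_zero, mul_zero, add_zero]
  have hcdeg : c.natDegree = 0 := by
    by_cases hc0 : c = 0
    · rw [hc0, natDegree_zero]
    have h2 : (p * c).natDegree = d + c.natDegree := by
      rw [natDegree_mul hp.ne_zero hc0]
    rw [← hc] at h2
    omega
  obtain ⟨c0, rfl⟩ : ∃ c0, c = C c0 := ⟨_, eq_C_of_natDegree_eq_zero hcdeg⟩
  have hlead : (d : K) * l = c0 := by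
    have h2 := congrArg (fun q => coeff q d) hc
    simp only [coeff_DD, coeff_mul_C] at h2
    have h3 : coeff p d = 1 := hm.coeff_natDegree
    rw [h3, mul_one, one_mul, dl.map_one_eq_zero, zero_add] at h2
    exact h2
  have hconst : dl (coeff p 0) = coeff p 0 * c0 := by
    have h2 := congrArg (fun q => coeff q 0) hc
    simp only [coeff_DD, coeff_mul_C] at h2
    rw [Nat.cast_zero, zero_mul, zero_mul, add_zero] at h2
    exact h2
  have hp0 : coeff p 0 ≠ 0 := by
    intro h0
    have h2 : X ∣ p := X_dvd_iff.2 h0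
    have h3 : Associated X p := irreducible_X.associated_of_dvd hp h2
    exact hX (eq_of_monic_of_associated hm monic_X h3.symm)
  set a := coeff p 0 with ha
  have hinv : dl a⁻¹ = -(c0 * a⁻¹) := by
    have h2 : dl (a * a⁻¹) = 0 := by rw [mul_inv_cancel₀ hp0, dl.map_one_eq_zero]
    rw [Derivation.leibniz, smul_eq_mul, smul_eq_mul, hconst] at h2
    have h3 : a * (dl a⁻¹ + c0 * a⁻¹) = 0 := by
      rw [← h2]
      ring
    have h4 := (mul_eq_zero.1 h3).resolve_left hp0
    linear_combination h4
  have hpow : dR (u ^ d) = algebraMap K R c0 * u ^ d := by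
    rw [Derivation.leibniz_pow, smul_eq_mul, nsmul_eq_mul, hl, ← hlead, map_mul, map_natCast]
    obtain ⟨k, hk⟩ : ∃ k, d = k + 1 := ⟨d - 1, by omega⟩
    rw [hk, Nat.add_sub_cancel]
    push_cast
    ring
  have hder : dR (algebraMap K R a⁻¹ * u ^ d) = 0 := by
    rw [Derivation.leibniz, smul_eq_mul, smul_eq_mul, hpow, hN.comp, hinv, map_neg, map_mul]
    ring
  have h5 := hN.const (u ^ d) a⁻¹ (hu.pow d) (inv_ne_zero hp0) hder
  exact huK (hN.root u d hd0 h5)

end BChix

theorem Chi_proof (h1 : S_Bor) : S_Chi := by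
  classical
  intro F K R _ _ _ _ _ _ _ dl dR hN u r hu huK hr
  obtain ⟨l, hl⟩ := hN.unit u hu
  set S := UniqueFactorizationMonoid.normalizedFactors r with hS
  have hmem : ∀ p, p ∈ S ↔ Irreducible p ∧ p.Monic ∧ p ∣ r := fun p =>
    Polynomial.mem_normalizedFactors_iff hr
  set T : Finset K[X] := S.toFinset.erase X with hT
  have hTm : ∀ p ∈ T, Irreducible p ∧ p.Monic ∧ p ≠ X := by
    intro p hp
    rw [hT, Finset.mem_erase, Multiset.mem_toFinset, hmem] at hp
    exact ⟨hp.2.1, hp.2.2.1, hp.1⟩
  set chi : K[X] := ∏ p ∈ T, p with hchi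
  have hchi0 : chi ≠ 0 := Finset.prod_ne_zero_iff.2 fun p hp => (hTm p hp).1.ne_zero
  have hcop : IsCoprime chi (BChix.DD dl l chi) := by
    apply isCoprime_of_irreducible_dvd (fun h => hchi0 h.1)
    intro z hz hz1 hz2
    -- `z` is associated with an element of `T`
    obtain ⟨p, hpT, hzp⟩ := (hz.prime.dvd_finsetProd_iff _).1 hz1
    have hpz : p ∣ z := hz.dvd_symm (hTm p hpT).1 hzp
    have hp2 : p ∣ BChix.DD dl l chi := hpz.trans hz2
    have hsplit : chi = p * ∏ q ∈ T.erase p, q := (Finset.mul_prod_erase T _ hpT).symm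
    rw [hsplit, Derivation.leibniz, smul_eq_mul, smul_eq_mul] at hp2
    have hp3 : p ∣ (∏ q ∈ T.erase p, q) * BChix.DD dl l p :=
      (dvd_add_right (dvd_mul_right _ _)).1 hp2
    rcases (hTm p hpT).1.prime.dvd_or_dvd hp3 with h | h
    · obtain ⟨q, hq, hpq⟩ := ((hTm p hpT).1.prime.dvd_finsetProd_iff _).1 h
      rw [Finset.mem_erase] at hq
      have hass : Associated p q :=
        (hTm p hpT).1.associated_of_dvd (hTm q hq.2).1 hpq
      exact hq.1 (eq_of_monic_of_associated (hTm p hpT).2.1 (hTm q hq.2).2.1 hass).symm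
    · exact BChix.not_dvd hN hu huK hl (hTm p hpT).1 (hTm p hpT).2.1 (hTm p hpT).2.2 h
  refine ⟨aeval u chi, ?_, ?_, ?_⟩
  · intro h
    exact hchi0 (BChix.transc h1 hN hu huK chi h)
  · obtain ⟨al, be, hab⟩ := hcop
    refine ⟨aeval u al, aeval u be, ?_⟩
    rw [BChix.aeval_DD hN.comp hl chi, ← map_mul, ← map_mul, ← map_add, hab, map_one]
  · -- `r ∣ (X chi) ^ natDegree r`
    have hfac : ∀ p ∈ S, p ∣ X * chi := by
      intro p hp
      by_cases hpX : p = X
      · rw [hpX]
        exact dvd_mul_right _ _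
      · have : p ∈ T := by
          rw [hT, Finset.mem_erase, Multiset.mem_toFinset]
          exact ⟨hpX, hp⟩
        exact (Finset.dvd_prod_of_mem (fun q => q) this).trans (dvd_mul_left _ _)
    have hprod : S.prod ∣ (X * chi) ^ Multiset.card S := by
      have h2 := Multiset.prod_dvd_prod_of_dvd (S := S) (fun p => p) (fun _ => X * chi) hfac
      rw [Multiset.map_id', Multiset.map_const', Multiset.prod_replicate] at h2
      exact h2
    have hass : Associated S.prod r :=
      UniqueFactorizationMonoid.prod_normalizedFactors hr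
    have hcard : Multiset.card S ≤ r.natDegree := by
      have h3 : S.prod.natDegree = (S.map natDegree).sum :=
        natDegree_multiset_prod_of_monic S fun p hp => ((hmem p).1 hp).2.1
      have h4 : S.prod.natDegree = r.natDegree :=
        natDegree_eq_natDegree (degree_eq_degree_of_associated hass)
      have h5 : (S.map (fun _ => 1)).sum ≤ (S.map natDegree).sum :=
        Multiset.sum_map_le_sum_map _ _ fun p hp => ((hmem p).1 hp).1.natDegree_pos
      rw [Multiset.map_const', Multiset.sum_replicate, smul_eq_mul, mul_one] at h5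
      rw [← h4, h3]
      exact h5
    have hr2 : r ∣ (X * chi) ^ r.natDegree :=
      (hass.symm.dvd.trans hprod).trans (pow_dvd_pow _ hcard)
    have h6 : aeval u r ∣ aeval u ((X * chi) ^ r.natDegree) := by
      obtain ⟨c, hc⟩ := hr2
      rw [hc, map_mul]
      exact dvd_mul_right _ _
    rw [map_pow, map_mul, aeval_X, mul_pow] at h6
    exact ((hu.pow _).dvd_mul_left).1 h6

end

end Pool.Agent.Work.MP_6d7a54_an.NF
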