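import Pool.Agent.Work.MP_6d7a54_an.NF.StmtsB

/-!
# A combination of the components of the vector field which is coprime to the Jacobian
-/

namespace Pool.Agent.Work.MP_6d7a54_an.NF

open MvPolynomial

noncomputable section

namespace BCopx

variable {K : Type} [Field K]

/-- three values of the parameter are enough -/
lemma three {h V0 V1 V2 : MvPolynomial (Fin 3) K} {x y z : K} (hxy : x ≠ y) (hxz : x ≠ z)
    (hyz : y ≠ z) (hx : h ∣ V0 + C x * V1 + C (x ^ 2) * V2)
    (hy : h ∣ V0 + C y * V1 + C (y ^ 2) * V2) (hz : h ∣ V0 + C z * V1 + C (z ^ 2) * V2) :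
    h ∣ V0 ∧ h ∣ V1 ∧ h ∣ V2 := by
  have cancel : ∀ (c : K) (P : MvPolynomial (Fin 3) K), c ≠ 0 → h ∣ C c * P → h ∣ P := by
    intro c P hc hP
    have h1 : P = C c⁻¹ * (C c * P) := by
      rw [← mul_assoc, ← C_mul, inv_mul_cancel₀ hc, C_1, one_mul]
    rw [h1]
    exact hP.mul_left _
  have key : ∀ u v : K, u ≠ v → h ∣ V0 + C u * V1 + C (u ^ 2) * V2 →
      h ∣ V0 + C v * V1 + C (v ^ 2) * V2 → h ∣ V1 + C (u + v) * V2 := by
    intro u v huv hu hv
    refine cancel (u - v) _ (sub_ne_zero.2 huv) ?_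
    have h1 := dvd_sub hu hv
    have h2 : V0 + C u * V1 + C (u ^ 2) * V2 - (V0 + C v * V1 + C (v ^ 2) * V2) =
        C (u - v) * (V1 + C (u + v) * V2) := by
      simp only [C_sub, C_add, C_pow]
      ring
    rwa [h2] at h1
  have h1 := key x y hxy hx hy
  have h2 := key x z hxz hx hz
  have h3 : h ∣ V2 := by
    refine cancel (y - z) _ (sub_ne_zero.2 hyz) ?_
    have h4 := dvd_sub h1 h2
    have h5 : V1 + C (x + y) * V2 - (V1 + C (x + z) * V2) = C (y - z) * V2 := by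
      simp only [C_sub, C_add]
      ring
    rwa [h5] at h4
  have h4 : h ∣ V1 := (dvd_add_left (h3.mul_left _)).1 h1
  refine ⟨?_, h4, h3⟩
  have h5 : h ∣ V0 + C x * V1 := (dvd_add_left (h3.mul_left _)).1 hx
  exact (dvd_add_left (h4.mul_left _)).1 h5

lemma fin_bad {h V0 V1 V2 : MvPolynomial (Fin 3) K} (hn : ¬ (h ∣ V0 ∧ h ∣ V1 ∧ h ∣ V2)) :
    {x : K | h ∣ V0 + C x * V1 + C (x ^ 2) * V2}.Finite := by
  classical
  by_contra hinf
  obtain ⟨t, ht, hc⟩ := Set.Infinite.exists_subset_card_eq hinf 3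
  obtain ⟨x, y, z, hxy, hxz, hyz, rfl⟩ := Finset.card_eq_three.1 hc
  refine hn (three hxy hxz hyz (ht ?_) (ht ?_) (ht ?_))
  · simp
  · simp
  · simp

/-- base change of the Jacobian -/
lemma jac_bc {F : Type} [Field F] [Algebra F K] (Q : Fin 3 → MvPolynomial (Fin 3) F) :
    Jac (fun a => bc K (Q a)) = bc K (Jac Q) := by
  unfold Jac bc
  rw [RingHom.map_det]
  congr 1
  ext1 a j
  show pderiv j (MvPolynomial.map (algebraMap F K) (Q a)) =
    MvPolynomial.map (algebraMap F K) (pderiv j (Q a))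
  rw [pderiv_map]

/-- a nonzero homogeneous polynomial of positive degree is not a unit -/
lemma not_unit {J : MvPolynomial (Fin 3) K} {n : ℕ} (hJ : J.IsHomogeneous n) (hn : 1 ≤ n) :
    ¬ IsUnit J := by
  intro hu
  have hJ0 : J ≠ 0 := hu.ne_zero
  obtain ⟨J', hJ'⟩ := hu.exists_right_inv
  have hJ'0 : J' ≠ 0 := by
    rintro rfl
    rw [mul_zero] at hJ'
    exact zero_ne_one hJ'
  have h1 := totalDegree_mul_of_isDomain hJ0 hJ'0
  rw [hJ', totalDegree_one, hJ.totalDegree hJ0] at h1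
  omega

end BCopx

open BCopx in
theorem Cop_proof (h0 : S_Bez) (h1 : S_JH) (h2 : S_F3) : S_Cop := by
  intro F _ _ _ Q dg hNC K _ _ _ l hl
  -- the Jacobian is not zero
  obtain ⟨w, hw, hw0, hw1⟩ := h0 F (Q 0) (Q 1) (dg 0) (dg 1) (hNC.hom 0) (hNC.hom 1) (hNC.pos 0)
    (hNC.pos 1)
  have hn1 := hNC.n1 F w hw 0 1 (by decide) (by rw [aeval_eq_eval]; exact hw0)
    (by rw [aeval_eq_eval]; exact hw1)
  have hJQ : Jac Q ≠ 0 := by
    intro h
    rw [h, map_zero] at hn1
    exact hn1 rfl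
  set J := Jac (fun a => bc K (Q a)) with hJ
  set V := VV (fun a => bc K (Q a)) l with hV
  have hJ0 : J ≠ 0 := by
    rw [hJ, jac_bc]
    intro h
    exact hJQ (map_injective _ (algebraMap F K).injective (h.trans (map_zero _).symm))
  have hhom : J.IsHomogeneous (∑ a, dg a - 3) :=
    (h1 K (fun a => bc K (Q a)) dg (fun a => (hNC.hom a).map _) hNC.pos).1
  have hJu : ¬ IsUnit J := not_unit hhom (by have := hNC.deg; omega)
  -- the bad parameters
  classical
  set S : Finset (MvPolynomial (Fin 3) K) := (UniqueFactorizationMonoid.factors J).toFinset with hS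
  have hSirr : ∀ h ∈ S, Irreducible h := fun h hh =>
    UniqueFactorizationMonoid.irreducible_of_factor h (Multiset.mem_toFinset.1 hh)
  have hSdvd : ∀ h ∈ S, h ∣ J := fun h hh =>
    UniqueFactorizationMonoid.dvd_of_mem_factors (Multiset.mem_toFinset.1 hh)
  have hbad : ∀ h ∈ S, {x : K | h ∣ V 0 + C x * V 1 + C (x ^ 2) * V 2}.Finite := by
    intro h hh
    apply fin_bad
    rintro ⟨a0, a1, a2⟩
    obtain ⟨j, hj⟩ := h2 F Q dg hNC K l hl h (hSirr h hh) (hSdvd h hh)
    apply hj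
    fin_cases j
    · exact a0
    · exact a1
    · exact a2
  haveI : Infinite K := inferInstance
  have hfin : (⋃ h ∈ S, {x : K | h ∣ V 0 + C x * V 1 + C (x ^ 2) * V 2}).Finite :=
    Set.Finite.biUnion S.finite_toSet hbad
  obtain ⟨x, hx⟩ := hfin.infinite_compl.nonempty
  have hx' : ∀ h ∈ S, ¬ h ∣ V 0 + C x * V 1 + C (x ^ 2) * V 2 := by
    intro h hh hd
    apply hx
    rw [Set.mem_iUnion₂]
    exact ⟨h, hh, hd⟩
  -- no irreducible common factor
  have hirr : ∀ p, Irreducible p → p ∣ J → ¬ p ∣ V 0 + C x * V 1 + C (x ^ 2) * V 2 := by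
    intro p hp hpJ hpg
    obtain ⟨q, hq, hpq⟩ := UniqueFactorizationMonoid.exists_mem_factors_of_dvd hJ0 hp hpJ
    exact hx' q (Multiset.mem_toFinset.2 hq) (hpq.symm.dvd.trans hpg)
  have hsum : ∑ j, C ((![1, x, x ^ 2] : Fin 3 → K) j) * V j =
      V 0 + C x * V 1 + C (x ^ 2) * V 2 := by
    rw [Fin.sum_univ_three]
    simp
  refine ⟨![1, x, x ^ 2], ?_, ?_⟩
  · rw [hsum]
    intro h
    obtain ⟨p, hp, hpJ⟩ := WfDvdMonoid.exists_irreducible_factor hJu hJ0
    apply hirr p hp hpJ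
    rw [h]
    exact dvd_zero p
  · rw [hsum]
    intro d hdJ hdg
    by_contra hd
    have hd0 : d ≠ 0 := by
      rintro rfl
      exact hJ0 (zero_dvd_iff.1 hdJ)
    obtain ⟨p, hp, hpd⟩ := WfDvdMonoid.exists_irreducible_factor hd hd0
    exact hirr p hp (hpd.trans hdJ) (hpd.trans hdg)

end

end Pool.Agent.Work.MP_6d7a54_an.NF
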