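import Pool.Agent.Work.MP_6d7a54_an.NF.StmtsB

set_option autoImplicit false

namespace Pool.Agent.Work.MP_6d7a54_an.NF

theorem Dext_proof : S_Dext := by
  intro K Om _ _ _ _ dl ι _ p hp
  letI : Differential K := ⟨dl⟩
  have hfin : FiniteDimensional K (IntermediateField.adjoin K (Set.range p)) := by
    have : Finite (Set.range p) := Set.finite_range p
    apply IntermediateField.finiteDimensional_adjoin
    rintro x ⟨i, rfl⟩
    exact (hp i).isIntegral
  letI := Differential.differentialFiniteDimensional K (IntermediateField.adjoin K (Set.range p))
  have h2 := Differential.differentialAlgebraFiniteDimensional (F := K)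
    (K := IntermediateField.adjoin K (Set.range p))
  refine ⟨IntermediateField.adjoin K (Set.range p), Differential.deriv, ?_, ?_⟩
  · intro i
    exact IntermediateField.subset_adjoin K _ ⟨i, rfl⟩
  · intro a
    exact h2.deriv_algebraMap a

end Pool.Agent.Work.MP_6d7a54_an.NF
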