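import Pool.Agent.Work.MP_6d7a54_an.NF.StmtsB

/-!
# MP_6d7a54_an, block NF, part B: weak Bezout theorem (dimension count)
-/

set_option autoImplicit false

namespace Pool.Agent.Work.MP_6d7a54_an.NF

open MvPolynomial Module

namespace BDimx

/-- forms of degree `n` -/
noncomputable abbrev Fm (K : Type) [Field K] (n : ℕ) : Submodule K (MvPolynomial (Fin 3) K) :=
  homogeneousSubmodule (Fin 3) K n

instance instFm (K : Type) [Field K] (n : ℕ) : FiniteDimensional K (Fm K n) :=
  Module.Finite.iff_fg.mpr (homogeneousSubmodule_fg (Fin 3) K n)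

variable {K : Type} [Field K]

lemma finrank_Fm (n : ℕ) : finrank K (Fm K n) = (n + 2).choose 2 := by
  classical
  have h1 : Fm K n = restrictSupport K {d : Fin 3 →₀ ℕ | d.degree = n} :=
    homogeneousSubmodule_eq_finsupp_supported (Fin 3) K n
  have e : {d : Fin 3 →₀ ℕ | d.degree = n} ≃ ((Finset.univ : Finset (Fin 3)).finsuppAntidiag n) :=
    Equiv.subtypeEquivRight (fun d => by
      simp [Finset.mem_finsuppAntidiag, Finsupp.degree_eq_sum])
  rw [h1, finrank_eq_nat_card_basis (basisRestrictSupport K _), Nat.card_congr e]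
  simp only [Nat.card_eq_fintype_card, Fintype.card_coe]
  rw [Finset.card_finsuppAntidiag_nat_eq_choose]
  simp only [Finset.card_univ, Fintype.card_fin]
  rw [show 3 + n - 1 = n + 2 by omega]
  exact (Nat.choose_symm_add (a := n) (b := 2))

lemma two_mul_choose (n : ℕ) : 2 * (n + 2).choose 2 = (n + 2) * (n + 1) := by
  rw [Nat.choose_two_right]
  have h : 2 ∣ (n + 2) * (n + 2 - 1) := by
    have := Nat.even_mul_succ_self (n + 1)
    rw [show n + 2 - 1 = n + 1 by omega, mul_comm]
    exact this.two_dvd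
  rw [Nat.mul_div_cancel' h]
  congr 1

lemma comp_mul {A : MvPolynomial (Fin 3) K} {a : ℕ} (hA : A.IsHomogeneous a)
    (f : MvPolynomial (Fin 3) K) (n : ℕ) :
    homogeneousComponent (n + a) (f * A) = homogeneousComponent n f * A := by
  conv_lhs => rw [← sum_homogeneousComponent f]
  rw [Finset.sum_mul, map_sum]
  have h1 : ∀ i ∈ Finset.range (f.totalDegree + 1),
      homogeneousComponent (n + a) (homogeneousComponent i f * A) =
      if n = i then homogeneousComponent i f * A else 0 := by
    intro i _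
    have hm : (homogeneousComponent i f * A) ∈ homogeneousSubmodule (Fin 3) K (i + a) :=
      (homogeneousComponent_isHomogeneous i f).mul hA
    rw [homogeneousComponent_of_mem hm]
    simp
  rw [Finset.sum_congr rfl h1, Finset.sum_ite_eq]
  split_ifs with h
  · rfl
  · rw [homogeneousComponent_eq_zero n f (by simpa [Nat.lt_succ_iff] using h)]
    simp

/-- multiplication by `A` on forms of degree `d`, as a submodule of all polynomials -/
noncomputable def mulSub (A : MvPolynomial (Fin 3) K) (d : ℕ) :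
    Submodule K (MvPolynomial (Fin 3) K) :=
  (Fm K d).map (LinearMap.mulLeft K A)

lemma mulLeft_injective {A : MvPolynomial (Fin 3) K} (hA : A ≠ 0) :
    Function.Injective (LinearMap.mulLeft K A) :=
  fun x y h => mul_left_cancel₀ hA (by simpa using h)

instance instMulSub (A : MvPolynomial (Fin 3) K) (d : ℕ) : FiniteDimensional K (mulSub A d) := by
  unfold mulSub
  infer_instance

lemma finrank_mulSub {A : MvPolynomial (Fin 3) K} (hA : A ≠ 0) (d : ℕ) :
    finrank K (mulSub A d) = (d + 2).choose 2 := by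
  rw [← finrank_Fm (K := K) d]
  exact (LinearEquiv.finrank_eq
    (Submodule.equivMapOfInjective _ (mulLeft_injective hA) (Fm K d))).symm

lemma finrank_mulSub_le (A : MvPolynomial (Fin 3) K) (d : ℕ) :
    finrank K (mulSub A d) ≤ (d + 2).choose 2 := by
  rw [← finrank_Fm (K := K) d]
  exact Submodule.finrank_map_le _ _

lemma mulSub_le {A : MvPolynomial (Fin 3) K} {a : ℕ} (hA : A.IsHomogeneous a) {d m : ℕ}
    (h : a + d = m) : mulSub A d ≤ Fm K m := by
  rintro _ ⟨x, hx, rfl⟩
  subst h
  exact hA.mul hx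

lemma inf_mulSub_le {A B : MvPolynomial (Fin 3) K} {a b : ℕ} (hA : A.IsHomogeneous a)
    (hAB : IsRelPrime A B) (d : ℕ) :
    mulSub A (b + d) ⊓ mulSub B (a + d) ≤ mulSub (A * B) d := by
  rintro x ⟨⟨u, hu, hux⟩, ⟨v, hv, hvx⟩⟩
  simp only [LinearMap.mulLeft_apply] at hux hvx
  have hd : A ∣ v := by
    apply hAB.dvd_of_dvd_mul_left
    rw [hvx, ← hux]
    exact dvd_mul_right _ _
  obtain ⟨w, hw⟩ := hd
  have h1 : homogeneousComponent (a + d) v = v := homogeneousComponent_eq_self hv
  have h2 : homogeneousComponent d w * A = v := by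
    rw [← comp_mul hA, mul_comm w A, ← hw, add_comm d a, h1]
  refine ⟨homogeneousComponent d w, homogeneousComponent_isHomogeneous d w, ?_⟩
  simp only [LinearMap.mulLeft_apply]
  rw [← hvx, ← h2]
  ring

/-- dependence modulo a subspace of small codimension -/
lemma dep {n B N : ℕ} (W : Submodule K (MvPolynomial (Fin 3) K)) (hW : W ≤ Fm K n)
    (h : finrank K (Fm K n) ≤ finrank K W + B) (hN : B < N)
    (p : Fin N → MvPolynomial (Fin 3) K) (hp : ∀ i, (p i).IsHomogeneous n) :
    ∃ c : Fin N → K, c ≠ 0 ∧ ∑ i, C (c i) * p i ∈ W := by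
  classical
  set V := Fm K n with hV
  set W' : Submodule K V := W.comap V.subtype with hW'
  have h1 : finrank K W' = finrank K W := by
    have e := Submodule.comapSubtypeEquivOfLe hW
    exact e.finrank_eq
  let φ : (Fin N → K) →ₗ[K] V := Fintype.linearCombination K (fun i => (⟨p i, hp i⟩ : V))
  have h2 : finrank K (V ⧸ W') < finrank K (Fin N → K) := by
    have h3 := Submodule.finrank_quotient_add_finrank W'
    rw [Module.finrank_fin_fun]
    omega
  have h4 : LinearMap.ker (W'.mkQ.comp φ) ≠ ⊥ := LinearMap.ker_ne_bot_of_finrank_lt h2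
  obtain ⟨c, hc, hc0⟩ := Submodule.exists_mem_ne_zero_of_ne_bot h4
  refine ⟨c, hc0, ?_⟩
  rw [LinearMap.mem_ker, LinearMap.comp_apply, Submodule.mkQ_apply,
    Submodule.Quotient.mk_eq_zero] at hc
  have h5 : ((φ c : V) : MvPolynomial (Fin 3) K) = ∑ i, C (c i) * p i := by
    rw [Fintype.linearCombination_apply, AddSubmonoidClass.coe_finsetSum]
    refine Finset.sum_congr rfl fun i _ => ?_
    rw [C_mul']
    rfl
  have h6 : ((φ c : V) : MvPolynomial (Fin 3) K) ∈ W := hc
  rwa [h5] at h6

end BDimx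

open BDimx in
theorem Dim_proof : S_Dim := by
  refine ⟨fun a b => (a + b + 2).choose 2 + a * b, ?_⟩
  intro K _ f g a b hf hg hf0 hg0 hfg n N p hp hN
  rcases Nat.lt_or_ge n (a + b) with hn | hn
  · have h1 : (n + 2).choose 2 ≤ (a + b + 2).choose 2 := Nat.choose_le_choose 2 (by omega)
    obtain ⟨c, hc0, hc⟩ := dep (K := K) (n := n) (B := (a + b + 2).choose 2 + a * b) (N := N) ⊥
      bot_le (by rw [finrank_Fm]; omega) hN p hp
    refine ⟨c, hc0, 0, 0, ?_⟩
    rw [Submodule.mem_bot] at hc
    rw [hc]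
    ring
  · obtain ⟨d, rfl⟩ : ∃ d, n = a + b + d := ⟨n - (a + b), by omega⟩
    have hWV : mulSub f (b + d) ⊔ mulSub g (a + d) ≤ Fm K (a + b + d) :=
      sup_le (mulSub_le hf (by omega)) (mulSub_le hg (by omega))
    have hsup := Submodule.finrank_sup_add_finrank_inf_eq (mulSub f (b + d)) (mulSub g (a + d))
    rw [finrank_mulSub hf0, finrank_mulSub hg0] at hsup
    have hinf : finrank K (mulSub f (b + d) ⊓ mulSub g (a + d) :
        Submodule K (MvPolynomial (Fin 3) K)) ≤ (d + 2).choose 2 := by
      refine le_trans (Submodule.finrank_mono (inf_mulSub_le hf hfg d)) ?_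
      exact finrank_mulSub_le _ _
    have c1 := two_mul_choose (a + b + d)
    have c2 := two_mul_choose (b + d)
    have c3 := two_mul_choose (a + d)
    have c4 := two_mul_choose d
    have key : (a + b + d + 2) * (a + b + d + 1) + (d + 2) * (d + 1) =
        (b + d + 2) * (b + d + 1) + (a + d + 2) * (a + d + 1) + 2 * (a * b) := by ring
    have h1 : finrank K (Fm K (a + b + d)) ≤
        finrank K (mulSub f (b + d) ⊔ mulSub g (a + d) : Submodule K (MvPolynomial (Fin 3) K)) +
          ((a + b + 2).choose 2 + a * b) := by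
      rw [finrank_Fm]
      omega
    obtain ⟨c, hc0, hc⟩ := dep _ hWV h1 hN p hp
    rw [Submodule.mem_sup] at hc
    obtain ⟨y, ⟨u, hu, rfl⟩, z, ⟨v, hv, rfl⟩, h2⟩ := hc
    refine ⟨c, hc0, u, v, ?_⟩
    rw [← h2]
    simp only [LinearMap.mulLeft_apply]
    ring

end Pool.Agent.Work.MP_6d7a54_an.NF
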