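import Pool.Agent.Work.MP_6d7a54_an.NF.StmtsB

set_option autoImplicit false

namespace Pool.Agent.Work.MP_6d7a54_an.NF

open MvPolynomial

namespace BElimx

/-- exponents of degree `n` -/
abbrev I (n : ℕ) : Type := ↥(Finset.finsuppAntidiag (Finset.univ : Finset (Fin 3)) n)

theorem mem_I (n : ℕ) (d : Fin 3 →₀ ℕ) :
    d ∈ Finset.finsuppAntidiag (Finset.univ : Finset (Fin 3)) n ↔ d.degree = n := by
  rw [Finset.mem_finsuppAntidiag, Finsupp.degree_eq_sum]
  simp

theorem card_I (n : ℕ) : Fintype.card (I n) * 2 = (n + 2) * (n + 1) := by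
  rw [Fintype.card_coe, Finset.card_finsuppAntidiag_nat_eq_choose, Finset.card_univ,
    Fintype.card_fin]
  have h1 : 3 + n - 1 = n + 2 := by omega
  have h2 := Nat.descFactorial_eq_factorial_mul_choose (n + 2) 2
  rw [h1, Nat.choose_symm_add]
  simp [Nat.descFactorial, Nat.factorial] at h2
  linarith

section

variable (K : Type) [Field K]

/-- the coefficients -/
noncomputable def cf (n : ℕ) : homogeneousSubmodule (Fin 3) K n →ₗ[K] (I n → K) where
  toFun p d := coeff d.1 p.1
  map_add' p q := by ext d; simp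
  map_smul' r p := by ext d; simp

/-- the polynomial with given coefficients -/
noncomputable def mk {n : ℕ} (al : I n → (Fin 3 →₀ ℕ)) :
    (I n → K) →ₗ[K] MvPolynomial (Fin 3) K where
  toFun γ := ∑ d, monomial (al d) (γ d)
  map_add' p q := by simp [Finset.sum_add_distrib]
  map_smul' r p := by simp [Finset.smul_sum, smul_monomial]

theorem coeff_mk {n : ℕ} (al : I n → (Fin 3 →₀ ℕ)) (hal : Function.Injective al) (γ : I n → K)
    (d : I n) : coeff (al d) (mk K al γ) = γ d := by
  change coeff (al d) (∑ d', monomial (al d') (γ d')) = γ d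
  rw [coeff_sum, Finset.sum_eq_single d]
  · rw [coeff_monomial, if_pos rfl]
  · intro d' _ hne
    rw [coeff_monomial, if_neg (fun h => hne (hal h))]
  · intro h
    exact absurd (Finset.mem_univ d) h

theorem cf_inj (n : ℕ) : Function.Injective (cf K n) := by
  rw [injective_iff_map_eq_zero]
  intro p hp
  apply Subtype.ext
  ext d
  change coeff d p.1 = coeff d 0
  rw [coeff_zero]
  by_cases hd : d.degree = n
  · exact congrFun hp ⟨d, (mem_I n d).2 hd⟩
  · exact p.2.coeff_eq_zero hd

theorem cf_surj (n : ℕ) : Function.Surjective (cf K n) := by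
  intro γ
  refine ⟨⟨mk K (fun d => d.1) γ, ?_⟩, ?_⟩
  · rw [mem_homogeneousSubmodule]
    exact IsHomogeneous.sum _ _ _ fun d _ => isHomogeneous_monomial _ ((mem_I n d.1).1 d.2)
  · funext d
    exact coeff_mk K (fun d => d.1) Subtype.val_injective γ d

noncomputable def ce (n : ℕ) : homogeneousSubmodule (Fin 3) K n ≃ₗ[K] (I n → K) :=
  LinearEquiv.ofBijective (cf K n) ⟨cf_inj K n, cf_surj K n⟩

theorem fin_H (n : ℕ) : Module.Finite K (homogeneousSubmodule (Fin 3) K n) :=
  Module.Finite.equiv (ce K n).symm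

theorem finrank_H (n : ℕ) :
    Module.finrank K (homogeneousSubmodule (Fin 3) K n) = Fintype.card (I n) := by
  rw [(ce K n).finrank_eq, Module.finrank_fintype_fun_eq_card]

end

/-- the exponents -/
noncomputable def al (dg : Fin 3 → ℕ) (D : ℕ) {k : ℕ} (d : I k) : Fin 3 →₀ ℕ :=
  Finsupp.equivFunOnFinite.symm fun a => D / dg a * d.1 a

theorem al_apply (dg : Fin 3 → ℕ) (D : ℕ) {k : ℕ} (d : I k) (a : Fin 3) :
    al dg D d a = D / dg a * d.1 a := rfl

theorem al_inj (dg : Fin 3 → ℕ) (D : ℕ) (hD : ∀ a, 0 < D / dg a) (k : ℕ) :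
    Function.Injective (al dg D (k := k)) := by
  intro d d' h
  apply Subtype.ext
  ext a
  have h1 := DFunLike.congr_fun h a
  rw [al_apply, al_apply] at h1
  exact Nat.eq_of_mul_eq_mul_left (hD a) h1

theorem al_sum (dg : Fin 3 → ℕ) (D : ℕ) (hD : ∀ a, dg a ∣ D) {k : ℕ} (d : I k) :
    ∑ a, dg a * al dg D d a = D * k := by
  have h1 : ∑ a, d.1 a = k := (Finset.mem_finsuppAntidiag.1 d.2).1
  calc ∑ a, dg a * al dg D d a = ∑ a, D * d.1 a := by
        refine Finset.sum_congr rfl fun a _ => ?_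
        rw [al_apply, ← mul_assoc, Nat.mul_div_cancel' (hD a)]
    _ = D * k := by rw [← Finset.mul_sum, h1]

theorem main (dg : Fin 3 → ℕ) (e : ℕ) (hdg : ∀ a, 1 ≤ dg a) (D k : ℕ)
    (hD : D = dg 0 * dg 1 * dg 2) (hk : k = 2 * e * D + 2 * e + 2)
    (K : Type) [Field K] (Q : Fin 3 → MvPolynomial (Fin 3) K)
    (hQ : ∀ a, (Q a).IsHomogeneous (dg a)) (P : MvPolynomial (Fin 3) K) (hP0 : P ≠ 0)
    (hP : P.IsHomogeneous e) :
    ∃ c : MvPolynomial (Fin 3) K, c ≠ 0 ∧ c.IsWeightedHomogeneous dg (D * k) ∧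
      P ∣ aeval Q c := by
  have hdvd : ∀ a, dg a ∣ D := by
    intro a
    rw [hD]
    fin_cases a
    · exact Dvd.intro (dg 1 * dg 2) (by simp; ring)
    · exact Dvd.intro (dg 0 * dg 2) (by simp; ring)
    · exact Dvd.intro_left _ rfl
  have hDpos : 1 ≤ D := by
    rw [hD]
    have h0 := hdg 0
    have h1 := hdg 1
    have h2 := hdg 2
    exact Nat.mul_pos (Nat.mul_pos h0 h1) h2
  have hquot : ∀ a, 0 < D / dg a := fun a =>
    Nat.div_pos (Nat.le_of_dvd hDpos (hdvd a)) (hdg a)
  have hke : e ≤ D * k := by nlinarith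
  obtain ⟨m, hm⟩ := Nat.exists_eq_add_of_le hke
  have hinj := al_inj dg D hquot k
  -- the linear map
  have hmem : ∀ (γ : I k → K) (h : homogeneousSubmodule (Fin 3) K m),
      aeval Q (mk K (al dg D) γ) - P * h.1 ∈ homogeneousSubmodule (Fin 3) K (D * k) := by
    intro γ h
    refine Submodule.sub_mem _ ?_ ?_
    · change aeval Q (∑ d, monomial (al dg D d) (γ d)) ∈ _
      rw [map_sum]
      refine Submodule.sum_mem _ fun d _ => ?_
      rw [aeval_monomial, algebraMap_eq, Finsupp.prod_fintype _ _ (fun i => pow_zero _),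
        mem_homogeneousSubmodule]
      have h1 : (∏ a, Q a ^ (al dg D d a)).IsHomogeneous (∑ a, dg a * al dg D d a) :=
        IsHomogeneous.prod _ _ _ fun a _ => (hQ a).pow _
      rw [al_sum dg D hdvd] at h1
      have h2 := (isHomogeneous_C (Fin 3) (γ d)).mul h1
      rwa [zero_add] at h2
    · rw [mem_homogeneousSubmodule, hm]
      exact hP.mul h.2
  let Ψ : (I k → K) × homogeneousSubmodule (Fin 3) K m →ₗ[K]
      homogeneousSubmodule (Fin 3) K (D * k) :=
    { toFun := fun x => ⟨aeval Q (mk K (al dg D) x.1) - P * x.2.1, hmem x.1 x.2⟩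
      map_add' := fun x y => by
        apply Subtype.ext
        change aeval Q (mk K (al dg D) (x.1 + y.1)) - P * (x.2.1 + y.2.1) =
          (aeval Q (mk K (al dg D) x.1) - P * x.2.1) + (aeval Q (mk K (al dg D) y.1) - P * y.2.1)
        rw [map_add, map_add]
        ring
      map_smul' := fun r x => by
        apply Subtype.ext
        change aeval Q (mk K (al dg D) (r • x.1)) - P * (r • x.2.1) =
          r • (aeval Q (mk K (al dg D) x.1) - P * x.2.1)
        rw [map_smul, map_smul, smul_sub, mul_smul_comm] }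
  have := fin_H K m
  have := fin_H K (D * k)
  have hrank : Module.finrank K (homogeneousSubmodule (Fin 3) K (D * k)) <
      Module.finrank K ((I k → K) × homogeneousSubmodule (Fin 3) K m) := by
    rw [Module.finrank_prod, finrank_H, finrank_H, Module.finrank_fintype_fun_eq_card]
    have c1 := card_I k
    have c2 := card_I m
    have c3 := card_I (D * k)
    have hlt : (D * k + 2) * (D * k + 1) < (k + 2) * (k + 1) + (m + 2) * (m + 1) := by
      rw [hm]
      have hk2 : 2 * e * (D * k) + 3 * e < (k + 2) * (k + 1) := by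
        have : 2 * e * D * k ≤ k * k := Nat.mul_le_mul_right k (by omega)
        nlinarith
      rw [hm] at hk2
      nlinarith
    omega
  have hker := LinearMap.ker_ne_bot_of_finrank_lt (f := Ψ) hrank
  obtain ⟨x, hx, hx0⟩ := Submodule.exists_mem_ne_zero_of_ne_bot hker
  have hx1 : aeval Q (mk K (al dg D) x.1) - P * x.2.1 = 0 := congrArg Subtype.val hx
  refine ⟨mk K (al dg D) x.1, ?_, ?_, ?_⟩
  · intro h0
    have hγ : x.1 = 0 := by
      funext d
      have h2 := coeff_mk K (al dg D) hinj x.1 d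
      rw [h0, coeff_zero] at h2
      exact h2.symm
    rw [h0, map_zero, zero_sub, neg_eq_zero] at hx1
    have h3 : x.2 = 0 := Subtype.ext ((mul_eq_zero.1 hx1).resolve_left hP0)
    exact hx0 (Prod.ext hγ h3)
  · refine (weightedHomogeneousSubmodule K dg (D * k)).sum_mem fun d _ => ?_
    refine isWeightedHomogeneous_monomial _ _ _ ?_
    rw [← al_sum dg D hdvd d, Finsupp.weight_apply, Finsupp.sum_fintype _ _ (fun i => by simp)]
    exact Finset.sum_congr rfl fun a _ => by rw [smul_eq_mul, mul_comm]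
  · exact ⟨x.2.1, sub_eq_zero.1 hx1⟩

end BElimx

theorem Elim_proof : S_Elim := by
  intro dg e hdg
  refine ⟨dg 0 * dg 1 * dg 2 * (2 * e * (dg 0 * dg 1 * dg 2) + 2 * e + 2), ?_⟩
  intro K _ Q hQ P hP0 hP
  exact BElimx.main dg e hdg _ _ rfl rfl K Q hQ P hP0 hP

end Pool.Agent.Work.MP_6d7a54_an.NF
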