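import Pool.Agent.Work.MP_6d7a54_an.NF.StmtsB

/-!
# The vector field does not vanish on a component of the ramification curve (MP_6d7a54_an)
-/

namespace Pool.Agent.Work.MP_6d7a54_an.NF

open MvPolynomial

noncomputable section

namespace BF3x

variable {K : Type} [Field K]

/-- the first component of the vector field, `a, b, c` cyclic -/
theorem VV_cyc (P : Fin 3 → MvPolynomial (Fin 3) K) (l : Fin 3 → K) (c j : Fin 3) :
    VV P l j = C (l c) * P c * (pderiv (j + 1) (P (c + 1)) * pderiv (j + 2) (P (c + 2)) -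
        pderiv (j + 2) (P (c + 1)) * pderiv (j + 1) (P (c + 2))) +
      (pderiv (j + 1) (P c) * (C (l (c + 2)) * P (c + 2) * pderiv (j + 2) (P (c + 1)) -
          C (l (c + 1)) * P (c + 1) * pderiv (j + 2) (P (c + 2))) -
        pderiv (j + 2) (P c) * (C (l (c + 2)) * P (c + 2) * pderiv (j + 1) (P (c + 1)) -
          C (l (c + 1)) * P (c + 1) * pderiv (j + 1) (P (c + 2)))) := by
  unfold VV
  rw [Matrix.adjugate_fin_three, Fin.sum_univ_three]
  fin_cases c <;> fin_cases j <;> simp [Jm] <;> ring

theorem euler {P : MvPolynomial (Fin 3) K} {n : ℕ} (h : P.IsHomogeneous n) (w : Fin 3 → K) :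
    w 0 * eval w (pderiv 0 P) + w 1 * eval w (pderiv 1 P) + w 2 * eval w (pderiv 2 P) =
      n * eval w P := by
  have h1 := congrArg (eval w) h.sum_X_mul_pderiv
  rw [Fin.sum_univ_three] at h1
  simpa using h1

theorem pd_comm (i k : Fin 3) (p : MvPolynomial (Fin 3) K) :
    pderiv k (pderiv i p) = pderiv i (pderiv k p) := by
  have h : ⁅(pderiv k : Derivation K (MvPolynomial (Fin 3) K) (MvPolynomial (Fin 3) K)),
      (pderiv i : Derivation K (MvPolynomial (Fin 3) K) (MvPolynomial (Fin 3) K))⁆ = 0 := by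
    apply MvPolynomial.derivation_ext
    intro j
    rw [Derivation.commutator_apply, Derivation.zero_apply, pderiv_X, pderiv_X]
    have e : ∀ (a b : Fin 3), pderiv a ((Pi.single b (1 : MvPolynomial (Fin 3) K) :
        Fin 3 → MvPolynomial (Fin 3) K) j) = 0 := by
      intro a b
      by_cases hj : j = b
      · subst hj
        rw [Pi.single_eq_same]
        exact Derivation.map_one_eq_zero _
      · rw [Pi.single_eq_of_ne hj]
        exact map_zero _
    rw [e, e, sub_zero]
  have h2 := congrArg (fun D : Derivation K (MvPolynomial (Fin 3) K) _ => D p) h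
  simp only [Derivation.commutator_apply, Derivation.zero_apply] at h2
  exact sub_eq_zero.1 h2

/-- the linear algebra at a common zero of `h` and `P c` -/
theorem core (P : Fin 3 → MvPolynomial (Fin 3) K) (dg : Fin 3 → ℕ)
    (hom : ∀ a, (P a).IsHomogeneous (dg a)) (l : Fin 3 → K) (h : MvPolynomial (Fin 3) K)
    (B : Fin 3 → MvPolynomial (Fin 3) K) (hV : ∀ j, VV P l j = h * B j) (w : Fin 3 → K)
    (c : Fin 3) (hc : eval w (P c) = 0) (hh : eval w h = 0)
    (hN : eval w (P (c + 1)) * eval w (P (c + 2)) *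
      (l (c + 2) * dg (c + 1) - l (c + 1) * dg (c + 2)) ≠ 0) :
    (∀ j, eval w (pderiv j (P c)) = 0) ∧ ∃ be ga : Fin 3 → K,
      ∀ i j, eval w (pderiv i (pderiv j (P c))) = be i * ga j := by
  -- the vector n at w
  set n : Fin 3 → K := fun j => l (c + 2) * eval w (P (c + 2)) * eval w (pderiv j (P (c + 1))) -
    l (c + 1) * eval w (P (c + 1)) * eval w (pderiv j (P (c + 2))) with hn
  set N : K := w 0 * n 0 + w 1 * n 1 + w 2 * n 2 with hNdef
  have hN1 : N ≠ 0 := by
    have e1 := euler (hom (c + 1)) w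
    have e2 := euler (hom (c + 2)) w
    have : N = eval w (P (c + 1)) * eval w (P (c + 2)) *
        (l (c + 2) * dg (c + 1) - l (c + 1) * dg (c + 2)) := by
      rw [hNdef, hn]
      simp only
      linear_combination (l (c + 2) * eval w (P (c + 2))) * e1 -
        (l (c + 1) * eval w (P (c + 1))) * e2
    rw [this]
    exact hN
  have cross : ∀ (y u : Fin 3 → K), w 0 * y 0 + w 1 * y 1 + w 2 * y 2 = 0 →
      (∀ j : Fin 3, y (j + 1) * n (j + 2) - y (j + 2) * n (j + 1) = u j) →
      ∀ j : Fin 3, y j = (w (j + 1) * u (j + 2) - w (j + 2) * u (j + 1)) * N⁻¹ := by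
    intro y u hy hu j
    have u0 := hu 0
    have u1 := hu 1
    have u2 := hu 2
    simp at u0 u1 u2
    rw [eq_mul_inv_iff_mul_eq₀ hN1, hNdef]
    fin_cases j
    · simp
      rw [← u1, ← u2]
      linear_combination (n 0) * hy
    · simp
      rw [← u2, ← u0]
      linear_combination (n 1) * hy
    · simp
      rw [← u0, ← u1]
      linear_combination (n 2) * hy
  -- first derivatives
  have h1 : ∀ j, eval w (pderiv j (P c)) = 0 := by
    have e0 := euler (hom c) w
    rw [hc, mul_zero] at e0
    have h2 := cross (fun j => eval w (pderiv j (P c))) (fun _ => 0) e0 (by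
      intro j
      have h3 := congrArg (eval w) (hV j)
      rw [VV_cyc P l c j] at h3
      simp only [map_add, map_sub, map_mul, eval_C, hc, hh] at h3
      rw [hn]
      simp only
      linear_combination h3)
    intro j
    rw [h2 j]
    ring
  refine ⟨h1, fun i => eval w (pderiv i h), fun j => (w (j + 1) * eval w (B (j + 2)) -
    w (j + 2) * eval w (B (j + 1))) * N⁻¹, ?_⟩
  intro i j
  have hy : w 0 * eval w (pderiv i (pderiv 0 (P c))) + w 1 * eval w (pderiv i (pderiv 1 (P c))) +
      w 2 * eval w (pderiv i (pderiv 2 (P c))) = 0 := by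
    have e0 := euler ((hom c).pderiv (i := i)) w
    rw [h1 i, mul_zero] at e0
    have hcomm : ∀ k : Fin 3, pderiv k (pderiv i (P c)) = pderiv i (pderiv k (P c)) := by
      intro k
      exact pd_comm _ _ _
    rw [hcomm, hcomm, hcomm] at e0
    exact e0
  have h2 := cross (fun j => eval w (pderiv i (pderiv j (P c))))
    (fun j => eval w (pderiv i h) * eval w (B j)) hy (by
      intro j
      have h3 := congrArg (fun p => eval w (pderiv i p)) (hV j)
      rw [VV_cyc P l c j] at h3
      simp only [map_add, map_sub, Derivation.leibniz, smul_eq_mul, map_mul, eval_C, hc, hh,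
        pderiv_C, h1, map_zero] at h3
      rw [hn]
      simp only
      linear_combination h3)
  rw [h2 j]
  ring

end BF3x

open BF3x in
theorem F3_proof (h0 : S_HF) (h1 : S_Bez) (h2 : S_JH) : S_F3 := by
  intro F _ _ _ Q dg hNC K _ _ _ l hl h hirr hJ
  by_contra hcon
  push Not at hcon
  choose B hB using hcon
  -- the Jacobian does not vanish
  have hJ0 : Jac Q ≠ 0 := by
    obtain ⟨w, hw, ha, hb⟩ := h1 F (Q 0) (Q 1) (dg 0) (dg 1) (hNC.hom 0) (hNC.hom 1) (hNC.pos 0)
      (hNC.pos 1)
    intro hz
    refine hNC.n1 F w hw 0 1 (by decide) ?_ ?_ ?_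
    · rw [aeval_eq_eval]; exact ha
    · rw [aeval_eq_eval]; exact hb
    · rw [hz, map_zero]
  have hbcJ : Jac (fun a => bc K (Q a)) = bc K (Jac Q) := by
    unfold Jac
    rw [Matrix.det_fin_three, Matrix.det_fin_three]
    simp [Jm, MvPolynomial.pderiv_map, bc]
  have hhomK : ∀ a, (bc K (Q a)).IsHomogeneous (dg a) := fun a => (hNC.hom a).map _
  have hJK0 : Jac (fun a => bc K (Q a)) ≠ 0 := by
    rw [hbcJ]
    intro hz
    exact hJ0 (MvPolynomial.map_injective _ (algebraMap F K).injective (by rw [map_zero]; exact hz))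
  obtain ⟨k, hk, hhom⟩ := h0 K _ h _ hJK0 (h2 K _ dg hhomK hNC.pos).1 hJ
  have hk1 : 1 ≤ k := by
    by_contra hk0
    have hk0' : k = 0 := by omega
    subst hk0'
    have hC : h = C (coeff 0 h) := by
      have := MvPolynomial.totalDegree_eq_zero_iff_eq_C.1
        (Nat.le_zero.1 hhom.totalDegree_le)
      exact this
    have hne : coeff 0 h ≠ 0 := by
      intro hz
      rw [hz, map_zero] at hC
      exact hirr.ne_zero hC
    apply hirr.not_isUnit
    rw [hC]
    exact (IsUnit.mk0 _ hne).map C
  -- indices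
  obtain ⟨c, hc⟩ : ∃ c : Fin 3, l (c + 2) * (dg (c + 1) : K) - l (c + 1) * (dg (c + 2) : K) ≠ 0 := by
    by_contra hall
    push Not at hall
    obtain ⟨a, b, hab⟩ := hl
    have e0 := hall 0
    have e1 := hall 1
    have e2 := hall 2
    simp at e0 e1 e2
    apply hab
    fin_cases a <;> fin_cases b <;> simp
    · linear_combination (-1 : K) * e2
    · linear_combination e1
    · linear_combination e2
    · linear_combination (-1 : K) * e0
    · linear_combination (-1 : K) * e1
    · linear_combination e0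
  -- a common zero
  let Om := AlgebraicClosure K
  let φ : MvPolynomial (Fin 3) K →+* MvPolynomial (Fin 3) Om :=
    MvPolynomial.map (algebraMap K Om)
  obtain ⟨w, hw, hwh, hwc⟩ := h1 Om (φ h) (φ (bc K (Q c))) k (dg c) (hhom.map _)
    ((hhomK c).map _) hk1 (hNC.pos c)
  have hae : ∀ p : MvPolynomial (Fin 3) F, aeval w p = eval w (φ (bc K p)) := by
    intro p
    rw [show φ (bc K p) = MvPolynomial.map (algebraMap F Om) p from by
      show MvPolynomial.map (algebraMap K Om) (MvPolynomial.map (algebraMap F K) p) = _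
      rw [MvPolynomial.map_map, ← IsScalarTower.algebraMap_eq]]
    rw [eval_map, aeval_def]
  have hJw : aeval w (Jac Q) = 0 := by
    rw [hae, ← hbcJ]
    obtain ⟨g, hg⟩ := hJ
    rw [hg, map_mul, map_mul, hwh, zero_mul]
  have hne : ∀ a, a ≠ c → eval w (φ (bc K (Q a))) ≠ 0 := by
    intro a hac hz
    refine hNC.n1 Om w hw a c hac ?_ ?_ hJw
    · rw [hae]; exact hz
    · rw [hae]; exact hwc
  have hVV : ∀ j, VV (fun a => φ (bc K (Q a))) (fun a => algebraMap K Om (l a)) j =
      φ h * φ (B j) := by
    intro j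
    rw [← map_mul, ← hB j, VV_cyc _ _ 0 j, VV_cyc _ _ 0 j]
    simp [φ, MvPolynomial.pderiv_map]
  obtain ⟨hd1, be, ga, hd2⟩ := core (fun a => φ (bc K (Q a))) dg (fun a => (hhomK a).map _)
    (fun a => algebraMap K Om (l a)) (φ h) (fun j => φ (B j)) hVV w c hwc hwh (by
      refine mul_ne_zero (mul_ne_zero (hne _ (by fin_cases c <;> decide))
        (hne _ (by fin_cases c <;> decide))) ?_
      have := (map_ne_zero (algebraMap K Om)).2 hc
      rw [map_sub, map_mul, map_mul, map_natCast, map_natCast] at this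
      exact this)
  refine hNC.n2 Om w hw c ?_ ?_ be ga ?_
  · rw [hae]; exact hwc
  · intro j
    rw [hae]
    have := hd1 j
    simpa [φ, bc, MvPolynomial.pderiv_map] using this
  · intro i j
    rw [hae]
    have := hd2 i j
    simpa [φ, bc, MvPolynomial.pderiv_map] using this

end

end Pool.Agent.Work.MP_6d7a54_an.NF
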