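import Pool.Agent.Work.MP_6d7a54_an.NF.StmtsB

/-! # Item F3b: the vector field is not tangent to a component of the ramification curve -/

set_option autoImplicit false

namespace Pool.Agent.Work.MP_6d7a54_an.NF

open MvPolynomial

noncomputable section

namespace BF3bx

/-- the vector field as a derivation -/
def D3 {K : Type} [Field K] (V : Fin 3 → MvPolynomial (Fin 3) K) :
    Derivation K (MvPolynomial (Fin 3) K) (MvPolynomial (Fin 3) K) :=
  V 0 • pderiv 0 + V 1 • pderiv 1 + V 2 • pderiv 2

lemma D3_apply {K : Type} [Field K] (V : Fin 3 → MvPolynomial (Fin 3) K)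
    (f : MvPolynomial (Fin 3) K) : D3 V f = vd V f := by
  unfold D3 vd
  rw [Fin.sum_univ_three]
  simp [Derivation.add_apply, Derivation.smul_apply]

lemma D3_X {K : Type} [Field K] (V : Fin 3 → MvPolynomial (Fin 3) K) (j : Fin 3) :
    D3 V (X j) = V j := by
  rw [D3_apply]
  unfold vd
  rw [Finset.sum_eq_single j]
  · rw [pderiv_X_self, mul_one]
  · intro i _ hij
    rw [pderiv_X_of_ne (Ne.symm hij), mul_zero]
  · intro h
    exact absurd (Finset.mem_univ j) h

/-- derivative of the value of a polynomial -/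
lemma D_eval {K : Type} [Field K] (D : Derivation K (MvPolynomial (Fin 3) K)
    (MvPolynomial (Fin 3) K)) (x : MvPolynomial (Fin 3) K)
    (q : Polynomial (MvPolynomial (Fin 3) K)) :
    D (q.eval x) = (q.derivative).eval x * D x + ∑ i ∈ q.support, x ^ i * D (q.coeff i) := by
  rw [Polynomial.eval_eq_sum, Polynomial.derivative_eval, Polynomial.sum, Polynomial.sum, map_sum,
    Finset.sum_mul, ← Finset.sum_add_distrib]
  refine Finset.sum_congr rfl fun i _ => ?_
  rw [Derivation.leibniz, Derivation.leibniz_pow]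
  simp only [smul_eq_mul, nsmul_eq_mul]
  ring

/-- the main step -/
lemma main {K : Type} [Field K] [CharZero K] (D : Derivation K (MvPolynomial (Fin 3) K)
    (MvPolynomial (Fin 3) K)) {h x : MvPolynomial (Fin 3) K} (hp : Prime h) (hD : h ∣ D h)
    (hex : ∃ q : Polynomial (MvPolynomial (Fin 3) K), (∀ i, h ∣ D (q.coeff i)) ∧
      ¬ h ∣ q.leadingCoeff ∧ h ∣ q.eval x) : h ∣ D x := by
  classical
  have hex' : ∃ n : ℕ, ∃ q : Polynomial (MvPolynomial (Fin 3) K), q.natDegree = n ∧
      (∀ i, h ∣ D (q.coeff i)) ∧ ¬ h ∣ q.leadingCoeff ∧ h ∣ q.eval x := by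
    obtain ⟨q, hq⟩ := hex
    exact ⟨_, q, rfl, hq⟩
  obtain ⟨q, hqn, hq1, hq2, hq3⟩ := Nat.find_spec hex'
  have hmin := fun m (hm : m < Nat.find hex') => Nat.find_min hex' hm
  rw [← hqn] at hmin
  have hpos : 0 < q.natDegree := by
    rcases Nat.eq_zero_or_pos q.natDegree with h0 | h0
    · exfalso
      apply hq2
      rw [Polynomial.eq_C_of_natDegree_eq_zero h0, Polynomial.eval_C] at hq3
      rwa [Polynomial.leadingCoeff, h0]
    · exact h0
  have hlt : q.derivative.natDegree < q.natDegree :=
    Polynomial.natDegree_derivative_lt hpos.ne'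
  have hnd : q.derivative.natDegree = q.natDegree - 1 :=
    Polynomial.natDegree_derivative q
  have hkey : ¬ h ∣ q.derivative.eval x := by
    intro hdv
    refine hmin _ hlt ⟨q.derivative, rfl, fun i => ?_, ?_, hdv⟩
    · rw [Polynomial.coeff_derivative, Derivation.leibniz]
      have h1 : D ((i : MvPolynomial (Fin 3) K) + 1) = 0 := by
        rw [map_add, Derivation.map_natCast, Derivation.map_one_eq_zero, add_zero]
      rw [h1, smul_zero, zero_add]
      exact (hq1 _).mul_left _
    · rw [Polynomial.leadingCoeff, hnd, Polynomial.coeff_derivative,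
        Nat.sub_add_cancel hpos]
      intro hdv2
      rcases hp.dvd_or_dvd hdv2 with h1 | h1
      · exact hq2 h1
      · have h2 : ((q.natDegree - 1 : ℕ) : MvPolynomial (Fin 3) K) + 1 =
            C ((q.natDegree : K)) := by
          have h3 : ((q.natDegree - 1 : ℕ) : MvPolynomial (Fin 3) K) + 1 =
              ((q.natDegree - 1 + 1 : ℕ) : MvPolynomial (Fin 3) K) := by push_cast; rfl
          rw [h3, Nat.sub_add_cancel hpos, map_natCast]
        rw [h2] at h1
        apply hp.not_isUnit
        apply isUnit_of_dvd_unit h1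
        apply IsUnit.map C
        rw [isUnit_iff_ne_zero]
        exact_mod_cast hpos.ne'
  have hDe := D_eval D x q
  have hd1 : h ∣ D (q.eval x) := by
    obtain ⟨s, hs⟩ := hq3
    rw [hs, Derivation.leibniz]
    simp only [smul_eq_mul]
    exact dvd_add (dvd_mul_right _ _) (hD.mul_left _)
  have hd2 : h ∣ ∑ i ∈ q.support, x ^ i * D (q.coeff i) :=
    Finset.dvd_sum fun i _ => (hq1 i).mul_left _
  rw [hDe] at hd1
  have hd3 := (dvd_add_left hd2).1 hd1
  exact (hp.dvd_or_dvd hd3).resolve_left hkey

end BF3bx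

open BF3bx in
/-- The vector field is not tangent to a component of the ramification curve. -/
theorem F3b_proof (h1 : S_Int) (h2 : S_JH) (h3 : S_F3) : S_F3b := by
  intro F _ _ _ Q dg hNC K _ _ _ l hl h hirr hJ hdv
  obtain ⟨j, hj⟩ := h3 F Q dg hNC K l hl h hirr hJ
  apply hj
  set V : Fin 3 → MvPolynomial (Fin 3) K := VV (fun a => bc K (Q a)) l with hV
  have hhom : ∀ a, (bc K (Q a)).IsHomogeneous (dg a) := fun a => (hNC.hom a).map _
  obtain ⟨-, -, hJH⟩ := h2 K (fun a => bc K (Q a)) dg hhom hNC.pos
  have hDQ : ∀ a, h ∣ D3 V (bc K (Q a)) := by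
    intro a
    rw [D3_apply, hV, hJH l a]
    exact hJ.mul_right _
  set ψ : MvPolynomial (Fin 3) F →+* MvPolynomial (Fin 3) K :=
    (MvPolynomial.map (algebraMap F K)).comp
      ((aeval Q : MvPolynomial (Fin 3) F →ₐ[F] MvPolynomial (Fin 3) F) :
        MvPolynomial (Fin 3) F →+* MvPolynomial (Fin 3) F) with hψ
  have hDψ : ∀ c : MvPolynomial (Fin 3) F, h ∣ D3 V (ψ c) := by
    intro c
    induction c using MvPolynomial.induction_on with
    | C a =>
      have e : ψ (C a) = algebraMap K (MvPolynomial (Fin 3) K) (algebraMap F K a) := by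
        rw [hψ]
        simp [MvPolynomial.algebraMap_eq]
      rw [e, Derivation.map_algebraMap]
      exact dvd_zero _
    | add p q hp hq =>
      rw [map_add, map_add]
      exact dvd_add hp hq
    | mul_X p i hp =>
      have e : ψ (p * X i) = ψ p * bc K (Q i) := by
        rw [map_mul]
        congr 1
        rw [hψ]
        simp
      rw [e, Derivation.leibniz]
      simp only [smul_eq_mul]
      exact dvd_add ((hDQ i).mul_left _) (hp.mul_left _)
  obtain ⟨p, hpm, hp0⟩ := (h1 F Q dg hNC).2.2 (X j)
  have hprime : Prime h := UniqueFactorizationMonoid.irreducible_iff_prime.1 hirr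
  have hres := BF3bx.main (D3 V) (x := X j) hprime (by rw [D3_apply]; exact hdv)
    ⟨p.map ψ, fun i => by rw [Polynomial.coeff_map]; exact hDψ _, by
      rw [(hpm.map ψ).leadingCoeff]
      intro hd
      exact hprime.not_isUnit (isUnit_of_dvd_one hd), by
      rw [Polynomial.eval_map]
      have e := Polynomial.hom_eval₂ p
        ((aeval Q : MvPolynomial (Fin 3) F →ₐ[F] MvPolynomial (Fin 3) F) :
        MvPolynomial (Fin 3) F →+* MvPolynomial (Fin 3) F)
        (MvPolynomial.map (algebraMap F K)) (X j)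
      rw [hp0, map_zero, MvPolynomial.map_X] at e
      rw [← e]
      exact dvd_zero _⟩
  rwa [D3_X] at hres

end

end Pool.Agent.Work.MP_6d7a54_an.NF
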