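import Pool.Agent.Work.MP_6d7a54_an.NF.StmtsB

/-!
# Item Fin: common zeros of two coprime forms (MP_6d7a54_an)
-/

set_option autoImplicit false

namespace Pool.Agent.Work.MP_6d7a54_an.NF

open MvPolynomial

noncomputable section

namespace BFinx

/-- roots of a nonzero polynomial over an algebraically closed field are constants -/
theorem root_const {F Om : Type} [Field F] [IsAlgClosed F] [Field Om] [Algebra F Om]
    (r : Polynomial F) (hr : r ≠ 0) (t : Om) (h : Polynomial.aeval t r = 0) :
    ∃ s ∈ r.roots, algebraMap F Om s = t := by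
  have hsp : r.Splits := IsAlgClosed.splits r
  have h0 : r.map (algebraMap F Om) ≠ 0 := Polynomial.map_ne_zero hr
  have h1 : t ∈ (r.map (algebraMap F Om)).roots := by
    rw [Polynomial.mem_roots h0, Polynomial.IsRoot.def, Polynomial.eval_map_algebraMap]
    exact h
  rw [hsp.roots_map, Multiset.mem_map] at h1
  exact h1

/-- the quotients of two coordinates of the common zeros are in a finite set -/
theorem ratio (h1 : S_Dim) (F : Type) [Field F] [IsAlgClosed F] (f g : MvPolynomial (Fin 3) F)
    (a b : ℕ) (hf : f.IsHomogeneous a) (hg : g.IsHomogeneous b) (hf0 : f ≠ 0) (hg0 : g ≠ 0)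
    (hfg : IsRelPrime f g) (i j : Fin 3) :
    ∃ S : Finset F, ∀ (Om : Type) [Field Om] [Algebra F Om] (w : Fin 3 → Om), w j ≠ 0 →
      aeval w f = 0 → aeval w g = 0 → ∃ s ∈ S, w i = w j * algebraMap F Om s := by
  classical
  obtain ⟨B, hB⟩ := h1
  set n := B a b with hn
  obtain ⟨c, hc, A, A', hA⟩ := hB F f g a b hf hg hf0 hg0 hfg n (n + 1)
    (fun k => X i ^ (k : ℕ) * X j ^ (n - (k : ℕ))) (by
      intro k
      have h2 := ((isHomogeneous_X F i).pow (k : ℕ)).mul
        ((isHomogeneous_X F j).pow (n - (k : ℕ)))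
      have e : 1 * (k : ℕ) + 1 * (n - (k : ℕ)) = n := by
        have := k.2
        omega
      rw [e] at h2
      exact h2) (by omega)
  set r : Polynomial F := ∑ k : Fin (n + 1), Polynomial.monomial (k : ℕ) (c k) with hr
  have hr0 : r ≠ 0 := by
    intro h0
    apply hc
    funext k
    have h2 : r.coeff (k : ℕ) = c k := by
      rw [hr, Polynomial.finsetSum_coeff, Finset.sum_eq_single k]
      · rw [Polynomial.coeff_monomial, if_pos rfl]
      · intro k' _ hk'
        rw [Polynomial.coeff_monomial, if_neg]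
        intro h3
        exact hk' (Fin.ext h3)
      · intro h3
        exact absurd (Finset.mem_univ k) h3
    rw [← h2, h0, Polynomial.coeff_zero]
    rfl
  refine ⟨r.roots.toFinset, ?_⟩
  intro Om _ _ w hw h3 h4
  have h5 : Polynomial.aeval (w i / w j) r = 0 := by
    have h6 := congrArg (aeval w : MvPolynomial (Fin 3) F →ₐ[F] Om) hA
    rw [map_sum, map_add, map_mul, map_mul, h3, h4, mul_zero, mul_zero, add_zero] at h6
    have h7 : w j ^ n * Polynomial.aeval (w i / w j) r = 0 := by
      rw [hr, map_sum, Finset.mul_sum, ← h6]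
      refine Finset.sum_congr rfl fun k _ => ?_
      rw [Polynomial.aeval_monomial, map_mul, map_mul, map_pow, map_pow, aeval_X, aeval_X, aeval_C,
        div_pow]
      have e : n = (k : ℕ) + (n - (k : ℕ)) := by
        have := k.2
        omega
      have e2 : w j ^ n = w j ^ (k : ℕ) * w j ^ (n - (k : ℕ)) := by
        rw [← pow_add, ← e]
      rw [e2]
      field_simp
    exact (mul_eq_zero.1 h7).resolve_left (pow_ne_zero _ hw)
  obtain ⟨s, hs, hs2⟩ := root_const r hr0 _ h5
  refine ⟨s, Multiset.mem_toFinset.2 hs, ?_⟩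
  rw [hs2]
  field_simp

end BFinx

theorem Fin_proof (h1 : S_Dim) : S_Fin := by
  classical
  intro F _ _ f g a b hf hg hf0 hg0 hfg
  choose S hS using fun i j => BFinx.ratio h1 F f g a b hf hg hf0 hg0 hfg i j
  refine ⟨Fintype.piFinset fun _ => Finset.univ.biUnion fun i => Finset.univ.biUnion fun j => S i j,
    ?_⟩
  intro Om _ _ w hw h2 h3
  obtain ⟨j, hj⟩ := Function.ne_iff.1 hw
  choose s hs hs2 using fun i => hS i j Om w hj h2 h3
  refine ⟨s, ?_, w j, hj, hs2⟩
  rw [Fintype.mem_piFinset]
  intro i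
  exact Finset.mem_biUnion.2 ⟨i, Finset.mem_univ _, Finset.mem_biUnion.2
    ⟨j, Finset.mem_univ _, hs i⟩⟩

end

end Pool.Agent.Work.MP_6d7a54_an.NF
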