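import Pool.Agent.Work.MP_6d7a54_an.NF.StmtsB

/-!
# Item HF: factors of homogeneous polynomials
-/

set_option autoImplicit false

namespace Pool.Agent.Work.MP_6d7a54_an.NF

open MvPolynomial

namespace BHFx

section

variable {K : Type} [Field K]

/-- the homomorphism `f ↦ f (T X)` -/
noncomputable def Ph : MvPolynomial (Fin 3) K →+* Polynomial (MvPolynomial (Fin 3) K) :=
  MvPolynomial.eval₂Hom (Polynomial.C.comp MvPolynomial.C)
    (fun i => Polynomial.C (MvPolynomial.X i) * Polynomial.X)

theorem Ph_monomial (m : Fin 3 →₀ ℕ) (a : K) : Ph (monomial m a) =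
    Polynomial.C (monomial m a) * Polynomial.X ^ (Finsupp.weight 1 m : ℕ) := by
  unfold Ph
  rw [MvPolynomial.eval₂Hom_monomial, Finsupp.prod_fintype _ _ (fun i => by simp)]
  simp only [mul_pow]
  rw [Finset.prod_mul_distrib, Finset.prod_pow_eq_pow_sum]
  have h1 : (Finsupp.weight 1 m : ℕ) = ∑ i, m i := by
    rw [Finsupp.weight_apply, Finsupp.sum_fintype _ _ (fun i => by simp)]
    simp
  rw [h1, ← mul_assoc, MvPolynomial.monomial_eq, Finsupp.prod_fintype _ _ (fun i => by simp)]
  simp only [map_mul, map_prod, map_pow, RingHom.comp_apply]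

theorem coeff_Ph (h : MvPolynomial (Fin 3) K) : ∀ (m : Fin 3 →₀ ℕ) (d : ℕ),
    MvPolynomial.coeff m ((Ph h).coeff d) =
      if (Finsupp.weight 1 m : ℕ) = d then MvPolynomial.coeff m h else 0 := by
  induction h using MvPolynomial.induction_on' with
  | monomial u a =>
    intro m d
    rw [Ph_monomial, Polynomial.coeff_C_mul_X_pow]
    by_cases h1 : u = m
    · subst h1
      by_cases h2 : d = (Finsupp.weight 1 u : ℕ)
      · rw [if_pos h2, if_pos h2.symm]
      · rw [if_neg h2, if_neg fun h3 => h2 h3.symm, MvPolynomial.coeff_zero]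
    · have h3 : MvPolynomial.coeff m (monomial u a) = 0 := by
        rw [MvPolynomial.coeff_monomial, if_neg h1]
      rw [h3, ite_self]
      split_ifs
      · exact h3
      · rw [MvPolynomial.coeff_zero]
  | add p q hp hq =>
    intro m d
    rw [map_add, Polynomial.coeff_add, MvPolynomial.coeff_add, hp, hq, MvPolynomial.coeff_add]
    split_ifs
    · rfl
    · rw [add_zero]

theorem Ph_hom {f : MvPolynomial (Fin 3) K} {n : ℕ} (hf : f.IsHomogeneous n) :
    Ph f = Polynomial.C f * Polynomial.X ^ n := by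
  ext d m
  rw [coeff_Ph, Polynomial.coeff_C_mul_X_pow]
  by_cases h1 : MvPolynomial.coeff m f = 0
  · rw [h1, ite_self]
    split_ifs
    · exact h1.symm
    · rw [MvPolynomial.coeff_zero]
  · have h2 : (Finsupp.weight 1 m : ℕ) = n := hf h1
    rw [h2]
    by_cases h3 : d = n
    · rw [if_pos h3, if_pos h3.symm]
    · rw [if_neg h3, if_neg fun h4 => h3 h4.symm, MvPolynomial.coeff_zero]

end

end BHFx

open BHFx in
theorem HF_proof : S_HF := by
  intro K _ f h n hf0 hf hdvd
  obtain ⟨g, rfl⟩ := hdvd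
  have hh0 : h ≠ 0 := left_ne_zero_of_mul hf0
  have hg0 : g ≠ 0 := right_ne_zero_of_mul hf0
  have h1 : Ph h * Ph g = Polynomial.C (h * g) * Polynomial.X ^ n := by
    rw [← map_mul, Ph_hom hf]
  have hne : Polynomial.C (h * g) * Polynomial.X ^ n ≠ 0 :=
    mul_ne_zero (by rwa [Ne, Polynomial.C_eq_zero]) (pow_ne_zero _ Polynomial.X_ne_zero)
  have hPh : Ph h ≠ 0 := left_ne_zero_of_mul (h1 ▸ hne)
  have hPg : Ph g ≠ 0 := right_ne_zero_of_mul (h1 ▸ hne)
  have e1 := congrArg Polynomial.natDegree h1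
  rw [Polynomial.natDegree_mul hPh hPg, Polynomial.natDegree_C_mul_X_pow n _ hf0] at e1
  have e2 := congrArg Polynomial.natTrailingDegree h1
  rw [Polynomial.natTrailingDegree_mul hPh hPg, Polynomial.C_mul_X_pow_eq_monomial,
    Polynomial.natTrailingDegree_monomial hf0] at e2
  have t1 := Polynomial.natTrailingDegree_le_natDegree (Ph h)
  have t2 := Polynomial.natTrailingDegree_le_natDegree (Ph g)
  refine ⟨(Ph h).natDegree, by omega, ?_⟩
  intro m hm
  have h3 : (Ph h).coeff (Finsupp.weight 1 m : ℕ) ≠ 0 := by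
    intro h4
    have h5 := coeff_Ph h m (Finsupp.weight 1 m : ℕ)
    rw [h4, if_pos rfl, MvPolynomial.coeff_zero] at h5
    exact hm h5.symm
  have h4 := Polynomial.le_natDegree_of_ne_zero h3
  have h5 := Polynomial.natTrailingDegree_le_of_ne_zero h3
  omega

end Pool.Agent.Work.MP_6d7a54_an.NF
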