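import Pool.Agent.Work.MP_6d7a54_an.NF.StmtsB

/-!
# The Jacobian does not vanish identically; no common zero; integrality (MP_6d7a54_an, item Int)
-/

namespace Pool.Agent.Work.MP_6d7a54_an.NF

open MvPolynomial

noncomputable section

namespace BIntx

/-- integrality from generation of the target by a finite set -/
theorem int_of (S A : Type) [CommRing S] [CommRing A] (f : S →+* A) (T : Set A) (hT : T.Finite)
    (H : ∀ M : AddSubgroup A, (∀ s x, x ∈ M → f s * x ∈ M) → (∀ t ∈ T, t ∈ M) → ∀ x, x ∈ M) :
    f.IsIntegral := by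
  let _ := f.toAlgebra
  have h1 : Submodule.span S T = ⊤ := by
    rw [eq_top_iff]
    intro x _
    have := H (Submodule.span S T).toAddSubgroup (fun s x hx => by
      have h2 := (Submodule.span S T).smul_mem s hx
      rw [Algebra.smul_def] at h2
      exact h2) (fun t ht => Submodule.subset_span ht) x
    exact this
  have h2 : Module.Finite S A := by
    constructor
    rw [← h1]
    exact Submodule.fg_span hT
  have h3 : f.Finite := h2
  exact h3.to_isIntegral

theorem jac_eval {F Om : Type} [Field F] [Field Om] [Algebra F Om]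
    (Q : Fin 3 → MvPolynomial (Fin 3) F) (w : Fin 3 → Om) :
    aeval w (Jac Q) = (Matrix.of fun a j => aeval w (pderiv j (Q a))).det := by
  unfold Jac
  rw [AlgHom.map_det]
  congr 1

/-- no common zero -/
theorem nocommon {F : Type} [Field F] (Q : Fin 3 → MvPolynomial (Fin 3) F) (dg : Fin 3 → ℕ)
    (h : NC3 Q dg) (Om : Type) [Field Om] [Algebra F Om] (w : Fin 3 → Om)
    (hw : ∀ a, aeval w (Q a) = 0) : w = 0 := by
  by_contra hne
  have h1 := h.n1 Om w hne 0 1 (by decide) (hw 0) (hw 1)
  apply h1
  rw [jac_eval]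
  rw [← Matrix.exists_mulVec_eq_zero_iff]
  refine ⟨w, hne, ?_⟩
  funext a
  have h2 := (h.hom a).sum_X_mul_pderiv
  have h3 := congrArg (aeval w) h2
  rw [map_sum, map_nsmul, hw a, nsmul_zero] at h3
  simp only [map_mul, aeval_X] at h3
  simp only [Matrix.mulVec, dotProduct, Matrix.of_apply, Pi.zero_apply]
  rw [← h3]
  exact Finset.sum_congr rfl fun j _ => mul_comm _ _

/-- powers of the variables lie in the ideal -/
theorem powmem {F : Type} [Field F] [IsAlgClosed F] (Q : Fin 3 → MvPolynomial (Fin 3) F)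
    (dg : Fin 3 → ℕ) (h : NC3 Q dg) : ∃ N : ℕ, ∀ j, (X j : MvPolynomial (Fin 3) F) ^ N ∈
      Ideal.span (Set.range Q) := by
  have h1 : ∀ j, ∃ N : ℕ, (X j : MvPolynomial (Fin 3) F) ^ N ∈ Ideal.span (Set.range Q) := by
    intro j
    have h2 : (X j : MvPolynomial (Fin 3) F) ∈ (Ideal.span (Set.range Q)).radical := by
      rw [← vanishingIdeal_zeroLocus_eq_radical (K := F)]
      rw [mem_vanishingIdeal_iff]
      intro x hx
      have h3 : x = 0 := nocommon Q dg h F x fun a =>
        hx (Q a) (Ideal.subset_span (Set.mem_range_self a))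
      rw [aeval_X, h3]
      rfl
    exact h2
  choose N hN using h1
  refine ⟨∑ j, N j, fun j => ?_⟩
  have h4 : N j ≤ ∑ j, N j := Finset.single_le_sum (f := N) (fun _ _ => Nat.zero_le _)
    (Finset.mem_univ j)
  obtain ⟨k, hk⟩ := Nat.exists_eq_add_of_le h4
  rw [hk, pow_add]
  exact Ideal.mul_mem_right _ _ (hN j)

/-- homogeneous components of a multiple of a homogeneous form -/
theorem comp_mem {F : Type} [Field F] (M : AddSubgroup (MvPolynomial (Fin 3) F))
    (g q : MvPolynomial (Fin 3) F) (d n : ℕ) (hd : 1 ≤ d) (hq : q.IsHomogeneous d)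
    (hM : ∀ x ∈ M, q * x ∈ M)
    (ih : ∀ m < n, ∀ x : MvPolynomial (Fin 3) F, x.IsHomogeneous m → x ∈ M) :
    homogeneousComponent n (g * q) ∈ M := by
  have h1 : g * q = ∑ i ∈ Finset.range (g.totalDegree + 1), homogeneousComponent i g * q := by
    rw [← Finset.sum_mul, sum_homogeneousComponent]
  rw [h1, map_sum]
  refine AddSubgroup.sum_mem _ fun i _ => ?_
  have h2 : homogeneousComponent i g * q ∈ homogeneousSubmodule (Fin 3) F (i + d) :=
    (homogeneousComponent_isHomogeneous i g).mul hq
  rw [homogeneousComponent_of_mem h2]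
  split_ifs with h3
  · rw [mul_comm]
    exact hM _ (ih i (by omega) _ (homogeneousComponent_isHomogeneous i g))
  · exact M.zero_mem

theorem exists_big (N : ℕ) (d : Fin 3 →₀ ℕ) (h : 3 * N ≤ d.degree) (hN : 1 ≤ N) :
    ∃ j, N ≤ d j := by
  by_contra hcon
  push Not at hcon
  have h1 : d.degree = ∑ j, d j := by
    rw [Finsupp.degree_eq_sum]
  have h2 : ∑ j, d j = d 0 + d 1 + d 2 := by
    rw [Fin.sum_univ_three]
  have := hcon 0
  have := hcon 1
  have := hcon 2
  omega

theorem finmon (B : ℕ) (F : Type) [Field F] :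
    {p : MvPolynomial (Fin 3) F | ∃ d : Fin 3 →₀ ℕ, d.degree < B ∧ p = monomial d 1}.Finite := by
  have h1 : {d : Fin 3 →₀ ℕ | d.degree < B}.Finite := by
    refine Set.Finite.subset (Set.finite_Iic (Finsupp.equivFunOnFinite.symm fun _ : Fin 3 => B)) ?_
    intro d hd
    rw [Set.mem_Iic]
    intro j
    have h2 : d j ≤ d.degree := Finsupp.le_degree j d
    have h3 : d.degree < B := hd
    show d j ≤ B
    omega
  refine (h1.image fun d => monomial d (1 : F)).subset ?_
  rintro p ⟨d, hd, rfl⟩
  exact ⟨d, hd, rfl⟩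

theorem integral {F : Type} [Field F] [IsAlgClosed F] (Q : Fin 3 → MvPolynomial (Fin 3) F)
    (dg : Fin 3 → ℕ) (h : NC3 Q dg) :
    ((aeval Q : MvPolynomial (Fin 3) F →ₐ[F] MvPolynomial (Fin 3) F) :
      MvPolynomial (Fin 3) F →+* MvPolynomial (Fin 3) F).IsIntegral := by
  obtain ⟨N0, hN0⟩ := powmem Q dg h
  obtain ⟨N, hN, hN1⟩ : ∃ N : ℕ, (∀ j, (X j : MvPolynomial (Fin 3) F) ^ N ∈
      Ideal.span (Set.range Q)) ∧ 1 ≤ N := by
    refine ⟨N0 + 1, fun j => ?_, by omega⟩
    rw [pow_succ]
    exact Ideal.mul_mem_right _ _ (hN0 j)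
  refine int_of _ _ _ _ (finmon (3 * N) F) ?_
  intro M hM hT
  have hC : ∀ (c : F) (x : MvPolynomial (Fin 3) F), x ∈ M → C c * x ∈ M := by
    intro c x hx
    have := hM (C c) x hx
    rwa [AlgHom.coe_toRingHom, aeval_C, algebraMap_eq] at this
  have hQ : ∀ (a : Fin 3) (x : MvPolynomial (Fin 3) F), x ∈ M → Q a * x ∈ M := by
    intro a x hx
    have := hM (X a) x hx
    rwa [AlgHom.coe_toRingHom, aeval_X] at this
  have key : ∀ n : ℕ, ∀ x : MvPolynomial (Fin 3) F, x.IsHomogeneous n → x ∈ M := by
    intro n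
    induction n using Nat.strong_induction_on with
    | _ n ih =>
      intro x hx
      have h1 : ∀ d : Fin 3 →₀ ℕ, d.degree = n → monomial d (1 : F) ∈ M := by
        intro d hd
        by_cases hlt : n < 3 * N
        · exact hT _ ⟨d, by omega, rfl⟩
        · obtain ⟨j, hj⟩ := exists_big N d (by omega) hN1
          have h2 : (monomial d (1 : F)) =
              monomial (d - Finsupp.single j N) (1 : F) * X j ^ N := by
            rw [X_pow_eq_monomial, monomial_mul, mul_one]
            congr 1
            rw [tsub_add_cancel_of_le]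
            rw [Finsupp.single_le_iff]
            exact hj
          have h3 := hN j
          rw [Ideal.span, Submodule.mem_span_range_iff_exists_fun] at h3
          obtain ⟨c, hc⟩ := h3
          have h4 : homogeneousComponent n (monomial d (1 : F)) = monomial d (1 : F) :=
            homogeneousComponent_eq_self (isHomogeneous_monomial _ hd)
          rw [← h4, h2, ← hc, Finset.mul_sum, map_sum]
          refine AddSubgroup.sum_mem _ fun a _ => ?_
          rw [smul_eq_mul, ← mul_assoc]
          exact comp_mem M _ (Q a) (dg a) n (h.pos a) (h.hom a) (hQ a) ih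
      rw [x.as_sum]
      refine AddSubgroup.sum_mem _ fun d hd => ?_
      have h5 : d.degree = n := by
        have := hx (mem_support_iff.mp hd)
        rw [Finsupp.degree_eq_weight_one]
        exact this
      have h6 : monomial d (coeff d x) = C (coeff d x) * monomial d (1 : F) := by
        rw [C_mul_monomial, mul_one]
      rw [h6]
      exact hC _ _ (h1 d h5)
  intro x
  rw [← sum_homogeneousComponent x]
  exact AddSubgroup.sum_mem _ fun i _ => key i _ (homogeneousComponent_isHomogeneous i x)

end BIntx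

theorem Int_proof (h1 : S_Bez) : S_Int := by
  intro F _ _ _ Q dg h
  refine ⟨?_, ?_, ?_⟩
  · obtain ⟨w, hw, h2, h3⟩ := h1 F (Q 0) (Q 1) (dg 0) (dg 1) (h.hom 0) (h.hom 1) (h.pos 0)
      (h.pos 1)
    have h4 := h.n1 F w hw 0 1 (by decide) (by rw [aeval_eq_eval]; exact h2)
      (by rw [aeval_eq_eval]; exact h3)
    intro h5
    apply h4
    rw [h5, map_zero]
  · intro Om _ _ w hw
    exact BIntx.nocommon Q dg h Om w hw
  · intro P
    exact BIntx.integral Q dg h P

end

end Pool.Agent.Work.MP_6d7a54_an.NF
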