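import Pool.Agent.Work.MP_6d7a54_an.NF.StmtsB

/-!
# Item JH: degrees and relations of the Jacobian and of the vector field
-/

set_option autoImplicit false

namespace Pool.Agent.Work.MP_6d7a54_an.NF

open MvPolynomial

namespace BJHx

variable {K : Type} [Field K]

theorem hd {Q : Fin 3 → MvPolynomial (Fin 3) K} {dg : Fin 3 → ℕ}
    (h : ∀ a, (Q a).IsHomogeneous (dg a)) (a j : Fin 3) :
    (Jm Q a j).IsHomogeneous (dg a - 1) := (h a).pderiv

/-- two by two minors -/
theorem mnr {Q : Fin 3 → MvPolynomial (Fin 3) K} {dg : Fin 3 → ℕ}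
    (h : ∀ a, (Q a).IsHomogeneous (dg a)) (a b i j i' j' : Fin 3) :
    (Jm Q a i * Jm Q b j - Jm Q a i' * Jm Q b j').IsHomogeneous (dg a - 1 + (dg b - 1)) :=
  ((hd h a i).mul (hd h b j)).sub ((hd h a i').mul (hd h b j'))

theorem adj {Q : Fin 3 → MvPolynomial (Fin 3) K} {dg : Fin 3 → ℕ}
    (h : ∀ a, (Q a).IsHomogeneous (dg a)) (hp : ∀ a, 1 ≤ dg a) (j a : Fin 3) :
    ((Jm Q).adjugate j a * Q a).IsHomogeneous (∑ a, dg a - 3 + 1) := by
  have h0 := hp 0
  have h1 := hp 1
  have h2 := hp 2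
  have key : ∃ b c : Fin 3, ∃ i k i' k' : Fin 3, dg a + dg b + dg c = ∑ a, dg a ∧
      (Jm Q).adjugate j a = Jm Q b i * Jm Q c k - Jm Q b i' * Jm Q c k' := by
    rw [Fin.sum_univ_three]
    have e := Matrix.adjugate_fin_three (Jm Q)
    fin_cases j <;> fin_cases a
    · exact ⟨1, 2, 1, 2, 2, 1, by show _ = _; simp; try ring, by rw [e]; simp⟩
    · exact ⟨0, 2, 2, 1, 1, 2, by show _ = _; simp; try ring, by rw [e]; simp; try ring⟩
    · exact ⟨0, 1, 1, 2, 2, 1, by show _ = _; simp; try ring, by rw [e]; simp; try ring⟩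
    · exact ⟨1, 2, 2, 0, 0, 2, by show _ = _; simp; try ring, by rw [e]; simp; try ring⟩
    · exact ⟨0, 2, 0, 2, 2, 0, by show _ = _; simp; try ring, by rw [e]; simp; try ring⟩
    · exact ⟨0, 1, 2, 0, 0, 2, by show _ = _; simp; try ring, by rw [e]; simp; try ring⟩
    · exact ⟨1, 2, 0, 1, 1, 0, by show _ = _; simp; try ring, by rw [e]; simp; try ring⟩
    · exact ⟨0, 2, 1, 0, 0, 1, by show _ = _; simp; try ring, by rw [e]; simp; try ring⟩
    · exact ⟨0, 1, 0, 1, 1, 0, by show _ = _; simp; try ring, by rw [e]; simp; try ring⟩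
  obtain ⟨b, c, i, k, i', k', hs, he⟩ := key
  rw [he]
  have h3 := (mnr h b c i k i' k').mul (h a)
  have ha := hp a
  have hb := hp b
  have hc := hp c
  have e : dg b - 1 + (dg c - 1) + dg a = ∑ a, dg a - 3 + 1 := by omega
  rw [e] at h3
  exact h3

end BJHx

theorem JH_proof : S_JH := by
  intro K _ Q dg h hp
  have h0 := hp 0
  have h1 := hp 1
  have h2 := hp 2
  have hd := BJHx.hd h
  refine ⟨?_, ?_, ?_⟩
  · unfold Jac
    rw [Matrix.det_fin_three]
    have e : dg 0 - 1 + (dg 1 - 1) + (dg 2 - 1) = ∑ a, dg a - 3 := by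
      rw [Fin.sum_univ_three]
      omega
    have t : ∀ i j k : Fin 3, (Jm Q 0 i * Jm Q 1 j * Jm Q 2 k).IsHomogeneous
        (∑ a, dg a - 3) := fun i j k => e ▸ (((hd 0 i).mul (hd 1 j)).mul (hd 2 k))
    exact (((((t 0 1 2).sub (t 0 2 1)).sub (t 1 0 2)).add (t 1 2 0)).add (t 2 0 1)).sub (t 2 1 0)
  · intro l j
    unfold VV
    refine IsHomogeneous.sum _ _ _ fun a _ => ?_
    have e : (Jm Q).adjugate j a * (C (l a) * Q a) = C (l a) * ((Jm Q).adjugate j a * Q a) := by
      ring
    rw [e]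
    have h3 := (isHomogeneous_C (Fin 3) (l a)).mul (BJHx.adj h hp j a)
    rw [zero_add] at h3
    exact h3
  · intro l a
    unfold vd VV Jac
    have h3 : ∀ b : Fin 3, ∑ j, Jm Q a j * (Jm Q).adjugate j b =
        if a = b then (Jm Q).det else 0 := by
      intro b
      have h4 := congrFun (congrFun (Matrix.mul_adjugate (Jm Q)) a) b
      rw [Matrix.mul_apply] at h4
      rw [h4, Matrix.smul_apply, Matrix.one_apply]
      split_ifs <;> simp
    calc ∑ j, (∑ b, (Jm Q).adjugate j b * (C (l b) * Q b)) * pderiv j (Q a)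
        = ∑ j, ∑ b, (Jm Q a j * (Jm Q).adjugate j b) * (C (l b) * Q b) := by
          refine Finset.sum_congr rfl fun j _ => ?_
          rw [Finset.sum_mul]
          refine Finset.sum_congr rfl fun b _ => ?_
          show _ = (pderiv j (Q a) * (Jm Q).adjugate j b) * (C (l b) * Q b)
          ring
      _ = ∑ b, (∑ j, Jm Q a j * (Jm Q).adjugate j b) * (C (l b) * Q b) := by
          rw [Finset.sum_comm]
          refine Finset.sum_congr rfl fun b _ => ?_
          rw [Finset.sum_mul]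
      _ = (Jm Q).det * (C (l a) * Q a) := by
          rw [Finset.sum_eq_single a]
          · rw [h3, if_pos rfl]
          · intro b _ hb
            rw [h3, if_neg (Ne.symm hb), zero_mul]
          · intro hb
            exact absurd (Finset.mem_univ a) hb

end Pool.Agent.Work.MP_6d7a54_an.NF
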