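import Pool.Agent.Work.MP_6d7a54_an.NF.StmtsB

/-!
# The ring of holomorphic elements of a Nevanlinna field (MP_6d7a54_an)

The ring `S` together with the field of small elements of `S` is a Nevanlinna ring.
-/

namespace Pool.Agent.Work.MP_6d7a54_an.NF

noncomputable section

namespace BKSx

variable {F L : Type} [Field F] [Field L] [Algebra F L] {D : Derivation F L L}
  {S Sm : Subalgebra F L}

/-- the field of small holomorphic elements -/
def KK (h : IsNev D S Sm) : Subfield L where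
  carrier := {f | f ∈ S ∧ f ∈ Sm}
  mul_mem' := fun ha hb => ⟨S.mul_mem ha.1 hb.1, Sm.mul_mem ha.2 hb.2⟩
  one_mem' := ⟨S.one_mem, Sm.one_mem⟩
  add_mem' := fun ha hb => ⟨S.add_mem ha.1 hb.1, Sm.add_mem ha.2 hb.2⟩
  zero_mem' := ⟨S.zero_mem, Sm.zero_mem⟩
  neg_mem' := fun ha => ⟨S.neg_mem ha.1, Sm.neg_mem ha.2⟩
  inv_mem' := fun x hx => h.inv x hx.1 hx.2

theorem mem_KK (h : IsNev D S Sm) (f : L) : f ∈ KK h ↔ f ∈ S ∧ f ∈ Sm := Iff.rfl

/-- constants are small holomorphic elements -/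
def iF (h : IsNev D S Sm) : F →+* KK h where
  toFun a := ⟨algebraMap F L a, S.algebraMap_mem a, Sm.algebraMap_mem a⟩
  map_one' := Subtype.ext (map_one _)
  map_mul' a b := Subtype.ext (map_mul _ a b)
  map_zero' := Subtype.ext (map_zero _)
  map_add' a b := Subtype.ext (map_add _ a b)

/-- small holomorphic elements are holomorphic -/
def iK (h : IsNev D S Sm) : KK h →+* S where
  toFun a := ⟨a.1, a.2.1⟩
  map_one' := rfl
  map_mul' _ _ := rfl
  map_zero' := rfl
  map_add' _ _ := rfl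

/-- the derivation of `S` -/
def dS (h : IsNev D S Sm) : Derivation ℤ S S where
  toFun x := ⟨D x.1, h.dS x.1 x.2⟩
  map_add' x y := Subtype.ext (map_add D x.1 y.1)
  map_smul' n x := Subtype.ext (map_zsmul D n x.1)
  map_one_eq_zero' := Subtype.ext (Derivation.map_one_eq_zero D)
  leibniz' x y := Subtype.ext (D.leibniz x.1 y.1)

theorem D_sm (h : IsNev D S Sm) {f : L} (hf : f ∈ Sm) : D f ∈ Sm := by
  by_cases h0 : f = 0
  · rw [h0, map_zero]
    exact Sm.zero_mem
  · have := Sm.mul_mem (h.ld f) hf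
    rwa [mul_assoc, inv_mul_cancel₀ h0, mul_one] at this

/-- the derivation of `KK` -/
def dK (h : IsNev D S Sm) : Derivation ℤ (KK h) (KK h) where
  toFun x := ⟨D x.1, h.dS x.1 x.2.1, D_sm h x.2.2⟩
  map_add' x y := Subtype.ext (map_add D x.1 y.1)
  map_smul' n x := Subtype.ext (map_zsmul D n x.1)
  map_one_eq_zero' := Subtype.ext (Derivation.map_one_eq_zero D)
  leibniz' x y := Subtype.ext (D.leibniz x.1 y.1)

theorem it_S (h : IsNev D S Sm) (n : ℕ) (w : S) :
    (((dS h : S → S)^[n] w : S) : L) = (D : L → L)^[n] w.1 := by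
  induction n generalizing w with
  | zero => rfl
  | succ n ih => rw [Function.iterate_succ_apply, Function.iterate_succ_apply, ih]; rfl

theorem it_sm (h : IsNev D S Sm) (n : ℕ) (w : L) :
    (D : L → L)^[n] w * w⁻¹ ∈ Sm := by
  by_cases hw : w = 0
  · rw [hw, inv_zero, mul_zero]
    exact Sm.zero_mem
  induction n with
  | zero => rw [Function.iterate_zero, id, mul_inv_cancel₀ hw]; exact Sm.one_mem
  | succ n ih =>
    rw [Function.iterate_succ_apply']
    by_cases h0 : (D : L → L)^[n] w = 0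
    · rw [h0, map_zero, zero_mul]
      exact Sm.zero_mem
    · have := Sm.mul_mem (h.ld ((D : L → L)^[n] w)) ih
      have e : D ((D : L → L)^[n] w) * ((D : L → L)^[n] w)⁻¹ * ((D : L → L)^[n] w * w⁻¹)
          = D ((D : L → L)^[n] w) * w⁻¹ := by
        field_simp
      rwa [e] at this

theorem unit_inv {x : S} (hx : IsUnit x) : x.1 ≠ 0 ∧ (x.1)⁻¹ ∈ S := by
  obtain ⟨y, hy⟩ := hx.exists_right_inv
  have e : x.1 * y.1 = 1 := congrArg Subtype.val hy
  have h0 : x.1 ≠ 0 := left_ne_zero_of_mul (e ▸ one_ne_zero)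
  refine ⟨h0, ?_⟩
  have : (x.1)⁻¹ = y.1 := by
    field_simp
    exact e.symm
  rw [this]
  exact y.2

end BKSx

open BKSx in
theorem KS_proof : S_KS := by
  intro F L _ _ _ _ D S Sm h
  let aF : Algebra F (KK h) := (iF h).toAlgebra
  let aK : Algebra (KK h) S := (iK h).toAlgebra
  refine ⟨KK h, S, inferInstance, inferInstance, inferInstance, aF, aK, dK h, dS h,
    S.val.toRingHom, Subtype.val_injective, ?_, ?_, ?_, ?_, ?_⟩
  · intro f
    exact ⟨fun hf => ⟨⟨f, hf⟩, rfl⟩, fun ⟨r, hr⟩ => hr ▸ r.2⟩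
  · intro f
    exact ⟨fun hf => ⟨⟨f, hf⟩, rfl⟩, fun ⟨a, ha⟩ => ha ▸ a.2⟩
  · intro r
    rfl
  · intro a
    rfl
  · have hval : ∀ a : KK h, ((algebraMap (KK h) S a : S) : L) = a.1 := fun a => rfl
    refine ⟨?_, ?_, ?_, ?_, ?_, ?_, ?_⟩
    · intro a
      exact Subtype.ext (D.map_algebraMap a)
    · intro a
      rfl
    · intro x hx
      obtain ⟨h0, hi⟩ := unit_inv hx
      refine ⟨⟨D x.1 * (x.1)⁻¹, S.mul_mem (h.dS x.1 x.2) hi, h.ld x.1⟩, Subtype.ext ?_⟩
      change D x.1 = D x.1 * (x.1)⁻¹ * x.1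
      rw [mul_assoc, inv_mul_cancel₀ h0, mul_one]
    · intro x a hx ha hD
      have ha' : a.1 ≠ 0 := fun e => ha (Subtype.ext e)
      have hD' : D (a.1 * x.1) = 0 := congrArg Subtype.val hD
      have h1 := h.const _ hD'
      have h2 := Sm.mul_mem (h.inv a.1 a.2.1 a.2.2).2 h1
      rw [← mul_assoc, inv_mul_cancel₀ ha', one_mul] at h2
      exact ⟨⟨x.1, x.2, h2⟩, rfl⟩
    · rintro x n hn ⟨b, hb⟩
      have hb' : x.1 ^ n = b.1 := congrArg Subtype.val hb
      exact ⟨⟨x.1, x.2, h.pow x.1 n hn (hb' ▸ b.2.2)⟩, rfl⟩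
    · intro M w e A hw he
      have hw' : w.1 ≠ 0 := fun e => hw (Subtype.ext e)
      have he' := congrArg (Subtype.val : S → L) he
      have e1 : e.1 = ∑ i : Fin M, (A i).1 * ((D : L → L)^[(i : ℕ) + 1] w.1 * (w.1)⁻¹) := by
        have e2 : (∑ i : Fin M, (A i).1 * ((D : L → L)^[(i : ℕ) + 1] w.1)) = e.1 * w.1 := by
          rw [show e.1 * w.1 = ((e * w : S) : L) from rfl, ← he']
          rw [AddSubmonoidClass.coe_finsetSum]
          refine Finset.sum_congr rfl fun i _ => ?_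
          rw [← it_S h]
          rfl
        calc e.1 = e.1 * w.1 * (w.1)⁻¹ := by rw [mul_assoc, mul_inv_cancel₀ hw', mul_one]
          _ = _ := by
            rw [← e2, Finset.sum_mul]
            exact Finset.sum_congr rfl fun i _ => mul_assoc _ _ _
      have hs : e.1 ∈ Sm := by
        rw [e1]
        exact Sm.sum_mem fun i _ => Sm.mul_mem (A i).2.2 (it_sm h _ _)
      exact ⟨⟨e.1, e.2, hs⟩, rfl⟩
    · intro s x y hs hy hd
      have hs' : s.1 ≠ 0 := fun e => hs (Subtype.ext e)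
      have hy' : y.1 ≠ 0 := fun e => hy (Subtype.ext e)
      have hm : x.1 * (y.1)⁻¹ ∈ S := by
        refine h.cic _ s.1 s.2 hs' fun k => ?_
        obtain ⟨c, hc⟩ := hd k
        have hc' : s.1 * x.1 ^ k = y.1 ^ k * c.1 := congrArg Subtype.val hc
        have : s.1 * (x.1 * (y.1)⁻¹) ^ k = c.1 := by
          rw [mul_pow, ← mul_assoc, hc', inv_pow]
          field_simp
        rw [this]
        exact c.2
      refine ⟨⟨x.1 * (y.1)⁻¹, hm⟩, Subtype.ext ?_⟩
      change x.1 = y.1 * (x.1 * (y.1)⁻¹)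
      field_simp

end

end Pool.Agent.Work.MP_6d7a54_an.NF
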