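import Pool.Agent.Work.MP_6d7a54_an.NF.StmtsB

/-!
# Linear algebra for conjugate power series (MP_6d7a54_an, item B_LA)
-/

namespace Pool.Agent.Work.MP_6d7a54_an.NF

noncomputable section

namespace BLAx

/-! ### Taylor series -/

section taylor

variable {A Om : Type} [CommRing A] [Field Om] [CharZero Om] (d : Derivation ℤ A A)
  (th : A →+* Om)

omit [CharZero Om] in
lemma tay_add (x y : A) : tay d th (x + y) = tay d th x + tay d th y := by
  ext n
  have h : (d : A → A)^[n] (x + y) = (d : A → A)^[n] x + (d : A → A)^[n] y := by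
    induction n generalizing x y with
    | zero => rfl
    | succ n ih => rw [Function.iterate_succ_apply, Function.iterate_succ_apply,
        Function.iterate_succ_apply, map_add, ih]
  simp only [tay, PowerSeries.coeff_mk, map_add, h]
  ring

lemma sd_eq {E : Type} [Field E] (v : PowerSeries E) : sd v = PowerSeries.derivative E v := by
  ext n
  rw [PowerSeries.coeff_derivative]
  simp only [sd, PowerSeries.coeff_mk]
  ring

lemma coeff_sd {E : Type} [Field E] (v : PowerSeries E) (n : ℕ) :
    PowerSeries.coeff n (sd v) = ((n : E) + 1) * PowerSeries.coeff (n + 1) v := by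
  simp only [sd, PowerSeries.coeff_mk]

lemma tay_d (x : A) : tay d th (d x) = sd (tay d th x) := by
  ext n
  rw [coeff_sd]
  simp only [tay, PowerSeries.coeff_mk]
  rw [← Function.iterate_succ_apply, Nat.factorial_succ]
  have h1 : ((n.factorial : ℕ) : Om) ≠ 0 := by exact_mod_cast n.factorial_ne_zero
  have h2 : ((n : Om) + 1) ≠ 0 := by exact_mod_cast n.succ_ne_zero
  push_cast
  field_simp

lemma sd_mul {E : Type} [Field E] (v w : PowerSeries E) : sd (v * w) = v * sd w + w * sd v := by
  rw [sd_eq, sd_eq, sd_eq, Derivation.leibniz, smul_eq_mul, smul_eq_mul]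

lemma tay_mul (x y : A) : tay d th (x * y) = tay d th x * tay d th y := by
  ext n
  induction n generalizing x y with
  | zero => simp [tay]
  | succ n ih =>
    have h1 : ((n : Om) + 1) * PowerSeries.coeff (n + 1) (tay d th (x * y)) =
        ((n : Om) + 1) * PowerSeries.coeff (n + 1) (tay d th x * tay d th y) := by
      rw [← coeff_sd, ← coeff_sd, sd_mul, ← tay_d, ← tay_d, ← tay_d, Derivation.leibniz,
        smul_eq_mul, smul_eq_mul, tay_add, map_add, map_add, ih, ih]
    have h2 : ((n : Om) + 1) ≠ 0 := by exact_mod_cast n.succ_ne_zero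
    exact mul_left_cancel₀ h2 h1

end taylor

/-! ### The span of the coefficients -/

lemma rank_le {K : Type} [Field K] [CharZero K] {b : ℕ}
    (V : Finset (PowerSeries (AlgebraicClosure K))) (hb : V.card ≤ b)
    (hV : ∀ s : AlgebraicClosure K ≃ₐ[K] AlgebraicClosure K, ∀ v ∈ V,
      PowerSeries.map ((s : AlgebraicClosure K →ₐ[K] AlgebraicClosure K) :
        AlgebraicClosure K →+* AlgebraicClosure K) v ∈ V)
    (v : PowerSeries (AlgebraicClosure K)) (hv : v ∈ V) (m : ℕ) :
    Module.finrank K (Submodule.span K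
      (Set.range fun i : Fin m => PowerSeries.coeff (i : ℕ) v)) ≤ b := by
  classical
  set C : Set (AlgebraicClosure K) := Set.range fun i : Fin m => PowerSeries.coeff (i : ℕ) v
    with hC
  have hfin : Finite C := Set.finite_range _
  have hfd : FiniteDimensional K (IntermediateField.adjoin K C) :=
    IntermediateField.finiteDimensional_adjoin
      (fun x _ => (Algebra.IsAlgebraic.isAlgebraic (R := K) x).isIntegral)
  let ex : (IntermediateField.adjoin K C →ₐ[K] AlgebraicClosure K) →
      (AlgebraicClosure K ≃ₐ[K] AlgebraicClosure K) := fun φ =>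
    AlgEquiv.ofBijective (φ.liftNormal (AlgebraicClosure K))
      (Algebra.IsAlgebraic.algHom_bijective _)
  have hex : ∀ (φ : IntermediateField.adjoin K C →ₐ[K] AlgebraicClosure K)
      (x : IntermediateField.adjoin K C), ex φ (x : AlgebraicClosure K) = φ x :=
    fun φ x => φ.liftNormal_commutes (AlgebraicClosure K) x
  let f : (IntermediateField.adjoin K C →ₐ[K] AlgebraicClosure K) → V := fun φ =>
    ⟨PowerSeries.map ((ex φ : AlgebraicClosure K →ₐ[K] AlgebraicClosure K) :
        AlgebraicClosure K →+* AlgebraicClosure K) v, hV _ v hv⟩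
  have hf : Function.Injective f := by
    intro φ ψ h
    apply IntermediateField.adjoin_algHom_ext
    intro x hx
    obtain ⟨i, hi⟩ := hx
    have h1 := congrArg (fun w : V => PowerSeries.coeff (i : ℕ)
      (w : PowerSeries (AlgebraicClosure K))) h
    simp only [f, PowerSeries.coeff_map] at h1
    rw [← hex, ← hex]
    subst hi
    exact h1
  have h1 := Fintype.card_le_of_injective f hf
  rw [AlgHom.card, Fintype.card_coe] at h1
  have h2 : Submodule.span K C ≤
      Subalgebra.toSubmodule (IntermediateField.adjoin K C).toSubalgebra :=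
    Submodule.span_le.mpr (IntermediateField.subset_adjoin K C)
  have hfd' : FiniteDimensional K
      (Subalgebra.toSubmodule (IntermediateField.adjoin K C).toSubalgebra) := hfd
  have h3 := Submodule.finrank_mono h2
  have h4 : Module.finrank K
      (Subalgebra.toSubmodule (IntermediateField.adjoin K C).toSubalgebra) =
      Module.finrank K (IntermediateField.adjoin K C) := rfl
  omega

/-! ### Cutting down -/

lemma cut {K X Om : Type} [Field K] [AddCommGroup X] [Module K X] [FiniteDimensional K X]
    [AddCommGroup Om] [Module K Om] (W : Submodule K X) (f : X → Om) (E : Submodule K Om)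
    [FiniteDimensional K E] {b : ℕ} (hE : Module.finrank K E ≤ b)
    (hadd : ∀ A ∈ W, ∀ B ∈ W, f (A + B) = f A + f B)
    (hsm : ∀ (c : K), ∀ A ∈ W, f (c • A) = c • f A) (hm : ∀ A ∈ W, f A ∈ E) :
    ∃ W' ≤ W, Module.finrank K W ≤ Module.finrank K W' + b ∧ ∀ A ∈ W', f A = 0 := by
  let T : W →ₗ[K] E :=
    { toFun := fun A => ⟨f A, hm A A.2⟩
      map_add' := fun A B => Subtype.ext (hadd A A.2 B B.2)
      map_smul' := fun c A => Subtype.ext (hsm c A A.2) }
  refine ⟨(LinearMap.ker T).map W.subtype, Submodule.map_subtype_le _ _, ?_, ?_⟩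
  · have h1 := LinearMap.finrank_range_add_finrank_ker T
    have h2 : Module.finrank K (LinearMap.range T) ≤ Module.finrank K E := Submodule.finrank_le _
    have h3 : Module.finrank K ((LinearMap.ker T).map W.subtype) =
        Module.finrank K (LinearMap.ker T) := Submodule.finrank_map_subtype_eq _ _
    omega
  · rintro _ ⟨A, hA, rfl⟩
    have h1 : T A = 0 := hA
    exact congrArg Subtype.val h1

lemma cutAll {K X Om ι : Type} [Field K] [AddCommGroup X] [Module K X] [FiniteDimensional K X]
    [AddCommGroup Om] [Module K Om] (f : ι → X → Om)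
    (E : ι → Submodule K Om) [∀ i, FiniteDimensional K (E i)] {b : ℕ} (s : Finset ι) :
    ∀ (W : Submodule K X), (∀ i ∈ s, Module.finrank K (E i) ≤ b) →
    (∀ i ∈ s, ∀ A ∈ W, ∀ B ∈ W, f i (A + B) = f i A + f i B) →
    (∀ i ∈ s, ∀ (c : K), ∀ A ∈ W, f i (c • A) = c • f i A) → (∀ i ∈ s, ∀ A ∈ W, f i A ∈ E i) →
    ∃ W' ≤ W, Module.finrank K W ≤ Module.finrank K W' + s.card * b ∧
      ∀ i ∈ s, ∀ A ∈ W', f i A = 0 := by
  classical
  induction s using Finset.induction_on with
  | empty => exact fun W _ _ _ _ => ⟨W, le_rfl, by simp, by simp⟩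
  | insert i s hi ih =>
    intro W h1 h2 h3 h4
    obtain ⟨W1, hW1, hf1, hz1⟩ := ih W (fun j hj => h1 j (Finset.mem_insert_of_mem hj))
      (fun j hj => h2 j (Finset.mem_insert_of_mem hj))
      (fun j hj => h3 j (Finset.mem_insert_of_mem hj))
      (fun j hj => h4 j (Finset.mem_insert_of_mem hj))
    have hii := Finset.mem_insert_self i s
    obtain ⟨W2, hW2, hf2, hz2⟩ := cut W1 (f i) (E i) (h1 i hii)
      (fun A hA B hB => h2 i hii A (hW1 hA) B (hW1 hB))
      (fun c A hA => h3 i hii c A (hW1 hA)) (fun A hA => h4 i hii A (hW1 hA))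
    refine ⟨W2, hW2.trans hW1, ?_, ?_⟩
    · rw [Finset.card_insert_of_notMem hi, add_mul, one_mul]
      omega
    · intro j hj A hA
      rcases Finset.mem_insert.mp hj with rfl | hj
      · exact hz2 A hA
      · exact hz1 j hj A (hW2 hA)

/-! ### The operator -/

section op

variable {K : Type} [Field K] [CharZero K] (dl : Derivation ℤ K K) {M : ℕ}

/-- the operator -/
def SS (A : Fin M → K) (v : PowerSeries (AlgebraicClosure K)) :
    PowerSeries (AlgebraicClosure K) :=
  ∑ i, tay dl (algebraMap K (AlgebraicClosure K)) (A i) * (sd^[(i : ℕ) + 1] v)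

omit [CharZero K] in
lemma SS_add (A B : Fin M → K) (v : PowerSeries (AlgebraicClosure K)) :
    SS dl (A + B) v = SS dl A v + SS dl B v := by
  unfold SS
  rw [← Finset.sum_add_distrib]
  refine Finset.sum_congr rfl fun i _ => ?_
  rw [Pi.add_apply, tay_add, add_mul]

lemma SS_smul (c : K) (A : Fin M → K) (v : PowerSeries (AlgebraicClosure K)) :
    SS dl (c • A) v = tay dl (algebraMap K (AlgebraicClosure K)) c * SS dl A v := by
  have : CharZero (AlgebraicClosure K) := inferInstance
  unfold SS
  rw [Finset.mul_sum]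
  refine Finset.sum_congr rfl fun i _ => ?_
  rw [Pi.smul_apply, smul_eq_mul, tay_mul, mul_assoc]

omit [CharZero K] in
lemma coeff_zero_tay (c : K) : PowerSeries.coeff 0
    (tay dl (algebraMap K (AlgebraicClosure K)) c) = algebraMap K (AlgebraicClosure K) c := by
  simp [tay]

omit [CharZero K] in
lemma coeff_iter (v : PowerSeries (AlgebraicClosure K)) (k q : ℕ) :
    ∃ c : K, PowerSeries.coeff q (sd^[k] v) =
      algebraMap K (AlgebraicClosure K) c * PowerSeries.coeff (q + k) v := by
  induction k generalizing q with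
  | zero => exact ⟨1, by simp⟩
  | succ k ih =>
    obtain ⟨c, hc⟩ := ih (q + 1)
    refine ⟨((q : K) + 1) * c, ?_⟩
    rw [Function.iterate_succ_apply', coeff_sd, hc, show q + 1 + k = q + (k + 1) by ring]
    simp only [map_mul, map_add, map_natCast, map_one]
    ring

omit [CharZero K] in
lemma coeff_mem (A : Fin M → K) (v : PowerSeries (AlgebraicClosure K)) (l : ℕ) :
    PowerSeries.coeff l (SS dl A v) ∈ Submodule.span K
      (Set.range fun i : Fin (l + M + 1) => PowerSeries.coeff (i : ℕ) v) := by
  unfold SS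
  rw [map_sum]
  refine Submodule.sum_mem _ fun i _ => ?_
  rw [PowerSeries.coeff_mul]
  refine Submodule.sum_mem _ fun pq hpq => ?_
  rw [Finset.HasAntidiagonal.mem_antidiagonal] at hpq
  obtain ⟨c, hc⟩ := coeff_iter v ((i : ℕ) + 1) pq.2
  have h1 : PowerSeries.coeff pq.1 (tay dl (algebraMap K (AlgebraicClosure K)) (A i)) =
      algebraMap K (AlgebraicClosure K)
        (((pq.1.factorial : ℕ) : K)⁻¹ * (dl : K → K)^[pq.1] (A i)) := by
    simp [tay]
  rw [h1, hc, ← mul_assoc, ← map_mul, ← Algebra.smul_def]
  refine Submodule.smul_mem _ _ (Submodule.subset_span ?_)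
  have h2 := i.2
  exact ⟨⟨pq.2 + ((i : ℕ) + 1), by omega⟩, rfl⟩

lemma coeff_smul (c : K) (A : Fin M → K) (v : PowerSeries (AlgebraicClosure K)) (l : ℕ)
    (h : ∀ j < l, PowerSeries.coeff j (SS dl A v) = 0) :
    PowerSeries.coeff l (SS dl (c • A) v) = c • PowerSeries.coeff l (SS dl A v) := by
  rw [SS_smul, PowerSeries.coeff_mul, Finset.sum_eq_single (0, l)]
  · rw [coeff_zero_tay, Algebra.smul_def]
  · rintro ⟨p, q⟩ hpq hne
    rw [Finset.HasAntidiagonal.mem_antidiagonal] at hpq
    simp only at hpq
    have hq : q < l := by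
      rcases Nat.eq_zero_or_pos p with h0 | h0
      · subst h0
        exact absurd (by rw [← hpq]; simp) hne
      · omega
    simp only
    rw [h q hq, mul_zero]
  · intro hn
    exact absurd (Finset.HasAntidiagonal.mem_antidiagonal.mpr (zero_add l)) hn

lemma steps {b : ℕ} (V : Finset (PowerSeries (AlgebraicClosure K))) (hb : V.card ≤ b)
    (hV : ∀ s : AlgebraicClosure K ≃ₐ[K] AlgebraicClosure K, ∀ v ∈ V,
      PowerSeries.map ((s : AlgebraicClosure K →ₐ[K] AlgebraicClosure K) :
        AlgebraicClosure K →+* AlgebraicClosure K) v ∈ V) (l : ℕ) :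
    ∃ W : Submodule K (Fin M → K), M ≤ Module.finrank K W + l * (b * b) ∧
      ∀ A ∈ W, ∀ v ∈ V, ∀ n ≤ l, (∀ j < n, PowerSeries.coeff j v = 0) →
        ∀ j < n, PowerSeries.coeff j (SS dl A v) = 0 := by
  classical
  induction l with
  | zero =>
    refine ⟨⊤, by simp, ?_⟩
    intro A _ v _ n hn _ j hj
    omega
  | succ l ih =>
    obtain ⟨W, hW, hz⟩ := ih
    have hfd : ∀ v : PowerSeries (AlgebraicClosure K), FiniteDimensional K (Submodule.span K
        (Set.range fun i : Fin (l + M + 1) => PowerSeries.coeff (i : ℕ) v)) :=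
      fun v => FiniteDimensional.span_of_finite K (Set.finite_range _)
    obtain ⟨W', hW', hf, hz'⟩ := cutAll (b := b)
      (f := fun (v : PowerSeries (AlgebraicClosure K)) (A : Fin M → K) =>
        PowerSeries.coeff l (SS dl A v))
      (E := fun v => Submodule.span K
        (Set.range fun i : Fin (l + M + 1) => PowerSeries.coeff (i : ℕ) v))
      (V.filter fun v => ∀ j < l + 1, PowerSeries.coeff j v = 0) W
      (fun v hv => rank_le V hb hV v (Finset.mem_filter.mp hv).1 _)
      (fun v _ A _ B _ => by rw [SS_add, map_add])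
      (fun v hv c A hA => coeff_smul dl c A v l
        (hz A hA v (Finset.mem_filter.mp hv).1 l le_rfl
          fun j hj => (Finset.mem_filter.mp hv).2 j (by omega)))
      (fun v _ A _ => coeff_mem dl A v l)
    refine ⟨W', ?_, ?_⟩
    · have h1 : (V.filter fun v => ∀ j < l + 1, PowerSeries.coeff j v = 0).card ≤ b :=
        (Finset.card_filter_le _ _).trans hb
      have h2 := Nat.mul_le_mul_right b h1
      rw [add_mul, one_mul]
      omega
    · intro A hA v hv n hn hc j hj
      rcases Nat.lt_or_ge n (l + 1) with h | h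
      · exact hz A (hW' hA) v hv n (by omega) hc j hj
      · have hnl : n = l + 1 := by omega
        subst hnl
        rcases Nat.lt_or_ge j l with h' | h'
        · exact hz A (hW' hA) v hv l le_rfl (fun j hj => hc j (by omega)) j h'
        · have hjl : j = l := by omega
          subst hjl
          exact hz' v (Finset.mem_filter.mpr ⟨hv, hc⟩) A hA

end op

end BLAx

open BLAx in
theorem LA_proof : S_LA := by
  intro b N
  refine ⟨N * (b * b) + 1, ?_⟩
  intro K _ _ dl V hb hV
  obtain ⟨W, hW, hz⟩ := steps (M := N * (b * b) + 1) dl V hb hV N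
  have h1 : W ≠ ⊥ := by
    rintro rfl
    rw [finrank_bot] at hW
    omega
  obtain ⟨A, hA, hA0⟩ := Submodule.exists_mem_ne_zero_of_ne_bot h1
  exact ⟨A, hA0, fun v hv n hn hc j hj => hz A hA v hv n hn hc j hj⟩

end

end Pool.Agent.Work.MP_6d7a54_an.NF
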