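import Pool.Agent.Work.MP_6d7a54_an.NF.StmtsB

/-!
# The unramified case: the Jacobian is a monomial (MP_6d7a54_an, item S_Mon)
-/

namespace Pool.Agent.Work.MP_6d7a54_an.NF

open MvPolynomial

noncomputable section

namespace BMonx

/-- value of a Laurent polynomial -/
theorem ev_sum {K R : Type} [Field K] [CommRing R] (f : K →+* R) (x : Rˣ)
    (P : LaurentPolynomial K) :
    LaurentPolynomial.eval₂ f x P =
      ∑ z ∈ P.coeff.support, f (P.coeff z) * ((x ^ z : Rˣ) : R) := by
  conv_lhs => rw [← P.sum_coeff_single]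
  rw [Finsupp.sum, map_sum]
  refine Finset.sum_congr rfl fun z _ => ?_
  rw [LaurentPolynomial.single_eq_C_mul_T, map_mul, LaurentPolynomial.eval₂_C,
    LaurentPolynomial.eval₂_T]

/-- a unit with a power equal to a nonzero small element is small -/
theorem root_unit {F K R : Type} [Field F] [Field K] [CommRing R] [IsDomain R] [Algebra F K]
    [Algebra K R] {dl : Derivation ℤ K K} {dR : Derivation ℤ R R} (hN : NR F K R dl dR)
    (tau : Rˣ) (hτ : ¬ InK K (tau : R)) (k : ℤ) (b : K) (hk : k ≠ 0)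
    (h : ((tau ^ k : Rˣ) : R) = algebraMap K R b) : False := by
  have hb : b ≠ 0 := by
    rintro rfl
    rw [map_zero] at h
    exact (tau ^ k : Rˣ).ne_zero h
  rcases Int.lt_or_gt_of_ne hk with hk | hk
  · obtain ⟨n, hn⟩ : ∃ n : ℕ, k = -(n : ℤ) := ⟨(-k).toNat, by omega⟩
    have hn0 : n ≠ 0 := by rintro rfl; simp at hn; omega
    refine hτ (hN.root (tau : R) n hn0 ⟨b⁻¹, ?_⟩)
    rw [hn, zpow_neg, zpow_natCast] at h
    have h1 : ((tau ^ n : Rˣ) : R) * (((tau ^ n)⁻¹ : Rˣ) : R) = 1 := by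
      rw [← Units.val_mul, mul_inv_cancel, Units.val_one]
    rw [h] at h1
    have h2 : algebraMap K R b * algebraMap K R b⁻¹ = 1 := by
      rw [← map_mul, mul_inv_cancel₀ hb, map_one]
    have h3 : algebraMap K R b ≠ 0 := left_ne_zero_of_mul_eq_one h2
    rw [← Units.val_pow_eq_pow_val]
    refine mul_right_cancel₀ h3 ?_
    rw [h1, mul_comm]
    exact h2.symm
  · obtain ⟨n, hn⟩ : ∃ n : ℕ, k = (n : ℤ) := ⟨k.toNat, by omega⟩
    have hn0 : n ≠ 0 := by rintro rfl; simp at hn; omega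
    refine hτ (hN.root (tau : R) n hn0 ⟨b, ?_⟩)
    rw [hn, zpow_natCast] at h
    rw [← Units.val_pow_eq_pow_val]
    exact h

/-- the unit of a nonzero small element -/
def bu {K : Type} (R : Type) [Field K] [CommRing R] [Algebra K R] (b : K) (hb : b ≠ 0) : Rˣ :=
  Units.map (algebraMap K R).toMonoidHom (Units.mk0 b hb)

theorem bu_val {K R : Type} [Field K] [CommRing R] [Algebra K R] (b : K) (hb : b ≠ 0) :
    ((bu R b hb : Rˣ) : R) = algebraMap K R b := rfl

theorem bu_inv_val {K R : Type} [Field K] [CommRing R] [Algebra K R] (b : K) (hb : b ≠ 0) :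
    (((bu R b hb)⁻¹ : Rˣ) : R) = algebraMap K R b⁻¹ := rfl

/-- first part -/
theorem transc (h1 : S_Bor) {F K R : Type} [Field F] [Field K] [CommRing R] [IsDomain R]
    [Algebra F K] [Algebra K R] {dl : Derivation ℤ K K} {dR : Derivation ℤ R R}
    (hN : NR F K R dl dR) (tau : Rˣ) (hτ : ¬ InK K (tau : R)) (p : Polynomial K)
    (hp : Polynomial.aeval (tau : R) p = 0) : p = 0 := by
  by_contra hne
  obtain ⟨i, j, hij, -, -, b, hb⟩ := h1 F K R dl dR hN (Fin (p.natDegree + 1))
    (fun i => (tau : R) ^ (i : ℕ)) (fun i => p.coeff i) (fun i => tau.isUnit.pow _) (by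
      rw [Polynomial.aeval_eq_sum_range] at hp
      rw [Fin.sum_univ_eq_sum_range (fun i => algebraMap K R (p.coeff i) * (tau : R) ^ i)]
      rw [← hp]
      exact Finset.sum_congr rfl fun i _ => (Algebra.smul_def _ _).symm)
    ⟨Fin.last _, by
      show p.coeff p.natDegree ≠ 0
      rw [Polynomial.coeff_natDegree]
      exact Polynomial.leadingCoeff_ne_zero.2 hne⟩
  refine root_unit hN tau hτ ((i : ℕ) - (j : ℕ) : ℤ) b ?_ ?_
  · intro h
    apply hij
    apply Fin.ext
    omega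
  · rw [zpow_sub, zpow_natCast, zpow_natCast, Units.val_mul]
    have h2 : ((tau ^ (i : ℕ) : Rˣ) : R) = algebraMap K R b * ((tau ^ (j : ℕ) : Rˣ) : R) := by
      rw [Units.val_pow_eq_pow_val, Units.val_pow_eq_pow_val]
      exact hb
    rw [h2, mul_assoc, ← Units.val_mul, mul_inv_cancel, Units.val_one, mul_one]

/-- the conclusion from a relation between two monomials -/
theorem concl {F K R : Type} [Field F] [Field K] [CommRing R] [IsDomain R]
    [Algebra F K] [Algebra K R] {dl : Derivation ℤ K K} {dR : Derivation ℤ R R}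
    (hN : NR F K R dl dR) (tau : Rˣ) (hτ : ¬ InK K (tau : R)) (w : Rˣ) (i j : ℕ) (y z : ℤ)
    (hne : i ≠ j ∨ y ≠ z) (b : K) (h : ((w ^ i * tau ^ y : Rˣ) : R) =
      algebraMap K R b * ((w ^ j * tau ^ z : Rˣ) : R)) :
    ∃ (N : ℕ) (k : ℤ) (kJ : K), N ≠ 0 ∧ kJ ≠ 0 ∧
      ((w ^ N : Rˣ) : R) = algebraMap K R kJ * ((tau ^ k : Rˣ) : R) := by
  have hb : b ≠ 0 := by
    rintro rfl
    rw [map_zero, zero_mul] at h
    exact (w ^ i * tau ^ y : Rˣ).ne_zero h
  have h2 : w ^ i * tau ^ y = bu R b hb * (w ^ j * tau ^ z) := by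
    apply Units.ext
    rw [Units.val_mul (bu R b hb), bu_val]
    exact h
  rcases lt_trichotomy i j with hij | hij | hij
  · obtain ⟨n, rfl⟩ := Nat.exists_eq_add_of_lt hij
    refine ⟨n + 1, y - z, b⁻¹, by omega, inv_ne_zero hb, ?_⟩
    have h3 : w ^ (n + 1) = (bu R b hb)⁻¹ * tau ^ (y - z) := by
      rw [zpow_sub]
      have e : w ^ (i + n + 1) = w ^ i * w ^ (n + 1) := by rw [← pow_add]; congr 1
      rw [e] at h2
      have h4 : tau ^ y = bu R b hb * (w ^ (n + 1) * tau ^ z) := by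
        apply mul_left_cancel (a := w ^ i)
        rw [h2]
        ac_rfl
      rw [h4]
      calc w ^ (n + 1) = ((bu R b hb)⁻¹ * bu R b hb) * w ^ (n + 1) * (tau ^ z * (tau ^ z)⁻¹) := by
            rw [inv_mul_cancel, mul_inv_cancel, one_mul, mul_one]
        _ = _ := by ac_rfl
    rw [h3, Units.val_mul, bu_inv_val]
  · exfalso
    subst hij
    have hyz : y ≠ z := hne.resolve_left fun h => h rfl
    refine root_unit hN tau hτ (y - z) b (sub_ne_zero.2 hyz) ?_
    have h4 : tau ^ y = bu R b hb * tau ^ z := by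
      apply mul_left_cancel (a := w ^ i)
      rw [h2]
      ac_rfl
    have h5 : tau ^ (y - z) = bu R b hb := by
      rw [zpow_sub, h4, mul_assoc, mul_inv_cancel, mul_one]
    rw [h5, bu_val]
  · obtain ⟨n, rfl⟩ := Nat.exists_eq_add_of_lt hij
    refine ⟨n + 1, z - y, b, by omega, hb, ?_⟩
    have h3 : w ^ (n + 1) = bu R b hb * tau ^ (z - y) := by
      rw [zpow_sub]
      have e : w ^ (j + n + 1) = w ^ j * w ^ (n + 1) := by rw [← pow_add]; congr 1
      rw [e] at h2
      have h4 : w ^ (n + 1) * tau ^ y = bu R b hb * tau ^ z := by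
        apply mul_left_cancel (a := w ^ j)
        rw [← mul_assoc, h2]
        ac_rfl
      calc w ^ (n + 1) = w ^ (n + 1) * tau ^ y * (tau ^ y)⁻¹ := by
            rw [mul_assoc, mul_inv_cancel, mul_one]
        _ = _ := by rw [h4]; ac_rfl
    rw [h3, Units.val_mul, bu_val]

end BMonx

open BMonx in
theorem Mon_proof (h1 : S_Bor) (h2 : S_Int) : S_Mon := by
  intro F _ _ _ Q dg hQ K R _ _ _ _ _ dl dR hN q m kap tau hkap hval hτ
  refine ⟨fun p hp => transc h1 hN tau hτ p hp, ?_⟩
  intro w hw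
  obtain ⟨-, -, h3⟩ := h2 F Q dg hQ
  obtain ⟨p, hpm, hp⟩ := h3 (Jac Q)
  -- the evaluation
  let φ : MvPolynomial (Fin 3) F →+* R :=
    ((aeval q : MvPolynomial (Fin 3) K →ₐ[K] R) : MvPolynomial (Fin 3) K →+* R).comp
      (MvPolynomial.map (algebraMap F K))
  have hφ : ∀ P, φ P = vq K q P := fun _ => rfl
  let A : MvPolynomial (Fin 3) F →+* MvPolynomial (Fin 3) F :=
    ((aeval Q : MvPolynomial (Fin 3) F →ₐ[F] MvPolynomial (Fin 3) F) :
      MvPolynomial (Fin 3) F →+* MvPolynomial (Fin 3) F)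
  let B : MvPolynomial (Fin 3) F →+* LaurentPolynomial K :=
    eval₂Hom ((LaurentPolynomial.C : K →+* LaurentPolynomial K).comp (algebraMap F K))
      (fun a => LaurentPolynomial.C (kap a) * LaurentPolynomial.T (m a))
  have hB : (LaurentPolynomial.eval₂ (algebraMap K R) tau).comp B = φ.comp A := by
    apply MvPolynomial.ringHom_ext
    · intro a
      show LaurentPolynomial.eval₂ (algebraMap K R) tau (B (C a)) = φ (aeval Q (C a))
      have e1 : B (C a) = LaurentPolynomial.C (algebraMap F K a) := by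
        show eval₂Hom _ _ (C a) = _
        rw [eval₂Hom_C]; rfl
      have e2 : φ (aeval Q (C a)) = algebraMap K R (algebraMap F K a) := by
        rw [aeval_C]
        show aeval q (MvPolynomial.map (algebraMap F K) (C a)) = _
        rw [map_C, aeval_C]
      rw [e1, e2, LaurentPolynomial.eval₂_C]
    · intro a
      show LaurentPolynomial.eval₂ (algebraMap K R) tau (B (X a)) = φ (aeval Q (X a))
      have e1 : B (X a) = LaurentPolynomial.C (kap a) * LaurentPolynomial.T (m a) := by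
        show eval₂Hom _ _ (X a) = _
        rw [eval₂Hom_X']
      rw [e1, aeval_X, hφ, hval, map_mul, LaurentPolynomial.eval₂_C, LaurentPolynomial.eval₂_T]
  have hsum : ∑ j ∈ Finset.range (p.natDegree + 1),
      LaurentPolynomial.eval₂ (algebraMap K R) tau (B (p.coeff j)) * (w : R) ^ j = 0 := by
    have e1 : φ (Polynomial.eval₂ A (Jac Q) p) = 0 := by rw [hp, map_zero]
    rw [Polynomial.hom_eval₂, ← hB, hφ, ← hw, Polynomial.eval₂_eq_sum_range] at e1
    exact e1
  obtain ⟨x, y, hxy, -, -, b, hb⟩ := h1 F K R dl dR hN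
    ((j : Fin (p.natDegree + 1)) × {z : ℤ // z ∈ (B (p.coeff j)).coeff.support})
    (fun x => ((w ^ (x.1 : ℕ) * tau ^ (x.2 : ℤ) : Rˣ) : R))
    (fun x => (B (p.coeff x.1)).coeff x.2) (fun x => Units.isUnit _) (by
      rw [Fintype.sum_sigma]
      rw [← hsum, ← Fin.sum_univ_eq_sum_range (fun j =>
        LaurentPolynomial.eval₂ (algebraMap K R) tau (B (p.coeff j)) * (w : R) ^ j)]
      refine Finset.sum_congr rfl fun j _ => ?_
      rw [ev_sum, Finset.sum_mul]
      rw [← Finset.sum_coe_sort (B (p.coeff (j : ℕ))).coeff.support (fun z =>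
        (algebraMap K R) ((B (p.coeff (j : ℕ))).coeff z) * ((tau ^ z : Rˣ) : R) * (w : R) ^ (j : ℕ))]
      refine Finset.sum_congr rfl fun z _ => ?_
      rw [Units.val_mul, Units.val_pow_eq_pow_val]
      ring)
    (by
      have e1 : B (p.coeff p.natDegree) = 1 := by
        rw [hpm.coeff_natDegree, map_one]
      have e2 : (0 : ℤ) ∈ (B (p.coeff p.natDegree)).coeff.support := by
        rw [e1, Finsupp.mem_support_iff]
        have : (1 : LaurentPolynomial K).coeff 0 = 1 := AddMonoidAlgebra.coeff_one_zero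
        rw [this]
        exact one_ne_zero
      exact ⟨⟨Fin.last _, ⟨0, e2⟩⟩, Finsupp.mem_support_iff.1 e2⟩)
  refine concl hN tau hτ w (x.1 : ℕ) (y.1 : ℕ) (x.2 : ℤ) (y.2 : ℤ) ?_ b hb
  by_contra hcon
  push Not at hcon
  obtain ⟨x1, x2, hx2⟩ := x
  obtain ⟨y1, y2, hy2⟩ := y
  obtain ⟨c1, c2⟩ := hcon
  have c1' : x1 = y1 := Fin.ext c1
  subst c1'
  have c2' : x2 = y2 := c2
  subst c2'
  exact hxy rfl

end

end Pool.Agent.Work.MP_6d7a54_an.NF

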