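import Pool.Agent.Work.MP_6d7a54_an.NF.StmtsB

/-!
# The numerator of the differential equation does not vanish (MP_6d7a54_an)
-/

namespace Pool.Agent.Work.MP_6d7a54_an.NF

open MvPolynomial

noncomputable section

namespace BNZx

variable {K : Type} [Field K]

theorem dc_coeff (dl : Derivation ℤ K K) (f : MvPolynomial (Fin 3) K) (m : Fin 3 →₀ ℕ) :
    coeff m (dc dl f) = dl (coeff m f) := by
  classical
  unfold dc
  rw [coeff_sum]
  simp only [coeff_monomial]
  by_cases h : m ∈ f.support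
  · rw [Finset.sum_eq_single m]
    · rw [if_pos rfl]
    · intro b _ hb
      rw [if_neg hb]
    · intro h1
      exact absurd h h1
  · rw [Finset.sum_eq_zero]
    · rw [notMem_support_iff.1 h, map_zero]
    · intro b hb
      rw [if_neg]
      rintro rfl
      exact h hb

theorem dc_mul (dl : Derivation ℤ K K) (f g : MvPolynomial (Fin 3) K) :
    dc dl (f * g) = f * dc dl g + g * dc dl f := by
  classical
  ext m
  rw [dc_coeff, coeff_add, coeff_mul, map_sum, mul_comm g (dc dl f), coeff_mul, coeff_mul,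
    ← Finset.sum_add_distrib]
  refine Finset.sum_congr rfl fun x _ => ?_
  rw [Derivation.leibniz, dc_coeff, dc_coeff, smul_eq_mul, smul_eq_mul]
  ring

theorem dc_pow (dl : Derivation ℤ K K) (h f : MvPolynomial (Fin 3) K) (v : ℕ) :
    ∃ Y, dc dl (h ^ (v + 1) * f) = h ^ v * Y := by
  induction v with
  | zero => exact ⟨dc dl (h ^ 1 * f), by simp⟩
  | succ v ih =>
    obtain ⟨Y, hY⟩ := ih
    refine ⟨Y + f * dc dl h, ?_⟩
    have e : h ^ (v + 1 + 1) * f = h * (h ^ (v + 1) * f) := by ring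
    rw [e, dc_mul, hY]
    ring

/-- the vector field as a derivation -/
def vD (V : Fin 3 → MvPolynomial (Fin 3) K) :
    Derivation K (MvPolynomial (Fin 3) K) (MvPolynomial (Fin 3) K) :=
  ∑ j, V j • pderiv j

theorem vD_apply (V : Fin 3 → MvPolynomial (Fin 3) K) (f : MvPolynomial (Fin 3) K) :
    vd V f = vD V f := by
  unfold vd vD
  simp [Fin.sum_univ_three]

theorem vd_pow (V : Fin 3 → MvPolynomial (Fin 3) K) (h f : MvPolynomial (Fin 3) K) (v : ℕ) :
    vd V (h ^ (v + 1) * f) =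
      ((v + 1 : ℕ) : MvPolynomial (Fin 3) K) * h ^ v * f * vd V h + h ^ (v + 1) * vd V f := by
  rw [vD_apply, vD_apply, vD_apply, Derivation.leibniz, Derivation.leibniz_pow]
  simp only [smul_eq_mul, nsmul_eq_mul, Nat.add_sub_cancel]
  ring

variable [CharZero K]

omit [CharZero K] in
theorem not_dvd_cast {h : MvPolynomial (Fin 3) K} (hh : Irreducible h) {c : K} (hc : c ≠ 0) :
    ¬ h ∣ C c := by
  intro h1
  have hu : IsUnit (C c : MvPolynomial (Fin 3) K) := (IsUnit.mk0 c hc).map C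
  exact hh.not_isUnit (isUnit_of_dvd_unit h1 hu)

theorem step {dl : Derivation ℤ K K} {V : Fin 3 → MvPolynomial (Fin 3) K}
    {h J0 f0 : MvPolynomial (Fin 3) K} (hh : Irreducible h) (hJ0 : ¬ h ∣ J0) (hf0 : ¬ h ∣ f0)
    (hV : ¬ h ∣ vd V h) (b v n : ℕ) (hn : (v + 1 : ℤ) - n * (b + 1) ≠ 0) :
    ∃ f, EE dl (h ^ (b + 1) * J0) V n (h ^ (v + 1) * f0) = h ^ (v + 1 + b) * f ∧ ¬ h ∣ f := by
  obtain ⟨Y, hY⟩ := dc_pow dl h f0 v
  have hp : Prime h := hh.prime
  set c : K := (((v : ℤ) + 1 - n * (b + 1) : ℤ) : K) with hc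
  have hc0 : c ≠ 0 := by
    rw [hc]
    exact_mod_cast hn
  refine ⟨C c * (J0 * f0 * vd V h) + h * (h ^ b * J0 ^ 2 * Y + J0 * vd V f0 -
    (n : MvPolynomial (Fin 3) K) * f0 * vd V J0), ?_, ?_⟩
  · unfold EE
    rw [hY, vd_pow, vd_pow]
    have e : (C c : MvPolynomial (Fin 3) K) = ((v + 1 : ℕ) : MvPolynomial (Fin 3) K) -
        (n : MvPolynomial (Fin 3) K) * ((b + 1 : ℕ) : MvPolynomial (Fin 3) K) := by
      rw [hc]
      push_cast
      simp
    rw [e]
    ring
  · intro h1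
    have h2 : h ∣ C c * (J0 * f0 * vd V h) := (dvd_add_left (dvd_mul_right _ _)).1 h1
    rcases hp.dvd_or_dvd h2 with h3 | h3
    · exact not_dvd_cast hh hc0 h3
    · rcases hp.dvd_or_dvd h3 with h4 | h4
      · rcases hp.dvd_or_dvd h4 with h5 | h5
        · exact hJ0 h5
        · exact hf0 h5
      · exact hV h4

theorem ord {dl : Derivation ℤ K K} {V : Fin 3 → MvPolynomial (Fin 3) K}
    {h J0 : MvPolynomial (Fin 3) K} (hh : Irreducible h) (hJ0 : ¬ h ∣ J0)
    (hV : ¬ h ∣ vd V h) (b : ℕ) (i : ℕ) :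
    ∃ f, PP dl (h ^ (b + 1) * J0) V i = h ^ (b + 1 + i * b) * f ∧ ¬ h ∣ f := by
  induction i with
  | zero => exact ⟨J0, by simp [PP], hJ0⟩
  | succ i ih =>
    obtain ⟨f0, hf, hf0⟩ := ih
    have hn : ((b + i * b : ℕ) + 1 : ℤ) - ((2 * i : ℕ) : ℤ) * (b + 1) ≠ 0 := by
      push_cast
      rcases Nat.eq_zero_or_pos i with rfl | hi
      · simp
        omega
      · have hi' : (1 : ℤ) ≤ i := by exact_mod_cast hi
        have hb : (0 : ℤ) ≤ b := by exact_mod_cast Nat.zero_le b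
        have : (b : ℤ) + i * b + 1 - 2 * i * (b + 1) = (b + 1) * (1 - i) - i := by ring
        rw [this]
        nlinarith [mul_nonneg hb (sub_nonneg.2 hi')]
    obtain ⟨f, h1, h2⟩ := step (dl := dl) (V := V) hh hJ0 hf0 hV b (b + i * b) (2 * i) hn
    refine ⟨f, ?_, h2⟩
    show EE dl (h ^ (b + 1) * J0) V (2 * i) (PP dl (h ^ (b + 1) * J0) V i) = _
    rw [hf]
    have e1 : b + 1 + i * b = b + i * b + 1 := by ring
    have e2 : b + 1 + (i + 1) * b = b + i * b + 1 + b := by ring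
    rw [e1, e2]
    exact h1

end BNZx

open BNZx in
/-- the numerator of the differential equation does not vanish -/
theorem NZ_proof : S_NZ := by
  intro K _ _ dl J h V hJ hh hhJ hV M A A0 hA hPE
  have hp : Prime h := hh.prime
  have hfin : FiniteMultiplicity h J := FiniteMultiplicity.of_prime_left hp hJ
  obtain ⟨J0, hJ1, hJ0⟩ := hfin.exists_eq_pow_mul_and_not_dvd
  obtain ⟨b, hb⟩ : ∃ b, multiplicity h J = b + 1 := by
    have : 1 ≤ multiplicity h J := (FiniteMultiplicity.pow_dvd_iff_le_multiplicity hfin).1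
      (by simpa using hhJ)
    exact ⟨multiplicity h J - 1, by omega⟩
  rw [hb] at hJ1
  -- the maximal index
  obtain ⟨i0, hi0, hmax⟩ : ∃ i0 : Fin M, A i0 ≠ 0 ∧ ∀ i : Fin M, i0 < i → A i = 0 := by
    have hne : ∃ i, A i ≠ 0 := by
      by_contra hcon
      push Not at hcon
      exact hA (funext hcon)
    classical
    have hS : (Finset.univ.filter fun i : Fin M => A i ≠ 0).Nonempty := by
      obtain ⟨i, hi⟩ := hne
      exact ⟨i, by simp [hi]⟩
    refine ⟨(Finset.univ.filter fun i : Fin M => A i ≠ 0).max' hS, ?_, ?_⟩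
    · have := Finset.max'_mem _ hS
      exact (Finset.mem_filter.1 this).2
    · intro i hi
      by_contra hcon
      have := Finset.le_max' (Finset.univ.filter fun i : Fin M => A i ≠ 0) i (by simp [hcon])
      exact absurd hi (not_lt.2 this)
  choose f hf hf' using fun i => ord (dl := dl) (V := V) hh hJ0 hV b i
  set T : ℕ := (i0 : ℕ) + 1 with hT
  set E : ℕ := (b + 1 + T * b) + (b + 1) * (2 * (M - T)) with hE
  have hTM : T ≤ M := i0.2
  have hterm : ∀ t, C (A t) * PP dl J V ((t : ℕ) + 1) * J ^ (2 * (M - ((t : ℕ) + 1))) =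
      h ^ (b + 1 + ((t : ℕ) + 1) * b + (b + 1) * (2 * (M - ((t : ℕ) + 1)))) *
        (C (A t) * f ((t : ℕ) + 1) * J0 ^ (2 * (M - ((t : ℕ) + 1)))) := by
    intro t
    rw [hJ1, hf, mul_pow, ← pow_mul]
    ring
  have hdvd : h ^ (E + 1) ∣ C (A i0) * PP dl J V ((i0 : ℕ) + 1) *
      J ^ (2 * (M - ((i0 : ℕ) + 1))) := by
    have hsum : C (A i0) * PP dl J V ((i0 : ℕ) + 1) * J ^ (2 * (M - ((i0 : ℕ) + 1))) =
        C A0 * J ^ (2 * M + 1) - ∑ i ∈ Finset.univ.erase i0,
          C (A i) * PP dl J V ((i : ℕ) + 1) * J ^ (2 * (M - ((i : ℕ) + 1))) := by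
      unfold PE at hPE
      rw [← Finset.add_sum_erase Finset.univ _ (Finset.mem_univ i0)] at hPE
      linear_combination hPE
    rw [hsum]
    refine dvd_sub ?_ (Finset.dvd_sum fun i hi => ?_)
    · refine Dvd.dvd.mul_left ?_ _
      rw [hJ1, mul_pow, ← pow_mul]
      refine Dvd.dvd.mul_right (pow_dvd_pow h ?_) _
      rw [hE]
      obtain ⟨k, hk⟩ := Nat.exists_eq_add_of_le hTM
      rw [hk, Nat.add_sub_cancel_left]
      have hT1 : 1 ≤ T := by omega
      nlinarith [Nat.zero_le (T * b)]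
    · by_cases hAi : A i = 0
      · rw [hAi]; simp
      · have hlt : i < i0 := by
          rcases lt_trichotomy i i0 with h1 | h1 | h1
          · exact h1
          · exact absurd h1 (Finset.ne_of_mem_erase hi)
          · exact absurd (hmax i h1) hAi
        rw [hterm i]
        refine Dvd.dvd.mul_right (pow_dvd_pow h ?_) _
        rw [hE]
        have hlt' : (i : ℕ) + 1 < T := by
          have : (i : ℕ) < (i0 : ℕ) := hlt
          omega
        obtain ⟨k, hk⟩ := Nat.exists_eq_add_of_lt hlt'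
        obtain ⟨k2, hk2⟩ := Nat.exists_eq_add_of_le hTM
        have e : M - ((i : ℕ) + 1) = k + 1 + k2 := by omega
        have e' : M - T = k2 := by omega
        rw [e, e', hk]
        nlinarith [Nat.zero_le (k * b), Nat.zero_le (k2 * b), Nat.zero_le b]
  rw [hterm i0] at hdvd
  have hE' : b + 1 + ((i0 : ℕ) + 1) * b + (b + 1) * (2 * (M - ((i0 : ℕ) + 1))) = E := by
    rw [hE, hT]
  rw [hE', pow_succ] at hdvd
  have h3 : h ∣ C (A i0) * f ((i0 : ℕ) + 1) * J0 ^ (2 * (M - ((i0 : ℕ) + 1))) :=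
    (mul_dvd_mul_iff_left (pow_ne_zero _ hh.ne_zero)).1 hdvd
  rcases hp.dvd_or_dvd h3 with h4 | h4
  · rcases hp.dvd_or_dvd h4 with h5 | h5
    · exact not_dvd_cast hh hi0 h5
    · exact hf' _ h5
  · exact hJ0 (hp.dvd_of_dvd_pow h4)

end

end Pool.Agent.Work.MP_6d7a54_an.NF
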