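import Pool.Agent.Work.MP_6d7a54_an.NF.StmtsB

/-!
# Item ODE: the Jacobian satisfies a linear differential equation
-/

set_option autoImplicit false

namespace Pool.Agent.Work.MP_6d7a54_an.NF

open MvPolynomial

namespace BODEx

theorem sd_map {E Om : Type} [Field E] [Field Om] (io : E →+* Om) (v : PowerSeries E) :
    sd (PowerSeries.map io v) = PowerSeries.map io (sd v) := by
  ext n
  unfold sd
  rw [PowerSeries.coeff_mk, PowerSeries.coeff_map, PowerSeries.coeff_map, PowerSeries.coeff_mk]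
  simp

theorem sd_iter_map {E Om : Type} [Field E] [Field Om] (io : E →+* Om) (k : ℕ) :
    ∀ v : PowerSeries E, sd^[k] (PowerSeries.map io v) = PowerSeries.map io (sd^[k] v) := by
  induction k with
  | zero => intro v; rfl
  | succ k ih =>
    intro v
    rw [Function.iterate_succ_apply, Function.iterate_succ_apply, sd_map, ih]

theorem tay_iter (h1 : S_Tay) {A Om : Type} [CommRing A] [Field Om] [CharZero Om]
    (d : Derivation ℤ A A) (th : A →+* Om) (k : ℕ) :
    ∀ x : A, tay d th ((d : A → A)^[k] x) = sd^[k] (tay d th x) := by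
  induction k with
  | zero => intro x; rfl
  | succ k ih =>
    intro x
    rw [Function.iterate_succ_apply, ih, (h1 A Om d th).2.2.2.2, Function.iterate_succ_apply]

theorem tay_sum (h1 : S_Tay) {A Om : Type} [CommRing A] [Field Om] [CharZero Om]
    (d : Derivation ℤ A A) (th : A →+* Om) {ι : Type} (s : Finset ι) (f : ι → A) :
    tay d th (∑ i ∈ s, f i) = ∑ i ∈ s, tay d th (f i) := by
  classical
  induction s using Finset.induction_on with
  | empty => simp [(h1 A Om d th).1]
  | insert a s ha ih =>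
    rw [Finset.sum_insert ha, Finset.sum_insert ha, (h1 A Om d th).2.2.1, ih]

theorem iter_comp {K R : Type} [Field K] [CommRing R] [Algebra K R]
    (dl : Derivation ℤ K K) (dR : Derivation ℤ R R)
    (hc : ∀ a : K, dR (algebraMap K R a) = algebraMap K R (dl a)) (n : ℕ) :
    ∀ a : K, (dR : R → R)^[n] (algebraMap K R a) = algebraMap K R ((dl : K → K)^[n] a) := by
  induction n with
  | zero => intro a; rfl
  | succ n ih =>
    intro a
    rw [Function.iterate_succ_apply, Function.iterate_succ_apply, hc, ih]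

theorem tay_alg {K R E Om : Type} [Field K] [CommRing R] [Algebra K R] [Field E] [Algebra K E]
    [Field Om] (dl : Derivation ℤ K K) (dR : Derivation ℤ R R)
    (hc : ∀ a : K, dR (algebraMap K R a) = algebraMap K R (dl a)) (th : R →+* Om)
    (io : E →+* Om) (hio : ∀ a : K, io (algebraMap K E a) = th (algebraMap K R a)) (a : K) :
    tay dR th (algebraMap K R a) = PowerSeries.map io (tay dl (algebraMap K E) a) := by
  ext n
  unfold tay
  rw [PowerSeries.coeff_mk, PowerSeries.coeff_map, PowerSeries.coeff_mk, iter_comp dl dR hc,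
    map_mul, hio, map_inv₀, map_natCast]

end BODEx

open BODEx in
theorem ODE_proof (h1 : S_Tay) (h2 : S_Chi) (h3 : S_Val) (h4 : S_r1) (h5 : S_Ser) (h6 : S_LA) :
    S_ODE := by
  intro F _ _ _ Q dg hQ
  obtain ⟨B, hB⟩ := h4 F Q dg hQ
  obtain ⟨b, hb⟩ := h5 F Q dg hQ B
  obtain ⟨M, hM⟩ := h6 b B
  refine ⟨M, ?_⟩
  intro K R _ _ _ _ _ _ dl dR hNR q hPt hu0 hw
  obtain ⟨l0, hl0⟩ := hNR.unit _ hPt.u0
  obtain ⟨l1, hl1⟩ := hNR.unit _ hPt.u1
  obtain ⟨r0, hr0, hd0, hdv0⟩ := hB K R dl dR hNR q hPt (fun h => hu0 h.1) 0 (by decide)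
  obtain ⟨r1, hr1, hd1, hdv1⟩ := hB K R dl dR hNR q hPt (fun h => hu0 h.1) 1 (by decide)
  obtain ⟨s, hs0, hcop, hdvs⟩ := h2 F K R dl dR hNR _ r0 hPt.u0 hu0 hr0
  obtain ⟨V, hcard, hinv, hV⟩ := hb K dl hNR.c0 l0 l1 r0 r1 hr0 hr1 hd0 hd1
  obtain ⟨A, hA0, hA⟩ := hM K dl V hcard hinv
  set w := vq K q (Jac Q) with hwdef
  set e := ∑ i, algebraMap K R (A i) * ((dR : R → R)^[(i : ℕ) + 1] w) with hedef
  have hwe : w ∣ e := by
    refine h3 F K R dl dR hNR w s e B hw hs0 hcop
      (hdv0.trans (hdvs.trans (pow_dvd_pow s hd0))) ?_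
    intro Om _ _ th _ n hn hj j hjn
    have hn0 : 0 < n := lt_of_le_of_lt (Nat.zero_le j) hjn
    have hthw : th w = 0 := hj 0 hn0
    have hz0 : th (Polynomial.aeval (vq K q (Q 0)) r0) = 0 := by
      obtain ⟨c, hc⟩ := hdv0
      rw [hc, map_mul, hthw, zero_mul]
    have hz1 : th (Polynomial.aeval (vq K q (Q 1)) r1) = 0 := by
      obtain ⟨c, hc⟩ := hdv1
      rw [hc, map_mul, hthw, zero_mul]
    obtain ⟨io, hio, v, hv, htay⟩ := hV R dR hNR.comp q hl0 hl1 hPt.u2 Om th hz0 hz1
    have hinj : Function.Injective (th.comp (algebraMap K R)) := RingHom.injective _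
    have : CharZero Om := charZero_of_injective_ringHom hinj
    have hcv : ∀ k < n, PowerSeries.coeff k v = 0 := by
      intro k hk
      have e1 : PowerSeries.coeff k (tay dR th w) = PowerSeries.coeff k (PowerSeries.map io v) := by
        rw [htay]
      unfold tay at e1
      rw [PowerSeries.coeff_mk, PowerSeries.coeff_map, hj k hk, mul_zero] at e1
      exact (map_eq_zero io).1 e1.symm
    have hLA := hA v hv n hn hcv j hjn
    have hte : tay dR th e = PowerSeries.map io
        (∑ i, tay dl (algebraMap K (AlgebraicClosure K)) (A i) * (sd^[(i : ℕ) + 1] v)) := by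
      rw [hedef, tay_sum h1, map_sum]
      refine Finset.sum_congr rfl fun i _ => ?_
      rw [(h1 R Om dR th).2.2.2.1, tay_iter h1, htay, tay_alg dl dR hNR.comp th io hio,
        sd_iter_map, map_mul]
    have e2 : PowerSeries.coeff j (tay dR th e) = 0 := by
      rw [hte, PowerSeries.coeff_map, hLA, map_zero]
    unfold tay at e2
    rw [PowerSeries.coeff_mk] at e2
    have h7 : ((j.factorial : ℕ) : Om)⁻¹ ≠ 0 :=
      inv_ne_zero (Nat.cast_ne_zero.2 j.factorial_ne_zero)
    exact (mul_eq_zero.1 e2).resolve_left h7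
  obtain ⟨c, hc⟩ := hwe
  obtain ⟨A0, hA0'⟩ := hNR.ld M w c A hw (by rw [← hedef, hc, mul_comm])
  refine ⟨A, A0, hA0, ?_⟩
  rw [← hedef, hc, ← hA0', mul_comm]

end Pool.Agent.Work.MP_6d7a54_an.NF
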