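import Pool.Agent.Work.MP_6d7a54_an.NF.StmtsB

/-!
# Numerators of the derivatives of the Jacobian (MP_6d7a54_an)
-/

namespace Pool.Agent.Work.MP_6d7a54_an.NF

open MvPolynomial

namespace BPPx

variable {K : Type} [Field K] (dl : Derivation ℤ K K)

theorem coeff_dc (f : MvPolynomial (Fin 3) K) (m : Fin 3 →₀ ℕ) :
    coeff m (dc dl f) = dl (coeff m f) := by
  classical
  unfold dc
  rw [coeff_sum]
  simp_rw [coeff_monomial]
  rw [Finset.sum_ite_eq']
  split_ifs with h
  · rfl
  · rw [notMem_support_iff.1 h, map_zero]

theorem dc_add (f g : MvPolynomial (Fin 3) K) : dc dl (f + g) = dc dl f + dc dl g := by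
  ext m
  rw [coeff_add, coeff_dc, coeff_dc, coeff_dc, coeff_add, map_add]

theorem dc_C (a : K) : dc dl (C a) = C (dl a) := by
  classical
  ext m
  rw [coeff_dc, coeff_C, coeff_C]
  split_ifs with h
  · rfl
  · rw [map_zero]

theorem dc_mul_X (f : MvPolynomial (Fin 3) K) (j : Fin 3) :
    dc dl (f * X j) = dc dl f * X j := by
  classical
  ext m
  rw [coeff_dc, coeff_mul_X', coeff_mul_X']
  split_ifs with h
  · rw [coeff_dc]
  · rw [map_zero]

theorem chain {R : Type} [CommRing R] [Algebra K R] (dR : Derivation ℤ R R)
    (hc : ∀ a : K, dR (algebraMap K R a) = algebraMap K R (dl a)) (q : Fin 3 → R)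
    (f : MvPolynomial (Fin 3) K) :
    dR (aeval q f) = aeval q (dc dl f) + ∑ j, aeval q (pderiv j f) * dR (q j) := by
  classical
  induction f using MvPolynomial.induction_on with
  | C a => rw [dc_C]; simp [hc]
  | add f g hf hg =>
    rw [map_add, map_add, hf, hg, dc_add, map_add]
    simp only [map_add, add_mul, Finset.sum_add_distrib]
    ring
  | mul_X f i hf =>
    rw [map_mul, aeval_X, Derivation.leibniz, hf, dc_mul_X, map_mul, aeval_X]
    simp only [Derivation.leibniz, pderiv_X, smul_eq_mul, map_add, map_mul, aeval_X, add_mul,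
      Finset.sum_add_distrib]
    have h1 : ∑ j, aeval q f * aeval q (Pi.single (M := fun _ => MvPolynomial (Fin 3) K) j 1 i) *
        dR (q j) = aeval q f * dR (q i) := by
      rw [Finset.sum_eq_single i]
      · simp
      · intro j _ hj
        rw [Pi.single_eq_of_ne hj.symm]
        simp
      · simp
    have h2 : ∑ j, q i * aeval q (pderiv j f) * dR (q j) =
        q i * ∑ j, aeval q (pderiv j f) * dR (q j) := by
      rw [Finset.mul_sum]
      exact Finset.sum_congr rfl fun j _ => by ring
    rw [h1, h2]
    ring

theorem pow_mul {R : Type} [CommRing R] (dR : Derivation ℤ R R) (w : R) (n : ℕ) :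
    w * dR (w ^ n) = n * w ^ n * dR w := by
  induction n with
  | zero => simp
  | succ n ih =>
    rw [pow_succ, Derivation.leibniz, smul_eq_mul, smul_eq_mul]
    push_cast
    linear_combination w * ih

theorem dc_hom {f : MvPolynomial (Fin 3) K} {d : ℕ} (hf : f.IsHomogeneous d) :
    (dc dl f).IsHomogeneous d := by
  intro m hm
  rw [coeff_dc] at hm
  exact hf fun h => hm (by rw [h, map_zero])

theorem vd_hom {f : MvPolynomial (Fin 3) K} {V : Fin 3 → MvPolynomial (Fin 3) K} {d e : ℕ}
    (hd : 1 ≤ d) (hf : f.IsHomogeneous d) (hV : ∀ j, (V j).IsHomogeneous (e + 1)) :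
    (vd V f).IsHomogeneous (d + e) := by
  unfold vd
  refine IsHomogeneous.sum _ _ _ fun j _ => ?_
  have h := (hV j).mul (hf.pderiv (i := j))
  have h1 : e + 1 + (d - 1) = d + e := by omega
  rwa [h1] at h

end BPPx

open BPPx in
theorem PP_proof : S_PP := by
  intro K _ dl J V hJ
  refine ⟨?_, ?_⟩
  · intro R _ _ dR hc q hq i
    set w := aeval q J with hw
    have h1 : ∀ f : MvPolynomial (Fin 3) K,
        w * dR (aeval q f) = w * aeval q (dc dl f) + aeval q (vd V f) := by
      intro f
      rw [chain dl dR hc q f, mul_add, Finset.mul_sum]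
      congr 1
      unfold vd
      rw [map_sum]
      refine Finset.sum_congr rfl fun j _ => ?_
      rw [map_mul, ← hq j]
      ring
    have h2 : w * dR w = aeval q (vd V J) := by
      rw [hw, h1 J, hJ, map_zero, mul_zero, zero_add]
    induction i with
    | zero =>
      show w ^ (2 * 0) * w = aeval q J
      rw [mul_zero, pow_zero, one_mul]
    | succ i ih =>
      rw [Function.iterate_succ_apply']
      have h3 := congrArg (fun t => w ^ 2 * dR t) ih
      simp only [Derivation.leibniz, smul_eq_mul] at h3
      have h4 := pow_mul dR w (2 * i)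
      have h5 := h1 (PP dl J V i)
      show w ^ (2 * (i + 1)) * dR ((dR : R → R)^[i] w) = aeval q (EE dl J V (2 * i) (PP dl J V i))
      unfold EE
      simp only [map_sub, map_add, map_mul, map_pow, map_natCast]
      rw [← hw, ← h2, ← ih]
      linear_combination h3 - (dR : R → R)^[i] w * w * h4 + w * h5
  · intro e he hJh hV i
    induction i with
    | zero =>
      have h0 : e + 2 * 0 * e = e := by ring
      rw [h0]
      exact hJh
    | succ i ih =>
      show (EE dl J V (2 * i) (PP dl J V i)).IsHomogeneous _
      have hd : e + 2 * (i + 1) * e = 2 * e + (e + 2 * i * e) := by ring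
      rw [hd]
      set d := e + 2 * i * e with hdd
      unfold EE
      refine IsHomogeneous.sub (IsHomogeneous.add ?_ ?_) ?_
      · have h := (hJh.pow 2).mul (dc_hom dl ih)
        have h1 : e * 2 + d = 2 * e + d := by ring
        rwa [h1] at h
      · have h := hJh.mul (vd_hom (by omega) ih hV)
        have h1 : e + (d + e) = 2 * e + d := by ring
        rwa [h1] at h
      · have h := ((isHomogeneous_C (Fin 3) ((2 * i : ℕ) : K)).mul ih).mul
          (vd_hom he hJh hV)
        have h1 : 0 + d + (e + e) = 2 * e + d := by ring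
        rw [h1, map_natCast] at h
        exact h

end Pool.Agent.Work.MP_6d7a54_an.NF
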