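import Pool.Agent.Work.MP_6d7a54_an.NF.StmtsB

/-!
# Specialisation at a place (MP_6d7a54_an, item Pl)
-/

namespace Pool.Agent.Work.MP_6d7a54_an.NF

open MvPolynomial

noncomputable section

namespace BPlx

/-- existence of the place -/
theorem place {K L : Type} [Field K] [Field L] [Algebra K L] (tau : L)
    (h : ∀ p : Polynomial K, Polynomial.aeval tau p = 0 → p = 0) :
    ∃ O : ValuationSubring L, (∀ a : K, algebraMap K L a ∈ O) ∧ O.valuation tau < 1 := by
  let f : Polynomial K →+* L := ((Polynomial.aeval tau : Polynomial K →ₐ[K] L) : _ →+* L)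
  have hf : ∀ p, f p = Polynomial.aeval tau p := fun _ => rfl
  let t : f.range := ⟨tau, Polynomial.X, by rw [hf]; simp⟩
  have hI : Ideal.span {t} ≠ ⊤ := by
    intro he
    rw [Ideal.span_singleton_eq_top] at he
    obtain ⟨⟨u, p, hp⟩, hu⟩ := he.exists_right_inv
    have h1 : tau * u = 1 := congrArg Subtype.val hu
    have h2 := h (Polynomial.X * p - 1) (by
      rw [map_sub, map_mul, Polynomial.aeval_X, map_one, ← hf, hp, h1, sub_self])
    have h3 := congrArg (Polynomial.eval 0) h2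
    simp at h3
  obtain ⟨O, hO, hO2⟩ := Ideal.image_subset_nonunits_valuationSubring (Ideal.span {t}) hI
  refine ⟨O, fun a => hO ⟨Polynomial.C a, by rw [hf]; simp⟩, ?_⟩
  have := hO2 ⟨t, Ideal.subset_span rfl, rfl⟩
  exact (O.mem_nonunits_iff).1 this

/-- scaling of homogeneous polynomials -/
theorem hom_scale {K A : Type} [CommRing K] [CommRing A] [Algebra K A]
    {P : MvPolynomial (Fin 3) K} {n : ℕ} (hP : P.IsHomogeneous n) (c : A) (x : Fin 3 → A) :
    aeval (fun j => c * x j) P = c ^ n * aeval x P := by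
  rw [aeval_def, eval₂_eq', aeval_def, eval₂_eq', Finset.mul_sum]
  refine Finset.sum_congr rfl fun m hm => ?_
  have h1 := hP (mem_support_iff.1 hm)
  have h2 : ∑ i, m i = n := by
    rw [← h1, Finsupp.weight_apply, Finsupp.sum_fintype _ _ (fun i => by simp)]
    simp
  simp only [mul_pow]
  rw [Finset.prod_mul_distrib, Finset.prod_pow_eq_pow_sum, h2]
  ring

theorem vq_scale {F K R : Type} [Field F] [Field K] [CommRing R] [Algebra F K] [Algebra K R]
    {P : MvPolynomial (Fin 3) F} {n : ℕ} (hP : P.IsHomogeneous n) (c : R) (x : Fin 3 → R) :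
    vq K (fun j => c * x j) P = c ^ n * vq K x P :=
  hom_scale (IsHomogeneous.map hP (algebraMap F K)) c x

/-- comparison of valuations -/
theorem cmp {G : Type} [LinearOrderedCommGroupWithZero G] {x y z : G} (hx0 : x ≠ 0) (hx1 : x < 1)
    (n d0 N : ℕ) (m0 k : ℤ) (hN : N ≠ 0) (hd0 : d0 ≠ 0) (h1 : x ^ m0 = y ^ d0)
    (h2 : (y ^ n * z) ^ N = x ^ k) (hz : z ≤ 1) :
    ((N : ℤ) * n * m0 ≤ k * d0) ∧ (z < 1 ↔ (N : ℤ) * n * m0 < k * d0) := by
  have hx : 0 < x := zero_lt_iff.2 hx0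
  have h3 : z ^ (N * d0) = x ^ (k * d0 - (N : ℤ) * n * m0) := by
    have h4 : y ^ (d0 * (n * N)) * z ^ (N * d0) = x ^ (k * d0) := by
      rw [zpow_mul, zpow_natCast, ← h2, mul_pow, mul_pow, ← pow_mul, ← pow_mul, ← pow_mul]
      rw [show d0 * (n * N) = n * (N * d0) by ring]
    have h5 : y ^ (d0 * (n * N)) = x ^ ((N : ℤ) * n * m0) := by
      rw [pow_mul, ← h1, ← zpow_natCast, ← zpow_mul]
      congr 1
      push_cast
      ring
    rw [h5] at h4
    rw [zpow_sub₀ hx0, ← h4, mul_div_cancel_left₀ _ (zpow_ne_zero _ hx0)]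
  have hNd : N * d0 ≠ 0 := mul_ne_zero hN hd0
  constructor
  · have h4 : z ^ (N * d0) ≤ 1 := pow_le_one₀ zero_le hz
    rw [h3, zpow_le_one_iff_right_of_lt_one₀ hx hx1] at h4
    linarith
  · rw [← pow_lt_one_iff_of_nonneg zero_le hNd, h3, zpow_lt_one_iff_right_of_lt_one₀ hx hx1]
    constructor <;> intro h <;> linarith

theorem map_vq {F K A B : Type} [Field F] [Field K] [CommRing A] [CommRing B] [Algebra F K]
    [Algebra K A] [Algebra K B] (phi : A →+* B)
    (h : ∀ a : K, phi (algebraMap K A a) = algebraMap K B a) (W : Fin 3 → A)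
    (P : MvPolynomial (Fin 3) F) : phi (vq K W P) = vq K (fun j => phi (W j)) P := by
  have h1 : phi.comp (algebraMap K A) = algebraMap K B := RingHom.ext h
  unfold vq
  rw [map_aeval, h1]
  rfl

theorem zp {A L Om G : Type} [CommRing A] [Field L] [Field Om] [LinearOrderedCommGroupWithZero G]
    (v : Valuation L G) (inc : A →+* L) (res : A →+* Om) (hinj : Function.Injective inc)
    (hA1 : ∀ x : L, v x ≤ 1 → ∃ a : A, inc a = x) (a : A) (ha : v (inc a) = 1) (e : ℤ) :
    ∃ b : A, inc b = inc a ^ e ∧ res b = res a ^ e := by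
  obtain ⟨c, hc⟩ := hA1 (inc a)⁻¹ (by rw [map_inv₀, ha, inv_one])
  have h0 : inc a ≠ 0 := by
    intro h
    rw [h, map_zero] at ha
    exact zero_ne_one ha
  have h1 : a * c = 1 := hinj (by rw [map_mul, hc, map_one, mul_inv_cancel₀ h0])
  let u : Aˣ := ⟨a, c, h1, by rw [mul_comm]; exact h1⟩
  refine ⟨((u ^ e : Aˣ) : A), ?_, ?_⟩
  · have h2 : inc ((u ^ e : Aˣ) : A) = ((Units.map (inc : A →* L) (u ^ e) : Lˣ) : L) := rfl
    rw [h2, map_zpow, Units.val_zpow_eq_zpow_val]
    rfl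
  · have h2 : res ((u ^ e : Aˣ) : A) = ((Units.map (res : A →* Om) (u ^ e) : Omˣ) : Om) := rfl
    rw [h2, map_zpow, Units.val_zpow_eq_zpow_val]
    rfl

theorem BPl_prod {L : Type} [Field L] {x : L} (hx : x ≠ 0) (e : Fin 3 → ℤ) :
    ∏ a, x ^ (e a) = x ^ (∑ a, e a) := by
  rw [Fin.prod_univ_three, Fin.sum_univ_three, zpow_add₀ hx, zpow_add₀ hx]

/-- the statement for an abstract place -/
theorem core {F K L A Om G : Type} [Field F] [Field K] [Field L] [CommRing A] [Field Om]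
    [LinearOrderedCommGroupWithZero G] [Algebra F K] [Algebra K L] [Algebra K A] [Algebra K Om]
    (Q : Fin 3 → MvPolynomial (Fin 3) F) (dg : Fin 3 → ℕ) (hom : ∀ a, (Q a).IsHomogeneous (dg a))
    (pos : ∀ a, 1 ≤ dg a) (deg : 4 ≤ ∑ a, dg a)
    (hJh : (Jac Q).IsHomogeneous (∑ a, dg a - 3))
    (hInt : ∀ w : Fin 3 → Om, (∀ a, vq K w (Q a) = 0) → w = 0)
    (v : Valuation L G) (inc : A →+* L) (res : A →+* Om) (hinj : Function.Injective inc)
    (hiK : ∀ a : K, inc (algebraMap K A a) = algebraMap K L a)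
    (hrK : ∀ a : K, res (algebraMap K A a) = algebraMap K Om a)
    (hA1 : ∀ x : L, v x ≤ 1 → ∃ a : A, inc a = x)
    (hA2 : ∀ a : A, v (inc a) ≤ 1) (hA3 : ∀ a : A, v (inc a) < 1 ↔ res a = 0)
    (q : Fin 3 → L) (m : Fin 3 → ℤ) (kap : Fin 3 → K) (tau : L) (N : ℕ) (k : ℤ) (kJ : K)
    (hN : N ≠ 0) (hkJ : kJ ≠ 0) (hkap : ∀ a, kap a ≠ 0) (ht0 : tau ≠ 0) (ht1 : v tau < 1)
    (hq : ∀ a, vq K q (Q a) = algebraMap K L (kap a) * tau ^ (m a))
    (hJ : vq K q (Jac Q) ^ N = algebraMap K L kJ * tau ^ k) :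
    ∃ (w : Fin 3 → Om) (a0 : Fin 3), w ≠ 0 ∧
    vq K w (Q a0) ≠ 0 ∧
    (∀ b, (dg b : ℤ) * m a0 ≤ dg a0 * m b ∧
      (vq K w (Q b) = 0 ↔ (dg b : ℤ) * m a0 < dg a0 * m b)) ∧
    ((N : ℤ) * ((∑ a, (dg a : ℤ)) - 3) * m a0 ≤ k * dg a0 ∧
      (vq K w (Jac Q) = 0 ↔ (N : ℤ) * ((∑ a, (dg a : ℤ)) - 3) * m a0 < k * dg a0)) ∧
    ∀ i : Fin 3 → ℤ, ∑ a, i a * (dg a : ℤ) = 0 → ∑ a, i a * m a = 0 →
      (∀ a, i a ≠ 0 → vq K w (Q a) ≠ 0) →
      ∏ a, algebraMap K Om (kap a) ^ (i a) = ∏ a, (vq K w (Q a)) ^ (i a) := by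
  -- valuations of constants
  have hvK : ∀ a : K, a ≠ 0 → v (algebraMap K L a) = 1 := by
    intro a ha
    refine le_antisymm ?_ ?_
    · rw [← hiK]
      exact hA2 _
    · have h1 : v (algebraMap K L a⁻¹) ≤ 1 := by
        rw [← hiK]
        exact hA2 _
      have h2 : v (algebraMap K L a) * v (algebraMap K L a⁻¹) = 1 := by
        rw [← map_mul, ← map_mul, mul_inv_cancel₀ ha, map_one, map_one]
      by_contra hn
      rw [not_le] at hn
      have h3 : v (algebraMap K L a) * v (algebraMap K L a⁻¹) < 1 := mul_lt_one_of_lt_of_le hn h1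
      rw [h2] at h3
      exact lt_irrefl _ h3
  have hqa : ∀ a, v (vq K q (Q a)) = v tau ^ (m a) := by
    intro a
    rw [hq, map_mul, hvK _ (hkap a), one_mul, map_zpow₀]
  have hx0 : v tau ≠ 0 := (Valuation.ne_zero_iff v).2 ht0
  -- the largest coordinate
  obtain ⟨j0, hj0⟩ := Finite.exists_max (fun j => v (q j))
  have hqj0 : q j0 ≠ 0 := by
    intro h0
    have h1 : q = fun j => (0 : L) * q j := by
      funext j
      have h2 := hj0 j
      rw [h0, map_zero, le_zero_iff, map_eq_zero] at h2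
      rw [h2, mul_zero]
    have h2 : vq K q (Q 0) = 0 := by
      rw [h1, vq_scale (hom 0), zero_pow (by have := pos 0; omega), zero_mul]
    rw [hq] at h2
    rcases mul_eq_zero.1 h2 with h3 | h3
    · exact hkap 0 ((map_eq_zero _).1 h3)
    · exact zpow_ne_zero _ ht0 h3
  have hWex : ∀ j, ∃ a : A, inc a = q j / q j0 := by
    intro j
    refine hA1 _ ?_
    rw [map_div₀]
    exact div_le_one_of_le₀ (hj0 j) zero_le
  choose W hW using hWex
  have hqW : q = fun j => q j0 * inc (W j) := by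
    funext j
    rw [hW, mul_div_cancel₀ _ hqj0]
  -- homogeneous polynomials
  have hval : ∀ (P : MvPolynomial (Fin 3) F) (n : ℕ), P.IsHomogeneous n →
      vq K q P = q j0 ^ n * inc (vq K W P) := by
    intro P n hP
    rw [map_vq inc hiK]
    conv_lhs => rw [hqW]
    exact vq_scale hP _ _
  have hvv : ∀ (P : MvPolynomial (Fin 3) F) (n : ℕ), P.IsHomogeneous n →
      v (vq K q P) = v (q j0) ^ n * v (inc (vq K W P)) := by
    intro P n hP
    rw [hval P n hP, map_mul, map_pow]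
  have hz : ∀ P : MvPolynomial (Fin 3) F, vq K (fun j => res (W j)) P = 0 ↔
      v (inc (vq K W P)) < 1 := by
    intro P
    rw [← map_vq res hrK, hA3]
  have hw0 : (fun j => res (W j)) ≠ 0 := by
    intro h0
    have h1 : res (W j0) = 0 := congrFun h0 j0
    rw [← hA3, hW, div_self hqj0, map_one] at h1
    exact lt_irrefl _ h1
  obtain ⟨a0, ha0⟩ : ∃ a0, vq K (fun j => res (W j)) (Q a0) ≠ 0 := by
    by_contra hn
    push Not at hn
    exact hw0 (hInt _ hn)
  have ha1 : v (inc (vq K W (Q a0))) = 1 := by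
    refine le_antisymm (hA2 _) ?_
    rw [← not_lt, ← hz]
    exact ha0
  have hxy : v tau ^ (m a0) = v (q j0) ^ (dg a0) := by
    rw [← hqa, hvv _ _ (hom a0), ha1, mul_one]
  have hd0 : dg a0 ≠ 0 := by
    have := pos a0
    omega
  refine ⟨fun j => res (W j), a0, hw0, ha0, ?_, ?_, ?_⟩
  · intro b
    have h1 := cmp hx0 ht1 (dg b) (dg a0) 1 (m a0) (m b) one_ne_zero hd0 hxy
      (by rw [pow_one, ← hvv _ _ (hom b), hqa]) (hA2 (vq K W (Q b)))
    rw [← hz, Nat.cast_one, one_mul, mul_comm (m b)] at h1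
    exact h1
  · have h1 := cmp hx0 ht1 (∑ a, dg a - 3) (dg a0) N (m a0) k hN hd0 hxy
      (by rw [← hvv _ _ hJh, ← map_pow, hJ, map_mul, hvK _ hkJ, one_mul, map_zpow₀])
      (hA2 (vq K W (Jac Q)))
    rw [← hz] at h1
    have h2 : ((∑ a, dg a - 3 : ℕ) : ℤ) = (∑ a, (dg a : ℤ)) - 3 := by
      rw [Nat.cast_sub (by omega)]
      push_cast
      ring
    rw [h2] at h1
    exact h1
  · intro i hi1 hi2 hi3
    have hb : ∀ a, ∃ b : A, inc b = algebraMap K L (kap a) ^ (i a) ∧
        res b = algebraMap K Om (kap a) ^ (i a) := by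
      intro a
      obtain ⟨b, hb1, hb2⟩ := zp v inc res hinj hA1 (algebraMap K A (kap a))
        (by rw [hiK]; exact hvK _ (hkap a)) (i a)
      rw [hiK] at hb1
      rw [hrK] at hb2
      exact ⟨b, hb1, hb2⟩
    have hc : ∀ a, ∃ c : A, inc c = inc (vq K W (Q a)) ^ (i a) ∧
        res c = vq K (fun j => res (W j)) (Q a) ^ (i a) := by
      intro a
      by_cases hia : i a = 0
      · refine ⟨1, ?_, ?_⟩
        · rw [hia, zpow_zero, map_one]
        · rw [hia, zpow_zero, map_one]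
      · obtain ⟨b, hb1, hb2⟩ := zp v inc res hinj hA1 (vq K W (Q a))
          (le_antisymm (hA2 _) (by rw [← not_lt, ← hz]; exact hi3 a hia)) (i a)
        rw [map_vq res hrK] at hb2
        exact ⟨b, hb1, hb2⟩
    choose b hb1 hb2 using hb
    choose c hc1 hc2 using hc
    have hbc : ∏ a, b a = ∏ a, c a := by
      apply hinj
      rw [map_prod, map_prod]
      simp only [hb1, hc1]
      have h1 : ∀ a, inc (vq K W (Q a)) =
          algebraMap K L (kap a) * (tau ^ (m a) * (q j0 ^ (-(dg a : ℤ)))) := by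
        intro a
        have h2 := hval _ _ (hom a)
        rw [hq] at h2
        rw [zpow_neg, zpow_natCast, ← mul_assoc, h2, mul_comm, ← mul_assoc,
          inv_mul_cancel₀ (pow_ne_zero _ hqj0), one_mul]
      have h3 : ∀ a, inc (vq K W (Q a)) ^ (i a) =
          algebraMap K L (kap a) ^ (i a) * (tau ^ (i a * m a) * (q j0 ^ (-(i a * (dg a : ℤ))))) := by
        intro a
        rw [h1, mul_zpow, mul_zpow, ← zpow_mul, ← zpow_mul]
        congr 3
        · ring
        · ring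
      simp only [h3]
      rw [Finset.prod_mul_distrib, Finset.prod_mul_distrib, BPl_prod ht0, BPl_prod hqj0, hi2,
        Finset.sum_neg_distrib, hi1, neg_zero, zpow_zero, zpow_zero, one_mul, mul_one]
    have h1 := congrArg res hbc
    rw [map_prod, map_prod] at h1
    simp only [hb2, hc2] at h1
    exact h1

end BPlx

theorem Pl_proof (h2 : S_Int) (h3 : S_JH) : S_Pl := by
  intro F _ _ _ Q dg hQ K L _ _ _ _ q m kap tau N k kJ hN hkJ hkap htr hq hJ
  obtain ⟨O, hKO, hvt⟩ := BPlx.place tau htr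
  have ht0 : tau ≠ 0 := by
    intro h0
    have h1 := htr Polynomial.X (by rw [Polynomial.aeval_X, h0])
    exact Polynomial.X_ne_zero h1
  let fK : K →+* O := (algebraMap K L).codRestrict O hKO
  let algO : Algebra K O := fK.toAlgebra
  let algOm : Algebra K (IsLocalRing.ResidueField O) :=
    ((IsLocalRing.residue O).comp fK).toAlgebra
  let algF : Algebra F (IsLocalRing.ResidueField O) :=
    ((algebraMap K (IsLocalRing.ResidueField O)).comp (algebraMap F K)).toAlgebra
  have hInt : ∀ w : Fin 3 → IsLocalRing.ResidueField O, (∀ a, vq K w (Q a) = 0) → w = 0 := by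
    intro w hw
    refine (h2 F Q dg hQ).2.1 _ w fun a => ?_
    rw [← hw a]
    unfold vq
    rw [aeval_def, aeval_def, eval₂_map]
    rfl
  have hcore := BPlx.core Q dg hQ.hom hQ.pos hQ.deg (h3 F Q dg hQ.hom hQ.pos).1 hInt O.valuation
    O.subtype (IsLocalRing.residue O) Subtype.val_injective (fun _ => rfl) (fun _ => rfl)
    (fun x hx => ⟨⟨x, (O.valuation_le_one_iff x).1 hx⟩, rfl⟩) (fun a => O.valuation_le_one a)
    (fun a => by
      rw [IsLocalRing.residue_eq_zero_iff]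
      exact (O.valuation_lt_one_iff a).symm) q m kap tau N k kJ hN hkJ hkap ht0 hvt hq hJ
  obtain ⟨w, a0, h⟩ := hcore
  exact ⟨IsLocalRing.ResidueField O, inferInstance, algOm, w, a0, h⟩

end

end Pool.Agent.Work.MP_6d7a54_an.NF
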