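import Pool.Agent.Work.MP_6d7a54_an.NF.StmtsB

/-!
# Elements with simple zeros are squarefree (MP_6d7a54_an, NF)
-/

namespace Pool.Agent.Work.MP_6d7a54_an.NF

noncomputable section

namespace BRedx

variable {F K R : Type} [Field F] [Field K] [CharZero K] [CommRing R] [IsDomain R]
  [Algebra F K] [Algebra K R] {dl : Derivation ℤ K K} {dR : Derivation ℤ R R}

/-- the induction step -/
theorem step (K : Type) [Field K] [CharZero K] [Algebra K R] {s e f : R} (hs : s ≠ 0) (hc : IsCoprime s (dR s)) (n : ℕ)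
    (hf : s ^ (n + 1) * f = e ^ (n + 2)) : ∃ f', s ^ (n + 2) * f' = e ^ (n + 3) := by
  obtain ⟨al, be, hab⟩ := hc
  have h1 : s ^ (n + 1) * dR f + f * (((n + 1 : ℕ) : R) * (s ^ n * dR s)) =
      ((n + 2 : ℕ) : R) * (e ^ (n + 1) * dR e) := by
    have h := congrArg dR hf
    rw [Derivation.leibniz, Derivation.leibniz_pow, Derivation.leibniz_pow] at h
    simp only [smul_eq_mul, nsmul_eq_mul, Nat.add_sub_cancel] at h
    exact h
  have h2 : s ^ (n + 1) * (((n + 1 : ℕ) : R) * dR s * (e * f)) =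
      s ^ (n + 1) * (s * (((n + 2 : ℕ) : R) * dR e * f - e * dR f)) := by
    have h3 : s ^ (n + 1) * (((n + 1 : ℕ) : R) * dR s * (e * f)) + s ^ (n + 1) * (s * (e * dR f)) =
        s * e * (s ^ (n + 1) * dR f + f * (((n + 1 : ℕ) : R) * (s ^ n * dR s))) := by
      ring
    have h4 : s * e * (((n + 2 : ℕ) : R) * (e ^ (n + 1) * dR e)) =
        s ^ (n + 1) * (s * (((n + 2 : ℕ) : R) * dR e * f)) := by
      calc s * e * (((n + 2 : ℕ) : R) * (e ^ (n + 1) * dR e)) =
          s * (((n + 2 : ℕ) : R) * dR e) * e ^ (n + 2) := by ring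
        _ = s * (((n + 2 : ℕ) : R) * dR e) * (s ^ (n + 1) * f) := by rw [hf]
        _ = _ := by ring
    rw [h1, h4] at h3
    linear_combination h3
  have h5 := mul_left_cancel₀ (pow_ne_zero (n + 1) hs) h2
  set c : R := ((n + 1 : ℕ) : R) with hc'
  have h6 : c * (e * f) = s * (al * c * (e * f) +
      be * (((n + 2 : ℕ) : R) * dR e * f - e * dR f)) := by
    calc c * (e * f) = c * (e * f) * (al * s + be * dR s) := by rw [hab, mul_one]
      _ = s * (al * c * (e * f)) + be * (c * dR s * (e * f)) := by ring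
      _ = _ := by rw [h5]; ring
  have h7 : algebraMap K R ((((n + 1 : ℕ) : K))⁻¹) * c = 1 := by
    have h8 : c = algebraMap K R ((n + 1 : ℕ) : K) := by rw [map_natCast]
    rw [h8, ← map_mul, inv_mul_cancel₀ (by exact_mod_cast Nat.succ_ne_zero n), map_one]
  set ci := algebraMap K R ((((n + 1 : ℕ) : K))⁻¹) with hci
  refine ⟨ci * (al * c * (e * f) + be * (((n + 2 : ℕ) : R) * dR e * f - e * dR f)), ?_⟩
  set X := al * c * (e * f) + be * (((n + 2 : ℕ) : R) * dR e * f - e * dR f) with hX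
  calc s ^ (n + 2) * (ci * X) = s ^ (n + 1) * (ci * (s * X)) := by ring
    _ = s ^ (n + 1) * (ci * (c * (e * f))) := by rw [h6]
    _ = (ci * c) * (e * (s ^ (n + 1) * f)) := by ring
    _ = e * e ^ (n + 2) := by rw [h7, hf, one_mul]
    _ = e ^ (n + 3) := by ring

theorem all {s e : R} (K : Type) [Field K] [CharZero K] [Algebra K R]
    (hs : s ≠ 0) (hc : IsCoprime s (dR s)) (h2 : s ∣ e ^ 2) (n : ℕ) :
    ∃ f, s ^ (n + 1) * f = e ^ (n + 2) := by
  induction n with
  | zero =>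
    obtain ⟨f, hf⟩ := h2
    exact ⟨f, by rw [hf]; ring⟩
  | succ n ih =>
    obtain ⟨f, hf⟩ := ih
    exact step K hs hc n hf

theorem two (hN : NR F K R dl dR) {s e : R} (hs : s ≠ 0) (hc : IsCoprime s (dR s))
    (h2 : s ∣ e ^ 2) : s ∣ e := by
  refine hN.cic s e s hs hs ?_
  intro k
  match k with
  | 0 => simp
  | 1 => exact ⟨e, by ring⟩
  | n + 2 =>
    obtain ⟨f, hf⟩ := all K hs hc h2 n
    exact ⟨f, by rw [← hf]; ring⟩

theorem pow2 (hN : NR F K R dl dR) {s e : R} (hs : s ≠ 0) (hc : IsCoprime s (dR s)) (m : ℕ)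
    (h : s ∣ e ^ 2 ^ m) : s ∣ e := by
  induction m with
  | zero => simpa using h
  | succ m ih =>
    apply ih
    apply two hN hs hc
    rw [← pow_mul, ← pow_succ]
    exact h

end BRedx

theorem Red_proof : S_Red := by
  intro F K R _ _ _ _ _ _ _ dl dR hN s e hs hc n h
  exact BRedx.pow2 hN hs hc n (h.trans (pow_dvd_pow e Nat.lt_two_pow_self.le))

end

end Pool.Agent.Work.MP_6d7a54_an.NF
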