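import Pool.Agent.Work.MP_6d7a54_an.NF.StmtsB

/-!
Power series roots of monic polynomials over an algebraically closed field.
-/

namespace Pool.Agent.Work.MP_6d7a54_an.NF

open Polynomial

namespace BRtx

/-- taking out the largest power of `X` -/
theorem content {E : Type} [Field E] (m : ℕ) : ∀ q : Polynomial (PowerSeries E),
    (∃ i, PowerSeries.coeff m (q.coeff i) ≠ 0) →
    ∃ (k : ℕ) (q1 : Polynomial (PowerSeries E)), q = C (PowerSeries.X ^ k) * q1 ∧
      q1.map (PowerSeries.constantCoeff (R := E)) ≠ 0 := by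
  induction m with
  | zero =>
    rintro q ⟨i, hi⟩
    refine ⟨0, q, by simp, fun h => hi ?_⟩
    have := congrArg (fun p => Polynomial.coeff p i) h
    simpa using this
  | succ m ih =>
    rintro q ⟨i, hi⟩
    by_cases h : q.map (PowerSeries.constantCoeff (R := E)) = 0
    · have hd : C (PowerSeries.X : PowerSeries E) ∣ q := by
        rw [Polynomial.C_dvd_iff_dvd_coeff]
        intro j
        rw [PowerSeries.X_dvd_iff]
        have := congrArg (fun p => Polynomial.coeff p j) h
        simpa using this
      obtain ⟨q', rfl⟩ := hd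
      rw [Polynomial.coeff_C_mul, PowerSeries.coeff_succ_X_mul] at hi
      obtain ⟨k, q1, h1, h2⟩ := ih q' ⟨i, hi⟩
      refine ⟨k + 1, q1, ?_, h2⟩
      rw [h1, ← mul_assoc, ← Polynomial.C_mul, pow_succ']
    · exact ⟨0, q, by simp, h⟩

theorem step {E Om : Type} [Field E] [IsAlgClosed E] [Field Om] [Algebra E Om]
    (p : Polynomial (PowerSeries E)) (hp : p.Monic) (v : PowerSeries Om)
    (hv : Polynomial.eval₂ (PowerSeries.map (algebraMap E Om)) v p = 0) (n : ℕ)
    (e : ℕ → E) (he : ∀ j < n, algebraMap E Om (e j) = PowerSeries.coeff j v) :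
    ∃ a : E, algebraMap E Om a = PowerSeries.coeff n v := by
  set f := PowerSeries.map (algebraMap E Om) with hf
  set v0 : PowerSeries E := PowerSeries.mk fun j => if j < n then e j else 0 with hv0
  set W : PowerSeries Om := PowerSeries.mk fun j => PowerSeries.coeff (j + n) v with hW
  have hvW : f v0 + PowerSeries.X ^ n * W = v := by
    ext j
    rw [map_add, hf, PowerSeries.coeff_map, hv0, PowerSeries.coeff_mk,
      PowerSeries.coeff_X_pow_mul']
    by_cases hj : j < n
    · rw [if_pos hj, if_neg (by omega), add_zero, he j hj]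
    · rw [if_neg hj, if_pos (not_lt.mp hj), map_zero, zero_add, hW, PowerSeries.coeff_mk,
        Nat.sub_add_cancel (not_lt.mp hj)]
  set r : Polynomial (PowerSeries E) := C v0 + C (PowerSeries.X ^ n) * X with hr
  have hr1 : r.coeff 1 = PowerSeries.X ^ n := by
    rw [hr, Polynomial.coeff_add, Polynomial.coeff_C_mul, Polynomial.coeff_X_one, mul_one,
      Polynomial.coeff_C, if_neg one_ne_zero, zero_add]
  have hXn : (PowerSeries.X : PowerSeries E) ^ n ≠ 0 := pow_ne_zero _ PowerSeries.X_ne_zero
  have hq : p.comp r ≠ 0 := by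
    intro h0
    rw [Polynomial.comp_eq_zero_iff] at h0
    rcases h0 with h0 | ⟨-, h0⟩
    · exact hp.ne_zero h0
    · rw [h0] at hr1
      rw [Polynomial.coeff_C] at hr1
      simp at hr1
      exact hXn hr1.symm
  obtain ⟨i, hi⟩ : ∃ i, (p.comp r).coeff i ≠ 0 := by
    by_contra hcon
    push Not at hcon
    exact hq (Polynomial.ext hcon)
  obtain ⟨m, hm⟩ : ∃ m, PowerSeries.coeff m ((p.comp r).coeff i) ≠ 0 := by
    by_contra hcon
    push Not at hcon
    exact hi (PowerSeries.ext hcon)
  obtain ⟨k, q1, h1, h2⟩ := content m (p.comp r) ⟨i, hm⟩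
  have h3 : (p.comp r).eval₂ f W = 0 := by
    rw [Polynomial.eval₂_comp, hr, Polynomial.eval₂_add, Polynomial.eval₂_mul,
      Polynomial.eval₂_C, Polynomial.eval₂_C, Polynomial.eval₂_X, map_pow]
    have : f PowerSeries.X = PowerSeries.X := by rw [hf, PowerSeries.map_X]
    rw [this, hvW]
    exact hv
  rw [h1, Polynomial.eval₂_mul, Polynomial.eval₂_C, map_pow] at h3
  have h4 : q1.eval₂ f W = 0 := by
    rcases mul_eq_zero.mp h3 with h | h
    · exfalso
      rw [hf, PowerSeries.map_X] at h
      exact pow_ne_zero _ PowerSeries.X_ne_zero h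
    · exact h
  have h5 : (q1.map (PowerSeries.constantCoeff (R := E))).eval₂ (algebraMap E Om)
      (PowerSeries.coeff n v) = 0 := by
    have h6 := congrArg (PowerSeries.constantCoeff (R := Om)) h4
    rw [map_zero, Polynomial.hom_eval₂] at h6
    rw [Polynomial.eval₂_map]
    have e1 : (PowerSeries.constantCoeff (R := Om)).comp f =
        (algebraMap E Om).comp (PowerSeries.constantCoeff (R := E)) := by
      refine RingHom.ext fun x => ?_
      rw [RingHom.comp_apply, RingHom.comp_apply, hf,
        ← PowerSeries.coeff_zero_eq_constantCoeff_apply, PowerSeries.coeff_map,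
        PowerSeries.coeff_zero_eq_constantCoeff_apply]
    have e2 : PowerSeries.constantCoeff W = PowerSeries.coeff n v := by
      rw [hW, ← PowerSeries.coeff_zero_eq_constantCoeff_apply, PowerSeries.coeff_mk, zero_add]
    rw [e1, e2] at h6
    exact h6
  have halg : IsAlgebraic E (PowerSeries.coeff n v) :=
    ⟨_, h2, by rw [Polynomial.aeval_def]; exact h5⟩
  have hdeg := IsAlgClosed.degree_eq_one_of_irreducible E
    (minpoly.irreducible halg.isIntegral)
  exact minpoly.mem_range_of_degree_eq_one E _ hdeg

end BRtx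

theorem Rt_proof : S_Rt := by
  intro E Om _ _ _ _ p hp v hv
  have key : ∀ n : ℕ, ∃ a : E, algebraMap E Om a = PowerSeries.coeff n v := by
    intro n
    induction n using Nat.strong_induction_on with
    | _ n ih =>
      classical
      choose! e he using ih
      exact BRtx.step p hp v hv n e he
  choose e he using key
  refine ⟨PowerSeries.mk e, ?_⟩
  ext n
  rw [PowerSeries.coeff_map, PowerSeries.coeff_mk, he]

end Pool.Agent.Work.MP_6d7a54_an.NF
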