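import Pool.Agent.Work.MP_6d7a54_an.NF.StmtsB

/-!
# Item Ser: possible Taylor series of the Jacobian at its zeros
-/

set_option autoImplicit false

namespace Pool.Agent.Work.MP_6d7a54_an.NF

open MvPolynomial

namespace BSerx

noncomputable section

/-- coefficients of the derivatives of an element with `x' = l x` -/
def kp {K : Type} [Field K] (dl : Derivation ℤ K K) (l : K) : ℕ → K
  | 0 => 1
  | n + 1 => dl (kp dl l n) + l * kp dl l n

theorem iter_kp {K R : Type} [Field K] [CommRing R] [Algebra K R] (dl : Derivation ℤ K K)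
    (dR : Derivation ℤ R R) (hc : ∀ a : K, dR (algebraMap K R a) = algebraMap K R (dl a))
    (l : K) (x : R) (hx : dR x = algebraMap K R l * x) (n : ℕ) :
    (dR : R → R)^[n] x = algebraMap K R (kp dl l n) * x := by
  induction n with
  | zero =>
    show x = algebraMap K R 1 * x
    rw [map_one, one_mul]
  | succ n ih =>
    rw [Function.iterate_succ_apply', ih, Derivation.leibniz, hx, hc]
    show algebraMap K R (kp dl l n) * (algebraMap K R l * x) + x * algebraMap K R (dl (kp dl l n)) =
      algebraMap K R (dl (kp dl l n) + l * kp dl l n) * x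
    rw [map_add, map_mul]
    ring

/-- Taylor series of `u / u(0)` -/
def US {K : Type} [Field K] (dl : Derivation ℤ K K) (l : K) : PowerSeries (AlgebraicClosure K) :=
  PowerSeries.mk fun n => ((n.factorial : ℕ) : AlgebraicClosure K)⁻¹ *
    algebraMap K (AlgebraicClosure K) (kp dl l n)

/-- the point of the power series ring -/
def pt {K : Type} [Field K] (dl : Derivation ℤ K K) (l0 l1 : K) (x y : AlgebraicClosure K) :
    Fin 3 → PowerSeries (AlgebraicClosure K) :=
  ![PowerSeries.C x * US dl l0, PowerSeries.C y * US dl l1, 1]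

/-- evaluation of the coefficients -/
def phi {F K : Type} [Field F] [Field K] [Algebra F K] (dl : Derivation ℤ K K) (l0 l1 : K)
    (x y : AlgebraicClosure K) : MvPolynomial (Fin 3) F →+* PowerSeries (AlgebraicClosure K) :=
  MvPolynomial.eval₂Hom (PowerSeries.C.comp
    ((algebraMap K (AlgebraicClosure K)).comp (algebraMap F K))) (pt dl l0 l1 x y)

theorem phi_C {F K : Type} [Field F] [Field K] [Algebra F K] (dl : Derivation ℤ K K) (l0 l1 : K)
    (x y : AlgebraicClosure K) (a : F) : phi dl l0 l1 x y (C a : MvPolynomial (Fin 3) F) =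
      PowerSeries.C (algebraMap K (AlgebraicClosure K) (algebraMap F K a)) := by
  unfold phi
  rw [MvPolynomial.coe_eval₂Hom, MvPolynomial.eval₂_C]
  rfl

theorem phi_X {F K : Type} [Field F] [Field K] [Algebra F K] (dl : Derivation ℤ K K) (l0 l1 : K)
    (x y : AlgebraicClosure K) (i : Fin 3) : phi dl l0 l1 x y (X i : MvPolynomial (Fin 3) F) =
      pt dl l0 l1 x y i := by
  unfold phi
  rw [MvPolynomial.coe_eval₂Hom, MvPolynomial.eval₂_X]

/-- the automorphisms fix the series `US` -/
theorem map_US {K : Type} [Field K] (dl : Derivation ℤ K K) (l : K)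
    (s : AlgebraicClosure K →+* AlgebraicClosure K)
    (hs : ∀ a : K, s (algebraMap K _ a) = algebraMap K _ a) :
    PowerSeries.map s (US dl l) = US dl l := by
  ext n
  rw [PowerSeries.coeff_map]
  unfold US
  rw [PowerSeries.coeff_mk, map_mul, map_inv₀, map_natCast, hs]

theorem map_phi {F K : Type} [Field F] [Field K] [Algebra F K] (dl : Derivation ℤ K K) (l0 l1 : K)
    (x y : AlgebraicClosure K) (s : AlgebraicClosure K →+* AlgebraicClosure K)
    (hs : ∀ a : K, s (algebraMap K _ a) = algebraMap K _ a) :
    (PowerSeries.map s).comp (phi dl l0 l1 x y : MvPolynomial (Fin 3) F →+* _) =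
      phi dl l0 l1 (s x) (s y) := by
  refine MvPolynomial.ringHom_ext (fun a => ?_) fun i => ?_
  · rw [RingHom.comp_apply, phi_C, phi_C, PowerSeries.map_C, hs]
  · rw [RingHom.comp_apply, phi_X, phi_X]
    fin_cases i
    · show PowerSeries.map s (PowerSeries.C x * US dl l0) = PowerSeries.C (s x) * US dl l0
      rw [map_mul, PowerSeries.map_C, map_US dl l0 s hs]
    · show PowerSeries.map s (PowerSeries.C y * US dl l1) = PowerSeries.C (s y) * US dl l1
      rw [map_mul, PowerSeries.map_C, map_US dl l1 s hs]
    · show PowerSeries.map s 1 = 1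
      rw [map_one]

/-- roots of a polynomial over `K` in an algebraically closed extension -/
theorem root_lift {K Om : Type} [Field K] [Field Om] (io : AlgebraicClosure K →+* Om)
    (r : Polynomial K) (hr : r ≠ 0) (t : Om)
    (ht : Polynomial.eval₂ (io.comp (algebraMap K (AlgebraicClosure K))) t r = 0) :
    ∃ x ∈ (r.map (algebraMap K (AlgebraicClosure K))).roots, io x = t := by
  have h1 : ((r.map (algebraMap K (AlgebraicClosure K))).map io).roots =
      (r.map (algebraMap K (AlgebraicClosure K))).roots.map io :=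
    (IsAlgClosed.splits _).roots_map io
  have h2 : t ∈ ((r.map (algebraMap K (AlgebraicClosure K))).map io).roots := by
    rw [Polynomial.mem_roots']
    refine ⟨?_, ?_⟩
    · rw [Polynomial.map_map]
      exact (Polynomial.map_ne_zero_iff (RingHom.injective _)).2 hr
    · rw [Polynomial.IsRoot.def, Polynomial.map_map, Polynomial.eval_map]
      exact ht
  rw [h1, Multiset.mem_map] at h2
  exact h2

theorem root_aut {K : Type} [Field K] (r : Polynomial K)
    (s : AlgebraicClosure K →+* AlgebraicClosure K)
    (hs : ∀ a : K, s (algebraMap K _ a) = algebraMap K _ a) (x : AlgebraicClosure K)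
    (hx : x ∈ (r.map (algebraMap K (AlgebraicClosure K))).roots) :
    s x ∈ (r.map (algebraMap K (AlgebraicClosure K))).roots := by
  rw [Polynomial.mem_roots', Polynomial.IsRoot.def, Polynomial.eval_map] at hx ⊢
  refine ⟨hx.1, ?_⟩
  have h1 := Polynomial.hom_eval₂ r (algebraMap K (AlgebraicClosure K)) s x
  rw [hx.2, map_zero] at h1
  have h2 : s.comp (algebraMap K (AlgebraicClosure K)) = algebraMap K (AlgebraicClosure K) :=
    RingHom.ext hs
  rw [h2] at h1
  exact h1.symm

open Classical in
/-- the series -/
def VS {F K : Type} [Field F] [Field K] [Algebra F K] (dl : Derivation ℤ K K) (l0 l1 : K)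
    (r0 r1 : Polynomial K) (p : Polynomial (MvPolynomial (Fin 3) F)) :
    Finset (PowerSeries (AlgebraicClosure K)) :=
  (r0.map (algebraMap K (AlgebraicClosure K))).roots.toFinset.biUnion fun x =>
    (r1.map (algebraMap K (AlgebraicClosure K))).roots.toFinset.biUnion fun y =>
      (p.map (phi dl l0 l1 x y)).roots.toFinset

theorem mem_VS {F K : Type} [Field F] [Field K] [Algebra F K] (dl : Derivation ℤ K K) (l0 l1 : K)
    (r0 r1 : Polynomial K) (p : Polynomial (MvPolynomial (Fin 3) F)) (hp : p.Monic)
    (v : PowerSeries (AlgebraicClosure K)) : v ∈ VS dl l0 l1 r0 r1 p ↔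
      ∃ x ∈ (r0.map (algebraMap K (AlgebraicClosure K))).roots,
      ∃ y ∈ (r1.map (algebraMap K (AlgebraicClosure K))).roots,
        Polynomial.eval₂ (phi dl l0 l1 x y) v p = 0 := by
  unfold VS
  simp only [Finset.mem_biUnion, Multiset.mem_toFinset]
  refine exists_congr fun x => and_congr_right fun _ => exists_congr fun y =>
    and_congr_right fun _ => ?_
  rw [Polynomial.mem_roots (hp.map _).ne_zero, Polynomial.IsRoot.def, Polynomial.eval_map]

theorem card_VS {F K : Type} [Field F] [Field K] [Algebra F K] (dl : Derivation ℤ K K) (l0 l1 : K)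
    (r0 r1 : Polynomial K) (p : Polynomial (MvPolynomial (Fin 3) F)) (B : ℕ)
    (h0 : r0.natDegree ≤ B) (h1 : r1.natDegree ≤ B) :
    (VS dl l0 l1 r0 r1 p).card ≤ B * (B * p.natDegree) := by
  classical
  have hr : ∀ r : Polynomial K, r.natDegree ≤ B →
      (r.map (algebraMap K (AlgebraicClosure K))).roots.toFinset.card ≤ B := by
    intro r hr
    refine (Multiset.toFinset_card_le _).trans ((Polynomial.card_roots' _).trans ?_)
    exact (Polynomial.natDegree_map_le).trans hr
  unfold VS
  refine (Finset.card_biUnion_le_card_mul _ _ (B * p.natDegree) fun x _ => ?_).trans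
    (Nat.mul_le_mul_right _ (hr r0 h0))
  refine (Finset.card_biUnion_le_card_mul _ _ p.natDegree fun y _ => ?_).trans
    (Nat.mul_le_mul_right _ (hr r1 h1))
  refine (Multiset.toFinset_card_le _).trans ((Polynomial.card_roots' _).trans ?_)
  exact Polynomial.natDegree_map_le

theorem tay_unit {K R Om : Type} [Field K] [CommRing R] [Algebra K R] [Field Om]
    (dl : Derivation ℤ K K) (dR : Derivation ℤ R R)
    (hc : ∀ a : K, dR (algebraMap K R a) = algebraMap K R (dl a))
    (th : R →+* Om) (io : AlgebraicClosure K →+* Om)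
    (hio : ∀ a : K, io (algebraMap K (AlgebraicClosure K) a) = th (algebraMap K R a))
    (l : K) (u : R) (hu : dR u = algebraMap K R l * u) :
    tay dR th u = PowerSeries.C (th u) * PowerSeries.map io (US dl l) := by
  ext n
  rw [PowerSeries.coeff_C_mul, PowerSeries.coeff_map]
  unfold tay US
  rw [PowerSeries.coeff_mk, PowerSeries.coeff_mk, iter_kp dl dR hc l u hu n, map_mul, map_mul,
    map_inv₀, map_natCast, hio]
  ring

theorem tay_const {K R Om : Type} [Field K] [CommRing R] [Algebra K R] [Field Om]
    (dl : Derivation ℤ K K) (dR : Derivation ℤ R R)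
    (hc : ∀ a : K, dR (algebraMap K R a) = algebraMap K R (dl a))
    (th : R →+* Om) (a : K) (ha : dl a = 0) :
    tay dR th (algebraMap K R a) = PowerSeries.C (th (algebraMap K R a)) := by
  ext n
  rw [PowerSeries.coeff_C]
  unfold tay
  rw [PowerSeries.coeff_mk]
  cases n with
  | zero => simp
  | succ n =>
    have h0 : dR (algebraMap K R a) = 0 := by rw [hc, ha, map_zero]
    have hz : ∀ n : ℕ, (dR : R → R)^[n] 0 = 0 := by
      intro n
      induction n with
      | zero => rfl
      | succ n ih => rw [Function.iterate_succ_apply, map_zero, ih]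
    rw [Function.iterate_succ_apply, h0, hz, map_zero, mul_zero, if_neg (Nat.succ_ne_zero n)]

end

end BSerx

open BSerx in
theorem Ser_proof (h1 : S_Tay) (h2 : S_Rt) (h3 : S_Int) : S_Ser := by
  intro F _ _ _ Q dg hQ B
  obtain ⟨_, _, h3⟩ := h3 F Q dg hQ
  obtain ⟨p, hp, hpe⟩ := h3 (Jac Q)
  refine ⟨B * (B * p.natDegree), ?_⟩
  intro K _ _ _ dl hdl l0 l1 r0 r1 hr0 hr1 hd0 hd1
  refine ⟨VS dl l0 l1 r0 r1 p, card_VS dl l0 l1 r0 r1 p B hd0 hd1, ?_, ?_⟩
  · intro s v hv
    set s' : AlgebraicClosure K →+* AlgebraicClosure K :=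
      ((s : AlgebraicClosure K →ₐ[K] AlgebraicClosure K) :
        AlgebraicClosure K →+* AlgebraicClosure K) with hs'
    have hs : ∀ a : K, s' (algebraMap K _ a) = algebraMap K _ a := fun a => s.commutes a
    rw [mem_VS dl l0 l1 r0 r1 p hp] at hv ⊢
    obtain ⟨x, hx, y, hy, he⟩ := hv
    refine ⟨s' x, root_aut r0 s' hs x hx, s' y, root_aut r1 s' hs y hy, ?_⟩
    have h4 := Polynomial.hom_eval₂ p (phi dl l0 l1 x y) (PowerSeries.map s') v
    rw [he, map_zero, map_phi dl l0 l1 x y s' hs] at h4
    exact h4.symm
  · intro R _ _ dR hc q hu0 hu1 hu2 Om _ _ th ht0 ht1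
    let _ : Algebra K Om := (th.comp (algebraMap K R)).toAlgebra
    have _ : CharZero Om := charZero_of_injective_algebraMap (algebraMap K Om).injective
    let io' : AlgebraicClosure K →ₐ[K] Om := IsAlgClosed.lift
    let io : AlgebraicClosure K →+* Om := io'.toRingHom
    have hio : ∀ a : K, io (algebraMap K (AlgebraicClosure K) a) = th (algebraMap K R a) :=
      fun a => io'.commutes a
    have hcomp : io.comp (algebraMap K (AlgebraicClosure K)) = th.comp (algebraMap K R) :=
      RingHom.ext hio
    refine ⟨io, hio, ?_⟩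
    have hroot : ∀ (r : Polynomial K), r ≠ 0 → ∀ u : R, th (Polynomial.aeval u r) = 0 →
        ∃ x ∈ (r.map (algebraMap K (AlgebraicClosure K))).roots, io x = th u := by
      intro r hr u hu
      refine root_lift io r hr (th u) ?_
      rw [hcomp, ← Polynomial.hom_eval₂]
      rw [← Polynomial.aeval_def]
      exact hu
    obtain ⟨x, hx, hxe⟩ := hroot r0 hr0 _ ht0
    obtain ⟨y, hy, hye⟩ := hroot r1 hr1 _ ht1
    -- the Taylor homomorphism
    obtain ⟨t0, t1, ta, tm, _⟩ := h1 R Om dR th
    let T : R →+* PowerSeries Om :=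
      { toFun := tay dR th
        map_one' := t1
        map_mul' := tm
        map_zero' := t0
        map_add' := ta }
    let psi : MvPolynomial (Fin 3) F →+* R :=
      (aeval q : MvPolynomial (Fin 3) K →ₐ[K] R).toRingHom.comp
        (MvPolynomial.map (algebraMap F K))
    have hpsi : ∀ P, psi P = vq K q P := fun P => rfl
    have hcmp : (T.comp psi).comp ((aeval Q : MvPolynomial (Fin 3) F →ₐ[F]
        MvPolynomial (Fin 3) F) : MvPolynomial (Fin 3) F →+* MvPolynomial (Fin 3) F) =
        (PowerSeries.map io).comp (phi dl l0 l1 x y) := by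
      refine MvPolynomial.ringHom_ext (fun a => ?_) fun i => ?_
      · show T (psi (((aeval Q : MvPolynomial (Fin 3) F →ₐ[F] MvPolynomial (Fin 3) F) :
            MvPolynomial (Fin 3) F →+* MvPolynomial (Fin 3) F) (C a))) =
          PowerSeries.map io (phi dl l0 l1 x y (C a))
        rw [phi_C, PowerSeries.map_C, hio]
        have e1 : ((aeval Q : MvPolynomial (Fin 3) F →ₐ[F] MvPolynomial (Fin 3) F) :
            MvPolynomial (Fin 3) F →+* MvPolynomial (Fin 3) F) (C a) = C a :=
          (aeval Q : MvPolynomial (Fin 3) F →ₐ[F] MvPolynomial (Fin 3) F).commutes a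
        have e2 : psi (C a) = algebraMap K R (algebraMap F K a) := by
          show aeval q (MvPolynomial.map (algebraMap F K) (C a)) = _
          rw [MvPolynomial.map_C, MvPolynomial.aeval_C]
        rw [e1, e2]
        exact tay_const dl dR hc th (algebraMap F K a) (hdl a)
      · show T (psi (((aeval Q : MvPolynomial (Fin 3) F →ₐ[F] MvPolynomial (Fin 3) F) :
            MvPolynomial (Fin 3) F →+* MvPolynomial (Fin 3) F) (X i))) =
          PowerSeries.map io (phi dl l0 l1 x y (X i))
        rw [phi_X]
        have e1 : ((aeval Q : MvPolynomial (Fin 3) F →ₐ[F] MvPolynomial (Fin 3) F) :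
            MvPolynomial (Fin 3) F →+* MvPolynomial (Fin 3) F) (X i) = Q i :=
          MvPolynomial.aeval_X Q i
        rw [e1, hpsi]
        show tay dR th (vq K q (Q i)) = _
        fin_cases i
        · show tay dR th (vq K q (Q 0)) = PowerSeries.map io (PowerSeries.C x * US dl l0)
          rw [map_mul, PowerSeries.map_C, hxe]
          exact tay_unit dl dR hc th io hio l0 _ hu0
        · show tay dR th (vq K q (Q 1)) = PowerSeries.map io (PowerSeries.C y * US dl l1)
          rw [map_mul, PowerSeries.map_C, hye]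
          exact tay_unit dl dR hc th io hio l1 _ hu1
        · show tay dR th (vq K q (Q 2)) = PowerSeries.map io 1
          rw [map_one, hu2]
          exact t1
    have hev : Polynomial.eval₂ ((PowerSeries.map io).comp (phi dl l0 l1 x y))
        (tay dR th (vq K q (Jac Q))) p = 0 := by
      rw [← hcmp]
      have h4 := Polynomial.hom_eval₂ p ((aeval Q : MvPolynomial (Fin 3) F →ₐ[F]
        MvPolynomial (Fin 3) F) : MvPolynomial (Fin 3) F →+* MvPolynomial (Fin 3) F)
        (T.comp psi) (Jac Q)
      rw [hpe, map_zero] at h4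
      exact h4.symm
    let _ : Algebra (AlgebraicClosure K) Om := io.toAlgebra
    have hr := h2 (AlgebraicClosure K) Om (p.map (phi dl l0 l1 x y)) (hp.map _)
      (tay dR th (vq K q (Jac Q))) (by rw [Polynomial.eval₂_map]; exact hev)
    obtain ⟨v', hv'⟩ := hr
    have hv'' : tay dR th (vq K q (Jac Q)) = PowerSeries.map io v' := hv'
    refine ⟨v', ?_, hv''⟩
    rw [mem_VS dl l0 l1 r0 r1 p hp]
    refine ⟨x, hx, y, hy, ?_⟩
    apply PowerSeries.map_injective io io.injective
    rw [Polynomial.hom_eval₂, map_zero, ← hv'']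
    exact hev

end Pool.Agent.Work.MP_6d7a54_an.NF
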