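import Pool.Agent.Work.MP_6d7a54_an.NF.StmtsB

/-!
# First step: a multiplicative relation modulo small elements
-/

namespace Pool.Agent.Work.MP_6d7a54_an.NF

open MvPolynomial

noncomputable section

namespace BSt1x

theorem weight3 (dg : Fin 3 → ℕ) (m : Fin 3 →₀ ℕ) :
    Finsupp.weight dg m = m 0 * dg 0 + m 1 * dg 1 + m 2 * dg 2 := by
  rw [Finsupp.weight_apply, Finsupp.sum_fintype _ _ (by simp), Fin.sum_univ_three]
  simp only [smul_eq_mul]

theorem tool (h1 : S_Bor) {F K R : Type} [Field F] [Field K] [CommRing R] [IsDomain R]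
    [Algebra F K] [Algebra K R] {dl : Derivation ℤ K K} {dR : Derivation ℤ R R}
    (hNR : NR F K R dl dR) (Q : Fin 3 → MvPolynomial (Fin 3) F) (dg : Fin 3 → ℕ)
    (hpos : ∀ a, 1 ≤ dg a) (q : Fin 3 → R) (hq : Pt K Q q) (P c : MvPolynomial (Fin 3) K)
    (B : ℕ) (hc : c ≠ 0) (hcw : c.IsWeightedHomogeneous dg B)
    (hdvd : P ∣ aeval (fun a => bc K (Q a)) c) (hP : aeval q P = 0) :
    ∃ al be : ℕ × ℕ, al ≠ be ∧ al.1 ≤ B ∧ al.2 ≤ B ∧ be.1 ≤ B ∧ be.2 ≤ B ∧
    ∃ b : K, vq K q (Q 0) ^ al.1 * vq K q (Q 1) ^ al.2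
      = algebraMap K R b * (vq K q (Q 0) ^ be.1 * vq K q (Q 1) ^ be.2) := by
  have hv : aeval q (aeval (fun a => bc K (Q a)) c) = 0 := by
    obtain ⟨d, hd⟩ := hdvd
    rw [hd, map_mul, hP, zero_mul]
  have hv2 : aeval q (aeval (fun a => bc K (Q a)) c) = aeval (fun a => vq K q (Q a)) c := by
    rw [← AlgHom.comp_apply]
    congr 1
    apply MvPolynomial.algHom_ext
    intro i
    simp [vq]
  have hsum : ∑ m ∈ c.support, algebraMap K R (coeff m c) *
      (vq K q (Q 0) ^ (m 0) * vq K q (Q 1) ^ (m 1)) = 0 := by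
    rw [hv2, MvPolynomial.aeval_def, MvPolynomial.eval₂_eq'] at hv
    rw [← hv]
    refine Finset.sum_congr rfl fun m _ => ?_
    rw [Fin.prod_univ_three]
    have h2 : vq K q (Q 2) = 1 := hq.u2
    rw [h2, one_pow, mul_one]
  have hsum2 : ∑ i : {m // m ∈ c.support}, algebraMap K R (coeff i.1 c) *
      (vq K q (Q 0) ^ (i.1 0) * vq K q (Q 1) ^ (i.1 1)) = 0 := by
    rw [← hsum]
    exact Finset.sum_coe_sort c.support (fun m => algebraMap K R (coeff m c) *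
      (vq K q (Q 0) ^ (m 0) * vq K q (Q 1) ^ (m 1)))
  have hne : c.support.Nonempty := by
    rw [Finset.nonempty_iff_ne_empty]
    intro h
    exact hc (MvPolynomial.support_eq_empty.mp h)
  obtain ⟨m0, hm0⟩ := hne
  obtain ⟨i, j, hij, -, -, b, hb⟩ := h1 F K R dl dR hNR {m // m ∈ c.support}
    (fun i => vq K q (Q 0) ^ (i.1 0) * vq K q (Q 1) ^ (i.1 1)) (fun i => coeff i.1 c)
    (fun i => (hq.u0.pow _).mul (hq.u1.pow _)) hsum2
    ⟨⟨m0, hm0⟩, MvPolynomial.mem_support_iff.mp hm0⟩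
  have hw : ∀ m : {m // m ∈ c.support}, m.1 0 * dg 0 + m.1 1 * dg 1 + m.1 2 * dg 2 = B := by
    intro m
    rw [← weight3]
    exact hcw (MvPolynomial.mem_support_iff.mp m.2)
  have hbd : ∀ m : {m // m ∈ c.support}, m.1 0 ≤ B ∧ m.1 1 ≤ B := by
    intro m
    have h := hw m
    have e0 : m.1 0 ≤ m.1 0 * dg 0 := Nat.le_mul_of_pos_right _ (hpos 0)
    have e1 : m.1 1 ≤ m.1 1 * dg 1 := Nat.le_mul_of_pos_right _ (hpos 1)
    constructor <;> omega
  refine ⟨(i.1 0, i.1 1), (j.1 0, j.1 1), ?_, (hbd i).1, (hbd i).2, (hbd j).1, (hbd j).2,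
    b, hb⟩
  intro h
  have h0 : i.1 0 = j.1 0 := congrArg Prod.fst h
  have h1' : i.1 1 = j.1 1 := congrArg Prod.snd h
  have h2 : i.1 2 = j.1 2 := by
    have ei := hw i
    have ej := hw j
    rw [h0, h1'] at ei
    have : i.1 2 * dg 2 = j.1 2 * dg 2 := by omega
    exact Nat.eq_of_mul_eq_mul_right (hpos 2) this
  apply hij
  apply Subtype.ext
  ext a
  fin_cases a
  · exact h0
  · exact h1'
  · exact h2

theorem bc_Jac {F : Type} (K : Type) [Field F] [Field K] [Algebra F K]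
    (Q : Fin 3 → MvPolynomial (Fin 3) F) : bc K (Jac Q) = Jac (fun a => bc K (Q a)) := by
  unfold Jac bc
  rw [RingHom.map_det]
  congr 1
  ext a j : 2
  simp only [Jm, RingHom.mapMatrix_apply, Matrix.map_apply, Matrix.of_apply,
    MvPolynomial.pderiv_map]

theorem dc_bc {F K : Type} [Field F] [Field K] [Algebra F K] (dl : Derivation ℤ K K)
    (h : ∀ a : F, dl (algebraMap F K a) = 0) (P : MvPolynomial (Fin 3) F) :
    dc dl (bc K P) = 0 := by
  unfold dc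
  refine Finset.sum_eq_zero fun m _ => ?_
  rw [MvPolynomial.coeff_map, h, map_zero]

theorem not_unit {K : Type} [Field K] (J : MvPolynomial (Fin 3) K) (e : ℕ) (he : 1 ≤ e)
    (hJ : J.IsHomogeneous e) : ¬ IsUnit J := by
  intro h
  have h2 : IsUnit (constantCoeff J) := h.map constantCoeff
  have h3 : constantCoeff J = 0 := by
    rw [constantCoeff_eq]
    by_contra h4
    have := hJ h4
    simp at this
    omega
  rw [h3] at h2
  exact not_isUnit_zero h2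

theorem PE_hom {K : Type} [Field K] (dl : Derivation ℤ K K) (J : MvPolynomial (Fin 3) K)
    (V : Fin 3 → MvPolynomial (Fin 3) K) (e : ℕ) (hJ : J.IsHomogeneous e)
    (hPP : ∀ i : ℕ, (PP dl J V i).IsHomogeneous (e + 2 * i * e)) (M : ℕ) (A : Fin M → K)
    (A0 : K) : (PE dl J V M A A0).IsHomogeneous ((2 * M + 1) * e) := by
  unfold PE
  refine IsHomogeneous.sub ?_ ?_
  · refine IsHomogeneous.sum _ _ _ fun i _ => ?_
    have h1 := ((isHomogeneous_C (Fin 3) (A i)).mul (hPP ((i : ℕ) + 1))).mul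
      (hJ.pow (2 * (M - ((i : ℕ) + 1))))
    have h2 : 0 + (e + 2 * ((i : ℕ) + 1) * e) + e * (2 * (M - ((i : ℕ) + 1)))
        = (2 * M + 1) * e := by
      obtain ⟨k, hk⟩ : ∃ k, M = ((i : ℕ) + 1) + k := ⟨M - ((i : ℕ) + 1), by have := i.2; omega⟩
      have hk2 : M - ((i : ℕ) + 1) = k := by omega
      rw [hk2]
      have : (2 * M + 1) * e = (2 * (((i : ℕ) + 1) + k) + 1) * e := by rw [← hk]
      rw [this]
      ring
    rw [h2] at h1
    exact h1
  · have h1 := (isHomogeneous_C (Fin 3) A0).mul (hJ.pow (2 * M + 1))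
    have h2 : 0 + e * (2 * M + 1) = (2 * M + 1) * e := by ring
    rw [h2] at h1
    exact h1

theorem PE_val {K R : Type} [Field K] [CommRing R] [Algebra K R] (dl : Derivation ℤ K K)
    (dR : Derivation ℤ R R) (J : MvPolynomial (Fin 3) K) (V : Fin 3 → MvPolynomial (Fin 3) K)
    (q : Fin 3 → R)
    (hPP : ∀ i : ℕ, aeval q J ^ (2 * i) * ((dR : R → R)^[i] (aeval q J)) = aeval q (PP dl J V i))
    (M : ℕ) (A : Fin M → K) (A0 : K)
    (hA : ∑ i, algebraMap K R (A i) * ((dR : R → R)^[(i : ℕ) + 1] (aeval q J))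
      = algebraMap K R A0 * aeval q J) : aeval q (PE dl J V M A A0) = 0 := by
  have e1 : aeval q (PE dl J V M A A0) = ∑ i : Fin M, algebraMap K R (A i) *
      aeval q (PP dl J V ((i : ℕ) + 1)) * aeval q J ^ (2 * (M - ((i : ℕ) + 1)))
      - algebraMap K R A0 * aeval q J ^ (2 * M + 1) := by
    simp only [PE, map_sub, map_sum, map_mul, map_pow, MvPolynomial.aeval_C]
  have e2 : ∑ i : Fin M, algebraMap K R (A i) *
      aeval q (PP dl J V ((i : ℕ) + 1)) * aeval q J ^ (2 * (M - ((i : ℕ) + 1)))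
      = aeval q J ^ (2 * M) *
        ∑ i, algebraMap K R (A i) * ((dR : R → R)^[(i : ℕ) + 1] (aeval q J)) := by
    rw [Finset.mul_sum]
    refine Finset.sum_congr rfl fun i _ => ?_
    rw [← hPP ((i : ℕ) + 1)]
    have h3 : 2 * M = 2 * ((i : ℕ) + 1) + 2 * (M - ((i : ℕ) + 1)) := by
      have := i.2
      omega
    rw [h3, pow_add]
    have h4 : 2 * ((i : ℕ) + 1) + 2 * (M - ((i : ℕ) + 1)) = 2 * M := h3.symm
    ring
  rw [e1, e2, hA]
  ring

end BSt1x

open BSt1x in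
theorem St1_proof (h1 : S_Bor) (h2 : S_Elim) (h3 : S_JH) (h4 : S_F3b) (h5 : S_Int) (h6 : S_qd)
    (h7 : S_ODE) (h8 : S_PP) (h9 : S_NZ) : S_St1 := by
  intro F _ _ _ Q dg NC
  obtain ⟨M, hM⟩ := h7 F Q dg NC
  have he : 1 ≤ ∑ a, dg a - 3 := by
    have := NC.deg
    omega
  obtain ⟨B1, hB1⟩ := h2 dg (∑ a, dg a - 3) NC.pos
  obtain ⟨B2, hB2⟩ := h2 dg ((2 * M + 1) * (∑ a, dg a - 3)) NC.pos
  refine ⟨1 + B1 + B2, ?_⟩
  intro K R _ _ _ _ _ _ dl dR hNR q hq
  have hhom : ∀ a, (bc K (Q a)).IsHomogeneous (dg a) := fun a => (NC.hom a).map _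
  obtain ⟨hJhom, hVhom, -⟩ := h3 K (fun a => bc K (Q a)) dg hhom NC.pos
  have hJ0 : Jac (fun a => bc K (Q a)) ≠ 0 := by
    rw [← bc_Jac]
    have h := (h5 F Q dg NC).1
    intro h0
    apply h
    apply MvPolynomial.map_injective (algebraMap F K) (algebraMap F K).injective
    rw [map_zero]
    exact h0
  have hwJ : vq K q (Jac Q) = aeval q (Jac (fun a => bc K (Q a))) := by
    unfold vq
    rw [bc_Jac]
  by_cases hu0 : InK K (vq K q (Q 0))
  · obtain ⟨b, hb⟩ := hu0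
    exact ⟨(1, 0), (0, 0), by simp, by show 1 ≤ 1 + B1 + B2; omega, Nat.zero_le _, Nat.zero_le _,
      Nat.zero_le _, b, by simp [hb]⟩
  by_cases hw : vq K q (Jac Q) = 0
  · obtain ⟨c, hc, hcw, hcd⟩ := hB1 K (fun a => bc K (Q a)) hhom _ hJ0 hJhom
    obtain ⟨al, be, hne, a1, a2, a3, a4, hb⟩ := tool h1 hNR Q dg NC.pos q hq _ c B1 hc hcw hcd
      (by rw [← hwJ]; exact hw)
    exact ⟨al, be, hne, by omega, by omega, by omega, by omega, hb⟩
  obtain ⟨A, A0, hA, hAe⟩ := hM K R dl dR hNR q hq hu0 hw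
  obtain ⟨l0, hl0⟩ := hNR.unit _ hq.u0
  obtain ⟨l1, hl1⟩ := hNR.unit _ hq.u1
  have hl : ∀ a, dR (vq K q (Q a)) = algebraMap K R (![l0, l1, 0] a) * vq K q (Q a) := by
    intro a
    fin_cases a
    · exact hl0
    · exact hl1
    · show dR (vq K q (Q 2)) = algebraMap K R 0 * vq K q (Q 2)
      rw [hq.u2, map_zero, zero_mul]
      exact dR.map_one_eq_zero
  have hqd := (h6 F K R dl dR hNR Q q ![l0, l1, 0] hl).2
  have hdc : dc dl (Jac (fun a => bc K (Q a))) = 0 := by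
    rw [← bc_Jac]
    exact dc_bc dl hNR.c0 _
  obtain ⟨g1, g2⟩ := h8 K dl (Jac (fun a => bc K (Q a))) (VV (fun a => bc K (Q a)) ![l0, l1, 0])
    hdc
  have hPP := g1 R dR hNR.comp q (fun j => by rw [← hwJ]; exact hqd j)
  have hPPh := g2 _ he hJhom (fun j => hVhom ![l0, l1, 0] j)
  have hl0ne : l0 ≠ 0 := by
    intro h0
    apply hu0
    apply hNR.const _ 1 hq.u0 one_ne_zero
    rw [map_one, one_mul, hl0, h0, map_zero, zero_mul]
  obtain ⟨h, hirr, hhd⟩ := WfDvdMonoid.exists_irreducible_factor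
    (not_unit _ _ he hJhom) hJ0
  have hnot := h4 F Q dg NC K ![l0, l1, 0] ⟨0, 2, by
    show l0 * (dg 2 : K) ≠ 0 * (dg 0 : K)
    rw [zero_mul]
    refine mul_ne_zero hl0ne ?_
    have := NC.pos 2
    exact Nat.cast_ne_zero.mpr (by omega)⟩ h hirr hhd
  have hPE := h9 K dl _ h (VV (fun a => bc K (Q a)) ![l0, l1, 0]) hJ0 hirr hhd hnot M A A0 hA
  obtain ⟨c, hc, hcw, hcd⟩ := hB2 K (fun a => bc K (Q a)) hhom _ hPE
    (PE_hom dl _ _ _ hJhom hPPh M A A0)
  obtain ⟨al, be, hne, a1, a2, a3, a4, hb⟩ := tool h1 hNR Q dg NC.pos q hq _ c B2 hc hcw hcd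
    (PE_val dl dR _ _ q hPP M A A0 (by rw [← hwJ]; exact hAe))
  exact ⟨al, be, hne, by omega, by omega, by omega, by omega, hb⟩

end

end Pool.Agent.Work.MP_6d7a54_an.NF
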