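import Pool.Agent.Work.MP_6d7a54_an.NF.StmtsB

/-!
# The second step (MP_6d7a54_an)
-/

namespace Pool.Agent.Work.MP_6d7a54_an.NF

open MvPolynomial

noncomputable section

namespace BSt2x

theorem map_zp {R L : Type} [CommRing R] [Field L] (f : R →+* L) (u : Rˣ) (n : ℤ) :
    f ((u ^ n : Rˣ) : R) = (f (u : R)) ^ n := by
  have h1 : f ((u ^ n : Rˣ) : R) = ((Units.map (f : R →* L) (u ^ n) : Lˣ) : L) := rfl
  rw [h1, map_zpow, Units.val_zpow_eq_zpow_val]
  rfl

theorem alg_zp {K R : Type} [Field K] [CommRing R] [Algebra K R] (x : K) (hx : x ≠ 0) (n : ℤ) :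
    (((Units.map (algebraMap K R : K →* R) (Units.mk0 x hx)) ^ n : Rˣ) : R)
      = algebraMap K R (x ^ n) := by
  rw [← map_zpow, Units.coe_map, Units.val_zpow_eq_zpow_val]
  rfl

theorem vq_map {F K R L : Type} [Field F] [Field K] [CommRing R] [Field L] [Algebra F K]
    [Algebra K R] [Algebra K L] [Algebra R L] [IsScalarTower K R L] (q : Fin 3 → R)
    (P : MvPolynomial (Fin 3) F) :
    vq K (fun j => algebraMap R L (q j)) P = algebraMap R L (vq K q P) := by
  unfold vq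
  exact aeval_algebraMap_apply L q (bc K P)

end BSt2x

open BSt2x in
theorem St2_proof (h1 : S_2A) (h2 : S_2B) (h3 : S_Mon) : S_St2 := by
  classical
  intro F _ _ _ Q dg hQ i0 i1 hco
  obtain ⟨a, b, hab⟩ := hco
  set i : Fin 3 → ℤ := ![(dg 2 : ℤ) * i0, (dg 2 : ℤ) * i1,
    -((dg 0 : ℤ) * i0 + (dg 1 : ℤ) * i1)] with hi
  have hi0 : i 0 = (dg 2 : ℤ) * i0 := rfl
  have hi1 : i 1 = (dg 2 : ℤ) * i1 := rfl
  have hi2 : i 2 = -((dg 0 : ℤ) * i0 + (dg 1 : ℤ) * i1) := rfl
  have hd2 : (dg 2 : ℤ) ≠ 0 := by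
    have := hQ.pos 2
    omega
  have hne : i0 ≠ 0 ∨ i1 ≠ 0 := by
    by_contra hcon
    push Not at hcon
    rw [hcon.1, hcon.2] at hab
    simp at hab
  have hin : i ≠ 0 := by
    intro h
    have e0 := congrFun h 0
    have e1 := congrFun h 1
    rw [hi0, Pi.zero_apply] at e0
    rw [hi1, Pi.zero_apply] at e1
    rcases hne with hn | hn
    · exact (mul_ne_zero hd2 hn) e0
    · exact (mul_ne_zero hd2 hn) e1
  have hsum : ∑ a, i a * (dg a : ℤ) = 0 := by
    rw [Fin.sum_univ_three, hi0, hi1, hi2]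
    ring
  obtain ⟨ZA, hZA⟩ := h1 F Q dg hQ i hin hsum
  obtain ⟨ZB, hZB⟩ := h2 F Q dg hQ i hin hsum
  refine ⟨ZA ∪ ZB, ?_⟩
  intro K R _ _ _ _ _ _ dl dR hNR q U0 U1 hU0 hU1 hQ2 hJ xi hxi
  have hx0 : xi ≠ 0 := by
    intro h
    rw [h, map_zero] at hxi
    exact (Units.ne_zero _) hxi
  set Xu : Rˣ := Units.map (algebraMap K R : K →* R) (Units.mk0 xi hx0) with hXu
  have hX : U0 ^ i0 * U1 ^ i1 = Xu := by
    apply Units.ext
    rw [hxi]
    rfl
  set tau : Rˣ := U0 ^ (-b) * U1 ^ a with htau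
  have e0 : U0 = Xu ^ a * tau ^ (-i1) := by
    rw [← hX, htau, mul_zpow, mul_zpow, ← zpow_mul, ← zpow_mul, ← zpow_mul, ← zpow_mul]
    have : U0 ^ (i0 * a) * U1 ^ (i1 * a) * (U0 ^ (-b * -i1) * U1 ^ (a * -i1)) =
        U0 ^ (i0 * a + (-b * -i1)) * U1 ^ (i1 * a + a * -i1) := by
      rw [zpow_add, zpow_add]
      exact mul_mul_mul_comm _ _ _ _
    rw [this]
    have e3 : i0 * a + (-b * -i1) = 1 := by linarith
    have e4 : i1 * a + a * -i1 = 0 := by ring
    rw [e3, e4, zpow_one, zpow_zero, mul_one]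
  have e1 : U1 = Xu ^ b * tau ^ i0 := by
    rw [← hX, htau, mul_zpow, mul_zpow, ← zpow_mul, ← zpow_mul, ← zpow_mul, ← zpow_mul]
    have : U0 ^ (i0 * b) * U1 ^ (i1 * b) * (U0 ^ (-b * i0) * U1 ^ (a * i0)) =
        U0 ^ (i0 * b + (-b * i0)) * U1 ^ (i1 * b + a * i0) := by
      rw [zpow_add, zpow_add]
      exact mul_mul_mul_comm _ _ _ _
    rw [this]
    have e3 : i0 * b + (-b * i0) = 0 := by ring
    have e4 : i1 * b + a * i0 = 1 := by linarith
    rw [e3, e4, zpow_one, zpow_zero, one_mul]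
  set kap : Fin 3 → K := ![xi ^ a, xi ^ b, 1] with hkap
  have hk0 : kap 0 = xi ^ a := rfl
  have hk1 : kap 1 = xi ^ b := rfl
  have hk2 : kap 2 = 1 := rfl
  set m : Fin 3 → ℤ := ![-i1, i0, 0] with hm
  have hm0 : m 0 = -i1 := rfl
  have hm1 : m 1 = i0 := rfl
  have hm2 : m 2 = 0 := rfl
  have hval0 : (U0 : R) = algebraMap K R (xi ^ a) * ((tau ^ (-i1) : Rˣ) : R) := by
    rw [← alg_zp xi hx0 a, ← hXu, ← Units.val_mul, ← e0]
  have hval1 : (U1 : R) = algebraMap K R (xi ^ b) * ((tau ^ i0 : Rˣ) : R) := by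
    rw [← alg_zp xi hx0 b, ← hXu, ← Units.val_mul, ← e1]
  have hval : ∀ c, vq K q (Q c) = algebraMap K R (kap c) * ((tau ^ (m c) : Rˣ) : R) := by
    intro c
    fin_cases c
    · change vq K q (Q 0) = algebraMap K R (kap 0) * ((tau ^ (m 0) : Rˣ) : R)
      rw [hk0, hm0, ← hval0, hU0]
    · change vq K q (Q 1) = algebraMap K R (kap 1) * ((tau ^ (m 1) : Rˣ) : R)
      rw [hk1, hm1, ← hval1, hU1]
    · change vq K q (Q 2) = algebraMap K R (kap 2) * ((tau ^ (m 2) : Rˣ) : R)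
      rw [hk2, hm2, hQ2]
      simp
  have hkn : ∀ c, kap c ≠ 0 := by
    intro c
    fin_cases c
    · exact zpow_ne_zero _ hx0
    · exact zpow_ne_zero _ hx0
    · exact one_ne_zero
  have hmn : m ≠ 0 := by
    intro h
    have f0 := congrFun h 0
    have f1 := congrFun h 1
    rw [hm0, Pi.zero_apply, neg_eq_zero] at f0
    rw [hm1, Pi.zero_apply] at f1
    rcases hne with hn | hn
    · exact hn f1
    · exact hn f0
  have him : ∑ c, i c * m c = 0 := by
    rw [Fin.sum_univ_three, hi0, hi1, hi2, hm0, hm1, hm2]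
    ring
  have hprod : ∏ c, kap c ^ (i c) = xi ^ (dg 2) := by
    rw [Fin.prod_univ_three, hk0, hk1, hk2, hi0, hi1, one_zpow, mul_one, ← zpow_mul, ← zpow_mul,
      ← zpow_add₀ hx0, ← zpow_natCast]
    congr 1
    linear_combination (dg 2 : ℤ) * hab
  by_cases hin2 : InK K (tau : R)
  · left
    obtain ⟨t, ht⟩ := hin2
    have ht0 : t ≠ 0 := by
      intro h
      rw [h, map_zero] at ht
      exact (Units.ne_zero _) ht
    have htu : tau = Units.map (algebraMap K R : K →* R) (Units.mk0 t ht0) := by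
      apply Units.ext
      rw [ht]
      rfl
    constructor
    · refine ⟨xi ^ a * t ^ (-i1), ?_⟩
      rw [hval0, htu, alg_zp, map_mul]
    · refine ⟨xi ^ b * t ^ i0, ?_⟩
      rw [hval1, htu, alg_zp, map_mul]
  · right
    have hPt : Pt K Q q := ⟨by rw [← hU0]; exact U0.isUnit, by rw [← hU1]; exact U1.isUnit, hQ2⟩
    by_cases hw : IsUnit (vq K q (Jac Q))
    · obtain ⟨w, hw⟩ := hw
      obtain ⟨htr, hmon⟩ := h3 F Q dg hQ K R dl dR hNR q m kap tau hkn hval hin2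
      obtain ⟨N, k, kJ, hN, hkJ, hwN⟩ := hmon w hw
      let L := FractionRing R
      obtain ⟨c, hc, hcc⟩ := hZB K L (fun j => algebraMap R L (q j)) m kap
        (algebraMap R L (tau : R)) N k kJ hN hkJ hkn hm2 hmn him (by
          intro p hp
          rw [Polynomial.aeval_algebraMap_apply] at hp
          exact htr p ((IsFractionRing.injective R L) (by rw [hp, map_zero]))) (by
          intro c
          rw [vq_map, hval c, map_mul, map_zp, ← IsScalarTower.algebraMap_apply]) (by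
          rw [vq_map, ← hw, ← map_pow, ← Units.val_pow_eq_pow_val, hwN, map_mul, map_zp,
            ← IsScalarTower.algebraMap_apply])
      exact ⟨c, Finset.mem_union_right _ hc, by rw [← hprod, hcc]⟩
    · obtain ⟨c, hc, hcc⟩ := hZA K R dl dR hNR q m kap tau hPt hkn hm2 hmn him hval hin2 hw
      exact ⟨c, Finset.mem_union_left _ hc, by rw [← hprod, hcc]⟩

end

end Pool.Agent.Work.MP_6d7a54_an.NF
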