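import Pool.Agent.Work.MP_6d7a54_an.NF.StmtsB

/-!
# Item T3: the algebraic theorem (MP_6d7a54_an)
-/

set_option autoImplicit false

namespace Pool.Agent.Work.MP_6d7a54_an.NF

open MvPolynomial

noncomputable section

namespace BT3x

theorem io_vq {F K R L : Type} [Field F] [Field K] [CommRing R] [Field L] [Algebra F K]
    [Algebra K R] [Algebra F L] (io : R →+* L)
    (hc : ∀ a : F, io (algebraMap K R (algebraMap F K a)) = algebraMap F L a)
    (q' : Fin 3 → R) (q : Fin 3 → L) (hq : ∀ j, io (q' j) = q j)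
    (P : MvPolynomial (Fin 3) F) : io (vq K q' P) = aeval q P := by
  unfold vq bc
  induction P using MvPolynomial.induction_on with
  | C a => rw [map_C, aeval_C, aeval_C, hc]
  | add P P' h1 h2 => rw [map_add, map_add, map_add, map_add, h1, h2]
  | mul_X P i h => rw [map_mul, map_mul, map_mul, map_mul, h, map_X, aeval_X, aeval_X, hq]

end BT3x

theorem T3_proof (h1 : S_KS) (h2 : S_T3R) : S_T3 := by
  intro F _ _ _ Q dg hQ
  obtain ⟨B, nB, hB0, hBh, hB⟩ := h2 F Q dg hQ
  refine ⟨B, nB, hB0, hBh, ?_⟩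
  intro L _ _ D S Sm hN q hqS hqu hq2 hqB
  obtain ⟨K, R, iK, iR, iD, iFK, iKR, dl, dR, io, hinj, hS, hSm, hder, hcon, hNR⟩ :=
    h1 F L D S Sm hN
  have hK : CharZero K := charZero_of_injective_algebraMap (algebraMap F K).injective
  choose q' hq' using fun j => (hS (q j)).1 (hqS j)
  have hval : ∀ P : MvPolynomial (Fin 3) F, io (vq K q' P) = aeval q P :=
    fun P => BT3x.io_vq io hcon q' q hq' P
  have hunit : ∀ a : Fin 3, a ≠ 2 → IsUnit (vq K q' (Q a)) := by
    intro a ha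
    obtain ⟨h0, hi⟩ := hqu a ha
    obtain ⟨r, hr⟩ := (hS _).1 hi
    refine IsUnit.of_mul_eq_one r (hinj ?_)
    rw [map_mul, hval, hr, mul_inv_cancel₀ h0, map_one]
  have hPt : Pt K Q q' := by
    refine ⟨hunit 0 (by decide), hunit 1 (by decide), hinj ?_⟩
    rw [hval, hq2, map_one]
  have hne : vq K q' B ≠ 0 := by
    intro h
    apply hqB
    rw [← hval, h, map_zero]
  obtain ⟨k0, k1⟩ := hB K R dl dR hNR q' hPt hne
  have hIn : ∀ a : Fin 3, a ≠ 2 → InK K (vq K q' (Q a)) := by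
    intro a ha
    fin_cases a
    · exact k0
    · exact k1
    · exact absurd rfl ha
  intro a ha
  obtain ⟨b, hb⟩ := hIn a ha
  have e : io (algebraMap K R b) = aeval q (Q a) := by rw [← hb, hval]
  refine ⟨((hSm _).2 ⟨b, e⟩).2, ((hSm _).2 ⟨b⁻¹, ?_⟩).2⟩
  have h3 : (io.comp (algebraMap K R)) b⁻¹ = ((io.comp (algebraMap K R)) b)⁻¹ := map_inv₀ _ _
  simp only [RingHom.comp_apply] at h3
  rw [h3, e]

end

end Pool.Agent.Work.MP_6d7a54_an.NF
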