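import Pool.Agent.Work.MP_6d7a54_an.NF.StmtsB

/-!
# T3R: the algebraic theorem for Nevanlinna rings (MP_6d7a54_an)
-/

namespace Pool.Agent.Work.MP_6d7a54_an.NF

open MvPolynomial

namespace BT3Rx

/-! ### Values -/

section
variable {F K R : Type} [Field F] [Field K] [CommRing R] [Algebra F K] [Algebra K R]

/-- `vq` as a homomorphism -/
noncomputable def vh (F K : Type) {R : Type} [Field F] [Field K] [CommRing R] [Algebra F K]
    [Algebra K R] (q : Fin 3 → R) : MvPolynomial (Fin 3) F →+* R :=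
  ((aeval q : MvPolynomial (Fin 3) K →ₐ[K] R) : MvPolynomial (Fin 3) K →+* R).comp
    (MvPolynomial.map (algebraMap F K))

theorem vq_eq (q : Fin 3 → R) (P : MvPolynomial (Fin 3) F) : vq K q P = vh F K q P := rfl

theorem vh_C (q : Fin 3 → R) (c : F) :
    vh F K q (C c) = algebraMap K R (algebraMap F K c) := by
  unfold vh
  simp

end

/-! ### Common factors -/

theorem not_unit {F : Type} [Field F] {P : MvPolynomial (Fin 3) F} {n : ℕ}
    (h : P.IsHomogeneous n) (hn : 1 ≤ n) : ¬ IsUnit P := by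
  intro hu
  have h1 : IsUnit (constantCoeff P) := hu.map constantCoeff
  have h2 : constantCoeff P = 0 := by
    rw [constantCoeff_eq]
    by_contra hne
    have h3 := h hne
    simp at h3
    omega
  rw [h2] at h1
  exact not_isUnit_zero h1

theorem deg_pos {F : Type} [Field F] {h : MvPolynomial (Fin 3) F} {k : ℕ}
    (hi : Irreducible h) (hk : h.IsHomogeneous k) : 1 ≤ k := by
  by_contra hn
  have h0 : k = 0 := by omega
  subst h0
  have h1 : h.totalDegree = 0 := Nat.le_zero.1 hk.totalDegree_le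
  rw [totalDegree_eq_zero_iff_eq_C] at h1
  have h2 : coeff 0 h ≠ 0 := by
    intro h3
    rw [h3, C_0] at h1
    exact hi.ne_zero h1
  apply hi.not_isUnit
  rw [h1]
  exact (IsUnit.mk0 _ h2).map C

theorem nocommon (h0 : S_HF) (h1 : S_Bez) (h2 : S_JH) {F : Type} [Field F] [IsAlgClosed F]
    {Q : Fin 3 → MvPolynomial (Fin 3) F} {dg : Fin 3 → ℕ} (hn : NC3 Q dg)
    {h : MvPolynomial (Fin 3) F} (hi : Irreducible h) {a b : Fin 3} (hab : a ≠ b)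
    (ha : h ∣ Q a) (hb : h ∣ Q b) (hQa : Q a ≠ 0) : False := by
  obtain ⟨k, -, hhom⟩ := h0 F (Q a) h (dg a) hQa (hn.hom a) ha
  obtain ⟨w, hw, e1, e2⟩ := h1 F h (Jac Q) k (∑ a, dg a - 3) hhom
    (h2 F Q dg hn.hom hn.pos).1 (deg_pos hi hhom) (by have := hn.deg; omega)
  have he : ∀ P : MvPolynomial (Fin 3) F, aeval w P = eval w P := fun P =>
    RingHom.congr_fun (coe_aeval_eq_eval w) P
  have hz : ∀ P : MvPolynomial (Fin 3) F, h ∣ P → aeval w P = 0 := by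
    rintro P ⟨c, rfl⟩
    rw [he, map_mul, e1, zero_mul]
  refine hn.n1 F w hw a b hab (hz _ ha) (hz _ hb) ?_
  rw [he, e2]

theorem Q_ne {F : Type} [Field F] {Q : Fin 3 → MvPolynomial (Fin 3) F} (hJ : Jac Q ≠ 0)
    (a : Fin 3) : Q a ≠ 0 := by
  intro h
  apply hJ
  unfold Jac
  refine Matrix.det_eq_zero_of_row_eq_zero a fun j => ?_
  simp [Jm, h]

/-! ### Monomials -/

/-- the part with positive exponents -/
noncomputable def Mp {F : Type} [Field F] (Q : Fin 3 → MvPolynomial (Fin 3) F) (i : Fin 3 → ℤ) :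
    MvPolynomial (Fin 3) F := ∏ a, Q a ^ (i a).toNat

theorem Mp_hom {F : Type} [Field F] {Q : Fin 3 → MvPolynomial (Fin 3) F} {dg : Fin 3 → ℕ}
    (hQ : ∀ a, (Q a).IsHomogeneous (dg a)) (i : Fin 3 → ℤ) :
    (Mp Q i).IsHomogeneous (∑ a, dg a * (i a).toNat) :=
  IsHomogeneous.prod _ _ _ fun a _ => (hQ a).pow _

theorem toNat_neg (x : ℤ) : (x.toNat : ℤ) - ((-x).toNat : ℤ) = x := by omega

theorem deg_eq {dg : Fin 3 → ℕ} {i : Fin 3 → ℤ} (h : ∑ a, i a * (dg a : ℤ) = 0) :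
    ∑ a, dg a * (i a).toNat = ∑ a, dg a * (-i a).toNat := by
  have h1 : ((∑ a, dg a * (i a).toNat : ℕ) : ℤ) - ((∑ a, dg a * (-i a).toNat : ℕ) : ℤ) = 0 := by
    push_cast
    rw [← Finset.sum_sub_distrib, ← h]
    refine Finset.sum_congr rfl fun a _ => ?_
    have := toNat_neg (i a)
    linear_combination (dg a : ℤ) * this
  have h2 := sub_eq_zero.1 h1
  exact_mod_cast h2

theorem Mp_ne {F : Type} [Field F] {Q : Fin 3 → MvPolynomial (Fin 3) F} (hQ : ∀ a, Q a ≠ 0)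
    (i : Fin 3 → ℤ) : Mp Q i ≠ 0 :=
  Finset.prod_ne_zero_iff.2 fun a _ => pow_ne_zero _ (hQ a)

theorem fac_ne (h0 : S_HF) (h1 : S_Bez) (h2 : S_JH) {F : Type} [Field F] [IsAlgClosed F]
    {Q : Fin 3 → MvPolynomial (Fin 3) F} {dg : Fin 3 → ℕ} (hn : NC3 Q dg) (hQ : ∀ a, Q a ≠ 0)
    {i : Fin 3 → ℤ} (hi : i ≠ 0) (hdeg : ∑ a, i a * (dg a : ℤ) = 0) (c : F) :
    Mp Q i - C c * Mp Q (fun a => -i a) ≠ 0 := by
  intro he
  rw [sub_eq_zero] at he
  by_cases hc : c = 0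
  · rw [hc, C_0, zero_mul] at he
    exact Mp_ne hQ i he
  -- a positive exponent
  obtain ⟨a, ha⟩ : ∃ a, 0 < i a := by
    by_contra hno
    push Not at hno
    apply hi
    have h3 : ∀ a ∈ Finset.univ, -(i a * (dg a : ℤ)) = 0 := by
      refine (Finset.sum_eq_zero_iff_of_nonneg fun a _ => ?_).1 ?_
      · have h4 : (0 : ℤ) ≤ dg a := Int.natCast_nonneg _
        have h5 := mul_nonneg (neg_nonneg.2 (hno a)) h4
        linarith
      · rw [Finset.sum_neg_distrib, hdeg, neg_zero]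
    funext a
    have h4 := h3 a (Finset.mem_univ a)
    have h5 := hn.pos a
    rw [neg_eq_zero, mul_eq_zero] at h4
    rcases h4 with h4 | h4
    · exact h4
    · exfalso
      have : dg a = 0 := by exact_mod_cast h4
      omega
  obtain ⟨h, hirr, hdv⟩ := WfDvdMonoid.exists_irreducible_factor
    (not_unit (hn.hom a) (hn.pos a)) (hQ a)
  have hpr : Prime h := hirr.prime
  have h3 : h ∣ Mp Q i := by
    refine (dvd_pow hdv ?_).trans (Finset.dvd_prod_of_mem _ (Finset.mem_univ a))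
    omega
  rw [he] at h3
  have h4 : h ∣ Mp Q (fun a => -i a) := by
    rcases hpr.dvd_or_dvd h3 with h5 | h5
    · exfalso
      exact hirr.not_isUnit (isUnit_of_dvd_unit h5 ((IsUnit.mk0 c hc).map C))
    · exact h5
  unfold Mp at h4
  obtain ⟨b, -, hb⟩ := (Prime.dvd_finsetProd_iff hpr _).1 h4
  have hb0 : (-i b).toNat ≠ 0 := by
    intro h5
    rw [h5, pow_zero] at hb
    exact hirr.not_isUnit (isUnit_of_dvd_one hb)
  have hba : a ≠ b := by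
    rintro rfl
    omega
  exact nocommon h0 h1 h2 hn hirr hba hdv (hpr.dvd_of_dvd_pow hb) (hQ a)

/-! ### One relation -/

/-- the exponents -/
def ex (dg : Fin 3 → ℕ) (i0 i1 : ℤ) : Fin 3 → ℤ :=
  ![(dg 2 : ℤ) * i0, (dg 2 : ℤ) * i1, -((dg 0 : ℤ) * i0 + (dg 1 : ℤ) * i1)]

theorem ex_deg (dg : Fin 3 → ℕ) (i0 i1 : ℤ) : ∑ a, ex dg i0 i1 a * (dg a : ℤ) = 0 := by
  rw [Fin.sum_univ_three]
  simp [ex]
  ring

theorem ex_ne {dg : Fin 3 → ℕ} (h : ∀ a, 1 ≤ dg a) {i0 i1 : ℤ} (hi : IsCoprime i0 i1) :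
    ex dg i0 i1 ≠ 0 := by
  intro he
  have h2 : (dg 2 : ℤ) ≠ 0 := by
    have := h 2
    intro h3
    have : dg 2 = 0 := by exact_mod_cast h3
    omega
  have h3 := congrFun he 0
  have h4 := congrFun he 1
  simp only [ex, Matrix.cons_val_zero, Matrix.cons_val_one, Pi.zero_apply, mul_eq_zero, h2,
    false_or] at h3 h4
  rw [h3, h4] at hi
  exact not_isCoprime_zero_zero hi

theorem val {F K R : Type} [Field F] [Field K] [CommRing R] [Algebra F K] [Algebra K R]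
    {Q : Fin 3 → MvPolynomial (Fin 3) F} {dg : Fin 3 → ℕ} {q : Fin 3 → R} {U0 U1 : Rˣ}
    (h0 : (U0 : R) = vq K q (Q 0)) (h1 : (U1 : R) = vq K q (Q 1)) (h2 : vq K q (Q 2) = 1)
    {i0 i1 : ℤ} {xi : K} {c : F} (hx : ((U0 ^ i0 * U1 ^ i1 : Rˣ) : R) = algebraMap K R xi)
    (hc : xi ^ (dg 2) = algebraMap F K c) :
    vq K q (Mp Q (ex dg i0 i1) - C c * Mp Q (fun a => -ex dg i0 i1 a)) = 0 := by
  rw [vq_eq] at h0 h1 h2 ⊢
  rw [map_sub, map_mul, vh_C, sub_eq_zero]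
  unfold Mp
  rw [Fin.prod_univ_three, Fin.prod_univ_three]
  simp only [map_mul, map_pow, ← h0, ← h1, h2, one_pow, mul_one]
  have e0 : ex dg i0 i1 0 = (dg 2 : ℤ) * i0 := rfl
  have e1 : ex dg i0 i1 1 = (dg 2 : ℤ) * i1 := rfl
  rw [e0, e1]
  have hp : ∀ (U : Rˣ) (x : ℤ), U ^ x.toNat = U ^ x * U ^ (-x).toNat := by
    intro U x
    rw [← zpow_natCast, ← zpow_natCast, ← zpow_add]
    congr 1
    have := toNat_neg x
    omega
  have hu : U0 ^ ((dg 2 : ℤ) * i0).toNat * U1 ^ ((dg 2 : ℤ) * i1).toNat =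
      (U0 ^ i0 * U1 ^ i1) ^ (dg 2) * (U0 ^ (-((dg 2 : ℤ) * i0)).toNat *
        U1 ^ (-((dg 2 : ℤ) * i1)).toNat) := by
    rw [hp U0, hp U1]
    have e3 : (U0 ^ i0 * U1 ^ i1) ^ (dg 2) = U0 ^ ((dg 2 : ℤ) * i0) * U1 ^ ((dg 2 : ℤ) * i1) := by
      rw [mul_pow, ← zpow_natCast, ← zpow_natCast, ← zpow_mul, ← zpow_mul, mul_comm i0,
        mul_comm i1]
    rw [e3]
    exact mul_mul_mul_comm _ _ _ _
  have hR := congrArg (fun u : Rˣ => (u : R)) hu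
  simp only [Units.val_mul, Units.val_pow_eq_pow_val] at hR
  rw [hR]
  congr 1
  rw [← hc, map_pow, ← hx, Units.val_mul]

theorem rel {R : Type} [CommRing R] {U0 U1 : Rˣ} {a0 a1 b0 b1 : ℕ} {b : R} {g : ℕ} {i0 i1 : ℤ}
    (h0 : (a0 : ℤ) - b0 = i0 * g) (h1 : (a1 : ℤ) - b1 = i1 * g)
    (h : (U0 : R) ^ a0 * (U1 : R) ^ a1 = b * ((U0 : R) ^ b0 * (U1 : R) ^ b1)) :
    ((U0 ^ i0 * U1 ^ i1 : Rˣ) : R) ^ g = b := by
  have e1 : (U0 ^ i0 * U1 ^ i1) ^ g = U0 ^ a0 * U1 ^ a1 * (U0 ^ b0 * U1 ^ b1)⁻¹ := by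
    rw [mul_pow, ← zpow_natCast (U0 ^ i0), ← zpow_natCast (U1 ^ i1), ← zpow_mul, ← zpow_mul,
      ← h0, ← h1, zpow_sub, zpow_sub, zpow_natCast, zpow_natCast, zpow_natCast, zpow_natCast,
      mul_inv, mul_mul_mul_comm]
  rw [← Units.val_pow_eq_pow_val, e1, Units.val_mul, Units.val_mul, Units.val_pow_eq_pow_val,
    Units.val_pow_eq_pow_val, h, mul_assoc]
  have e2 : ((U0 : R) ^ b0 * (U1 : R) ^ b1) * (((U0 ^ b0 * U1 ^ b1)⁻¹ : Rˣ) : R) = 1 := by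
    rw [← Units.val_pow_eq_pow_val, ← Units.val_pow_eq_pow_val, ← Units.val_mul, Units.mul_inv]
  rw [e2, mul_one]

theorem one (h0 : S_HF) (h1 : S_Bez) (h2 : S_JH) (h3 : S_Int) (h5 : S_St2) (F : Type) [Field F]
    [CharZero F] [IsAlgClosed F] (Q : Fin 3 → MvPolynomial (Fin 3) F) (dg : Fin 3 → ℕ)
    (hn : NC3 Q dg) (p : (ℕ × ℕ) × (ℕ × ℕ)) :
    ∃ (B : MvPolynomial (Fin 3) F) (nB : ℕ), B ≠ 0 ∧ B.IsHomogeneous nB ∧ (p.1 ≠ p.2 →
      ∀ (K R : Type) [Field K] [CharZero K] [CommRing R] [IsDomain R] [Algebra F K] [Algebra K R]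
      (dl : Derivation ℤ K K) (dR : Derivation ℤ R R), NR F K R dl dR → ∀ q : Fin 3 → R,
      Pt K Q q → vq K q (Jac Q) ≠ 0 → vq K q B ≠ 0 →
      (∃ b : K, vq K q (Q 0) ^ p.1.1 * vq K q (Q 1) ^ p.1.2
        = algebraMap K R b * (vq K q (Q 0) ^ p.2.1 * vq K q (Q 1) ^ p.2.2)) →
      InK K (vq K q (Q 0)) ∧ InK K (vq K q (Q 1))) := by
  by_cases hp : p.1 = p.2
  · exact ⟨1, 0, one_ne_zero, isHomogeneous_one _ _, fun h => absurd hp h⟩
  have hQ : ∀ a, Q a ≠ 0 := Q_ne (h3 F Q dg hn).1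
  have hg : 0 < Int.gcd ((p.1.1 : ℤ) - p.2.1) ((p.1.2 : ℤ) - p.2.2) := by
    rw [Int.gcd_pos_iff]
    by_contra hno
    push Not at hno
    apply hp
    ext
    · have := hno.1; omega
    · have := hno.2; omega
  obtain ⟨i0, i1, hcop, e0, e1⟩ := Int.exists_gcd_one hg
  have hco : IsCoprime i0 i1 := Int.isCoprime_iff_gcd_eq_one.2 hcop
  obtain ⟨Z, hZ⟩ := h5 F Q dg hn i0 i1 hco
  have hexd := ex_deg dg i0 i1
  refine ⟨∏ c ∈ Z, (Mp Q (ex dg i0 i1) - C c * Mp Q (fun a => -ex dg i0 i1 a)),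
    ∑ _c ∈ Z, ∑ a, dg a * (ex dg i0 i1 a).toNat, ?_, ?_, ?_⟩
  · exact Finset.prod_ne_zero_iff.2 fun c _ => fac_ne h0 h1 h2 hn hQ (ex_ne hn.pos hco) hexd c
  · refine IsHomogeneous.prod _ _ _ fun c _ => ?_
    refine (Mp_hom hn.hom _).sub ?_
    rw [deg_eq hexd]
    have h6 := (isHomogeneous_C (Fin 3) c).mul (Mp_hom hn.hom (fun a => -ex dg i0 i1 a))
    rwa [zero_add] at h6
  · intro _ K R _ _ _ _ _ _ dl dR hNR q hPt hJ hB hb
    obtain ⟨b, hb⟩ := hb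
    obtain ⟨U0, hU0⟩ := hPt.u0
    obtain ⟨U1, hU1⟩ := hPt.u1
    rw [← hU0, ← hU1] at hb
    have hr := rel e0 e1 hb
    obtain ⟨xi, hxi⟩ := hNR.root _ _ hg.ne' ⟨b, hr⟩
    rcases hZ K R dl dR hNR q U0 U1 hU0 hU1 hPt.u2 hJ xi hxi with h6 | ⟨c, hc, hc2⟩
    · rw [hU0, hU1] at h6
      exact h6
    · exfalso
      apply hB
      rw [vq_eq, map_prod]
      exact Finset.prod_eq_zero hc (val hU0 hU1 hPt.u2 hxi hc2)

end BT3Rx

open BT3Rx in
theorem T3R_proof (h0 : S_HF) (h1 : S_Bez) (h2 : S_JH) (h3 : S_Int) (h4 : S_St1) (h5 : S_St2) :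
    S_T3R := by
  intro F _ _ _ Q dg hn
  obtain ⟨N, hN⟩ := h4 F Q dg hn
  choose B nB hB0 hBh hB using one h0 h1 h2 h3 h5 F Q dg hn
  refine ⟨Jac Q * ∏ p ∈ (Finset.range (N + 1) ×ˢ Finset.range (N + 1)) ×ˢ
    (Finset.range (N + 1) ×ˢ Finset.range (N + 1)), B p, (∑ a, dg a - 3) +
    ∑ p ∈ (Finset.range (N + 1) ×ˢ Finset.range (N + 1)) ×ˢ
    (Finset.range (N + 1) ×ˢ Finset.range (N + 1)), nB p, ?_, ?_, ?_⟩
  · exact mul_ne_zero (h3 F Q dg hn).1 (Finset.prod_ne_zero_iff.2 fun p _ => hB0 p)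
  · exact (h2 F Q dg hn.hom hn.pos).1.mul (IsHomogeneous.prod _ _ _ fun p _ => hBh p)
  · intro K R _ _ _ _ _ _ dl dR hNR q hPt hq
    rw [vq_eq, map_mul, map_prod] at hq
    have hJ := left_ne_zero_of_mul hq
    have hP := Finset.prod_ne_zero_iff.1 (right_ne_zero_of_mul hq)
    obtain ⟨al, be, hne, k1, k2, k3, k4, hb⟩ := hN K R dl dR hNR q hPt
    refine hB (al, be) hne K R dl dR hNR q hPt hJ (hP (al, be) ?_) hb
    simp only [Finset.mem_product, Finset.mem_range]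
    omega

end Pool.Agent.Work.MP_6d7a54_an.NF
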