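import Pool.Agent.Work.MP_6d7a54_an.NF.StmtsB

/-!
# Item Tay: the Taylor homomorphism
-/

set_option autoImplicit false

namespace Pool.Agent.Work.MP_6d7a54_an.NF

namespace BTayx

section

variable {A Om : Type} [CommRing A] [Field Om] (d : Derivation ℤ A A) (th : A →+* Om)

theorem sd_eq (v : PowerSeries Om) : sd v = PowerSeries.derivative Om v := by
  ext n
  rw [PowerSeries.coeff_derivative]
  unfold sd
  rw [PowerSeries.coeff_mk]
  ring

theorem coeff_tay (x : A) (n : ℕ) : PowerSeries.coeff n (tay d th x) =
    ((n.factorial : ℕ) : Om)⁻¹ * th ((d : A → A)^[n] x) := by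
  unfold tay
  rw [PowerSeries.coeff_mk]

theorem iter_add (n : ℕ) : ∀ x y : A, (d : A → A)^[n] (x + y) =
    (d : A → A)^[n] x + (d : A → A)^[n] y := by
  induction n with
  | zero => intro x y; simp
  | succ n ih =>
    intro x y
    rw [Function.iterate_succ_apply, Function.iterate_succ_apply, Function.iterate_succ_apply,
      map_add, ih]

theorem iter_zero (n : ℕ) : (d : A → A)^[n] 0 = 0 := by
  induction n with
  | zero => simp
  | succ n ih => rw [Function.iterate_succ_apply, map_zero, ih]

theorem tay_add (x y : A) : tay d th (x + y) = tay d th x + tay d th y := by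
  ext n
  rw [map_add, coeff_tay, coeff_tay, coeff_tay, iter_add, map_add]
  ring

theorem tay_zero : tay d th 0 = 0 := by
  ext n
  rw [coeff_tay, iter_zero, map_zero, mul_zero, map_zero]

theorem tay_one : tay d th 1 = 1 := by
  ext n
  rw [coeff_tay, PowerSeries.coeff_one]
  cases n with
  | zero => simp
  | succ n =>
    rw [Function.iterate_succ_apply, Derivation.map_one_eq_zero, iter_zero, map_zero, mul_zero]
    simp

variable [CharZero Om]

theorem tay_d (x : A) : tay d th (d x) = sd (tay d th x) := by
  ext n
  unfold sd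
  rw [PowerSeries.coeff_mk, coeff_tay, coeff_tay, Function.iterate_succ_apply,
    Nat.factorial_succ]
  have h1 : ((n : Om) + 1) ≠ 0 := Nat.cast_add_one_ne_zero n
  have h2 : ((n.factorial : ℕ) : Om) ≠ 0 := Nat.cast_ne_zero.2 n.factorial_ne_zero
  push_cast
  field_simp

theorem tay_mul_coeff (n : ℕ) : ∀ x y : A, PowerSeries.coeff n (tay d th (x * y)) =
    PowerSeries.coeff n (tay d th x * tay d th y) := by
  induction n with
  | zero =>
    intro x y
    rw [coeff_tay, PowerSeries.coeff_zero_eq_constantCoeff, map_mul,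
      ← PowerSeries.coeff_zero_eq_constantCoeff_apply,
      ← PowerSeries.coeff_zero_eq_constantCoeff_apply, coeff_tay, coeff_tay]
    simp
  | succ n ih =>
    intro x y
    have h1 : ((n : Om) + 1) ≠ 0 := Nat.cast_add_one_ne_zero n
    apply mul_right_cancel₀ h1
    rw [← PowerSeries.coeff_derivative, ← PowerSeries.coeff_derivative, ← sd_eq, ← tay_d,
      Derivation.leibniz, Derivation.leibniz, ← sd_eq, ← sd_eq, ← tay_d, ← tay_d]
    simp only [smul_eq_mul]
    rw [tay_add, map_add, map_add, ih, ih]

end

end BTayx

open BTayx in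
theorem Tay_proof : S_Tay := by
  intro A Om _ _ _ d th
  refine ⟨tay_zero d th, tay_one d th, tay_add d th, fun x y => ?_, tay_d d th⟩
  ext n
  exact tay_mul_coeff d th n x y

end Pool.Agent.Work.MP_6d7a54_an.NF
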