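import Pool.Agent.Work.MP_6d7a54_an.NF.StmtsB

/-!
# Divisibility is tested by Taylor series (MP_6d7a54_an, NF)
-/

namespace Pool.Agent.Work.MP_6d7a54_an.NF

noncomputable section

namespace BValx

/-- the point of the spectrum: if `s ^ (i + 1) * e = w * g` and `e` vanishes at least as much as
`w` at the point `th`, then `g` vanishes at `th` -/
theorem point (h1 : S_Tay) {R Om : Type} [CommRing R] [Field Om] [CharZero Om]
    (dR : Derivation ℤ R R) (th : R →+* Om) {s w w1 e g : R} {N i : ℕ} (hs : th s = 0)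
    (hc : IsCoprime s (dR s)) (hw : s ^ N = w * w1) (hg : s ^ (i + 1) * e = w * g)
    (hord : ∀ n ≤ N, (∀ j < n, th ((dR : R → R)^[j] w) = 0) →
      ∀ j < n, th ((dR : R → R)^[j] e) = 0) : th g = 0 := by
  obtain ⟨-, t1, -, tm, -⟩ := h1 R Om dR th
  let T : R →* PowerSeries Om := ⟨⟨tay dR th, t1⟩, tm⟩
  have hT : ∀ x, T x = tay dR th x := fun x => rfl
  have hcoeff : ∀ (x : R) (j : ℕ), PowerSeries.coeff j (T x) =
      ((j.factorial : ℕ) : Om)⁻¹ * th ((dR : R → R)^[j] x) := by
    intro x j
    rw [hT, tay, PowerSeries.coeff_mk]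
  have hz : ∀ (x : R) (j : ℕ), PowerSeries.coeff j (T x) = 0 ↔ th ((dR : R → R)^[j] x) = 0 := by
    intro x j
    rw [hcoeff]
    have : ((j.factorial : ℕ) : Om)⁻¹ ≠ 0 := inv_ne_zero (by exact_mod_cast j.factorial_ne_zero)
    constructor
    · intro h
      exact (mul_eq_zero.1 h).resolve_left this
    · intro h
      rw [h, mul_zero]
  -- order of `s` is one
  have hs' : th (dR s) ≠ 0 := by
    intro h
    obtain ⟨al, be, hab⟩ := hc
    have h2 := congrArg th hab
    rw [map_add, map_mul, map_mul, hs, h, mul_zero, mul_zero, add_zero, map_one] at h2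
    exact zero_ne_one h2
  have hos : (T s).order = 1 := by
    apply le_antisymm
    · have := PowerSeries.order_le (φ := T s) 1 (by
        rw [Ne, hz]
        simpa using hs')
      exact_mod_cast this
    · have := PowerSeries.nat_le_order (T s) 1 (by
        intro j hj
        rw [hz]
        have : j = 0 := by omega
        subst this
        simpa using hs)
      exact_mod_cast this
  have hsum : (T w).order + (T w1).order = N := by
    have h3 : (T w * T w1).order = (T s ^ N).order := by
      rw [← map_mul, ← map_pow, hw]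
    rw [PowerSeries.order_mul, PowerSeries.order_pow, hos] at h3
    rw [h3]
    simp
  have hwtop : (T w).order ≠ ⊤ := by
    intro h
    rw [h, top_add] at hsum
    exact (ENat.natCast_ne_top N) hsum.symm
  obtain ⟨m, hm⟩ := ENat.ne_top_iff_exists.1 hwtop
  have hmN : m ≤ N := by
    have h4 : (m : ℕ∞) ≤ N := by
      rw [← hsum, ← hm]
      exact le_self_add
    exact_mod_cast h4
  have he : (m : ℕ∞) ≤ (T e).order := by
    apply PowerSeries.nat_le_order
    intro j hj
    rw [hz]
    refine hord m hmN ?_ j hj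
    intro j' hj'
    rw [← hz]
    apply PowerSeries.coeff_of_lt_order
    rw [← hm]
    exact_mod_cast hj'
  have h5 : ((i + 1 : ℕ) : ℕ∞) + (T e).order = (T w).order + (T g).order := by
    have h6 : (T s ^ (i + 1) * T e).order = (T w * T g).order := by
      rw [← map_mul, ← map_pow, ← map_mul, hg]
    rw [PowerSeries.order_mul, PowerSeries.order_pow, hos, PowerSeries.order_mul] at h6
    rw [← h6]
    simp
  have h7 : (m : ℕ∞) + ((i + 1 : ℕ) : ℕ∞) ≤ m + (T g).order := by
    calc (m : ℕ∞) + ((i + 1 : ℕ) : ℕ∞) = ((i + 1 : ℕ) : ℕ∞) + m := add_comm _ _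
      _ ≤ ((i + 1 : ℕ) : ℕ∞) + (T e).order := add_le_add le_rfl he
      _ = m + (T g).order := by rw [h5, hm]
  have h8 : ((i + 1 : ℕ) : ℕ∞) ≤ (T g).order :=
    (ENat.add_le_add_iff_left (ENat.natCast_ne_top m)).1 h7
  have h9 : PowerSeries.coeff 0 (T g) = 0 := by
    apply PowerSeries.coeff_of_lt_order
    refine lt_of_lt_of_le ?_ h8
    exact_mod_cast Nat.succ_pos i
  rw [hz] at h9
  simpa using h9

end BValx

theorem Val_proof (h1 : S_Tay) (h2 : S_Red) : S_Val := by
  classical
  intro F K R _ _ _ _ _ _ _ dl dR hN w s e N hw hs hc hdvd hord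
  have hex : ∃ j, w ∣ s ^ j * e := ⟨N, hdvd.trans (dvd_mul_right _ _)⟩
  obtain ⟨w1, hw1⟩ := hdvd
  have hfind := Nat.find_spec hex
  rcases hj : Nat.find hex with _ | i
  · rw [hj, pow_zero, one_mul] at hfind
    exact hfind
  exfalso
  rw [hj] at hfind
  obtain ⟨g, hg⟩ := hfind
  have hsg : ¬ s ∣ g := by
    rintro ⟨g', rfl⟩
    have h3 : w ∣ s ^ i * e := by
      refine ⟨g', ?_⟩
      apply mul_left_cancel₀ hs
      calc s * (s ^ i * e) = s ^ (i + 1) * e := by ring
        _ = w * (s * g') := hg
        _ = s * (w * g') := by ring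
    have h4 := Nat.find_min' hex h3
    omega
  have hrad : g ∈ (Ideal.span {s}).radical := by
    rw [Ideal.radical_eq_sInf, Ideal.mem_sInf]
    rintro P ⟨hP, hPp⟩
    have hsP : s ∈ P := hP (Ideal.subset_span rfl)
    have : P.IsPrime := hPp
    let th : R →+* AlgebraicClosure (FractionRing (R ⧸ P)) :=
      (algebraMap (R ⧸ P) (AlgebraicClosure (FractionRing (R ⧸ P)))).comp (Ideal.Quotient.mk P)
    have hth : ∀ x, th x = 0 ↔ x ∈ P := by
      intro x
      rw [← Ideal.Quotient.eq_zero_iff_mem]
      change algebraMap (R ⧸ P) (AlgebraicClosure (FractionRing (R ⧸ P)))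
        (Ideal.Quotient.mk P x) = 0 ↔ _
      rw [IsScalarTower.algebraMap_apply (R ⧸ P) (FractionRing (R ⧸ P))
        (AlgebraicClosure (FractionRing (R ⧸ P)))]
      rw [map_eq_zero_iff _ (algebraMap (FractionRing (R ⧸ P))
        (AlgebraicClosure (FractionRing (R ⧸ P)))).injective]
      exact map_eq_zero_iff _ (IsFractionRing.injective (R ⧸ P) (FractionRing (R ⧸ P)))
    have hchar : CharZero (AlgebraicClosure (FractionRing (R ⧸ P))) :=
      charZero_of_injective_ringHom (th.comp (algebraMap K R)).injective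
    rw [← hth]
    exact BValx.point h1 dR th ((hth s).2 hsP) hc hw1 hg
      (hord (AlgebraicClosure (FractionRing (R ⧸ P))) th ((hth s).2 hsP))
  obtain ⟨n, hn⟩ := hrad
  rw [Ideal.mem_span_singleton] at hn
  exact hsg (h2 F K R dl dR hN s g hs hc n hn)

end

end Pool.Agent.Work.MP_6d7a54_an.NF
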