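import Pool.Agent.Work.MP_6d7a54_an.NF.StmtsB

/-!
# Item qd: derivatives of a point (MP_6d7a54_an)
-/

set_option autoImplicit false

namespace Pool.Agent.Work.MP_6d7a54_an.NF

open MvPolynomial

noncomputable section

namespace Bqdx

theorem vq_C {F K R : Type} [Field F] [Field K] [CommRing R] [Algebra F K] [Algebra K R]
    (q : Fin 3 → R) (a : F) : vq K q (C a) = algebraMap K R (algebraMap F K a) := by
  unfold vq bc
  rw [map_C, aeval_C]

theorem vq_X {F K R : Type} [Field F] [Field K] [CommRing R] [Algebra F K] [Algebra K R]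
    (q : Fin 3 → R) (i : Fin 3) : vq (F := F) K q (X i) = q i := by
  unfold vq bc
  rw [map_X, aeval_X]

theorem vq_add {F K R : Type} [Field F] [Field K] [CommRing R] [Algebra F K] [Algebra K R]
    (q : Fin 3 → R) (P P' : MvPolynomial (Fin 3) F) :
    vq K q (P + P') = vq K q P + vq K q P' := by
  unfold vq bc
  rw [map_add, map_add]

theorem vq_mul {F K R : Type} [Field F] [Field K] [CommRing R] [Algebra F K] [Algebra K R]
    (q : Fin 3 → R) (P P' : MvPolynomial (Fin 3) F) :
    vq K q (P * P') = vq K q P * vq K q P' := by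
  unfold vq bc
  rw [map_mul, map_mul]

theorem vq_zero {F K R : Type} [Field F] [Field K] [CommRing R] [Algebra F K] [Algebra K R]
    (q : Fin 3 → R) : vq (F := F) K q 0 = 0 := by
  unfold vq bc
  rw [map_zero, map_zero]

theorem vq_one {F K R : Type} [Field F] [Field K] [CommRing R] [Algebra F K] [Algebra K R]
    (q : Fin 3 → R) : vq (F := F) K q 1 = 1 := by
  unfold vq bc
  rw [map_one, map_one]

theorem part1 {F K R : Type} [Field F] [Field K] [CommRing R] [IsDomain R] [Algebra F K]
    [Algebra K R] {dl : Derivation ℤ K K} {dR : Derivation ℤ R R} (hN : NR F K R dl dR)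
    (q : Fin 3 → R) (P : MvPolynomial (Fin 3) F) :
    dR (vq K q P) = ∑ j, vq K q (pderiv j P) * dR (q j) := by
  induction P using MvPolynomial.induction_on with
  | C a =>
    rw [vq_C, hN.comp, hN.c0, map_zero]
    symm
    refine Finset.sum_eq_zero fun j _ => ?_
    rw [pderiv_C, vq_zero, zero_mul]
  | add P P' h1 h2 =>
    rw [vq_add, map_add, h1, h2, ← Finset.sum_add_distrib]
    refine Finset.sum_congr rfl fun j _ => ?_
    rw [map_add, vq_add, add_mul]
  | mul_X P i h =>
    rw [vq_mul, vq_X, Derivation.leibniz, h]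
    have e : ∀ j, vq K q (pderiv j (P * X i)) * dR (q j) =
        q i * (vq K q (pderiv j P) * dR (q j)) + (if j = i then vq K q P * dR (q j) else 0) := by
      intro j
      rw [pderiv_mul, vq_add, vq_mul, vq_mul, vq_X]
      by_cases hij : j = i
      · subst hij
        rw [pderiv_X_self, vq_one, if_pos rfl]
        ring
      · rw [pderiv_X_of_ne (Ne.symm hij), vq_zero, if_neg hij]
        ring
    rw [Finset.sum_congr rfl fun j _ => e j, Finset.sum_add_distrib, Finset.sum_ite_eq' Finset.univ i,
      if_pos (Finset.mem_univ _), ← Finset.mul_sum, smul_eq_mul, smul_eq_mul]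
    ring

theorem bc_Jac {F K : Type} [Field F] [Field K] [Algebra F K]
    (Q : Fin 3 → MvPolynomial (Fin 3) F) :
    bc K (Jac Q) = (Jm fun a => bc K (Q a)).det := by
  unfold bc Jac
  rw [RingHom.map_det]
  congr 1
  ext1 a j
  simp only [Jm, RingHom.mapMatrix_apply, Matrix.map_apply, Matrix.of_apply]
  exact (pderiv_map).symm

end Bqdx

theorem qd_proof : S_qd := by
  intro F K R _ _ _ _ _ _ dl dR hN Q q l hl
  refine ⟨Bqdx.part1 hN q, fun j => ?_⟩
  set J := Jm fun a => bc K (Q a) with hJ
  have h1 : vq K q (Jac Q) = aeval q J.det := by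
    unfold vq
    rw [Bqdx.bc_Jac]
  have h2 : ∀ a k, vq K q (pderiv k (Q a)) = aeval q (J a k) := by
    intro a k
    unfold vq bc
    rw [hJ]
    simp only [Jm, Matrix.of_apply]
    rw [pderiv_map]
  have h3 : ∀ a, algebraMap K R (l a) * vq K q (Q a) = ∑ k, aeval q (J a k) * dR (q k) := by
    intro a
    rw [← hl a, Bqdx.part1 hN q (Q a)]
    exact Finset.sum_congr rfl fun k _ => by rw [h2]
  have h4 : aeval q (VV (fun a => bc K (Q a)) l j) =
      ∑ a, aeval q (J.adjugate j a) * (algebraMap K R (l a) * vq K q (Q a)) := by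
    unfold VV
    rw [map_sum]
    refine Finset.sum_congr rfl fun a _ => ?_
    rw [map_mul, map_mul, aeval_C]
    rfl
  have h5 : ∀ k, ∑ a, aeval q (J.adjugate j a) * aeval q (J a k) =
      if j = k then aeval q J.det else 0 := by
    intro k
    have h6 := congrFun (congrFun (Matrix.adjugate_mul J) j) k
    rw [Matrix.mul_apply, Matrix.smul_apply, Matrix.one_apply] at h6
    have h7 := congrArg (aeval q : MvPolynomial (Fin 3) K →ₐ[K] R) h6
    rw [map_sum] at h7
    simp only [map_mul] at h7
    rw [h7]
    by_cases hjk : j = k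
    · rw [if_pos hjk, if_pos hjk]
      simp
    · rw [if_neg hjk, if_neg hjk]
      simp
  rw [h1, h4]
  calc aeval q J.det * dR (q j) = ∑ k, (if j = k then aeval q J.det else 0) * dR (q k) := by
        simp
    _ = ∑ k, (∑ a, aeval q (J.adjugate j a) * aeval q (J a k)) * dR (q k) :=
        Finset.sum_congr rfl fun k _ => by rw [h5]
    _ = ∑ a, aeval q (J.adjugate j a) * ∑ k, aeval q (J a k) * dR (q k) := by
        simp only [Finset.sum_mul, Finset.mul_sum]
        rw [Finset.sum_comm]
        exact Finset.sum_congr rfl fun a _ => Finset.sum_congr rfl fun k _ => by ring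
    _ = _ := Finset.sum_congr rfl fun a _ => by rw [h3]

end

end Pool.Agent.Work.MP_6d7a54_an.NF
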