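import Pool.Agent.Work.MP_6d7a54_an.NF.StmtsB

/-!
# Item r1 (MP_6d7a54_an): the values of the forms are algebraic at the zeros of the Jacobian
-/

namespace Pool.Agent.Work.MP_6d7a54_an.NF

open MvPolynomial

namespace Br1x

theorem bc_Jac {F K : Type} [Field F] [Field K] [Algebra F K]
    (Q : Fin 3 → MvPolynomial (Fin 3) F) : Jac (fun a => bc K (Q a)) = bc K (Jac Q) := by
  unfold Jac
  show _ = (MvPolynomial.map (algebraMap F K)) (Jm Q).det
  rw [RingHom.map_det]
  congr 1
  ext1 a j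
  show pderiv j (MvPolynomial.map (algebraMap F K) (Q a)) = _
  rw [MvPolynomial.pderiv_map]
  rfl

theorem ne_zero_of_relPrime {K : Type} [Field K] {J g : MvPolynomial (Fin 3) K} {n : ℕ}
    (hg : g ≠ 0) (hh : g.IsHomogeneous (n + 1)) (h : IsRelPrime J g) : J ≠ 0 := by
  rintro rfl
  have hu : IsUnit g := h (dvd_zero g) dvd_rfl
  obtain ⟨c, hc, rfl⟩ := MvPolynomial.isUnit_iff_eq_C_of_isReduced.1 hu
  have h2 := (isHomogeneous_C (Fin 3) c).inj_right hh hg
  omega

end Br1x

theorem r1_proof (h0 : S_Dim) (h1 : S_JH) (h2 : S_Cop) (h3 : S_qd) : S_r1 := by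
  obtain ⟨B, hB⟩ := h0
  intro F _ _ _ Q dg hN
  set e := ∑ a, dg a - 3 with he
  set n := B e (e + 1) with hn
  refine ⟨n * dg 2, ?_⟩
  intro K R _ _ _ _ _ _ dl dR hR q hP hnot c hc
  obtain ⟨l0, hl0⟩ := hR.unit _ hP.u0
  obtain ⟨l1, hl1⟩ := hR.unit _ hP.u1
  set l : Fin 3 → K := ![l0, l1, 0] with hl
  have hle : ∀ a, dR (vq K q (Q a)) = algebraMap K R (l a) * vq K q (Q a) := by
    intro a
    fin_cases a
    · exact hl0
    · exact hl1
    · show dR (vq K q (Q 2)) = algebraMap K R 0 * vq K q (Q 2)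
      rw [hP.u2, map_zero, zero_mul, Derivation.map_one_eq_zero]
  have hd2 : (dg 2 : K) ≠ 0 := by
    have := hN.pos 2
    exact_mod_cast (by omega : dg 2 ≠ 0)
  have hnp : ∃ a b, l a * (dg b : K) ≠ l b * (dg a : K) := by
    by_contra hcon
    push Not at hcon
    apply hnot
    have hz : ∀ a, l a = 0 := by
      intro a
      have h4 := hcon a 2
      have h5 : l 2 = 0 := rfl
      rw [h5, zero_mul] at h4
      exact (mul_eq_zero.1 h4).resolve_right hd2
    constructor
    · refine hR.const _ 1 hP.u0 one_ne_zero ?_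
      rw [map_one, one_mul, hle 0, hz 0, map_zero, zero_mul]
    · refine hR.const _ 1 hP.u1 one_ne_zero ?_
      rw [map_one, one_mul, hle 1, hz 1, map_zero, zero_mul]
  obtain ⟨al, hg0, hrel⟩ := h2 F Q dg hN K l hnp
  have hhom : ∀ a, (bc K (Q a)).IsHomogeneous (dg a) := fun a => (hN.hom a).map _
  obtain ⟨hJ, hV, -⟩ := h1 K (fun a => bc K (Q a)) dg hhom hN.pos
  set g := ∑ j, C (al j) * VV (fun a => bc K (Q a)) l j with hg
  have hgh : g.IsHomogeneous (e + 1) := by
    refine MvPolynomial.IsHomogeneous.sum _ _ _ fun j _ => ?_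
    have := (isHomogeneous_C (Fin 3) (al j)).mul (hV l j)
    rwa [zero_add] at this
  have hJ0 := Br1x.ne_zero_of_relPrime hg0 hgh hrel
  obtain ⟨cc, hcc, A, A', hA⟩ := hB K (Jac fun a => bc K (Q a)) g e (e + 1) hJ hgh hJ0 hg0 hrel
    (n * (dg c * dg 2)) (n + 1)
    (fun i => bc K (Q c) ^ ((i : ℕ) * dg 2) * bc K (Q 2) ^ ((n - i) * dg c))
    (by
      intro i
      have h5 := ((hhom c).pow ((i : ℕ) * dg 2)).mul ((hhom 2).pow ((n - i) * dg c))
      have h6 : dg c * ((i : ℕ) * dg 2) + dg 2 * ((n - i) * dg c) = n * (dg c * dg 2) := by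
        have h7 : (i : ℕ) + (n - i) = n := by omega
        calc dg c * ((i : ℕ) * dg 2) + dg 2 * ((n - i) * dg c)
            = ((i : ℕ) + (n - i)) * (dg c * dg 2) := by ring
          _ = _ := by rw [h7]
      rwa [h6] at h5)
    (by omega)
  refine ⟨∑ i : Fin (n + 1), Polynomial.monomial ((i : ℕ) * dg 2) (cc i), ?_, ?_, ?_⟩
  · obtain ⟨i0, hi0⟩ := Function.ne_iff.1 hcc
    intro hz
    apply hi0
    have h5 := congrArg (fun p => Polynomial.coeff p ((i0 : ℕ) * dg 2)) hz
    simp only [Polynomial.finsetSum_coeff, Polynomial.coeff_monomial, Polynomial.coeff_zero] at h5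
    rw [Finset.sum_eq_single i0] at h5
    · simpa using h5
    · intro b _ hb
      rw [if_neg]
      intro h6
      have := hN.pos 2
      exact hb (Fin.ext (Nat.eq_of_mul_eq_mul_right (by omega) h6))
    · intro h6
      exact absurd (Finset.mem_univ _) h6
  · refine Polynomial.natDegree_sum_le_of_forall_le _ _ fun i _ => ?_
    refine (Polynomial.natDegree_monomial_le _).trans (Nat.mul_le_mul_right _ ?_)
    omega
  · have h5 := congrArg (aeval q) hA
    rw [map_add, map_mul, map_mul, map_sum] at h5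
    have h6 : Polynomial.aeval (vq K q (Q c))
        (∑ i : Fin (n + 1), Polynomial.monomial ((i : ℕ) * dg 2) (cc i)) =
        ∑ i : Fin (n + 1), aeval q (C (cc i) *
          (bc K (Q c) ^ ((i : ℕ) * dg 2) * bc K (Q 2) ^ ((n - i) * dg c))) := by
      rw [map_sum]
      refine Finset.sum_congr rfl fun i _ => ?_
      rw [Polynomial.aeval_monomial, map_mul, map_mul, map_pow, map_pow, aeval_C]
      have h7 : aeval q (bc K (Q 2)) = (1 : R) := hP.u2
      rw [h7, one_pow, mul_one]
      rfl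
    rw [h6, h5]
    have h7 : aeval q (Jac fun a => bc K (Q a)) = vq K q (Jac Q) := by
      rw [Br1x.bc_Jac]
      rfl
    have h8 : vq K q (Jac Q) ∣ aeval q g := by
      rw [hg, map_sum]
      refine Finset.dvd_sum fun j _ => ?_
      rw [map_mul, ← (h3 F K R dl dR hR Q q l hle).2 j]
      exact (dvd_mul_right _ _).mul_left _
    rw [h7]
    exact dvd_add ((dvd_refl _).mul_left _) (h8.mul_left _)

end Pool.Agent.Work.MP_6d7a54_an.NF
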