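import Pool.Agent.Work.MP_6d7a54_an.NF.StmtsC
import Pool.Agent.Work.MP_6d7a54_an.NF.I_Mx
import Pool.Agent.Work.MP_6d7a54_an.UP.Fac

/-!
# Bad sequences of discs in the complement of three curves (MP_6d7a54_an)
-/

set_option autoImplicit false

namespace Pool.Agent.Work.MP_6d7a54_an.NF

open MvPolynomial Metric

noncomputable section

namespace CGeox

theorem eval_scale {φ : MvPolynomial (Fin 3) ℂ} {n : ℕ} (h : φ.IsHomogeneous n) (t : ℂ)
    (w : Fin 3 → ℂ) : eval (fun j => t * w j) φ = t ^ n * eval w φ := by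
  rw [eval_eq', eval_eq', Finset.mul_sum]
  refine Finset.sum_congr rfl ?_
  intro m hm
  have hm' : ∑ i, m i = n := by
    have h1 := h (mem_support_iff.1 hm)
    have h2 : Finsupp.weight (fun _ => 1) m = n := h1
    rw [← Finsupp.degree_eq_weight_one, Finsupp.degree_eq_sum] at h2
    exact h2
  have h2 : ∏ i, (t * w i) ^ m i = t ^ n * ∏ i, w i ^ m i := by
    rw [← hm', ← Finset.prod_pow_eq_pow_sum, ← Finset.prod_mul_distrib]
    exact Finset.prod_congr rfl fun i _ => mul_pow _ _ _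
  rw [h2]
  ring

theorem diff_eval {f : ℂ → Fin 3 → ℂ} {s : Set ℂ}
    (hf : ∀ j, DifferentiableOn ℂ (fun z => f z j) s) (φ : MvPolynomial (Fin 3) ℂ) :
    DifferentiableOn ℂ (fun z => eval (f z) φ) s := by
  induction φ using MvPolynomial.induction_on with
  | C a =>
    simp only [eval_C]
    exact differentiableOn_const _
  | add p q hp hq =>
    simp only [map_add]
    exact hp.add hq
  | mul_X p i hp =>
    simp only [map_mul, eval_X]
    exact hp.mul (hf i)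

theorem logv {H : ℂ → ℂ} (hH : DifferentiableOn ℂ H (ball 0 1))
    (hne : ∀ z ∈ ball (0 : ℂ) 1, H z ≠ 0) {l : ℂ} (hl : Complex.exp l = H 0) :
    ∃ L : ℂ → ℂ, DifferentiableOn ℂ L (ball 0 1) ∧
      (∀ z ∈ ball (0 : ℂ) 1, Complex.exp (L z) = H z) ∧ L 0 = l := by
  obtain ⟨L, hL, he, -, -⟩ := UP.Fac.exists_log one_pos hH hne
  have h0 : (0 : ℂ) ∈ ball (0 : ℂ) 1 := mem_ball_self one_pos
  refine ⟨fun z => L z + (l - L 0), hL.add_const _, ?_, by ring⟩
  intro z hz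
  show Complex.exp (L z + (l - L 0)) = H z
  rw [Complex.exp_add, he z hz, Complex.exp_sub, hl, he 0 h0, div_self (hne 0 h0), mul_one]

/-- lower bound for the values of three forms without common zero -/
theorem low (P : Fin 3 → MvPolynomial (Fin 3) ℂ) (d : Fin 3 → ℕ)
    (hP : ∀ a, (P a).IsHomogeneous (d a)) (hd : ∀ a, 1 ≤ d a)
    (h0 : ∀ w : Fin 3 → ℂ, (∀ a, eval w (P a) = 0) → w = 0) :
    ∃ K : ℝ, 1 ≤ K ∧ ∀ (w : Fin 3 → ℂ) (B : ℝ), 1 ≤ B → (∀ a, ‖eval w (P a)‖ ≤ B) →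
      ‖w‖ ≤ K * B := by
  have hcont : Continuous fun w : Fin 3 → ℂ => ∑ a, ‖eval w (P a)‖ := by
    refine continuous_finsetSum _ fun a _ => ?_
    exact (MvPolynomial.continuous_eval (P a)).norm
  have hne : (sphere (0 : Fin 3 → ℂ) 1).Nonempty := by
    refine ⟨fun _ => 1, ?_⟩
    rw [mem_sphere_zero_iff_norm, pi_norm_const, norm_one]
  obtain ⟨w0, hw0, hmin⟩ := (isCompact_sphere (0 : Fin 3 → ℂ) 1).exists_isMinOn hne
    hcont.continuousOn
  set m : ℝ := ∑ a, ‖eval w0 (P a)‖ with hm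
  have hmpos : 0 < m := by
    have h1 : 0 ≤ m := Finset.sum_nonneg fun a _ => norm_nonneg _
    rcases h1.eq_or_lt with h2 | h2
    · exfalso
      have h3 : ∀ a, eval w0 (P a) = 0 := by
        intro a
        have h4 := (Finset.sum_eq_zero_iff_of_nonneg (fun a _ => norm_nonneg _)).1 h2.symm a
          (Finset.mem_univ a)
        exact norm_eq_zero.1 h4
      have h5 := h0 w0 h3
      rw [h5] at hw0
      simp at hw0
    · exact h2
  refine ⟨1 + 3 / m, by linarith [div_pos (by norm_num : (0 : ℝ) < 3) hmpos], ?_⟩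
  intro w B hB hw
  have hK : 0 < 3 / m := div_pos (by norm_num) hmpos
  by_cases h1 : ‖w‖ ≤ 1
  · nlinarith
  · push Not at h1
    have hwpos : 0 < ‖w‖ := by linarith
    have hwne : (‖w‖ : ℂ) ≠ 0 := by exact_mod_cast hwpos.ne'
    have h2 : (fun j => (‖w‖ : ℂ)⁻¹ * w j) ∈ sphere (0 : Fin 3 → ℂ) 1 := by
      rw [mem_sphere_zero_iff_norm]
      have h3 : (fun j => (‖w‖ : ℂ)⁻¹ * w j) = (‖w‖ : ℂ)⁻¹ • w := by
        funext j
        rfl
      rw [h3, norm_smul, norm_inv, Complex.norm_real, norm_norm]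
      exact inv_mul_cancel₀ hwpos.ne'
    have h3 : m ≤ ∑ a, ‖eval (fun j => (‖w‖ : ℂ)⁻¹ * w j) (P a)‖ := hmin h2
    have h4 : ∀ a, ‖w‖ * ‖eval (fun j => (‖w‖ : ℂ)⁻¹ * w j) (P a)‖ ≤ B := by
      intro a
      have h5 : eval w (P a) =
          (‖w‖ : ℂ) ^ (d a) * eval (fun j => (‖w‖ : ℂ)⁻¹ * w j) (P a) := by
        rw [eval_scale (hP a), ← mul_assoc, ← mul_pow, mul_inv_cancel₀ hwne, one_pow, one_mul]
      have h6 := hw a
      rw [h5, norm_mul, norm_pow, Complex.norm_real, norm_norm] at h6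
      refine le_trans ?_ h6
      refine mul_le_mul_of_nonneg_right ?_ (norm_nonneg _)
      calc ‖w‖ = ‖w‖ ^ 1 := (pow_one _).symm
        _ ≤ ‖w‖ ^ d a := pow_le_pow_right₀ h1.le (hd a)
    have h7 : ‖w‖ * m ≤ 3 * B := by
      calc ‖w‖ * m ≤ ‖w‖ * ∑ a, ‖eval (fun j => (‖w‖ : ℂ)⁻¹ * w j) (P a)‖ :=
            mul_le_mul_of_nonneg_left h3 hwpos.le
        _ = ∑ a, ‖w‖ * ‖eval (fun j => (‖w‖ : ℂ)⁻¹ * w j) (P a)‖ := by rw [Finset.mul_sum]
        _ ≤ ∑ _a : Fin 3, B := Finset.sum_le_sum fun a _ => h4 a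
        _ = 3 * B := by
          rw [Finset.sum_const, Finset.card_univ, Fintype.card_fin, nsmul_eq_mul]
          norm_num
    have h8 : ‖w‖ ≤ 3 * B / m := by
      rw [le_div_iff₀ hmpos]
      exact h7
    have h9 : 3 * B / m = 3 / m * B := by ring
    rw [h9] at h8
    nlinarith

/-- the index of the first two forms -/
def ix (i : Fin 2) : Fin 3 := i.castSucc

/-- normalisation of a disc -/
theorem disc (P : Fin 3 → MvPolynomial (Fin 3) ℂ) (d : Fin 3 → ℕ)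
    (hP : ∀ a, (P a).IsHomogeneous (d a)) (hd : ∀ a, 1 ≤ d a) (w : Fin 3 → ℂ)
    (hw : ∀ a, eval w (P a) ≠ 0) : ∃ (lam : ℂ) (u0 : Fin 2 → ℂ), lam ≠ 0 ∧
    ∀ f : ℂ → Fin 3 → ℂ, DifferentiableOn ℂ f (ball 0 1) →
      (∀ z ∈ ball (0 : ℂ) 1, ∀ a, eval (f z) (P a) ≠ 0) → f 0 = w →
      ∃ (h : ℂ → ℂ) (U : Fin 2 → ℂ → ℂ), DifferentiableOn ℂ h (ball 0 1) ∧ h 0 = lam ∧
        (∀ z ∈ ball (0 : ℂ) 1, eval (fun j => h z * f z j) (P 2) = 1) ∧
        (∀ i, DifferentiableOn ℂ (U i) (ball 0 1)) ∧ (∀ i, U i 0 = u0 i) ∧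
        ∀ i, ∀ z ∈ ball (0 : ℂ) 1, eval (fun j => h z * f z j) (P (ix i)) =
          Complex.exp (U i z) := by
  set l : ℂ := Complex.log (eval w (P 2)) with hl
  have hle : Complex.exp l = eval w (P 2) := Complex.exp_log (hw 2)
  set lam : ℂ := Complex.exp (-l / (d 2 : ℂ)) with hlam
  have hlam0 : lam ≠ 0 := Complex.exp_ne_zero _
  have hd2 : (d 2 : ℂ) ≠ 0 := by
    have := hd 2
    exact_mod_cast (by omega : d 2 ≠ 0)
  refine ⟨lam, fun i => Complex.log (eval (fun j => lam * w j) (P (ix i))), hlam0, ?_⟩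
  intro f hf hfP hf0
  have hfj : ∀ j, DifferentiableOn ℂ (fun z => f z j) (ball 0 1) := fun j =>
    (differentiableOn_pi.1 hf) j
  have hB0 : (0 : ℂ) ∈ ball (0 : ℂ) 1 := mem_ball_self one_pos
  obtain ⟨L, hL, hLe, hL0⟩ := logv (diff_eval hfj (P 2)) (fun z hz => hfP z hz 2)
    (l := l) (by rw [hf0]; exact hle)
  have hhd : DifferentiableOn ℂ (fun z => Complex.exp (-(L z) / (d 2 : ℂ))) (ball 0 1) :=
    (hL.neg.div_const _).cexp
  have hne : ∀ z ∈ ball (0 : ℂ) 1, ∀ a, eval (fun j => Complex.exp (-(L z) / (d 2 : ℂ)) * f z j)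
      (P a) ≠ 0 := by
    intro z hz a
    rw [eval_scale (hP a)]
    exact mul_ne_zero (pow_ne_zero _ (Complex.exp_ne_zero _)) (hfP z hz a)
  have hft : ∀ j, DifferentiableOn ℂ (fun z => Complex.exp (-(L z) / (d 2 : ℂ)) * f z j)
      (ball 0 1) := fun j => hhd.mul (hfj j)
  have hU : ∀ i : Fin 2, ∃ U : ℂ → ℂ, DifferentiableOn ℂ U (ball 0 1) ∧
      (∀ z ∈ ball (0 : ℂ) 1, Complex.exp (U z) =
        eval (fun j => Complex.exp (-(L z) / (d 2 : ℂ)) * f z j) (P (ix i))) ∧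
      U 0 = Complex.log (eval (fun j => lam * w j) (P (ix i))) := by
    intro i
    refine logv (diff_eval hft (P (ix i))) (fun z hz => hne z hz (ix i)) ?_
    rw [hL0, hf0, ← hlam]
    apply Complex.exp_log
    rw [eval_scale (hP _)]
    exact mul_ne_zero (pow_ne_zero _ hlam0) (hw _)
  choose U hU1 hU2 hU3 using hU
  refine ⟨fun z => Complex.exp (-(L z) / (d 2 : ℂ)), U, hhd, ?_, ?_, hU1, hU3,
    fun i z hz => (hU2 i z hz).symm⟩
  · show Complex.exp (-(L 0) / (d 2 : ℂ)) = lam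
    rw [hL0]
  · intro z hz
    show eval (fun j => Complex.exp (-(L z) / (d 2 : ℂ)) * f z j) (P 2) = 1
    rw [eval_scale (hP 2), ← hLe z hz, ← Complex.exp_nat_mul, ← Complex.exp_add]
    have h1 : (d 2 : ℂ) * (-(L z) / (d 2 : ℂ)) + L z = 0 := by
      field_simp
      ring
    rw [h1, Complex.exp_zero]

/-- the functions of a disc -/
def gg (h : ℂ → ℂ) (f : ℂ → Fin 3 → ℂ) (U : Fin 2 → ℂ → ℂ) : (Fin 3 ⊕ Fin 2 ⊕ Fin 2) → ℂ → ℂ :=
  Sum.elim (fun j z => h z * f z j)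
    (Sum.elim (fun i z => Complex.exp (U i z)) (fun i z => Complex.exp (-(U i z))))

theorem gre_bound (P : Fin 3 → MvPolynomial (Fin 3) ℂ) {K : ℝ} (hK1 : 1 ≤ K)
    (hK : ∀ (w : Fin 3 → ℂ) (B : ℝ), 1 ≤ B → (∀ a, ‖eval w (P a)‖ ≤ B) → ‖w‖ ≤ K * B)
    {h : ℂ → ℂ} {f : ℂ → Fin 3 → ℂ} {U : Fin 2 → ℂ → ℂ}
    (h2 : ∀ z ∈ ball (0 : ℂ) 1, eval (fun j => h z * f z j) (P 2) = 1)
    (h01 : ∀ i, ∀ z ∈ ball (0 : ℂ) 1, eval (fun j => h z * f z j) (P (ix i)) =
      Complex.exp (U i z)) (l : Fin 3 ⊕ Fin 2 ⊕ Fin 2) {z : ℂ} (hz : z ∈ ball (0 : ℂ) 1) :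
    ‖gg h f U l z‖ ≤ Real.exp ((1 + Real.log K) * (1 + ∑ i, |(U i z).re|)) := by
  set S : ℝ := ∑ i, |(U i z).re| with hS
  have hS0 : 0 ≤ S := Finset.sum_nonneg fun i _ => abs_nonneg _
  have hSi : ∀ i, |(U i z).re| ≤ S := fun i =>
    Finset.single_le_sum (fun i _ => abs_nonneg ((U i z).re)) (Finset.mem_univ i)
  have hlogK : 0 ≤ Real.log K := Real.log_nonneg hK1
  have hmain : Real.log K + S ≤ (1 + Real.log K) * (1 + S) := by nlinarith
  have hSle : S ≤ (1 + Real.log K) * (1 + S) := by linarith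
  rcases l with k | i | i
  · have h3 : ‖fun j => h z * f z j‖ ≤ K * Real.exp S := by
      refine hK _ _ (Real.one_le_exp hS0) ?_
      intro a
      have hexp : ∀ i, ‖Complex.exp (U i z)‖ ≤ Real.exp S := by
        intro i
        rw [Complex.norm_exp]
        exact Real.exp_le_exp.2 ((le_abs_self _).trans (hSi i))
      fin_cases a
      · have := h01 0 z hz
        show ‖eval (fun j => h z * f z j) (P (ix 0))‖ ≤ _
        rw [this]
        exact hexp 0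
      · have := h01 1 z hz
        show ‖eval (fun j => h z * f z j) (P (ix 1))‖ ≤ _
        rw [this]
        exact hexp 1
      · show ‖eval (fun j => h z * f z j) (P 2)‖ ≤ _
        rw [h2 z hz, norm_one]
        exact Real.one_le_exp hS0
    have h4 : ‖h z * f z k‖ ≤ ‖fun j => h z * f z j‖ := norm_le_pi_norm (fun j => h z * f z j) k
    show ‖h z * f z k‖ ≤ _
    refine h4.trans (h3.trans ?_)
    calc K * Real.exp S = Real.exp (Real.log K + S) := by
          rw [Real.exp_add, Real.exp_log (by linarith)]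
      _ ≤ _ := Real.exp_le_exp.2 hmain
  · show ‖Complex.exp (U i z)‖ ≤ _
    rw [Complex.norm_exp]
    exact Real.exp_le_exp.2 (((le_abs_self _).trans (hSi i)).trans hSle)
  · show ‖Complex.exp (-(U i z))‖ ≤ _
    rw [Complex.norm_exp, Complex.neg_re]
    exact Real.exp_le_exp.2 (((neg_le_abs _).trans (hSi i)).trans hSle)

theorem data (P : Fin 3 → MvPolynomial (Fin 3) ℂ) {K : ℝ} (hK1 : 1 ≤ K)
    (hK : ∀ (w : Fin 3 → ℂ) (B : ℝ), 1 ≤ B → (∀ a, ‖eval w (P a)‖ ≤ B) → ‖w‖ ≤ K * B)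
    {h : ℂ → ℂ} {f : ℂ → Fin 3 → ℂ} {U : Fin 2 → ℂ → ℂ} {u0 : Fin 2 → ℂ}
    (hf : DifferentiableOn ℂ f (ball 0 1)) (hh : DifferentiableOn ℂ h (ball 0 1))
    (h2 : ∀ z ∈ ball (0 : ℂ) 1, eval (fun j => h z * f z j) (P 2) = 1)
    (hU : ∀ i, DifferentiableOn ℂ (U i) (ball 0 1)) (hU0 : ∀ i, U i 0 = u0 i)
    (h01 : ∀ i, ∀ z ∈ ball (0 : ℂ) 1, eval (fun j => h z * f z j) (P (ix i)) =
      Complex.exp (U i z)) :
    Data ((1 + Real.log K) * (1 + ∑ i, ‖u0 i‖)) (gg h f U) U := by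
  have hlogK : 0 ≤ Real.log K := Real.log_nonneg hK1
  have hs0 : 0 ≤ ∑ i, ‖u0 i‖ := Finset.sum_nonneg fun i _ => norm_nonneg _
  refine ⟨?_, hU, ?_, ?_⟩
  · intro l
    rcases l with k | i | i
    · exact hh.mul ((differentiableOn_pi.1 hf) k)
    · exact (hU i).cexp
    · exact (hU i).neg.cexp
  · intro l z hz
    refine (gre_bound P hK1 hK h2 h01 l hz).trans (Real.exp_le_exp.2 ?_)
    have h3 : ∑ i, |(U i z).re| ≤ ∑ i, ‖U i z - U i 0‖ + ∑ i, ‖u0 i‖ := by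
      rw [← Finset.sum_add_distrib]
      refine Finset.sum_le_sum fun i _ => ?_
      rw [← hU0 i]
      calc |(U i z).re| ≤ ‖U i z‖ := Complex.abs_re_le_norm _
        _ = ‖(U i z - U i 0) + U i 0‖ := by rw [sub_add_cancel]
        _ ≤ _ := norm_add_le _ _
    have h4 : 0 ≤ ∑ i, ‖U i z - U i 0‖ := Finset.sum_nonneg fun i _ => norm_nonneg _
    rw [mul_assoc]
    refine mul_le_mul_of_nonneg_left ?_ (by linarith)
    nlinarith
  · intro l z hz
    refine (gre_bound P hK1 hK h2 h01 l hz).trans (Real.exp_le_exp.2 ?_)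
    have h4 : 0 ≤ ∑ i, |(U i z).re| := Finset.sum_nonneg fun i _ => abs_nonneg _
    rw [mul_assoc]
    refine mul_le_mul_of_nonneg_left ?_ (by linarith)
    nlinarith

/-- the derivative of a disc with small growth is bounded -/
theorem der_bound {C A rho : ℝ} {h : ℂ → ℂ} {f : ℂ → Fin 3 → ℂ} {U : Fin 2 → ℂ → ℂ}
    {w v : Fin 3 → ℂ} {lam c : ℂ} {R : ℝ} (hC : 0 ≤ C) (hR : 0 ≤ R)
    (hD : Data C (gg h f U) U) (hf : DifferentiableOn ℂ f (ball 0 1))
    (hh : DifferentiableOn ℂ h (ball 0 1)) (hf0 : f 0 = w) (hh0 : h 0 = lam)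
    (hder : deriv f 0 = (R : ℂ) • v + c • w) (hr0 : 0 < rho) (hr1 : rho < 1)
    (hM : Mx U rho ≤ A) (i j : Fin 3) :
    ‖lam‖ * R * ‖v i * w j - v j * w i‖ ≤ 2 * ‖w‖ * (Real.exp (C * (1 + A)) / rho) := by
  have hB0 : (0 : ℂ) ∈ ball (0 : ℂ) 1 := mem_ball_self one_pos
  have hnhds : ball (0 : ℂ) 1 ∈ nhds (0 : ℂ) := isOpen_ball.mem_nhds hB0
  have hfd : HasDerivAt f (deriv f 0) 0 := (hf.differentiableAt hnhds).hasDerivAt
  have hhd : HasDerivAt h (deriv h 0) 0 := (hh.differentiableAt hnhds).hasDerivAt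
  have hF : ∀ k, HasDerivAt (fun z => h z * f z k)
      (deriv h 0 * w k + lam * ((R : ℂ) * v k + c * w k)) 0 := by
    intro k
    have h1 := hhd.mul ((hasDerivAt_pi.1 hfd) k)
    rw [hf0, hh0, hder] at h1
    exact h1
  have hbound : ∀ k, ‖deriv h 0 * w k + lam * ((R : ℂ) * v k + c * w k)‖ ≤
      Real.exp (C * (1 + A)) / rho := by
    intro k
    rw [← (hF k).deriv]
    refine Complex.norm_deriv_le_of_forall_mem_sphere_norm_le hr0 ?_ ?_
    · apply DifferentiableOn.diffContOnCl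
      rw [closure_ball _ hr0.ne']
      exact (hh.mul ((differentiableOn_pi.1 hf) k)).mono (closedBall_subset_ball hr1)
    · intro z hz
      rw [mem_sphere_zero_iff_norm] at hz
      have hz1 : z ∈ ball (0 : ℂ) 1 := by
        rw [mem_ball_zero_iff]
        linarith
      refine (hD.growth (Sum.inl k) z hz1).trans (Real.exp_le_exp.2 ?_)
      have h3 := (Mx_proof 2 U hD.hu).2.1 rho z hr1 hz.le
      exact mul_le_mul_of_nonneg_left (by linarith) hC
  have hid : lam * (R : ℂ) * (v i * w j - v j * w i) =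
      w j * (deriv h 0 * w i + lam * ((R : ℂ) * v i + c * w i)) -
        w i * (deriv h 0 * w j + lam * ((R : ℂ) * v j + c * w j)) := by ring
  have h1 : ‖lam‖ * R * ‖v i * w j - v j * w i‖ = ‖lam * (R : ℂ) * (v i * w j - v j * w i)‖ := by
    rw [norm_mul, norm_mul, Complex.norm_real, Real.norm_of_nonneg hR]
  rw [h1, hid]
  refine (norm_sub_le _ _).trans ?_
  rw [norm_mul, norm_mul]
  have h2 : ‖w j‖ * ‖deriv h 0 * w i + lam * ((R : ℂ) * v i + c * w i)‖ ≤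
      ‖w‖ * (Real.exp (C * (1 + A)) / rho) :=
    mul_le_mul (norm_le_pi_norm w j) (hbound i) (norm_nonneg _) (norm_nonneg _)
  have h3 : ‖w i‖ * ‖deriv h 0 * w j + lam * ((R : ℂ) * v j + c * w j)‖ ≤
      ‖w‖ * (Real.exp (C * (1 + A)) / rho) :=
    mul_le_mul (norm_le_pi_norm w i) (hbound j) (norm_nonneg _) (norm_nonneg _)
  linarith

end CGeox

open CGeox in
theorem Geo_proof : S_Geo := by
  intro P d hP hd h0 w v hw hwP hv hA
  obtain ⟨K, hK1, hK⟩ := low P d hP hd h0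
  obtain ⟨lam, u0, hlam, hdisc⟩ := disc P d hP hd w hwP
  have hA' := fun n : ℕ => hA (n : ℝ)
  choose R f c hR hf hfP hf0 hder using hA'
  have hdisc' := fun n => hdisc (f n) (hf n) (hfP n) (hf0 n)
  choose h U hh hh0 h2 hU hU0 h01 using hdisc'
  have hlogK : 0 ≤ Real.log K := Real.log_nonneg hK1
  have hs0 : 0 ≤ ∑ i, ‖u0 i‖ := Finset.sum_nonneg fun i _ => norm_nonneg _
  have hC0 : 0 ≤ (1 + Real.log K) * (1 + ∑ i, ‖u0 i‖) := by positivity
  have hdat : ∀ n, Data ((1 + Real.log K) * (1 + ∑ i, ‖u0 i‖)) (gg (h n) (f n) (U n)) (U n) :=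
    fun n => data P hK1 hK (hf n) (hh n) (h2 n) (hU n) (hU0 n) (h01 n)
  refine ⟨(1 + Real.log K) * (1 + ∑ i, ‖u0 i‖), u0, lam, fun n => gg (h n) (f n) (U n), U, hlam,
    ⟨hdat, hU0, ?_⟩, ?_, ?_, ?_⟩
  · intro rho hr0 hr1 A
    obtain ⟨j, hj⟩ : ∃ j, w j ≠ 0 := by
      by_contra hcon
      push Not at hcon
      exact hw (funext hcon)
    obtain ⟨i, hi⟩ : ∃ i, v i * w j - v j * w i ≠ 0 := by
      by_contra hcon
      push Not at hcon
      apply hv (v j / w j)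
      funext i
      have := hcon i
      simp only [Pi.smul_apply, smul_eq_mul]
      field_simp
      linear_combination this
    have hDpos : 0 < ‖lam‖ * ‖v i * w j - v j * w i‖ :=
      mul_pos (norm_pos_iff.2 hlam) (norm_pos_iff.2 hi)
    set B : ℝ := 2 * ‖w‖ * (Real.exp ((1 + Real.log K) * (1 + ∑ i, ‖u0 i‖) * (1 + A)) / rho)
      with hB
    obtain ⟨N, hN⟩ := exists_nat_gt (B / (‖lam‖ * ‖v i * w j - v j * w i‖))
    filter_upwards [Filter.eventually_ge_atTop N] with n hn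
    by_contra hcon
    push Not at hcon
    have hn0 : (0 : ℝ) ≤ n := Nat.cast_nonneg n
    have h3 := der_bound (A := A) hC0 (hn0.trans (hR n)) (hdat n) (hf n) (hh n) (hf0 n) (hh0 n)
      (hder n) hr0 hr1 hcon.le i j
    rw [← hB] at h3
    rw [div_lt_iff₀ hDpos] at hN
    have h4 : (N : ℝ) ≤ R n := by
      have : (N : ℝ) ≤ n := by exact_mod_cast hn
      exact this.trans (hR n)
    have h5 : (N : ℝ) * (‖lam‖ * ‖v i * w j - v j * w i‖) ≤
        R n * (‖lam‖ * ‖v i * w j - v j * w i‖) := mul_le_mul_of_nonneg_right h4 hDpos.le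
    have h6 : R n * (‖lam‖ * ‖v i * w j - v j * w i‖) =
        ‖lam‖ * R n * ‖v i * w j - v j * w i‖ := by ring
    linarith
  · intro n z hz
    exact ⟨h01 n 0 z hz, h01 n 1 z hz, h2 n z hz⟩
  · intro n i z hz
    exact ⟨rfl, rfl⟩
  · intro n j
    show h n 0 * f n 0 j = lam * w j
    rw [hh0, hf0]

end

end Pool.Agent.Work.MP_6d7a54_an.NF
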