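import Pool.Agent.Work.MP_6d7a54_an.NF.StmtsC
import Pool.Agent.Work.MP_6d7a54_an.NF.StmtsB

/-!
# Discs in the complement of three curves are bounded (MP_6d7a54_an)
-/

set_option autoImplicit false

namespace Pool.Agent.Work.MP_6d7a54_an.NF

open MvPolynomial Metric

noncomputable section

namespace CMainx

/-- evaluation of a form at a multiple of a point -/
theorem eval_lam {n : ℕ} {B : MvPolynomial (Fin 3) ℂ} (hB : B.IsHomogeneous n) (lam : ℂ)
    (w : Fin 3 → ℂ) : eval (fun j => lam * w j) B = lam ^ n * eval w B := by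
  rw [eval_eq, eval_eq, Finset.mul_sum]
  apply Finset.sum_congr rfl
  intro m hm
  have hd : m.degree = n := by
    have h1 : Finsupp.weight (fun _ : Fin 3 => 1) m = n := hB (mem_support_iff.1 hm)
    rw [← h1, ← Finsupp.degree_eq_weight_one]
  have e : ∏ i ∈ m.support, (lam * w i) ^ m i = lam ^ n * ∏ i ∈ m.support, w i ^ m i := by
    simp only [mul_pow]
    rw [Finset.prod_mul_distrib, Finset.prod_pow_eq_pow_sum, ← hd]
    rfl
  rw [e]
  ring

/-- a common zero of three forms is a zero of their Jacobian -/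
theorem jac_zero (P : Fin 3 → MvPolynomial (Fin 3) ℂ) (d : Fin 3 → ℕ)
    (hP : ∀ a, (P a).IsHomogeneous (d a)) (w : Fin 3 → ℂ) (hw : w ≠ 0)
    (h : ∀ a, eval w (P a) = 0) : eval w (Jac P) = 0 := by
  have e1 : eval w (Jac P) = (Matrix.of fun a j => eval w (pderiv j (P a))).det := by
    unfold Jac Jm
    rw [RingHom.map_det]
    rfl
  rw [e1, ← Matrix.exists_mulVec_eq_zero_iff]
  refine ⟨w, hw, ?_⟩
  funext a
  have e2 := congrArg (eval w) (hP a).sum_X_mul_pderiv
  simp only [map_sum, map_mul, eval_X, map_nsmul, h a, smul_zero] at e2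
  simp only [Matrix.mulVec, dotProduct, Matrix.of_apply, Pi.zero_apply]
  rw [← e2]
  exact Finset.sum_congr rfl fun j _ => mul_comm _ _

theorem aev {F : Type} [Field F] [Algebra F ℂ] (w : Fin 3 → ℂ) (Q : MvPolynomial (Fin 3) F) :
    aeval w Q = eval w (map (algebraMap F ℂ) Q) := by
  rw [eval_map, aeval_def]

theorem map_jac {F : Type} [Field F] [Algebra F ℂ] (Q : Fin 3 → MvPolynomial (Fin 3) F) :
    map (algebraMap F ℂ) (Jac Q) = Jac (fun a => map (algebraMap F ℂ) (Q a)) := by
  unfold Jac Jm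
  rw [RingHom.map_det]
  congr 1
  ext1 a j
  simp only [RingHom.mapMatrix_apply, Matrix.map_apply, Matrix.of_apply]
  rw [pderiv_map]

/-- descent of the coefficients -/
theorem descend (hA : S_ACF) (P : Fin 3 → MvPolynomial (Fin 3) ℂ) :
    ∃ (F : Type) (_ : Field F) (_ : Algebra F ℂ), Countable F ∧ IsAlgClosed F ∧
      ∃ Q : Fin 3 → MvPolynomial (Fin 3) F, ∀ a, map (algebraMap F ℂ) (Q a) = P a := by
  classical
  obtain ⟨F, iF, iA, hc, hac, hs⟩ := hA
    (Finset.univ.biUnion fun a => (P a).support.image fun m => coeff m (P a))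
  refine ⟨F, iF, iA, hc, hac, ?_⟩
  have hs' : ∀ a, ∀ m ∈ (P a).support, ∃ x : F, algebraMap F ℂ x = coeff m (P a) := by
    intro a m hm
    apply hs
    rw [Finset.mem_biUnion]
    exact ⟨a, Finset.mem_univ _, Finset.mem_image_of_mem _ hm⟩
  choose! pk hpk using hs'
  refine ⟨fun a => ∑ m ∈ (P a).support, monomial m (pk a m), ?_⟩
  intro a
  rw [map_sum]
  conv_rhs => rw [← support_sum_monomial_coeff (P a)]
  apply Finset.sum_congr rfl
  intro m hm
  rw [map_monomial, hpk a m hm]

end CMainx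

open CMainx in
theorem Main3_proof (hNev : S_Nev) (hT : S_T3) (hA : S_ACF) (hN : S_NC0) (hR : S_Tr)
    (hG : S_Geo) : S_Main3 := by
  intro P d hhom hpos hdeg hnc
  obtain ⟨n1, n2⟩ := hN P d hhom hpos hnc
  obtain ⟨F, iF, iA, hcount, hac, Q, hQ⟩ := descend hA P
  have : CharZero F := (algebraMap F ℂ).charZero
  have hinj : Function.Injective (map (algebraMap F ℂ) : MvPolynomial (Fin 3) F → _) :=
    map_injective _ (algebraMap F ℂ).injective
  have hQhom : ∀ a, (Q a).IsHomogeneous (d a) := by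
    intro a m hm
    apply hhom a
    rw [← hQ a, coeff_map]
    exact fun h => hm ((map_eq_zero _).1 h)
  have eQ : ∀ (w : Fin 3 → ℂ) a, aeval w (Q a) = eval w (P a) := by
    intro w a
    rw [aev, hQ]
  have eJ : ∀ w : Fin 3 → ℂ, aeval w (Jac Q) = eval w (Jac P) := by
    intro w
    rw [aev, map_jac]
    simp only [hQ]
  have eD : ∀ (w : Fin 3 → ℂ) a j, aeval w (pderiv j (Q a)) = eval w (pderiv j (P a)) := by
    intro w a j
    rw [aev, ← pderiv_map, hQ]
  have eDD : ∀ (w : Fin 3 → ℂ) a i j, aeval w (pderiv i (pderiv j (Q a))) =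
      eval w (pderiv i (pderiv j (P a))) := by
    intro w a i j
    rw [aev, ← pderiv_map, ← pderiv_map, hQ]
  have hNC : NC3 Q d := by
    apply hR F Q d hQhom hpos hdeg
    · intro w hw a b hab h1 h2
      rw [eQ] at h1 h2
      rw [eJ]
      exact n1 w hw a b hab h1 h2
    · intro w hw a h1 h2 be ga h3
      rw [eQ] at h1
      refine n2 w hw a h1 (fun j => ?_) be ga (fun i j => ?_)
      · rw [← eD]
        exact h2 j
      · rw [← eDD]
        exact h3 i j
  obtain ⟨B, nB, hB0, hBhom, hmain⟩ := hT F Q d hNC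
  refine ⟨map (algebraMap F ℂ) B, nB, ?_, hBhom.map _, ?_⟩
  · intro h
    apply hB0
    apply hinj
    rw [h, map_zero]
  · intro w hw hPw hBw v hv
    by_contra hcon
    push Not at hcon
    have hzero : ∀ w : Fin 3 → ℂ, (∀ a, eval w (P a) = 0) → w = 0 := by
      intro w h
      by_contra hw
      exact n1 w hw 0 1 (by decide) (h 0) (h 1) (jac_zero P d hhom w hw h)
    obtain ⟨C, u0, lam, g, u, hlam, hbad, hrel, hexp, hg0⟩ := hG P d hhom hpos hzero w v hw hPw hv
      (by
        intro A
        obtain ⟨R, f, c, h1, h2, h3, h4, h5⟩ := hcon A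
        exact ⟨R, f, c, h5.le, h1, h2, h3, h4⟩)
    obtain ⟨L, iL, iAL, D, S, Sm, phi, hnev, hphi, hzr, hnz, hlast⟩ :=
      hNev F (Fin 3 ⊕ Fin 2 ⊕ Fin 2) 2 C u0 g u hbad
    have hren : ∀ (X : MvPolynomial (Fin 3) F),
        aeval phi (rename Sum.inl X) = aeval (fun j => phi (Sum.inl j)) X := by
      intro X
      rw [aeval_rename]
      rfl
    have hrenC : ∀ (X : MvPolynomial (Fin 3) F) (n : ℕ) (z : ℂ),
        aeval (fun l => g n l z) (rename (Sum.inl : Fin 3 → Fin 3 ⊕ Fin 2 ⊕ Fin 2) X) =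
          eval (fun j => g n (Sum.inl j) z) (map (algebraMap F ℂ) X) := by
      intro X n z
      rw [aeval_rename, aev]
      rfl
    have r0 : aeval (fun j => phi (Sum.inl j)) (Q 0) = phi (Sum.inr (Sum.inl 0)) := by
      have h := hzr (rename Sum.inl (Q 0) - X (Sum.inr (Sum.inl 0))) (by
        intro n z hz
        rw [map_sub, hrenC, aeval_X, hQ, (hrel n z hz).1, sub_self])
      rw [map_sub, hren, aeval_X] at h
      exact sub_eq_zero.1 h
    have r1 : aeval (fun j => phi (Sum.inl j)) (Q 1) = phi (Sum.inr (Sum.inl 1)) := by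
      have h := hzr (rename Sum.inl (Q 1) - X (Sum.inr (Sum.inl 1))) (by
        intro n z hz
        rw [map_sub, hrenC, aeval_X, hQ, (hrel n z hz).2.1, sub_self])
      rw [map_sub, hren, aeval_X] at h
      exact sub_eq_zero.1 h
    have r2 : aeval (fun j => phi (Sum.inl j)) (Q 2) = 1 := by
      have h := hzr (rename Sum.inl (Q 2) - 1) (by
        intro n z hz
        rw [map_sub, hrenC, map_one, hQ, (hrel n z hz).2.2, sub_self])
      rw [map_sub, hren, map_one] at h
      exact sub_eq_zero.1 h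
    have ru : ∀ i : Fin 2, phi (Sum.inr (Sum.inl i)) * phi (Sum.inr (Sum.inr i)) = 1 := by
      intro i
      have h := hzr (X (Sum.inr (Sum.inl i)) * X (Sum.inr (Sum.inr i)) - 1) (by
        intro n z hz
        rw [map_sub, map_mul, map_one, aeval_X, aeval_X, (hexp n i z hz).1, (hexp n i z hz).2,
          ← Complex.exp_add, add_neg_cancel, Complex.exp_zero, sub_self])
      rw [map_sub, map_mul, map_one, aeval_X, aeval_X] at h
      exact sub_eq_zero.1 h
    have rB : aeval (fun j => phi (Sum.inl j)) B ≠ 0 := by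
      rw [← hren]
      apply hnz
      refine ⟨lam ^ nB * eval w (map (algebraMap F ℂ) B), mul_ne_zero (pow_ne_zero _ hlam) hBw, ?_⟩
      intro n
      rw [hrenC, ← eval_lam (hBhom.map _)]
      congr 1
      congr 1
      funext j
      exact hg0 n j
    have hinv : ∀ i : Fin 2, phi (Sum.inr (Sum.inl i)) ≠ 0 ∧
        (phi (Sum.inr (Sum.inl i)))⁻¹ = phi (Sum.inr (Sum.inr i)) := by
      intro i
      exact ⟨left_ne_zero_of_mul_eq_one (ru i), inv_eq_of_mul_eq_one_right (ru i)⟩
    have hfin := hmain L D S Sm hnev (fun j => phi (Sum.inl j)) (fun j => hphi _) (by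
      intro a ha
      have ha' : a = 0 ∨ a = 1 := by
        fin_cases a
        · exact Or.inl rfl
        · exact Or.inr rfl
        · exact absurd rfl ha
      rcases ha' with rfl | rfl
      · rw [r0, (hinv 0).2]
        exact ⟨(hinv 0).1, hphi _⟩
      · rw [r1, (hinv 1).2]
        exact ⟨(hinv 1).1, hphi _⟩) r2 rB
    have f0 := hfin 0 (by decide)
    have f1 := hfin 1 (by decide)
    rw [r0, (hinv 0).2] at f0
    rw [r1, (hinv 1).2] at f1
    refine hlast (fun i => Sum.inr (Sum.inl i)) (fun i => Sum.inr (Sum.inr i))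
      (fun n i z hz => (hexp n i z hz).1) (fun n i z hz => (hexp n i z hz).2) ⟨?_, ?_⟩
    · intro i
      fin_cases i
      · exact f0.1
      · exact f1.1
    · intro i
      fin_cases i
      · exact f0.2
      · exact f1.2

end

end Pool.Agent.Work.MP_6d7a54_an.NF
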