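import Pool.Agent.Work.MP_6d7a54_an.NF.StmtsC

/-!
# Normal crossings of a product of three forms (MP_6d7a54_an)
-/

set_option autoImplicit false

namespace Pool.Agent.Work.MP_6d7a54_an.NF

open MvPolynomial Metric

namespace CNC0x

theorem third (a b : Fin 3) (h : a ≠ b) : ∃ c, c ≠ a ∧ c ≠ b ∧
    (∀ f : Fin 3 → MvPolynomial (Fin 3) ℂ, ∏ x, f x = f a * f b * f c) ∧
    ∀ f : Fin 3 → ℂ, ∑ x, f x = f a + f b + f c := by
  fin_cases a <;> fin_cases b <;> first
    | exact absurd rfl h
    | exact ⟨0, by decide, by decide,
        fun f => by rw [Fin.prod_univ_three]; simp only [Fin.reduceFinMk]; ring,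
        fun f => by rw [Fin.sum_univ_three]; simp only [Fin.reduceFinMk]; ring⟩
    | exact ⟨1, by decide, by decide,
        fun f => by rw [Fin.prod_univ_three]; simp only [Fin.reduceFinMk]; ring,
        fun f => by rw [Fin.sum_univ_three]; simp only [Fin.reduceFinMk]; ring⟩
    | exact ⟨2, by decide, by decide,
        fun f => by rw [Fin.prod_univ_three]; simp only [Fin.reduceFinMk]; ring,
        fun f => by rw [Fin.sum_univ_three]; simp only [Fin.reduceFinMk]; ring⟩
    | exact ⟨2, by decide, by decide, fun f => Fin.prod_univ_three f, fun f => Fin.sum_univ_three f⟩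

theorem d1 (w : Fin 3 → ℂ) (A B D : MvPolynomial (Fin 3) ℂ) (j : Fin 3) :
    eval w (pderiv j (A * B * D)) =
      eval w (pderiv j A) * eval w B * eval w D + eval w A * eval w (pderiv j B) * eval w D +
        eval w A * eval w B * eval w (pderiv j D) := by
  simp only [Derivation.leibniz, smul_eq_mul, map_add, map_mul]
  ring

theorem d2 (w : Fin 3 → ℂ) (A B D : MvPolynomial (Fin 3) ℂ) (i j : Fin 3) :
    eval w (pderiv i (pderiv j (A * B * D))) =
      eval w (pderiv i (pderiv j A)) * eval w B * eval w D +
      eval w A * eval w (pderiv i (pderiv j B)) * eval w D +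
      eval w A * eval w B * eval w (pderiv i (pderiv j D)) +
      (eval w (pderiv i A) * eval w (pderiv j B) + eval w (pderiv j A) * eval w (pderiv i B)) *
        eval w D +
      (eval w (pderiv i A) * eval w (pderiv j D) + eval w (pderiv j A) * eval w (pderiv i D)) *
        eval w B +
      (eval w (pderiv i B) * eval w (pderiv j D) + eval w (pderiv j B) * eval w (pderiv i D)) *
        eval w A := by
  simp only [Derivation.leibniz, smul_eq_mul, map_add, map_mul]
  ring

theorem norank {X : MvPolynomial (Fin 3) ℂ} (hX : NormalCrossing X) {w : Fin 3 → ℂ} (hw : w ≠ 0)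
    (h0 : eval w X = 0) (h1 : ∀ j, eval w (pderiv j X) = 0) (u v : Fin 3 → ℂ)
    (h2 : ∀ i j, eval w (pderiv i (pderiv j X)) = u i * v j) : False := by
  have h3 := hX w hw h0 h1
  have h4 : (Matrix.of fun i j : Fin 3 => eval w (pderiv i (pderiv j X))) =
      Matrix.vecMulVec u v := by
    ext i j
    rw [Matrix.of_apply, Matrix.vecMulVec_apply, h2]
  rw [h4] at h3
  have h5 := Matrix.rank_vecMulVec_le u v
  omega

theorem euler {A : MvPolynomial (Fin 3) ℂ} {n : ℕ} (hA : A.IsHomogeneous n) (w : Fin 3 → ℂ) :
    ∑ j, w j * eval w (pderiv j A) = n * eval w A := by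
  have h := congrArg (eval w) hA.sum_X_mul_pderiv
  rw [map_sum] at h
  simpa using h

end CNC0x

theorem NC0_proof : S_NC0 := by
  intro P d hP hd hX
  constructor
  · intro w hw a b hab ha hb hJ
    obtain ⟨c, hca, hcb, hprod, hsum⟩ := CNC0x.third a b hab
    rw [hprod] at hX
    have h0 : eval w (P a * P b * P c) = 0 := by
      rw [map_mul, map_mul, ha, zero_mul, zero_mul]
    have h1 : ∀ j, eval w (pderiv j (P a * P b * P c)) = 0 := by
      intro j
      rw [CNC0x.d1, ha, hb]
      ring
    have h2 : ∀ i j, eval w (pderiv i (pderiv j (P a * P b * P c))) =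
        (eval w (pderiv i (P a)) * eval w (pderiv j (P b)) +
          eval w (pderiv j (P a)) * eval w (pderiv i (P b))) * eval w (P c) := by
      intro i j
      rw [CNC0x.d2, ha, hb]
      ring
    have hc : eval w (P c) ≠ 0 := by
      intro hc
      refine CNC0x.norank hX hw h0 h1 0 0 ?_
      intro i j
      rw [h2, hc, mul_zero]
      simp
    -- the determinant
    have hJ2 : (Matrix.of fun a j : Fin 3 => eval w (pderiv j (P a))).det = 0 := by
      rw [← hJ]
      unfold Jac Jm
      rw [RingHom.map_det]
      rfl
    obtain ⟨v, hv, hv2⟩ := Matrix.exists_vecMul_eq_zero_iff.2 hJ2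
    have hv3 : ∀ j, v a * eval w (pderiv j (P a)) + v b * eval w (pderiv j (P b)) +
        v c * eval w (pderiv j (P c)) = 0 := by
      intro j
      have h := congrFun hv2 j
      simp only [Matrix.vecMul, dotProduct, Matrix.of_apply, Pi.zero_apply] at h
      rw [hsum (fun x => v x * eval w (pderiv j (P x)))] at h
      exact h
    have hvc : v c = 0 := by
      have h3 : ∑ j, w j * (v a * eval w (pderiv j (P a)) + v b * eval w (pderiv j (P b)) +
        v c * eval w (pderiv j (P c))) = 0 := by
        refine Finset.sum_eq_zero ?_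
        intro j _
        rw [hv3 j, mul_zero]
      have h4 : ∑ j, w j * (v a * eval w (pderiv j (P a)) + v b * eval w (pderiv j (P b)) +
        v c * eval w (pderiv j (P c))) = v a * ∑ j, w j * eval w (pderiv j (P a)) +
          v b * ∑ j, w j * eval w (pderiv j (P b)) + v c * ∑ j, w j * eval w (pderiv j (P c)) := by
        rw [Finset.mul_sum, Finset.mul_sum, Finset.mul_sum, ← Finset.sum_add_distrib,
          ← Finset.sum_add_distrib]
        refine Finset.sum_congr rfl ?_
        intro j _
        ring
      rw [h4, CNC0x.euler (hP a), CNC0x.euler (hP b), CNC0x.euler (hP c), ha, hb] at h3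
      have h5 : v c * ((d c : ℂ) * eval w (P c)) = 0 := by
        rw [← h3]
        ring
      have h6 : (d c : ℂ) ≠ 0 := by
        have := hd c
        exact_mod_cast (by omega : d c ≠ 0)
      exact (mul_eq_zero.1 h5).resolve_right (mul_ne_zero h6 hc)
    by_cases hva : v a = 0
    · have hvb : v b ≠ 0 := by
        intro hvb
        apply hv
        funext x
        have hx : x = a ∨ x = b ∨ x = c := by
          have h1 := hab
          have h2 := hca
          have h3 := hcb
          revert h1 h2 h3
          fin_cases a <;> fin_cases b <;> fin_cases c <;> fin_cases x <;> simp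
        rcases hx with rfl | rfl | rfl
        · exact hva
        · exact hvb
        · exact hvc
      have hg : ∀ j, eval w (pderiv j (P b)) = 0 := by
        intro j
        have h := hv3 j
        rw [hva, hvc, zero_mul, zero_mul, zero_add, add_zero] at h
        exact (mul_eq_zero.1 h).resolve_left hvb
      refine CNC0x.norank hX hw h0 h1 0 0 ?_
      intro i j
      rw [h2, hg i, hg j]
      simp
    · have hg : ∀ j, eval w (pderiv j (P a)) = (-(v b) / v a) * eval w (pderiv j (P b)) := by
        intro j
        have h := hv3 j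
        rw [hvc, zero_mul, add_zero] at h
        field_simp
        linear_combination h
      refine CNC0x.norank hX hw h0 h1
        (fun i => 2 * (-(v b) / v a) * eval w (P c) * eval w (pderiv i (P b)))
        (fun j => eval w (pderiv j (P b))) ?_
      intro i j
      rw [h2, hg i, hg j]
      ring
  · intro w hw a ha hga be ga hH
    obtain ⟨b, hab⟩ : ∃ b : Fin 3, a ≠ b := by
      fin_cases a
      · exact ⟨1, by decide⟩
      · exact ⟨0, by decide⟩
      · exact ⟨0, by decide⟩
    obtain ⟨c, hca, hcb, hprod, hsum⟩ := CNC0x.third a b hab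
    rw [hprod] at hX
    refine CNC0x.norank hX hw ?_ ?_ (fun i => be i * eval w (P b) * eval w (P c)) ga ?_
    · rw [map_mul, map_mul, ha, zero_mul, zero_mul]
    · intro j
      rw [CNC0x.d1, ha, hga j]
      ring
    · intro i j
      rw [CNC0x.d2, ha, hga i, hga j, hH i j]
      ring

end Pool.Agent.Work.MP_6d7a54_an.NF
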