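import Pool.Agent.Work.MP_6d7a54_an.NF.StmtsC
import Pool.Agent.Work.MP_6d7a54_an.NF.StmtsB

/-!
# Three components: from bounded discs to the Kobayashi-Royden metric (MP_6d7a54_an)
-/

set_option autoImplicit false

namespace Pool.Agent.Work.MP_6d7a54_an.NF

open MvPolynomial Metric

noncomputable section

namespace CThreex

/-- the set of admissible values is not empty -/
theorem nonempty_set {Ω : Set (Fin 3 → ℂ)} (hΩ : IsOpen Ω) {w : Fin 3 → ℂ} (hw : w ∈ Ω)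
    (v : Fin 3 → ℂ) : {t : ℝ | ∃ (R : ℝ) (f : ℂ → Fin 3 → ℂ) (c : ℂ), 0 < R ∧
    DifferentiableOn ℂ f (ball 0 1) ∧ (∀ z ∈ ball (0 : ℂ) 1, f z ∈ Ω) ∧ f 0 = w ∧
    deriv f 0 = (R : ℂ) • v + c • w ∧ t = 1 / R}.Nonempty := by
  obtain ⟨e, he, hball⟩ := Metric.isOpen_iff.1 hΩ w hw
  set R : ℝ := e / (2 * (‖v‖ + 1)) with hR
  have hv : 0 < ‖v‖ + 1 := by positivity
  have hRpos : 0 < R := by positivity
  have hder : ∀ z : ℂ, HasDerivAt (fun z : ℂ => w + (z * R) • v) ((R : ℂ) • v) z := by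
    intro z
    have h1 : HasDerivAt (fun z : ℂ => z * (R : ℂ)) (R : ℂ) z := by
      simpa using (hasDerivAt_id z).mul_const (R : ℂ)
    exact (h1.smul_const v).const_add w
  refine ⟨1 / R, R, fun z => w + (z * R) • v, 0, hRpos, ?_, ?_, ?_, ?_, rfl⟩
  · intro z _
    exact (hder z).differentiableAt.differentiableWithinAt
  · intro z hz
    apply hball
    have hz1 : ‖z‖ < 1 := by simpa using hz
    rw [mem_ball, dist_eq_norm, add_sub_cancel_left, norm_smul, norm_mul]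
    have h1 : ‖(R : ℂ)‖ = R := by
      rw [Complex.norm_real]
      exact abs_of_pos hRpos
    rw [h1]
    calc ‖z‖ * R * ‖v‖ ≤ 1 * R * (‖v‖ + 1) := by
          gcongr
          linarith
      _ = e / 2 := by
          rw [hR]
          field_simp
      _ < e := by linarith
  · simp
  · rw [(hder 0).deriv]
    simp

theorem pos_of_bound {Ω : Set (Fin 3 → ℂ)} (hΩ : IsOpen Ω) {w v : Fin 3 → ℂ} (hw : w ∈ Ω)
    {M : ℝ} (hb : ∀ (R : ℝ) (f : ℂ → Fin 3 → ℂ) (c : ℂ), DifferentiableOn ℂ f (ball 0 1) →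
      (∀ z ∈ ball (0 : ℂ) 1, f z ∈ Ω) → f 0 = w → deriv f 0 = (R : ℂ) • v + c • w → R ≤ M) :
    0 < kobayashiRoyden Ω w v := by
  have hM : 0 < max M 1 := lt_of_lt_of_le one_pos (le_max_right _ _)
  unfold kobayashiRoyden
  refine lt_of_lt_of_le (one_div_pos.2 hM) (le_csInf (nonempty_set hΩ hw v) ?_)
  rintro t ⟨R, f, c, hR, hf, hfΩ, hf0, hder, rfl⟩
  exact one_div_le_one_div_of_le hR ((hb R f c hf hfΩ hf0 hder).trans (le_max_left _ _))

theorem cone_open (X : MvPolynomial (Fin 3) ℂ) : IsOpen (complementCone X) := by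
  have : complementCone X = {w : Fin 3 → ℂ | w ≠ 0} ∩ {w : Fin 3 → ℂ | eval w X ≠ 0} := rfl
  rw [this]
  exact (isOpen_ne_fun continuous_id continuous_const).inter
    (isOpen_ne_fun (MvPolynomial.continuous_eval X) continuous_const)

theorem ne_zero_of_nc {X : MvPolynomial (Fin 3) ℂ} (h : NormalCrossing X) : X ≠ 0 := by
  rintro rfl
  have h1 := h (fun _ => 1) (fun h => one_ne_zero (congrFun h 0)) (by simp) (by simp)
  have h2 : (Matrix.of fun i j : Fin 3 => eval (fun _ => (1 : ℂ))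
      (pderiv i (pderiv j (0 : MvPolynomial (Fin 3) ℂ)))) = 0 := by
    ext i j
    simp
  rw [h2, Matrix.rank_zero] at h1
  omega

theorem deg_pos {A : MvPolynomial (Fin 3) ℂ} {a : ℕ} (hA : ¬ IsUnit A) (hA0 : A ≠ 0)
    (h : A.IsHomogeneous a) : 1 ≤ a := by
  by_contra ha
  have ha0 : a = 0 := by omega
  subst ha0
  have h1 := h.totalDegree hA0
  rw [totalDegree_eq_zero_iff_eq_C] at h1
  apply hA
  rw [h1]
  refine IsUnit.map C (isUnit_iff_ne_zero.2 fun h2 => hA0 ?_)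
  rw [h1, h2, C_0]

end CThreex

open CThreex in
theorem Three_proof (h0 : S_HF) (h : S_Main3) : S_Three := by
  rintro d X hX hd hNC ⟨A, B, C', hA, hB, hC, hXe⟩
  have hX0 := ne_zero_of_nc hNC
  have hA0 : A ≠ 0 := by rintro rfl; exact hX0 (by rw [hXe]; ring)
  have hB0 : B ≠ 0 := by rintro rfl; exact hX0 (by rw [hXe]; ring)
  have hC0 : C' ≠ 0 := by rintro rfl; exact hX0 (by rw [hXe]; ring)
  obtain ⟨a, -, ha⟩ := h0 ℂ X A d hX0 hX ⟨B * C', by rw [hXe]; ring⟩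
  obtain ⟨b, -, hb⟩ := h0 ℂ X B d hX0 hX ⟨A * C', by rw [hXe]; ring⟩
  obtain ⟨c, -, hc⟩ := h0 ℂ X C' d hX0 hX ⟨A * B, by rw [hXe]; ring⟩
  have ha1 := deg_pos hA hA0 ha
  have hb1 := deg_pos hB hB0 hb
  have hc1 := deg_pos hC hC0 hc
  have hsum : a + b + c = d := by
    have h1 : X.IsHomogeneous (a + b + c) := by
      rw [hXe]
      exact (ha.mul hb).mul hc
    exact h1.inj_right hX hX0
  have hprod : ∏ i, (![A, B, C'] : Fin 3 → MvPolynomial (Fin 3) ℂ) i = X := by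
    rw [Fin.prod_univ_three, hXe]
    rfl
  obtain ⟨Q, N, hQ0, hQh, hmain⟩ := h ![A, B, C'] ![a, b, c]
    (by intro i; fin_cases i; exacts [ha, hb, hc])
    (by intro i; fin_cases i; exacts [ha1, hb1, hc1])
    (by
      rw [Fin.sum_univ_three]
      change 4 ≤ a + b + c
      omega)
    (by rw [hprod]; exact hNC)
  have hiff : ∀ w : Fin 3 → ℂ, eval w X ≠ 0 →
      ∀ i, eval w ((![A, B, C'] : Fin 3 → MvPolynomial (Fin 3) ℂ) i) ≠ 0 := by
    intro w hw i hi
    apply hw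
    rw [← hprod, map_prod]
    exact Finset.prod_eq_zero (Finset.mem_univ i) hi
  refine ⟨Q, N, hQ0, hQh, fun w hw hQw v hv => ?_⟩
  obtain ⟨M, hM⟩ := hmain w hw.1 (hiff w hw.2) hQw v hv
  refine pos_of_bound (cone_open X) hw (M := M) fun R f c hf hfΩ hf0 hder => ?_
  exact hM R f c hf (fun z hz => hiff _ (hfΩ z hz).2) hf0 hder

end

end Pool.Agent.Work.MP_6d7a54_an.NF
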