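import Pool.Agent.Work.MP_6d7a54_an.NF.StmtsC

/-!
# Transfer of the normal crossing conditions to all extension fields
-/

set_option autoImplicit false

namespace Pool.Agent.Work.MP_6d7a54_an.NF

open MvPolynomial

namespace CTrx

lemma key {F : Type} [Field F] [Algebra F ℂ] {Om : Type} [Field Om] [Algebra F Om]
    (S : Set (MvPolynomial (Fin 3) F)) (w : Fin 3 → Om) (hw : w ≠ 0)
    (h : ∀ p ∈ S, aeval w p = 0) :
    ∃ w' : Fin 3 → ℂ, w' ≠ 0 ∧ ∀ p ∈ S, aeval w' p = 0 := by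
  by_contra hcon
  push Not at hcon
  apply hw
  funext j
  have h1 : (X j : MvPolynomial (Fin 3) F) ∈ (Ideal.span S).radical := by
    rw [← vanishingIdeal_zeroLocus_eq_radical (K := ℂ), mem_vanishingIdeal_iff]
    intro x hx
    rw [zeroLocus_span] at hx
    have hx0 : x = 0 := by
      by_contra hne
      obtain ⟨p, hp, hpx⟩ := hcon x hne
      exact hpx (hx p hp)
    rw [hx0, aeval_X]
    rfl
  obtain ⟨n, hn⟩ := h1
  have h2 : Ideal.span S ≤ RingHom.ker (aeval w : MvPolynomial (Fin 3) F →ₐ[F] Om) :=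
    Ideal.span_le.2 fun p hp => h p hp
  have h3 := h2 hn
  rw [RingHom.mem_ker, map_pow, aeval_X] at h3
  exact eq_zero_of_pow_eq_zero h3

lemma rank1 {K : Type} [Field K] (H : Fin 3 → Fin 3 → K)
    (h : ∀ i j k l, H i j * H k l = H i l * H k j) :
    ∃ be ga : Fin 3 → K, ∀ i j, H i j = be i * ga j := by
  by_cases h0 : ∀ i j, H i j = 0
  · exact ⟨0, 0, fun i j => by rw [h0]; simp⟩
  · push Not at h0
    obtain ⟨k, l, hkl⟩ := h0
    refine ⟨fun i => H i l / H k l, fun j => H k j, fun i j => ?_⟩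
    have h1 := h i j k l
    field_simp
    exact h1

end CTrx

open CTrx

theorem Tr_proof : S_Tr := by
  intro F _ _ _ _ Q dg hom pos deg n1 n2
  refine ⟨hom, pos, deg, ?_, ?_⟩
  · intro Om _ _ w hw a b hab h1 h2 h3
    obtain ⟨w', hw', hS⟩ := key {Q a, Q b, Jac Q} w hw (by
      rintro p (rfl | rfl | rfl)
      · exact h1
      · exact h2
      · exact h3)
    exact n1 w' hw' a b hab (hS _ (by simp)) (hS _ (by simp)) (hS _ (by simp))
  · intro Om _ _ w hw a h1 h2 be ga h3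
    obtain ⟨w', hw', hS⟩ := key ({p | p = Q a ∨ (∃ j, p = pderiv j (Q a)) ∨
      ∃ i j k l, p = pderiv i (pderiv j (Q a)) * pderiv k (pderiv l (Q a)) -
        pderiv i (pderiv l (Q a)) * pderiv k (pderiv j (Q a))}) w hw (by
      rintro p (rfl | ⟨j, rfl⟩ | ⟨i, j, k, l, rfl⟩)
      · exact h1
      · exact h2 j
      · rw [map_sub, map_mul, map_mul, h3, h3, h3, h3]
        ring)
    obtain ⟨be', ga', h4⟩ := rank1 (fun i j => aeval w' (pderiv i (pderiv j (Q a)))) (by
      intro i j k l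
      have h5 := hS _ (Or.inr (Or.inr ⟨i, j, k, l, rfl⟩))
      rw [map_sub, map_mul, map_mul] at h5
      exact sub_eq_zero.1 h5)
    exact n2 w' hw' a (hS _ (Or.inl rfl)) (fun j => hS _ (Or.inr (Or.inl ⟨j, rfl⟩))) be' ga' h4

end Pool.Agent.Work.MP_6d7a54_an.NF
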