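import Mathlib

/-!
# Nevanlinna fields (MP_6d7a54_an)

A sequence of bad discs gives a differential field `L` with a subring `Sm` of small elements and
a subring `S` of (almost) holomorphic elements, in which the Nevanlinna theory of entire curves
holds exactly.
-/

namespace Pool.Agent.Work.MP_6d7a54_an.NF

open Filter Metric Set Topology

noncomputable section

/-- abstract Nevanlinna field: `S` holomorphic elements, `Sm` small elements -/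
structure IsNev {F L : Type} [Field F] [Field L] [Algebra F L] (D : Derivation F L L)
    (S Sm : Subalgebra F L) : Prop where
  dS : ∀ f ∈ S, D f ∈ S
  ld : ∀ f : L, D f * f⁻¹ ∈ Sm
  inv : ∀ f : L, f ∈ S → f ∈ Sm → f⁻¹ ∈ S ∧ f⁻¹ ∈ Sm
  pow : ∀ (f : L) (d : ℕ), d ≠ 0 → f ^ d ∈ Sm → f ∈ Sm
  const : ∀ f : L, D f = 0 → f ∈ Sm
  cic : ∀ f s : L, s ∈ S → s ≠ 0 → (∀ k : ℕ, s * f ^ k ∈ S) → f ∈ S

/-! ### Sequences of discs -/

/-- maximum of `‖v - v 0‖` on the disc of radius `rho` -/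
def mx (v : ℂ → ℂ) (rho : ℝ) : ℝ := sSup ((fun z => ‖v z - v 0‖) '' closedBall 0 rho)

/-- growth of a family -/
def Mx {d : ℕ} (u : Fin d → ℂ → ℂ) (rho : ℝ) : ℝ := ∑ i, mx (u i) rho

/-- holomorphic data on the unit disc: the functions `g` have growth bounded by `u` -/
structure Data {I : Type} {d : ℕ} (C : ℝ) (g : I → ℂ → ℂ) (u : Fin d → ℂ → ℂ) : Prop where
  hg : ∀ l, DifferentiableOn ℂ (g l) (ball 0 1)
  hu : ∀ i, DifferentiableOn ℂ (u i) (ball 0 1)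
  growth : ∀ l, ∀ z ∈ ball (0 : ℂ) 1, ‖g l z‖ ≤ Real.exp (C * (1 + ∑ i, ‖u i z - u i 0‖))
  gre : ∀ l, ∀ z ∈ ball (0 : ℂ) 1, ‖g l z‖ ≤ Real.exp (C * (1 + ∑ i, |(u i z).re|))

/-- a sequence of discs whose growth is unbounded at every fixed scale -/
structure BadSeq {I : Type} {d : ℕ} (C : ℝ) (u0 : Fin d → ℂ) (g : ℕ → I → ℂ → ℂ)
    (u : ℕ → Fin d → ℂ → ℂ) : Prop where
  dat : ∀ n, Data C (g n) (u n)
  hu0 : ∀ n i, u n i 0 = u0 i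
  big : ∀ rho : ℝ, 0 < rho → rho < 1 → ∀ A : ℝ, ∀ᶠ n in atTop, A ≤ Mx (u n) rho

/-! ### Differential polynomials -/

/-- differential polynomials in the functions `g l` -/
abbrev DP (F I : Type) [Field F] := MvPolynomial (I × ℕ) F

/-- evaluation of a differential polynomial at the point `z` -/
def ev {F I : Type} [Field F] [Algebra F ℂ] (g : I → ℂ → ℂ) (z : ℂ) (P : DP F I) : ℂ :=
  MvPolynomial.aeval (fun p : I × ℕ => iteratedDeriv p.2 (g p.1) z) P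

/-- the derivation on differential polynomials -/
def dd {F I : Type} [Field F] : Derivation F (DP F I) (DP F I) :=
  MvPolynomial.mkDerivation F (fun p : I × ℕ => MvPolynomial.X (p.1, p.2 + 1))

/-! ### The scale -/

/-- selected scales: outer radius `a n`, inner radius `b n` -/
structure Conf (F : Type) [Field F] [Algebra F ℂ] {I : Type} {d : ℕ} (C : ℝ) (u0 : Fin d → ℂ)
    (g : ℕ → I → ℂ → ℂ) (u : ℕ → Fin d → ℂ → ℂ) (a b : ℕ → ℝ) : Prop where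
  dat : ∀ n, Data C (g n) (u n)
  hu0 : ∀ n i, u n i 0 = u0 i
  hb : ∀ n, 0 < b n
  hab : ∀ n : ℕ, b n * ((n : ℝ) + 1) ^ 3 ≤ a n
  ha : ∀ n, a n ≤ 1 / 2
  big : ∀ n : ℕ, (n : ℝ) * (1 + Real.log (1 / b n)) ≤ Mx (u n) (b n)
  dich : ∀ P : DP F I, ∀ᶠ n in atTop,
    (∀ z : ℂ, ‖z‖ ≤ a n → ‖ev (g n) z P‖ ≤ Real.exp (-(n * Mx (u n) (a n)))) ∨
    (∃ z : ℂ, ‖z‖ ≤ b n ∧ Real.exp (-(n * Mx (u n) (b n))) < ‖ev (g n) z P‖)

/-- the ultrafilter -/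
abbrev UF : Filter ℕ := (hyperfilter ℕ : Filter ℕ)

/-- tiny differential polynomials -/
def Tiny {F : Type} [Field F] [Algebra F ℂ] {I : Type} {d : ℕ} (g : ℕ → I → ℂ → ℂ)
    (u : ℕ → Fin d → ℂ → ℂ) (a : ℕ → ℝ) (P : DP F I) : Prop :=
  ∀ᶠ n in UF, ∀ z : ℂ, ‖z‖ ≤ a n → ‖ev (g n) z P‖ ≤ Real.exp (-(n * Mx (u n) (a n)))

/-- the characteristic: mean of `∑ |Re u i|` on the circle -/
def TT {d : ℕ} (u : Fin d → ℂ → ℂ) (c : ℂ) (r : ℝ) : ℝ :=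
  Real.circleAverage (fun z => ∑ i, |(u i z).re|) c r

/-- centres `c n` at which no non tiny element is small -/
structure Cen (F : Type) [Field F] [Algebra F ℂ] {I : Type} {d : ℕ} (g : ℕ → I → ℂ → ℂ)
    (u : ℕ → Fin d → ℂ → ℂ) (a b : ℕ → ℝ) (c : ℕ → ℂ) : Prop where
  hc : ∀ n, ‖c n‖ ≤ b n
  lower : ∀ P : DP F I, ¬ Tiny g u a P → ∀ del : ℝ, 0 < del → ∀ᶠ n in UF,
    Real.exp (-(del * Mx (u n) (a n / 16))) ≤ ‖ev (g n) (c n) P‖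
  upper : ∀ P : DP F I, ∀ del : ℝ, 0 < del → ∀ᶠ n in UF,
    ‖ev (g n) (c n) P‖ ≤ Real.exp (del * Mx (u n) (a n / 16))

/-- radii `r n` such that the circles are good for all non tiny elements -/
structure Rad (F : Type) [Field F] [Algebra F ℂ] {I : Type} {d : ℕ} (g : ℕ → I → ℂ → ℂ)
    (u : ℕ → Fin d → ℂ → ℂ) (a : ℕ → ℝ) (c : ℕ → ℂ) (r : ℕ → ℝ) : Prop where
  h1 : ∀ n, a n / 4 ≤ r n
  h2 : ∀ n, r n ≤ a n / 2
  lower : ∀ P : DP F I, ¬ Tiny g u a P → ∀ del : ℝ, 0 < del → ∀ᶠ n in UF,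
    ∀ z ∈ sphere (c n) (r n), Real.exp (-(del * (n * Mx (u n) (a n)))) ≤ ‖ev (g n) z P‖
  ld : ∀ P : DP F I, ¬ Tiny g u a P → ∀ del : ℝ, 0 < del → ∀ᶠ n in UF,
    Real.circleAverage (fun z => Real.posLog (‖ev (g n) z (dd P)‖ / ‖ev (g n) z P‖)) (c n) (r n)
      ≤ del * TT (u n) (c n) (r n)
  tt : ∃ kap : ℝ, 0 < kap ∧ ∀ᶠ n in UF, kap * Mx (u n) (a n / 16) ≤ TT (u n) (c n) (r n)

/-- `P / Q` is small -/
def sm {F : Type} [Field F] [Algebra F ℂ] {I : Type} {d : ℕ} (g : ℕ → I → ℂ → ℂ)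
    (u : ℕ → Fin d → ℂ → ℂ) (c : ℕ → ℂ) (r : ℕ → ℝ) (P Q : DP F I) : Prop :=
  ∀ del : ℝ, 0 < del → ∀ᶠ n in UF,
    Real.circleAverage (fun z => Real.posLog (‖ev (g n) z P‖ / ‖ev (g n) z Q‖)) (c n) (r n)
      ≤ del * TT (u n) (c n) (r n)

/-- the mean of `log |P / Q|` is not very negative -/
def lo {F : Type} [Field F] [Algebra F ℂ] {I : Type} {d : ℕ} (g : ℕ → I → ℂ → ℂ)
    (u : ℕ → Fin d → ℂ → ℂ) (c : ℕ → ℂ) (r : ℕ → ℝ) (P Q : DP F I) : Prop :=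
  ∀ del : ℝ, 0 < del → ∀ᶠ n in UF, -(del * TT (u n) (c n) (r n)) ≤
    Real.circleAverage (fun z => Real.log ‖ev (g n) z P‖ - Real.log ‖ev (g n) z Q‖) (c n) (r n)

/-! ### Existence of Nevanlinna fields -/

/-- THE ANALYTIC THEOREM -/
def S_Nev : Prop := ∀ (F : Type) [Field F] [Algebra F ℂ] [Countable F] (I : Type) [Fintype I]
  (d : ℕ) (C : ℝ) (u0 : Fin d → ℂ) (g : ℕ → I → ℂ → ℂ) (u : ℕ → Fin d → ℂ → ℂ),
  BadSeq C u0 g u →
  ∃ (L : Type) (_ : Field L) (_ : Algebra F L) (D : Derivation F L L) (S Sm : Subalgebra F L)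
    (phi : I → L), IsNev D S Sm ∧ (∀ l, phi l ∈ S) ∧
    (∀ P : MvPolynomial I F, (∀ n, ∀ z ∈ ball (0 : ℂ) 1,
      MvPolynomial.aeval (fun l => g n l z) P = 0) → MvPolynomial.aeval phi P = 0) ∧
    (∀ P : MvPolynomial I F, (∃ c : ℂ, c ≠ 0 ∧ ∀ n,
      MvPolynomial.aeval (fun l => g n l 0) P = c) → MvPolynomial.aeval phi P ≠ 0) ∧
    (∀ e e' : Fin d → I, (∀ n i, ∀ z ∈ ball (0 : ℂ) 1, g n (e i) z = Complex.exp (u n i z)) →
      (∀ n i, ∀ z ∈ ball (0 : ℂ) 1, g n (e' i) z = Complex.exp (-(u n i z))) →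
      ¬ ((∀ i, phi (e i) ∈ Sm) ∧ (∀ i, phi (e' i) ∈ Sm)))

end

end Pool.Agent.Work.MP_6d7a54_an.NF
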