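import Pool.Agent.Work.MP_6d7a54_an.NF.Defs

/-!
# Nevanlinna rings and three curves: definitions for the algebraic part (MP_6d7a54_an)
-/

namespace Pool.Agent.Work.MP_6d7a54_an.NF

open MvPolynomial

noncomputable section

/-! ### Polynomials in three variables -/

/-- base change of a polynomial -/
abbrev bc {F : Type} (K : Type) [Field F] [Field K] [Algebra F K] (P : MvPolynomial (Fin 3) F) :
    MvPolynomial (Fin 3) K := MvPolynomial.map (algebraMap F K) P

/-- Jacobian matrix of `Q` -/
def Jm {K : Type} [CommRing K] (Q : Fin 3 → MvPolynomial (Fin 3) K) :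
    Matrix (Fin 3) (Fin 3) (MvPolynomial (Fin 3) K) := Matrix.of fun a j => pderiv j (Q a)

/-- Jacobian determinant of `Q` -/
def Jac {K : Type} [CommRing K] (Q : Fin 3 → MvPolynomial (Fin 3) K) :
    MvPolynomial (Fin 3) K := (Jm Q).det

/-- the vector field with `V (Q a) = Jac Q * (l a * Q a)` -/
def VV {K : Type} [CommRing K] (Q : Fin 3 → MvPolynomial (Fin 3) K) (l : Fin 3 → K) :
    Fin 3 → MvPolynomial (Fin 3) K :=
  fun j => ∑ a, (Jm Q).adjugate j a * (C (l a) * Q a)

/-- derivative of `f` along the vector field `V` -/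
def vd {K : Type} [CommRing K] (V : Fin 3 → MvPolynomial (Fin 3) K)
    (f : MvPolynomial (Fin 3) K) : MvPolynomial (Fin 3) K := ∑ j, V j * pderiv j f

/-- Three homogeneous polynomials whose product is a normal crossing curve of degree `≥ 4`.
`n1`: two of the curves meet only at points where the Jacobian does not vanish. `n2`: at a
singular point of one of the curves the matrix of second derivatives has rank at least two. -/
structure NC3 {F : Type} [Field F] (Q : Fin 3 → MvPolynomial (Fin 3) F) (dg : Fin 3 → ℕ) :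
    Prop where
  hom : ∀ a, (Q a).IsHomogeneous (dg a)
  pos : ∀ a, 1 ≤ dg a
  deg : 4 ≤ ∑ a, dg a
  n1 : ∀ (Om : Type) [Field Om] [Algebra F Om] (w : Fin 3 → Om), w ≠ 0 → ∀ a b, a ≠ b →
    aeval w (Q a) = 0 → aeval w (Q b) = 0 → aeval w (Jac Q) ≠ 0
  n2 : ∀ (Om : Type) [Field Om] [Algebra F Om] (w : Fin 3 → Om), w ≠ 0 → ∀ a,
    aeval w (Q a) = 0 → (∀ j, aeval w (pderiv j (Q a)) = 0) → ∀ be ga : Fin 3 → Om,
    ¬ ∀ i j, aeval w (pderiv i (pderiv j (Q a))) = be i * ga j

/-! ### Nevanlinna rings -/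

/-- Nevanlinna ring: `R` holomorphic elements, `K` small holomorphic elements -/
structure NR (F K R : Type) [Field F] [Field K] [CommRing R] [IsDomain R] [Algebra F K]
    [Algebra K R] (dl : Derivation ℤ K K) (dR : Derivation ℤ R R) : Prop where
  c0 : ∀ a : F, dl (algebraMap F K a) = 0
  comp : ∀ a : K, dR (algebraMap K R a) = algebraMap K R (dl a)
  unit : ∀ x : R, IsUnit x → ∃ a : K, dR x = algebraMap K R a * x
  const : ∀ (x : R) (a : K), IsUnit x → a ≠ 0 → dR (algebraMap K R a * x) = 0 →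
    ∃ b : K, x = algebraMap K R b
  root : ∀ (x : R) (n : ℕ), n ≠ 0 → (∃ b : K, x ^ n = algebraMap K R b) →
    ∃ b : K, x = algebraMap K R b
  ld : ∀ (M : ℕ) (w e : R) (A : Fin M → K), w ≠ 0 →
    ∑ i, algebraMap K R (A i) * ((dR : R → R)^[(i : ℕ) + 1] w) = e * w →
    ∃ b : K, e = algebraMap K R b
  cic : ∀ s x y : R, s ≠ 0 → y ≠ 0 → (∀ k : ℕ, y ^ k ∣ s * x ^ k) → y ∣ x

/-- value of a polynomial over the constants at a point of `R` -/
def vq {F : Type} (K : Type) {R : Type} [Field F] [Field K] [CommRing R] [Algebra F K]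
    [Algebra K R] (q : Fin 3 → R) (P : MvPolynomial (Fin 3) F) : R := aeval q (bc K P)

/-- a point of the cone with `Q 2 = 1` and `Q 0`, `Q 1` units -/
structure Pt (K : Type) {F R : Type} [Field F] [Field K] [CommRing R] [Algebra F K]
    [Algebra K R] (Q : Fin 3 → MvPolynomial (Fin 3) F) (q : Fin 3 → R) : Prop where
  u0 : IsUnit (vq K q (Q 0))
  u1 : IsUnit (vq K q (Q 1))
  u2 : vq K q (Q 2) = 1

/-- being small -/
def InK (K : Type) {R : Type} [Field K] [CommRing R] [Algebra K R] (x : R) : Prop :=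
  ∃ b : K, x = algebraMap K R b

/-- Taylor series -/
def tay {A Om : Type} [CommRing A] [Field Om] (d : Derivation ℤ A A) (th : A →+* Om) (x : A) :
    PowerSeries Om :=
  PowerSeries.mk fun n => ((n.factorial : ℕ) : Om)⁻¹ * th ((d : A → A)^[n] x)

/-- derivative of a power series -/
def sd {E : Type} [Field E] (v : PowerSeries E) : PowerSeries E :=
  PowerSeries.mk fun n => ((n : E) + 1) * PowerSeries.coeff (n + 1) v

/-! ### The differential equation of the Jacobian -/

/-- derivation on the coefficients -/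
def dc {K : Type} [Field K] (dl : Derivation ℤ K K) (f : MvPolynomial (Fin 3) K) :
    MvPolynomial (Fin 3) K := ∑ m ∈ f.support, monomial m (dl (coeff m f))

/-- numerator of the derivative of `f / J ^ n` -/
def EE {K : Type} [Field K] (dl : Derivation ℤ K K) (J : MvPolynomial (Fin 3) K)
    (V : Fin 3 → MvPolynomial (Fin 3) K) (n : ℕ) (f : MvPolynomial (Fin 3) K) :
    MvPolynomial (Fin 3) K := J ^ 2 * dc dl f + J * vd V f - (n : MvPolynomial (Fin 3) K) * f * vd V J

/-- numerators of the derivatives of `J` -/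
def PP {K : Type} [Field K] (dl : Derivation ℤ K K) (J : MvPolynomial (Fin 3) K)
    (V : Fin 3 → MvPolynomial (Fin 3) K) : ℕ → MvPolynomial (Fin 3) K
  | 0 => J
  | i + 1 => EE dl J V (2 * i) (PP dl J V i)

/-- numerator of the differential equation -/
def PE {K : Type} [Field K] (dl : Derivation ℤ K K) (J : MvPolynomial (Fin 3) K)
    (V : Fin 3 → MvPolynomial (Fin 3) K) (M : ℕ) (A : Fin M → K) (A0 : K) :
    MvPolynomial (Fin 3) K :=
  ∑ i : Fin M, C (A i) * PP dl J V ((i : ℕ) + 1) * J ^ (2 * (M - ((i : ℕ) + 1)))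
    - C A0 * J ^ (2 * M + 1)

end

end Pool.Agent.Work.MP_6d7a54_an.NF
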