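import Pool.Agent.Work.MP_6d7a54_an.NF.Stmts

/-!
# Nevanlinna fields: assembly of the analytic theorem (MP_6d7a54_an)
-/

namespace Pool.Agent.Work.MP_6d7a54_an.NF

open Filter Metric Set Topology Real

noncomputable section

namespace Nevx

/-- embedding of polynomials -/
def em {F I : Type} [Field F] (P : MvPolynomial I F) : DP F I :=
  MvPolynomial.rename (fun l => (l, 0)) P

lemma ev_em {F I : Type} [Field F] [Algebra F ℂ] (g : I → ℂ → ℂ) (z : ℂ)
    (P : MvPolynomial I F) :
    ev g z (em P) = MvPolynomial.aeval (fun l => g l z) P := by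
  unfold ev em
  rw [MvPolynomial.aeval_rename]
  congr 1

lemma phi_em {F I L : Type} [Field F] [Field L] [Algebra F L] (phi : DP F I →ₐ[F] L)
    (P : MvPolynomial I F) :
    phi (em P) = MvPolynomial.aeval (fun l => phi (MvPolynomial.X (l, 0))) P := by
  have h := MvPolynomial.aeval_unique (phi.comp (MvPolynomial.rename (fun l : I => (l, 0))))
  have h2 := congrArg (fun f : MvPolynomial I F →ₐ[F] L => f P) h
  have h3 : (phi.comp (MvPolynomial.rename (fun l : I => (l, 0)))) P = phi (em P) := rfl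
  rw [← h3]
  refine h2.trans ?_
  congr 2
  funext l
  simp

end Nevx

open Nevx in
theorem Nev_proof (hConf : S_Conf) (hid : S_ideal) (hpr : S_prime) (hCen : S_Cen)
    (hRad : S_Rad) (h1 : S_s1) (h3 : S_s3) (h7 : S_s7) (h8 : S_s8) (hlo : S_lo)
    (hlo2 : S_lo2) (hAC : S_AC) : S_Nev := by
  intro F _ _ _ I _ d C u0 g u hbad
  obtain ⟨k, a, b, hC⟩ := hConf F I d C u0 g u hbad
  obtain ⟨c, hc⟩ := hCen F I d C u0 _ _ a b hC
  obtain ⟨r, hr⟩ := hRad F I d C u0 _ _ a b c hC hc
  set g' : ℕ → I → ℂ → ℂ := fun n => g (k n) with hg'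
  set u' : ℕ → Fin d → ℂ → ℂ := fun n => u (k n) with hu'
  obtain ⟨i1, i2, i3, i4, i5⟩ := hid F I d C u0 g' u' a b hC
  have hprime := hpr F I d C u0 g' u' a b hC
  let T : Ideal (DP F I) :=
    { carrier := {P | Tiny g' u' a P}
      add_mem' := fun {x y} hx hy => i1 x y hx hy
      zero_mem' := i4 0 (fun n z _ => by unfold ev; simp)
      smul_mem' := fun x y hy => by
        have := i2 y x hy
        rw [mul_comm] at this
        exact this }
  have hT : ∀ P : DP F I, P ∈ T ↔ Tiny g' u' a P := fun P => Iff.rfl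
  have hT1 : (1 : DP F I) ∉ T := by
    rw [hT]
    exact i5 1 ⟨1, one_ne_zero, fun n => by unfold ev; simp⟩
  have hTp : T.IsPrime := by
    refine ⟨fun h => hT1 (h ▸ Submodule.mem_top), ?_⟩
    intro x y hxy
    by_contra hcon
    push Not at hcon
    exact hprime x y hcon.1 hcon.2 hxy
  have hchar : CharZero F := (algebraMap F ℂ).charZero
  obtain ⟨c1, c2, c3, c4⟩ := h3 F I d C u0 g' u' a b c r hC hc hr
  obtain ⟨l1, l2, l3, l4, l5⟩ := hlo F I d C u0 g' u' a b c r hC hc hr
  obtain ⟨L, iF, iA, D, S, Sm, phi, hNev, hS, hker, hsm⟩ := hAC F (DP F I) dd T hTp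
    (fun x hx => i3 x hx) (sm g' u' c r) (lo g' u' c r)
    (fun p q p' q' hq hq' h hs => h1 F I d C u0 g' u' a b c r hC hc hr p q p' q' hq hq' h hs)
    (fun x => by rw [MvPolynomial.algebraMap_eq]; exact c1 x)
    (fun p q p' q' hq hq' hs hs' => c2 p q p' q' hq hq' hs hs')
    (fun p q hp hq => c3 p q hp hq)
    (fun p q e hq he hs => c4 p q e hq he hs)
    (fun p q hq h => h7 F I d C u0 g' u' a b c r hC hc hr p q hq h)
    (fun p q p' q' hp hq hp' hq' h hl => l1 p q p' q' hp hq hp' hq' h hl)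
    (fun p hp => l2 p hp)
    (fun p q p' q' hp hq hp' hq' h h' => l3 p q p' q' hp hq hp' hq' h h')
    (fun p q hp hq h => l4 p q hp hq h)
    (fun p q hp hq h h' => l5 p q hp hq h h')
    (fun x y p q hx hy hp hq h => hlo2 F I d C u0 g' u' a b c r hC hc hr x y p q hx hy hp hq h)
  refine ⟨L, iF, iA, D, S, Sm, fun l => phi (MvPolynomial.X (l, 0)), hNev, fun l => hS _,
    ?_, ?_, ?_⟩
  · intro P hP
    rw [← phi_em, hker, hT]
    apply i4
    intro n z hz
    rw [ev_em]
    exact hP (k n) z hz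
  · rintro P ⟨x, hx, hP⟩
    rw [← phi_em, Ne, hker, hT]
    apply i5
    refine ⟨x, hx, fun n => ?_⟩
    rw [ev_em]
    exact hP (k n)
  · intro e e' he he' hcon
    refine h8 F I d C u0 g' u' a b c r hC hc hr e e' (fun n => he (k n)) (fun n => he' (k n)) ?_
    have key : ∀ x : DP F I, phi x ∈ Sm → sm g' u' c r x 1 := by
      intro x hx
      rw [← hsm x 1 hT1, map_one, div_one]
      exact hx
    exact ⟨fun i => key _ (hcon.1 i), fun i => key _ (hcon.2 i)⟩

end

end Pool.Agent.Work.MP_6d7a54_an.NF
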