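import Pool.Agent.Work.MP_6d7a54_an.NF.Stmts

/-!
# The ideal of tiny elements (MP_6d7a54_an, NF)
-/

namespace Pool.Agent.Work.MP_6d7a54_an.NF

open Filter Metric Set Topology

noncomputable section

namespace idealx

variable {F I : Type} [Field F] [Algebra F ℂ] {d : ℕ} {C : ℝ} {u0 : Fin d → ℂ}
  {g : ℕ → I → ℂ → ℂ} {u : ℕ → Fin d → ℂ → ℂ} {a b : ℕ → ℝ}

theorem Mx_mono (h1 : S_Mx) {v : Fin d → ℂ → ℂ} (hv : ∀ i, DifferentiableOn ℂ (v i) (ball 0 1))
    {r s : ℝ} (hr : 0 < r) (hrs : r ≤ s) (hs : s < 1) : Mx v r ≤ Mx v s := by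
  obtain ⟨k1, -, k3, -⟩ := h1 d v hv
  have hs0 : 0 < s := hr.trans_le hrs
  have h := k3 (r / s) s (div_pos hr hs0) ((div_le_one hs0).2 hrs) hs0 hs
  rw [div_mul_cancel₀ _ hs0.ne'] at h
  refine h.trans ?_
  have := mul_le_mul_of_nonneg_right ((div_le_one hs0).2 hrs) (k1 s)
  linarith

theorem a_ge_b (hc : Conf F C u0 g u a b) (n : ℕ) : b n ≤ a n := by
  have h := hc.hab n
  have hb := hc.hb n
  have h2 : (1 : ℝ) ≤ ((n : ℝ) + 1) ^ 3 := one_le_pow₀ (by linarith [Nat.cast_nonneg (α := ℝ) n])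
  have := mul_le_mul_of_nonneg_left h2 hb.le
  linarith

theorem a_pos (hc : Conf F C u0 g u a b) (n : ℕ) : 0 < a n :=
  (hc.hb n).trans_le (a_ge_b hc n)

theorem a_lt (hc : Conf F C u0 g u a b) (n : ℕ) : a n < 1 := by
  linarith [hc.ha n]

/-- `M (a) ≥ n (1 + log (1 / a))` -/
theorem Ma_ge (h1 : S_Mx) (hc : Conf F C u0 g u a b) (n : ℕ) :
    (n : ℝ) * (1 + Real.log (1 / a n)) ≤ Mx (u n) (a n) := by
  have hb := hc.hb n
  have hab := a_ge_b hc n
  have h2 : Real.log (1 / a n) ≤ Real.log (1 / b n) :=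
    Real.log_le_log (by have := a_pos hc n; positivity) (one_div_le_one_div_of_le hb hab)
  calc (n : ℝ) * (1 + Real.log (1 / a n)) ≤ n * (1 + Real.log (1 / b n)) := by
        apply mul_le_mul_of_nonneg_left _ (Nat.cast_nonneg n)
        linarith
    _ ≤ Mx (u n) (b n) := hc.big n
    _ ≤ Mx (u n) (a n) := Mx_mono h1 (hc.dat n).hu hb hab (a_lt hc n)

theorem log_a (hc : Conf F C u0 g u a b) (n : ℕ) : 0 ≤ Real.log (1 / a n) := by
  apply Real.log_nonneg
  rw [le_div_iff₀ (a_pos hc n)]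
  linarith [a_lt hc n]

theorem n_le_Ma (h1 : S_Mx) (hc : Conf F C u0 g u a b) (n : ℕ) : (n : ℝ) ≤ Mx (u n) (a n) := by
  have h := Ma_ge h1 hc n
  have h2 := mul_nonneg (Nat.cast_nonneg (α := ℝ) n) (log_a hc n)
  linarith

/-- `log (2 / a) ≤ M (a)` -/
theorem log_half_le (h1 : S_Mx) (hc : Conf F C u0 g u a b) (n : ℕ) (hn : 1 ≤ n) :
    Real.log (1 / (a n / 2)) ≤ Mx (u n) (a n) := by
  have h := Ma_ge h1 hc n
  have ha := a_pos hc n
  have h3 : Real.log (1 / (a n / 2)) = Real.log 2 + Real.log (1 / a n) := by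
    rw [← Real.log_mul (by norm_num) (by positivity)]
    congr 1
    field_simp
  have h4 : Real.log 2 ≤ 1 := by
    have := Real.log_le_sub_one_of_pos (show (0 : ℝ) < 2 by norm_num)
    linarith
  have h5 : (1 : ℝ) ≤ n := by exact_mod_cast hn
  have h6 := log_a hc n
  have h7 : 1 * (1 + Real.log (1 / a n)) ≤ (n : ℝ) * (1 + Real.log (1 / a n)) :=
    mul_le_mul_of_nonneg_right h5 (by linarith)
  linarith

theorem UF_ge (N : ℕ) : ∀ᶠ n in UF, N ≤ n :=
  (eventually_ge_atTop N).filter_mono Nat.hyperfilter_le_atTop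

theorem UF_geR (N : ℝ) : ∀ᶠ n : ℕ in UF, N ≤ n := by
  obtain ⟨k, hk⟩ := exists_nat_ge N
  filter_upwards [UF_ge k] with n hn
  exact hk.trans (by exact_mod_cast hn)

/-- bound for an arbitrary element on the disc of radius `a / 2` -/
theorem upper (h1 : S_Mx) (h3 : S_GB) (hc : Conf F C u0 g u a b) (Q : DP F I) :
    ∃ K : ℝ, 0 ≤ K ∧ ∀ n : ℕ, 1 ≤ n → ∀ z : ℂ, ‖z‖ ≤ a n / 2 →
      ‖ev (g n) z Q‖ ≤ Real.exp (K * Mx (u n) (a n)) := by
  obtain ⟨K, hK0, hK⟩ := h3 F I Q C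
  refine ⟨3 * K, by positivity, ?_⟩
  intro n hn z hz
  obtain ⟨k1, k2, -, -⟩ := h1 d (u n) (hc.dat n).hu
  have ha := a_pos hc n
  have h := hK d (g n) (u n) (hc.dat n) 0 (a n / 2) (a n) (Mx (u n) (a n)) (by linarith)
    (closedBall_subset_ball (a_lt hc n)) (k1 _)
    (fun z hz => k2 (a n) z (a_lt hc n) (by simpa using hz)) z (by simpa using hz)
  refine h.trans (Real.exp_le_exp.2 ?_)
  have h5 : a n - a n / 2 = a n / 2 := by ring
  rw [h5]
  have h6 := log_half_le h1 hc n hn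
  have h7 : (1 : ℝ) ≤ n := by exact_mod_cast hn
  have h8 := n_le_Ma h1 hc n
  have h9 : 1 + Mx (u n) (a n) + Real.log (1 / (a n / 2)) ≤ 3 * Mx (u n) (a n) := by linarith
  calc K * (1 + Mx (u n) (a n) + Real.log (1 / (a n / 2))) ≤ K * (3 * Mx (u n) (a n)) :=
        mul_le_mul_of_nonneg_left h9 hK0
    _ = 3 * K * Mx (u n) (a n) := by ring

theorem M_half (h1 : S_Mx) (hc : Conf F C u0 g u a b) (n : ℕ) :
    Mx (u n) (1 / 2 * a n) ≤ Mx (u n) (a n) := by
  have ha := a_pos hc n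
  exact Mx_mono h1 (hc.dat n).hu (by positivity) (by linarith) (a_lt hc n)

theorem tiny_add (h1 : S_Mx) (h4 : S_crit) (hc : Conf F C u0 g u a b) (P Q : DP F I)
    (hP : Tiny g u a P) (hQ : Tiny g u a Q) : Tiny g u a (P + Q) := by
  refine h4 F I d C u0 g u a b hc (P + Q) 1 1 one_pos le_rfl one_pos ?_
  filter_upwards [hP, hQ, UF_ge 2] with n hp hq hn z hz
  rw [one_mul] at hz ⊢
  rw [one_mul]
  have h5 := hp z hz
  have h6 := hq z hz
  have h7 := n_le_Ma h1 hc n
  have h8 : (2 : ℝ) ≤ n := by exact_mod_cast hn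
  have hev : ev (g n) z (P + Q) = ev (g n) z P + ev (g n) z Q := by
    unfold ev
    rw [map_add]
  rw [hev]
  set M := Mx (u n) (a n) with hM
  have h9 : Real.exp (-(n * M)) ≤ Real.exp (-(2 * M)) := by
    apply Real.exp_le_exp.2
    have : 2 * M ≤ n * M := mul_le_mul_of_nonneg_right h8 (by linarith)
    linarith
  have h10 : 2 * Real.exp (-(2 * M)) ≤ Real.exp (-M) := by
    have e1 : Real.exp (-(2 * M)) = Real.exp (-M) * Real.exp (-M) := by
      rw [← Real.exp_add]; ring_nf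
    have e2 : Real.exp (-M) ≤ 1 / 2 := by
      have e3 : 2 ≤ Real.exp M := by
        have := Real.add_one_le_exp M
        linarith
      rw [Real.exp_neg, one_div]
      exact inv_anti₀ two_pos e3
    rw [e1]
    nlinarith [Real.exp_pos (-M)]
  calc ‖ev (g n) z P + ev (g n) z Q‖ ≤ ‖ev (g n) z P‖ + ‖ev (g n) z Q‖ := norm_add_le _ _
    _ ≤ Real.exp (-M) := by linarith

theorem tiny_mul (h1 : S_Mx) (h3 : S_GB) (h4 : S_crit) (hc : Conf F C u0 g u a b)
    (P Q : DP F I) (hP : Tiny g u a P) : Tiny g u a (P * Q) := by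
  obtain ⟨K, hK0, hK⟩ := upper h1 h3 hc Q
  refine h4 F I d C u0 g u a b hc (P * Q) (1 / 2) 1 (by norm_num) (by norm_num) one_pos ?_
  filter_upwards [hP, UF_ge 1, UF_geR (K + 1)] with n hp hn hnK z hz
  have ha := a_pos hc n
  have hz' : ‖z‖ ≤ a n / 2 := by linarith
  have h5 := hp z (by linarith)
  have h6 := hK n hn z hz'
  have h7 := n_le_Ma h1 hc n
  have h8 := M_half h1 hc n
  have hev : ev (g n) z (P * Q) = ev (g n) z P * ev (g n) z Q := by
    unfold ev
    rw [map_mul]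
  rw [hev, norm_mul, one_mul]
  calc ‖ev (g n) z P‖ * ‖ev (g n) z Q‖ ≤
      Real.exp (-(n * Mx (u n) (a n))) * Real.exp (K * Mx (u n) (a n)) :=
        mul_le_mul h5 h6 (norm_nonneg _) (Real.exp_pos _).le
    _ = Real.exp (-((n - K) * Mx (u n) (a n))) := by rw [← Real.exp_add]; ring_nf
    _ ≤ Real.exp (-Mx (u n) (1 / 2 * a n)) := by
        apply Real.exp_le_exp.2
        have h9 : 1 * Mx (u n) (a n) ≤ ((n : ℝ) - K) * Mx (u n) (a n) :=
          mul_le_mul_of_nonneg_right (by linarith) (by linarith [Nat.cast_nonneg (α := ℝ) n])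
        linarith

theorem tiny_dd (h1 : S_Mx) (h2 : S_ev) (h4 : S_crit) (hc : Conf F C u0 g u a b)
    (P : DP F I) (hP : Tiny g u a P) : Tiny g u a (dd P) := by
  refine h4 F I d C u0 g u a b hc (dd P) (1 / 2) 1 (by norm_num) (by norm_num) one_pos ?_
  filter_upwards [hP, UF_ge 2] with n hp hn z hz
  have ha := a_pos hc n
  have ha1 := a_lt hc n
  have hz' : ‖z‖ ≤ a n / 2 := by linarith
  have h7 := n_le_Ma h1 hc n
  have h8 := M_half h1 hc n
  have hn2 : (2 : ℝ) ≤ n := by exact_mod_cast hn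
  have hder := h2 F I (g n) P (ball 0 1) isOpen_ball (hc.dat n).hg
  have hz1 : z ∈ ball (0 : ℂ) 1 := by
    rw [mem_ball_zero_iff]
    linarith
  rw [← (hder z hz1).deriv, one_mul]
  have hcau : ‖deriv (fun w => ev (g n) w P) z‖ ≤
      Real.exp (-(n * Mx (u n) (a n))) / (a n / 2) := by
    apply Complex.norm_deriv_le_of_forall_mem_sphere_norm_le (by linarith)
    · apply DifferentiableOn.diffContOnCl
      intro w hw
      have hw' : w ∈ closedBall z (a n / 2) := closure_ball_subset_closedBall hw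
      have hw1 : w ∈ ball (0 : ℂ) 1 := by
        rw [mem_ball_zero_iff]
        rw [mem_closedBall, dist_eq_norm] at hw'
        have := norm_le_norm_add_norm_sub' w z
        linarith
      exact (hder w hw1).differentiableAt.differentiableWithinAt
    · intro w hw
      apply hp
      rw [mem_sphere, dist_eq_norm] at hw
      have := norm_le_norm_add_norm_sub' w z
      linarith
  refine hcau.trans ?_
  have h9 := log_half_le h1 hc n (by omega)
  have h10 : 1 / (a n / 2) ≤ Real.exp (Mx (u n) (a n)) := by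
    rw [← Real.log_le_iff_le_exp (by positivity)]
    exact h9
  calc Real.exp (-(n * Mx (u n) (a n))) / (a n / 2) =
      Real.exp (-(n * Mx (u n) (a n))) * (1 / (a n / 2)) := by ring
    _ ≤ Real.exp (-(n * Mx (u n) (a n))) * Real.exp (Mx (u n) (a n)) :=
        mul_le_mul_of_nonneg_left h10 (Real.exp_pos _).le
    _ = Real.exp (-((n - 1) * Mx (u n) (a n))) := by rw [← Real.exp_add]; ring_nf
    _ ≤ Real.exp (-Mx (u n) (1 / 2 * a n)) := by
        apply Real.exp_le_exp.2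
        have h9 : 1 * Mx (u n) (a n) ≤ ((n : ℝ) - 1) * Mx (u n) (a n) :=
          mul_le_mul_of_nonneg_right (by linarith) (by linarith)
        linarith

theorem not_tiny (h1 : S_Mx) (hc : Conf F C u0 g u a b) (P : DP F I) (c : ℂ) (hc0 : c ≠ 0)
    (hPc : ∀ n, ev (g n) 0 P = c) : ¬ Tiny g u a P := by
  intro hP
  have hpos : 0 < ‖c‖ := norm_pos_iff.2 hc0
  have hev : ∀ᶠ n : ℕ in UF, False := by
    filter_upwards [hP, UF_ge 1, UF_geR (1 / ‖c‖)] with n hp hn hnc
    have ha := a_pos hc n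
    have h5 := hp 0 (by rw [norm_zero]; exact ha.le)
    rw [hPc] at h5
    have h7 := n_le_Ma h1 hc n
    have hn1 : (1 : ℝ) ≤ n := by exact_mod_cast hn
    have h8 : (n : ℝ) ≤ n * Mx (u n) (a n) := by
      nlinarith
    have h9 : ‖c‖ ≤ Real.exp (-(n : ℝ)) := h5.trans (Real.exp_le_exp.2 (by linarith))
    have h10 : (n : ℝ) < Real.exp n := by
      have := Real.add_one_le_exp (n : ℝ)
      linarith
    rw [Real.exp_neg] at h9
    have h11 : ‖c‖ * Real.exp n ≤ 1 := by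
      calc ‖c‖ * Real.exp n ≤ (Real.exp n)⁻¹ * Real.exp n :=
            mul_le_mul_of_nonneg_right h9 (Real.exp_pos _).le
        _ = 1 := inv_mul_cancel₀ (Real.exp_pos _).ne'
    have h12 : 1 ≤ ‖c‖ * n := by
      rw [div_le_iff₀ hpos] at hnc
      linarith
    nlinarith
  exact absurd hev.exists (by simp)

end idealx

theorem ideal_proof (h1 : S_Mx) (h2 : S_ev) (h3 : S_GB) (h4 : S_crit) : S_ideal := by
  intro F I _ _ d C u0 g u a b hc
  refine ⟨fun P Q hP hQ => idealx.tiny_add h1 h4 hc P Q hP hQ,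
    fun P Q hP => idealx.tiny_mul h1 h3 h4 hc P Q hP,
    fun P hP => idealx.tiny_dd h1 h2 h4 hc P hP, ?_, ?_⟩
  · intro P hP
    refine Eventually.of_forall fun n z hz => ?_
    rw [hP n z (by rw [mem_ball_zero_iff]; exact hz.trans_lt (idealx.a_lt hc n)), norm_zero]
    exact (Real.exp_pos _).le
  · rintro P ⟨c, hc0, hPc⟩
    exact idealx.not_tiny h1 hc P c hc0 hPc

end

end Pool.Agent.Work.MP_6d7a54_an.NF
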